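import Pool.Agent.Lib.MP_028aa5_nt.N.StI

/-! The steps of the large sieve for nilsequences. -/

namespace Pool.Agent.Lib.MP_028aa5_nt.N

open Finset
open scoped Classical ComplexConjugate

/-- equidistribution for eigenfunctions of a central direction -/
def EqSt : Prop := ∀ (s : ℕ) (n : NS s) (z : n.I → ℤ) (L δ : ℝ), PN.Cen (n := n.toPN) (PN.zv z) →
  0 < δ → ∃ (Ξ : Finset (ℕ × (n.I → ℤ))) (M K0 : ℝ), PN.Chs Ξ ∧ ∀ F (k : ℝ), n.Test F L → k ≠ 0 →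
    PN.Eig F (PN.zv z) k → ∀ (g : n.Ph) (a b N : ℕ), b ≤ a + N → K0 ≤ N →
    δ * N ≤ ‖∑ m ∈ Ioc a b, F (PN.ev m g)‖ → PN.Deg Ξ M N g

/-- factorisation of phases through the kernel of a character -/
def Fac0St : Prop := ∀ (s : ℕ) (n : NS s) (i : ℕ) (ξ : n.I → ℤ), PN.IsCh i ξ →
  ∃ (n' : NS s) (φ : Mor n'.toPN n.toPN) (c : ℕ), 1 ≤ c ∧ n'.tw < n.tw ∧
    Function.Injective (φ.app ℚ) ∧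
    (∀ W : ℝ, ∃ C : ℝ, 0 ≤ C ∧ ∀ F L w σ, n.Test F L → PN.nG w ≤ W → σ ∈ n.GamQ c →
      n'.Test (fun y => F (w * φ.app ℝ y * σ)) (C * L)) ∧
    ∀ (g : n.Ph) (y N M : ℝ), 1 ≤ N → Nr (PN.sym ξ i g) (M / N ^ i) →
      ∃ (ε : n.Ph) (g' : n'.Ph) (γ : n.Ph), PN.nm N y ε ≤ (M + 1) * 2 ^ s ∧ γ ∈ n.LamQ 1 c ∧
        g = ε * φ.ph g' * γ

/-- the lemma of Goursat -/
def GourSt : Prop := ∀ (s : ℕ) (H n : NS s) (z : n.I → ℤ) (φ ψ : Mor H.toPN n.toPN), n.Cen1 z →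
  (∀ v : H.G ℚ, φ.app ℚ v = 1 → ψ.app ℚ v = 1 → v = 1) →
  (∃ (v : H.I → ℤ) (r : ℝ), r ≠ 0 ∧ PN.Cen (n := H.toPN) (PN.zv v) ∧
    φ.app ℝ (PN.zv v) = r • PN.zv z ∧ ψ.app ℝ (PN.zv v) = 1) ∨
  (∃ (i : ℕ) (ξ : n.I → ℤ), PN.IsCh i ξ ∧
    ((∀ h, PN.sym ξ i (φ.ph h) = 0) ∨ ∀ h, PN.sym ξ i (ψ.ph h) = 0)) ∨
  ∃ σ : Mor n.toPN n.toPN, ∀ h, φ.ph h = σ.ph (ψ.ph h)

/-- `g` is small times `h` times rational -/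
def NS.Sim {s : ℕ} (n : NS s) (W : ℝ) (Q : ℕ) (N y : ℝ) (g h : n.Ph) : Prop :=
  ∃ ε γ : n.Ph, PN.nm N y ε ≤ W ∧ γ ∈ n.LamQ 1 Q ∧ g = ε * h * γ

/-- pigeonhole principle -/
def PigSt : Prop := ∀ (s : ℕ) (n : NS s) (Q : ℕ) (W ρ : ℝ), 1 ≤ Q → 0 < ρ → ∃ M : ℕ,
  ∀ (N y : ℝ) (ι : Type) (A : Finset ι) (g : ι → n.Ph) (h : n.Ph),
    (∀ i ∈ A, n.Sim W Q N y (g i) h) → M < #A →
    ∃ i ∈ A, ∃ j ∈ A, i ≠ j ∧ ∃ l ∈ n.Lam 1, PN.nm N y (g i * l * (g j)⁻¹) ≤ ρ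

/-- a short progression on which the small and the rational factor are frozen -/
def PieceSt : Prop := ∀ (s : ℕ) (n : NS s) (c : ℕ) (L W δ : ℝ), 1 ≤ c → 0 < δ →
  ∃ (q T : ℕ) (C : ℝ), 1 ≤ q ∧ 1 ≤ T ∧ ∀ F, n.Test F L → ∀ (ε u γ : n.Ph) (a b N : ℕ),
    b ≤ a + N → C ≤ N → PN.nm N a ε ≤ W → γ ∈ n.LamQ 1 c →
    δ * N ≤ ‖∑ m ∈ Ioc a b, F (PN.ev m (ε * u * γ))‖ →
    ∃ (w σ : n.G ℝ) (r : ℤ) (a' b' N' : ℕ), PN.nG w ≤ C ∧ σ ∈ n.GamQ c ∧ b' ≤ a' + N' ∧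
      N ≤ q * T * N' ∧ |(q * a' + r - a : ℝ)| ≤ 2 * N ∧
      δ / 4 * N' ≤ ‖∑ m ∈ Ioc a' b', F (w * PN.ev m (PN.aff q r u) * σ)‖

/-- two phases that correlate -/
def PairSt : Prop := ∀ (s : ℕ) (n : NS s) (z : n.I → ℤ) (L δ : ℝ), n.Cen1 z → 0 < δ →
  ∃ (Ξ : Finset (ℕ × (n.I → ℤ))) (S : Finset (Mor n.toPN n.toPN)) (M : ℝ) (Q : ℕ), PN.Chs Ξ ∧
    1 ≤ Q ∧ ∀ F (k : ℤ), n.Test F L → k ≠ 0 → PN.Eig F (PN.zv z) k →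
    ∀ (g h : n.Ph) (a b N : ℕ), b ≤ a + N → M ≤ N →
    δ * N ≤ ‖∑ m ∈ Ioc a b, F (PN.ev m g) * conj (F (PN.ev m h))‖ →
    PN.Deg Ξ M N g ∨ PN.Deg Ξ M N h ∨ ∃ σ ∈ S, n.Sim M Q N a g (σ.ph h)

end Pool.Agent.Lib.MP_028aa5_nt.N
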