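import Pool.Agent.Lib.MP_028aa5_nt.N.EqV
import Pool.Agent.Lib.MP_028aa5_nt.N.StW

/-! The equidistribution theorem from its steps. -/

namespace Pool.Agent.Lib.MP_028aa5_nt.N

open Finset
open scoped Classical

theorem eqD (hD : DwnSt) (hA : AbelSt) (hC : CorSt) (s d : ℕ) : EqD s d := by
  induction d with
  | zero =>
    refine fun n z L δ hd _ _ hδ => ⟨1, fun F _ ⟨k, k0, hk⟩ g a b N _ h2 h3 => ?_⟩
    have f : ∀ x, F x = 0 := fun x => by
      have h := hk (1 / 2 / k) x
      have u := le_norm_e_sub_one (x := 1 / 2) (by norm_num [abs_of_pos])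
      rw [mul_div_cancel₀ _ k0, show _ * x = x from funext fun a => by
        have := hd a
        have := n.w1 a
        omega] at h
      refine (mul_eq_zero.1 (show (e (1 / 2) - 1) * F x = 0 by linear_combination -h)).resolve_left
        fun v => ?_
      rw [v] at u
      norm_num at u
    have : (1 : ℝ) ≤ N := by exact_mod_cast h2
    simp only [f, sum_const_zero, norm_zero] at h3
    exact absurd h3 (not_le.2 (by positivity))
  | succ d ih =>
    refine fun n z L δ hd hz hL hδ => st_Vert s _ n z L hd (fun δ j hδ hj => ?_) δ hδ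
    by_cases j0 : j = 0
    · refine EqV.mono (hD s d ih n z L δ hz hL hδ) fun F _ q => ⟨q.1, fun x y h => ?_⟩
      have := q.2 (y - x) x fun a ha => by
        have := hd a
        exact sub_eq_zero.2 (h a (by omega)).symm
      simpa [j0] using this.symm
    rcases Nat.eq_zero_or_pos d with rfl | d0
    · exact EqV.mono (hA s n L δ j hd hδ j0) fun F _ q => q.2
    · exact EqV.mono (hC s d d0 ih n L δ j hd hL hδ hj j0) fun F _ q => q.2

theorem st_Eq (hD : DwnSt) (hA : AbelSt) (hC : CorSt) : EqSt := by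
  intro s n z L δ hz hδ
  obtain ⟨W, hW⟩ := eqD hD hA hC s s n z (max L 0) δ n.ws hz (le_max_right _ _) hδ
  refine ⟨(range (s + 1) ×ˢ Fintype.piFinset fun _ => Icc (-W : ℤ) W).filter
    fun u => PN.IsCh u.1 u.2, W, W, fun u hu => (mem_filter.1 hu).2,
    fun F k hF k0 hk g a b N h1 h2 h3 => ?_⟩
  obtain ⟨i, ξ, c1, c2, c3⟩ := hW F ⟨hF.bd, hF.inv, fun u x => (hF.lip u x).trans
    (mul_le_mul_of_nonneg_right (le_max_left _ _) (sum_nonneg fun _ _ => abs_nonneg _))⟩
    ⟨k, k0, hk⟩ g a b N h1 (by exact_mod_cast h2) h3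
  obtain ⟨c, hc⟩ := Function.ne_iff.1 c1.ne
  exact ⟨(i, ξ), mem_filter.2 ⟨mem_product.2 ⟨mem_range.2 (Nat.lt_succ_of_le (c1.wt c hc ▸ n.ws c)),
    Fintype.mem_piFinset.2 fun a => mem_Icc.2 (abs_le.1 (c2 a))⟩, c1⟩, c3⟩

end Pool.Agent.Lib.MP_028aa5_nt.N
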