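import Pool.Agent.Lib.MP_028aa5_nt.N.EqA
import Pool.Agent.Lib.MP_028aa5_nt.Weyl

/-! Descent to the quotient by the last group, and the abelian case. -/

namespace Pool.Agent.Lib.MP_028aa5_nt.N

open Finset Polynomial
open scoped Classical

namespace Dwn

variable {s : ℕ} (n : NS s) (d : ℕ)

theorem sum_sub {M : Type} [AddCommMonoid M] (f : n.I → M) (h : ∀ u, d < n.wt u → f u = 0) :
    ∑ u : (n.drop d).I, f u.1 = ∑ u, f u := by
  refine (sum_subtype (univ.filter fun a => n.wt a ≤ d) (by simp) f).symm.trans ?_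
  rw [sum_filter]
  exact sum_congr rfl fun u _ => by
    split_ifs with h1
    · rfl
    · exact (h u (not_le.1 h1)).symm

/-- the projection -/
def pi (R : Type) [CommRing R] : n.G R →+ (n.drop d).G R where
  toFun x := fun a => x a.1
  map_zero' := rfl
  map_add' _ _ := rfl

variable {n d}

theorem pi_br {R : Type} [CommRing R] (u v : n.G R) :
    pi n d R (n.br u v) = (n.drop d).br (pi n d R u) (pi n d R v) := by
  funext c
  have hc : n.wt c.1 ≤ d := c.2
  have k0 : ∀ a b, d < n.wt a ∨ d < n.wt b → n.k a b c.1 = 0 := fun a b h => by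
    by_contra k0
    have := n.fil _ _ _ k0
    omega
  change ∑ a, ∑ b, (n.k a b c.1 : R) * (u a * v b) =
    ∑ a : (n.drop d).I, ∑ b : (n.drop d).I, (n.k a.1 b.1 c.1 : R) * (u a.1 * v b.1)
  rw [← sum_sub n d _ fun a ha => sum_eq_zero fun b _ => by simp [k0 a b (.inl ha)]]
  exact sum_congr rfl fun a _ => (sum_sub n d (fun b => (n.k a.1 b c.1 : R) * (u a.1 * v b))
    fun b hb => by simp [k0 a.1 b (.inr hb)]).symm

theorem pi_mul (x y : n.G ℝ) : pi n d ℝ (x * y) = pi n d ℝ x * pi n d ℝ y :=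
  PN.map_mul_of _ x y pi_br

/-- extension by zero -/
noncomputable def lift {R : Type} [Zero R] (y : (n.drop d).I → R) : n.I → R :=
  fun a => if h : n.wt a ≤ d then y ⟨a, h⟩ else 0

theorem lift_val {R : Type} [Zero R] (y : (n.drop d).I → R) (a : (n.drop d).I) :
    lift y a.1 = y a := dif_pos a.2

theorem lift_out {R : Type} [Zero R] (y : (n.drop d).I → R) {a : n.I} (h : d < n.wt a) :
    lift y a = 0 := dif_neg (not_le.2 h)

/-- extension by zero of a point -/
noncomputable def up (y : (n.drop d).G ℝ) : n.G ℝ := lift y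

theorem pi_lift (y : (n.drop d).G ℝ) : pi n d ℝ (up y) = y := funext fun a => lift_val y a

theorem nG_lift (y : (n.drop d).G ℝ) : PN.nG (up y) = PN.nG y := by
  rw [PN.nG, up, ← sum_sub n d _ fun u hu => by rw [lift_out y hu, abs_zero]]
  exact sum_congr rfl fun a _ => by rw [lift_val]

theorem lift_mem {γ : (n.drop d).G ℝ} (h : γ ∈ (n.drop d).Gam) : up γ ∈ n.Gam :=
  fun a => by
    unfold up
    by_cases ha : n.wt a ≤ d
    · rw [lift, dif_pos ha]
      exact h ⟨a, ha⟩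
    · rw [lift_out γ (not_le.1 ha)]
      exact AddSubgroup.zero_mem _

/-- the projection of a phase -/
noncomputable def ph (d : ℕ) (g : n.Ph) : (n.drop d).Ph :=
  ⟨pi n d _ g.1, (n.drop d).mem_P.2 fun a => n.mem_P.1 g.2 a.1⟩

theorem isCh {i : ℕ} {ξ : (n.drop d).I → ℤ} (h : PN.IsCh i ξ) :
    PN.IsCh (n := n.toPN) i (lift ξ) := by
  obtain ⟨c, hc⟩ := Function.ne_iff.1 h.ne
  have hi : i ≤ d := h.wt c hc ▸ c.2
  refine ⟨Function.ne_iff.2 ⟨c.1, by rwa [lift_val]⟩, fun a ha => ?_, fun a b hab => ?_⟩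
  · by_cases h1 : n.wt a ≤ d
    · rw [lift, dif_pos h1] at ha
      exact h.wt ⟨a, h1⟩ ha
    · exact absurd (lift_out ξ (not_le.1 h1)) ha
  · rw [← sum_sub n d _ fun u hu => by rw [lift_out ξ hu, zero_mul],
      ← h.br ⟨a, by omega⟩ ⟨b, by omega⟩ hab]
    exact sum_congr rfl fun u _ => by rw [lift_val]; rfl

theorem sym_lift (ξ : (n.drop d).I → ℤ) (i : ℕ) (g : n.Ph) :
    PN.sym (lift ξ) i g = PN.sym ξ i (ph d g) := by
  rw [PN.sym, ← sum_sub n d _ fun u hu => by rw [lift_out ξ hu, Int.cast_zero, zero_mul]]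
  exact sum_congr rfl fun u _ => by rw [lift_val]; rfl

theorem degW {W N : ℕ} {g : n.Ph} (h : PN.DegW W N (ph d g)) : PN.DegW W N g := by
  obtain ⟨i, ξ, h1, h2, h3⟩ := h
  refine ⟨i, lift ξ, isCh h1, fun a => ?_, by rwa [sym_lift]⟩
  by_cases ha : n.wt a ≤ d
  · rw [lift, dif_pos ha]
    exact h2 _
  · rw [lift_out ξ (not_le.1 ha)]
    simp

end Dwn

open Dwn in
theorem st_Dwn : DwnSt := by
  intro s d hd n z L δ hz L0 hδ
  have ez : PN.zv (n := (n.drop d).toPN) (fun a => z a.1) = pi n d ℝ (PN.zv z) := rfl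
  obtain ⟨W, hW⟩ := hd (n.drop d) (fun a => z a.1) L δ (fun a => a.2) (fun y => by
    rw [ez, ← pi_lift y, ← pi_br, hz, map_zero]) L0 hδ
  refine ⟨W, fun F hF ⟨⟨k, k0, hk⟩, hQ⟩ g a b N hb hN h => degW (d := d) ?_⟩
  have e : ∀ x, F (up (pi n d ℝ x)) = F x := fun x =>
    hQ _ _ fun a ha => lift_val (pi n d ℝ x) ⟨a, ha⟩
  have em : ∀ x y, F (up (pi n d ℝ x * y)) = F (x * up y) := fun x y => by
    rw [← e (x * up y), pi_mul, pi_lift]
  refine hW (fun y => F (up y)) ⟨fun x => hF.bd _, fun x γ hγ => ?_, fun u x => ?_⟩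
    ⟨k, k0, fun t x => ?_⟩ (ph d g) a b N hb hN ?_
  · have := em (up x) γ
    rw [pi_lift] at this
    exact this.trans (hF.inv _ _ (lift_mem hγ))
  · have := em (up u) x
    rw [pi_lift] at this
    rw [this, ← nG_lift u]
    exact hF.lip _ _
  · exact (em (t • PN.zv z) x).trans (hk t _)
  · refine h.trans (le_of_eq (congrArg norm (sum_congr rfl fun m _ => ?_)))
    exact (e _).symm

theorem st_Abel : AbelSt := by
  intro s n L δ j h1 hδ hj
  have w : ∀ a, n.wt a = 1 := fun a => le_antisymm (h1 a) (n.w1 a)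
  refine ⟨⌈1 / δ⌉₊ + ∑ a, (j a).natAbs, fun F hF hT g a b N hb hN h =>
    ⟨1, j, ⟨hj, fun a _ => w a, fun a b hab => ?_⟩, fun a => ?_, ?_⟩⟩
  · rw [w, w] at hab
    omega
  · have := single_le_sum (f := fun a => (j a).natAbs) (fun _ _ => Nat.zero_le _) (mem_univ a)
    rw [← Int.natCast_natAbs]
    exact_mod_cast this.trans (Nat.le_add_left _ _)
  have c1 : 1 ≤ ⌈1 / δ⌉₊ := Nat.ceil_pos.2 (by positivity)
  have N0 : (0 : ℝ) < N := by exact_mod_cast (by omega : 0 < N)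
  set φ : ℝ[X] := ∑ a, C (j a : ℝ) * g.1 a with hφ
  have hd : φ.natDegree ≤ 1 := natDegree_sum_le_of_forall_le _ _ fun a _ =>
    (natDegree_C_mul_le _ _).trans ((n.mem_P.1 g.2 a).trans (h1 a))
  have hα : φ.coeff 1 = PN.sym j 1 g := by
    simp only [hφ, finsetSum_coeff, coeff_C_mul]
    rfl
  have hg := geom (PD.poly 1 φ hd) a b
  rw [hα] at hg
  have ev : ∀ m : ℕ, F (PN.ev m g) = e (φ.eval (m : ℝ)) * F 0 := fun m => by
    have := hT (PN.ev m g) 0 fun a ha => absurd (w a) ha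
    rw [zero_add] at this
    rw [this, hφ, eval_finsetSum]
    simp only [eval_mul, eval_C]
    rfl
  simp only [ev, ← sum_mul, norm_mul] at h
  have h2 := h.trans (mul_le_of_le_one_right (norm_nonneg _) (hF.bd 0))
  have h3 := le_norm_e_sub_one (abs_sub_round (PN.sym j 1 g))
  rw [e_sub_int] at h3
  refine ⟨round (PN.sym j 1 g), ?_⟩
  have h4 : δ * N * (4 * |PN.sym j 1 g - round (PN.sym j 1 g)|) ≤ 2 :=
    (mul_le_mul h2 h3 (by positivity) (norm_nonneg _)).trans hg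
  have h5 : 1 / δ ≤ ((⌈1 / δ⌉₊ + ∑ a, (j a).natAbs : ℕ) : ℝ) :=
    (Nat.le_ceil _).trans (by exact_mod_cast Nat.le_add_right _ _)
  rw [pow_one, le_div_iff₀ N0]
  refine le_trans ?_ h5
  rw [le_div_iff₀ hδ]
  nlinarith

end Pool.Agent.Lib.MP_028aa5_nt.N
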