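import Pool.Agent.Lib.MP_028aa5_nt.N.Box
import Pool.Agent.Lib.MP_028aa5_nt.N.EqD
import Pool.Agent.Lib.MP_028aa5_nt.N.Eq

/-! The differencing step and the equidistribution theorem. -/

namespace Pool.Agent.Lib.MP_028aa5_nt.N.Box

open Finset PN
open scoped Classical ComplexConjugate

variable {s : ℕ}

/-- many degenerate shifts -/
theorem shifts (n : NS s) (W1 : ℕ) {c : ℝ} (c0 : 0 < c) : ∃ W : ℕ, ∀ (g : n.Ph) (N i : ℕ)
    (ζ : n.box.I → ℤ) (S : Finset ℕ), W ≤ N → IsCh i ζ → (∀ a, |ζ a| ≤ W1) → S ⊆ Icc 1 N →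
    c * N ≤ #S → (∀ h ∈ S, Nr (sym (z1 ζ) i g + (i + 1) * h * sym (z2 ζ) (i + 1) g +
      if i = 1 then EqB.bf (fm (z2 ζ)) (fun a => (⌊h * co g a 1⌋ : ℤ)) (fun a => co g a 1)
      else 0) (W1 / (N : ℝ) ^ i)) → DegW W N g := by
  obtain ⟨V, V1, hV⟩ := EqB.vino2 c0
  obtain ⟨K, hK⟩ : ∃ K : ℕ, ∑ a, ∑ b, ∑ u, |n.k a b u| = K :=
    ⟨_, (Int.toNat_of_nonneg (by positivity)).symm⟩
  obtain ⟨U, hU⟩ := EqB.brk n.I (W1 * (K + 1)) c0
  refine ⟨V * (s + 1) * (W1 + 1) + U, fun g N i ζ S hN hζ hb hS hc h => ?_⟩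
  have i1 := ch_pos hζ
  have v1 : V ≤ V * (s + 1) := Nat.le_mul_of_pos_right _ s.succ_pos
  have v2 : V * W1 + V ≤ V * (s + 1) * (W1 + 1) := Nat.mul_le_mul_right (W1 + 1) v1
  have v3 : W1 ≤ V * W1 := Nat.le_mul_of_pos_left _ V1
  have N0 : (0 : ℝ) < N := by exact_mod_cast (show 0 < N by omega)
  have b2 : ∀ a, |z2 ζ a| ≤ W1 := fun a => by
    unfold z2 hi
    split_ifs
    exacts [hb _, by simp]
  have f0 : ∀ x y : n.I → ℝ, EqB.bf (0 : n.I → n.I → ℤ) x y = 0 := fun x y => by simp [EqB.bf]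
  by_cases h0 : z2 ζ = 0
  · obtain ⟨x, hx⟩ : S.Nonempty := card_pos.1 (by exact_mod_cast (mul_pos c0 N0).trans_le hc)
    have := h x hx
    have e : fm (0 : n.I → ℤ) = 0 := funext fun a => funext fun b => by simp [fm]
    rw [h0, e, f0, ite_self, add_zero, show sym 0 (i + 1) g = 0 by simp [sym], mul_zero,
      add_zero] at this
    exact EqV.degW_mono (by omega) ⟨i, _, ch1 hζ h0, fun a => hb _, this⟩
  by_cases h1 : 2 ≤ i ∨ fm (z2 ζ) = 0
  · have hc2 := ch2 hζ h0 h1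
    have is : i + 1 ≤ s := by
      obtain ⟨a, ha⟩ := Function.ne_iff.1 h0
      exact wt2 hζ a ha ▸ n.ws a
    have p : (N : ℝ) ≤ N ^ i := le_self_pow₀ (by exact_mod_cast (show 1 ≤ N by omega)) (by omega)
    obtain ⟨q, q1, q2, hq⟩ := hV N S ((i + 1) * sym (z2 ζ) (i + 1) g) (sym (z1 ζ) i g)
      (W1 / (N : ℝ) ^ i) (by omega) hS hc (by
        rw [← mul_div_assoc, div_le_one (by positivity)]
        exact le_trans (by exact_mod_cast (show V * W1 ≤ N by omega)) p) fun x hx => by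
        have := h x hx
        rw [show (if i = 1 then _ else 0 : ℝ) = 0 by
          split_ifs with e
          · rw [h1.resolve_left (by omega), f0]
          · rfl] at this
        convert this using 1
        ring
    have m0 : ((q * (i + 1) : ℕ) : ℤ) ≠ 0 := by positivity
    refine ⟨i + 1, ((q * (i + 1) : ℕ) : ℤ) • z2 ζ, ⟨smul_ne_zero m0 h0, fun a ha =>
      hc2.wt a (right_ne_zero_of_mul ha), fun a b e => ?_⟩, fun a => ?_, ?_⟩
    · simp only [Pi.smul_apply, smul_eq_mul, mul_assoc, ← mul_sum, hc2.br a b e, mul_zero]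
    · rw [Pi.smul_apply, smul_eq_mul, abs_mul, Nat.abs_cast]
      have : q * (i + 1) * W1 ≤ V * (s + 1) * (W1 + 1) :=
        Nat.mul_le_mul (Nat.mul_le_mul q2 (by omega)) (by omega)
      refine (mul_le_mul_of_nonneg_left (b2 a) (by positivity)).trans ?_
      exact_mod_cast this.trans (Nat.le_add_right _ _)
    · have e : sym (((q * (i + 1) : ℕ) : ℤ) • z2 ζ) (i + 1) g =
          q * ((i + 1) * sym (z2 ζ) (i + 1) g) := by
        simp only [sym, mul_sum, Pi.smul_apply, smul_eq_mul]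
        exact sum_congr rfl fun a _ => by push_cast; ring
      rw [e]
      refine hq.mono ?_
      rw [← mul_div_assoc, div_div, ← pow_succ]
      gcongr
      exact_mod_cast (show V * W1 ≤ _ by omega)
  · rw [not_or] at h1
    obtain rfl : i = 1 := by omega
    obtain ⟨ξ, x0, x1, x2, x3⟩ := hU (fm (z2 ζ)) (fm_anti _) h1.2 (by
      push_cast
      rw [← hK, mul_add, mul_sum]
      refine le_trans (sum_le_sum fun a _ => ?_) (le_add_of_nonneg_right (by positivity))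
      rw [mul_sum]
      refine sum_le_sum fun b _ => (abs_sum_le_sum_abs _ _).trans ?_
      rw [mul_sum]
      exact sum_le_sum fun u _ => by
        rw [abs_mul]
        exact mul_le_mul_of_nonneg_right (b2 u) (abs_nonneg _))
      (fun a => co g a 1) (((1 : ℕ) + 1) * sym (z2 ζ) (1 + 1) g) (sym (z1 ζ) 1 g) N S (by omega) hS hc
      fun x hx => by
        have := h x hx
        rw [if_pos rfl, pow_one] at this
        refine Nr.mono (by convert this using 2; ring) ?_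
        gcongr
        exact_mod_cast Nat.le_mul_of_pos_right _ K.succ_pos
    refine EqV.degW_mono (W := U) (by omega) ⟨1, ξ, ⟨x0, fun a ha => ?_, fun a b e => ?_⟩, x2,
      by rwa [pow_one]⟩
    · obtain ⟨b, hb⟩ := x1 a ha
      have := fm_wt (wt2 hζ) hb
      have := n.w1 a
      have := n.w1 b
      omega
    · have := n.w1 a
      have := n.w1 b
      omega

theorem st_Cor : CorSt := by
  intro s d d1 hd n L δ j hw L0 δ0 hj j0
  obtain ⟨a0, ja⟩ := Function.ne_iff.1 j0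
  have e0 : n.wt a0 = d + 1 := by
    by_contra h
    exact ja (hj a0 h)
  have cB := n.toPN.one_le_cB
  obtain ⟨C, C0, hC⟩ := dif n hw
  obtain ⟨hz, hC⟩ := hC a0 (by omega) e0
  set L1 := n.cB * (1 + Fintype.card n.I) ^ s * L with hL
  have L1p : 0 ≤ L1 := by positivity
  obtain ⟨W1, hW⟩ := st_Dwn s d hd n.box _ (C * L1) (δ ^ 2 / 8) hz (by positivity) (by positivity)
  set T := range (s + 1) ×ˢ Fintype.piFinset fun _ : n.box.I => Icc (-W1 : ℤ) W1 with hT
  have T0 : T.Nonempty := ⟨(0, 0), by simp [hT]⟩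
  have T1 : (0 : ℝ) < #T := by exact_mod_cast T0.card_pos
  obtain ⟨W, hS⟩ := shifts n W1 (c := δ ^ 2 / 8 / #T) (by positivity)
  refine ⟨W + W1 + ⌈2 / δ ^ 2⌉₊, fun F hF hTop g a b N hb hN h => ?_⟩
  obtain ⟨l, hl, hx⟩ := n.i_cube_ex (ev 0 g)
  set x := ev 0 g * l with ex
  have nx : nG x ≤ Fintype.card n.I := by
    rw [nG, Fintype.card, card_eq_sum_ones, Nat.cast_sum]
    exact sum_le_sum fun a _ => by
      rw [abs_of_nonneg (hx a).1, Nat.cast_one]
      exact (hx a).2.le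
  set g1 := cst x⁻¹ * aff 1 0 g * cst l with eg
  have ev1 : ∀ t, ev t g1 = x⁻¹ * ev t g * l := fun t => by
    rw [eg, map_mul, map_mul, ev_cst', ev_cst', ev_aff', one_mul, add_zero]
  have t1 : n.Test (fun y => F (x * y)) L1 := ⟨fun _ => hF.bd _,
    fun y γ hγ => by rw [← mul_assoc, hF.inv _ _ hγ], fun u y => by
      have p1 := hF.lip (x * u * x⁻¹) (x * y)
      have p2 := nG_nonneg x
      have p3 := nG_nonneg u
      rw [mul_assoc, inv_mul_cancel_left, mul_assoc] at p1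
      refine p1.trans ((mul_le_mul_of_nonneg_left ((nG_conj x u).trans
        (show _ ≤ n.cB * (1 + Fintype.card n.I) ^ s * nG u by gcongr)) L0).trans_eq ?_)
      ring⟩
  have t2 : n.Top (d + 1) j fun y => F (x * y) := fun v y hv => by
    beta_reduce
    rw [mul_add_cen (cen_top hw hv), hTop v _ hv]
  have t3 : ∀ t, F (x * ev t g1) = F (ev t g) := fun t => by
    rw [ev1, ← mul_assoc, mul_inv_cancel_left, hF.inv _ _ hl]
  have N2 : 2 ≤ δ ^ 2 * N := by
    rw [mul_comm, ← div_le_iff₀ (by positivity)]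
    exact (Nat.le_ceil _).trans (by exact_mod_cast (show _ ≤ N by omega))
  have m := EqB.many (fun m : ℕ => F (ev m g)) (fun _ => hF.bd _) hb δ0 N2 h
  set S := {h ∈ Icc 1 N | δ ^ 2 / 8 * N ≤
    ‖∑ m ∈ Ioc a (b - h), F (ev ((m + h : ℕ) : ℝ) g) * conj (F (ev m g))‖} with eS
  have k : ∀ h : ℕ, ∃ u : ℕ × (n.box.I → ℤ), h ∈ S → u ∈ T ∧ IsCh u.1 u.2 ∧ (∀ a, |u.2 a| ≤ W1) ∧
      Nr (sym (z1 u.2) u.1 g1 + (u.1 + 1) * h * sym (z2 u.2) (u.1 + 1) g1 +
        if u.1 = 1 then EqB.bf (fm (z2 u.2)) (fun a => (⌊h * co g1 a 1⌋ : ℤ)) (fun a => co g1 a 1)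
        else 0) (W1 / (N : ℝ) ^ u.1) := fun h => by
    by_cases hh : h ∈ S
    swap
    · exact ⟨(0, 0), fun e => absurd e hh⟩
    obtain ⟨F2, w, p1, p2, p3, p4, p5⟩ := hC _ L1 j g1 h L1p t1 t2 ja
      (by rw [ev1, mul_assoc, inv_mul_cancel])
    obtain ⟨i, ζ, q1, q2, q3⟩ := hW F2 p1 ⟨p2, p3⟩ w a (b - h) N (by omega) (by omega) (by
      simp only [p4, t3]
      simpa only [Nat.cast_add] using (mem_filter.1 hh).2)
    refine ⟨(i, ζ), fun _ => ⟨?_, q1, q2, p5 i ζ q1 ▸ q3⟩⟩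
    obtain ⟨a, ha⟩ := Function.ne_iff.1 q1.ne
    exact mem_product.2 ⟨mem_range.2 (Nat.lt_succ_of_le (q1.wt a ha ▸ n.box.ws a)),
      Fintype.mem_piFinset.2 fun a => mem_Icc.2 (abs_le.1 (q2 a))⟩
  choose u hu using k
  obtain ⟨v, -, hv⟩ := exists_le_card_fiber_of_nsmul_le_card_of_maps_to (s := S) (t := T) (f := u)
    (b := δ ^ 2 / 8 / #T * N) (fun h hh => (hu h hh).1) T0 (by
      rw [nsmul_eq_mul, ← mul_assoc, mul_div_cancel₀ _ T1.ne']
      exact m)
  have N0 : (0 : ℝ) < N := by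
    by_contra c
    nlinarith [sq_nonneg δ]
  obtain ⟨h0, hh0⟩ : {h ∈ S | u h = v}.Nonempty :=
    card_pos.1 (by exact_mod_cast (show (0 : ℝ) < _ by positivity).trans_le hv)
  obtain ⟨m0, rfl⟩ := mem_filter.1 hh0
  obtain ⟨i, ξ, r1, r2, r3⟩ := hS g1 N (u h0).1 (u h0).2 _ (by omega) (hu h0 m0).2.1 (hu h0 m0).2.2.1
    ((filter_subset _ _).trans (filter_subset _ _)) hv fun h hh =>
      (mem_filter.1 hh).2 ▸ (hu h (mem_filter.1 hh).1).2.2.2
  refine EqV.degW_mono (W := W) (by omega) ⟨i, ξ, r1, r2, ?_⟩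
  convert r3 using 1
  refine sum_congr rfl fun a _ => ?_
  by_cases k0 : ξ a = 0
  · simp [k0]
  · rw [eg, co_top g 0 _ _ (r1.wt a k0).le]

theorem all_Eq : EqSt := st_Eq st_Dwn st_Abel st_Cor

end Pool.Agent.Lib.MP_028aa5_nt.N.Box
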