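import Pool.Agent.Lib.MP_028aa5_nt.N.Sub
import Pool.Agent.Lib.MP_028aa5_nt.N.StW

/-! Factorisation through the kernel of a character. -/

namespace Pool.Agent.Lib.MP_028aa5_nt.N

namespace Fc

open Finset Module Polynomial
open scoped Classical

variable {s : ℕ} {n : PN s} {i : ℕ} {ξ : n.I → ℤ}

/-- a covector -/
noncomputable def xi (ξ : n.I → ℤ) (R : Type) [CommRing R] [Algebra ℚ R] : n.G R →ₗ[ℚ] R where
  toFun x := ∑ a, ξ a * x a
  map_add' x y := by simp [mul_add, sum_add_distrib]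
  map_smul' t x := by simp [smul_sum]

theorem xi_apply {R : Type} [CommRing R] [Algebra ℚ R] (x : n.G R) :
    xi ξ R x = ∑ a, ξ a * x a := rfl

theorem xi_mu (μ : ℝ →ₗ[ℚ] ℚ) (x : n.G ℝ) : xi ξ ℚ (fun c => μ (x c)) = μ (xi ξ ℝ x) := by
  rw [xi_apply, xi_apply, map_sum]
  exact sum_congr rfl fun a _ => by rw [← zsmul_eq_mul, ← zsmul_eq_mul, map_zsmul]

theorem xi_coeff (x : n.G ℝ[X]) (j : ℕ) :
    (xi ξ ℝ[X] x).coeff j = xi ξ ℝ fun c => (x c).coeff j := by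
  rw [xi_apply, xi_apply, finsetSum_coeff]
  exact sum_congr rfl fun a _ => coeff_intCast_mul

theorem sym_eq (g : n.Ph) : PN.sym ξ i g = (xi ξ ℝ[X] g.1).coeff i := (xi_coeff g.1 i).symm

theorem xi_br {R : Type} [CommRing R] [Algebra ℚ R] (x y : n.G R) :
    xi ξ R (n.br x y) = ∑ a, ∑ b, ((∑ c, ξ c * n.k a b c : ℤ) : R) * (x a * y b) := by
  simp only [xi_apply, PN.br, mul_sum, Int.cast_sum, sum_mul, Int.cast_mul]
  rw [sum_comm]
  refine sum_congr rfl fun a _ => ?_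
  rw [sum_comm]
  exact sum_congr rfl fun b _ => sum_congr rfl fun c _ => by ring

theorem ch_lt (h : PN.IsCh i ξ) {a b : n.I} (h0 : ∑ c, ξ c * n.k a b c ≠ 0) :
    n.wt a + n.wt b < i := by
  obtain ⟨c, -, hc⟩ := exists_ne_zero_of_sum_ne_zero h0
  have h1 := n.fil a b c (right_ne_zero_of_mul hc)
  rw [h.wt c (left_ne_zero_of_mul hc)] at h1
  exact lt_of_le_of_ne h1 fun e => h0 (h.br a b e)

theorem sym_mul (h : PN.IsCh i ξ) (g g' : n.Ph) :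
    PN.sym ξ i (g * g') = PN.sym ξ i g + PN.sym ξ i g' := by
  let J : Submodule ℚ (n.G ℝ[X]) :=
    { carrier := {u | (∀ a, (u a).natDegree ≤ n.wt a) ∧ (xi ξ ℝ[X] u).coeff i = 0}
      zero_mem' := ⟨fun a => by simp, by simp⟩
      add_mem' := fun {u v} hu hv => ⟨fun a => (natDegree_add_le _ _).trans
        (max_le (hu.1 a) (hv.1 a)), by rw [map_add, coeff_add, hu.2, hv.2, add_zero]⟩
      smul_mem' := fun t u hu => ⟨fun a => (natDegree_smul_le _ _).trans (hu.1 a), by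
        rw [map_smul, coeff_smul, hu.2, smul_zero]⟩ }
  have b : ∀ u v : n.G ℝ[X], (∀ a, (u a).natDegree ≤ n.wt a) → (∀ a, (v a).natDegree ≤ n.wt a) →
      n.br u v ∈ J := fun u v hu hv => by
    have d : ∀ a b, (u a * v b).natDegree ≤ n.wt a + n.wt b := fun a b =>
      natDegree_mul_le.trans (add_le_add (hu a) (hv b))
    refine ⟨fun c => natDegree_sum_le_of_forall_le _ _ fun a _ =>
      natDegree_sum_le_of_forall_le _ _ fun b _ => ?_, ?_⟩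
    · by_cases k0 : n.k a b c = 0
      · simp [k0]
      · exact natDegree_mul_le.trans (by simpa using (d a b).trans (n.fil a b c k0))
    · rw [xi_br, finsetSum_coeff]
      refine sum_eq_zero fun a _ => ?_
      rw [finsetSum_coeff]
      refine sum_eq_zero fun b _ => ?_
      rw [coeff_intCast_mul]
      by_cases k0 : ∑ c, ξ c * n.k a b c = 0
      · rw [k0, Int.cast_zero, zero_mul]
      · rw [coeff_eq_zero_of_natDegree_lt ((d a b).trans_lt (ch_lt h k0)), mul_zero]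
  have p := n.mem_P.1 g.2
  have p' := n.mem_P.1 g'.2
  have := (n.mul_sub_mem J (b _ _ p p') (fun u hu => b _ _ p hu.1) fun u hu => b _ _ p' hu.1).2
  rw [map_sub, map_add, coeff_sub, coeff_add, sub_eq_zero] at this
  rw [sym_eq, sym_eq, sym_eq]
  exact this

theorem sym_inv (h : PN.IsCh i ξ) (g : n.Ph) : PN.sym ξ i g⁻¹ = -PN.sym ξ i g := by
  have := sym_mul h g⁻¹ g
  rw [inv_mul_cancel, sym_eq 1] at this
  have e : (xi ξ ℝ[X] (1 : n.Ph).1).coeff i = 0 := by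
    rw [show (1 : n.Ph).1 = 0 from rfl, map_zero, coeff_zero]
  linarith

/-- the part of the character that is seen by the points -/
noncomputable def ka (ξ : n.I → ℤ) (i : ℕ) (x : n.G ℝ) : ℝ := if i = 1 then xi ξ ℝ x else 0

theorem ka_mul (h : PN.IsCh i ξ) (x y : n.G ℝ) : ka ξ i (x * y) = ka ξ i x + ka ξ i y := by
  unfold ka
  split_ifs with c
  · simp only [xi_apply, ← sum_add_distrib]
    refine sum_congr rfl fun a _ => ?_
    by_cases k0 : ξ a = 0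
    · simp [k0]
    · rw [PN.lead_left (PN.ag_one x 0) y (by rw [h.wt a k0, c]), mul_add]
  · simp

theorem ka_inv (x : n.G ℝ) : ka ξ i x⁻¹ = -ka ξ i x := by
  unfold ka
  split_ifs
  · exact map_neg _ _
  · simp

theorem ev0 (g : n.Ph) : PN.ev 0 g = fun c => PN.co g c 0 :=
  funext fun c => (coeff_zero_eq_eval_zero (g.1 c)).symm

/-- the kernel of a character -/
theorem ker (h : PN.IsCh i ξ) {D : ℕ} (hD : 1 ≤ D) :
    ∃ (n' : NS s) (φ : Mor n'.toPN n) (B : n.I → n'.I → ℚ), φ.Dv D ∧ n'.tw < n.tw ∧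
      Function.Injective (φ.app ℚ) ∧ (∀ x, ka ξ i x = 0 → ∃ x', φ.app ℝ x' = x) ∧
      ∀ g : n.Ph, PN.sym ξ i g = 0 → ka ξ i (PN.ev 0 g) = 0 →
        ∃ g' : n'.Ph, φ.ph g' = g ∧ ∀ a j, PN.co g' a j = ∑ c, B c a • PN.co g c j := by
  obtain ⟨a0, ha⟩ := Function.ne_iff.1 h.ne
  have w0 := h.wt a0 ha
  have i1 : 1 ≤ i := w0 ▸ n.w1 a0
  let W : ℕ → Submodule ℚ (n.G ℚ) := fun j =>
    FilQ n j ⊓ if j = i then LinearMap.ker (xi ξ ℚ) else ⊤
  have mW : ∀ j x, x ∈ W j ↔ n.Ag j x 0 ∧ (j = i → xi ξ ℚ x = 0) := fun j x => by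
    by_cases c : j = i <;> simp [W, c, mem_FilQ]
  obtain ⟨n', φ, B, h1, -, h3, h4, h5, h6⟩ := sub n W (fun j _ _ x hx => by
      obtain ⟨a, -⟩ := (mW _ _).1 hx
      refine (mW _ _).2 ⟨a.mono (by omega), fun e => sum_eq_zero fun c _ => ?_⟩
      by_cases k0 : ξ c = 0
      · simp [k0]
      · rw [a c (by rw [h.wt c k0]; omega), PN.zero_apply, mul_zero])
    (fun j _ _ => inf_le_left) (fun j j' _ _ _ x hx y hy => by
      obtain ⟨a, -⟩ := (mW _ _).1 hx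
      obtain ⟨b, -⟩ := (mW _ _).1 hy
      refine (mW _ _).2 ⟨PN.ag_br a b, fun e => ?_⟩
      rw [xi_br]
      refine sum_eq_zero fun u _ => sum_eq_zero fun v _ => ?_
      by_cases k0 : ∑ c, ξ c * n.k u v c = 0
      · rw [k0, Int.cast_zero, zero_mul]
      · have := ch_lt h k0
        by_cases c : n.wt u < j
        · simp [a u c]
        · simp [b v (by omega)]) hD
  have one : ∀ x, ka ξ i x = 0 → ∀ μ : ℝ →ₗ[ℚ] ℚ, (fun c => μ (x c) : n.G ℚ) ∈ W 1 :=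
    fun x hx μ => (mW _ _).2 ⟨PN.ag_one _ _, fun e => by
      rw [ka, if_pos e.symm] at hx
      rw [xi_mu, hx, map_zero]⟩
  refine ⟨n', φ, B, h1, tw_lt (fun j a b => ?_) i1 (w0 ▸ n.ws a0) ?_,
    Function.LeftInverse.injective (h3 ℚ), fun x hx => ⟨_, h4 ℝ x (one x hx)⟩,
    fun g a b => h5 g fun μ j _ => ?_⟩
  · rw [h6 j a (by omega), ← rank_FilQ]
    exact Submodule.finrank_mono inf_le_left
  · rw [h6 i i1 (by have := n.ws a0; omega), ← rank_FilQ]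
    refine Submodule.finrank_lt_finrank_of_lt (lt_of_le_of_ne inf_le_left fun e => ha ?_)
    have m : bv n a0 ∈ W i := e ▸ (w0 ▸ bv_mem n a0)
    have := ((mW _ _).1 m).2 rfl
    simpa [xi_apply, bv] using this
  · rcases Nat.eq_zero_or_pos j with rfl | j0
    · rw [ev0] at b
      exact one _ b μ
    · rw [max_eq_left j0]
      refine (mW _ _).2 ⟨fun c hc => ?_, fun e => ?_⟩
      · show μ (PN.co g c j) = 0
        rw [PN.co, coeff_eq_zero_of_natDegree_lt ((n.mem_P.1 g.2 c).trans_lt hc), map_zero]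
      · subst e
        exact (xi_mu μ fun c => PN.co g c j).trans ((congrArg μ a).trans (map_zero μ))

/-- a point on a coordinate axis -/
noncomputable def pt {R : Type} [CommRing R] (a0 : n.I) (t : R) : n.G R :=
  fun a => if a = a0 then t else 0

theorem pt_mul (a0 : n.I) (t t' : ℝ) : pt a0 t * pt a0 t' = pt a0 (t + t') := by
  have e : ∀ t : ℝ, pt a0 t = t • pt a0 1 := fun t => funext fun a => by simp [pt]
  rw [PN.mul_of_comm, e t, e t', e (t + t'), add_smul]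
  rw [e t, e t', n.br_smul_left, n.br_smul_right, n.br_self, smul_zero, smul_zero]

theorem xi_pt {R : Type} [CommRing R] [Algebra ℚ R] (a0 : n.I) (t : R) :
    xi ξ R (pt a0 t) = ξ a0 * t := by simp [xi_apply, pt]

theorem nG_pt (a0 : n.I) (t : ℝ) : PN.nG (pt a0 t) = |t| := by
  simp [PN.nG, pt, apply_ite abs]

/-- a phase on a coordinate axis -/
noncomputable def lp (a0 : n.I) (u v y : ℝ) : n.Ph :=
  ⟨pt a0 (C u * (X - C y) ^ n.wt a0 + C v), n.mem_P.2 fun a => by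
    unfold pt
    split_ifs with c
    · rw [c, natDegree_add_C]
      exact (natDegree_C_mul_le _ _).trans (natDegree_pow_le.trans (by simp))
    · simp⟩

theorem ev_lp (a0 : n.I) (u v y t : ℝ) :
    PN.ev t (lp a0 u v y) = pt a0 (u * (t - y) ^ n.wt a0 + v) := funext fun a => by
  show eval t (pt a0 _ a) = _
  unfold pt
  split_ifs <;> simp

theorem sym_lp (a0 : n.I) (u v y : ℝ) : PN.sym ξ (n.wt a0) (lp a0 u v y) = ξ a0 * u := by
  have := n.w1 a0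
  have m := ((monic_X_sub_C y).pow (n := n.wt a0)).coeff_natDegree
  rw [natDegree_pow, natDegree_X_sub_C, mul_one] at m
  rw [sym_eq, lp, xi_pt, coeff_intCast_mul, coeff_add, coeff_C_mul, m, coeff_C, if_neg (by omega)]
  simp

theorem co_lp (a0 : n.I) (u v : ℝ) (a : n.I) (j : ℕ) : PN.co (lp a0 u v 0) a j =
    if a = a0 then (if j = n.wt a0 then u else 0) + if j = 0 then v else 0 else 0 := by
  show coeff (pt a0 _ a) j = _
  unfold pt
  by_cases c : a = a0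
  · rw [if_pos c, if_pos c, C_0, sub_zero, coeff_add, coeff_C_mul, coeff_X_pow, coeff_C, mul_ite,
      mul_one, mul_zero]
  · rw [if_neg c, if_neg c, coeff_zero]

theorem nm_lp (a0 : n.I) (u v y N : ℝ) :
    PN.nm N y (lp a0 u v y) ≤ |u * N ^ n.wt a0| + |v| := by
  have e : PN.aff N y (lp a0 u v y) = lp a0 (u * N ^ n.wt a0) v 0 :=
    Subtype.ext (funext fun a => by
      show Polynomial.comp (pt a0 _ a) (C N * X + C y) = pt a0 _ a
      unfold pt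
      split_ifs
      · simp [mul_pow, mul_assoc]
      · simp)
  rw [PN.nm, e, PN.nm0, sum_eq_single a0 (fun a _ h => by simp [co_lp, h]) (by simp)]
  simp only [co_lp, if_true]
  refine (sum_le_sum fun j _ => abs_add_le _ _).trans ?_
  simp only [sum_add_distrib, apply_ite abs, abs_zero, sum_ite_eq', mem_range]
  refine add_le_add ?_ ?_ <;> split_ifs <;> first | exact le_rfl | positivity

theorem ev_ph {n' : PN s} (φ : Mor n' n) (t : ℝ) (g : n'.Ph) :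
    PN.ev t (φ.ph g) = φ.app ℝ (PN.ev t g) :=
  funext fun c => lin_mu φ.A ((leval t).restrictScalars ℚ) g.1 c

theorem ev_cst (t : ℝ) (x : n.G ℝ) : PN.ev t (PN.cst x) = x := funext fun _ => eval_C

theorem inv_int {k : ℤ} (hk : k ≠ 0) {w : ℕ} (hw : 1 ≤ w) (z : ℤ) :
    ∃ z' : ℤ, (k : ℝ)⁻¹ * z = z' * ((k.natAbs : ℝ) ^ w)⁻¹ := by
  obtain ⟨m, hm⟩ : k ∣ (k.natAbs : ℤ) ^ w := dvd_pow (Int.dvd_natAbs.2 dvd_rfl) (by omega)
  have e : (k.natAbs : ℝ) ^ w = k * m := by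
    generalize k.natAbs = c at hm
    exact_mod_cast hm
  have k0 : (k : ℝ) ≠ 0 := by exact_mod_cast hk
  have m0 : (m : ℝ) ≠ 0 := by
    intro h
    rw [h, mul_zero] at e
    exact absurd e (by positivity)
  refine ⟨z * m, ?_⟩
  rw [e]
  push_cast
  field_simp

theorem pt_GamQ {n : NS s} (a0 : n.I) {k : ℤ} (hk : k ≠ 0) (z : ℤ) :
    pt (n := n.toPN) a0 ((k : ℝ)⁻¹ * z) ∈ n.GamQ k.natAbs := fun a => mem_mulz.2 (by
  unfold pt
  split_ifs
  · exact inv_int hk (n.w1 a) z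
  · exact ⟨0, by simp⟩)

theorem lp_LamQ {n : NS s} (a0 : n.I) {k : ℤ} (hk : k ≠ 0) (z z' : ℤ) :
    lp (n := n.toPN) a0 ((k : ℝ)⁻¹ * z) ((k : ℝ)⁻¹ * z') 0 ∈ n.LamQ 1 k.natAbs := fun a j => by
  obtain ⟨u, hu⟩ := inv_int hk (n.w1 a)
    (if a = a0 then (if j = n.wt a0 then z else 0) + if j = 0 then z' else 0 else 0)
  refine ⟨u, (co_lp a0 _ _ a j).trans ?_⟩
  rw [one_pow, one_mul, mul_comm _ (u : ℝ), ← hu]
  split_ifs <;> simp [mul_add]

theorem per {n : NS s} (a0 : n.I) {k : ℤ} (hk : k ≠ 0) (z z' : ℤ) : ∃ τ : ℕ → ℕ,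
    (∀ m, τ m < k.natAbs ∧ τ m = τ (m % k.natAbs)) ∧ ∀ m : ℕ, ∃ l ∈ n.Gam,
      PN.ev m (lp (n := n.toPN) a0 ((k : ℝ)⁻¹ * z) ((k : ℝ)⁻¹ * z') 0) =
        pt a0 ((k : ℝ)⁻¹ * ((τ m : ℤ) : ℝ)) * l := by
  have c0 : (0 : ℤ) < k.natAbs := by omega
  have k0 : (k : ℝ) ≠ 0 := by exact_mod_cast hk
  refine ⟨fun m => ((z * m ^ n.wt a0 + z') % k.natAbs).toNat, fun m => ⟨?_, ?_⟩, fun m => ?_⟩
  · exact (Int.toNat_lt (Int.emod_nonneg _ c0.ne')).2 (Int.emod_lt_of_pos _ c0)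
  · refine congrArg Int.toNat (Int.ModEq.add_right _ (Int.ModEq.mul_left _ (Int.ModEq.pow _ ?_)))
    push_cast
    exact (Int.mod_modEq _ _).symm
  · obtain ⟨e, he⟩ : k ∣ (k.natAbs : ℤ) := Int.dvd_natAbs.2 dvd_rfl
    refine ⟨pt a0 ((e * ((z * m ^ n.wt a0 + z') / k.natAbs) : ℤ) : ℝ), mem_Gam.2 fun a => ?_, ?_⟩
    · unfold pt
      split_ifs
      exacts [⟨_, rfl⟩, ⟨0, Int.cast_zero.symm⟩]
    · rw [ev_lp, pt_mul, Int.toNat_of_nonneg (Int.emod_nonneg _ c0.ne')]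
      congr 1
      have := Int.emod_add_mul_ediv (z * m ^ n.wt a0 + z') k.natAbs
      generalize (z * m ^ n.wt a0 + z') % k.natAbs = r at this ⊢
      generalize (z * m ^ n.wt a0 + z') / k.natAbs = q at this ⊢
      rw [he] at this
      have := congrArg (fun x : ℤ => (x : ℝ)) this
      push_cast at this ⊢
      field_simp
      linear_combination -this

/-- polynomials with rational coefficients -/
def rp : Submodule ℚ ℝ[X] where
  carrier := {p | ∀ j, p.coeff j ∈ (⊥ : Subalgebra ℚ ℝ)}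
  zero_mem' _ := zero_mem _
  add_mem' hp hq j := by rw [coeff_add]; exact add_mem (hp j) (hq j)
  smul_mem' t p hp j := by rw [coeff_smul]; exact Subalgebra.smul_mem _ (hp j) t

/-- rational phases -/
noncomputable def RP (n : PN s) : Subgroup n.Ph :=
  (n.famQ (fun _ => rp) fun _ _ _ _ u hu v hv j => by
    rw [coeff_mul]
    exact sum_mem fun x _ => mul_mem (hu _) (hv _)).comap n.P.subtype

theorem mem_RP {g : n.Ph} : g ∈ RP n ↔ ∀ a j, PN.co g a j ∈ (⊥ : Subalgebra ℚ ℝ) := Iff.rfl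

theorem lam_RP {n : NS s} {Q : ℕ} {g : n.Ph} (h : g ∈ n.LamQ 1 Q) : g ∈ RP n.toPN := fun a j => by
  obtain ⟨z, hz⟩ := h a j
  exact Algebra.mem_bot.2 ⟨((Q : ℚ) ^ n.wt a)⁻¹ * z, Eq.trans (by simp) hz.symm⟩

theorem RP_lam {n : NS s} {g : n.Ph} (h : g ∈ RP n.toPN) : ∃ Q : ℕ, 1 ≤ Q ∧ g ∈ n.LamQ 1 Q := by
  choose r hr using fun a j => Algebra.mem_bot.1 (mem_RP.1 h a j)
  obtain ⟨N, n1, hN⟩ := Con.ex_den fun x : n.I × Fin (s + 1) => r x.1 x.2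
  refine ⟨N, n1, fun a j => ?_⟩
  show ∃ z : ℤ, PN.co g a j = _
  by_cases c : s < j
  · exact ⟨0, (coeff_eq_zero_of_natDegree_lt
      (((n.mem_P.1 g.2 a).trans (n.ws a)).trans_lt c)).trans (by simp)⟩
  · obtain ⟨z, hz⟩ := hN (a, ⟨j, by omega⟩)
    obtain ⟨d, hd⟩ := Nat.exists_eq_add_of_le (n.w1 a)
    have e : (N : ℝ) * r a j = z := by exact_mod_cast congrArg (fun x : ℚ => (x : ℝ)) hz
    refine ⟨z * N ^ d, ?_⟩
    rw [← hr, hd, eq_ratCast]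
    push_cast
    rw [← e]
    field_simp
    ring

theorem fac {n : NS s} {ξ : n.I → ℤ} (h : PN.IsCh i ξ) {a0 : n.I} (ha : ξ a0 ≠ 0) :
    ∃ (n' : NS s) (φ : Mor n'.toPN n.toPN), n'.tw < n.tw ∧ Function.Injective (φ.app ℚ) ∧
    (∀ W : ℝ, ∃ C : ℝ, 0 ≤ C ∧ ∀ F L w σ, n.Test F L → PN.nG w ≤ W → σ ∈ n.GamQ (ξ a0).natAbs →
      n'.Test (fun y => F (w * φ.app ℝ y * σ)) (C * L)) ∧
    (∀ (g : n.Ph) (y N M : ℝ), 1 ≤ N → Nr (PN.sym ξ i g) (M / N ^ i) →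
      ∃ (ε : n.Ph) (g' : n'.Ph) (z z' : ℤ), PN.nm N y ε ≤ M + 1 ∧
        g = ε * φ.ph g' * lp a0 ((ξ a0 : ℝ)⁻¹ * z) ((ξ a0 : ℝ)⁻¹ * z') 0) ∧
    ∀ (x : n.G ℝ) (γ : n.Ph), γ ∈ RP n.toPN → (∃ z : ℤ, PN.sym ξ i γ = z) →
      ∃ (w : n.G ℝ) (x' : n'.G ℝ) (γ' : n'.Ph) (z z' : ℤ), PN.nG w ≤ 1 ∧ γ' ∈ RP n'.toPN ∧
        ∀ t, x * PN.ev t γ = w * φ.app ℝ (x' * PN.ev t γ') *
          PN.ev t (lp a0 ((ξ a0 : ℝ)⁻¹ * z) ((ξ a0 : ℝ)⁻¹ * z') 0) := by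
  obtain rfl := h.wt a0 ha
  have c1 : 1 ≤ (ξ a0).natAbs := by omega
  have k0 : (ξ a0 : ℝ) ≠ 0 := by exact_mod_cast ha
  have k1 : ∀ t : ℝ, |(ξ a0 : ℝ)⁻¹ * t| ≤ |t| := fun t => by
    rw [abs_mul, abs_inv]
    exact mul_le_of_le_one_left (abs_nonneg _) (inv_le_one_of_one_le₀ (by
      exact_mod_cast Int.one_le_abs ha))
  have k2 : ∀ t : ℝ, |(ξ a0 : ℝ)⁻¹ * Int.fract t| ≤ 1 := fun t =>
    (k1 _).trans (by rw [Int.abs_fract]; exact (Int.fract_lt_one t).le)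
  have s1 : ∀ u v y : ℝ, PN.sym ξ (n.wt a0) (lp a0 ((ξ a0 : ℝ)⁻¹ * u) v y) = u := fun u v y => by
    rw [sym_lp, mul_inv_cancel_left₀ k0]
  have s2 : ∀ t : ℝ, n.wt a0 = 1 → ka ξ (n.wt a0) (pt a0 ((ξ a0 : ℝ)⁻¹ * t)) = t := fun t c => by
    rw [ka, if_pos c, xi_pt, mul_inv_cancel_left₀ k0]
  have s3 : ∀ x, (n.wt a0 = 1 → ka ξ (n.wt a0) x = 0) → ka ξ (n.wt a0) x = 0 := fun x hx => by
    by_cases c : n.wt a0 = 1
    exacts [hx c, if_neg c]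
  obtain ⟨n', φ, B, h1, h2, h3, h4, h5⟩ := ker h (Nat.one_le_pow s _ c1)
  refine ⟨n', φ, h2, h3, fun W => ?_, fun g y N M N1 ⟨z, hz⟩ => ?_, fun x γ hγ ⟨z, hz⟩ => ?_⟩
  · obtain ⟨C, C0, hC⟩ := test_pull φ c1 h1 W
    exact ⟨C, C0, fun F L w σ hF => hC F L w σ (test_nonneg hF a0) hF⟩
  · set θ := PN.sym ξ (n.wt a0) g - z with hθ
    let u := ka ξ (n.wt a0) (PN.ev 0 g) + θ * y
    let ε := lp a0 ((ξ a0 : ℝ)⁻¹ * θ) ((ξ a0 : ℝ)⁻¹ * Int.fract u) y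
    obtain ⟨g', hg, -⟩ := h5 (ε⁻¹ * g * (lp a0 ((ξ a0 : ℝ)⁻¹ * z) ((ξ a0 : ℝ)⁻¹ * ⌊u⌋) 0)⁻¹)
      (by rw [sym_mul h, sym_mul h, sym_inv h, sym_inv h, s1, s1, hθ]; ring) (s3 _ fun c => by
        rw [map_mul, map_mul, map_inv, map_inv, ka_mul h, ka_mul h, ka_inv, ka_inv, ev_lp, ev_lp,
          mul_assoc, mul_assoc, ← mul_add, ← mul_add, s2 _ c, s2 _ c, Int.fract]
        simp only [u, c]
        ring)
    refine ⟨ε, g', z, ⌊u⌋, (nm_lp _ _ _ _ _).trans (add_le_add ?_ (k2 u)), by rw [hg]; group⟩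
    have p : 0 < N ^ n.wt a0 := by positivity
    rw [mul_assoc]
    refine (k1 _).trans ?_
    rw [abs_mul, abs_of_pos p]
    exact (le_div_iff₀ p).1 hz
  · let β := ka ξ (n.wt a0) (PN.ev 0 γ)
    let u := ka ξ (n.wt a0) x + β
    let b := lp a0 ((ξ a0 : ℝ)⁻¹ * 0) ((ξ a0 : ℝ)⁻¹ * (β - ⌊u⌋)) 0
    let δ := lp a0 ((ξ a0 : ℝ)⁻¹ * z) ((ξ a0 : ℝ)⁻¹ * ⌊u⌋) 0
    have eb : ∀ t, PN.ev t b = pt a0 ((ξ a0 : ℝ)⁻¹ * (β - ⌊u⌋)) := fun t => by
      rw [ev_lp, mul_zero, zero_mul, zero_add]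
    obtain ⟨γ', hg, hc⟩ := h5 (b⁻¹ * γ * δ⁻¹)
      (by rw [sym_mul h, sym_mul h, sym_inv h, sym_inv h, s1, s1, hz]; ring) (s3 _ fun c => by
        rw [map_mul, map_mul, map_inv, map_inv, ka_mul h, ka_mul h, ka_inv, ka_inv, eb, ev_lp,
          mul_assoc, ← mul_add, s2 _ c, s2 _ c]
        simp only [β, c]
        ring)
    obtain ⟨x', hx⟩ := h4 ((pt a0 ((ξ a0 : ℝ)⁻¹ * Int.fract u))⁻¹ * x *
      pt a0 ((ξ a0 : ℝ)⁻¹ * (β - ⌊u⌋))) (s3 _ fun c => by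
        rw [ka_mul h, ka_mul h, ka_inv, s2 _ c, s2 _ c, Int.fract]
        simp only [u]
        ring)
    have hβ : β ∈ (⊥ : Subalgebra ℚ ℝ) := by
      simp only [β, ka, ev0]
      split_ifs
      · exact sum_mem fun a _ => mul_mem (intCast_mem _ _) (hγ a 0)
      · exact zero_mem _
    have hb : b ∈ RP n.toPN := mem_RP.2 fun a j => by
      have : (ξ a0 : ℝ)⁻¹ ∈ (⊥ : Subalgebra ℚ ℝ) := Algebra.mem_bot.2 ⟨(ξ a0 : ℚ)⁻¹, by simp⟩
      have := mul_mem this (sub_mem hβ (intCast_mem _ ⌊u⌋))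
      rw [co_lp]
      split_ifs <;> simp only [mul_zero, zero_add, add_zero, zero_mem, this]
    have hr := mem_RP.1 (mul_mem (mul_mem (inv_mem hb) hγ) (inv_mem (lam_RP (lp_LamQ a0 ha z ⌊u⌋))))
    refine ⟨pt a0 ((ξ a0 : ℝ)⁻¹ * Int.fract u), x', γ', z, ⌊u⌋, (nG_pt _ _).trans_le (k2 u),
      mem_RP.2 fun a j => ?_, fun t => ?_⟩
    · rw [hc]
      exact sum_mem fun c _ => Subalgebra.smul_mem _ (hr c j) _
    · rw [map_mul, hx, ← ev_ph, hg, map_mul, map_mul, map_inv, map_inv, eb]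
      show _ = _ * PN.ev t δ
      simp only [mul_assoc, mul_inv_cancel_left, inv_mul_cancel, mul_one]

end Fc

open Fc

theorem st_Fac0 : Fac0St := fun s n i ξ h => by
  obtain ⟨a0, ha⟩ := Function.ne_iff.1 h.ne
  obtain ⟨n', φ, h1, h2, h3, h4, -⟩ := fac h ha
  refine ⟨n', φ, (ξ a0).natAbs, Int.natAbs_pos.2 ha, h1, h2, h3, fun g y N M N1 hM => ?_⟩
  obtain ⟨ε, g', z, z', a, b⟩ := h4 g y N M N1 hM
  exact ⟨ε, g', _, a.trans (le_mul_of_one_le_right ((PN.nm0_nonneg _).trans a)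
    (one_le_pow₀ one_le_two)), lp_LamQ a0 ha z z', b⟩

theorem st_Fac : FacSt := fun s n i ξ h => by
  obtain ⟨a0, ha⟩ := Function.ne_iff.1 h.ne
  obtain ⟨n', φ, h1, -, h3, h4, h5⟩ := fac h ha
  refine ⟨n', φ, (ξ a0).natAbs, fun j => pt a0 ((ξ a0 : ℝ)⁻¹ * ((j : ℤ) : ℝ)),
    Int.natAbs_pos.2 ha, h1, fun W => ?_, fun g y N M N1 hM => ?_, fun Q x γ _ hγ hz => ?_⟩
  · obtain ⟨C, -, hC⟩ := h3 W
    exact ⟨C, fun F L w j hF hw => hC F L w _ hF hw (pt_GamQ a0 ha j)⟩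
  · obtain ⟨ε, g', z, z', a, b⟩ := h4 g y N M N1 hM
    obtain ⟨τ, t1, t2⟩ := per a0 ha z z'
    refine ⟨ε, g', τ, a.trans (le_mul_of_one_le_right ((PN.nm0_nonneg _).trans a)
      (one_le_pow₀ one_le_two)), t1, fun m => ?_⟩
    obtain ⟨l, hl, e⟩ := t2 m
    exact ⟨l, hl, by rw [b, map_mul, map_mul, ev_ph, e, ← mul_assoc]⟩
  · obtain ⟨w, x', γ', z, z', a, b, c⟩ := h5 x γ (lam_RP hγ) hz
    obtain ⟨τ, t1, t2⟩ := per a0 ha z z'
    obtain ⟨Q', q1, q2⟩ := RP_lam b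
    refine ⟨w, x', γ', Q', τ, a, q1, q2, t1, fun m => ?_⟩
    obtain ⟨l, hl, e⟩ := t2 m
    exact ⟨l, hl, by rw [c, e, ← mul_assoc]⟩

end Pool.Agent.Lib.MP_028aa5_nt.N
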