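import Mathlib

/-! Baker-Campbell-Hausdorff, associative part: in a filtered nilpotent rational algebra the
logarithm of `exp a * exp b` lies in every commutator-closed subspace containing `a` and `b`. -/

set_option autoImplicit false

namespace Pool.Agent.Lib.MP_028aa5_nt.N.BA

open IsNilpotent Polynomial Finset LieAlgebra

attribute [local instance 100] LieRing.ofAssociativeRing

/-- A multiplicative filtration of a rational algebra that dies at level `s + 1`. -/
structure Fil (B : Type*) [Ring B] [Algebra ℚ B] (s : ℕ) where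
  F : ℕ → Submodule ℚ B
  one : (1 : B) ∈ F 0
  anti : ∀ i x, x ∈ F (i + 1) → x ∈ F i
  mul : ∀ i j x y, x ∈ F i → y ∈ F j → x * y ∈ F (i + j)
  bot : ∀ x, x ∈ F (s + 1) → x = 0

namespace Fil

variable {B : Type*} [Ring B] [Algebra ℚ B] {s : ℕ} (φ : Fil B s)

theorem mono {i j : ℕ} (h : i ≤ j) {x : B} (hx : x ∈ φ.F j) : x ∈ φ.F i := by
  induction h with
  | refl => exact hx
  | step _ ih => exact ih (φ.anti _ _ hx)

theorem pow {x : B} (hx : x ∈ φ.F 1) (n : ℕ) : x ^ n ∈ φ.F n := by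
  induction n with
  | zero => simpa using φ.one
  | succ n ih => rw [_root_.pow_succ]; exact φ.mul _ _ _ _ ih hx

theorem pz {x : B} (hx : x ∈ φ.F 1) : x ^ (s + 1) = 0 := φ.bot _ (φ.pow hx _)

theorem nil {x : B} (hx : x ∈ φ.F 1) : IsNilpotent x := ⟨_, φ.pz hx⟩

theorem lie {i j : ℕ} {x y : B} (hx : x ∈ φ.F i) (hy : y ∈ φ.F j) : ⁅x, y⁆ ∈ φ.F (i + j) := by
  rw [LieRing.of_associative_ring_bracket]
  refine Submodule.sub_mem _ (φ.mul _ _ _ _ hx hy) ?_
  rw [add_comm]; exact φ.mul _ _ _ _ hy hx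

theorem adp {j : ℕ} {x y : B} (hx : x ∈ φ.F 1) (hy : y ∈ φ.F j) (k : ℕ) :
    (ad ℚ B x ^ k) y ∈ φ.F (k + j) := by
  induction k with
  | zero => simpa using hy
  | succ k ih =>
    rw [pow_succ', Module.End.mul_apply, ad_apply]
    have := φ.lie hx ih
    rwa [show 1 + (k + j) = k + 1 + j by ring] at this

theorem adz {x y : B} (hx : x ∈ φ.F 1) (hy : y ∈ φ.F 1) {K : ℕ} (hK : s ≤ K) :
    (ad ℚ B x ^ K) y = 0 :=
  φ.bot _ (φ.mono (by omega) (φ.adp hx hy K))

/-- The same filtration, read with a larger bound. -/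
def up (t : ℕ) (h : s ≤ t) : Fil B t where
  F := φ.F
  one := φ.one
  anti := φ.anti
  mul := φ.mul
  bot x hx := φ.bot x (φ.mono (by omega) hx)

theorem powd {k : ℕ} {z w : B} (hz : z ∈ φ.F 1) (hw : w ∈ φ.F 1) (h : w - z ∈ φ.F k) (n : ℕ) :
    w ^ (n + 1) - z ^ (n + 1) ∈ φ.F (k + n) := by
  induction n with
  | zero => simpa using h
  | succ n ih =>
    have e : w ^ (n + 1 + 1) - z ^ (n + 1 + 1)
        = w * (w ^ (n + 1) - z ^ (n + 1)) + (w - z) * z ^ (n + 1) := by
      rw [pow_succ' w (n + 1), pow_succ' z (n + 1)]; noncomm_ring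
    rw [e]
    refine Submodule.add_mem _ ?_ (φ.mul _ _ _ _ h (φ.pow hz _))
    have := φ.mul _ _ _ _ hw ih
    rwa [show 1 + (k + n) = k + (n + 1) by ring] at this

theorem key {k : ℕ} {z w : B} (hz : z ∈ φ.F 1) (hw : w ∈ φ.F 1) (h : w - z ∈ φ.F k) :
    exp w - exp z - (w - z) ∈ φ.F (k + 1) := by
  have h1 : w ^ (s + 1 + 1) = 0 := by rw [_root_.pow_succ, φ.pz hw, zero_mul]
  have h2 : z ^ (s + 1 + 1) = 0 := by rw [_root_.pow_succ, φ.pz hz, zero_mul]
  rw [exp_eq_sum h1, exp_eq_sum h2, ← sum_sub_distrib, sum_range_succ', sum_range_succ']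
  have e : ∀ S : B, S + (((0 + 1 : ℕ).factorial : ℚ)⁻¹ • w ^ (0 + 1)
      - ((0 + 1 : ℕ).factorial : ℚ)⁻¹ • z ^ (0 + 1))
      + (((0 : ℕ).factorial : ℚ)⁻¹ • w ^ 0 - ((0 : ℕ).factorial : ℚ)⁻¹ • z ^ 0) - (w - z) = S := by
    intro S; simp
  rw [e]
  refine Submodule.sum_mem _ fun i _ => ?_
  rw [← smul_sub]
  exact Submodule.smul_mem _ _ (φ.mono (by omega) (φ.powd hz hw h (i + 1)))

theorem inj {z w : B} (hz : z ∈ φ.F 1) (hw : w ∈ φ.F 1) (h : exp w = exp z) : w = z := by
  have : ∀ k, w - z ∈ φ.F (k + 1) := by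
    intro k
    induction k with
    | zero => exact Submodule.sub_mem _ hw hz
    | succ k ih =>
      have := φ.key hz hw ih
      rw [h, sub_self, zero_sub] at this
      exact (Submodule.neg_mem_iff _).1 this
  exact sub_eq_zero.1 (φ.bot _ (this s))

theorem exp1 {z : B} (hz : z ∈ φ.F 1) : exp z - 1 ∈ φ.F 1 := by
  have h := φ.key (k := 1) (Submodule.zero_mem _) hz (by simpa using hz)
  rw [exp_zero, sub_zero] at h
  have := Submodule.add_mem _ (φ.anti _ _ h) hz
  rwa [sub_add_cancel] at this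

theorem exlog {u : B} (hu : u - 1 ∈ φ.F 1) : ∃ z ∈ φ.F 1, exp z = u := by
  have : ∀ k, ∃ z ∈ φ.F 1, u - exp z ∈ φ.F (k + 1) := by
    intro k
    induction k with
    | zero => exact ⟨0, Submodule.zero_mem _, by simpa [exp_zero] using hu⟩
    | succ k ih =>
      obtain ⟨z, hz, h⟩ := ih
      have hw : z + (u - exp z) ∈ φ.F 1 := Submodule.add_mem _ hz (φ.mono (by omega) h)
      refine ⟨_, hw, ?_⟩
      have := φ.key hz hw (k := k + 1) (by simpa using h)
      rw [← Submodule.neg_mem_iff]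
      convert this using 1
      abel
  obtain ⟨z, hz, h⟩ := this s
  exact ⟨z, hz, (sub_eq_zero.1 (φ.bot _ h)).symm⟩

theorem mul1 {u v : B} (hu : u - 1 ∈ φ.F 1) (hv : v - 1 ∈ φ.F 1) : u * v - 1 ∈ φ.F 1 := by
  have e : u * v - 1 = (u - 1) * (v - 1) + (u - 1) + (v - 1) := by noncomm_ring
  rw [e]
  exact Submodule.add_mem _ (Submodule.add_mem _ (φ.anti _ _ (φ.mul _ _ _ _ hu hv)) hu) hv

/-- Polynomials with coefficients in the filtration. -/
def poly : Fil B[X] s where
  F i :=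
    { carrier := {p | ∀ n, p.coeff n ∈ φ.F i}
      add_mem' := fun hp hq n => by rw [coeff_add]; exact Submodule.add_mem _ (hp n) (hq n)
      zero_mem' := fun n => by simp
      smul_mem' := fun c p hp n => by rw [coeff_smul]; exact Submodule.smul_mem _ _ (hp n) }
  one n := by
    rw [coeff_one]; split_ifs
    · exact φ.one
    · exact Submodule.zero_mem _
  anti i p hp n := φ.anti _ _ (hp n)
  mul i j p q hp hq n := by
    rw [coeff_mul]
    exact Submodule.sum_mem _ fun c _ => φ.mul _ _ _ _ (hp _) (hq _)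
  bot p hp := Polynomial.ext fun n => by rw [coeff_zero]; exact φ.bot _ (hp n)

theorem mem_poly {i : ℕ} {p : B[X]} : p ∈ φ.poly.F i ↔ ∀ n, p.coeff n ∈ φ.F i := Iff.rfl

end Fil

theorem conjC {R : Type*} [Ring R] [Algebra ℚ R] {x : R} (y : R) (hx : IsNilpotent x) {K : ℕ}
    (h : (ad ℚ R x ^ K) y = 0) :
    exp x * y = (∑ k ∈ range K, (k.factorial : ℚ)⁻¹ • (ad ℚ R x ^ k) y) * exp x := by
  obtain ⟨n, hn⟩ := hx
  have hL : (LinearMap.mulLeft ℚ x) ^ n = 0 := by
    rw [LinearMap.pow_mulLeft, hn, LinearMap.mulLeft_zero_eq_zero]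
  have hR : (LinearMap.mulRight ℚ x) ^ n = 0 := by
    rw [LinearMap.pow_mulRight, hn, LinearMap.mulRight_zero_eq_zero]
  have hc : Commute (LinearMap.mulLeft ℚ x) (LinearMap.mulRight ℚ x) :=
    LinearMap.commute_mulLeft_right x x
  have ha : ad ℚ R x = LinearMap.mulLeft ℚ x - LinearMap.mulRight ℚ x := by
    ext w; simp [LieRing.of_associative_ring_bracket]
  have hn2 : IsNilpotent (ad ℚ R x) := by
    rw [ha]; exact hc.isNilpotent_sub ⟨n, hL⟩ ⟨n, hR⟩
  have hc2 : Commute (LinearMap.mulRight ℚ x) (ad ℚ R x) := by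
    rw [ha]; exact hc.symm.sub_right (Commute.refl _)
  have e := exp_add_of_commute hc2 ⟨n, hR⟩ hn2
  have e2 : LinearMap.mulRight ℚ x + ad ℚ R x = LinearMap.mulLeft ℚ x := by rw [ha]; abel
  rw [e2] at e
  have e3 := LinearMap.congr_fun e y
  have e4 := exp_smul_eq_sum (M := R) (a := ad ℚ R x) (m := y) (k := K) h hn2
  simp only [Module.End.smul_def] at e4
  rw [Module.End.mul_apply, e4, exp_eq_sum hL, exp_eq_sum hR] at e3
  rw [exp_eq_sum hn]
  generalize (∑ k ∈ range K, (k.factorial : ℚ)⁻¹ • (ad ℚ R x ^ k) y) = S at e3 ⊢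
  simpa [LinearMap.sum_apply, LinearMap.pow_mulLeft, LinearMap.pow_mulRight, Finset.sum_mul,
    Finset.mul_sum] using e3

theorem dexp {A : Type*} [Ring A] [Algebra ℚ A] (D : A →ₗ[ℚ] A)
    (hD : ∀ x y, D (x * y) = D x * y + x * D y) {z : A} (hz : IsNilpotent z) {K : ℕ}
    (h : (ad ℚ A z ^ K) (D z) = 0) :
    D (exp z) = (∑ k ∈ range K, ((k + 1).factorial : ℚ)⁻¹ • (ad ℚ A z ^ k) (D z)) * exp z := by
  have h1 : D 1 = 0 := by
    have := hD 1 1
    simpa using this
  have hk : ∀ k, (ad ℚ (Module.End ℚ A) (Algebra.lmul ℚ A z) ^ (k + 1)) (-D)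
      = Algebra.lmul ℚ A ((ad ℚ A z ^ k) (D z)) := by
    intro k
    induction k with
    | zero =>
      ext w
      simp [LieRing.of_associative_ring_bracket, hD]
    | succ k ih =>
      rw [pow_succ', Module.End.mul_apply, ih, pow_succ' (ad ℚ A z), Module.End.mul_apply]
      simp only [ad_apply, LieRing.of_associative_ring_bracket, map_sub, map_mul]
  have e := conjC (-D) (hz.map (Algebra.lmul ℚ A)) (K := K + 1) (by rw [hk, h, map_zero])
  have e2 := LinearMap.congr_fun e 1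
  rw [sum_range_succ', ← map_exp hz] at e2
  simp only [hk] at e2
  simp [LinearMap.sum_apply, h1] at e2
  rw [Finset.sum_mul]
  simp only [smul_mul_assoc]
  exact (add_neg_eq_zero.1 e2.symm).symm

section Lie

variable {B : Type*} [Ring B] [Algebra ℚ B]

/-- Polynomials whose first `n` coefficients lie in `L`. -/
def TT (L : Submodule ℚ B) (n : ℕ) : Submodule ℚ B[X] where
  carrier := {p | ∀ i < n, p.coeff i ∈ L}
  add_mem' := fun hp hq i hi => by rw [coeff_add]; exact L.add_mem (hp i hi) (hq i hi)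
  zero_mem' := fun i _ => by simp
  smul_mem' := fun c p hp i hi => by rw [coeff_smul]; exact L.smul_mem _ (hp i hi)

theorem tt_lie {L : Submodule ℚ B} (hL : ∀ x ∈ L, ∀ y ∈ L, ⁅x, y⁆ ∈ L) {n : ℕ} {p q : B[X]}
    (h0 : p.coeff 0 = 0) (hp : p ∈ TT L (n + 1)) (hq : q ∈ TT L n) : ⁅p, q⁆ ∈ TT L (n + 1) := by
  intro i hi
  rw [LieRing.of_associative_ring_bracket, coeff_sub, coeff_mul, coeff_mul,
    ← Finset.Nat.sum_antidiagonal_swap (f := fun c => q.coeff c.1 * p.coeff c.2),
    ← sum_sub_distrib]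
  refine L.sum_mem fun c hc => ?_
  have hc' := mem_antidiagonal.1 hc
  rcases Nat.eq_zero_or_pos c.1 with h | h
  · simp [h, h0]
  · exact hL _ (hp c.1 (by omega)) _ (hq c.2 (by omega))

theorem tt_ad {L : Submodule ℚ B} (hL : ∀ x ∈ L, ∀ y ∈ L, ⁅x, y⁆ ∈ L) {n : ℕ} {p q : B[X]}
    (h0 : p.coeff 0 = 0) (hp : p ∈ TT L (n + 1)) (hq : q ∈ TT L n) (k : ℕ) :
    (ad ℚ B[X] p ^ (k + 1)) q ∈ TT L (n + 1) := by
  induction k with
  | zero => simpa using tt_lie hL h0 hp hq
  | succ k ih =>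
    rw [pow_succ', Module.End.mul_apply, ad_apply]
    exact tt_lie hL h0 hp fun i hi => ih i (by omega)

theorem lieLog {s : ℕ} (φ : Fil B s) {L : Submodule ℚ B} (hL : ∀ x ∈ L, ∀ y ∈ L, ⁅x, y⁆ ∈ L)
    {a b : B} (ha : a ∈ φ.F 1) (hb : b ∈ φ.F 1) (haL : a ∈ L) (hbL : b ∈ L) :
    ∃ z ∈ L, z ∈ φ.F 1 ∧ exp z = exp a * exp b := by
  have hm : ∀ {x : B} (k : ℕ), x ∈ φ.F 1 → monomial k x ∈ φ.poly.F 1 := by
    intro x k hx n
    rw [coeff_monomial]; split_ifs
    · exact hx
    · exact Submodule.zero_mem _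
  have hmL : ∀ {x : B} (k n : ℕ), x ∈ L → monomial k x ∈ TT L n := by
    intro x k n hx i _
    rw [coeff_monomial]; split_ifs
    · exact hx
    · exact Submodule.zero_mem _
  have hA := hm 1 ha
  have hB := hm 1 hb
  obtain ⟨z, hz, e⟩ := φ.poly.exlog (φ.poly.mul1 (φ.poly.exp1 hA) (φ.poly.exp1 hB))
  have z0 : z.coeff 0 = 0 := by
    refine φ.inj (Submodule.zero_mem _) (hz 0) ?_
    have := congrArg constantCoeff e
    rw [map_mul, map_exp (φ.poly.nil hz), map_exp (φ.poly.nil hA), map_exp (φ.poly.nil hB)] at this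
    simpa [exp_zero, coeff_monomial] using this
  let D : B[X] →ₗ[ℚ] B[X] := (derivative (R := B)).toAddMonoidHom.toRatLinearMap
  have Da : ∀ p, D p = derivative p := fun _ => rfl
  have hD : ∀ x y, D (x * y) = D x * y + x * D y := fun x y => derivative_mul
  have hDz : D z ∈ φ.poly.F 1 := by
    intro n
    rw [Da, coeff_derivative, ← Nat.cast_succ, ← nsmul_eq_mul']
    exact (φ.F 1).toAddSubmonoid.nsmul_mem (hz _) _
  have h1 : ∀ {x : B}, x ∈ φ.F 1 → D (exp (monomial 1 x)) = monomial 0 x * exp (monomial 1 x) := by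
    intro x hx
    have := dexp D hD (φ.poly.nil (hm 1 hx)) (K := 1) (by
      simp [Da, LieRing.of_associative_ring_bracket, ← C_mul_X_eq_monomial,
        mul_assoc, X_mul])
    simpa [Da, derivative_monomial] using this
  have e1 := dexp D hD (φ.poly.nil hz) (K := s + 1) (φ.poly.adz hz hDz (by omega))
  have e2 := conjC (monomial 0 b) (φ.poly.nil hA) (K := s + 1)
    (φ.poly.adz hA (hm 0 hb) (by omega))
  rw [e, hD, h1 ha, h1 hb, ← mul_assoc _ (monomial 0 b), e2, mul_assoc, mul_assoc, ← add_mul] at e1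
  have e3 := (((isUnit_exp (φ.poly.nil hA)).mul (isUnit_exp (φ.poly.nil hB))).mul_left_inj).1 e1
  rw [sum_range_succ' (fun k => ((k + 1).factorial : ℚ)⁻¹ • (ad ℚ B[X] z ^ k) (D z)),
    sum_range_succ' (fun k => (k.factorial : ℚ)⁻¹ • (ad ℚ B[X] (monomial 1 a) ^ k) (monomial 0 b))]
    at e3
  have hT : ∀ n, z ∈ TT L (n + 1) := by
    intro n
    induction n with
    | zero => intro i hi; rw [show i = 0 by omega, z0]; exact L.zero_mem
    | succ n ih =>
      have d1 : D z ∈ TT L n := by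
        intro i hi
        rw [Da, coeff_derivative, ← Nat.cast_succ, ← nsmul_eq_mul']
        exact L.toAddSubmonoid.nsmul_mem (ih _ (by omega)) _
      have d2 : D z ∈ TT L (n + 1) := by
        have e4 := eq_sub_of_add_eq' e3.symm
        simp only [zero_add, Nat.factorial_one, Nat.factorial_zero, Nat.cast_one, inv_one,
          one_smul, pow_zero, Module.End.one_apply] at e4
        rw [e4]
        refine Submodule.sub_mem _ (Submodule.add_mem _ (hmL 0 _ haL) (Submodule.add_mem _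
          (Submodule.sum_mem _ fun k _ => Submodule.smul_mem _ _ ?_) (hmL 0 _ hbL)))
          (Submodule.sum_mem _ fun k _ => Submodule.smul_mem _ _ (tt_ad hL z0 ih d1 k))
        exact tt_ad hL (by simp [coeff_monomial]) (hmL 1 _ haL) (hmL 0 _ hbL) k
      intro i hi
      rcases i with _ | i
      · rw [z0]; exact L.zero_mem
      · have := L.smul_mem ((i + 1 : ℕ) : ℚ)⁻¹ (d2 i (by omega))
        rw [Da, coeff_derivative, ← Nat.cast_succ, ← nsmul_eq_mul', ← Nat.cast_smul_eq_nsmul ℚ,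
          smul_smul, inv_mul_cancel₀ (by positivity), one_smul] at this
        exact this
  let ev : B[X] →+* B := eval₂RingHom' (RingHom.id B) 1 fun x => Commute.one_right _
  have hev : ∀ p, ev p = ∑ i ∈ range (p.natDegree + 1), p.coeff i := by
    intro p
    change eval₂ (RingHom.id B) 1 p = _
    simp [eval₂_eq_sum_range]
  have hv1 : ∀ x : B, ev (monomial 1 x) = x := by
    intro x
    change eval₂ (RingHom.id B) 1 _ = _
    simp
  refine ⟨ev z, ?_, ?_, ?_⟩
  · rw [hev]; exact L.sum_mem fun i _ => hT i i (by omega)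
  · rw [hev]; exact Submodule.sum_mem _ fun i _ => hz i
  · have := congrArg ev e
    rwa [map_mul, map_exp (φ.poly.nil hz), map_exp (φ.poly.nil hA), map_exp (φ.poly.nil hB),
      hv1, hv1] at this

/-- Iterated commutators applied to the commutator of `x` and `y`. -/
def aw (x y : B) : List Bool → B
  | [] => ⁅x, y⁆
  | b :: w => ⁅if b then x else y, aw x y w⁆

theorem wordLog {s : ℕ} (φ : Fil B s) {a b : B} (ha : a ∈ φ.F 1) (hb : b ∈ φ.F 1) :
    ∃ (α β : ℚ) (c : List Bool →₀ ℚ),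
      exp (α • a + β • b + c.sum fun w q => q • aw a b w) = exp a * exp b := by
  let T : Submodule ℚ B := Submodule.span ℚ (Set.range (aw a b))
  let S : Submodule ℚ B := Submodule.span ℚ {a, b} ⊔ T
  have hT : ∀ u : Bool, ∀ t ∈ T, ⁅if u then a else b, t⁆ ∈ T := by
    intro u t ht
    induction ht using Submodule.span_induction with
    | mem x hx => obtain ⟨w, rfl⟩ := hx; exact Submodule.subset_span ⟨u :: w, rfl⟩
    | zero => simp
    | add x y _ _ hx hy => rw [lie_add]; exact T.add_mem hx hy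
    | smul r x _ hx => rw [lie_smul]; exact T.smul_mem _ hx
  have h0 : ⁅a, b⁆ ∈ T := Submodule.subset_span ⟨[], rfl⟩
  have hS : ∀ t ∈ S, ∃ α β : ℚ, ∃ u ∈ T, t = α • a + β • b + u := by
    intro t ht
    obtain ⟨x, hx, u, hu, rfl⟩ := Submodule.mem_sup.1 ht
    obtain ⟨α, β, rfl⟩ := Submodule.mem_span_pair.1 hx
    exact ⟨α, β, u, hu, rfl⟩
  let K : Submodule ℚ B :=
    { carrier := {u | ∀ t ∈ S, ⁅u, t⁆ ∈ T}
      add_mem' := fun hp hq t ht => by rw [add_lie]; exact T.add_mem (hp t ht) (hq t ht)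
      zero_mem' := fun t _ => by simp
      smul_mem' := fun c p hp t ht => by rw [smul_lie]; exact T.smul_mem _ (hp t ht) }
  have hK : ∀ u : Bool, (if u then a else b) ∈ K := by
    intro u t ht
    obtain ⟨α, β, v, hv, rfl⟩ := hS t ht
    rw [lie_add, lie_add, lie_smul, lie_smul]
    refine T.add_mem (T.add_mem (T.smul_mem _ ?_) (T.smul_mem _ ?_)) (hT u v hv)
    · cases u
      · simp only [Bool.false_eq_true, if_false]
        rw [← lie_skew]; exact T.neg_mem h0
      · simp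
    · cases u
      · simp
      · simpa using h0
  have hKl : ∀ u ∈ K, ∀ v ∈ K, ⁅u, v⁆ ∈ K := by
    intro u hu v hv t ht
    rw [lie_lie]
    exact T.sub_mem (hu _ (Submodule.mem_sup_right (hv t ht)))
      (hv _ (Submodule.mem_sup_right (hu t ht)))
  have hSK : S ≤ K := by
    refine sup_le (Submodule.span_le.2 ?_) (Submodule.span_le.2 ?_)
    · rintro x (rfl | rfl)
      · exact hK true
      · exact hK false
    · rintro x ⟨w, rfl⟩
      induction w with
      | nil => exact hKl _ (hK true) _ (hK false)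
      | cons u w ih => exact hKl _ (hK u) _ ih
  obtain ⟨z, hz, _, e⟩ := lieLog φ (L := S)
    (fun x hx y hy => Submodule.mem_sup_right (hSK hx y hy)) ha hb
    (Submodule.mem_sup_left (Submodule.subset_span (by simp)))
    (Submodule.mem_sup_left (Submodule.subset_span (by simp)))
  obtain ⟨α, β, u, hu, rfl⟩ := hS z hz
  obtain ⟨c, rfl⟩ := Finsupp.mem_span_range_iff_exists_finsupp.1 hu
  exact ⟨α, β, c, e⟩

theorem aw_mem {s : ℕ} (φ : Fil B s) {a b : B} (ha : a ∈ φ.F 1) (hb : b ∈ φ.F 1) (w : List Bool) :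
    aw a b w ∈ φ.F (w.length + 2) := by
  induction w with
  | nil => exact φ.lie (i := 1) (j := 1) ha hb
  | cons u w ih =>
    have := φ.lie (i := 1) (x := if u then a else b) (by cases u <;> simpa) ih
    rw [show 1 + (w.length + 2) = (u :: w).length + 2 by simp; ring] at this
    exact this

omit [Algebra ℚ B] in
theorem aw_map {B' : Type*} [Ring B'] (f : B →+* B') (a b : B) (w : List Bool) :
    f (aw a b w) = aw (f a) (f b) w := by
  induction w with
  | nil => simp [aw, LieRing.of_associative_ring_bracket]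
  | cons u w ih => cases u <;> simp [aw, LieRing.of_associative_ring_bracket, ih]

end Lie

/-- Strictly upper triangular matrices. -/
def matFil (d : ℕ) (R : Type*) [CommRing R] [Algebra ℚ R] (s : ℕ) (h : d ≤ s + 1) :
    Fil (Matrix (Fin d) (Fin d) R) s where
  F i :=
    { carrier := {M | ∀ p q : Fin d, (q : ℕ) < p + i → M p q = 0}
      add_mem' := fun hp hq p q h => by rw [Matrix.add_apply, hp p q h, hq p q h, add_zero]
      zero_mem' := fun _ _ _ => rfl
      smul_mem' := fun c M hM p q h => by rw [Matrix.smul_apply, hM p q h, smul_zero] }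
  one p q h := Matrix.one_apply_ne fun e => by rw [e] at h; omega
  anti i M hM p q h := hM p q (by omega)
  mul i j M N hM hN p q h := by
    rw [Matrix.mul_apply]
    refine sum_eq_zero fun r _ => ?_
    by_cases h1 : (r : ℕ) < p + i
    · rw [hM p r h1, zero_mul]
    · rw [hN r q (by omega), mul_zero]
  bot M hM := by
    ext p q
    exact hM p q (by have := q.2; omega)

/-- A filtered algebra with two elements of positive level. -/
structure Ctx (s : ℕ) where
  B : Type
  [r : Ring B]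
  [al : Algebra ℚ B]
  φ : Fil B s
  a : B
  b : B
  ha : a ∈ φ.F 1
  hb : b ∈ φ.F 1

attribute [instance] Ctx.r Ctx.al

/-- The product filtration. -/
def piFil (s : ℕ) : Fil (∀ c : Ctx s, c.B) s where
  F i := Submodule.pi Set.univ fun c => c.φ.F i
  one c _ := c.φ.one
  anti _ _ hx c hc := c.φ.anti _ _ (hx c hc)
  mul _ _ _ _ hx hy c hc := c.φ.mul _ _ _ _ (hx c hc) (hy c hc)
  bot _ hx := funext fun c => c.φ.bot _ (hx c trivial)

theorem exC0 (s : ℕ) : ∃ (α β : ℚ) (c : List Bool →₀ ℚ), ∀ t : Ctx s,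
    exp (α • t.a + β • t.b + c.sum fun w q => q • aw t.a t.b w) = exp t.a * exp t.b := by
  have ha : (fun t : Ctx s => t.a) ∈ (piFil s).F 1 := fun t _ => t.ha
  have hb : (fun t : Ctx s => t.b) ∈ (piFil s).F 1 := fun t _ => t.hb
  obtain ⟨α, β, c, e⟩ := wordLog (piFil s) ha hb
  refine ⟨α, β, c, fun t => ?_⟩
  have hz := (piFil s).nil (Submodule.add_mem _ (Submodule.add_mem _ (Submodule.smul_mem _ α ha)
    (Submodule.smul_mem _ β hb)) (Submodule.sum_mem _ (t := c.support) fun w _ =>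
      Submodule.smul_mem _ (c w) ((piFil s).mono (by omega) (aw_mem (piFil s) ha hb w))))
  have := congrArg (Pi.evalRingHom (fun t : Ctx s => t.B) t) e
  rw [map_mul, Finsupp.sum, map_exp hz, map_exp ((piFil s).nil ha), map_exp ((piFil s).nil hb),
    map_add, map_add, map_sum] at this
  simpa only [map_rat_smul, aw_map, Pi.evalRingHom_apply, Finsupp.sum] using this

theorem exC (s : ℕ) : ∃ c : List Bool →₀ ℚ, c [] = 1 / 2 ∧
    ∀ (B : Type) [Ring B] [Algebra ℚ B] (φ : Fil B s) (a b : B), a ∈ φ.F 1 → b ∈ φ.F 1 →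
      exp (a + b + c.sum fun w q => q • aw a b w) = exp a * exp b := by
  obtain ⟨α, β, c, h⟩ := exC0 (s + 2)
  let φ := matFil 3 ℚ 2 le_rfl
  let a : Matrix (Fin 3) (Fin 3) ℚ := !![0, 1, 0; 0, 0, 0; 0, 0, 0]
  let b : Matrix (Fin 3) (Fin 3) ℚ := !![0, 0, 0; 0, 0, 1; 0, 0, 0]
  have ha : a ∈ φ.F 1 := by
    intro p q hh
    fin_cases p <;> fin_cases q <;> simp_all [a]
  have hb : b ∈ φ.F 1 := by
    intro p q hh
    fin_cases p <;> fin_cases q <;> simp_all [b]
  have e := h ⟨_, φ.up (s + 2) (by omega), a, b, ha, hb⟩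
  have e1 : (c.sum fun w q => q • aw a b w) = c [] • ⁅a, b⁆ := by
    rw [Finsupp.sum_eq_single []]
    · rfl
    · intro w _ hw
      have := φ.bot _ (φ.mono (i := 2 + 1) (by
        have := List.length_pos_iff.2 hw
        omega) (aw_mem φ ha hb w))
      rw [this, smul_zero]
    · simp
  dsimp only at e
  have hz : α • a + β • b + c [] • ⁅a, b⁆ ∈ φ.F 1 :=
    Submodule.add_mem _ (Submodule.add_mem _ (Submodule.smul_mem _ _ ha)
      (Submodule.smul_mem _ _ hb)) (Submodule.smul_mem _ _ (φ.anti _ _ (φ.lie ha hb)))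
  rw [e1, exp_eq_sum (φ.pz hz), exp_eq_sum (φ.pz ha), exp_eq_sum (φ.pz hb)] at e
  have f1 := congrFun (congrFun e 0) 1
  have f2 := congrFun (congrFun e 1) 2
  have f3 := congrFun (congrFun e 0) 2
  simp [sum_range_succ, a, b, LieRing.of_associative_ring_bracket, pow_two, Matrix.mul_apply,
    Fin.sum_univ_three, Matrix.one_apply, Nat.factorial] at f1 f2 f3
  refine ⟨c, by rw [f1, f2] at f3; linarith, fun B _ _ ψ x y hx hy => ?_⟩
  have := h ⟨B, ψ.up (s + 2) (by omega), x, y, hx, hy⟩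
  simpa [f1, f2] using this

end Pool.Agent.Lib.MP_028aa5_nt.N.BA
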