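import Pool.Agent.Lib.MP_028aa5_nt.N.Grp
import Pool.Agent.Lib.MP_028aa5_nt.N.BchA

/-! The formula of Baker, Campbell and Hausdorff for the groups `PN.G`. -/

set_option autoImplicit false

namespace Pool.Agent.Lib.MP_028aa5_nt.N

open Finset IsNilpotent Polynomial BA LieAlgebra

attribute [local instance 100] LieRing.ofAssociativeRing

theorem adw_map {L L' : Type} [AddCommGroup L] [AddCommGroup L'] {br : L → L → L}
    {br' : L' → L' → L'} (f : L →+ L') (h : ∀ u v, f (br u v) = br' (f u) (f v)) (x y : L)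
    (w : List Bool) : f (adw br x y w) = adw br' (f x) (f y) w := by
  induction w with
  | nil => exact h x y
  | cons b w ih =>
    rw [adw, adw, h, ih]
    cases b <;> rfl

theorem bp_map {L L' : Type} [AddCommGroup L] [Module ℚ L] [AddCommGroup L'] [Module ℚ L']
    {br : L → L → L} {br' : L' → L' → L'} (f : L →+ L') (h : ∀ u v, f (br u v) = br' (f u) (f v))
    (c : List Bool →₀ ℚ) (x y : L) : f (bp br c x y) = bp br' c (f x) (f y) := by
  rw [bp, bp, map_add, map_add, Finsupp.sum, Finsupp.sum, map_sum]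
  simp only [map_rat_smul, adw_map f h]

theorem iter_map {L L' : Type} {br : L → L → L} {br' : L' → L' → L'} (f : L → L')
    (h : ∀ u v, f (br u v) = br' (f u) (f v)) (x y : L) (i : ℕ) :
    f ((br x)^[i] y) = (br' (f x))^[i] (f y) := by
  induction i with
  | zero => rfl
  | succ i ih => rw [Function.iterate_succ_apply', Function.iterate_succ_apply', h, ih]

section Ass

variable {A : Type} [Ring A] [Algebra ℚ A] {s : ℕ}

omit [Algebra ℚ A] in
theorem adw_cm (x y : A) (w : List Bool) : adw cm x y w = aw x y w := by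
  induction w with
  | nil => rfl
  | cons b w ih => rw [adw, aw, ih]; rfl

theorem iter_cm (x y : A) (i : ℕ) : (cm x)^[i] y = (ad ℚ A x ^ i) y := by
  induction i with
  | zero => rfl
  | succ i ih => rw [Function.iterate_succ_apply', ih, pow_succ', Module.End.mul_apply]; rfl

theorem ex_eq {x : A} (h : x ^ (s + 1) = 0) : ex s x = exp x := (exp_eq_sum h).symm

theorem bp_mem (φ : Fil A s) (c : List Bool →₀ ℚ) {x y : A} (hx : x ∈ φ.F 1) (hy : y ∈ φ.F 1) :
    bp cm c x y ∈ φ.F 1 :=
  Submodule.add_mem _ (Submodule.add_mem _ hx hy) (Submodule.sum_mem _ fun w _ =>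
    Submodule.smul_mem _ _ (by rw [adw_cm]; exact φ.mono (by omega) (aw_mem φ hx hy w)))

/-- The filtration by the spans of long products of elements of `T`. -/
def setFil (T : Set A) (h : ∀ l : List A, (∀ u ∈ l, u ∈ T) → l.length = s + 1 → l.prod = 0) :
    Fil A s where
  F i := Submodule.span ℚ {p | ∃ l : List A, (∀ u ∈ l, u ∈ T) ∧ i ≤ l.length ∧ l.prod = p}
  one := Submodule.subset_span ⟨[], by simp, le_rfl, rfl⟩
  anti i x hx := by
    refine Submodule.span_mono ?_ hx
    rintro p ⟨l, h1, h2, h3⟩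
    exact ⟨l, h1, by omega, h3⟩
  mul i j x y hx hy := by
    have := Submodule.mul_mem_mul hx hy
    rw [Submodule.span_mul_span] at this
    refine Submodule.span_mono ?_ this
    rintro p ⟨u, ⟨l, h1, h2, rfl⟩, v, ⟨l', h3, h4, rfl⟩, rfl⟩
    refine ⟨l ++ l', fun u hu => ?_, by rw [List.length_append]; omega, List.prod_append⟩
    rcases List.mem_append.1 hu with hu | hu
    · exact h1 u hu
    · exact h3 u hu
  bot x hx := by
    refine (Submodule.mem_bot ℚ).1 (Submodule.span_le.2 ?_ hx)
    rintro p ⟨l, h1, h2, rfl⟩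
    rw [← List.take_append_drop (s + 1) l, List.prod_append,
      h _ (fun u hu => h1 u (List.mem_of_mem_take hu)) (by rw [List.length_take]; omega), zero_mul]
    exact Submodule.zero_mem _

theorem setFil_one {T : Set A}
    (h : ∀ l : List A, (∀ u ∈ l, u ∈ T) → l.length = s + 1 → l.prod = 0) {x : A} (hx : x ∈ T) :
    x ∈ (setFil T h).F 1 :=
  Submodule.subset_span ⟨[x], by simpa using hx, le_rfl, by simp⟩

theorem fil_prod (φ : Fil A s) (l : List A) (h : ∀ u ∈ l, u ∈ φ.F 1) : l.prod ∈ φ.F l.length := by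
  induction l with
  | nil => exact φ.one
  | cons u l ih =>
    rw [List.prod_cons, List.length_cons, add_comm]
    exact φ.mul _ _ _ _ (h u (by simp)) (ih fun v hv => h v (by simp [hv]))

/-- The truncated exponential is injective on a set whose long products vanish. -/
theorem ex_inj {T : Set A} (h : ∀ l : List A, (∀ u ∈ l, u ∈ T) → l.length = s + 1 → l.prod = 0)
    {x y : A} (hx : x ∈ T) (hy : y ∈ T) (e : ex s x = ex s y) : x = y := by
  have h1 := setFil_one h hx
  have h2 := setFil_one h hy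
  rw [ex_eq ((setFil T h).pz h1), ex_eq ((setFil T h).pz h2)] at e
  exact (setFil T h).inj h2 h1 e

/-- The truncated exponential maps a nilpotent subalgebra `J` onto `1 + J`. -/
theorem ex_surj (J : Submodule ℚ A) (hJ : ∀ x ∈ J, ∀ y ∈ J, x * y ∈ J)
    (h : ∀ l : List A, (∀ u ∈ l, u ∈ J) → l.length = s + 1 → l.prod = 0) {u : A}
    (hu : u - 1 ∈ J) : ∃ x ∈ J, ex s x = u := by
  have h' : ∀ l : List A, (∀ u ∈ l, u ∈ (J : Set A)) → l.length = s + 1 → l.prod = 0 := h
  obtain ⟨z, hz, e⟩ := (setFil (J : Set A) h').exlog (setFil_one h' hu)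
  refine ⟨z, ?_, by rw [ex_eq ((setFil (J : Set A) h').pz hz), e]⟩
  refine Submodule.span_le.2 ?_ hz
  rintro p ⟨l, h1, h2, rfl⟩
  induction l with
  | nil => simp at h2
  | cons v l ih =>
    rcases l with _ | ⟨v', l⟩
    · simpa using h1 v (by simp)
    · rw [List.prod_cons]
      exact hJ _ (h1 v (by simp)) _ (ih (fun w hw => h1 w (List.mem_cons_of_mem _ hw)) (by simp))

theorem ex_sub_one (J : Submodule ℚ A) (hJ : ∀ x ∈ J, ∀ y ∈ J, x * y ∈ J) {x : A} (hx : x ∈ J) :
    ex s x - 1 ∈ J := by
  rw [ex, sum_range_succ']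
  simp only [Nat.factorial_zero, Nat.cast_one, inv_one, pow_zero, one_smul, add_sub_cancel_right]
  have : ∀ i : ℕ, x ^ (i + 1) ∈ J := by
    intro i
    induction i with
    | zero => simpa using hx
    | succ i ih => rw [_root_.pow_succ]; exact hJ _ ih _ hx
  exact J.sum_mem fun i _ => J.smul_mem _ (this i)

theorem exp_conj (φ : Fil A s) {a b : A} (ha : a ∈ φ.F 1) (hb : b ∈ φ.F 1) :
    exp a * exp b * exp (-a)
      = exp (∑ i ∈ range (s + 1), ((i.factorial : ℚ)⁻¹) • (cm a)^[i] b) := by
  have h1 := exp_mul_exp_neg_self (φ.nil ha)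
  have h2 := exp_neg_mul_exp_self (φ.nil ha)
  have e := conjC b (φ.nil ha) (K := s + 1) (φ.adz ha hb (by omega))
  have e2 : ∑ i ∈ range (s + 1), ((i.factorial : ℚ)⁻¹) • (cm a)^[i] b = exp a * b * exp (-a) := by
    rw [e, mul_assoc, h1, mul_one]
    simp only [iter_cm]
  have hp : ∀ k : ℕ, (exp a * b * exp (-a)) ^ k = exp a * b ^ k * exp (-a) := by
    intro k
    induction k with
    | zero => simp [h1]
    | succ k ih =>
      rw [_root_.pow_succ, ih, _root_.pow_succ]
      simp only [mul_assoc]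
      rw [← mul_assoc (exp (-a)) (exp a), h2, one_mul]
  rw [e2, exp_eq_sum (φ.pz hb), exp_eq_sum (a := exp a * b * exp (-a)) (k := s + 1)
    (by rw [hp, φ.pz hb, mul_zero, zero_mul])]
  simp only [hp, Finset.mul_sum, Finset.sum_mul, mul_smul_comm, smul_mul_assoc]

end Ass

/-- The formula holds in all filtered algebras. -/
def Uni (s : ℕ) (c : List Bool →₀ ℚ) : Prop := ∀ (A : Type) [Ring A] [Algebra ℚ A] (φ : Fil A s)
  (a b : A), a ∈ φ.F 1 → b ∈ φ.F 1 → exp (bp cm c a b) = exp a * exp b

theorem Good.uni {s : ℕ} {c : List Bool →₀ ℚ} (h : Good s c) : Uni s c := by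
  intro A _ _ φ a b ha hb
  have := h.2.1 A a b fun l hl e => φ.bot _ (e ▸ fil_prod φ l fun u hu => by
    rcases hl u hu with rfl | rfl <;> assumption)
  rwa [ex_eq (φ.pz (bp_mem φ c ha hb)), ex_eq (φ.pz ha), ex_eq (φ.pz hb)] at this

/-- Endomorphisms that move a flag. -/
def flagFil {E : Type} [AddCommGroup E] [Module ℚ E] {s : ℕ} (M : ℕ → Submodule ℚ E)
    (top : ∀ x, x ∈ M 0) (anti : ∀ j x, x ∈ M (j + 1) → x ∈ M j)
    (bot : ∀ x, x ∈ M (s + 1) → x = 0) : Fil (Module.End ℚ E) s where
  F i :=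
    { carrier := {f | ∀ j, ∀ x ∈ M j, f x ∈ M (j + i)}
      add_mem' := fun hf hg j x hx => (M _).add_mem (hf j x hx) (hg j x hx)
      zero_mem' := fun _ _ _ => (M _).zero_mem
      smul_mem' := fun c _ hf j x hx => (M _).smul_mem c (hf j x hx) }
  one _ _ hx := hx
  anti _ _ hf j x hx := anti _ _ (hf j x hx)
  mul i k f g hf hg j x hx := by
    have := hf _ _ (hg j x hx)
    rwa [show j + k + i = j + (i + k) by ring] at this
  bot f hf := LinearMap.ext fun x => bot _ (by simpa using hf 0 x (top x))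

namespace PN

variable {s : ℕ} (n : PN s) {R : Type} [CommRing R]

theorem br_add_left (x y z : n.G R) : n.br (x + y) z = n.br x z + n.br y z := by
  ext c; simp [br, add_mul, mul_add, sum_add_distrib]

theorem br_add_right (x y z : n.G R) : n.br x (y + z) = n.br x y + n.br x z := by
  ext c; simp [br, mul_add, sum_add_distrib]

theorem br_sub_left (x y z : n.G R) : n.br (x - y) z = n.br x z - n.br y z := by
  rw [sub_eq_add_neg, br_add_left, br_neg_left, ← sub_eq_add_neg]

theorem br_sub_right (x y z : n.G R) : n.br x (y - z) = n.br x y - n.br x z := by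
  rw [sub_eq_add_neg, br_add_right, br_neg_right, ← sub_eq_add_neg]

theorem br_smul_left {S : Type} [CommSemiring S] [Algebra S R] (t : S) (x y : n.G R) :
    n.br (t • x) y = t • n.br x y := by
  ext c; simp [br, smul_sum]

theorem br_smul_right {S : Type} [CommSemiring S] [Algebra S R] (t : S) (x y : n.G R) :
    n.br x (t • y) = t • n.br x y := by
  ext c; simp [br, smul_sum]

theorem br_sum_left {ι : Type} (T : Finset ι) (x : ι → n.G R) (y : n.G R) :
    n.br (∑ i ∈ T, x i) y = ∑ i ∈ T, n.br (x i) y :=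
  map_sum (AddMonoidHom.mk' (fun u => n.br u y) fun u v => n.br_add_left u v y) x T

theorem br_sum_right {ι : Type} (T : Finset ι) (x : n.G R) (y : ι → n.G R) :
    n.br x (∑ i ∈ T, y i) = ∑ i ∈ T, n.br x (y i) :=
  map_sum (AddMonoidHom.mk' (fun u => n.br x u) fun u v => n.br_add_right x u v) y T

theorem br_br (x y z : n.G R) (d : n.I) : n.br x (n.br y z) d
    = ∑ a, ∑ b, ∑ c, ((∑ u, n.k b c u * n.k a u d : ℤ) : R) * (x a * y b * z c) := by
  simp only [br, mul_sum, sum_mul, Int.cast_sum, Int.cast_mul]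
  refine sum_congr rfl fun a _ => ?_
  rw [sum_comm]
  refine sum_congr rfl fun b _ => ?_
  rw [sum_comm]
  exact sum_congr rfl fun c _ => sum_congr rfl fun u _ => by ring

theorem br_jac (x y z : n.G R) :
    n.br x (n.br y z) + n.br y (n.br z x) + n.br z (n.br x y) = 0 := by
  ext d
  have e2 : n.br y (n.br z x) d
      = ∑ a, ∑ b, ∑ c, ((∑ u, n.k c a u * n.k b u d : ℤ) : R) * (x a * y b * z c) := by
    rw [br_br]
    refine Eq.trans ?_ sum_comm
    refine sum_congr rfl fun b _ => ?_
    rw [sum_comm]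
    exact sum_congr rfl fun a _ => sum_congr rfl fun c _ => by ring
  have e3 : n.br z (n.br x y) d
      = ∑ a, ∑ b, ∑ c, ((∑ u, n.k a b u * n.k c u d : ℤ) : R) * (x a * y b * z c) := by
    rw [br_br, sum_comm]
    refine sum_congr rfl fun a _ => ?_
    rw [sum_comm]
    exact sum_congr rfl fun b _ => sum_congr rfl fun c _ => by ring
  rw [add_apply, add_apply, br_br, e2, e3, zero_apply]
  simp only [← sum_add_distrib, ← add_mul, ← Int.cast_add, n.jac, Int.cast_zero, zero_mul,
    sum_const_zero]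

theorem br_leib (x y z : n.G R) :
    n.br (n.br x y) z = n.br x (n.br y z) - n.br y (n.br x z) := by
  have := n.br_jac x y z
  rw [n.br_anti z x, br_neg_right, n.br_anti z] at this
  rw [← sub_eq_zero, ← neg_eq_zero, ← this]
  abel

/-- change of rings, as an additive map -/
def mapA {R' : Type} [CommRing R'] (φ : R →+* R') : n.G R →+ n.G R' where
  toFun x := fun a => φ (x a)
  map_zero' := funext fun _ => map_zero φ
  map_add' x y := funext fun a => map_add φ (x a) (y a)

theorem mapA_br {R' : Type} [CommRing R'] (φ : R →+* R') (x y : n.G R) :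
    n.mapA φ (n.br x y) = n.br (n.mapA φ x) (n.mapA φ y) := by
  funext c
  simp [mapA, br, map_sum]

/-- the derivative, coordinate by coordinate -/
noncomputable def dv (x : n.G R[X]) : n.G R[X] := fun a => derivative (x a)

theorem dv_br (x y : n.G R[X]) : n.dv (n.br x y) = n.br (n.dv x) y + n.br x (n.dv y) := by
  ext1 c
  simp [dv, br, map_sum, mul_add, sum_add_distrib]

variable [Algebra ℚ R]

/-- a representation whose kernel consists of constants -/
noncomputable def rho : n.G R[X] →+ Module.End ℚ (n.G R[X] × ℚ) :=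
  AddMonoidHom.mk' (fun x =>
    { toFun := fun p => (n.br x p.1 - p.2 • n.dv x, 0)
      map_add' := fun p q => by
        simp only [Prod.fst_add, Prod.snd_add, br_add_right, add_smul, Prod.mk_add_mk, add_zero]
        congr 1
        abel
      map_smul' := fun t p => by
        simp only [Prod.smul_fst, Prod.smul_snd, br_smul_right, RingHom.id_apply, Prod.smul_mk,
          mul_zero, smul_sub, smul_smul, smul_eq_mul] })
    fun x y => by
      refine LinearMap.ext fun p => ?_
      have : n.dv (x + y) = n.dv x + n.dv y := funext fun a => derivative_add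
      simp only [LinearMap.coe_mk, AddHom.coe_mk, LinearMap.add_apply, this, br_add_left,
        smul_add, Prod.mk_add_mk, add_zero]
      congr 1
      abel

theorem rho_apply (x : n.G R[X]) (p : n.G R[X] × ℚ) :
    n.rho x p = (n.br x p.1 - p.2 • n.dv x, 0) := rfl

theorem rho_br (x y : n.G R[X]) : n.rho (n.br x y) = cm (n.rho x) (n.rho y) := by
  refine LinearMap.ext fun p => ?_
  simp only [cm, LinearMap.sub_apply, Module.End.mul_apply, rho_apply, zero_smul, sub_zero,
    Prod.mk_sub_mk, br_sub_right, br_smul_right, br_leib, dv_br, smul_add]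
  rw [n.br_anti (n.dv x) y, smul_neg]
  congr 1
  abel

/-- the flag of the representation -/
def flag (j : ℕ) : Submodule ℚ (n.G R[X] × ℚ) where
  carrier := {p | (0 < j → p.2 = 0) ∧ ∀ a, n.wt a < j → p.1 a = 0}
  add_mem' := fun hp hq => ⟨fun h => by simp [hp.1 h, hq.1 h],
    fun a h => by simp [hp.2 a h, hq.2 a h]⟩
  zero_mem' := ⟨fun _ => rfl, fun _ _ => rfl⟩
  smul_mem' := fun c p hp => ⟨fun h => by simp [hp.1 h], fun a h => by simp [hp.2 a h]⟩

/-- the filtration of the representation -/
noncomputable def rfil : Fil (Module.End ℚ (n.G R[X] × ℚ)) s :=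
  flagFil n.flag (fun _ => ⟨fun h => absurd h (lt_irrefl 0), fun _ h => absurd h (Nat.not_lt_zero _)⟩)
    (fun _ _ hx => ⟨fun h => hx.1 (by omega), fun a h => hx.2 a (by omega)⟩)
    fun x hx => Prod.ext (funext fun a => hx.2 a (Nat.lt_succ_of_le (n.ws a))) (hx.1 (by omega))

theorem rho_mem (x : n.G R[X]) : n.rho x ∈ (n.rfil (R := R)).F 1 := by
  intro j p hp
  refine ⟨fun _ => rfl, fun c hc => ?_⟩
  have hw := n.w1 c
  rw [rho_apply, hp.1 (by omega), zero_smul, sub_zero]
  refine sum_eq_zero fun a _ => sum_eq_zero fun b _ => ?_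
  by_cases k0 : n.k a b c = 0
  · simp [k0]
  · have := n.fil a b c k0
    have := n.w1 a
    rw [hp.2 b (by omega), mul_zero, mul_zero]

theorem tr {w w' : n.G R[X]} (h : n.rho w = n.rho w')
    (h0 : n.mapA (evalRingHom 0) w = n.mapA (evalRingHom 0) w') : w = w' := by
  have e := congrArg Prod.fst (LinearMap.congr_fun h (0, 1))
  simp only [rho_apply, br_zero_right, one_smul, zero_sub, neg_inj] at e
  funext a
  have e1 : derivative (w a) = derivative (w' a) := congrFun e a
  have e0 : eval 0 (w a) = eval 0 (w' a) := congrFun h0 a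
  ext i
  rcases i with _ | i
  · rw [coeff_zero_eq_eval_zero, coeff_zero_eq_eval_zero, e0]
  · have := congrArg (fun p => (((i + 1 : ℕ) : ℚ)⁻¹) • coeff p i) e1
    simp only [coeff_derivative] at this
    rwa [← Nat.cast_succ, ← nsmul_eq_mul', ← nsmul_eq_mul', ← Nat.cast_smul_eq_nsmul ℚ,
      ← Nat.cast_smul_eq_nsmul ℚ, smul_smul, smul_smul, inv_mul_cancel₀ (by positivity), one_smul,
      one_smul] at this

/-- the ray through a point -/
noncomputable def ray (x : n.G R) : n.G R[X] := fun a => C (x a) * X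

omit [Algebra ℚ R] in
theorem ray0 (x : n.G R) : n.mapA (evalRingHom 0) (n.ray x) = 0 := by
  funext a; simp [mapA, ray]

omit [Algebra ℚ R] in
theorem ray1 (x : n.G R) : n.mapA (evalRingHom 1) (n.ray x) = x := by
  funext a; simp [mapA, ray]

theorem asc_of {c : List Bool →₀ ℚ} (h : Uni s c) (x y z : n.G R) :
    bp n.br c (bp n.br c x y) z = bp n.br c x (bp n.br c y z) := by
  have e : bp n.br c (bp n.br c (n.ray x) (n.ray y)) (n.ray z)
      = bp n.br c (n.ray x) (bp n.br c (n.ray y) (n.ray z)) := by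
    refine n.tr ?_ ?_
    · simp only [bp_map n.rho n.rho_br]
      have ha := n.rho_mem (n.ray x)
      have hb := n.rho_mem (n.ray y)
      have hc := n.rho_mem (n.ray z)
      have hab := bp_mem _ c ha hb
      have hbc := bp_mem _ c hb hc
      refine n.rfil.inj (bp_mem _ c ha hbc) (bp_mem _ c hab hc) ?_
      rw [h _ _ _ _ hab hc, h _ _ _ _ ha hbc, h _ _ _ _ ha hb, h _ _ _ _ hb hc, mul_assoc]
    · simp only [bp_map _ (n.mapA_br _), ray0, n.bp_of_comm c (n.br_zero_left 0), add_zero]
  have := congrArg (n.mapA (evalRingHom 1)) e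
  simpa only [bp_map _ (n.mapA_br _), ray1] using this

theorem conj_of {c : List Bool →₀ ℚ} (h : Uni s c) (x y : n.G R) :
    bp n.br c (bp n.br c x y) (-x)
      = ∑ i ∈ range (s + 1), ((i.factorial : ℚ)⁻¹) • (n.br x)^[i] y := by
  have e : bp n.br c (bp n.br c (n.ray x) (n.ray y)) (-n.ray x)
      = ∑ i ∈ range (s + 1), ((i.factorial : ℚ)⁻¹) • (n.br (n.ray x))^[i] (n.ray y) := by
    refine n.tr ?_ ?_
    · simp only [bp_map n.rho n.rho_br, map_sum, map_rat_smul, iter_map n.rho n.rho_br, map_neg]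
      have ha := n.rho_mem (n.ray x)
      have hb := n.rho_mem (n.ray y)
      have hab := bp_mem _ c ha hb
      have hc := Submodule.neg_mem _ ha
      refine n.rfil.inj (Submodule.sum_mem _ fun i _ => Submodule.smul_mem _ _ ?_)
        (bp_mem _ c hab hc) ?_
      · rw [iter_cm]; exact n.rfil.mono (by omega) (n.rfil.adp ha hb i)
      · rw [h _ _ _ _ hab hc, h _ _ _ _ ha hb, exp_conj _ ha hb]
    · simp only [bp_map _ (n.mapA_br _), map_sum, map_rat_smul, iter_map _ (n.mapA_br _), map_neg,
        ray0, neg_zero, n.bp_of_comm c (n.br_zero_left 0), add_zero,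
        Function.iterate_fixed (n.br_zero_left (0 : n.G R)), smul_zero, sum_const_zero]
  have := congrArg (n.mapA (evalRingHom 1)) e
  simpa only [bp_map _ (n.mapA_br _), map_sum, map_rat_smul, iter_map _ (n.mapA_br _), map_neg,
    ray1] using this

end PN

theorem good_cb (s : ℕ) : Good s (cb s) := by
  have h : ∃ c, Good s c := by
    obtain ⟨c, h0, hc⟩ := exC s
    have hu : Uni s c := fun A _ _ φ a b ha hb => by
      simpa only [bp, adw_cm] using hc A φ a b ha hb
    refine ⟨c, h0, fun A _ _ x y hl => ?_, fun n R _ _ x y z => n.asc_of hu x y z⟩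
    have hl' : ∀ l : List A, (∀ u ∈ l, u ∈ ({x, y} : Set A)) → l.length = s + 1 → l.prod = 0 := hl
    have hx := setFil_one hl' (x := x) (Or.inl rfl)
    have hy := setFil_one hl' (x := y) (Or.inr rfl)
    rw [ex_eq (Fil.pz _ (bp_mem _ c hx hy)), ex_eq (Fil.pz _ hx), ex_eq (Fil.pz _ hy)]
    exact hu A _ x y hx hy
  rw [cb, dif_pos h]
  exact h.choose_spec

theorem cb_nil (s : ℕ) : cb s [] = 1 / 2 := (good_cb s).1

theorem PN.conj {s : ℕ} (n : PN s) {R : Type} [CommRing R] [Algebra ℚ R] (x y : n.G R) :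
    x * y * x⁻¹ = ∑ i ∈ range (s + 1), ((i.factorial : ℚ)⁻¹) • (n.br x)^[i] y :=
  n.conj_of (good_cb s).uni x y

end Pool.Agent.Lib.MP_028aa5_nt.N
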