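import Pool.Agent.Lib.MP_028aa5_nt.N.Tri
import Pool.Agent.Lib.MP_028aa5_nt.N.Bch

/-! Polynomial bounds for the group law on points and on phases. -/

namespace Pool.Agent.Lib.MP_028aa5_nt.N

open Finset Polynomial
open scoped Classical

/-- sum of the absolute values of the first coefficients -/
noncomputable def pn (s : ℕ) (p : ℝ[X]) : ℝ := ∑ j ∈ range (s + 1), |p.coeff j|

theorem sn_abs : Sn fun x : ℝ => |x| where
  nonneg := abs_nonneg
  add := abs_add_le
  mul x y := (abs_mul x y).le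
  smul q x := by rw [Rat.smul_def, abs_mul]

theorem sn_pn (s : ℕ) : Sn (pn s) where
  nonneg p := sum_nonneg fun _ _ => abs_nonneg _
  add p q := by
    rw [pn, pn, pn, ← sum_add_distrib]
    exact sum_le_sum fun j _ => by rw [coeff_add]; exact abs_add_le _ _
  mul p q := by
    rw [pn, pn, pn, sum_mul_sum, ← sum_product']
    calc _ ≤ ∑ j ∈ range (s + 1), ∑ x ∈ antidiagonal j, |p.coeff x.1| * |q.coeff x.2| :=
          sum_le_sum fun j _ => by
            rw [coeff_mul]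
            exact (abs_sum_le_sum_abs _ _).trans (sum_le_sum fun x _ => (abs_mul _ _).le)
      _ = ∑ x ∈ (range (s + 1)).biUnion antidiagonal, |p.coeff x.1| * |q.coeff x.2| := by
          rw [sum_biUnion]
          intro i _ j _ hij
          exact disjoint_left.2 fun x h1 h2 =>
            hij ((mem_antidiagonal.1 h1).symm.trans (mem_antidiagonal.1 h2))
      _ ≤ _ := by
          refine sum_le_sum_of_subset_of_nonneg (fun x hx => ?_) fun _ _ _ => by positivity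
          obtain ⟨j, hj, h⟩ := mem_biUnion.1 hx
          replace h := mem_antidiagonal.1 h
          rw [mem_range] at hj
          simp only [mem_product, mem_range]
          omega
  smul q p := by
    rw [pn, pn, mul_sum]
    exact sum_le_sum fun j _ => by rw [coeff_smul, Rat.smul_def, abs_mul]

namespace PN

variable {s : ℕ} {n : PN s}

section

variable {R : Type} [CommRing R] [Algebra ℚ R] {N : R → ℝ} (h : Sn N)
include h

theorem l1_iter (x u : n.G R) (i : ℕ) :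
    n.l1 N ((n.br x)^[i] u) ≤ (n.kk * n.l1 N x) ^ i * n.l1 N u := by
  have k1 := n.one_le_kk
  have x0 := l1_nonneg h x
  induction i with
  | zero => simp
  | succ i ih =>
    rw [Function.iterate_succ_apply']
    refine (l1_br h _ _).trans ?_
    calc _ ≤ n.kk * (n.l1 N x * ((n.kk * n.l1 N x) ^ i * n.l1 N u)) := by gcongr
      _ = _ := by ring

/-- conjugation is linear -/
theorem l1_conj {x : n.G R} (u : n.G R) {B : ℝ} (B1 : 1 ≤ B) (hx : n.l1 N x ≤ B) :
    n.l1 N (x * u * x⁻¹) ≤ (s + 1) * n.kk ^ s * B ^ s * n.l1 N u := by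
  have k1 := n.one_le_kk
  have x0 := l1_nonneg h x
  have u0 := l1_nonneg h u
  rw [n.conj]
  refine (l1_sum h _ _).trans ((sum_le_card_nsmul _ _ ((n.kk * B) ^ s * n.l1 N u)
    fun i hi => ?_).trans (le_of_eq ?_))
  · refine (l1_smul h _ _).trans ?_
    have a : |(((i.factorial : ℚ)⁻¹ : ℚ) : ℝ)| ≤ 1 := by
      have : (1 : ℝ) ≤ i.factorial := by exact_mod_cast i.factorial_pos
      push_cast
      rw [abs_of_nonneg (by positivity)]
      exact inv_le_one_of_one_le₀ this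
    have b : (n.kk * n.l1 N x) ^ i ≤ (n.kk * B) ^ s :=
      (pow_le_pow_left₀ (by positivity) (by gcongr) i).trans
        (pow_le_pow_right₀ (one_le_mul_of_one_le_of_one_le k1 B1) (by rw [mem_range] at hi; omega))
    calc _ ≤ 1 * ((n.kk * n.l1 N x) ^ i * n.l1 N u) :=
          mul_le_mul a (l1_iter h x u i) (l1_nonneg h _) zero_le_one
      _ ≤ _ := by rw [one_mul]; gcongr
  · rw [card_range, nsmul_eq_mul, mul_pow]
    push_cast
    ring

/-- the product has degree at most `s` -/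
theorem l1_mul_le {x y : n.G R} {B : ℝ} (B1 : 1 ≤ B) (hx : n.l1 N x ≤ B) (hy : n.l1 N y ≤ B) :
    n.l1 N (x * y) ≤ (2 + n.cM) * B ^ s := by
  have k1 := n.one_le_kk
  have m1 := n.one_le_cM
  rcases Nat.eq_zero_or_pos s with rfl | hs
  · have : IsEmpty n.I := ⟨fun a => by have := n.w1 a; have := n.ws a; omega⟩
    simp only [l1, univ_eq_empty, sum_empty]
    positivity
  have p : n.l1 N (n.pol x y) ≤ n.cM * B ^ s := by
    refine l1_cb h _ (by positivity) fun l => ?_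
    by_cases hl : s ≤ l.length + 1
    · rw [adw_long x y hl, l1_zero h]
      positivity
    · refine (l1_adw h hx hy l).trans ?_
      have a : n.kk ^ (l.length + 1) ≤ n.kk ^ s := pow_le_pow_right₀ k1 (by omega)
      have b : B ^ (l.length + 2) ≤ B ^ s := pow_le_pow_right₀ B1 (by omega)
      have c : (1 : ℝ) ≤ s := by exact_mod_cast hs
      have := l1_nonneg h y
      calc _ ≤ (n.kk * B) ^ l.length * (n.kk * (B * B)) := by gcongr
        _ = 1 * n.kk ^ (l.length + 1) * B ^ (l.length + 2) := by ring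
        _ ≤ _ := by gcongr
  have q : B ≤ B ^ s := le_self_pow₀ B1 hs.ne'
  have r := l1_add h x y
  have t := l1_add h (x + y) (n.pol x y)
  rw [mul_pol]
  linarith

end

variable (n) in
/-- one constant for all the bounds -/
noncomputable def cB : ℝ := 2 + 2 * n.cM + (s + 1) * n.kk ^ s

theorem cB_ge : 1 ≤ n.cB ∧ 2 * n.cM ≤ n.cB ∧ 2 + n.cM ≤ n.cB ∧ (s + 1) * n.kk ^ s ≤ n.cB := by
  have := n.one_le_kk
  have := n.one_le_cM
  have : 0 ≤ (s + 1) * n.kk ^ s := by positivity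
  unfold cB
  refine ⟨?_, ?_, ?_, ?_⟩ <;> linarith

theorem one_le_cB : 1 ≤ n.cB := cB_ge.1

section

variable {R : Type} [CommRing R] [Algebra ℚ R] {N : R → ℝ} (h : Sn N)
include h

theorem bil_mul_inv (x y : n.G R) :
    n.l1 N (x * y⁻¹) ≤ n.cB * (1 + n.l1 N x + n.l1 N y) ^ s * n.l1 N (x - y) := by
  have := l1_nonneg h x
  have := l1_nonneg h y
  have := l1_nonneg h (x - y)
  refine (l1_mul_inv h (B := 1 + n.l1 N x + n.l1 N y) (by linarith) (by linarith)
    (by linarith)).trans ?_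
  gcongr
  exact cB_ge.2.1

theorem bil_inv_mul (x y : n.G R) :
    n.l1 N (x⁻¹ * y) ≤ n.cB * (1 + n.l1 N x + n.l1 N y) ^ s * n.l1 N (x - y) := by
  have := l1_nonneg h x
  have := l1_nonneg h y
  have := l1_nonneg h (x - y)
  refine (l1_inv_mul h (B := 1 + n.l1 N x + n.l1 N y) (by linarith) (by linarith)
    (by linarith)).trans ?_
  gcongr
  exact cB_ge.2.1

theorem bil_mul (x y : n.G R) : n.l1 N (x * y) ≤ n.cB * (1 + n.l1 N x + n.l1 N y) ^ s := by
  have := l1_nonneg h x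
  have := l1_nonneg h y
  refine (l1_mul_le h (B := 1 + n.l1 N x + n.l1 N y) (by linarith) (by linarith)
    (by linarith)).trans ?_
  gcongr
  exact cB_ge.2.2.1

theorem bil_conj (x u : n.G R) :
    n.l1 N (x * u * x⁻¹) ≤ n.cB * (1 + n.l1 N x) ^ s * n.l1 N u := by
  have := l1_nonneg h x
  have := l1_nonneg h u
  refine (l1_conj h u (B := 1 + n.l1 N x) (by linarith) (by linarith)).trans ?_
  gcongr
  exact cB_ge.2.2.2

theorem bil_left (e x : n.G R) :
    n.l1 N (e * x - x) ≤ n.cB * (1 + n.l1 N e + n.l1 N x) ^ s * n.l1 N e := by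
  have := l1_nonneg h x
  have := l1_nonneg h e
  refine (l1_mul_sub_right h (B := 1 + n.l1 N e + n.l1 N x) (by linarith) (by linarith)
    (by linarith)).trans ?_
  gcongr
  exact cB_ge.2.1

theorem bil_right (e x : n.G R) :
    n.l1 N (x * e - x) ≤ n.cB * (1 + n.l1 N e + n.l1 N x) ^ s * n.l1 N e := by
  have := l1_nonneg h x
  have := l1_nonneg h e
  refine (l1_mul_sub_left h (B := 1 + n.l1 N e + n.l1 N x) (by linarith) (by linarith)
    (by linarith)).trans ?_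
  gcongr
  exact cB_ge.2.1

end

theorem nG_eq (x : n.G ℝ) : nG x = n.l1 (fun r => |r|) x := rfl

theorem nm0_eq (g : n.Ph) : nm0 g = n.l1 (pn s) g.1 := rfl

theorem dist_eq (g h : n.Ph) :
    n.l1 (pn s) (g.1 - h.1) = ∑ a, ∑ j ∈ range (s + 1), |co g a j - co h a j| := by
  simp only [l1, pn, sub_apply, coeff_sub, co]

theorem nG_nonneg (x : n.G ℝ) : 0 ≤ nG x := l1_nonneg sn_abs x
theorem nG_one : nG (1 : n.G ℝ) = 0 := l1_zero sn_abs
theorem nG_inv (x : n.G ℝ) : nG x⁻¹ = nG x := l1_inv sn_abs x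
theorem nG_add (x y : n.G ℝ) : nG (x + y) ≤ nG x + nG y := l1_add sn_abs x y
theorem nm0_nonneg (g : n.Ph) : 0 ≤ nm0 g := l1_nonneg (sn_pn s) g.1
theorem nm0_one : nm0 (1 : n.Ph) = 0 := l1_zero (sn_pn s)
theorem nm0_inv (g : n.Ph) : nm0 g⁻¹ = nm0 g := l1_inv (sn_pn s) g.1

theorem nG_mul_inv (x y : n.G ℝ) : nG (x * y⁻¹) ≤ n.cB * (1 + nG x + nG y) ^ s * nG (x - y) :=
  bil_mul_inv sn_abs x y

theorem nG_inv_mul (x y : n.G ℝ) : nG (x⁻¹ * y) ≤ n.cB * (1 + nG x + nG y) ^ s * nG (x - y) :=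
  bil_inv_mul sn_abs x y

theorem nG_mul (x y : n.G ℝ) : nG (x * y) ≤ n.cB * (1 + nG x + nG y) ^ s := bil_mul sn_abs x y

theorem nG_conj (x u : n.G ℝ) : nG (x * u * x⁻¹) ≤ n.cB * (1 + nG x) ^ s * nG u :=
  bil_conj sn_abs x u

theorem nG_left (e x : n.G ℝ) : nG (e * x - x) ≤ n.cB * (1 + nG e + nG x) ^ s * nG e :=
  bil_left sn_abs e x

theorem nG_right (e x : n.G ℝ) : nG (x * e - x) ≤ n.cB * (1 + nG e + nG x) ^ s * nG e :=
  bil_right sn_abs e x

theorem nm0_mul_inv (g h : n.Ph) : nm0 (g * h⁻¹) ≤ n.cB * (1 + nm0 g + nm0 h) ^ s *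
    ∑ a, ∑ j ∈ range (s + 1), |co g a j - co h a j| := by
  rw [← dist_eq]; exact bil_mul_inv (sn_pn s) g.1 h.1

theorem nm0_inv_mul (g h : n.Ph) : nm0 (g⁻¹ * h) ≤ n.cB * (1 + nm0 g + nm0 h) ^ s *
    ∑ a, ∑ j ∈ range (s + 1), |co g a j - co h a j| := by
  rw [← dist_eq]; exact bil_inv_mul (sn_pn s) g.1 h.1

theorem nm0_mul (g h : n.Ph) : nm0 (g * h) ≤ n.cB * (1 + nm0 g + nm0 h) ^ s :=
  bil_mul (sn_pn s) g.1 h.1

theorem nm0_conj (g u : n.Ph) : nm0 (g * u * g⁻¹) ≤ n.cB * (1 + nm0 g) ^ s * nm0 u :=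
  bil_conj (sn_pn s) g.1 u.1

theorem nm0_left (e g : n.Ph) : ∑ a, ∑ j ∈ range (s + 1), |co (e * g) a j - co g a j| ≤
    n.cB * (1 + nm0 e + nm0 g) ^ s * nm0 e := by
  rw [← dist_eq]; exact bil_left (sn_pn s) e.1 g.1

theorem nm0_right (e g : n.Ph) : ∑ a, ∑ j ∈ range (s + 1), |co (g * e) a j - co g a j| ≤
    n.cB * (1 + nm0 e + nm0 g) ^ s * nm0 e := by
  rw [← dist_eq]; exact bil_right (sn_pn s) e.1 g.1

variable (n) in
/-- growth of words of phases -/
theorem nm0_prod : ∃ (C : ℝ) (D : ℕ), 0 ≤ C ∧ ∀ (L : List n.Ph) (S : ℝ), (L.map nm0).sum ≤ S →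
    nm0 L.prod ≤ S + C * S ^ 2 * (1 + S) ^ D := by
  obtain ⟨C, D, C0, h⟩ := n.l1_prod
  refine ⟨C, D, C0, fun L S hS => ?_⟩
  have := h ℝ[X] (pn s) (sn_pn s) (L.map n.P.subtype) S (by rw [List.map_map]; exact hS)
  rwa [← map_list_prod] at this

theorem ln0_ne (g : n.Ph) : {r | ∃ l : List n.Ph, l.prod = g ∧ (l.map nm0).sum = r}.Nonempty :=
  ⟨_, [g], by simp, rfl⟩

theorem ln0_lb (g : n.Ph) :
    ∀ r ∈ {r | ∃ l : List n.Ph, l.prod = g ∧ (l.map nm0).sum = r}, 0 ≤ r := by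
  rintro _ ⟨l, -, rfl⟩
  exact List.sum_nonneg fun x hx => by
    obtain ⟨y, -, rfl⟩ := List.mem_map.1 hx
    exact nm0_nonneg y

theorem ln0_nonneg (g : n.Ph) : 0 ≤ ln0 g := le_csInf (ln0_ne g) (ln0_lb g)

theorem ln0_le_sum (l : List n.Ph) : ln0 l.prod ≤ (l.map nm0).sum :=
  csInf_le ⟨0, ln0_lb _⟩ ⟨l, rfl, rfl⟩

theorem ln0_le_nm0 (g : n.Ph) : ln0 g ≤ nm0 g := by simpa using ln0_le_sum [g]

variable (n) in
/-- the size is bounded by the word length -/
theorem nm0_le_ln0 : ∃ (C : ℝ) (D : ℕ), 0 ≤ C ∧ ∀ g : n.Ph,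
    nm0 g ≤ ln0 g + C * ln0 g ^ 2 * (1 + ln0 g) ^ D := by
  obtain ⟨C, D, C0, h⟩ := n.nm0_prod
  refine ⟨C, D, C0, fun g => ?_⟩
  have c : ContinuousAt (fun S : ℝ => S + C * S ^ 2 * (1 + S) ^ D) (ln0 g) := by fun_prop
  refine ge_of_tendsto (c.tendsto.mono_left (nhdsWithin_le_nhds (s := Set.Ioi (ln0 g))))
    (eventually_nhdsWithin_of_forall fun S hS => ?_)
  obtain ⟨_, ⟨l, rfl, rfl⟩, hl⟩ := exists_lt_of_csInf_lt (ln0_ne g) hS
  exact h l S hl.le

end PN

end Pool.Agent.Lib.MP_028aa5_nt.N
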