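import Pool.Agent.Lib.MP_028aa5_nt.N.Seed

/-! Rational phases of height `Q`. -/

namespace Pool.Agent.Lib.MP_028aa5_nt.N

open Finset Polynomial
open scoped Classical

namespace NS

variable {s : ℕ} (n : NS s)

/-- rational phases of height `Q`; no condition for `Q = 0` -/
noncomputable def Rat (Q : ℕ) : Subgroup n.Ph := if Q = 0 then ⊤ else n.LamQ 1 Q

variable {n}

theorem mem_LamQ4 {c : ℝ} {Q : ℕ} {g : n.Ph} :
    g ∈ n.LamQ c Q ↔ ∀ a j, ∃ z : ℤ, PN.co g a j = c ^ j * ((Q : ℝ) ^ n.wt a)⁻¹ * z := Iff.rfl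

theorem mem_Rat {Q : ℕ} {g : n.Ph} :
    g ∈ n.Rat Q ↔ ∀ a j, ∃ z : ℤ, (Q : ℝ) ^ n.wt a * PN.co g a j = z := by
  unfold Rat
  split_ifs with h
  · subst h
    refine ⟨fun _ a j => ⟨0, ?_⟩, fun _ => trivial⟩
    have := n.w1 a
    simp [show n.wt a ≠ 0 by omega]
  · refine forall_congr' fun a => forall_congr' fun j => exists_congr fun z => ?_
    have : (Q : ℝ) ^ n.wt a ≠ 0 := by positivity
    rw [one_pow, one_mul, eq_inv_mul_iff_mul_eq₀ this]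
    rfl

theorem rat_one : n.Rat 1 = n.Lam 1 := if_neg one_ne_zero

theorem co_zero (g : n.Ph) {a : n.I} {j : ℕ} (h : n.wt a < j) : PN.co g a j = 0 :=
  coeff_eq_zero_of_natDegree_lt ((n.mem_P.1 g.2 a).trans_lt h)

theorem rat_dil (Q m : ℕ) (g : n.Ph) (h : g ∈ n.Rat Q) : PN.dil m g ∈ n.Rat Q :=
  mem_Rat.2 fun a j => by
    obtain ⟨z, hz⟩ := mem_Rat.1 h a j
    exact ⟨m ^ j * z, by rw [Seed.co_dil]; push_cast; rw [← hz]; ring⟩

theorem rat_mono (Q Q' : ℕ) (h : Q ∣ Q') : n.Rat Q ≤ n.Rat Q' := fun g hg => mem_Rat.2 fun a j => by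
  obtain ⟨z, hz⟩ := mem_Rat.1 hg a j
  obtain ⟨m, rfl⟩ := h
  exact ⟨m ^ n.wt a * z, by push_cast; rw [← hz]; ring⟩

theorem int_gcd {u v : ℕ} {θ : ℝ} (h : ∃ z : ℤ, u * θ = z) (h' : ∃ z : ℤ, v * θ = z) :
    ∃ z : ℤ, (Nat.gcd u v : ℕ) * θ = z := by
  obtain ⟨z, hz⟩ := h
  obtain ⟨z', hz'⟩ := h'
  refine ⟨z * Nat.gcdA u v + z' * Nat.gcdB u v, ?_⟩
  have e : ((Nat.gcd u v : ℕ) : ℝ) = u * Nat.gcdA u v + v * Nat.gcdB u v := by
    exact_mod_cast congrArg (fun x : ℤ => (x : ℝ)) (Nat.gcd_eq_gcd_ab u v)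
  push_cast
  rw [e, ← hz, ← hz']
  ring

theorem rat_gcd (Q Q' : ℕ) (g : n.Ph) (h : g ∈ n.Rat Q) (h' : g ∈ n.Rat Q') :
    g ∈ n.Rat (Nat.gcd Q Q') := mem_Rat.2 fun a j => by
  have := int_gcd (u := Q ^ n.wt a) (v := Q' ^ n.wt a) (θ := PN.co g a j)
    (by exact_mod_cast mem_Rat.1 h a j) (by exact_mod_cast mem_Rat.1 h' a j)
  rw [Nat.pow_gcd_pow] at this
  exact_mod_cast this

theorem rat_root (Q p : ℕ) (g : n.Ph) (h : PN.dil p g ∈ n.Rat Q) : g ∈ n.Rat (Q * p) :=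
  mem_Rat.2 fun a j => by
    rcases lt_or_ge (n.wt a) j with hj | hj
    · exact ⟨0, by simp [co_zero g hj]⟩
    · obtain ⟨z, hz⟩ := mem_Rat.1 h a j
      obtain ⟨d, hd⟩ := Nat.exists_eq_add_of_le hj
      rw [Seed.co_dil] at hz
      refine ⟨p ^ d * z, ?_⟩
      push_cast
      rw [← hz, mul_pow, hd]
      ring

theorem rat_cop (Q Q' b : ℕ) (g : n.Ph) (hc : Nat.Coprime b Q') (h : PN.dil b g ∈ n.Rat Q)
    (h' : g ∈ n.Rat Q') : g ∈ n.Rat Q := mem_Rat.2 fun a j => by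
  obtain ⟨z, hz⟩ := mem_Rat.1 h a j
  obtain ⟨z', hz'⟩ := mem_Rat.1 h' a j
  rw [Seed.co_dil] at hz
  have := int_gcd (u := b ^ j) (v := Q' ^ n.wt a) (θ := (Q : ℝ) ^ n.wt a * PN.co g a j)
    ⟨z, by push_cast; rw [← hz]; ring⟩ ⟨Q ^ n.wt a * z', by push_cast; rw [← hz']; ring⟩
  rw [Nat.Coprime.gcd_eq_one (Nat.Coprime.pow _ _ hc)] at this
  simpa using this

theorem lam_le_rat (Q : ℕ) (g : n.Ph) (h : g ∈ n.Lam (1 / Q)) : g ∈ n.Rat Q := by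
  rcases Nat.eq_zero_or_pos Q with rfl | hQ
  · simp [Rat]
  · have := Seed.dil_Lam Q h
    rw [mul_one_div_cancel (by positivity), ← rat_one] at this
    simpa using rat_root 1 Q g this

theorem rat_mod (Q a b D : ℕ) (g : n.Ph) (hD : s ≤ D) (h : g ∈ n.Rat Q) (hab : a ≡ b [MOD Q ^ D]) :
    (PN.dil a g)⁻¹ * PN.dil b g ∈ n.Lam 1 := by
  rcases Nat.eq_zero_or_pos Q with rfl | hQ
  · refine Seed.mem_Lam.2 fun c j => ?_
    have := n.w1 c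
    have := n.ws c
    rw [zero_pow (by omega), Nat.modEq_zero_iff] at hab
    exact ⟨0, by simp [hab, PN.co, PN.one_def]⟩
  have hq : (Q : ℝ) ≠ 0 := by positivity
  let S : n.I → AddSubgroup ℝ[X] := fun c => polz 1 ((Q : ℝ) ^ n.wt c)⁻¹
  let S' : n.I → AddSubgroup ℝ[X] := fun c => polz 1 ((Q : ℝ) ^ D * ((Q : ℝ) ^ n.wt c)⁻¹)
  have hS : ∀ u v c, n.k u v c ≠ 0 → ∀ x ∈ S u, ∀ y ∈ S' v, x * y ∈ S' c := fun u v c k0 x hx y hy =>
    polz_mul _ (by rw [mul_left_comm, inv_pow_mul (n.fil u v c k0) (n.w1 u), mul_assoc]) hx hy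
  have hm : ∀ m : ℕ, ∀ c, (PN.dil m g).1 c ∈ S c := fun m => by
    have := rat_dil Q m g h
    rwa [Rat, if_neg hQ.ne'] at this
  have hx : ∀ c, ((PN.dil a g)⁻¹).1 c ∈ S c := fun c => (S c).neg_mem (hm a c)
  have hs : ∀ c, (((PN.dil a g)⁻¹).1 + (PN.dil b g).1) c ∈ S' c := fun c j => by
    obtain ⟨z, hz⟩ := mem_Rat.1 h c j
    obtain ⟨u, hu⟩ := (Nat.modEq_iff_dvd.1 (hab.pow j))
    have hu' : (b : ℝ) ^ j - a ^ j = Q ^ D * u := by exact_mod_cast congrArg (fun x : ℤ => (x : ℝ)) hu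
    refine ⟨u * z, ?_⟩
    have e1 := Seed.co_inv (PN.dil a g) c j
    have e2 := Seed.co_dil b g c j
    rw [Seed.co_dil] at e1
    rw [PN.add_apply, coeff_add]
    change PN.co _ c j + PN.co _ c j = _
    rw [e1, e2]
    push_cast
    rw [← hz]
    field_simp
    linear_combination PN.co g c j * hu'
  have h0 := n.br_fam S S' S' hS hx hs
  have e : n.br ((PN.dil a g)⁻¹).1 (((PN.dil a g)⁻¹).1 + (PN.dil b g).1) =
      n.br ((PN.dil a g)⁻¹).1 (PN.dil b g).1 := by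
    have := n.br_self ((PN.dil a g)⁻¹).1
    funext c
    have h1 := congrFun this c
    simp only [PN.br, PN.add_apply, mul_add, sum_add_distrib] at h1 ⊢
    rw [h1]
    exact zero_add _
  rw [e] at h0
  refine Seed.mem_Lam.2 fun c j => ?_
  have h2 := (S' c).add_mem (n.mul_sub_fam S S' hS hx (hm b) h0 c) (hs c)
  rw [PN.add_apply, sub_add_cancel] at h2
  obtain ⟨z, hz⟩ := h2 j
  obtain ⟨d, hd⟩ := Nat.exists_eq_add_of_le ((n.ws c).trans hD)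
  refine ⟨Q ^ d * z, hz.trans ?_⟩
  rw [hd]
  push_cast
  field_simp
  ring

theorem ev_Lam (m : ℤ) {g : n.Ph} (h : g ∈ n.Lam 1) : PN.ev m g ∈ n.Gam := fun c => by
  choose z hz using Seed.mem_Lam.1 h c
  refine AddSubgroup.mem_zmultiples_iff.2
    ⟨∑ j ∈ range ((g.1 c).natDegree + 1), z j * m ^ j, ?_⟩
  change _ = (g.1 c).eval (m : ℝ)
  rw [eval_eq_sum_range]
  simp only [PN.co, one_pow, one_mul] at hz
  simp [hz]

theorem ev_dil (a t : ℝ) (g : n.Ph) : PN.ev t (PN.dil a g) = PN.ev (a * t) g := by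
  funext c
  change ((g.1 c).comp (C a * X + C 0)).eval t = (g.1 c).eval (a * t)
  simp [eval_comp]

/-- rational phases are periodic modulo the lattice -/
theorem rat_per (Q D m : ℕ) (g : n.Ph) (hD : s ≤ D) (h : g ∈ n.Rat Q) :
    (PN.ev (m : ℝ) g)⁻¹ * PN.ev ((m + Q ^ D : ℕ) : ℝ) g ∈ n.Gam := by
  have := ev_Lam 1 (rat_mod Q m (m + Q ^ D) D g hD h (by simp [Nat.ModEq]))
  simpa only [map_mul, map_inv, ev_dil, Int.cast_one, mul_one] using this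

theorem test_per {F : n.G ℝ → ℂ} (hF : ∀ x, ∀ γ ∈ n.Gam, F (x * γ) = F x) (Q D m : ℕ) (g : n.Ph)
    (hD : s ≤ D) (h : g ∈ n.Rat Q) (x : n.G ℝ) :
    F (x * PN.ev ((m + Q ^ D : ℕ) : ℝ) g) = F (x * PN.ev (m : ℝ) g) := by
  rw [← hF (x * PN.ev (m : ℝ) g) _ (rat_per Q D m g hD h), mul_assoc, mul_inv_cancel_left]

end NS

end Pool.Agent.Lib.MP_028aa5_nt.N
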