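import Pool.Agent.Lib.MP_028aa5_nt.N.StI
import Pool.Agent.Lib.MP_028aa5_nt.N.Bil
import Pool.Agent.Lib.MP_028aa5_nt.N.Rat

/-! Finite nets, slow variation, periodicity and symbols. -/

namespace Pool.Agent.Lib.MP_028aa5_nt.N

open Finset Polynomial
open scoped Classical

namespace Aux

variable {s : ℕ} {n : PN s}

theorem net0 (n : PN s) (W : ℝ) {η : ℝ} (h : 0 < η) : ∃ A : Finset (n.G ℝ),
    (∀ w ∈ A, PN.nG w ≤ W) ∧ ∀ w, PN.nG w ≤ W → ∃ w' ∈ A, PN.nG (w - w') < η := by
  have hc : IsCompact {w : n.I → ℝ | ∑ a, |w a| ≤ W} :=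
    (isCompact_univ_pi fun _ => isCompact_Icc (a := -W) (b := W)).of_isClosed_subset
      (isClosed_le (by fun_prop) continuous_const) fun w hw a _ =>
        abs_le.1 ((single_le_sum (f := fun a => |w a|) (fun _ _ => abs_nonneg _)
          (mem_univ a)).trans hw)
  obtain ⟨A, h1, h2⟩ := hc.elim_nhds_subcover (fun x => {w | ∑ a, |w a - x a| < η}) fun x _ =>
    (isOpen_lt (by fun_prop) continuous_const).mem_nhds (by simpa using h)
  refine ⟨A, h1, fun w hw => ?_⟩
  obtain ⟨x, hx, h3⟩ := Set.mem_iUnion₂.1 (h2 hw)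
  exact ⟨x, hx, h3⟩

theorem ev_aff (α β t : ℝ) (g : n.Ph) : PN.ev t (PN.aff α β g) = PN.ev (α * t + β) g := by
  funext c
  change ((g.1 c).comp (C α * X + C β)).eval t = (g.1 c).eval (α * t + β)
  simp [eval_comp]

theorem ev_sum (t : ℝ) (g : n.Ph) (a : n.I) :
    PN.ev t g a = ∑ j ∈ range (s + 1), PN.co g a j * t ^ j :=
  eval_eq_sum_range' (Nat.lt_succ_of_le ((n.mem_P.1 g.2 a).trans (n.ws a))) t

theorem nG_ev {t : ℝ} (h : |t| ≤ 2) (g : n.Ph) : PN.nG (PN.ev t g) ≤ 2 ^ s * PN.nm0 g := by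
  rw [PN.nG, PN.nm0, mul_sum]
  refine sum_le_sum fun a _ => ?_
  rw [ev_sum, mul_sum]
  refine (abs_sum_le_sum_abs _ _).trans (sum_le_sum fun j hj => ?_)
  rw [abs_mul, mul_comm, abs_pow]
  gcongr
  exact (pow_le_pow_left₀ (abs_nonneg _) h j).trans
    (pow_le_pow_right₀ one_le_two (Nat.lt_succ_iff.1 (mem_range.1 hj)))

theorem nG_ev_sub {t t' : ℝ} (h : |t| ≤ 2) (h' : |t'| ≤ 2) (g : n.Ph) :
    PN.nG (PN.ev t g - PN.ev t' g) ≤ |t - t'| * s * 2 ^ s * PN.nm0 g := by
  rw [PN.nG, PN.nm0, mul_sum]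
  refine sum_le_sum fun a _ => ?_
  rw [PN.sub_apply, ev_sum, ev_sum, ← sum_sub_distrib, mul_sum]
  refine (abs_sum_le_sum_abs _ _).trans (sum_le_sum fun j hj => ?_)
  have hj' := Nat.lt_succ_iff.1 (mem_range.1 hj)
  rw [← mul_sub, abs_mul, mul_comm]
  gcongr
  refine (abs_pow_sub_pow_le t t' j).trans ?_
  have : max |t| |t'| ^ (j - 1) ≤ 2 ^ s :=
    (pow_le_pow_left₀ (le_max_of_le_left (abs_nonneg _)) (max_le h h') _).trans
      (pow_le_pow_right₀ one_le_two (by omega))
  gcongr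

theorem top_co (p : ℝ[X]) {i : ℕ} (h : p.natDegree ≤ i) (α β : ℝ) :
    (p.comp (C α * X + C β)).coeff i = α ^ i * p.coeff i := by
  have e : p.comp (C α * X + C β) = (taylor β p).comp (C α * X) := by
    simp [taylor_apply, comp_assoc]
  rw [e, comp_C_mul_X_coeff, mul_comm]
  congr 1
  rcases h.eq_or_lt with rfl | h
  · exact coeff_taylor_natDegree _ _
  · rw [coeff_eq_zero_of_natDegree_lt h,
      coeff_eq_zero_of_natDegree_lt (by rwa [natDegree_taylor])]

theorem br_deg {u v : n.G ℝ[X]} (hu : u ∈ n.P) (hv : v ∈ n.P) : n.br u v ∈ n.P :=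
  n.mem_P.2 fun c => natDegree_sum_le_of_forall_le _ _ fun a _ =>
    natDegree_sum_le_of_forall_le _ _ fun b _ => by
      by_cases k0 : n.k a b c = 0
      · simp [k0]
      · have := n.fil a b c k0
        have := n.mem_P.1 hu a
        have := n.mem_P.1 hv b
        have := natDegree_mul_le (p := u a) (q := v b)
        refine natDegree_mul_le.trans ?_
        rw [natDegree_intCast]
        omega

/-- the symbol as an additive map -/
noncomputable def sy (ξ : n.I → ℤ) (i : ℕ) : n.G ℝ[X] →+ ℝ where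
  toFun x := ∑ a, ξ a * (x a).coeff i
  map_zero' := by simp
  map_add' x y := by simp [mul_add, sum_add_distrib]

theorem sy_br {ξ : n.I → ℤ} {i : ℕ} (h : PN.IsCh i ξ) {u v : n.G ℝ[X]} (hu : u ∈ n.P)
    (hv : v ∈ n.P) : sy ξ i (n.br u v) = 0 := by
  calc _ = ∑ c, ∑ a, ∑ b, ((ξ c * n.k a b c : ℤ) : ℝ) * (u a * v b).coeff i := by
        simp only [sy, AddMonoidHom.coe_mk, ZeroHom.coe_mk, PN.br, finsetSum_coeff, mul_sum,
          coeff_intCast_mul, Int.cast_mul, mul_assoc]
    _ = ∑ a, ∑ b, ((∑ c, ξ c * n.k a b c : ℤ) : ℝ) * (u a * v b).coeff i := by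
        rw [sum_comm]
        refine sum_congr rfl fun a _ => ?_
        rw [sum_comm]
        simp only [Int.cast_sum, sum_mul]
    _ = 0 := by
        refine sum_eq_zero fun a _ => sum_eq_zero fun b _ => ?_
        rcases lt_trichotomy (n.wt a + n.wt b) i with e | e | e
        · rw [coeff_eq_zero_of_natDegree_lt ((natDegree_mul_le.trans
            (add_le_add (n.mem_P.1 hu a) (n.mem_P.1 hv b))).trans_lt e), mul_zero]
        · rw [h.br a b e, Int.cast_zero, zero_mul]
        · rw [sum_eq_zero, Int.cast_zero, zero_mul]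
          intro c _
          by_contra h0
          have := h.wt c (left_ne_zero_of_mul h0)
          have := n.fil a b c (right_ne_zero_of_mul h0)
          omega

theorem sy_mul {ξ : n.I → ℤ} {i : ℕ} (h : PN.IsCh i ξ) {u v : n.G ℝ[X]} (hu : u ∈ n.P)
    (hv : v ∈ n.P) : sy ξ i (u * v) = sy ξ i u + sy ξ i v := by
  have a : ∀ w, adw n.br u v w ∈ n.P ∧ sy ξ i (adw n.br u v w) = 0 := by
    intro w
    induction w with
    | nil => exact ⟨br_deg hu hv, sy_br h hu hv⟩
    | cons b w ih =>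
      have : (if b then u else v) ∈ n.P := by cases b <;> assumption
      exact ⟨br_deg this ih.1, sy_br h this ih.1⟩
  rw [PN.mul_def, map_add, map_add, Finsupp.sum, map_sum]
  simp only [map_rat_smul, (a _).2, smul_zero, sum_const_zero, add_zero]

end Aux

open Aux in
theorem st_Aux : AuxSt where
  net s n W δ h := by
    have c1 := n.one_le_cB
    have p : 0 < n.cB * (1 + |W| + |W|) ^ s := by positivity
    obtain ⟨A, h1, h2⟩ := net0 n W (div_pos h p)
    refine ⟨A, h1, fun w hw => ?_⟩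
    obtain ⟨w', h3, h4⟩ := h2 w hw
    refine ⟨w', h3, (PN.nG_mul_inv w w').trans ?_⟩
    have a : PN.nG w ≤ |W| := hw.trans (le_abs_self W)
    have b : PN.nG w' ≤ |W| := (h1 w' h3).trans (le_abs_self W)
    have := PN.nG_nonneg w
    have := PN.nG_nonneg w'
    have := PN.nG_nonneg (w - w')
    calc _ ≤ n.cB * (1 + |W| + |W|) ^ s * (δ / (n.cB * (1 + |W| + |W|) ^ s)) := by gcongr
      _ = δ := mul_div_cancel₀ _ p.ne'
  slow s n W := by
    have c1 := n.one_le_cB
    set B := 2 ^ s * |W|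
    have B0 : 0 ≤ B := by positivity
    have p : 0 ≤ n.cB * (1 + B + B) ^ s * (s * B) := by positivity
    refine ⟨1 + B + n.cB * (1 + B + B) ^ s * (s * B), by positivity, fun ε y N t t' hN h h1 h2 => ?_⟩
    have e : ∀ t, PN.ev t ε = PN.ev ((t - y) / N) (PN.aff N y ε) := fun t => by
      rw [ev_aff, mul_div_cancel₀ _ hN.ne', sub_add_cancel]
    have u : ∀ t, |t - y| ≤ 2 * N → |(t - y) / N| ≤ 2 := fun t h => by
      rwa [abs_div, abs_of_pos hN, div_le_iff₀ hN]
    have hW : PN.nm0 (PN.aff N y ε) ≤ |W| := h.trans (le_abs_self W)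
    have b : ∀ t, |t - y| ≤ 2 * N → PN.nG (PN.ev t ε) ≤ B := fun t h => by
      rw [e]
      exact (nG_ev (u t h) _).trans (mul_le_mul_of_nonneg_left hW (by positivity))
    have d : PN.nG (PN.ev t ε - PN.ev t' ε) ≤ s * B * (|t - t'| / N) := by
      rw [e t, e t']
      refine (nG_ev_sub (u t h1) (u t' h2) _).trans ?_
      rw [← sub_div, sub_sub_sub_cancel_right, abs_div, abs_of_pos hN]
      calc _ ≤ |t - t'| / N * s * 2 ^ s * |W| := by gcongr
        _ = _ := by ring
    refine ⟨by linarith [b t h1], (PN.nG_mul_inv _ _).trans ?_⟩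
    have := b t h1
    have := b t' h2
    have := PN.nG_nonneg (PN.ev t ε)
    have := PN.nG_nonneg (PN.ev t' ε)
    have := PN.nG_nonneg (PN.ev t ε - PN.ev t' ε)
    calc _ ≤ n.cB * (1 + B + B) ^ s * (s * B * (|t - t'| / N)) := by gcongr
      _ = n.cB * (1 + B + B) ^ s * (s * B) * (|t - t'| / N) := by ring
      _ ≤ _ := by gcongr; linarith
  per s n Q γ m j hQ h := by
    have := NS.ev_Lam 1 (NS.rat_mod Q m (m + Q ^ s * j) s γ le_rfl
      (by rwa [NS.Rat, if_neg (by omega)]) (by simp [Nat.ModEq]))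
    simp only [map_mul, map_inv, NS.ev_dil, Int.cast_one, mul_one] at this
    exact ⟨_, this, (mul_inv_cancel_left _ _).symm⟩
  ln_le s n N y g := PN.ln0_le_nm0 _
  sym_dil s n ξ i a g := by
    simp only [PN.sym, Seed.co_dil, mul_sum, mul_left_comm]
  sym_mul s n ξ i g h hξ := sy_mul hξ g.2 h.2
  sym_cst s n ξ i x hξ := sum_eq_zero fun a _ => by
    by_cases h : ξ a = 0
    · simp [h]
    · have := hξ.wt a h
      have := n.w1 a
      change _ * (C (x a)).coeff i = 0
      rw [coeff_C_of_ne_zero (by omega), mul_zero]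
  sym_nm s n ξ i N y g hξ hN := by
    rw [PN.sym, sum_mul]
    refine (mul_le_mul_of_nonneg_right (abs_sum_le_sum_abs _ _) (by positivity)).trans ?_
    rw [sum_mul]
    refine sum_le_sum fun a _ => ?_
    by_cases h : ξ a = 0
    · simp [h]
    · have e := hξ.wt a h
      have := Seed.co_le (PN.aff N y g) a (e ▸ n.ws a : i ≤ s)
      rw [PN.co, Seed.aff_val, top_co _ (e ▸ n.mem_P.1 g.2 a), abs_mul,
        abs_of_pos (pow_pos hN i), mul_comm] at this
      rw [abs_mul, mul_assoc]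
      exact mul_le_mul_of_nonneg_left this (abs_nonneg _)
  ev_dil s n a t g := by rw [PN.dil, ev_aff, add_zero]
  ev_cst s n t x := funext fun a => eval_C
  ev_lam s n m l h := by simpa using NS.ev_Lam m h

end Pool.Agent.Lib.MP_028aa5_nt.N
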