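import Pool.Agent.Lib.MP_028aa5_nt.N.Defs

/-! Products, truncations and the group of pairs that agree to first order. -/

namespace Pool.Agent.Lib.MP_028aa5_nt.N

open Finset
open scoped Classical

namespace NS

variable {s : ℕ}

/-- structure constants of a product -/
def kP (n n' : NS s) : n.I ⊕ n'.I → n.I ⊕ n'.I → n.I ⊕ n'.I → ℤ
  | .inl a, .inl b, .inl c => n.k a b c
  | .inr a, .inr b, .inr c => n'.k a b c
  | _, _, _ => 0

/-- product -/
def prod (n n' : NS s) : NS s where
  I := n.I ⊕ n'.I
  wt := Sum.elim n.wt n'.wt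
  k := kP n n'
  w1 := by rintro (a | a); exacts [n.w1 a, n'.w1 a]
  ws := by rintro (a | a); exacts [n.ws a, n'.ws a]
  anti := by
    rintro (a | a) (b | b) (c | c) <;> first | rfl | exact n.anti _ _ _ | exact n'.anti _ _ _
  jac := by
    rintro (a | a) (b | b) (c | c) (d | d) <;> simp only [Fintype.sum_sum_type, kP] <;>
      first | simp; done | simpa using n.jac a b c d | simpa using n'.jac a b c d
  fil := by
    rintro (a | a) (b | b) (c | c) h <;>
      first | exact absurd rfl h | exact n.fil _ _ _ h | exact n'.fil _ _ _ h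
  dv := by
    rintro (a | a) (b | b) (c | c) <;> first | exact dvd_zero _ | exact n.dv _ _ _ | exact n'.dv _ _ _

theorem sum_sub {ι : Type} [Fintype ι] (p : ι → Prop) [DecidablePred p] (f : ι → ℤ) (h : ∀ u, ¬p u → f u = 0) :
    ∑ u : {u // p u}, f u = ∑ u, f u := by
  rw [← sum_subtype (univ.filter p) (by simp) f, sum_filter]
  exact sum_congr rfl fun u _ => by
    split_ifs with h1
    · rfl
    · exact (h u h1).symm

/-- the quotient by the coordinates of weight above `d` -/
noncomputable def drop (n : NS s) (d : ℕ) : NS s where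
  I := {a // n.wt a ≤ d}
  wt a := n.wt a.1
  k a b c := n.k a.1 b.1 c.1
  w1 a := n.w1 a.1
  ws a := n.ws a.1
  anti _ _ _ := n.anti _ _ _
  jac a b c d' := by
    rw [← n.jac a.1 b.1 c.1 d'.1]
    refine sum_sub (fun a => n.wt a ≤ d) (fun u => n.k b c u * n.k a u d' + n.k c a u * n.k b u d' +
      n.k a b u * n.k c u d') fun u hu => ?_
    have : ∀ x, n.k x u d' = 0 := fun x => by
      by_contra h
      have := n.fil _ _ _ h
      have := d'.2
      omega
    simp [this]
  fil _ _ _ h := n.fil _ _ _ h
  dv _ _ _ := n.dv _ _ _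

/-- structure constants of the pairs `(b + u, b)` -/
def kB (n : NS s) : n.I ⊕ {a // 2 ≤ n.wt a} → n.I ⊕ {a // 2 ≤ n.wt a} →
    n.I ⊕ {a // 2 ≤ n.wt a} → ℤ
  | .inl a, .inl b, .inl c => n.k a b c
  | .inl a, .inr b, .inr c => n.k a b.1 c.1
  | .inr a, .inl b, .inr c => n.k a.1 b c.1
  | .inr a, .inr b, .inr c => n.k a.1 b.1 c.1
  | _, _, _ => 0

theorem jac2 (n : NS s) (a b c d : n.I) : ∑ u : {a // 2 ≤ n.wt a}, n.k a b u.1 * n.k c u.1 d =
    ∑ u, n.k a b u * n.k c u d :=
  sum_sub (fun a => 2 ≤ n.wt a) (fun u => n.k a b u * n.k c u d) fun u hu => by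
    have : n.k a b u = 0 := by
      by_contra h
      have := n.fil _ _ _ h
      have := n.w1 a
      have := n.w1 b
      omega
    simp [this]

/-- the pairs `(b + u, b)` with `u` of weight at least two; the weight of `u` is lowered by one -/
noncomputable def box (n : NS s) : NS s where
  I := n.I ⊕ {a // 2 ≤ n.wt a}
  wt := Sum.elim n.wt fun a => n.wt a.1 - 1
  k := kB n
  w1 := by
    rintro (a | a)
    · exact n.w1 a
    · have := a.2
      simp only [Sum.elim_inr]
      omega
  ws := by
    rintro (a | a)
    · exact n.ws a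
    · have := n.ws a.1
      simp only [Sum.elim_inr]
      omega
  anti := by rintro (a | a) (b | b) (c | c) <;> first | rfl | exact n.anti _ _ _
  jac := by
    rintro (a | a) (b | b) (c | c) (d | d) <;>
      simp only [Fintype.sum_sum_type, kB, sum_add_distrib, jac2, zero_mul, mul_zero, sum_const_zero,
        add_zero, zero_add] <;>
      (have := n.jac a b c d
       simp only [sum_add_distrib] at this
       linarith)
  fil := by
    rintro (a | a) (b | b) (c | c) h <;> first
      | exact absurd rfl h
      | (have := n.fil _ _ _ h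
         have := n.w1 a
         have := n.w1 b
         simp only [Sum.elim_inl, Sum.elim_inr]
         omega)
  dv := by rintro (a | a) (b | b) (c | c) <;> first | exact dvd_zero _ | exact n.dv _ _ _

/-- the circle in weight `w` -/
def circ (s w : ℕ) (h1 : 1 ≤ w) (h2 : w ≤ s) : NS s where
  I := Unit
  wt _ := w
  k _ _ _ := 0
  w1 _ := h1
  ws _ := h2
  anti _ _ _ := rfl
  jac _ _ _ _ := by simp
  fil _ _ _ h := absurd rfl h
  dv _ _ _ := dvd_zero _

variable {R : Type}

/-- components of a point of a product -/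
def fst {n n' : NS s} (x : (n.prod n').G R) : n.G R := fun a => x (.inl a)
def snd {n n' : NS s} (x : (n.prod n').G R) : n'.G R := fun a => x (.inr a)
def pr {n n' : NS s} (x : n.G R) (y : n'.G R) : (n.prod n').G R := Sum.elim x y

end NS

end Pool.Agent.Lib.MP_028aa5_nt.N
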