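import Pool.Agent.Lib.MP_028aa5_nt.N.Split
import Pool.Agent.Lib.MP_028aa5_nt.N.StW
import Pool.Agent.Lib.MP_028aa5_nt.N.Mov

/-! Morphisms: composition, inverses, surjectivity and ideals. -/

namespace Pool.Agent.Lib.MP_028aa5_nt.N

open Finset Polynomial PN
open scoped Classical

variable {s : ℕ}

/-- basis vector -/
noncomputable def PN.bs {n : PN s} (a : n.I) : n.G ℚ := fun c => if c = a then 1 else 0

theorem PN.br_bs {n : PN s} (a b c : n.I) : n.br (bs a) (bs b) c = n.k a b c := by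
  simp [PN.br, bs]

theorem PN.ag_bs {n : PN s} (a : n.I) : n.Ag (n.wt a) (bs a) 0 := fun c hc => by
  rw [bs, if_neg, PN.zero_apply]
  rintro rfl
  exact lt_irrefl _ hc

theorem PN.eq_sum_bs {n : PN s} (x : n.G ℚ) : x = ∑ a, x a • bs a := by
  funext c
  rw [PN.sum_apply]
  simp [bs]

namespace Mor

variable {m n'' n' n : PN s}

theorem lin_apply (A : n'.I → n.I → ℚ) {R : Type} [CommRing R] [Algebra ℚ R] (x : n'.G R) (c : n.I) :
    lin A R x c = ∑ a, A a c • x a := rfl

theorem lin_bs (A : n'.I → n.I → ℚ) (a : n'.I) (c : n.I) : lin A ℚ (bs a) c = A a c := by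
  simp [lin_apply, bs]

theorem lin_lin (A : n''.I → n'.I → ℚ) (B : n'.I → n.I → ℚ) {R : Type} [CommRing R] [Algebra ℚ R]
    (x : n''.G R) : lin (fun a c => ∑ b, A a b * B b c) R x = lin B R (lin A R x) := by
  funext c
  simp only [lin_apply, sum_smul, smul_sum, smul_smul]
  rw [sum_comm]
  exact sum_congr rfl fun b _ => sum_congr rfl fun a _ => by rw [mul_comm]

theorem lin_ext {A B : n'.I → n.I → ℚ} (h : ∀ x, lin A ℚ x = lin B ℚ x) : A = B :=
  funext fun a => funext fun c => by rw [← lin_bs A, h, lin_bs]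

theorem lin_one {R : Type} [CommRing R] [Algebra ℚ R] (x : n.G R) :
    lin (fun a c : n.I => if c = a then (1 : ℚ) else 0) R x = x := by
  funext c
  simp [lin_apply]

/-- a morphism from a matrix that respects rational brackets -/
def ofLin (A : n'.I → n.I → ℚ)
    (h : ∀ x y, lin A ℚ (n'.br x y) = n.br (lin A ℚ x) (lin A ℚ y))
    (f : ∀ a c, A a c ≠ 0 → n'.wt a ≤ n.wt c) : Mor n' n where
  A := A
  hom a b u := by
    have := congrFun (h (bs a) (bs b)) u
    rw [lin_apply, PN.br] at this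
    simp only [br_bs, lin_bs, smul_eq_mul] at this
    refine (sum_congr rfl fun c _ => mul_comm _ _).trans (this.trans ?_)
    exact sum_congr rfl fun c _ => sum_congr rfl fun d _ => mul_comm _ _
  fil := f

theorem app_eq (φ : Mor n' n) {R : Type} [CommRing R] [Algebra ℚ R] (x : n'.G R) :
    φ.app R x = lin φ.A R x := rfl

theorem app_add (φ : Mor n' n) {R : Type} [CommRing R] [Algebra ℚ R] (x y : n'.G R) :
    φ.app R (x + y) = φ.app R x + φ.app R y := map_add (lin φ.A R) x y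

theorem app_sub (φ : Mor n' n) {R : Type} [CommRing R] [Algebra ℚ R] (x y : n'.G R) :
    φ.app R (x - y) = φ.app R x - φ.app R y := map_sub (lin φ.A R) x y

theorem app_zero (φ : Mor n' n) {R : Type} [CommRing R] [Algebra ℚ R] : φ.app R 0 = 0 :=
  map_zero (lin φ.A R)

theorem app_br (φ : Mor n' n) {R : Type} [CommRing R] [Algebra ℚ R] (x y : n'.G R) :
    φ.app R (n'.br x y) = n.br (φ.app R x) (φ.app R y) := φ.lin_br x y

theorem app_smul (φ : Mor n' n) {R : Type} [CommRing R] [Algebra ℚ R] (t : R) (x : n'.G R) :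
    φ.app R (t • x) = t • φ.app R x := by
  funext c
  simp only [app_apply, PN.smul_apply, smul_eq_mul, mul_sum, mul_smul_comm]

theorem app_ag (φ : Mor n' n) {R : Type} [CommRing R] [Algebra ℚ R] {i : ℕ} {x : n'.G R}
    (h : n'.Ag i x 0) : n.Ag i (φ.app R x) 0 := fun c hc => by
  rw [app_apply, PN.zero_apply]
  refine sum_eq_zero fun a _ => ?_
  by_cases h0 : φ.A a c = 0
  · rw [h0, zero_smul]
  · rw [h a ((φ.fil a c h0).trans_lt hc), PN.zero_apply, smul_zero]

theorem ph_val (φ : Mor n' n) (g : n'.Ph) : (φ.ph g).1 = φ.app ℝ[X] g.1 := rfl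

theorem co_ph (φ : Mor n' n) (g : n'.Ph) (c : n.I) (j : ℕ) :
    co (φ.ph g) c j = ∑ a, φ.A a c * co g a j := by
  simp only [co, ph_val, app_apply, finsetSum_coeff, coeff_smul, Rat.smul_def]

theorem aff_ph (φ : Mor n' n) (g : n'.Ph) (α β : ℝ) : aff α β (φ.ph g) = φ.ph (aff α β g) := by
  refine Subtype.ext (funext fun c => ?_)
  change compRingHom (C α * X + C β) (∑ a, φ.A a c • g.1 a) =
    ∑ a, φ.A a c • compRingHom (C α * X + C β) (g.1 a)
  rw [map_sum]
  exact sum_congr rfl fun a _ => map_rat_smul _ _ _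

theorem nm0_ph (φ : Mor n' n) (g : n'.Ph) :
    nm0 (φ.ph g) ≤ (∑ c, ∑ a, |(φ.A a c : ℝ)|) * nm0 g := by
  rw [nm0_eq, nm0_eq, sum_mul]
  refine sum_le_sum fun c _ => ((sn_pn s).sum _ _).trans ?_
  rw [sum_mul]
  exact sum_le_sum fun a _ => ((sn_pn s).smul _ _).trans
    (mul_le_mul_of_nonneg_left (le_l1 (sn_pn s) g.1 a) (abs_nonneg _))

theorem nm_ph (φ : Mor n' n) : ∃ C : ℝ, 0 ≤ C ∧ ∀ K y g, nm K y (φ.ph g) ≤ C * nm K y g :=
  ⟨∑ c, ∑ a, |(φ.A a c : ℝ)|, by positivity, fun K y g => by rw [nm, aff_ph]; exact φ.nm0_ph _⟩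

theorem nG_app (φ : Mor n' n) : ∃ C : ℝ, 0 ≤ C ∧ ∀ x, nG (φ.app ℝ x) ≤ C * nG x := by
  refine ⟨∑ c, ∑ a, |(φ.A a c : ℝ)|, by positivity, fun x => ?_⟩
  rw [nG_eq, nG_eq, sum_mul]
  refine sum_le_sum fun c _ => (sn_abs.sum _ _).trans ?_
  rw [sum_mul]
  exact sum_le_sum fun a _ => (sn_abs.smul _ _).trans
    (mul_le_mul_of_nonneg_left (le_l1 sn_abs x a) (abs_nonneg _))

/-- identity -/
noncomputable def idm (n : PN s) : Mor n n :=
  ofLin (fun a c => if c = a then 1 else 0) (fun x y => by simp only [lin_one]) fun a c h => by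
    by_cases e : c = a
    · rw [e]
    · exact absurd (if_neg e) h

theorem idm_app {R : Type} [CommRing R] [Algebra ℚ R] (x : n.G R) : (idm n).app R x = x := lin_one x

theorem idm_ph (g : n.Ph) : (idm n).ph g = g := Subtype.ext (idm_app g.1)

/-- composition -/
noncomputable def comp (ψ : Mor n' n) (φ : Mor n'' n') : Mor n'' n :=
  ofLin (fun a c => ∑ b, φ.A a b * ψ.A b c)
    (fun x y => by rw [lin_lin, lin_lin, lin_lin, φ.lin_br, ψ.lin_br]) fun a c h => by
    obtain ⟨b, -, hb⟩ := exists_ne_zero_of_sum_ne_zero h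
    exact (φ.fil a b (left_ne_zero_of_mul hb)).trans (ψ.fil b c (right_ne_zero_of_mul hb))

theorem comp_app (ψ : Mor n' n) (φ : Mor n'' n') {R : Type} [CommRing R] [Algebra ℚ R]
    (x : n''.G R) : (ψ.comp φ).app R x = ψ.app R (φ.app R x) := lin_lin _ _ x

theorem comp_ph (ψ : Mor n' n) (φ : Mor n'' n') (g : n''.Ph) : (ψ.comp φ).ph g = ψ.ph (φ.ph g) :=
  Subtype.ext (comp_app ψ φ g.1)

/-- onto on every step of the filtration -/
def Sur (φ : Mor n' n) : Prop := ∀ c : n.I, ∃ x : n'.G ℚ, n'.Ag (n.wt c) x 0 ∧ φ.app ℚ x = bs c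

theorem Sur.onto {φ : Mor n' n} (h : φ.Sur) (y : n.G ℚ) : ∃ x, φ.app ℚ x = y := by
  choose v _ hv using h
  refine ⟨∑ c, y c • v c, ?_⟩
  rw [app_eq, map_sum]
  conv_rhs => rw [eq_sum_bs y]
  exact sum_congr rfl fun c _ => by rw [← app_eq, app_smul, hv]

/-- the inverse of an isomorphism -/
theorem inv (φ : Mor n' n) (hi : Function.Injective (φ.app ℚ)) (h : φ.Sur) :
    ∃ ψ : Mor n n', ∀ g, ψ.ph (φ.ph g) = g := by
  choose v hv0 hv using h
  have r : ∀ y, φ.app ℚ (lin (fun c a => v c a) ℚ y) = y := fun y => by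
    rw [app_eq, ← lin_lin]
    refine Eq.trans (congrArg (fun A => lin A ℚ y) (funext fun c => funext fun c' => ?_)) (lin_one y)
    have := congrFun (hv c) c'
    rw [app_apply] at this
    exact (sum_congr rfl fun b _ => mul_comm _ _).trans this
  refine ⟨ofLin (fun c a => v c a) (fun x y => hi (by rw [app_br, r, r, r])) fun c a h => ?_,
    fun g => Subtype.ext ?_⟩
  · by_contra l
    exact h (hv0 c a (not_le.1 l))
  · have e : (fun a a' => ∑ c, φ.A a c * v c a') = fun a a' : n'.I => if a' = a then (1 : ℚ) else 0 :=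
      lin_ext fun x => hi (by rw [lin_lin, r, lin_one, app_eq])
    change lin (fun c a => v c a) ℝ[X] (lin φ.A ℝ[X] g.1) = g.1
    rw [← lin_lin, e, lin_one]

/-- a morphism is onto, or a character kills it -/
theorem surj (φ : Mor n' n) : φ.Sur ∨ ∃ i ξ, IsCh i ξ ∧ ∀ g, sym ξ i (φ.ph g) = 0 := by
  by_contra hc
  rw [not_or] at hc
  obtain ⟨h1, h2⟩ := hc
  have up : ∀ i y, n.Ag i y 0 → ∃ x, n'.Ag i x 0 ∧ n.Ag (i + 1) (φ.app ℚ x) y := by
    intro i
    induction i using Nat.strong_induction_on with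
    | _ i ih =>
    let V : Submodule ℚ (n.G ℚ) :=
      { carrier := {v | ∃ x, n'.Ag i x 0 ∧ ∀ c, n.wt c = i → v c = φ.app ℚ x c}
        zero_mem' := ⟨0, Ag.refl _ _, fun c _ => by rw [app_zero]⟩
        add_mem' := by
          rintro v v' ⟨x, h, e⟩ ⟨x', h', e'⟩
          exact ⟨x + x', fun a ha => by simp [h a ha, h' a ha], fun c hc => by
            rw [app_add, PN.add_apply, PN.add_apply, e c hc, e' c hc]⟩
        smul_mem' := by
          rintro t v ⟨x, h, e⟩
          exact ⟨t • x, fun a ha => by simp [h a ha], fun c hc => by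
            rw [app_smul, PN.smul_apply, PN.smul_apply, e c hc]⟩ }
    by_cases hV : V = ⊤
    · intro y hy
      obtain ⟨x, h, e⟩ : y ∈ V := hV ▸ Submodule.mem_top
      refine ⟨x, h, fun c hc => ?_⟩
      rcases Nat.lt_succ_iff_lt_or_eq.1 hc with l | l
      · rw [φ.app_ag h c l, hy c l]
      · exact (e c l).symm
    exfalso
    obtain ⟨f, f0, hf⟩ := V.exists_le_ker_of_lt_top (lt_top_iff_ne_top.2 hV)
    obtain ⟨D, D1, hD⟩ := Con.ex_den fun c : n.I => f (bs c)
    choose ξ hξ using hD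
    have D0 : (D : ℚ) ≠ 0 := by positivity
    have fx : ∀ x, D * f x = ∑ c, ξ c * x c := fun x => by
      conv_lhs => rw [eq_sum_bs x, map_sum, mul_sum]
      exact sum_congr rfl fun c _ => by rw [map_smul, ← hξ, smul_eq_mul]; ring
    have fV : ∀ x ∈ V, ∑ c, ξ c * x c = 0 := fun x hx => by
      rw [← fx, show f x = 0 from hf hx, mul_zero]
    refine h2 ⟨i, ξ, ⟨fun e => f0 (LinearMap.ext fun x => ?_), fun a ha => ?_, fun a b hab => ?_⟩,
      fun g => ?_⟩
    · have := fx x
      simp only [e, Pi.zero_apply, Int.cast_zero, zero_mul, sum_const_zero] at this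
      exact (mul_eq_zero.1 this).resolve_left D0
    · by_contra l
      have := fV (bs a) ⟨0, Ag.refl _ _, fun c hc => by
        rw [app_zero, bs, if_neg, PN.zero_apply]
        rintro rfl
        exact l hc⟩
      simp [bs, ha] at this
    · have wa := n.w1 a
      have wb := n.w1 b
      obtain ⟨x, hx, ex⟩ := ih (n.wt a) (by omega) _ (ag_bs a)
      obtain ⟨y, hy, ey⟩ := ih (n.wt b) (by omega) _ (ag_bs b)
      have := fV (n.br (bs a) (bs b)) ⟨n'.br x y, hab ▸ ag_br hx hy, fun c hc => by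
        have t1 : n.Ag (n.wt a + 1) (φ.app ℚ x - bs a) 0 := fun c hc => by simp [ex c hc]
        have t2 : n.Ag (n.wt b + 1) (φ.app ℚ y - bs b) 0 := fun c hc => by simp [ey c hc]
        have u := congrFun (br_sub_br (φ.app ℚ x) (φ.app ℚ y) (bs a) (bs b)) c
        rw [PN.sub_apply, PN.add_apply, ag_br t1 (φ.app_ag hy) c (by omega),
          ag_br (ag_bs a) t2 c (by omega)] at u
        rw [app_br]
        simp only [PN.zero_apply] at u
        linarith⟩
      simp only [br_bs] at this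
      exact_mod_cast this
    · simp only [sym, co_ph, mul_sum]
      rw [sum_comm]
      refine sum_eq_zero fun a _ => ?_
      by_cases l : n'.wt a < i
      · have : co g a i = 0 := coeff_eq_zero_of_natDegree_lt ((n'.mem_P.1 g.2 a).trans_lt l)
        simp [this]
      · have := fV (φ.app ℚ (bs a)) ⟨bs a, (ag_bs a).mono (not_lt.1 l), fun _ _ => rfl⟩
        simp only [app_eq, lin_bs] at this
        have t : ∑ c, (ξ c : ℝ) * φ.A a c = 0 := by exact_mod_cast this
        simp only [← mul_assoc, ← sum_mul, t, zero_mul]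
  have dn : ∀ j i y, i + j = s + 1 → n.Ag i y 0 → ∃ x, n'.Ag i x 0 ∧ φ.app ℚ x = y := by
    intro j
    induction j with
    | zero =>
      intro i y e hy
      obtain rfl : i = s + 1 := e
      exact ⟨0, Ag.refl _ _, by rw [app_zero, hy.eq]⟩
    | succ j ih =>
      intro i y e hy
      obtain ⟨x, hx, ex⟩ := up i y hy
      obtain ⟨x', hx', ex'⟩ := ih (i + 1) (y - φ.app ℚ x) (by omega) fun c hc => by simp [ex c hc]
      exact ⟨x + x', fun a ha => by simp [hx a ha, hx' a (by omega)], by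
        rw [app_add, ex', add_sub_cancel]⟩
  exact h1 fun c => dn (s + 1 - n.wt c) _ _ (by have := n.ws c; omega) (ag_bs c)

end Mor

theorem PN.cen_zv {n : PN s} (v : n.I → ℤ) :
    Cen (zv v : n.G ℝ) ↔ ∀ y : n.G ℚ, n.br (fun a => (v a : ℚ)) y = 0 := by
  have k : ∀ (R : Type) [Field R] [CharZero R], (∀ y : n.G R, n.br (fun a => (v a : R)) y = 0) ↔
      ∀ b c, ∑ a, n.k a b c * v a = 0 := fun R _ _ => by
    refine ⟨fun h b c => ?_, fun h y => funext fun c => ?_⟩
    · have := congrFun (h fun a => if a = b then 1 else 0) c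
      simp only [PN.br, mul_ite, mul_one, mul_zero, sum_ite_eq', mem_univ, if_true,
        PN.zero_apply] at this
      exact_mod_cast this
    · rw [PN.br, sum_comm, PN.zero_apply]
      refine sum_eq_zero fun b _ => ?_
      have t : ∑ a, (n.k a b c : R) * v a = 0 := by exact_mod_cast h b c
      simp only [← mul_assoc, ← sum_mul, t, zero_mul]
  exact (k ℝ).trans (k ℚ).symm

theorem PN.ex_int {n : PN s} (w : n.G ℚ) :
    ∃ (D : ℚ) (v : n.I → ℤ), D ≠ 0 ∧ (fun a => (v a : ℚ)) = D • w := by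
  obtain ⟨D, D1, hD⟩ := Con.ex_den fun c : n.I => w c
  choose v hv using hD
  exact ⟨D, v, by positivity, funext fun a => (hv a).symm⟩

/-- a rational central vector is a multiple of the generator of the centre -/
theorem NS.Cen1.rat {n : NS s} {z : n.I → ℤ} (hz : n.Cen1 z) {w : n.G ℚ}
    (hw : ∀ y, n.br w y = 0) : ∃ r : ℚ, ∀ a, w a = r * z a := by
  obtain ⟨D, v, D0, hv⟩ := ex_int w
  obtain ⟨r, hr⟩ := hz.all v ((cen_zv v).2 fun y => by rw [hv, br_smul_left, hw, smul_zero])
  refine ⟨r / D, fun a => ?_⟩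
  rw [div_mul_eq_mul_div, ← hr, congrFun hv a, PN.smul_apply, smul_eq_mul, mul_div_cancel_left₀ _ D0]

/-- a nonzero ideal meets the centre -/
theorem gou {n' m : PN s} {n : NS s} {z : n.I → ℤ} (hz : n.Cen1 z) (p : Mor n' m)
    (p' : Mor n' n.toPN) (h : ∀ x, p.app ℚ x = 0 → p'.app ℚ x = 0 → x = 0) (h' : p'.Sur) :
    Function.Injective (p.app ℚ) ∨ ∃ x, p.app ℚ x = 0 ∧ p'.app ℚ x = fun a => (z a : ℚ) := by
  by_cases hi : Function.Injective (p.app ℚ)
  · exact .inl hi
  right
  have k : ∀ j i, i + j = s + 1 → ∀ x, p.app ℚ x = 0 → p'.app ℚ x ≠ 0 → n.Ag i (p'.app ℚ x) 0 →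
      ∃ x, p.app ℚ x = 0 ∧ p'.app ℚ x ≠ 0 ∧ ∀ y, n.br (p'.app ℚ x) y = 0 := by
    intro j
    induction j with
    | zero => exact fun i e x _ h0 ha => absurd (Ag.eq (by rwa [← e])) h0
    | succ j ih =>
      intro i e x h1 h0 ha
      by_cases c : ∀ y, n.br (p'.app ℚ x) y = 0
      · exact ⟨x, h1, h0, c⟩
      push Not at c
      obtain ⟨y, hy⟩ := c
      obtain ⟨y', rfl⟩ := h'.onto y
      refine ih (i + 1) (by omega) (n'.br x y') (by rw [Mor.app_br, h1, br_zero_left])
        (by rwa [Mor.app_br]) ?_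
      rw [Mor.app_br]
      exact ag_br ha (ag_one _ _)
  rw [Function.Injective] at hi
  push Not at hi
  obtain ⟨a, b, e, ne⟩ := hi
  have e0 : p.app ℚ (a - b) = 0 := by rw [Mor.app_sub, e, sub_self]
  obtain ⟨x, h1, h0, hx⟩ := k s 1 (add_comm _ _) (a - b) e0
    (fun t => ne (sub_eq_zero.1 (h _ e0 t))) (ag_one _ _)
  obtain ⟨r, hr⟩ := hz.rat hx
  have r0 : r ≠ 0 := fun t => h0 (funext fun a => by rw [hr, t, zero_mul, PN.zero_apply])
  refine ⟨r⁻¹ • x, by rw [Mor.app_smul, h1, smul_zero], funext fun a => ?_⟩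
  rw [Mor.app_smul, PN.smul_apply, hr, smul_eq_mul, inv_mul_cancel_left₀ r0]

theorem Mor.app_zv {n' n : PN s} (φ : Mor n' n) (v : n'.I → ℤ) (c : n.I) :
    φ.app ℝ (zv v) c = (φ.app ℚ (fun a => (v a : ℚ)) c : ℚ) := by
  simp [Mor.app_apply, zv, Rat.smul_def]

theorem st_Gour : GourSt := by
  intro s H n z φ ψ hz h
  rcases φ.surj with h1 | ⟨i, ξ, c, e⟩
  swap
  · exact .inr (.inl ⟨i, ξ, c, .inl e⟩)
  rcases ψ.surj with h2 | ⟨i, ξ, c, e⟩
  swap
  · exact .inr (.inl ⟨i, ξ, c, .inr e⟩)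
  rcases gou hz ψ φ (fun x a b => h x b a) h1 with hi | ⟨x, e1, e2⟩
  · obtain ⟨θ, hθ⟩ := ψ.inv hi h2
    exact .inr (.inr ⟨φ.comp θ, fun g => by rw [Mor.comp_ph, hθ]⟩)
  · obtain ⟨D, v, D0, hv⟩ := ex_int x
    refine .inl ⟨v, D, by exact_mod_cast D0, (cen_zv v).2 fun y => ?_, funext fun c => ?_,
      funext fun c => ?_⟩
    · rw [hv, br_smul_left, show H.br x y = 0 from h _ ?_ ?_, smul_zero]
      · rw [Mor.app_br, e2]
        exact (cen_zv z).1 hz.cen _
      · rw [Mor.app_br, e1]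
        exact br_zero_left _ _
    · rw [Mor.app_zv, hv, Mor.app_smul, e2]
      simp [zv]
    · rw [Mor.app_zv, hv, Mor.app_smul, e1]
      simp [one_def]

namespace NS

variable (n n' : NS s)

theorem lin_fst {R : Type} [CommRing R] [Algebra ℚ R] (x : (n.prod n').G R) :
    Mor.lin (n' := (n.prod n').toPN) (n := n.toPN)
      (fun a c => if a = .inl c then 1 else 0) R x = fst x := by
  funext c
  simp [Mor.lin_apply, fst]

theorem lin_snd {R : Type} [CommRing R] [Algebra ℚ R] (x : (n.prod n').G R) :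
    Mor.lin (n' := (n.prod n').toPN) (n := n'.toPN)
      (fun a c => if a = .inr c then 1 else 0) R x = snd x := by
  funext c
  simp [Mor.lin_apply, snd]

theorem fst_br {R : Type} [CommRing R] (x y : (n.prod n').G R) :
    fst ((n.prod n').br x y) = n.br (fst x) (fst y) := by
  funext c
  change ∑ a : n.I ⊕ n'.I, ∑ b : n.I ⊕ n'.I, ((kP n n' a b (.inl c) : ℤ) : R) * (x a * y b) = _
  simp [Fintype.sum_sum_type, kP, PN.br, fst]

theorem snd_br {R : Type} [CommRing R] (x y : (n.prod n').G R) :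
    snd ((n.prod n').br x y) = n'.br (snd x) (snd y) := by
  funext c
  change ∑ a : n.I ⊕ n'.I, ∑ b : n.I ⊕ n'.I, ((kP n n' a b (.inr c) : ℤ) : R) * (x a * y b) = _
  simp [Fintype.sum_sum_type, kP, PN.br, snd]

/-- the projections of a product -/
noncomputable def p1 : Mor (n.prod n').toPN n.toPN :=
  Mor.ofLin (fun a c => if a = .inl c then 1 else 0)
    (fun x y => by rw [lin_fst, lin_fst, lin_fst, fst_br]) fun a c h => by
    by_cases e : a = .inl c
    · subst e; exact le_rfl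
    · exact absurd (if_neg e) h

noncomputable def p2 : Mor (n.prod n').toPN n'.toPN :=
  Mor.ofLin (fun a c => if a = .inr c then 1 else 0)
    (fun x y => by rw [lin_snd, lin_snd, lin_snd, snd_br]) fun a c h => by
    by_cases e : a = .inr c
    · subst e; exact le_rfl
    · exact absurd (if_neg e) h

theorem p1_app {R : Type} [CommRing R] [Algebra ℚ R] (x : (n.prod n').G R) :
    (n.p1 n').app R x = fst x := lin_fst n n' x

theorem p2_app {R : Type} [CommRing R] [Algebra ℚ R] (x : (n.prod n').G R) :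
    (n.p2 n').app R x = snd x := lin_snd n n' x

variable {n n'}

theorem prod_ext {R : Type} {x y : (n.prod n').G R} (h : fst x = fst y) (h' : snd x = snd y) :
    x = y := funext fun a => by
  rcases a with a | a
  exacts [congrFun h a, congrFun h' a]

/-- a pair of phases -/
noncomputable def pair (g : n.Ph) (h : n'.Ph) : (n.prod n').Ph :=
  ⟨pr g.1 h.1, (n.prod n').mem_P.2 fun a => by
    rcases a with a | a
    exacts [n.mem_P.1 g.2 a, n'.mem_P.1 h.2 a]⟩

theorem p1_pair (g : n.Ph) (h : n'.Ph) : (n.p1 n').ph (pair g h) = g :=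
  Subtype.ext (p1_app n n' _)

theorem p2_pair (g : n.Ph) (h : n'.Ph) : (n.p2 n').ph (pair g h) = h :=
  Subtype.ext (p2_app n n' _)

theorem ev_pair (g : n.Ph) (h : n'.Ph) (t : ℝ) : ev t (pair g h) = pr (ev t g) (ev t h) :=
  prod_ext rfl rfl

end NS

end Pool.Agent.Lib.MP_028aa5_nt.N
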