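import Pool.Agent.Lib.MP_028aa5_nt.N.StW

/-! A short progression on which the small and the rational factor of a phase are frozen. -/

namespace Pool.Agent.Lib.MP_028aa5_nt.N

open Finset Polynomial
open scoped Classical

namespace PieceJ

theorem lt_iff {q r a m : ℕ} (hr : r < q) : (a + q - r) / q ≤ m ↔ a < r + q * m := by
  rw [← Nat.lt_succ_iff, Nat.div_lt_iff_lt_mul (by omega), Nat.succ_mul, mul_comm m q]
  omega

/-- one block of one residue class carries a fixed share of the sum -/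
theorem block (f : ℕ → ℂ) {q T K a b : ℕ} (hq : 1 ≤ q) (hK : 1 ≤ K) (hb : b < a + q * (T * K)) :
    ∃ r a' b' : ℕ, r < q ∧ b' ≤ a' + K ∧ (∀ m ∈ Ioc a' b', r + q * (m - 1) ∈ Ioc a b) ∧
      ‖∑ m ∈ Ioc a b, f m‖ ≤ (q * (T + 1) : ℕ) * ‖∑ m ∈ Ioc a' b', f (r + q * (m - 1))‖ := by
  set key : ℕ → ℕ × ℕ := fun m => (m % q, (m / q - a / q) / K) with hkey
  set S : Finset (ℕ × ℕ) := range q ×ˢ range (T + 1) with hS
  have maps : ∀ m ∈ Ioc a b, key m ∈ S := by
    intro m hm
    rw [mem_Ioc] at hm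
    refine mem_product.2 ⟨mem_range.2 (Nat.mod_lt _ hq), mem_range.2 ?_⟩
    have h1 : m / q ≤ a / q + T * K := by
      rw [← Nat.add_mul_div_left _ _ hq]
      exact Nat.div_le_div_right (by omega)
    refine Nat.lt_succ_of_le ?_
    rw [← Nat.mul_div_cancel T hK]
    exact Nat.div_le_div_right (by omega)
  obtain ⟨⟨r, t⟩, hk, hmax⟩ := exists_max_image S
    (fun k => ‖∑ m ∈ (Ioc a b).filter (fun m => key m = k), f m‖)
    ⟨(0, 0), mem_product.2 ⟨mem_range.2 hq, mem_range.2 T.succ_pos⟩⟩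
  have hr : r < q := mem_range.1 (mem_product.1 hk).1
  have mem : ∀ m, m ∈ Ioc (max (a / q + t * K) ((a + q - r) / q))
      (min (a / q + t * K + K) ((b + q - r) / q)) ↔
      1 ≤ m ∧ a / q + t * K ≤ m - 1 ∧ m - 1 < a / q + t * K + K ∧ r + q * (m - 1) ∈ Ioc a b := by
    intro m
    have h1 := lt_iff (a := a) (m := m - 1) hr
    have h2 := lt_iff (a := b) (m := m - 1) hr
    rw [mem_Ioc, mem_Ioc, max_lt_iff, le_min_iff]
    generalize (a + q - r) / q = x at *
    generalize (b + q - r) / q = y at *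
    generalize q * (m - 1) = z at *
    generalize a / q + t * K = w at *
    omega
  refine ⟨r, max (a / q + t * K) ((a + q - r) / q), min (a / q + t * K + K) ((b + q - r) / q), hr,
    (min_le_left _ _).trans (Nat.add_le_add_right (le_max_left _ _) _),
    fun m hm => ((mem m).1 hm).2.2.2, ?_⟩
  have e : ∑ m ∈ Ioc (max (a / q + t * K) ((a + q - r) / q))
      (min (a / q + t * K + K) ((b + q - r) / q)), f (r + q * (m - 1)) =
      ∑ m ∈ (Ioc a b).filter (fun m => key m = (r, t)), f m := by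
    refine sum_nbij' (fun m => r + q * (m - 1)) (fun m => m / q + 1) ?_ ?_ ?_ ?_ fun _ _ => rfl
    · intro m hm
      obtain ⟨-, h1, h2, h3⟩ := (mem m).1 hm
      refine mem_filter.2 ⟨h3, Prod.ext ?_ ?_⟩
      · simp only [hkey]
        rw [Nat.add_mul_mod_self_left, Nat.mod_eq_of_lt hr]
      · simp only [hkey]
        rw [Nat.add_mul_div_left _ _ hq, Nat.div_eq_of_lt hr, zero_add]
        generalize a / q = w at *
        refine Nat.div_eq_of_lt_le (by omega) ?_
        rw [Nat.succ_mul]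
        omega
    · intro m hm
      obtain ⟨h1, h2⟩ := mem_filter.1 hm
      have h3 : m % q = r := congrArg Prod.fst h2
      have h4 : (m / q - a / q) / K = t := congrArg Prod.snd h2
      have h5 : a / q ≤ m / q := Nat.div_le_div_right (mem_Ioc.1 h1).1.le
      have h6 := Nat.div_add_mod (m / q - a / q) K
      have h7 := Nat.mod_lt (m / q - a / q) hK
      rw [h4, mul_comm] at h6
      refine (mem _).2 ⟨Nat.le_add_left _ _, ?_⟩
      rw [Nat.add_sub_cancel, ← h3, Nat.mod_add_div]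
      refine and_assoc.1 ⟨?_, h1⟩
      generalize (m / q - a / q) % K = x at h6 h7
      generalize m / q = y at h5 h6 ⊢
      generalize a / q = w at h5 h6 ⊢
      omega
    · intro m hm
      have := ((mem m).1 hm).1
      rw [Nat.add_mul_div_left _ _ hq, Nat.div_eq_of_lt hr]
      omega
    · intro m hm
      have h3 : m % q = r := congrArg Prod.fst (mem_filter.1 hm).2
      rw [Nat.add_sub_cancel, ← h3, Nat.mod_add_div]
  rw [e, ← sum_fiberwise_of_maps_to maps]
  refine (norm_sum_le _ _).trans ((sum_le_card_nsmul _ _ _ hmax).trans_eq ?_)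
  rw [hS, card_product, card_range, card_range, nsmul_eq_mul]

theorem ev_GamQ {s : ℕ} {n : NS s} {c : ℕ} (m : ℕ) {g : n.Ph} (h : g ∈ n.LamQ 1 c) :
    PN.ev m g ∈ n.GamQ c := fun a => by
  have h' : ∀ j, ∃ z : ℤ, (g.1 a).coeff j = 1 ^ j * ((c : ℝ) ^ n.wt a)⁻¹ * z := h a
  choose z hz using h'
  refine AddSubgroup.mem_zmultiples_iff.2
    ⟨∑ j ∈ range ((g.1 a).natDegree + 1), z j * m ^ j, ?_⟩
  change _ = (g.1 a).eval (m : ℝ)
  rw [eval_eq_sum_range, zsmul_eq_mul]
  push_cast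
  rw [sum_mul]
  refine sum_congr rfl fun j _ => ?_
  rw [hz]
  ring

theorem ev_aff {s : ℕ} {n : PN s} (α β t : ℝ) (g : n.Ph) :
    PN.ev t (PN.aff α β g) = PN.ev (α * t + β) g :=
  funext fun a => by
    change ((g.1 a).comp (C α * X + C β)).eval t = (g.1 a).eval (α * t + β)
    simp [eval_comp]

end PieceJ

theorem st_Piece (hA : AuxSt) : PieceSt := by
  intro s n c L W δ hc hδ
  obtain ⟨C0, hC0, hs⟩ := hA.slow s n.toPN W
  obtain ⟨T0, hT0⟩ := exists_nat_ge (8 * |L| * C0 / δ)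
  have hq : 1 ≤ c ^ s := Nat.one_le_pow _ _ hc
  set q := c ^ s with hqd
  set T := T0 + 2 with hTd
  refine ⟨q, T, max C0 (3 * q * T : ℕ), hq, by omega, ?_⟩
  intro F hF ε u γ a b N hb hN hε hγ hsum
  have hN1 : 3 * q * T ≤ N := by exact_mod_cast (le_max_right _ _).trans hN
  have hqT : 0 < q * T := by positivity
  set K := N / (q * T) + 1 with hKd
  have hK1 : N < q * T * K := Nat.lt_mul_div_succ N hqT
  have hK2 : 3 * (q * T * K) ≤ 4 * N := by
    have := Nat.mul_div_le N (q * T)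
    rw [hKd, mul_add, mul_one]
    rw [mul_assoc] at hN1
    omega
  obtain ⟨r, a', b', hr, hb', hm, hle⟩ := PieceJ.block (fun m => F (PN.ev m (ε * u * γ)))
    (T := T) (K := K) (a := a) (b := b) hq (Nat.le_add_left _ _) (by rw [← mul_assoc]; omega)
  have q1 : (1 : ℝ) ≤ q := by exact_mod_cast hq
  have T2 : (2 : ℝ) ≤ T := by exact_mod_cast Nat.le_add_left 2 T0
  have K0 : (0 : ℝ) < K := by positivity
  have n3 : (3 * q * T : ℝ) ≤ N := by exact_mod_cast hN1
  have k2 : (3 * (q * T * K) : ℝ) ≤ 4 * N := by exact_mod_cast hK2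
  have qN : (q : ℝ) ≤ N := by nlinarith
  have N0 : (0 : ℝ) < N := by linarith
  set S := ‖∑ m ∈ Ioc a' b', F (PN.ev ((r + q * (m - 1) : ℕ) : ℝ) (ε * u * γ))‖ with hS
  have S0 : 0 ≤ S := norm_nonneg _
  have hS2 : δ / 2 * K ≤ S := by
    have h1 : δ * N ≤ (q * (T + 1) : ℝ) * S := by
      have := hsum.trans hle
      push_cast at this
      exact this
    have h2 : (q * (T + 1) : ℝ) * S ≤ 3 / 2 * (q * T) * S := by
      refine mul_le_mul_of_nonneg_right ?_ S0
      nlinarith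
    have h3 : δ * (3 * (q * T * K)) ≤ δ * (4 * N) := mul_le_mul_of_nonneg_left k2 hδ.le
    have h4 : (0 : ℝ) < q * T := by positivity
    refine le_of_mul_le_mul_left ?_ h4
    nlinarith
  have ne : a' < b' := by
    by_contra h
    rw [Ioc_eq_empty h, sum_empty, norm_zero] at hS
    have : 0 < δ / 2 * K := by positivity
    linarith
  have h0 : |(q * a' + ((r : ℤ) - q : ℤ) - a : ℝ)| ≤ 2 * N := by
    have := mem_Ioc.1 (hm (a' + 1) (mem_Ioc.2 ⟨a'.lt_succ_self, ne⟩))
    rw [Nat.add_sub_cancel] at this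
    have h1 : (a : ℝ) < r + q * a' := by exact_mod_cast this.1
    have h2 : (r + q * a' : ℝ) ≤ a + N := by exact_mod_cast this.2.trans hb
    push_cast
    rw [abs_le]
    constructor <;> linarith
  set t0 : ℝ := q * a' + ((r : ℤ) - q : ℤ) with ht0
  refine ⟨PN.ev t0 ε, PN.ev r γ, (r : ℤ) - q, a', b', K,
    (hs ε a N t0 t0 N0 hε h0 h0).1.trans (le_max_left _ _), PieceJ.ev_GamQ r hγ, hb', hK1.le, h0, ?_⟩
  have err : ∀ m ∈ Ioc a' b', ‖F (PN.ev ((r + q * (m - 1) : ℕ) : ℝ) (ε * u * γ)) -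
      F (PN.ev t0 ε * PN.ev m (PN.aff q ((r : ℤ) - q : ℤ) u) * PN.ev r γ)‖ ≤ δ / 4 := by
    intro m hm'
    have m1 := mem_Ioc.1 hm'
    have m2 := mem_Ioc.1 (hm m hm')
    obtain ⟨l, hl, el⟩ := hA.per s n c γ r (m - 1) hc hγ
    have e1 : ((r + q * (m - 1) : ℕ) : ℝ) = q * m + ((r : ℤ) - q : ℤ) := by
      push_cast [Nat.cast_sub (show 1 ≤ m by omega)]
      ring
    have h1 : |((r + q * (m - 1) : ℕ) : ℝ) - a| ≤ 2 * N := by
      have h2 : (a : ℝ) < (r + q * (m - 1) : ℕ) := by exact_mod_cast m2.1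
      have h3 : ((r + q * (m - 1) : ℕ) : ℝ) ≤ a + N := by exact_mod_cast m2.2.trans hb
      rw [abs_le]
      constructor <;> linarith
    have h2 := (hs ε a N _ t0 N0 hε h1 h0).2
    have h3 : |((r + q * (m - 1) : ℕ) : ℝ) - t0| ≤ q * K := by
      have h4 : (a' : ℝ) < m := by exact_mod_cast m1.1
      have h5 : (m : ℝ) ≤ a' + K := by exact_mod_cast m1.2.trans hb'
      rw [e1, ht0, add_sub_add_right_eq_sub, ← mul_sub, abs_of_nonneg (by nlinarith)]
      nlinarith
    rw [map_mul, map_mul, el, ← mul_assoc, hF.inv _ l hl, PieceJ.ev_aff, ← e1]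
    set x := PN.ev ((r + q * (m - 1) : ℕ) : ℝ) ε
    set y := PN.ev ((r + q * (m - 1) : ℕ) : ℝ) u
    have e2 : x * y * PN.ev r γ = x * (PN.ev t0 ε)⁻¹ * (PN.ev t0 ε * y * PN.ev r γ) := by group
    rw [e2]
    refine (hF.lip _ _).trans ?_
    have g0 : 0 ≤ PN.nG (x * (PN.ev t0 ε)⁻¹) := sum_nonneg fun _ _ => abs_nonneg _
    have h6 : |((r + q * (m - 1) : ℕ) : ℝ) - t0| / N ≤ 2 / T := by
      rw [div_le_div_iff₀ N0 (by linarith)]
      nlinarith
    have h7 : 8 * |L| * C0 ≤ T * δ := by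
      rw [div_le_iff₀ hδ] at hT0
      have : (T0 : ℝ) ≤ T := by exact_mod_cast Nat.le_add_right T0 2
      nlinarith
    calc _ ≤ |L| * (C0 * (2 / T)) :=
          (mul_le_mul_of_nonneg_right (le_abs_self L) g0).trans
            (mul_le_mul_of_nonneg_left (h2.trans (by gcongr)) (abs_nonneg L))
      _ = 2 * |L| * C0 / T := by ring
      _ ≤ δ / 4 := by
          rw [div_le_iff₀ (by linarith)]
          linarith
  have tot := (norm_sum_le _ _).trans (sum_le_card_nsmul _ _ _ err)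
  rw [sum_sub_distrib, Nat.card_Ioc, nsmul_eq_mul] at tot
  have cK : ((b' - a' : ℕ) : ℝ) ≤ K := by exact_mod_cast (by omega : b' - a' ≤ K)
  have := norm_sub_norm_le (∑ m ∈ Ioc a' b', F (PN.ev ((r + q * (m - 1) : ℕ) : ℝ) (ε * u * γ)))
    (∑ m ∈ Ioc a' b', F (PN.ev t0 ε * PN.ev m (PN.aff q ((r : ℤ) - q : ℤ) u) * PN.ev r γ))
  nlinarith

end Pool.Agent.Lib.MP_028aa5_nt.N
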