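import Pool.Agent.Lib.MP_028aa5_nt.N.Defs

/-! Covering numbers and fine lattices for the word length gauge. -/

namespace Pool.Agent.Lib.MP_028aa5_nt.N

open Finset Polynomial
open scoped Classical

namespace Cov

/-- sum of the absolute values of the coefficients -/
noncomputable def nP (s : ℕ) (p : ℝ[X]) : ℝ := ∑ j ∈ range (s + 1), |p.coeff j|

theorem nP_nonneg (s : ℕ) (p : ℝ[X]) : 0 ≤ nP s p := sum_nonneg fun _ _ => abs_nonneg _

theorem nP_comp (s : ℕ) (u : ℝ[X]) : ∃ c : ℝ, 0 ≤ c ∧ ∀ p : ℝ[X], p.natDegree ≤ s →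
    nP s (p.comp u) ≤ c * nP s p := by
  refine ⟨∑ i ∈ range (s + 1), nP s (u ^ i), sum_nonneg fun _ _ => nP_nonneg _ _, fun p hp => ?_⟩
  have e : p.comp u = ∑ i ∈ range (s + 1), C (p.coeff i) * u ^ i := by
    conv_lhs => rw [p.as_sum_range_C_mul_X_pow' (Nat.lt_succ_of_le hp)]
    simp [Polynomial.sum_comp]
  calc nP s (p.comp u) ≤ ∑ j ∈ range (s + 1), ∑ i ∈ range (s + 1),
        |p.coeff i| * |(u ^ i).coeff j| := by
        refine sum_le_sum fun j _ => ?_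
        rw [e, finsetSum_coeff]
        refine (abs_sum_le_sum_abs _ _).trans (le_of_eq (sum_congr rfl fun i _ => ?_))
        rw [coeff_C_mul, abs_mul]
    _ = ∑ i ∈ range (s + 1), |p.coeff i| * nP s (u ^ i) := by
        rw [sum_comm]
        exact sum_congr rfl fun i _ => (mul_sum _ _ _).symm
    _ ≤ ∑ i ∈ range (s + 1), |p.coeff i| * ∑ i ∈ range (s + 1), nP s (u ^ i) :=
        sum_le_sum fun i hi => mul_le_mul_of_nonneg_left
          (single_le_sum (f := fun i => nP s (u ^ i)) (fun _ _ => nP_nonneg _ _) hi) (abs_nonneg _)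
    _ = _ := by rw [← sum_mul, mul_comm]; rfl

variable {s : ℕ} {n : PN s}

/-- distance of the coefficients -/
noncomputable def dc (g h : n.Ph) : ℝ := ∑ a, ∑ j ∈ range (s + 1), |PN.co g a j - PN.co h a j|

/-- the product with an inverse is controlled by the difference -/
def Bil (n : PN s) (C : ℝ) : Prop := ∀ g h : n.Ph,
  PN.nm0 (g * h⁻¹) ≤ C * (1 + PN.nm0 g + PN.nm0 h) ^ s * dc g h

/-- growth of words -/
def Gro (n : PN s) (C : ℝ) (e : ℕ) : Prop := ∀ g : n.Ph,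
  PN.nm0 g ≤ C * (1 + PN.ln0 g) ^ e * PN.ln0 g

theorem nm0_nonneg (g : n.Ph) : 0 ≤ PN.nm0 g :=
  sum_nonneg fun _ _ => sum_nonneg fun _ _ => abs_nonneg _

theorem dc_nonneg (g h : n.Ph) : 0 ≤ dc g h :=
  sum_nonneg fun _ _ => sum_nonneg fun _ _ => abs_nonneg _

theorem ln0_lb (g : n.Ph) :
    ∀ r ∈ {r | ∃ l : List n.Ph, l.prod = g ∧ (l.map PN.nm0).sum = r}, (0 : ℝ) ≤ r := by
  rintro r ⟨l, -, rfl⟩
  refine List.sum_nonneg fun x hx => ?_
  obtain ⟨u, -, rfl⟩ := List.mem_map.1 hx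
  exact nm0_nonneg u

theorem ln0_nonneg (g : n.Ph) : 0 ≤ PN.ln0 g := Real.sInf_nonneg (ln0_lb g)

theorem ln0_le (g : n.Ph) : PN.ln0 g ≤ PN.nm0 g :=
  csInf_le ⟨0, ln0_lb g⟩ ⟨[g], by simp, by simp⟩

theorem co_le (g : n.Ph) (a : n.I) {j : ℕ} (hj : j ∈ range (s + 1)) : |PN.co g a j| ≤ PN.nm0 g :=
  (single_le_sum (f := fun j => |PN.co g a j|) (fun _ _ => abs_nonneg _) hj).trans
    (single_le_sum (f := fun a => ∑ j ∈ range (s + 1), |PN.co g a j|)
      (fun _ _ => sum_nonneg fun _ _ => abs_nonneg _) (mem_univ a))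

theorem dc_le (g h : n.Ph) {η : ℝ} (H : ∀ a, ∀ j ∈ range (s + 1), |PN.co g a j - PN.co h a j| ≤ η) :
    dc g h ≤ (Fintype.card n.I * (s + 1) : ℕ) * η := by
  calc dc g h ≤ ∑ _a : n.I, ∑ _j ∈ range (s + 1), η :=
        sum_le_sum fun a _ => sum_le_sum fun j hj => H a j hj
    _ = _ := by simp [mul_assoc]

theorem nm0_le_dc (g h : n.Ph) : PN.nm0 g ≤ PN.nm0 h + dc g h := by
  unfold PN.nm0 dc
  rw [← sum_add_distrib]
  refine sum_le_sum fun a _ => ?_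
  rw [← sum_add_distrib]
  refine sum_le_sum fun j _ => ?_
  have := abs_add_le (PN.co h a j) (PN.co g a j - PN.co h a j)
  rwa [add_sub_cancel] at this

theorem deg_le (g : n.Ph) (a : n.I) : (g.1 a).natDegree ≤ s := (n.mem_P.1 g.2 a).trans (n.ws a)

theorem ext_co {g h : n.Ph} (H : ∀ a, ∀ j ∈ range (s + 1), PN.co g a j = PN.co h a j) : g = h := by
  refine Subtype.ext (funext fun a => Polynomial.ext fun j => ?_)
  by_cases hj : j < s + 1
  · exact H a j (mem_range.2 hj)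
  · rw [coeff_eq_zero_of_natDegree_lt (by have := deg_le g a; omega),
      coeff_eq_zero_of_natDegree_lt (by have := deg_le h a; omega)]

theorem aff_val (α β : ℝ) (g : n.Ph) (a : n.I) :
    (PN.aff α β g).1 a = (g.1 a).comp (C α * X + C β) := rfl

theorem aff_bd (n : PN s) (α β : ℝ) : ∃ c : ℝ, 0 ≤ c ∧
    (∀ g : n.Ph, PN.nm0 (PN.aff α β g) ≤ c * PN.nm0 g) ∧
    ∀ g h : n.Ph, dc (PN.aff α β g) (PN.aff α β h) ≤ c * dc g h := by
  obtain ⟨c, c0, hc⟩ := nP_comp s (C α * X + C β)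
  refine ⟨c, c0, fun g => ?_, fun g h => ?_⟩
  · unfold PN.nm0
    rw [mul_sum]
    exact sum_le_sum fun a _ => hc _ (deg_le g a)
  · unfold dc
    rw [mul_sum]
    refine sum_le_sum fun a _ => ?_
    have := hc (g.1 a - h.1 a) ((natDegree_sub_le _ _).trans (max_le (deg_le g a) (deg_le h a)))
    simp only [nP, sub_comp, coeff_sub] at this
    exact this

theorem aff_inv {K : ℝ} (hK : K ≠ 0) (y : ℝ) (g : n.Ph) :
    PN.aff K⁻¹ (-y / K) (PN.aff K y g) = g := by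
  refine Subtype.ext (funext fun a => ?_)
  rw [aff_val, aff_val, comp_assoc]
  have : (C K * X + C y).comp (C K⁻¹ * X + C (-y / K)) = (X : ℝ[X]) := by
    simp only [add_comp, mul_comp, C_comp, X_comp, mul_add, ← mul_assoc, ← C_mul]
    rw [mul_inv_cancel₀ hK, mul_div_cancel₀ _ hK]
    simp
  rw [this, comp_X]

theorem gro_le {C : ℝ} {e : ℕ} (hG : Gro n C e) (C0 : 0 ≤ C) {g : n.Ph} {r : ℝ}
    (h : PN.ln0 g ≤ r) : PN.nm0 g ≤ C * (1 + r) ^ e * r := by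
  have := ln0_nonneg g
  have r0 : 0 ≤ r := this.trans h
  refine (hG g).trans ?_
  gcongr

theorem floor_close {u v η : ℝ} (hη : 0 < η) (h : ⌊u / η⌋ = ⌊v / η⌋) : |u - v| ≤ η := by
  have := Int.abs_sub_lt_one_of_floor_eq_floor h
  rw [← sub_div, abs_div, abs_of_pos hη, div_lt_one hη] at this
  exact this.le

/-- covering by cubes -/
theorem cube (n : PN s) {ι : Type} (A : Finset ι) (v : ι → n.Ph) {R η L : ℝ} (hη : 0 < η)
    (R0 : 0 ≤ R) (hv : ∀ x ∈ A, PN.nm0 (v x) ≤ R)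
    (hL : ∀ B ⊆ A, (∀ x ∈ B, ∀ x' ∈ B, dc (v x) (v x') ≤ (Fintype.card n.I * (s + 1) : ℕ) * η) →
      (#B : ℝ) ≤ L) :
    (#A : ℝ) ≤ (2 * R / η + 3) ^ (Fintype.card n.I * (s + 1)) * L := by
  have L0 : 0 ≤ L := by simpa using hL ∅ (empty_subset _) (by simp)
  set M : ℕ := ⌈R / η⌉₊ with hM
  let c : ι → (n.I × Fin (s + 1) → ℤ) := fun x u => ⌊PN.co (v x) u.1 u.2 / η⌋
  let T : Finset (n.I × Fin (s + 1) → ℤ) := Fintype.piFinset fun _ => Icc (-(M : ℤ)) M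
  have hT : ∀ x ∈ A, c x ∈ T := by
    intro x hx
    refine Fintype.mem_piFinset.2 fun u => mem_Icc.2 ?_
    have h1 := abs_le.1 ((co_le (v x) u.1 (mem_range.2 u.2.2)).trans (hv x hx))
    have h2 : R / η ≤ M := Nat.le_ceil _
    have h3 : PN.co (v x) u.1 u.2 / η ≤ R / η := by gcongr; exact h1.2
    have h4 : -R / η ≤ PN.co (v x) u.1 u.2 / η := by gcongr; exact h1.1
    rw [neg_div] at h4
    constructor
    · refine Int.le_floor.2 ?_
      push_cast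
      linarith
    · have : ((c x u : ℤ) : ℝ) ≤ (M : ℤ) := by
        push_cast
        exact (Int.floor_le _).trans (h3.trans h2)
      exact_mod_cast this
  have hc : (#T : ℝ) ≤ (2 * R / η + 3) ^ (Fintype.card n.I * (s + 1)) := by
    have e : #T = (2 * M + 1) ^ (Fintype.card n.I * (s + 1)) := by
      simp only [T, Fintype.card_piFinset, Int.card_Icc, prod_const, card_univ, Fintype.card_prod,
        Fintype.card_fin]
      congr 1
      omega
    rw [e]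
    push_cast
    have : (M : ℝ) < R / η + 1 := Nat.ceil_lt_add_one (by positivity)
    refine pow_le_pow_left₀ (by positivity) ?_ _
    rw [mul_div_assoc]
    linarith
  rw [card_eq_sum_card_fiberwise (f := c) (t := T) hT]
  push_cast
  calc _ ≤ ∑ _t ∈ T, L := by
        refine sum_le_sum fun t _ => hL _ (filter_subset _ _) fun x hx x' hx' => ?_
        refine dc_le _ _ fun a j hj => floor_close hη ?_
        exact congrFun ((mem_filter.1 hx).2.trans (mem_filter.1 hx').2.symm)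
          (a, ⟨j, mem_range.1 hj⟩)
    _ = #T * L := by simp
    _ ≤ _ := by gcongr

/-- covering numbers of the word length -/
theorem cov0 {C : ℝ} {e : ℕ} (C1 : 1 ≤ C) (hB : Bil n C) (hG : Gro n C e) :
    ∃ K0 : ℕ, ∀ K : ℕ, K0 ≤ K → ∀ (ι : Type) (r δ L : ℝ) (A : Finset ι) (v : ι → n.Ph), 0 ≤ r →
      0 < δ → (∀ x ∈ A, PN.ln0 (v x) ≤ r) →
      (∀ B ⊆ A, (∀ x ∈ B, ∀ x' ∈ B, PN.ln0 (v x * (v x')⁻¹) ≤ δ) → (#B : ℝ) ≤ L) →
      (#A : ℝ) ≤ (K * (r / δ + 1) * (1 + r)) ^ K * L := by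
  set N : ℕ := Fintype.card n.I * (s + 1) with hN
  set C1' : ℝ := 2 * C ^ 2 * (N + 1) * (1 + 2 * C) ^ s + 3 with hC
  refine ⟨max ⌈C1'⌉₊ ((e + (e + 1) * s + 1) * N), fun K hK ι r δ L A v r0 δ0 hv hL => ?_⟩
  have L0 : 0 ≤ L := by simpa using hL ∅ (empty_subset _) (by simp)
  have C0 : 0 ≤ C := by linarith
  set R : ℝ := C * (1 + r) ^ e * r with hR
  have R0 : 0 ≤ R := by positivity
  set W : ℝ := (N + 1) * (C * (1 + 2 * R) ^ s) with hW
  have W0 : 0 < W := by positivity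
  have hv' : ∀ x ∈ A, PN.nm0 (v x) ≤ R := fun x hx => gro_le hG C0 (hv x hx)
  refine (cube n A v (div_pos δ0 W0) R0 hv' (L := L) fun B hBA hB' => ?_).trans ?_
  · refine hL B hBA fun x hx x' hx' => (ln0_le _).trans ((hB _ _).trans ?_)
    have h1 := hv' x (hBA hx)
    have h2 := hv' x' (hBA hx')
    have h3 := nm0_nonneg (v x)
    have h4 := nm0_nonneg (v x')
    have h5 := dc_nonneg (v x) (v x')
    calc _ ≤ C * (1 + 2 * R) ^ s * ((N + 1) * (δ / W)) := by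
          refine mul_le_mul (mul_le_mul_of_nonneg_left
            (pow_le_pow_left₀ (by positivity) (by linarith) _) C0) ?_ h5 (by positivity)
          refine (hB' x hx x' hx').trans ?_
          gcongr
          exact le_add_of_nonneg_right zero_le_one
      _ = δ := by rw [hW]; field_simp
  · refine mul_le_mul_of_nonneg_right ?_ L0
    have r1 : 1 ≤ 1 + r := by linarith
    have q0 : 0 ≤ r / δ := by positivity
    have k1 : C1' ≤ K := (Nat.le_ceil _).trans (by exact_mod_cast (le_max_left _ _).trans hK)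
    have c3 : 3 ≤ C1' := by rw [hC]; exact le_add_of_nonneg_left (by positivity)
    have a1 : 1 + 2 * R ≤ (1 + 2 * C) * (1 + r) ^ (e + 1) := by
      have : 1 ≤ (1 + r) ^ (e + 1) := one_le_pow₀ r1
      have h2 : R ≤ C * (1 + r) ^ (e + 1) := by
        rw [hR, pow_succ, ← mul_assoc]
        gcongr
        linarith
      nlinarith
    set E : ℕ := e + (e + 1) * s with hE
    have e1 : 1 ≤ (1 + r) ^ E := one_le_pow₀ r1
    have a2 : 2 * R / (δ / W) ≤ (C1' - 3) * (r / δ) * (1 + r) ^ E := by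
      calc 2 * R / (δ / W) = 2 * C ^ 2 * (N + 1) * (1 + 2 * R) ^ s * (r / δ) * (1 + r) ^ e := by
            rw [hW, hR]; field_simp
        _ ≤ 2 * C ^ 2 * (N + 1) * ((1 + 2 * C) * (1 + r) ^ (e + 1)) ^ s * (r / δ) * (1 + r) ^ e := by
            gcongr
        _ = _ := by rw [hC, hE, mul_pow, ← pow_mul, pow_add (1 + r) e]; ring
    have b1 : 1 ≤ (K : ℝ) * (r / δ + 1) := by nlinarith
    have b2 : 1 ≤ (K : ℝ) * (r / δ + 1) * (1 + r) := by nlinarith
    have a3 : 2 * R / (δ / W) + 3 ≤ (K * (r / δ + 1) * (1 + r)) ^ (E + 1) := by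
      calc _ ≤ (K * (r / δ + 1)) * (1 + r) ^ E := by
            have : (C1' - 3) * (r / δ) * (1 + r) ^ E ≤ K * (r / δ) * (1 + r) ^ E := by
              gcongr
              linarith
            have h3 : 3 ≤ K * (1 + r) ^ E := by nlinarith
            nlinarith
        _ ≤ (K * (r / δ + 1)) ^ (E + 1) * (1 + r) ^ (E + 1) := by
            gcongr
            · exact le_self_pow₀ b1 (by omega)
            · omega
        _ = _ := (mul_pow _ _ _).symm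
    calc _ ≤ ((K * (r / δ + 1) * (1 + r)) ^ (E + 1)) ^ N := by gcongr
      _ = (K * (r / δ + 1) * (1 + r)) ^ ((E + 1) * N) := (pow_mul _ _ _).symm
      _ ≤ _ := pow_le_pow_right₀ b2 ((le_max_right _ _).trans hK)

/-- covering numbers of the gauge `S * ln K y` -/
theorem cov {C : ℝ} {e : ℕ} (C1 : 1 ≤ C) (hB : Bil n C) (hG : Gro n C e) :
    ∃ K0 : ℕ, ∀ K : ℕ, K0 ≤ K → ∀ S : ℝ, 1 ≤ S → ∀ (ι : Type) (w y r δ L : ℝ) (A : Finset ι)
      (v : ι → n.Ph), 0 ≤ r → 0 < δ → (∀ x ∈ A, S * PN.ln w y (v x) ≤ r) →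
      (∀ B ⊆ A, (∀ x ∈ B, ∀ x' ∈ B, S * PN.ln w y (v x * (v x')⁻¹) ≤ δ) → (#B : ℝ) ≤ L) →
      (#A : ℝ) ≤ (K * (r / δ + 1) * (1 + r)) ^ K * L := by
  obtain ⟨K0, h⟩ := cov0 C1 hB hG
  refine ⟨K0, fun K hK S S1 ι w y r δ L A v r0 δ0 hv hL => ?_⟩
  have S0 : 0 < S := by linarith
  have L0 : 0 ≤ L := by simpa using hL ∅ (empty_subset _) (by simp)
  refine (h K hK ι (r / S) (δ / S) L A (fun x => PN.aff w y (v x)) (by positivity) (by positivity)
    (fun x hx => (le_div_iff₀' S0).2 (hv x hx)) fun B hBA hB' => hL B hBA fun x hx x' hx' => ?_).trans ?_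
  · have := (le_div_iff₀' S0).1 (hB' x hx x' hx')
    rwa [← map_inv, ← map_mul] at this
  · rw [div_div_div_cancel_right₀ S0.ne']
    gcongr
    exact div_le_self r0 S1

end Cov

namespace NS

open Cov

variable {s : ℕ} (n : NS s)

theorem mem_LamQ {c : ℝ} {q : ℕ} {g : n.Ph} : g ∈ n.LamQ c q ↔
    ∀ a j, ∃ z : ℤ, PN.co g a j = c ^ j * ((q : ℝ) ^ n.wt a)⁻¹ * z := Iff.rfl

theorem lam_le_lamQ (c : ℝ) {q : ℕ} (hq : 1 ≤ q) : n.Lam c ≤ n.LamQ c q := by
  intro g hg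
  refine n.mem_LamQ.2 fun a j => ?_
  obtain ⟨z, hz⟩ := n.mem_LamQ.1 hg a j
  refine ⟨z * q ^ n.wt a, ?_⟩
  have : (q : ℝ) ≠ 0 := by positivity
  rw [hz]
  push_cast
  field_simp
  simp

/-- bounded parts of the lattices are finite -/
theorem fin_nm0 {q : ℕ} (hq : 1 ≤ q) (R : ℝ) : {d | d ∈ n.LamQ 1 q ∧ PN.nm0 d ≤ R}.Finite := by
  have q0 : (0 : ℝ) < q := by exact_mod_cast hq
  have q1 : (1 : ℝ) ≤ q := by exact_mod_cast hq
  let c : n.Ph → (n.I × Fin (s + 1) → ℤ) := fun d u => ⌊PN.co d u.1 u.2 * q ^ n.wt u.1⌋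
  have hc : ∀ d ∈ n.LamQ 1 q, ∀ u, (c d u : ℝ) = PN.co d u.1 u.2 * q ^ n.wt u.1 := by
    intro d hd u
    obtain ⟨z, hz⟩ := n.mem_LamQ.1 hd u.1 u.2
    have : PN.co d u.1 u.2 * q ^ n.wt u.1 = z := by
      rw [hz]
      field_simp
      simp
    simp only [c, this, Int.floor_intCast]
  set M : ℤ := ⌈R * q ^ s⌉ with hM
  refine Set.Finite.of_finite_image (f := c)
    ((Fintype.piFinset fun _ : n.I × Fin (s + 1) => Icc (-M) M).finite_toSet.subset ?_) ?_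
  · rintro _ ⟨d, hd, rfl⟩
    refine mem_coe.2 (Fintype.mem_piFinset.2 fun u => mem_Icc.2 (abs_le.1 ?_))
    have h1 := (co_le d u.1 (mem_range.2 u.2.2)).trans hd.2
    have : |(c d u : ℝ)| ≤ M := by
      rw [hc d hd.1, abs_mul, abs_of_pos (pow_pos q0 _)]
      refine le_trans ?_ (Int.le_ceil _)
      exact mul_le_mul h1 (pow_le_pow_right₀ q1 (n.ws _)) (by positivity) ((abs_nonneg _).trans h1)
    exact_mod_cast this
  · intro d hd d' hd' h
    refine ext_co fun a j hj => ?_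
    have := hc d hd.1 (a, ⟨j, mem_range.1 hj⟩)
    rw [h, hc d' hd'.1] at this
    exact (mul_right_cancel₀ (pow_pos q0 _).ne' this).symm

/-- rounding to the lattice -/
theorem round_ex {q : ℕ} (hq : 1 ≤ q) (g : n.Ph) : ∃ d ∈ n.LamQ 1 q,
    ∀ a j, |PN.co d a j - PN.co g a j| ≤ (q : ℝ)⁻¹ := by
  have q0 : (0 : ℝ) < q := by exact_mod_cast hq
  have q1 : (1 : ℝ) ≤ q := by exact_mod_cast hq
  let p : n.G ℝ[X] := fun a => ∑ j ∈ range (n.wt a + 1),
    monomial j (((q : ℝ) ^ n.wt a)⁻¹ * ⌊PN.co g a j * q ^ n.wt a⌋)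
  have hp : ∀ a j, (p a).coeff j = ((q : ℝ) ^ n.wt a)⁻¹ * ⌊PN.co g a j * q ^ n.wt a⌋ := by
    intro a j
    simp only [p, finsetSum_coeff, coeff_monomial, sum_ite_eq', mem_range]
    split_ifs with h
    · rfl
    · have : PN.co g a j = 0 :=
        coeff_eq_zero_of_natDegree_lt (by have := n.mem_P.1 g.2 a; omega)
      simp [this]
  have hP : p ∈ n.P := n.mem_P.2 fun a => natDegree_sum_le_of_forall_le _ _ fun j hj =>
    (natDegree_monomial_le _).trans (Nat.lt_succ_iff.1 (mem_range.1 hj))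
  refine ⟨⟨p, hP⟩, n.mem_LamQ.2 fun a j => ⟨⌊PN.co g a j * q ^ n.wt a⌋, ?_⟩, fun a j => ?_⟩
  · rw [one_pow, one_mul]
    exact hp a j
  · have e : PN.co (⟨p, hP⟩ : n.Ph) a j = _ := hp a j
    have w0 : (0 : ℝ) < (q : ℝ) ^ n.wt a := pow_pos q0 _
    have e2 : PN.co (⟨p, hP⟩ : n.Ph) a j - PN.co g a j =
        ((q : ℝ) ^ n.wt a)⁻¹ * (⌊PN.co g a j * q ^ n.wt a⌋ - PN.co g a j * q ^ n.wt a) := by
      rw [e]
      field_simp
    rw [e2, abs_mul, abs_of_pos (inv_pos.2 w0)]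
    have h1 : |(⌊PN.co g a j * q ^ n.wt a⌋ : ℝ) - PN.co g a j * q ^ n.wt a| ≤ 1 := by
      have := Int.floor_le (PN.co g a j * q ^ n.wt a)
      have := Int.lt_floor_add_one (PN.co g a j * q ^ n.wt a)
      rw [abs_le]
      constructor <;> linarith
    calc _ ≤ (q : ℝ)⁻¹ * 1 := by
          gcongr
          exact le_self_pow₀ q1 (by have := n.w1 a; omega)
      _ = _ := mul_one _

/-- bounded parts of the lattices are finite, for the word length on a window -/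
theorem fin_ln {C : ℝ} {e : ℕ} (C0 : 0 ≤ C) (hG : Gro n.toPN C e) {q : ℕ} (hq : 1 ≤ q) {w : ℝ}
    (hw : w ≠ 0) (y R : ℝ) : {d | d ∈ n.LamQ 1 q ∧ PN.ln w y d ≤ R}.Finite := by
  obtain ⟨c, c0, hc, -⟩ := aff_bd n.toPN w⁻¹ (-y / w)
  refine (n.fin_nm0 hq (c * (C * (1 + R) ^ e * R))).subset fun d hd => ⟨hd.1, ?_⟩
  have := hc (PN.aff w y d)
  rw [aff_inv hw] at this
  exact this.trans (mul_le_mul_of_nonneg_left (gro_le hG C0 hd.2) c0)

/-- the lattices become dense -/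
theorem dense_ln {C : ℝ} (C0 : 0 ≤ C) (hB : Bil n.toPN C) (w y : ℝ) {r : ℝ} (hr : 0 < r)
    (Θ : Finset n.Ph) : ∃ q : ℕ, 1 ≤ q ∧ ∀ g ∈ Θ, ∃ d ∈ n.LamQ 1 q, PN.ln w y (d * g⁻¹) ≤ r := by
  obtain ⟨c, c0, -, hc⟩ := aff_bd n.toPN w y
  set N : ℕ := Fintype.card n.I * (s + 1) with hN
  set T : ℝ := ∑ g ∈ Θ, PN.nm0 (PN.aff w y g) with hT
  have T0 : 0 ≤ T := sum_nonneg fun _ _ => nm0_nonneg _
  set W : ℝ := C * (1 + (T + c * N) + T) ^ s * (c * N) with hW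
  refine ⟨⌈W / r⌉₊ + 1, by omega, fun g hg => ?_⟩
  set q : ℕ := ⌈W / r⌉₊ + 1 with hq
  have q1 : (1 : ℝ) ≤ q := by exact_mod_cast (by omega : 1 ≤ q)
  have q2 : W / r ≤ q := (Nat.le_ceil _).trans (by exact_mod_cast (by omega : ⌈W / r⌉₊ ≤ q))
  obtain ⟨d, hd, hdg⟩ := n.round_ex (q := q) (by omega) g
  refine ⟨d, hd, ?_⟩
  have h1 : dc (PN.aff w y d) (PN.aff w y g) ≤ c * N * (q : ℝ)⁻¹ := by
    rw [mul_assoc]
    exact (hc d g).trans (mul_le_mul_of_nonneg_left (dc_le d g fun a j _ => hdg a j) c0)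
  have h2 : PN.nm0 (PN.aff w y g) ≤ T :=
    single_le_sum (f := fun g => PN.nm0 (PN.aff w y g)) (fun _ _ => nm0_nonneg _) hg
  have h3 : c * N * (q : ℝ)⁻¹ ≤ c * N :=
    mul_le_of_le_one_right (by positivity) (inv_le_one_of_one_le₀ q1)
  have h4 := nm0_le_dc (PN.aff w y d) (PN.aff w y g)
  have h5 := nm0_nonneg (PN.aff w y d)
  have h6 := nm0_nonneg (PN.aff w y g)
  have h7 := dc_nonneg (PN.aff w y d) (PN.aff w y g)
  unfold PN.ln
  rw [map_mul, map_inv]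
  refine (ln0_le _).trans ((hB _ _).trans ?_)
  generalize PN.nm0 (PN.aff w y d) = u at *
  generalize PN.nm0 (PN.aff w y g) = v at *
  generalize dc (PN.aff w y d) (PN.aff w y g) = t at *
  have h8 : 1 + u + v ≤ 1 + (T + c * N) + T := by linarith
  have h9 : 0 ≤ 1 + u + v := by linarith
  calc _ ≤ C * (1 + (T + c * N) + T) ^ s * (c * N * (q : ℝ)⁻¹) :=
        mul_le_mul (mul_le_mul_of_nonneg_left (pow_le_pow_left₀ h9 h8 _) C0) h1 h7
          (mul_nonneg C0 (pow_nonneg (h9.trans h8) _))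
    _ = W / q := by rw [hW]; ring
    _ ≤ r := by
        rw [div_le_iff₀ hr] at q2
        rw [div_le_iff₀ (by linarith)]
        linarith

/-- finer lattices for the gauge `S * ln w y` -/
theorem fine {C : ℝ} {e : ℕ} (C0 : 0 ≤ C) (hB : Bil n.toPN C) (hG : Gro n.toPN C e) {S w : ℝ}
    (hS : 0 < S) (hw : w ≠ 0) (y : ℝ) {r : ℝ} (hr : 0 < r) (Θ : Finset n.Ph) :
    ∃ L : Subgroup n.Ph, n.Lam 1 ≤ L ∧ (∀ R : ℝ, {d | d ∈ L ∧ S * PN.ln w y d ≤ R}.Finite) ∧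
      ∀ g ∈ Θ, ∃ d ∈ L, S * PN.ln w y (d * g⁻¹) ≤ r := by
  obtain ⟨q, hq, h⟩ := n.dense_ln C0 hB w y (div_pos hr hS) Θ
  refine ⟨n.LamQ 1 q, n.lam_le_lamQ 1 hq, fun R => (n.fin_ln C0 hG hq hw y (R / S)).subset
    fun d hd => ⟨hd.1, (le_div_iff₀' hS).2 hd.2⟩, fun g hg => ?_⟩
  obtain ⟨d, hd, h'⟩ := h g hg
  exact ⟨d, hd, (le_div_iff₀' hS).1 h'⟩

end NS

end Pool.Agent.Lib.MP_028aa5_nt.N
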