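import Pool.Agent.Lib.MP_028aa5_nt.N.StW
import Pool.Agent.Lib.MP_028aa5_nt.N.Bil
import Pool.Agent.Lib.MP_028aa5_nt.N.Cov

/-! The pigeonhole principle for phases that are similar to one phase. -/

namespace Pool.Agent.Lib.MP_028aa5_nt.N

open Finset Polynomial
open scoped Classical

namespace Pig

variable {s : ℕ} {n : NS s}

/-- congruent rational phases differ by an integral phase -/
theorem cong {Q : ℕ} (hQ : 1 ≤ Q) {g h : n.Ph} (hg : g ∈ n.LamQ 1 Q) (hh : h ∈ n.LamQ 1 Q)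
    (H : ∀ a j, ∃ z : ℤ, PN.co h a j - PN.co g a j = (Q : ℝ) ^ s * ((Q : ℝ) ^ n.wt a)⁻¹ * z) :
    g⁻¹ * h ∈ n.Lam 1 := by
  have hq : (Q : ℝ) ≠ 0 := by positivity
  let S : n.I → AddSubgroup ℝ[X] := fun c => polz 1 ((Q : ℝ) ^ n.wt c)⁻¹
  let S' : n.I → AddSubgroup ℝ[X] := fun c => polz 1 ((Q : ℝ) ^ s * ((Q : ℝ) ^ n.wt c)⁻¹)
  have hS : ∀ u v c, n.k u v c ≠ 0 → ∀ x ∈ S u, ∀ y ∈ S' v, x * y ∈ S' c := fun u v c k0 x hx y hy =>
    polz_mul _ (by rw [mul_left_comm, inv_pow_mul (n.fil u v c k0) (n.w1 u), mul_assoc]) hx hy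
  have hx : ∀ c, (g⁻¹).1 c ∈ S c := (n.LamQ 1 Q).inv_mem hg
  have hy : ∀ c, h.1 c ∈ S c := hh
  have hs : ∀ c, ((g⁻¹).1 + h.1) c ∈ S' c := fun c j => by
    obtain ⟨z, hz⟩ := H c j
    refine ⟨z, ?_⟩
    rw [one_pow, one_mul, ← hz, PN.add_apply, coeff_add]
    change (-g.1 c).coeff j + PN.co h c j = _
    rw [coeff_neg]
    exact neg_add_eq_sub _ _
  have h0 := n.br_fam S S' S' hS hx hs
  have e : n.br (g⁻¹).1 ((g⁻¹).1 + h.1) = n.br (g⁻¹).1 h.1 := by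
    have := n.br_self (g⁻¹).1
    funext c
    have h1 := congrFun this c
    simp only [PN.br, PN.add_apply, mul_add, sum_add_distrib] at h1 ⊢
    rw [h1]
    exact zero_add _
  rw [e] at h0
  refine n.mem_LamQ.2 fun c j => ?_
  have h2 := (S' c).add_mem (n.mul_sub_fam S S' hS hx hy h0 c) (hs c)
  rw [PN.add_apply, sub_add_cancel] at h2
  obtain ⟨z, hz⟩ := h2 j
  obtain ⟨d, hd⟩ := Nat.exists_eq_add_of_le (n.ws c)
  refine ⟨Q ^ d * z, hz.trans ?_⟩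
  have e2 : (Q : ℝ) ^ s = Q ^ n.wt c * Q ^ d := by rw [← pow_add, ← hd]
  rw [e2]
  push_cast
  field_simp
  simp

/-- finitely many classes of rational phases modulo the integral phases -/
theorem classes (n : NS s) {Q : ℕ} (hQ : 1 ≤ Q) : ∃ L : ℕ, ∀ (ι : Type) (B : Finset ι)
    (c : ι → n.Ph), (∀ i ∈ B, c i ∈ n.LamQ 1 Q) → L < #B →
    ∃ i ∈ B, ∃ j ∈ B, i ≠ j ∧ (c i)⁻¹ * c j ∈ n.Lam 1 := by
  let T : Finset (n.I × Fin (s + 1) → ℤ) := Fintype.piFinset fun _ => Ico 0 ((Q : ℤ) ^ s)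
  refine ⟨#T, fun ι B c hc hL => ?_⟩
  have q0 : (0 : ℤ) < (Q : ℤ) ^ s := by positivity
  have : ∀ i, ∃ z : n.I → ℕ → ℤ, i ∈ B → ∀ a j, PN.co (c i) a j = ((Q : ℝ) ^ n.wt a)⁻¹ * z a j := by
    intro i
    by_cases hi : i ∈ B
    · choose z hz using n.mem_LamQ.1 (hc i hi)
      exact ⟨z, fun _ a j => by rw [hz, one_pow, one_mul]⟩
    · exact ⟨0, fun h => absurd h hi⟩
  choose z hz using this
  obtain ⟨i, hi, j, hj, hij, e⟩ := exists_ne_map_eq_of_card_lt_of_maps_to hL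
    (f := fun i (u : n.I × Fin (s + 1)) => z i u.1 u.2 % (Q : ℤ) ^ s) fun i _ =>
      Fintype.mem_piFinset.2 fun u => mem_Ico.2 ⟨Int.emod_nonneg _ q0.ne', Int.emod_lt_of_pos _ q0⟩
  refine ⟨i, hi, j, hj, hij, cong hQ (hc i hi) (hc j hj) fun a m => ?_⟩
  by_cases hm : m < s + 1
  · obtain ⟨u, hu⟩ := Int.ModEq.dvd (congrFun e (a, ⟨m, hm⟩))
    refine ⟨u, ?_⟩
    have hu' : (z j a m : ℝ) - z i a m = Q ^ s * u := by exact_mod_cast hu
    rw [hz i hi, hz j hj]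
    linear_combination ((Q : ℝ) ^ n.wt a)⁻¹ * hu'
  · have h0 : ∀ g : n.Ph, PN.co g a m = 0 := fun g =>
      coeff_eq_zero_of_natDegree_lt (by have := Cov.deg_le g a; omega)
    exact ⟨0, by simp [h0]⟩

end Pig

theorem st_Pig : PigSt := by
  intro s n Q W ρ hQ hρ
  obtain ⟨L, hL⟩ := Pig.classes n hQ
  set D : ℕ := Fintype.card n.I * (s + 1) with hD
  have c1 := PN.one_le_cB (n := n.toPN)
  have W0 := abs_nonneg W
  set V : ℝ := n.cB * (1 + |W| + |W|) ^ s with hV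
  have V0 : 0 < V := by positivity
  have η0 : 0 < ρ / (V * (D + 1)) := by positivity
  refine ⟨⌈(2 * |W| / (ρ / (V * (D + 1))) + 3) ^ D * L⌉₊, fun N y ι A g h hg hM => ?_⟩
  have : ∀ i, ∃ p : n.Ph × n.Ph, i ∈ A →
      PN.nm N y p.1 ≤ W ∧ p.2 ∈ n.LamQ 1 Q ∧ g i = p.1 * h * p.2 := by
    intro i
    by_cases hi : i ∈ A
    · obtain ⟨ε, γ, h⟩ := hg i hi
      exact ⟨(ε, γ), fun _ => h⟩
    · exact ⟨1, fun h => absurd h hi⟩
  choose p hp using this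
  by_contra hc
  have hv : ∀ i ∈ A, PN.nm0 (PN.aff N y (p i).1) ≤ |W| := fun i hi =>
    (hp i hi).1.trans (le_abs_self W)
  have := Cov.cube n.toPN A (fun i => PN.aff N y (p i).1) η0 W0 hv (L := L) fun B hBA hB => by
    by_contra hB'
    obtain ⟨i, hi, j, hj, hij, hl⟩ := hL ι B (fun i => (p i).2) (fun i hi => (hp i (hBA hi)).2.1)
      (by exact_mod_cast not_le.1 hB')
    refine hc ⟨i, hBA hi, j, hBA hj, hij, _, hl, ?_⟩
    have e : g i * (((p i).2)⁻¹ * (p j).2) * (g j)⁻¹ = (p i).1 * ((p j).1)⁻¹ := by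
      rw [(hp i (hBA hi)).2.2, (hp j (hBA hj)).2.2]
      group
    rw [e, PN.nm, map_mul, map_inv]
    refine (PN.nm0_mul_inv _ _).trans ?_
    have h1 := hv i (hBA hi)
    have h2 := hv j (hBA hj)
    have h3 := PN.nm0_nonneg (PN.aff N y (p i).1)
    have h4 := PN.nm0_nonneg (PN.aff N y (p j).1)
    calc _ ≤ V * ((D + 1) * (ρ / (V * (D + 1)))) := by
          refine mul_le_mul (by rw [hV]; gcongr) ((hB i hi j hj).trans ?_) (Cov.dc_nonneg _ _) V0.le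
          gcongr
          exact le_add_of_nonneg_right zero_le_one
      _ = ρ := by field_simp
  exact absurd (this.trans (Nat.le_ceil _)) (not_le.2 (by exact_mod_cast hM))

end Pool.Agent.Lib.MP_028aa5_nt.N
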