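import Pool.Agent.Lib.MP_028aa5_nt.N.Defs
import Pool.Agent.Lib.MP_028aa5_nt.T.Seed

/-! A phase with many nearly equal dilates is near a rational phase. -/

namespace Pool.Agent.Lib.MP_028aa5_nt.N

open Finset Polynomial
open scoped Classical

namespace Seed

variable {s : ℕ}

section lead

variable {n : PN s} {R : Type} [CommRing R] [Algebra ℚ R]

theorem lead {w : ℕ} {x y : n.G R} (h : (∀ a, n.wt a < w → x a = 0) ∨ ∀ a, n.wt a < w → y a = 0)
    {c : n.I} (hc : n.wt c ≤ w) : (x * y) c = x c + y c := by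
  have k1 : ∀ u v : n.G R, ∀ c, n.wt c ≤ w →
      ((∀ a, n.wt a < w → u a = 0) ∨ ∀ a, n.wt a < w → v a = 0) → n.br u v c = 0 := by
    intro u v c hc h
    refine sum_eq_zero fun a _ => sum_eq_zero fun b _ => ?_
    by_cases k0 : n.k a b c = 0
    · simp [k0]
    · have := n.fil a b c k0
      have := n.w1 a
      have := n.w1 b
      rcases h with h | h
      · simp [h a (by omega)]
      · simp [h b (by omega)]
  have := n.mul_sub_mem (Submodule.pi {c | n.wt c ≤ w} fun _ => (⊥ : Submodule ℚ R)) (x := x)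
    (y := y) (fun c hc => k1 x y c hc h)
    (fun u hu c hc => k1 x u c hc (Or.inr fun a ha => hu a ha.le))
    (fun u hu c hc => k1 y u c hc (Or.inr fun a ha => hu a ha.le)) c hc
  have e : (x * y - (x + y)) c = 0 := this
  simpa [sub_eq_zero] using e

end lead

variable {n : PN s}

theorem aff_val (α β : ℝ) (g : n.Ph) (a : n.I) :
    (PN.aff α β g).1 a = (g.1 a).comp (C α * X + C β) := rfl

theorem aff_aff (α β α' β' : ℝ) (g : n.Ph) :
    PN.aff α β (PN.aff α' β' g) = PN.aff (α' * α) (α' * β + β') g := by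
  refine Subtype.ext (funext fun a => ?_)
  rw [aff_val, aff_val, aff_val, comp_assoc]
  congr 1
  simp only [add_comp, mul_comp, C_comp, X_comp, map_mul, map_add]
  ring

theorem dil_dil (a b : ℝ) (g : n.Ph) : PN.dil a (PN.dil b g) = PN.dil (b * a) g := by
  simp [PN.dil, aff_aff]

theorem dil_one (g : n.Ph) : PN.dil 1 g = g := by
  refine Subtype.ext (funext fun a => ?_)
  simp [PN.dil, aff_val]

theorem co_dil (t : ℝ) (g : n.Ph) (a : n.I) (j : ℕ) :
    PN.co (PN.dil t g) a j = t ^ j * PN.co g a j := by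
  rw [PN.co, PN.dil, aff_val, map_zero, add_zero, comp_C_mul_X_coeff, mul_comm, PN.co]

theorem co_inv (g : n.Ph) (a : n.I) (j : ℕ) : PN.co g⁻¹ a j = -PN.co g a j := by
  simp [PN.co, PN.inv_def]

theorem nm0_inv (g : n.Ph) : PN.nm0 g⁻¹ = PN.nm0 g := by simp [PN.nm0, co_inv]

theorem nm0_nonneg (g : n.Ph) : 0 ≤ PN.nm0 g :=
  sum_nonneg fun _ _ => sum_nonneg fun _ _ => abs_nonneg _

theorem co_le (g : n.Ph) (a : n.I) {j : ℕ} (hj : j ≤ s) : |PN.co g a j| ≤ PN.nm0 g :=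
  (single_le_sum (f := fun j => |PN.co g a j|) (fun _ _ => abs_nonneg _)
    (mem_range.2 (Nat.lt_succ_of_le hj))).trans
    (single_le_sum (f := fun a => ∑ j ∈ range (s + 1), |PN.co g a j|)
      (fun _ _ => sum_nonneg fun _ _ => abs_nonneg _) (mem_univ a))

theorem l1_lin (α β : ℝ) (q : ℝ[X]) (m : ℕ) :
    ∑ j ∈ range (m + 1), |(q * (C α * X + C β)).coeff j| ≤
      (|α| + |β|) * ∑ j ∈ range (m + 1), |q.coeff j| := by
  have e : q * (C α * X + C β) = C α * (q * X) + C β * q := by ring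
  have h1 : ∑ j ∈ range (m + 1), |(q * X).coeff j| ≤ ∑ j ∈ range (m + 1), |q.coeff j| := by
    rw [sum_range_succ', sum_range_succ]
    simp [coeff_mul_X]
  calc _ ≤ ∑ j ∈ range (m + 1), (|α| * |(q * X).coeff j| + |β| * |q.coeff j|) := by
        refine sum_le_sum fun j _ => ?_
        rw [e, coeff_add, coeff_C_mul, coeff_C_mul, ← abs_mul, ← abs_mul]
        exact abs_add_le _ _
    _ ≤ _ := by
        rw [sum_add_distrib, ← mul_sum, ← mul_sum, add_mul]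
        gcongr

theorem l1_pow (α β : ℝ) (m i : ℕ) :
    ∑ j ∈ range (m + 1), |((C α * X + C β) ^ i).coeff j| ≤ (|α| + |β|) ^ i := by
  induction i with
  | zero =>
    rw [sum_range_succ']
    simp [coeff_one]
  | succ i ih =>
    rw [pow_succ, pow_succ']
    exact (l1_lin α β _ m).trans (by gcongr)

theorem nm0_aff {α β U : ℝ} (h : |α| + |β| ≤ U) (h1 : 1 ≤ U) (g : n.Ph) :
    PN.nm0 (PN.aff α β g) ≤ U ^ s * PN.nm0 g := by
  rw [PN.nm0, PN.nm0, mul_sum]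
  refine sum_le_sum fun a _ => ?_
  have hd : (g.1 a).natDegree < s + 1 :=
    Nat.lt_succ_of_le ((n.mem_P.1 g.2 a).trans (n.ws a))
  have e : ∀ j, PN.co (PN.aff α β g) a j =
      ∑ i ∈ range (s + 1), PN.co g a i * ((C α * X + C β) ^ i).coeff j := by
    intro j
    rw [PN.co, aff_val, comp_eq_sum_left, sum_over_range' _ (by simp) _ hd, finsetSum_coeff]
    simp only [coeff_C_mul, PN.co]
  calc _ ≤ ∑ j ∈ range (s + 1), ∑ i ∈ range (s + 1),
        |PN.co g a i| * |((C α * X + C β) ^ i).coeff j| := by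
        refine sum_le_sum fun j _ => ?_
        rw [e]
        exact (abs_sum_le_sum_abs _ _).trans_eq (sum_congr rfl fun i _ => abs_mul _ _)
    _ ≤ _ := by
        rw [sum_comm, mul_sum]
        refine sum_le_sum fun i hi => ?_
        rw [← mul_sum, mul_comm]
        gcongr
        calc _ ≤ (|α| + |β|) ^ i := l1_pow α β s i
          _ ≤ U ^ i := by gcongr
          _ ≤ U ^ s := pow_le_pow_right₀ h1 (Nat.lt_succ_iff.1 (mem_range.1 hi))

theorem nm0_dil {t U : ℝ} (h : |t| ≤ U) (h1 : 1 ≤ U) (g : n.Ph) :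
    PN.nm0 (PN.dil t g) ≤ U ^ s * PN.nm0 g := nm0_aff (by simpa using h) h1 g

theorem mem_Lam {n : NS s} {c : ℝ} {g : n.Ph} :
    g ∈ n.Lam c ↔ ∀ a j, ∃ z : ℤ, PN.co g a j = c ^ j * z := by
  refine forall_congr' fun a => forall_congr' fun j => exists_congr fun z => ?_
  simp [PN.co]

theorem dil_Lam {n : NS s} {c : ℝ} {g : n.Ph} (t : ℝ) (h : g ∈ n.Lam c) :
    PN.dil t g ∈ n.Lam (t * c) := mem_Lam.2 fun a j => by
  obtain ⟨z, hz⟩ := mem_Lam.1 h a j
  exact ⟨z, by rw [co_dil, hz, mul_pow, mul_assoc]⟩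

theorem Lam_mul {n : NS s} {c : ℝ} {g : n.Ph} (t : ℕ) (h : g ∈ n.Lam (t * c)) : g ∈ n.Lam c :=
  mem_Lam.2 fun a j => by
    obtain ⟨z, hz⟩ := mem_Lam.1 h a j
    exact ⟨t ^ j * z, by rw [hz]; push_cast; ring⟩

theorem Lam_div {n : NS s} {c : ℝ} {g : n.Ph} {t : ℕ} (ht : 1 ≤ t) (h : g ∈ n.Lam c) :
    g ∈ n.Lam (c / t) := Lam_mul t (by
  have : (t : ℝ) ≠ 0 := by positivity
  rwa [mul_div_cancel₀ _ this])

/-- one coefficient -/
theorem coef {Z U θ : ℝ} {b Wd j : ℕ} {A : Finset ℕ} (hZ : 0 < Z) (hU : 2 ≤ U) (h1 : 1 ≤ Wd)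
    (h2 : (Wd : ℝ) ≤ U) (hj : j ≤ s) (hA : s + 1 ≤ #A) (hd : ∀ a ∈ A, ∀ a' ∈ A, (a : ℤ) - a' ≤ Wd)
    (h : ∀ a ∈ A, ∃ z : ℤ, |(a : ℝ) ^ j * θ + Z ^ j * z - b ^ j * θ| ≤ U) :
    ∃ (V : ℕ) (z : ℤ), 1 ≤ V ∧ V ≤ Wd ^ s ^ 2 ∧ (j = 0 → V = 1) ∧
      |θ - Z ^ j * z / V| ≤ U ^ ((s + 1) * s + 1) := by
  have hU1 : 1 ≤ U := by linarith
  rcases Nat.eq_zero_or_pos j with rfl | hj0
  · refine ⟨1, round θ, le_rfl, Nat.one_le_pow _ _ h1, fun _ => rfl, ?_⟩
    have := abs_sub_round θ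
    have : 1 ≤ U ^ ((s + 1) * s + 1) := one_le_pow₀ hU1
    simp only [pow_zero, one_mul, Nat.cast_one, div_one]
    linarith
  obtain ⟨B, hB, hc⟩ := exists_subset_card_eq (show j + 1 ≤ #A by omega)
  have hZj : 0 < Z ^ j := by positivity
  obtain ⟨V, hV1, hV2, z, hz⟩ := T.st_Int j Wd (X ^ j - C ((b : ℤ) ^ j))
    (B.image fun a : ℕ => (a : ℤ)) (θ / Z ^ j) (U / Z ^ j) (monic_X_pow_sub_C _ hj0.ne')
    natDegree_X_pow_sub_C (by rw [card_image_of_injective _ Nat.cast_injective, hc]) h1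
    (by
      simp only [mem_image]
      rintro _ ⟨a, ha, rfl⟩ _ ⟨a', ha', rfl⟩
      have := hd a (hB ha) a' (hB ha')
      have := hd a' (hB ha') a (hB ha)
      rw [abs_le]
      constructor <;> linarith)
    (by
      simp only [mem_image]
      rintro _ ⟨a, ha, rfl⟩
      obtain ⟨z, hz⟩ := h a (hB ha)
      refine ⟨-z, ?_⟩
      rw [le_div_iff₀ hZj, ← abs_of_pos hZj, ← abs_mul, abs_of_pos hZj]
      refine le_trans (le_of_eq ?_) hz
      congr 1
      simp only [eval_sub, eval_pow, eval_X, eval_C]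
      push_cast
      field_simp
      ring)
  refine ⟨V, z, hV1, hV2.trans (Nat.pow_le_pow_right h1 (Nat.pow_le_pow_left hj 2)),
    fun h => absurd h hj0.ne', ?_⟩
  have hV : (1 : ℝ) ≤ V := by exact_mod_cast hV1
  have e : θ - Z ^ j * z / V = (V * (θ / Z ^ j) - z) * (Z ^ j / V) := by
    field_simp
  rw [e, abs_mul, abs_of_pos (show 0 < Z ^ j / V by positivity)]
  calc _ ≤ (2 * Wd ^ j) ^ j * (U / Z ^ j) * (Z ^ j / 1) := by gcongr
    _ = (2 * Wd ^ j) ^ j * U := by field_simp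
    _ ≤ (U * U ^ s) ^ s * U := by
        gcongr
        calc ((2 : ℝ) * Wd ^ j) ^ j ≤ (U * U ^ s) ^ j := by
              gcongr
              exact (pow_le_pow_left₀ (by positivity) h2 j).trans (pow_le_pow_right₀ hU1 hj)
          _ ≤ _ := pow_le_pow_right₀ (one_le_mul_of_one_le_of_one_le hU1 (one_le_pow₀ hU1)) hj
    _ = _ := by rw [← pow_succ', ← pow_mul, ← pow_succ]

theorem nm0_mul {Cm U : ℝ} (hm : ∀ g h : n.Ph, PN.nm0 (g * h) ≤ Cm * (1 + PN.nm0 g + PN.nm0 h) ^ s)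
    (hU : 2 ≤ U) (hC : Cm ≤ U) {d : ℕ} {g h : n.Ph} (hg : PN.nm0 g ≤ U ^ d)
    (hh : PN.nm0 h ≤ U ^ d) : PN.nm0 (g * h) ≤ U ^ ((d + 2) * s + 1) := by
  have h1 : 1 ≤ U ^ d := one_le_pow₀ (by linarith)
  have := nm0_nonneg g
  have := nm0_nonneg h
  refine (hm g h).trans ?_
  rw [pow_succ', pow_mul]
  gcongr
  calc _ ≤ U ^ d * 2 ^ 2 := by linarith
    _ ≤ U ^ d * U ^ 2 := by gcongr
    _ = _ := (pow_add _ _ _).symm

/-- one level -/
theorem level (n : NS s) {Z U : ℝ} {b Wd w : ℕ} {A : Finset ℕ} {g : n.Ph} (hZ : 0 < Z)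
    (hU : 2 ≤ U) (hI : ((s + 1) * Fintype.card n.I : ℕ) ≤ U) (h1 : 1 ≤ Wd) (h2 : (Wd : ℝ) ≤ U)
    (hA : s + 1 ≤ #A) (hd : ∀ a ∈ A, ∀ a' ∈ A, (a : ℤ) - a' ≤ Wd)
    (h : ∀ a ∈ A, ∃ l ∈ n.Lam Z, PN.nm0 (PN.dil a g * l * (PN.dil b g)⁻¹) ≤ U)
    (hg : ∀ c, n.wt c < w → g.1 c = 0) :
    ∃ (Q : ℕ) (γ τ : n.Ph), 1 ≤ Q ∧ Q ≤ Wd ^ (s ^ 2 * ((s + 1) * Fintype.card n.I)) ∧
      γ ∈ n.Lam (Z / Q) ∧ PN.nm0 τ ≤ U ^ ((s + 1) * s + 2) ∧
      ∀ c, n.wt c < w + 1 → (τ⁻¹ * g * γ⁻¹).1 c = 0 := by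
  have key : ∀ c : n.I, ∀ j : ℕ, ∃ (V : ℕ) (z : ℤ), 1 ≤ V ∧ V ≤ Wd ^ s ^ 2 ∧ (j = 0 → V = 1) ∧
      (n.wt c = w → j ≤ s → |PN.co g c j - Z ^ j * z / V| ≤ U ^ ((s + 1) * s + 1)) := by
    intro c j
    by_cases hc : n.wt c = w ∧ j ≤ s
    · obtain ⟨V, z, a1, a2, a3, a4⟩ := coef (θ := PN.co g c j) (b := b) hZ hU h1 h2 hc.2 hA hd
        fun a ha => by
          obtain ⟨l, hl, hn⟩ := h a ha
          obtain ⟨z, hz⟩ := mem_Lam.1 hl c j
          refine ⟨z, le_trans (le_of_eq ?_) ((co_le _ c hc.2).trans hn)⟩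
          have e : (PN.dil a g * l * (PN.dil b g)⁻¹).1 c =
              (PN.dil a g).1 c + l.1 c + ((PN.dil b g)⁻¹).1 c := by
            rw [Subgroup.coe_mul, Subgroup.coe_mul, lead (w := w) (Or.inr fun u hu => ?_) hc.1.le,
              lead (w := w) (Or.inl fun u hu => ?_) hc.1.le]
            · simp [PN.dil, aff_val, hg u hu]
            · simp [PN.dil, aff_val, hg u hu, PN.inv_def]
          have e' : PN.co (PN.dil a g * l * (PN.dil b g)⁻¹) c j =
              PN.co (PN.dil a g) c j + PN.co l c j + PN.co (PN.dil b g)⁻¹ c j := by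
            simp only [PN.co, ← coeff_add, e]
          rw [e', co_inv, co_dil, co_dil, hz, sub_eq_add_neg]
      exact ⟨V, z, a1, a2, a3, fun _ _ => a4⟩
    · exact ⟨1, 0, le_rfl, Nat.one_le_pow _ _ h1, fun _ => rfl, fun a b => absurd ⟨a, b⟩ hc⟩
  choose V z hV1 hV2 hV0 hz using key
  set Q := ∏ c, ∏ j ∈ range (s + 1), V c j with hQ
  have hQ1 : 1 ≤ Q := one_le_prod' fun c _ => one_le_prod' fun j _ => hV1 c j
  let p : n.I → ℝ[X] := fun c => ∑ j ∈ range (n.wt c + 1), monomial j (Z ^ j * z c j / V c j)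
  have pc : ∀ c j, (p c).coeff j = if j ≤ n.wt c then Z ^ j * z c j / V c j else 0 := by
    intro c j
    simp [p, coeff_monomial, Nat.lt_succ_iff]
  have pd : ∀ c, (p c).natDegree ≤ n.wt c := fun c =>
    natDegree_le_iff_coeff_eq_zero.2 fun j hj => by rw [pc, if_neg (by omega)]
  let γ : n.Ph := ⟨fun c => if n.wt c = w then p c else 0, n.mem_P.2 fun c => by
    split_ifs
    · exact pd c
    · simp⟩
  let τ : n.Ph := ⟨fun c => if n.wt c = w then g.1 c - p c else 0, n.mem_P.2 fun c => by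
    split_ifs
    · exact (natDegree_sub_le _ _).trans (max_le (n.mem_P.1 g.2 c) (pd c))
    · simp⟩
  have gv : ∀ c, γ.1 c = if n.wt c = w then p c else 0 := fun _ => rfl
  have tv : ∀ c, τ.1 c = if n.wt c = w then g.1 c - p c else 0 := fun _ => rfl
  refine ⟨Q, γ, τ, hQ1, ?_, mem_Lam.2 fun c j => ?_, ?_, fun c hc => ?_⟩
  · calc Q ≤ ∏ _c : n.I, ∏ _j ∈ range (s + 1), Wd ^ s ^ 2 :=
          prod_le_prod' fun c _ => prod_le_prod' fun j _ => hV2 c j
      _ = _ := by simp only [prod_const, card_range, card_univ, ← pow_mul, mul_assoc]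
  · rw [PN.co, gv]
    split_ifs with hc
    · rw [pc]
      split_ifs with hj
      · have hv : V c j ∣ Q ^ j := by
          rcases Nat.eq_zero_or_pos j with rfl | hj0
          · simp [hV0 c 0 rfl]
          · refine Dvd.dvd.trans ?_ (dvd_pow_self Q hj0.ne')
            exact (dvd_prod_of_mem (V c) (mem_range.2 (Nat.lt_succ_of_le (hj.trans (n.ws c))))).trans
              (dvd_prod_of_mem (fun c => ∏ j ∈ range (s + 1), V c j) (mem_univ c))
        obtain ⟨m, hm⟩ := hv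
        refine ⟨m * z c j, ?_⟩
        have e : (Q : ℝ) ^ j = V c j * m := by exact_mod_cast hm
        have h3 : (Q : ℝ) ^ j ≠ 0 := by positivity
        have h4 : (V c j : ℝ) ≠ 0 := by have := hV1 c j; positivity
        rw [div_pow]
        push_cast
        field_simp
        rw [e]
        ring
      · exact ⟨0, by simp⟩
    · exact ⟨0, by simp⟩
  · have hU0 : 0 ≤ U ^ ((s + 1) * s + 1) := by positivity
    calc PN.nm0 τ ≤ ∑ _c : n.I, ∑ _j ∈ range (s + 1), U ^ ((s + 1) * s + 1) := by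
          refine sum_le_sum fun c _ => sum_le_sum fun j hj => ?_
          rw [PN.co, tv]
          split_ifs with hc
          · rw [coeff_sub, pc]
            split_ifs with hj'
            · exact hz c j hc (Nat.lt_succ_iff.1 (mem_range.1 hj))
            · rw [coeff_eq_zero_of_natDegree_lt ((n.mem_P.1 g.2 c).trans_lt (by omega))]
              simpa using hU0
          · simpa using hU0
      _ = ((s + 1) * Fintype.card n.I : ℕ) * U ^ ((s + 1) * s + 1) := by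
          simp only [sum_const, card_range, card_univ, nsmul_eq_mul]
          push_cast
          ring
      _ ≤ U * U ^ ((s + 1) * s + 1) := by gcongr
      _ = _ := (pow_succ' _ _).symm
  · rw [Subgroup.coe_mul, Subgroup.coe_mul,
      lead (w := w) (Or.inr fun u hu => ?_) (Nat.lt_succ_iff.1 hc),
      lead (w := w) (Or.inr hg) (Nat.lt_succ_iff.1 hc)]
    · simp only [Subgroup.coe_inv, PN.inv_def, PN.neg_apply, gv, tv]
      split_ifs with h'
      · ring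
      · simp [hg c (by omega)]
    · simp only [Subgroup.coe_inv, PN.inv_def, PN.neg_apply, gv]
      rw [if_neg hu.ne, neg_zero]

theorem core (n : NS s) {Cm : ℝ}
    (hm : ∀ g h : n.Ph, PN.nm0 (g * h) ≤ Cm * (1 + PN.nm0 g + PN.nm0 h) ^ s) (m : ℕ) :
    ∃ D : ℕ, ∀ (Z U : ℝ) (b Wd : ℕ) (A : Finset ℕ) (g : n.Ph), 0 < Z → 2 ≤ U → Cm ≤ U →
      ((s + 1) * Fintype.card n.I : ℕ) ≤ U → 1 ≤ Wd → (Wd : ℝ) ≤ U → (b : ℝ) ≤ U → s + 1 ≤ #A →
      (∀ a ∈ A, ∀ a' ∈ A, (a : ℤ) - a' ≤ Wd) →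
      (∀ a ∈ A, (a : ℝ) ≤ U ∧ ∃ l ∈ n.Lam Z, PN.nm0 (PN.dil a g * l * (PN.dil b g)⁻¹) ≤ U) →
      (∀ c, n.wt c < s + 1 - m → g.1 c = 0) →
      ∃ (Q : ℕ) (γ : n.Ph), 1 ≤ Q ∧ Q ≤ Wd ^ D ∧ γ ∈ n.Lam (Z / Q) ∧ PN.nm0 (g * γ⁻¹) ≤ U ^ D := by
  induction m with
  | zero =>
    refine ⟨0, fun Z U b Wd A g _ _ _ _ _ _ _ _ _ _ hg => ⟨1, 1, le_rfl, by simp, one_mem _, ?_⟩⟩
    have : PN.nm0 g = 0 := sum_eq_zero fun c _ => sum_eq_zero fun j _ => by
      simp [PN.co, hg c (Nat.lt_succ_of_le (n.ws c))]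
    simp [this]
  | succ m ih =>
    obtain ⟨D, hD⟩ := ih
    set d0 := (s + 1) * s + 2 with hd0
    set d1 := ((s + d0 + 2) * s + 1 + (s + d0) + 2) * s + 1 with hd1
    refine ⟨s ^ 2 * ((s + 1) * Fintype.card n.I) + D + ((d1 * D + d0 + 2) * s + 1),
      fun Z U b Wd A g hZ hU hC hI h1 h2 hb hA hd h hg => ?_⟩
    have hU1 : 1 ≤ U := by linarith
    have pw : ∀ {i j : ℕ}, i ≤ j → U ^ i ≤ U ^ j := fun h => pow_le_pow_right₀ hU1 h
    have hUU : U ≤ U ^ d1 := le_self_pow₀ hU1 (by omega)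
    obtain ⟨Q, γ, τ, hQ1, hQ, hγ, hτ, hz⟩ :=
      level n hZ hU hI h1 h2 hA hd (fun a ha => (h a ha).2) hg
    have dτ : ∀ t : ℕ, (t : ℝ) ≤ U → PN.nm0 (PN.dil t τ) ≤ U ^ (s + d0) := fun t ht => by
      rw [pow_add]
      exact (nm0_dil (by rwa [Nat.abs_cast]) hU1 τ).trans (by gcongr)
    obtain ⟨Q', γ', hQ1', hQ', hγ', hn⟩ := hD (Z / Q) (U ^ d1) b Wd A (τ⁻¹ * g * γ⁻¹)
      (by positivity) (hU.trans hUU) (hC.trans hUU) (hI.trans hUU) h1 (h2.trans hUU)
      (hb.trans hUU) hA hd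
      (fun a ha => ⟨(h a ha).1.trans hUU, by
        obtain ⟨ha', l, hl, hn⟩ := h a ha
        refine ⟨PN.dil a γ * l * (PN.dil b γ)⁻¹, mul_mem (mul_mem (Lam_mul a (dil_Lam _ hγ))
          (Lam_div hQ1 hl)) (inv_mem (Lam_mul b (dil_Lam _ hγ))), ?_⟩
        have e : PN.dil a (τ⁻¹ * g * γ⁻¹) * (PN.dil a γ * l * (PN.dil b γ)⁻¹) *
            (PN.dil b (τ⁻¹ * g * γ⁻¹))⁻¹ =
            (PN.dil a τ)⁻¹ * (PN.dil a g * l * (PN.dil b g)⁻¹) * PN.dil b τ := by
          simp only [map_mul, map_inv]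
          group
        rw [e]
        refine nm0_mul hm hU hC ((nm0_mul hm hU hC (d := s + d0) ?_ ?_).trans (pw (by omega)))
          ((dτ b hb).trans (pw (by omega)))
        · rw [nm0_inv]
          exact dτ a ha'
        · exact hn.trans (le_self_pow₀ hU1 (by omega))⟩)
      (fun c hc => hz c (by omega))
    refine ⟨Q * Q', γ' * γ, Nat.mul_pos hQ1 hQ1', ?_, ?_, ?_⟩
    · calc Q * Q' ≤ Wd ^ (s ^ 2 * ((s + 1) * Fintype.card n.I)) * Wd ^ D := Nat.mul_le_mul hQ hQ'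
        _ ≤ _ := by
          rw [← pow_add]
          exact Nat.pow_le_pow_right h1 (by omega)
    · rw [Nat.cast_mul, ← div_div]
      exact mul_mem hγ' (Lam_div hQ1' hγ)
    · have e : g * (γ' * γ)⁻¹ = τ * (τ⁻¹ * g * γ⁻¹ * γ'⁻¹) := by group
      rw [e]
      rw [← pow_mul] at hn
      exact (nm0_mul hm hU hC (d := d1 * D + d0) (hτ.trans (pw (by omega)))
        (hn.trans (pw (by omega)))).trans (pw (by omega))

end Seed

open Seed in
/-- a phase with many nearly equal dilates is near a rational phase -/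
theorem NS.seed {s : ℕ} (n : NS s) {Cm : ℝ}
    (hm : ∀ g h : n.Ph, PN.nm0 (g * h) ≤ Cm * (1 + PN.nm0 g + PN.nm0 h) ^ s) :
    ∃ D : ℕ, ∀ (κ y r B : ℝ) (b Wd : ℕ) (A : Finset ℕ) (g : n.Ph), 0 < κ → κ ≤ 1 → 0 < y → 0 ≤ r →
      1 ≤ Wd → 0 < b → b ≤ B → D ≤ #A → (∀ a ∈ A, ∀ a' ∈ A, (a : ℤ) - a' ≤ Wd) →
      (∀ a ∈ A, 0 < a ∧ |Real.log a - Real.log b| ≤ 1 ∧ ∃ l ∈ n.Lam 1,
        PN.nm (κ * (y / b)) (y / b) (PN.dil a g * l * (PN.dil b g)⁻¹) ≤ r) →
      ∃ (Q : ℕ) (γ : n.Ph), 1 ≤ Q ∧ Q ≤ Wd ^ D ∧ γ ∈ n.Lam (1 / Q) ∧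
        PN.nm (κ * y) y (g * γ⁻¹) ≤ (D * (1 + r) * Wd * B / κ) ^ D := by
  obtain ⟨D, hD⟩ := Seed.core n hm (s + 1)
  obtain ⟨E, hE⟩ : ∃ E : ℕ, E = ⌈Cm⌉₊ + (s + 1) * Fintype.card n.I + 3 + D + (s + (s + 1) * D + 1) :=
    ⟨_, rfl⟩
  refine ⟨E, fun κ y r B b Wd A g hκ hκ1 hy hr h1 hb hB hA hd h => ?_⟩
  have hb1 : (1 : ℝ) ≤ b := by exact_mod_cast hb
  have hW1 : (1 : ℝ) ≤ Wd := by exact_mod_cast h1
  have hE3 : (3 : ℝ) ≤ E := by exact_mod_cast (show 3 ≤ E by omega)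
  have hB1 : 1 ≤ B := hb1.trans hB
  have hk : 1 ≤ 1 / κ := one_le_one_div hκ hκ1
  set W := E * (1 + r) * Wd * B / κ with hW
  have key : ∀ e u v x k : ℝ, 0 ≤ e → e ≤ E → 0 ≤ u → u ≤ 1 + r → 0 ≤ v → v ≤ Wd → 0 ≤ x → x ≤ B →
      0 ≤ k → k ≤ 1 / κ → e * u * v * x * k ≤ W := by
    intro e u v x k _ _ _ _ _ _ _ _ _ _
    rw [hW, div_eq_mul_one_div]
    gcongr
  have hr1 : 1 ≤ 1 + r := by linarith
  have hWE : (E : ℝ) ≤ W := by
    simpa using key E 1 1 1 1 (by positivity) le_rfl one_pos.le hr1 one_pos.le hW1 one_pos.le hB1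
      one_pos.le hk
  have hW3 : 3 * B ≤ W := by
    simpa using key 3 1 1 B 1 (by positivity) hE3 one_pos.le hr1 one_pos.le hW1 (by positivity)
      le_rfl one_pos.le hk
  have hWd : (Wd : ℝ) ≤ W := by
    simpa using key 1 1 Wd 1 1 one_pos.le (by linarith) one_pos.le hr1 (by positivity) le_rfl
      one_pos.le hB1 one_pos.le hk
  have hWr : r ≤ W := by
    simpa using key 1 r 1 1 1 one_pos.le (by linarith) hr (by linarith) one_pos.le hW1
      one_pos.le hB1 one_pos.le hk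
  have hWk : 2 * (1 / κ) ≤ W := by
    simpa using key 2 1 1 1 (1 / κ) (by positivity) (by linarith) one_pos.le hr1 one_pos.le hW1
      one_pos.le hB1 (by positivity) le_rfl
  have hW0 : 1 ≤ W := by linarith
  have hUU : W ≤ W ^ (s + 1) := le_self_pow₀ hW0 (by omega)
  have hZ : 0 < y / b := by positivity
  obtain ⟨Q, γ, hQ1, hQ, hγ, hn⟩ := hD (y / b) (W ^ (s + 1)) b Wd A (PN.dil (y / b) g) hZ
    (by linarith)
    (by
      have : (⌈Cm⌉₊ : ℝ) ≤ E := by exact_mod_cast (show ⌈Cm⌉₊ ≤ E by omega)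
      linarith [Nat.le_ceil Cm])
    (by
      have : (((s + 1) * Fintype.card n.I : ℕ) : ℝ) ≤ E := by
        exact_mod_cast (show (s + 1) * Fintype.card n.I ≤ E by omega)
      linarith)
    h1 (hWd.trans hUU) (by linarith) (by omega) hd
    (fun a ha => by
      obtain ⟨ha0, hl, l, hl1, hn⟩ := h a ha
      have ha1 : (0 : ℝ) < a := by exact_mod_cast ha0
      constructor
      · have : (a : ℝ) ≤ b * 3 := by
          calc (a : ℝ) = Real.exp (Real.log a) := (Real.exp_log ha1).symm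
            _ ≤ Real.exp (Real.log b + 1) := by
                gcongr
                linarith [(abs_le.1 hl).2]
            _ ≤ b * 3 := by
                rw [Real.exp_add, Real.exp_log (by linarith)]
                gcongr
                linarith [Real.exp_one_lt_d9]
        linarith
      · refine ⟨PN.dil (y / b) l, by simpa using dil_Lam (y / b) hl1, ?_⟩
        have e : PN.dil a (PN.dil (y / b) g) * PN.dil (y / b) l * (PN.dil b (PN.dil (y / b) g))⁻¹ =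
            PN.aff (1 / κ) (-(1 / κ)) (PN.aff (κ * (y / b)) (y / b)
              (PN.dil a g * l * (PN.dil b g)⁻¹)) := by
          rw [aff_aff, show κ * (y / b) * (1 / κ) = y / b by field_simp,
            show κ * (y / b) * -(1 / κ) + y / b = 0 by field_simp; ring]
          change _ = PN.dil (y / b) _
          simp only [map_mul, map_inv, dil_dil, mul_comm (y / b)]
        rw [e, pow_succ]
        refine (nm0_aff ?_ hW0 _).trans (mul_le_mul_of_nonneg_left (hn.trans hWr) (by positivity))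
        rw [abs_neg, abs_of_pos (by positivity)]
        linarith)
    (fun c hc => absurd hc (by omega))
  refine ⟨Q, PN.dil (b / y) γ, hQ1, hQ.trans (Nat.pow_le_pow_right h1 (by omega)), ?_, ?_⟩
  · have := dil_Lam (b / y) hγ
    rwa [show b / y * (y / b / Q) = 1 / Q by field_simp] at this
  · have e : PN.aff (κ * y) y (g * (PN.dil (b / y) γ)⁻¹) =
        PN.aff (κ * b) b (PN.dil (y / b) g * γ⁻¹) := by
      have e1 : PN.dil (y / b) g * γ⁻¹ = PN.dil (y / b) (g * (PN.dil (b / y) γ)⁻¹) := by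
        rw [map_mul, map_inv, dil_dil, show b / y * (y / b) = 1 by field_simp, dil_one]
      rw [e1]
      generalize g * (PN.dil (b / y) γ)⁻¹ = u
      rw [PN.dil, aff_aff, show y / b * (κ * b) = κ * y by field_simp,
        show y / b * b + 0 = y by field_simp; ring]
    rw [PN.nm, e]
    refine (nm0_aff (U := W) ?_ hW0 _).trans ?_
    · rw [abs_of_pos (by positivity), Nat.abs_cast]
      nlinarith
    · rw [← pow_mul] at hn
      calc _ ≤ W ^ s * W ^ ((s + 1) * D) := by gcongr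
        _ ≤ _ := by
          rw [← pow_add]
          exact pow_le_pow_right₀ hW0 (by omega)

end Pool.Agent.Lib.MP_028aa5_nt.N
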