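import Pool.Agent.Lib.MP_028aa5_nt.N.StW
import Pool.Agent.Lib.MP_028aa5_nt.N.Seed

/-! The large sieve for nilsequences from the study of pairs and the pigeonhole principle. -/

namespace Pool.Agent.Lib.MP_028aa5_nt.N

open Finset
open scoped Classical ComplexConjugate

namespace W2F

variable {s : ℕ}

theorem deg {n : PN s} {Ξ : Finset (ℕ × (n.I → ℤ))} {M N N' : ℝ} {g : n.Ph} (h0 : 0 < N)
    (h1 : N ≤ N') (h : PN.Deg Ξ M N' g) : PN.Deg Ξ |M| N g := by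
  obtain ⟨u, hu, h⟩ := h
  refine ⟨u, hu, h.mono ?_⟩
  have : 0 < N' := h0.trans_le h1
  calc M / N' ^ u.1 ≤ |M| / N' ^ u.1 := by gcongr; exact le_abs_self M
    _ ≤ _ := by gcongr

theorem sim {n : NS s} {M N N' y a : ℝ} {Q : ℕ} {g h : n.Ph} (h0 : 1 ≤ N) (h1 : N ≤ N')
    (h2 : |y - a| ≤ 1) (H : n.Sim M Q N' a g h) : n.Sim (2 ^ s * M) Q N y g h := by
  obtain ⟨ε, γ, e1, e2, e3⟩ := H
  refine ⟨ε, γ, ?_, e2, e3⟩
  have p : 0 < N' := by linarith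
  have e : PN.aff N y ε = PN.aff (N / N') ((y - a) / N') (PN.aff N' a ε) := by
    rw [Seed.aff_aff]
    congr 2 <;> field_simp
    ring
  have b1 : |N / N'| ≤ 1 := by
    rw [abs_of_nonneg (by positivity)]
    exact div_le_one_of_le₀ h1 p.le
  have b2 : |(y - a) / N'| ≤ 1 := by
    rw [abs_div, abs_of_pos p]
    exact div_le_one_of_le₀ (by linarith) p.le
  rw [PN.nm, e]
  exact (Seed.nm0_aff (U := 2) (by linarith) one_le_two _).trans
    (mul_le_mul_of_nonneg_left e1 (by positivity))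

theorem few {ι : Type} (I : Finset ℕ) (A : Finset ι) (f : ℕ → ℂ) (v : ι → ℕ → ℂ) {η N N' : ℝ}
    {C : ℕ} (hη : 0 < η) (h0 : 0 < N) (h2 : N' ≤ 2 * N) (hI : (#I : ℝ) ≤ N')
    (hf : ∀ m, ‖f m‖ ≤ 1) (hv : ∀ i m, ‖v i m‖ ≤ 1)
    (hA : ∀ i ∈ A, η * N ≤ ‖∑ m ∈ I, f m * v i m‖)
    (hC : ∀ j ∈ A, #{i ∈ A | η ^ 2 / 8 * N' ≤ ‖∑ m ∈ I, v i m * conj (v j m)‖} ≤ C) :
    (#A : ℝ) ≤ 8 * C / η ^ 2 := by
  have p : 0 ≤ N' := (Nat.cast_nonneg _).trans hI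
  have hrow : ∀ j ∈ A, ∑ i ∈ A, ‖∑ m ∈ I, v j m * conj (v i m)‖ ≤
      C * N' + #A * (η ^ 2 / 8 * N') := by
    intro j hj
    have e1 : ∀ i, ‖∑ m ∈ I, v j m * conj (v i m)‖ = ‖∑ m ∈ I, v i m * conj (v j m)‖ := fun i => by
      rw [← Complex.norm_conj, map_sum]
      simp only [map_mul, Complex.conj_conj, mul_comm]
    simp only [e1]
    rw [← sum_filter_add_sum_filter_not A
      fun i => η ^ 2 / 8 * N' ≤ ‖∑ m ∈ I, v i m * conj (v j m)‖]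
    refine add_le_add ?_ ?_
    · refine (sum_le_card_nsmul _ _ N' fun i _ => ?_).trans ?_
      · refine (norm_sum_le _ _).trans ((sum_le_card_nsmul _ _ 1 fun m _ => ?_).trans ?_)
        · rw [norm_mul, Complex.norm_conj]
          exact mul_le_one₀ (hv i m) (norm_nonneg _) (hv j m)
        · simpa using hI
      · rw [nsmul_eq_mul]
        exact mul_le_mul_of_nonneg_right (by exact_mod_cast hC j hj) p
    · refine (sum_le_card_nsmul _ _ (η ^ 2 / 8 * N') fun i hi =>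
        (not_le.1 (mem_filter.1 hi).2).le).trans ?_
      rw [nsmul_eq_mul]
      exact mul_le_mul_of_nonneg_right (by exact_mod_cast card_filter_le _ _) (by positivity)
  have hb := bessel I A f v hrow (by positivity)
  have a1 : ∑ m ∈ I, ‖f m‖ ^ 2 ≤ N' := by
    refine (sum_le_card_nsmul _ _ 1 fun m _ => pow_le_one₀ (norm_nonneg _) (hf m)).trans ?_
    simpa using hI
  have a2 : #A * (η * N) ^ 2 ≤ ∑ i ∈ A, ‖∑ m ∈ I, f m * v i m‖ ^ 2 := by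
    rw [← nsmul_eq_mul]
    exact card_nsmul_le_sum _ _ _ fun i hi => pow_le_pow_left₀ (by positivity) (hA i hi) 2
  have a3 := a2.trans (hb.trans (mul_le_mul_of_nonneg_left a1 (by positivity)))
  have a4 : (#A : ℝ) * η ^ 2 * N ^ 2 ≤ (4 * C + #A * η ^ 2 / 2) * N ^ 2 :=
    calc (#A : ℝ) * η ^ 2 * N ^ 2 = #A * (η * N) ^ 2 := by ring
      _ ≤ _ := a3
      _ = (C + #A * (η ^ 2 / 8)) * N' ^ 2 := by ring
      _ ≤ (C + #A * (η ^ 2 / 8)) * (2 * N) ^ 2 := by gcongr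
      _ = _ := by ring
  have a5 := le_of_mul_le_mul_right a4 (by positivity)
  rw [le_div_iff₀ (by positivity)]
  linarith

end W2F

theorem w2_of (hP : PairSt) (hG : PigSt) : W2St := by
  intro s n z L η ρ hz hη hρ
  obtain ⟨Ξ, S, M, Q, hΞ, hQ, hP⟩ := hP s n z L (η ^ 2 / 8) hz (by positivity)
  obtain ⟨Mp, hG⟩ := hG s n Q (2 ^ s * M) ρ hQ hρ
  refine ⟨⌈8 * ((#S * Mp : ℕ) : ℝ) / η ^ 2⌉₊, Ξ, |M|, max M 1, hΞ,
    fun F k hF hk hE f y N ι A g hf hy hN hA hM => ?_⟩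
  by_contra hcon
  obtain ⟨nd, np⟩ := not_or.1 hcon
  have n1 : 1 ≤ N := (le_max_right _ _).trans hN
  have n2 : N ≤ (⌈N⌉₊ : ℕ) := Nat.le_ceil N
  have n3 := Nat.ceil_lt_add_one (show 0 ≤ N by linarith)
  have y1 := Nat.floor_le hy
  have y2 := Nat.lt_floor_add_one y
  have hb : ⌊y + N⌋₊ ≤ ⌊y⌋₊ + ⌈N⌉₊ := by
    have h1 := Nat.floor_le (show 0 ≤ y + N by linarith)
    have h2 : (⌊y + N⌋₊ : ℝ) < (⌊y⌋₊ + ⌈N⌉₊ + 1 : ℕ) := by
      push_cast
      linarith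
    exact Nat.lt_succ_iff.1 (by exact_mod_cast h2)
  have := W2F.few (Ioc ⌊y⌋₊ ⌊y + N⌋₊) A f (fun i m => F (PN.ev m (g i))) (N' := (⌈N⌉₊ : ℕ))
    (C := #S * Mp) hη (by linarith) (by linarith)
    (by rw [Nat.card_Ioc]; exact_mod_cast (by omega)) hf (fun _ _ => hF.bd _) hA fun j hj => ?_
  · exact absurd (by exact_mod_cast this.trans (Nat.le_ceil _)) (not_le.2 hM)
  refine (card_le_card (t := S.biUnion fun σ =>
    {i ∈ A | n.Sim (2 ^ s * M) Q N y (g i) (σ.ph (g j))}) fun i hi => ?_).trans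
    (card_biUnion_le_card_mul _ _ _ fun σ _ => not_lt.1 fun h => np ?_)
  · obtain ⟨iA, hi⟩ := mem_filter.1 hi
    rcases hP F k hF hk hE (g i) (g j) _ _ _ hb (((le_max_left _ _).trans hN).trans n2) hi with
      h | h | ⟨σ, hσ, h⟩
    · exact absurd ⟨i, iA, W2F.deg (by linarith) n2 h⟩ nd
    · exact absurd ⟨j, hj, W2F.deg (by linarith) n2 h⟩ nd
    · exact mem_biUnion.2 ⟨σ, hσ, mem_filter.2 ⟨iA,
        W2F.sim n1 n2 (abs_le.2 ⟨by linarith, by linarith⟩) h⟩⟩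
  · obtain ⟨i, hi, i', hi', H⟩ := hG N y ι _ g _ (fun i hi => (mem_filter.1 hi).2) h
    exact ⟨i, (mem_filter.1 hi).1, i', (mem_filter.1 hi').1, H⟩

end Pool.Agent.Lib.MP_028aa5_nt.N
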