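import Pool.Agent.Lib.MP_028aa5_nt.N.Tree
import Pool.Agent.Lib.MP_028aa5_nt.N.Gou
import Pool.Agent.Lib.MP_028aa5_nt.N.Pig
import Pool.Agent.Lib.MP_028aa5_nt.N.Au
import Pool.Agent.Lib.MP_028aa5_nt.N.Piece
import Pool.Agent.Lib.MP_028aa5_nt.N.W2F
import Pool.Agent.Lib.MP_028aa5_nt.N.Fac

/-! The large sieve for nilsequences. -/

namespace Pool.Agent.Lib.MP_028aa5_nt.N

theorem st_W2 (hE : EqSt) : W2St :=
  w2_of (st_Pair hE st_Fac0 st_Gour (st_Piece st_Aux) st_Aux) st_Pig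

end Pool.Agent.Lib.MP_028aa5_nt.N
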