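import Pool.Agent.Lib.MP_028aa5_nt.N.AllA
import Pool.Agent.Lib.MP_028aa5_nt.N.Cor
import Pool.Agent.Lib.MP_028aa5_nt.N.Fac
import Pool.Agent.Lib.MP_028aa5_nt.N.W2

/-! All parts together. -/

namespace Pool.Agent.Lib.MP_028aa5_nt.N

theorem all_Main : MainSt := main_of st_Fac (st_W2 Box.all_Eq)

end Pool.Agent.Lib.MP_028aa5_nt.N
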