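import Pool.Agent.Lib.MP_028aa5_nt.N.StI
import Pool.Agent.Lib.MP_028aa5_nt.V.StL
import Pool.Agent.Lib.MP_028aa5_nt.V.StT
import Pool.Agent.Lib.MP_028aa5_nt.U.Main2

/-! No graph at the stable scale. -/

namespace Pool.Agent.Lib.MP_028aa5_nt.N

open Finset T U MainJ
open scoped Classical

theorem st_Core (hB : BasSt) (hV : VASt) (hF : FtSt) (hR : Reg2St) (hT : V.TowXSt)
    (hRe : V.RealSt) (hA : V.CoreASt) (hC : V.CoreBKSt) : CoreSt := by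
  intro D k0 K Qf okx
  refine ⟨2 * K ^ 3 + 1, by omega, fun η a hη hη1 ha => ?_⟩
  set k := 2 * K ^ 3 + 1 with hk
  obtain ⟨ε1, ε2, β, h1, h2, h3, hC⟩ := hC k (η / 2) a (by omega) (by positivity) (by linarith) ha
  obtain ⟨c, A1, hc, a1, hC⟩ := hC (Qf β) (okx.e.qf β)
  obtain ⟨er, r0, r1, r2⟩ : ∃ er : ℝ, 0 < er ∧ er ≤ η / 4 ∧ er ≤ ε2 / 3 :=
    ⟨min (η / 4) (ε2 / 3), by positivity, min_le_left _ _, min_le_right _ _⟩
  obtain ⟨ε0, c1, A2, e0, c10, a2, hA⟩ := hA k0 K Qf ε1 er β c h1 r0 h3 hc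
  obtain ⟨ε, f0, f1, f2⟩ : ∃ ε : ℝ, 0 < ε ∧ ε ≤ 1 / 64 ∧ ε ≤ ε0 / 64 :=
    ⟨min (1 / 64) (ε0 / 64), by positivity, min_le_left _ _, min_le_right _ _⟩
  obtain ⟨δ, d0, d1, d2⟩ : ∃ δ : ℝ, 0 < δ ∧ δ ≤ 1 ∧ 4 * D.Dm * δ ≤ er / 3 := by
    refine ⟨min 1 (er / (12 * (D.Dm + 1))), by positivity, min_le_left _ _, ?_⟩
    refine (mul_le_mul_of_nonneg_left (min_le_right _ _) (by positivity)).trans ?_
    rw [mul_div_assoc', div_le_div_iff₀ (by positivity) (by positivity)]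
    nlinarith
  obtain ⟨ρ, A3, p0, p1, a3, hT⟩ := hT D.toDS k ε δ c1 okx.ok okx.n.fine f0 f1 d0 c10
  refine ⟨ε, ε2 / 3, ρ, ⌈120 / er⌉₊, max A1 (max A2 A3), f0, by positivity, p0,
    le_max_of_le_left a1, fun G M C D0 hG hD0 => ?_⟩
  obtain ⟨X1, hA⟩ := hA C D0 hD0
  obtain ⟨X2, hC⟩ := hC C D0 hD0
  obtain ⟨X3, hT⟩ := hT G M C D0 hD0
  obtain ⟨X4, hb⟩ := hR.base C D0 (2 + 120 / er) hD0
  refine ⟨max (max X1 X2) (max X3 X4), fun X hX π i0 i1 B cL cU Nc N E φ pk pM pG hReg b0 b1 aB hI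
    hL hRay hRl cLU hNc y0 y1 y2 => ?_⟩
  simp only [ge_iff_le, max_le_iff] at hX
  obtain ⟨⟨x1, x2⟩, x3, x4⟩ := hX
  have q0 : 0 < 120 / er := by positivity
  obtain ⟨s1, s2, -, s4, -, -, -, -, s9⟩ := hb X x4 π _ (le_max_of_le_left a1) hReg
  have ok := hReg.ok
  have l1 : 1 ≤ Real.log X := by linarith
  have g1 := hR.mono π X _ A1 C D0 l1 (le_max_left _ _) hReg
  have g2 := hR.mono π X _ A2 C D0 l1 ((le_max_left _ _).trans (le_max_right _ _)) hReg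
  have g3 := hR.mono π X _ A3 C D0 l1 ((le_max_right _ _).trans (le_max_right _ _)) hReg
  have k1 := (hB.κ1_pos π ok).le
  have l2 : Real.log 4 ≤ 2 := by
    have := Real.log_two_lt_d9
    rw [show (4 : ℝ) = 2 ^ 2 by norm_num, Real.log_pow]
    push_cast
    linarith
  obtain ⟨R, hRX, N', E', φ', cls, yx, hO⟩ :=
    hT X x3 π N E φ cL cU Nc pk pG pM g3 hI hL hRay hRl.cu hRl.cl cLU (hNc.trans l2) y2
  have P1 : (1 : ℝ) ≤ π.P := by linarith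
  have P2 : 2 * π.P * π.P ≤ π.P ^ 9 := by
    have h : π.P ^ 3 ≤ π.P ^ 9 := pow_le_pow_right₀ P1 (by norm_num)
    nlinarith [mul_le_mul_of_nonneg_right (show 2 ≤ π.P by linarith) (mul_self_nonneg π.P)]
  have G1 : 120 / er ≤ (π.G : ℝ) := by
    rw [pG]
    exact (Nat.le_ceil _).trans (by exact_mod_cast hG)
  have hreal := hRe D Qf π (fw (SS i0 i1) B) η (ε2 / 3) δ _ _ _ π.P er cL cU Nc R N E φ N' E' φ' cls
    yx okx.ok okx.e ok hI (hF.fw_bd _ _) hRl cLU P1 (P2.trans y2) d1 (by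
      have u1 : 40 / (π.G : ℝ) ≤ er / 3 := by
        rw [div_le_iff₀ (q0.trans_le G1)]
        rw [div_le_iff₀ r0] at G1
        linarith
      have u2 : 40 / π.P ≤ er / 3 := by
        have G2 : 120 / er ≤ π.P := by linarith
        rw [div_le_iff₀ (by linarith)]
        rw [div_le_iff₀ r0] at G2
        linarith
      linarith) hO
  set π' := vA π (Fintype.card N'.W) with hπ'
  have eκ : π'.κ = π.κ := hV.κ π _
  have eL : π'.ps (cL * π.Nf) = π.ps cL := hV.ps' π _ cL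
  have eY : π'.yy (cL * π.Nf) = π.ps cL := (hV.ps π _ _).symm.trans eL
  have cLU' : cL * π.Nf ≤ cU * π.Nf := Nat.mul_le_mul_right _ cLU
  have hray : N'.Ray π'.ν E' (1 - ε0) := by
    obtain ⟨u, u0, u1⟩ := hO.ray
    exact ⟨u, u0, le_trans (mul_le_mul_of_nonneg_right (by linarith) u0.le) u1⟩
  have pk' : π'.k = k := pk
  obtain ⟨q, _, Φ, vU, vL, Gd, hq, hd, hK, hBl⟩ :=
    hA X x1 D π' (fw (SS i0 i1) B) N' E' φ' _ cls yx (η / 2 + er) (ε2 - er) R (cL * π.Nf)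
      (cU * π.Nf) (Nc * π.Nf) okx (by omega) rfl (hV.reg π _ X _ C D0 g2) (hF.fw_bd _ _) hO.is
      hO.lv hray (by rw [pk']; exact hRX) (by rw [eκ]; exact cimg' hO.num) (by rw [eκ]; exact hO.cla)
      hO.pos ⟨hreal.card, hreal.cu, hreal.cl, fun e he => (hreal.tk e he).trans (by linarith),
        fun e he => le_trans (by linarith) (hreal.big e he)⟩ cLU'
      (by rw [eL, eκ]; exact (pow_le_pow_right₀ P1 (by norm_num)).trans y2)
  rw [add_sub_cancel_right, sub_add_cancel] at hBl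
  rw [pk'] at hK
  refine hC X x2 π' i0 i1 B (cL * π.Nf) (cU * π.Nf) (Nc * π.Nf) _ q Φ vU vL Gd pk
    (hV.reg π _ X _ C D0 g1) b0 b1 aB cLU' ?_ (y0.trans_eq eY.symm)
    (eY.trans_le ((ps_mono k1 cLU).trans y1))
    (by rw [eY, eκ]; exact (le_self_pow₀ P1 (by norm_num)).trans y2) hq hd hK hBl
  rw [Nat.cast_mul, mul_assoc]
  exact hNc

end Pool.Agent.Lib.MP_028aa5_nt.N
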