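import Pool.Agent.Lib.MP_028aa5_nt.N.StI
import Pool.Agent.Lib.MP_028aa5_nt.N.Mov

/-! One more circle detects a residue class. -/

namespace Pool.Agent.Lib.MP_028aa5_nt.N

open Finset Polynomial
open scoped Classical

namespace Ext

variable {s : ℕ} {n n' : NS s} {R : Type} [CommRing R] [Algebra ℚ R]

theorem fst_mul (x y : (n.prod n').G R) : NS.fst (x * y) = NS.fst x * NS.fst y :=
  PN.map_mul_of (n := (n.prod n').toPN) (n' := n.toPN)
    { toFun := NS.fst, map_zero' := rfl, map_add' := fun _ _ => rfl } x y fun u v => by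
      funext c
      change ∑ a : n.I ⊕ n'.I, ∑ b : n.I ⊕ n'.I, ((NS.kP n n' a b (.inl c) : ℤ) : R) * (u a * v b) =
        ∑ a, ∑ b, (n.k a b c : R) * (u (.inl a) * v (.inl b))
      simp [Fintype.sum_sum_type, NS.kP]

theorem snd_mul (x y : (n.prod n').G R) : NS.snd (x * y) = NS.snd x * NS.snd y :=
  PN.map_mul_of (n := (n.prod n').toPN) (n' := n'.toPN)
    { toFun := NS.snd, map_zero' := rfl, map_add' := fun _ _ => rfl } x y fun u v => by
      funext c
      change ∑ a : n.I ⊕ n'.I, ∑ b : n.I ⊕ n'.I, ((NS.kP n n' a b (.inr c) : ℤ) : R) * (u a * v b) =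
        ∑ a, ∑ b, (n'.k a b c : R) * (u (.inr a) * v (.inr b))
      simp [Fintype.sum_sum_type, NS.kP]

theorem circ_mul {w : ℕ} {h1 : 1 ≤ w} {h2 : w ≤ s} (x y : (NS.circ s w h1 h2).G R) :
    x * y = x + y :=
  PN.mul_of_comm _ (funext fun c => by simp [PN.br, NS.circ])

variable (n) in
/-- the product with a circle of weight one -/
abbrev cyl (hs : 1 ≤ s) : NS s := n.prod (NS.circ s 1 le_rfl hs)

theorem inr_mul {hs : 1 ≤ s} (x y : (cyl n hs).G R) :
    (x * y) (.inr ()) = x (.inr ()) + y (.inr ()) := by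
  have := congrFun (snd_mul x y) ()
  rwa [circ_mul] at this

/-- a phase together with a linear phase -/
noncomputable def jj (hs : 1 ≤ s) (g : n.Ph) (α : ℝ) : (cyl n hs).Ph :=
  ⟨NS.pr g.1 fun _ => C α * X, (PN.mem_P _).2 <| by
    rintro (a | a)
    · exact n.mem_P.1 g.2 a
    · exact (natDegree_C_mul_le _ _).trans natDegree_X_le⟩

/-- a bump of width `1 / q` around the integers -/
noncomputable def bump (q x : ℝ) : ℝ := max 0 (1 - q * |x - round x|)

theorem rd_lip (x y : ℝ) : |x - round x| ≤ |y - round y| + |x - y| := by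
  refine (round_le x (round y)).trans ?_
  have := abs_add_le (y - round y) (x - y)
  rwa [show y - round y + (x - y) = x - round y by ring] at this

theorem bump_lip {q : ℝ} (hq : 0 ≤ q) (x y : ℝ) : |bump q x - bump q y| ≤ q * |x - y| := by
  rw [bump, bump, max_comm, max_comm 0]
  refine (abs_max_sub_max_le_abs _ _ _).trans (abs_le.2 ⟨?_, ?_⟩)
  · nlinarith [rd_lip x y]
  · have := rd_lip y x
    rw [abs_sub_comm y x] at this
    nlinarith

theorem bump_le {q : ℝ} (hq : 0 ≤ q) (x : ℝ) : |bump q x| ≤ 1 := by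
  rw [bump, abs_of_nonneg (le_max_left _ _)]
  exact max_le zero_le_one (sub_le_self _ (by positivity))

theorem bump_add (q x : ℝ) (z : ℤ) : bump q (x + z) = bump q x := by
  simp [bump, round_add_intCast]

theorem bump_val {q : ℕ} (hq : 1 ≤ q) (u r : ℕ) :
    bump q (u / q - r / q) = if u % q = r % q then 1 else 0 := by
  have q0 : (0 : ℝ) < q := by exact_mod_cast hq
  split_ifs with h
  · obtain ⟨z, hz⟩ := (Nat.modEq_iff_dvd.1 (show r ≡ u [MOD q] from h.symm))
    have e : (u : ℝ) / q - r / q = 0 + z := by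
      have : (u : ℝ) - r = q * z := by exact_mod_cast congrArg (fun x : ℤ => (x : ℝ)) hz
      field_simp
      linarith
    rw [e, bump_add]
    simp [bump]
  · refine max_eq_left (sub_nonpos.2 ?_)
    set z := round ((u : ℝ) / q - r / q)
    have e : (q : ℝ) * |(u : ℝ) / q - r / q - z| = |((u - r - q * z : ℤ) : ℝ)| := by
      rw [← abs_of_pos q0, ← abs_mul, abs_of_pos q0]
      congr 1
      push_cast
      field_simp
    rw [e]
    have : (u - r - q * z : ℤ) ≠ 0 := fun h0 =>
      h (Nat.modEq_iff_dvd.2 ⟨z, by linarith⟩ : r ≡ u [MOD q]).symm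
    exact_mod_cast Int.one_le_abs this

end Ext

open Ext in
theorem st_Ext : ExtSt := by
  intro s n hs
  refine ⟨cyl n hs, jj hs, fun g h α β => ?_, fun a g α => ?_, fun l hl z => ?_, fun N y g => ?_,
    fun q hq F L r hF => ?_⟩
  · refine Subtype.ext (funext ?_)
    rintro (c | c)
    · exact (congrFun (fst_mul (jj hs g α).1 (jj hs h β).1) c).symm
    · refine Eq.trans ?_ (inr_mul (jj hs g α).1 (jj hs h β).1).symm
      change C (α + β) * X = C α * X + C β * X
      rw [map_add, add_mul]
  · refine Subtype.ext (funext ?_)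
    rintro (c | c)
    · rfl
    · change (C α * X).comp (C a * X + C 0) = C (a * α) * X
      simp only [map_zero, add_zero, mul_comp, C_comp, X_comp, map_mul]
      ring
  · rintro (c | c)
    · exact hl c
    · intro j
      refine ⟨if j = 1 then z else 0, ?_⟩
      change (C (z : ℝ) * X).coeff j = _
      rw [coeff_C_mul_X]
      split_ifs <;> simp
  · change ∑ a : n.I ⊕ Unit, ∑ j ∈ range (s + 1), |PN.co (PN.aff N y (jj hs g 0)) a j| = _
    rw [Fintype.sum_sum_type, sum_eq_zero (s := univ) (f := fun a : Unit => _), add_zero]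
    · rfl
    · refine fun c _ => sum_eq_zero fun j _ => ?_
      change |((C (0 : ℝ) * X).comp (C N * X + C y)).coeff j| = 0
      simp
  · have q0 : (0 : ℝ) ≤ q := q.cast_nonneg
    refine ⟨fun x => F (NS.fst x) * bump q (x (.inr ()) - r / q), ⟨fun x => ?_, fun x γ hγ => ?_,
      fun u x => ?_⟩, fun g a m => ?_⟩
    · rw [norm_mul, Complex.norm_real]
      exact mul_le_one₀ (hF.bd _) (norm_nonneg _) (bump_le q0 _)
    · obtain ⟨z, hz⟩ := AddSubgroup.mem_zmultiples_iff.1 (hγ (.inr ()))
      have e : γ (.inr ()) = z := by simpa using hz.symm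
      simp only [fst_mul, inr_mul, e]
      rw [hF.inv _ (NS.fst γ) fun a => hγ (.inl a), add_sub_right_comm, bump_add]
    · simp only [fst_mul, inr_mul]
      have e : PN.nG u = PN.nG (NS.fst u) + |u (.inr ())| := by
        change ∑ a : n.I ⊕ Unit, |u a| = _
        rw [Fintype.sum_sum_type, Fintype.sum_unique (ι := Unit)]
        rfl
      have h0 : 0 ≤ PN.nG (NS.fst u) := sum_nonneg fun _ _ => abs_nonneg _
      have h1 := hF.lip (NS.fst u) (NS.fst x)
      have h2 := bump_lip q0 (u (.inr ()) + x (.inr ()) - r / q) (x (.inr ()) - r / q)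
      rw [sub_sub_sub_cancel_right, add_sub_cancel_right] at h2
      have h3 := bump_le q0 (u (.inr ()) + x (.inr ()) - r / q)
      have h4 := hF.bd (NS.fst x)
      set A := F (NS.fst u * NS.fst x)
      set B := F (NS.fst x)
      set b := bump q (u (.inr ()) + x (.inr ()) - r / q)
      set b' := bump q (x (.inr ()) - r / q)
      rw [show A * b - B * b' = (A - B) * b + B * ((b - b' : ℝ) : ℂ) by push_cast; ring, e]
      refine (norm_add_le _ _).trans ?_
      rw [norm_mul, norm_mul, Complex.norm_real, Complex.norm_real, Real.norm_eq_abs,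
        Real.norm_eq_abs]
      have h5 := mul_le_of_le_one_right (norm_nonneg (A - B)) h3
      have h6 := mul_le_of_le_one_left (abs_nonneg (b - b')) h4
      have h7 := mul_le_mul_of_nonneg_right (le_abs_self L) h0
      have h8 := mul_nonneg (abs_nonneg L) (abs_nonneg (u (.inr ())))
      have h9 := mul_nonneg q0 h0
      nlinarith
    · change F (PN.ev m g) * (bump q ((C ((a : ℝ) / q) * X).eval (m : ℝ) - r / q) : ℝ) = _
      have e : (C ((a : ℝ) / q) * X).eval (m : ℝ) = ((a * m : ℕ) : ℝ) / q := by simp; ring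
      rw [e, bump_val hq]
      split_ifs <;> simp

end Pool.Agent.Lib.MP_028aa5_nt.N
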