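import Pool.Agent.Lib.MP_028aa5_nt.V.KSt
import Pool.Agent.Lib.MP_028aa5_nt.T.Gq
import Pool.Agent.Lib.MP_028aa5_nt.T.Den

/-! Periodic sums and eigenfunctions of the units that are one modulo `c`. -/

namespace Pool.Agent.Lib.MP_028aa5_nt.N.GqJ

open Finset
open scoped Classical

/-- test functions for the units that are one modulo `c` -/
structure Ts (c q Q1 : ℕ) (r : ℕ → ℂ) : Prop where
  per : ∀ n, r (n + q) = r n
  bd : ∀ n, ‖r n‖ ≤ 1
  mul : ∀ b, Nat.Coprime b q → b ≡ 1 [MOD c] → ∃ w : ℂ, ‖w‖ = 1 ∧ ∀ n, r (b * n) = w * r n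
  zero : ∀ a, ∑ m ∈ range q with m % Q1 = a, r m = 0

/-- small correlation for all periods that are divisible enough -/
def OE (c Q1 : ℕ) (β : ℝ) (Φ : ℕ → ℂ) : Prop := ∃ q0 : ℕ, 1 ≤ q0 ∧ ∀ q : ℕ, 1 ≤ q → q0 ∣ q →
  ∀ r, Ts c q Q1 r → ‖∑ m ∈ range q, r m * Φ m‖ ≤ β * q

theorem per_mul {f : ℕ → ℂ} {q : ℕ} (h : ∀ m, f (m + q) = f m) (T m : ℕ) :
    f (m + q * T) = f m := by
  induction T with
  | zero => simp
  | succ T ih => rw [Nat.mul_succ, ← add_assoc, h, ih]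

theorem sum_mul_per {f : ℕ → ℂ} {q : ℕ} (h : ∀ m, f (m + q) = f m) (T : ℕ) :
    ∑ m ∈ range (q * T), f m = T * ∑ m ∈ range q, f m := by
  induction T with
  | zero => simp
  | succ T ih =>
    rw [Nat.mul_succ, sum_range_add, ih]
    simp only [add_comm (q * T), per_mul h]
    push_cast
    ring

theorem sum_Ioc {f : ℕ → ℂ} {N : ℕ} (h : f N = f 0) : ∑ m ∈ Ioc 0 N, f m = ∑ m ∈ range N, f m := by
  have a := sum_range_succ f N
  have b : ∑ m ∈ range (N + 1), f m = f 0 + ∑ m ∈ Ioc 0 N, f m := by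
    rw [range_eq_Ico, Ico_add_one_right_eq_Icc, ← add_sum_Ioc_eq_sum_Icc (Nat.zero_le N)]
  rw [b, h, add_comm] at a
  exact add_right_cancel a

theorem sum_perm {f : ℕ → ℂ} {q b : ℕ} (hq : 1 ≤ q) (h : ∀ m, f (m + q) = f m)
    (hb : Nat.Coprime b q) : ∑ m ∈ range q, f (b * m) = ∑ m ∈ range q, f m := by
  have inj : Set.InjOn (fun m => b * m % q) (range q : Finset ℕ) := fun m hm m' hm' e =>
    Nat.ModEq.eq_of_lt_of_lt (Nat.ModEq.cancel_left_of_coprime hb.symm e)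
      (mem_range.1 hm) (mem_range.1 hm')
  have im : (range q).image (fun m => b * m % q) = range q :=
    eq_of_subset_of_card_le (fun u hu => by
      obtain ⟨m, -, rfl⟩ := mem_image.1 hu
      exact mem_range.2 (Nat.mod_lt _ hq)) (by rw [card_image_of_injOn inj])
  conv_rhs => rw [← im, sum_image inj]
  refine sum_congr rfl fun m _ => ?_
  conv_lhs => rw [← Nat.mod_add_div (b * m) q, per_mul h]

theorem zero_cls {q Q1 : ℕ} (h1 : 1 ≤ Q1) {r : ℕ → ℂ}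
    (h : ∀ a, ∑ m ∈ range q with m % Q1 = a, r m = 0) (p : ℕ → Prop) [DecidablePred p]
    (hp : ∀ m, p m ↔ p (m % Q1)) : ∑ m ∈ range q with p m, r m = 0 := by
  rw [← sum_fiberwise_of_maps_to (t := range Q1) (g := fun m => m % Q1)
    fun m _ => mem_range.2 (Nat.mod_lt _ h1)]
  refine sum_eq_zero fun a _ => ?_
  by_cases k : p a
  · rw [← h a, filter_filter]
    exact sum_congr (filter_congr fun m _ => ⟨And.right, fun z => ⟨(hp m).2 (z ▸ k), z⟩⟩)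
      fun _ _ => rfl
  · refine sum_eq_zero fun m hm => ?_
    obtain ⟨a1, a2⟩ := mem_filter.1 hm
    exact absurd (a2 ▸ (hp m).1 (mem_filter.1 a1).2) k

theorem OE.mono {c Q Q' : ℕ} {β : ℝ} {Φ : ℕ → ℂ} (h : OE c Q β Φ) (hd : Q ∣ Q') (h1 : 1 ≤ Q') :
    OE c Q' β Φ :=
  h.imp fun _ k => ⟨k.1, fun q a b r t => k.2 q a b r ⟨t.per, t.bd, t.mul, fun u =>
    zero_cls h1 t.zero _ fun m => by rw [Nat.mod_mod_of_dvd _ hd]⟩⟩

theorem OE.orth {Q q : ℕ} {β : ℝ} {Φ : ℕ → ℂ} (h : OE 1 Q β Φ) (hq : 1 ≤ q) (hd : Q ∣ q)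
    (hp : ∀ m, Φ (m + q) = Φ m) : V.Orth q Q β Φ := fun r t => by
  obtain ⟨q0, a, b⟩ := h
  have := b (q * q0) (Nat.mul_pos hq a) (dvd_mul_left _ _) r
    ⟨per_mul t.per _, t.bd, fun b k _ => t.mul b (k.coprime_dvd_right (dvd_mul_right _ _)),
      fun u => by
        rw [sum_filter, sum_mul_per fun m => by
          obtain ⟨d, rfl⟩ := hd
          rw [t.per, Nat.add_mul_mod_self_left], ← sum_filter, t.zero, mul_zero]⟩
  rw [sum_mul_per fun m => by rw [t.per, hp], norm_mul, Complex.norm_natCast] at this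
  have q1 : (0 : ℝ) < q0 := Nat.cast_pos.2 a
  push_cast at this
  nlinarith

theorem OE.const (c : ℕ) {β : ℝ} (hβ : 0 < β) (w : ℂ) : OE c 1 β fun _ => w :=
  ⟨1, le_rfl, fun q _ _ r t => by
    have := t.zero 0
    rw [filter_true_of_mem fun m _ => Nat.mod_one m] at this
    rw [← sum_mul, this, zero_mul, norm_zero]
    positivity⟩

theorem OE.sum {c Q R : ℕ} {β δ : ℝ} {Φ : ℕ → ℂ} {w : ℕ → ℂ} {Ψ : ℕ → ℕ → ℂ}
    (hw : ∀ j, ‖w j‖ ≤ R) (ha : ∀ m, ‖Φ m - ∑ j ∈ range R, w j * Ψ j m‖ ≤ δ)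
    (h : ∀ j, OE c Q β (Ψ j)) : OE c Q (δ + R * (R * β)) Φ := by
  choose q0 a b using h
  refine ⟨∏ j ∈ range R, q0 j, Nat.succ_le_of_lt (prod_pos fun j _ => a j),
    fun q h1 h2 r t => ?_⟩
  have e : ∑ m ∈ range q, r m * Φ m = ∑ m ∈ range q, r m * (Φ m - ∑ j ∈ range R, w j * Ψ j m) +
      ∑ j ∈ range R, w j * ∑ m ∈ range q, r m * Ψ j m := by
    simp only [mul_sub, sum_sub_distrib, mul_sum]
    rw [sum_comm (s := range R)]
    simp only [mul_left_comm (w _), sub_add_cancel]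
  have k1 : ‖∑ m ∈ range q, r m * (Φ m - ∑ j ∈ range R, w j * Ψ j m)‖ ≤ q * δ := by
    refine (norm_sum_le _ _).trans ((sum_le_card_nsmul _ _ δ fun m _ => ?_).trans (by simp))
    rw [norm_mul]
    exact (mul_le_of_le_one_left (norm_nonneg _) (t.bd m)).trans (ha m)
  have k2 : ‖∑ j ∈ range R, w j * ∑ m ∈ range q, r m * Ψ j m‖ ≤ R * (R * (β * q)) := by
    refine (norm_sum_le _ _).trans ((sum_le_card_nsmul _ _ (R * (β * q)) fun j hj => ?_).trans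
      (by simp))
    rw [norm_mul]
    exact mul_le_mul (hw j) (b j q h1 ((dvd_prod_of_mem _ hj).trans h2) r t) (norm_nonneg _)
      (Nat.cast_nonneg _)
  rw [e]
  refine (norm_add_le _ _).trans ?_
  linarith

theorem OE.cls {c d Q : ℕ} {β : ℝ} {Φ : ℕ → ℂ} {Ψ : ℕ → ℕ → ℂ} (hd : 1 ≤ d) (hQ : 1 ≤ Q)
    (ha : ∀ m, Φ m = Ψ (m % d) m) (h : ∀ j, OE (c * d) Q β (Ψ j)) : OE c (Q * d) (d * β) Φ := by
  choose q0 a b using h
  refine ⟨d * ∏ j ∈ range d, q0 j, Nat.mul_pos hd (prod_pos fun j _ => a j),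
    fun q h1 h2 r t => ?_⟩
  have e : ∑ m ∈ range q, r m * Φ m =
      ∑ j ∈ range d, ∑ m ∈ range q, (if m % d = j then r m else 0) * Ψ j m := by
    rw [sum_comm]
    refine sum_congr rfl fun m _ => ?_
    rw [sum_eq_single (m % d) (fun j _ n => by rw [if_neg n.symm, zero_mul])
      fun n => absurd (mem_range.2 (Nat.mod_lt _ hd)) n, if_pos rfl, ha]
  rw [e]
  refine (norm_sum_le _ _).trans ((sum_le_card_nsmul _ _ (β * q) fun j hj => ?_).trans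
    (by simp [mul_assoc]))
  refine b j q h1 (((dvd_prod_of_mem _ hj).trans (dvd_mul_left _ _)).trans h2) _
    ⟨fun m => ?_, fun m => ?_, fun u u1 u2 => ?_, fun u => ?_⟩
  · obtain ⟨k, rfl⟩ := (dvd_mul_right _ _).trans h2
    rw [t.per, Nat.add_mul_mod_self_left]
  · split_ifs
    exacts [t.bd m, by simp]
  · obtain ⟨w, w1, w2⟩ := t.mul u u1 (u2.of_mul_right d)
    refine ⟨w, w1, fun m => ?_⟩
    have : u * m % d = m % d := by
      have := (u2.of_mul_left c).mul_right m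
      rwa [one_mul] at this
    rw [this, w2]
    split_ifs <;> simp
  · rw [← sum_filter, filter_filter]
    exact zero_cls (Nat.mul_pos hQ hd) t.zero _ fun m => by
      rw [Nat.mod_mod_of_dvd _ (dvd_mul_right Q d), Nat.mod_mod_of_dvd _ (dvd_mul_left d Q)]

theorem corr {c q Q1 b : ℕ} {r Φ : ℕ → ℂ} (hq : 1 ≤ q) (t : Ts c q Q1 r)
    (hp : ∀ m, Φ (m + q) = Φ m) (hb : Nat.Coprime b q) (h1 : b ≡ 1 [MOD c]) (T : ℕ) :
    ‖∑ m ∈ Ioc 0 (q * T), r m * Φ (b * m)‖ = T * ‖∑ m ∈ range q, r m * Φ m‖ := by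
  obtain ⟨w, w1, w2⟩ := t.mul b hb h1
  have p : ∀ m, r (m + q) * Φ (b * (m + q)) = r m * Φ (b * m) := fun m => by
    rw [t.per, mul_add, mul_comm b q, per_mul hp]
  rw [sum_Ioc (by simpa using per_mul (f := fun m => r m * Φ (b * m)) p T 0),
    sum_mul_per (f := fun m => r m * Φ (b * m)) p, norm_mul, Complex.norm_natCast,
    ← sum_perm (f := fun m => r m * Φ m) hq (fun m => by rw [t.per, hp]) hb]
  simp only [w2, mul_assoc, ← mul_sum, norm_mul, w1, one_mul]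

theorem exact_int {θ ε : ℝ} {P : ℕ} (hP : 1 ≤ P) (h : ∃ z : ℤ, P * θ = z) (hn : Nr θ ε)
    (hε : P * ε < 1) : ∃ z : ℤ, θ = z := by
  obtain ⟨z, hz⟩ := h
  obtain ⟨m, hm⟩ := hn
  have p0 : (0 : ℝ) < P := Nat.cast_pos.2 hP
  have a : |((z - P * m : ℤ) : ℝ)| < 1 := by
    push_cast
    rw [← hz, ← mul_sub, abs_mul, abs_of_pos p0]
    exact (mul_le_mul_of_nonneg_left hm p0.le).trans_lt hε
  have b : z - P * m = 0 := Int.abs_lt_one_iff.1 (by exact_mod_cast a)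
  refine ⟨m, mul_left_cancel₀ p0.ne' ?_⟩
  rw [hz, sub_eq_zero.1 b]
  push_cast
  rfl

theorem ex_den {θ : ℝ} {P : ℕ} (hP : 1 ≤ P) (h : ∃ z : ℤ, P * θ = z) :
    ∃ D : ℕ, 1 ≤ D ∧ ∀ B : ℤ, (∃ z : ℤ, B * θ = z) ↔ (D : ℤ) ∣ B := by
  obtain ⟨z, hz⟩ := h
  have p0 : (P : ℝ) ≠ 0 := (Nat.cast_pos.2 hP).ne'
  obtain ⟨ρ, rfl⟩ : ∃ ρ : ℚ, θ = ρ := ⟨z / P, by push_cast; rw [← hz]; field_simp⟩
  have e : (ρ.den : ℚ) * ρ = ρ.num := Rat.den_mul_eq_num ρ
  refine ⟨ρ.den, ρ.den_pos, fun B => ⟨fun ⟨u, hu⟩ => ?_, fun ⟨u, hu⟩ => ⟨u * ρ.num, ?_⟩⟩⟩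
  · have a : (B : ℚ) * ρ = u := by exact_mod_cast hu
    have b : B * ρ.num = ρ.den * u := by
      have : (B : ℚ) * ρ.num = ρ.den * u := by rw [← e, ← a]; ring
      exact_mod_cast this
    exact (Int.isCoprime_iff_gcd_eq_one.2 (by
      simpa [Int.gcd] using ρ.reduced.symm)).dvd_of_dvd_mul_right ⟨u, b⟩
  · have : (B : ℚ) * ρ = ((u * ρ.num : ℤ) : ℚ) := by
      rw [hu]; push_cast; rw [← e]; ring
    exact_mod_cast this

/-- many units with different powers -/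
theorem units (c M i : ℕ) (hc : 1 ≤ c) (hi : 1 ≤ i) : ∃ D0 : ℕ, ∀ D q : ℕ, D0 < D → 1 ≤ q →
    ∃ (A : Finset ℕ) (b : ℕ → ℕ), M < #A ∧ (∀ p ∈ A, (b p).Coprime q ∧ b p ≡ 1 [MOD c]) ∧
      ∀ p ∈ A, ∀ p' ∈ A, (D : ℤ) ∣ (b p : ℤ) ^ i - (b p' : ℤ) ^ i → p = p' := by
  have f0 : 0 < c.totient := Nat.totient_pos.2 hc
  obtain ⟨D0, h⟩ := T.Gq.primes T.st_Den (c.totient * i) 1 (M + 1 + (c + 1)) (Nat.mul_pos f0 hi)
  refine ⟨D0, fun D q hD hq => ?_⟩
  obtain ⟨z, S, s1, s2, s3⟩ := h D hD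
  have cp : ∀ p ∈ S.filter fun p => c < p, p.Coprime c := fun p hp =>
    (Nat.coprime_of_lt_prime (by omega) (mem_filter.1 hp).2 (s3 p (mem_filter.1 hp).1).1)
  have ex : ∀ p, ∃ b, p ∈ S.filter (fun p => c < p) →
      b.Coprime q ∧ b ≡ p ^ c.totient [MOD D * c] := fun p => by
    by_cases k : p ∈ S.filter fun p => c < p
    swap
    · exact ⟨0, fun z => absurd z k⟩
    obtain ⟨a1, -, a3⟩ := s3 p (mem_filter.1 k).1
    obtain ⟨b, b1, b2, b3⟩ := Nat.forall_exists_prime_gt_and_modEq q (q := D * c)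
      (a := p ^ c.totient) (Nat.mul_pos (by omega) hc).ne'
      (Nat.Coprime.pow_left _ (Nat.Coprime.mul_right ((Nat.Prime.coprime_iff_not_dvd a1).2 a3)
        (cp p k)))
    exact ⟨b, fun _ => ⟨Nat.coprime_of_lt_prime (by omega) b1 b2, b3⟩⟩
  choose b hb using ex
  refine ⟨S.filter fun p => c < p, b, ?_, fun p k => ⟨(hb p k).1,
    ((hb p k).2.of_mul_left D).trans (Nat.ModEq.pow_totient (cp p k))⟩, fun p k p' k' e => ?_⟩
  · have a := card_filter_add_card_filter_not (s := S) fun p => c < p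
    have : #(S.filter fun p => ¬ c < p) ≤ #(range (c + 1)) :=
      card_le_card fun p hp => mem_range.2 (by have := (mem_filter.1 hp).2; omega)
    rw [card_range] at this
    omega
  · have a : b p' ^ i ≡ b p ^ i [MOD D] := Nat.modEq_iff_dvd.2 (by exact_mod_cast e)
    have l : ∀ p ∈ S.filter fun p => c < p, (p ^ c.totient) ^ i < D := fun p k => by
      rw [← pow_mul]
      have := Nat.pow_le_pow_left (s3 p (mem_filter.1 k).1).2.1 (c.totient * i)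
      omega
    have := Nat.ModEq.eq_of_lt_of_lt ((((hb p k).2.of_mul_right c).pow i).symm.trans
      (a.symm.trans (((hb p' k').2.of_mul_right c).pow i))) (l p k) (l p' k')
    exact Nat.pow_left_injective f0.ne' (Nat.pow_left_injective (by omega : i ≠ 0) this)

end Pool.Agent.Lib.MP_028aa5_nt.N.GqJ
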