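import Pool.Agent.Lib.MP_028aa5_nt.N.StI
import Pool.Agent.Lib.MP_028aa5_nt.N.GqA

/-! Periodic nilsequences are orthogonal to eigenfunctions of the unit dilations. -/

namespace Pool.Agent.Lib.MP_028aa5_nt.N

open Finset
open scoped Classical

namespace GqJ

/-- the statement that is proved by induction on the total weight -/
def GG {s : ℕ} (n : NS s) : Prop := ∀ (L β : ℝ) (c : ℕ), 0 < β → 1 ≤ c → ∃ Q1 : ℕ, 1 ≤ Q1 ∧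
  ∀ F, n.Test F L → ∀ (Q : ℕ) (x : n.G ℝ) (γ : n.Ph), 1 ≤ Q → γ ∈ n.LamQ 1 Q →
    OE c Q1 β fun m => F (x * PN.ev m γ)

variable {s : ℕ} {n : NS s}

theorem per (hA : AuxSt) {F : n.G ℝ → ℂ} {L : ℝ} (hF : n.Test F L) {Q q : ℕ} (x : n.G ℝ)
    {γ : n.Ph} (hQ : 1 ≤ Q) (hγ : γ ∈ n.LamQ 1 Q) (hq : Q ^ s ∣ q) (m : ℕ) :
    F (x * PN.ev ((m + q : ℕ) : ℝ) γ) = F (x * PN.ev m γ) := by
  obtain ⟨j, rfl⟩ := hq
  obtain ⟨l, l1, l2⟩ := hA.per s n Q γ m j hQ hγ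
  rw [l2, ← mul_assoc, hF.inv _ l l1]

theorem sym_rat {i Q : ℕ} {ξ : n.I → ℤ} (hξ : PN.IsCh i ξ) {γ : n.Ph} (hQ : 1 ≤ Q)
    (hγ : γ ∈ n.LamQ 1 Q) : ∃ z : ℤ, ((Q ^ i : ℕ) : ℝ) * PN.sym ξ i γ = z := by
  have h : ∀ a j, ∃ z : ℤ, PN.co γ a j = 1 ^ j * ((Q : ℝ) ^ n.wt a)⁻¹ * z := hγ
  choose z hz using h
  refine ⟨∑ a, ξ a * z a i, ?_⟩
  rw [PN.sym, mul_sum]
  push_cast
  refine sum_congr rfl fun a _ => ?_
  by_cases k : ξ a = 0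
  · simp [k]
  · have : (Q : ℝ) ≠ 0 := (Nat.cast_pos.2 hQ).ne'
    rw [hz, hξ.wt a k, one_pow]
    field_simp

theorem fac (hF : FacSt) (ih : ∀ n' : NS s, n'.tw < n.tw → GG n') (L β : ℝ) (c : ℕ) (hβ : 0 < β)
    (hc : 1 ≤ c) {i : ℕ} {ξ : n.I → ℤ} (hξ : PN.IsCh i ξ) : ∃ Q1 : ℕ, 1 ≤ Q1 ∧
    ∀ F, n.Test F L → ∀ (Q : ℕ) (x : n.G ℝ) (γ : n.Ph), 1 ≤ Q → γ ∈ n.LamQ 1 Q →
      (∃ z : ℤ, PN.sym ξ i γ = z) → OE c Q1 β fun m => F (x * PN.ev m γ) := by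
  obtain ⟨n', φ, d, σ, d1, lt, f1, -, f3⟩ := hF s n i ξ hξ
  obtain ⟨C, hC⟩ := f1 1
  have d0 : (0 : ℝ) < d := Nat.cast_pos.2 d1
  obtain ⟨Q1, q1, h⟩ := ih n' lt (C * L) (β / d) (c * d) (by positivity) (Nat.mul_pos hc d1)
  refine ⟨Q1 * d, Nat.mul_pos q1 d1, fun F t Q x γ hQ hγ hz => ?_⟩
  obtain ⟨w, x', γ', Q', τ, w1, w2, w3, w4, w5⟩ := f3 Q x γ hQ hγ hz
  have := OE.cls (Φ := fun m => F (x * PN.ev m γ))
    (Ψ := fun j m => F (w * φ.app ℝ (x' * PN.ev m γ') * σ (τ j))) d1 q1 (fun m => by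
      obtain ⟨l, l1, l2⟩ := w5 m
      rw [l2, t.inv _ l l1, ← (w4 m).2])
    fun j => h _ (hC F L w (τ j) t w1) Q' x' γ' w2 w3
  rwa [mul_div_cancel₀ _ d0.ne'] at this

theorem eig (hF : FacSt) (hW : W2St) (hA : AuxSt) (ih : ∀ n' : NS s, n'.tw < n.tw → GG n')
    (L β : ℝ) (c : ℕ) (hβ : 0 < β) (hc : 1 ≤ c) (ne : Nonempty n.I) {z : n.I → ℤ}
    (hz : n.Cen1 z) : ∃ Q1 : ℕ, 1 ≤ Q1 ∧ ∀ F (k : ℤ), n.Test F L → k ≠ 0 →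
      PN.Eig F (PN.zv z) k → ∀ (Q : ℕ) (x : n.G ℝ) (γ : n.Ph), 1 ≤ Q → γ ∈ n.LamQ 1 Q →
      OE c Q1 β fun m => F (x * PN.ev m γ) := by
  obtain ⟨M, Ξ, M1, K0, hΞ, w⟩ := hW s n z L β 1 hz hβ one_pos
  obtain ⟨a0, -, ha⟩ := exists_min_image univ n.wt univ_nonempty
  have i1 := n.w1 a0
  have s1 : 1 ≤ s := i1.trans (n.ws a0)
  obtain ⟨D0, hD⟩ := units c M (n.wt a0) hc i1
  have ch : ∀ u : ℤ, u ≠ 0 → PN.IsCh (n := n.toPN) (n.wt a0) (Pi.single a0 u) := fun u hu =>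
    ⟨fun e => hu (by simpa using congrFun e a0), fun a k => by
      by_cases e : a = a0
      · rw [e]
      · exact absurd (by simp [e]) k, fun a b e => by
      have := ha a (mem_univ _)
      have := n.w1 b
      omega⟩
  have sy : ∀ (u : ℤ) (g : n.Ph), PN.sym (Pi.single a0 u) (n.wt a0) g =
      u * PN.sym (Pi.single a0 1) (n.wt a0) g := fun u g => by
    simp [PN.sym, Pi.single_apply]
  have hΞ' : ∀ u ∈ insert (n.wt a0, Pi.single a0 (D0.factorial : ℤ)) Ξ, PN.IsCh u.1 u.2 :=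
    fun u hu => by
      rcases mem_insert.1 hu with rfl | k
      exacts [ch _ (by exact_mod_cast D0.factorial_ne_zero), hΞ u k]
  have ex : ∀ u : ℕ × (n.I → ℤ), ∃ Q1 : ℕ, 1 ≤ Q1 ∧ (PN.IsCh u.1 u.2 →
      ∀ F, n.Test F L → ∀ (Q : ℕ) (x : n.G ℝ) (γ : n.Ph), 1 ≤ Q → γ ∈ n.LamQ 1 Q →
      (∃ z : ℤ, PN.sym u.2 u.1 γ = z) → OE c Q1 β fun m => F (x * PN.ev m γ)) := fun u => by
    by_cases k : PN.IsCh u.1 u.2
    · obtain ⟨Q1, a, b⟩ := fac hF ih L β c hβ hc k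
      exact ⟨Q1, a, fun _ => b⟩
    · exact ⟨1, le_rfl, fun y => absurd y k⟩
  choose q1 q2 q3 using ex
  have p1 : 1 ≤ ∏ u ∈ insert (n.wt a0, Pi.single a0 (D0.factorial : ℤ)) Ξ, q1 u :=
    Nat.succ_le_of_lt (prod_pos fun u _ => q2 u)
  refine ⟨_, p1, fun F k t k0 ek Q x γ hQ hγ => ?_⟩
  by_cases y : ∃ u ∈ insert (n.wt a0, Pi.single a0 (D0.factorial : ℤ)) Ξ,
      ∃ z : ℤ, PN.sym u.2 u.1 γ = z
  · obtain ⟨u, u1, u2⟩ := y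
    exact (q3 u (hΞ' u u1) F t Q x γ hQ hγ u2).mono (dvd_prod_of_mem _ u1) p1
  refine ⟨Q ^ s, Nat.pow_pos hQ, fun q hq dq r tr => le_of_not_gt fun big => y ?_⟩
  have c1 := ch 1 one_ne_zero
  obtain ⟨D, D1, D2⟩ := ex_den (Nat.pow_pos hQ) (sym_rat c1 hQ hγ)
  by_cases dd : D ≤ D0
  · exact ⟨_, mem_insert_self _ _, by
      rw [sy]
      exact (D2 _).2 (by exact_mod_cast Nat.dvd_factorial D1 dd)⟩
  obtain ⟨A, b, a1, a2, a3⟩ := hD D q (by omega) hq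
  obtain ⟨T, hT⟩ := exists_nat_gt (max K0 ((|M1| + 1) * Q ^ s))
  have q0 : (1 : ℝ) ≤ q := Nat.one_le_cast.2 hq
  have Q0 : (1 : ℝ) ≤ Q := Nat.one_le_cast.2 hQ
  have Qs : (1 : ℝ) ≤ (Q : ℝ) ^ s := one_le_pow₀ Q0
  have T1 : (|M1| + 1) * (Q : ℝ) ^ s < T := (le_max_right _ _).trans_lt hT
  have T0 : (1 : ℝ) ≤ T := by nlinarith [abs_nonneg M1]
  have TN : (T : ℝ) ≤ ((q * T : ℕ) : ℝ) := by push_cast; nlinarith
  have small : ∀ (i : ℕ) (m : ℝ), 1 ≤ i → i ≤ s → m ≤ |M1| + 1 →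
      ((Q ^ i : ℕ) : ℝ) * (m / ((q * T : ℕ) : ℝ) ^ i) < 1 := fun i m i1 i2 hm => by
    have e1 : ((q * T : ℕ) : ℝ) ≤ ((q * T : ℕ) : ℝ) ^ i := le_self_pow₀ (T0.trans TN) (by omega)
    have e2 : (Q : ℝ) ^ i ≤ (Q : ℝ) ^ s := pow_le_pow_right₀ Q0 i2
    have e3 : (0 : ℝ) < (Q : ℝ) ^ i := by positivity
    rw [← mul_div_assoc, div_lt_one (by linarith), Nat.cast_pow]
    nlinarith [abs_nonneg M1]
  have sg : ∀ (i : ℕ) (ξ : n.I → ℤ), PN.IsCh i ξ → ∀ p,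
      PN.sym ξ i (PN.cst x * PN.dil (b p) γ) = (b p : ℝ) ^ i * PN.sym ξ i γ := fun i ξ k p => by
    rw [hA.sym_mul _ _ _ _ _ _ k, hA.sym_cst _ _ _ _ _ k, hA.sym_dil, zero_add]
  rcases w F k t k0 ek r 0 (q * T : ℕ) ℕ A (fun p => PN.cst x * PN.dil (b p) γ) tr.bd le_rfl
    (((le_max_left _ _).trans hT.le).trans TN) (fun p hp => by
      have := corr (Φ := fun m => F (x * PN.ev m γ)) hq tr (per hA t x hQ hγ dq)
        (a2 p hp).1 (a2 p hp).2 T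
      simp only [map_mul, hA.ev_cst, hA.ev_dil, zero_add, Nat.floor_zero, Nat.floor_natCast]
      simp only [Nat.cast_mul] at this ⊢
      rw [this]
      nlinarith) a1 with ⟨p, hp, u, u1, u2⟩ | ⟨p, hp, p', hp', ne, l, l1, l2⟩
  · have k := hΞ u u1
    obtain ⟨a, ha⟩ := Function.ne_iff.1 k.ne
    have j1 : 1 ≤ u.1 := k.wt a ha ▸ n.w1 a
    have j2 : u.1 ≤ s := k.wt a ha ▸ n.ws a
    obtain ⟨v, hv⟩ := sym_rat k hQ hγ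
    rw [sg _ _ k] at u2
    obtain ⟨v', hv'⟩ := exact_int (Nat.pow_pos (n := u.1) hQ) ⟨b p ^ u.1 * v, by
      push_cast at hv ⊢
      rw [← hv]; ring⟩ u2 (small _ _ j1 j2 (by linarith [le_abs_self M1]))
    obtain ⟨E, -, E2⟩ := ex_den (Nat.pow_pos hQ) ⟨v, hv⟩
    have e1 := (E2 (Q ^ u.1 : ℕ)).1 ⟨v, by exact_mod_cast hv⟩
    have e2 := (E2 (b p ^ u.1 : ℕ)).1 ⟨v', by exact_mod_cast hv'⟩
    have e3 : (b p ^ u.1).Coprime (Q ^ u.1) := Nat.Coprime.pow _ _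
      ((a2 p hp).1.coprime_dvd_right ((dvd_pow_self Q (by omega)).trans dq))
    have e4 : E ∣ 1 := e3 ▸ Nat.dvd_gcd (by exact_mod_cast e2) (by exact_mod_cast e1)
    exact ⟨u, mem_insert_of_mem u1, by simpa using (E2 1).2 (by exact_mod_cast e4)⟩
  · exfalso
    have N0 : (0 : ℝ) < ((q * T : ℕ) : ℝ) := by linarith
    have b1 := hA.sym_nm _ _ _ _ _ 0 (PN.cst x * PN.dil (b p) γ * l *
      (PN.cst x * PN.dil (b p') γ)⁻¹) c1 N0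
    have b2 := hA.sym_mul _ _ _ _ (PN.cst x * PN.dil (b p) γ * l *
      (PN.cst x * PN.dil (b p') γ)⁻¹) (PN.cst x * PN.dil (b p') γ) c1
    rw [inv_mul_cancel_right, hA.sym_mul _ _ _ _ _ _ c1, sg _ _ c1, sg _ _ c1] at b2
    obtain ⟨v, hv⟩ := sym_rat c1 le_rfl l1
    obtain ⟨v1, hv1⟩ := sym_rat c1 hQ hγ
    have b3 : ∑ a, |((Pi.single a0 (1 : ℤ) : n.I → ℤ) a : ℝ)| = 1 := by
      simp [Pi.single_apply, apply_ite]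
    rw [b3, one_mul] at b1
    simp only [one_pow, Nat.cast_one, one_mul] at hv
    obtain ⟨v2, hv2⟩ := exact_int (θ := (((b p : ℤ) ^ n.wt a0 - (b p' : ℤ) ^ n.wt a0 : ℤ) : ℝ) *
      PN.sym (Pi.single a0 1) (n.wt a0) γ) (Nat.pow_pos (n := n.wt a0) hQ)
      ⟨((b p : ℤ) ^ n.wt a0 - (b p' : ℤ) ^ n.wt a0) * v1, by
        rw [Int.cast_mul, ← hv1]; ring⟩ ⟨-v, by
        rw [le_div_iff₀ (by positivity)]
        refine le_trans (le_of_eq ?_) (b1.trans l2)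
        congr 2
        push_cast
        linarith⟩ (small _ 1 i1 (n.ws a0) (by linarith [abs_nonneg M1]))
    exact ne (a3 p hp p' hp' ((D2 _).1 ⟨v2, hv2⟩))

theorem gg (hS : SplitSt) (hQ : QuoSt) (hM : MorSt) (hF : FacSt) (hW : W2St) (hA : AuxSt)
    (k : ℕ) : ∀ n : NS s, n.tw = k → GG n := by
  induction k using Nat.strong_induction_on with
  | _ k ih0 =>
  intro n hn L β c hβ hc
  have ih : ∀ n' : NS s, n'.tw < n.tw → GG n' := fun n' l => ih0 _ (hn ▸ l) n' rfl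
  rcases isEmpty_or_nonempty n.I with e | e
  · refine ⟨1, le_rfl, fun F _ Q x γ _ _ => ?_⟩
    have : (fun m : ℕ => F (x * PN.ev m γ)) = fun _ => F 1 :=
      funext fun m => congrArg F (PN.ext _ fun a => e.elim a)
    rw [this]
    exact OE.const c hβ _
  obtain ⟨R, V, z, v1, v2⟩ := hS s n L (β / 2) e (by positivity)
  set β' := β / (2 * (R * R + 1)) with hβ'
  have b0 : 0 < β' := by positivity
  have ex : ∀ v : n.I → ℤ, ∃ Q1 : ℕ, 1 ≤ Q1 ∧ (v ∈ V → ∀ F, n.Test F L → PN.Eig F (PN.zv v) 0 →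
      ∀ (Q : ℕ) (x : n.G ℝ) (γ : n.Ph), 1 ≤ Q → γ ∈ n.LamQ 1 Q →
      OE c Q1 β' fun m => F (x * PN.ev m γ)) := fun v => by
    by_cases k : v ∈ V
    swap
    · exact ⟨1, le_rfl, fun y => absurd y k⟩
    obtain ⟨n', π, C, lt, h⟩ := hQ s n v (v1 v k).1 (v1 v k).2
    obtain ⟨Q1, a, b⟩ := ih n' lt (C * L) β' c b0 hc
    obtain ⟨d, d1, d2⟩ := hM.rat s n n' π
    refine ⟨Q1, a, fun _ F t ev Q x γ q1 q2 => ?_⟩
    obtain ⟨F', f1, f2⟩ := h F L t ev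
    simp only [f2, map_mul, ← hM.ev]
    exact b F' f1 (Q * d) _ _ (Nat.mul_pos q1 d1) (d2 Q γ q1 q2)
  choose q1 q2 q3 using ex
  obtain ⟨Qz, z1, z2⟩ : ∃ Q1 : ℕ, 1 ≤ Q1 ∧ (n.Cen1 z → ∀ F (k : ℤ), n.Test F L → k ≠ 0 →
      PN.Eig F (PN.zv z) k → ∀ (Q : ℕ) (x : n.G ℝ) (γ : n.Ph), 1 ≤ Q → γ ∈ n.LamQ 1 Q →
      OE c Q1 β' fun m => F (x * PN.ev m γ)) := by
    by_cases k : n.Cen1 z
    · obtain ⟨Q1, a, b⟩ := eig hF hW hA ih L β' c b0 hc e k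
      exact ⟨Q1, a, fun _ => b⟩
    · exact ⟨1, le_rfl, fun y => absurd y k⟩
  have p1 : 1 ≤ (∏ v ∈ V, q1 v) * Qz := Nat.mul_pos (prod_pos fun v _ => q2 v) z1
  refine ⟨_, p1, fun F t Q x γ hQ hγ => ?_⟩
  obtain ⟨w, Φ, w1, w2, w3⟩ := v2 F t
  obtain ⟨q0, a, b⟩ := OE.sum (c := c) (Q := (∏ v ∈ V, q1 v) * Qz) (β := β')
    (Φ := fun m => F (x * PN.ev m γ))
    (Ψ := fun j m => Φ j (x * PN.ev m γ)) w1 (fun m => w2 _) fun j => by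
      obtain ⟨t', ⟨v, k, ev⟩ | ⟨k, u, u1, u2⟩⟩ := w3 j
      · exact (q3 v k _ t' ev Q x γ hQ hγ).mono
          ((dvd_prod_of_mem _ k).trans (dvd_mul_right _ _)) p1
      · exact (z2 k _ u t' u1 u2 Q x γ hQ hγ).mono (dvd_mul_left _ _) p1
  refine ⟨q0, a, fun q h1 h2 r tr => (b q h1 h2 r tr).trans ?_⟩
  refine mul_le_mul_of_nonneg_right ?_ (Nat.cast_nonneg _)
  have : β' * (2 * (R * R + 1)) = β := div_mul_cancel₀ _ (by positivity)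
  nlinarith

end GqJ

theorem st_Gq (hS : SplitSt) (hQ : QuoSt) (hM : MorSt) (hF : FacSt) (hW : W2St) (hA : AuxSt) :
    GqSt := fun _ n L β hβ => by
  obtain ⟨Q1, a, b⟩ := GqJ.gg hS hQ hM hF hW hA _ n rfl L β 1 hβ le_rfl
  exact ⟨Q1, a, fun F t Q q x γ h1 h2 h3 h4 h5 => (b F t Q x γ h1 h3).orth h2 h4 h5⟩

end Pool.Agent.Lib.MP_028aa5_nt.N
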