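import Pool.Agent.Lib.MP_028aa5_nt.N.IndB

/-! The induction on the total weight. -/

namespace Pool.Agent.Lib.MP_028aa5_nt.N

open Finset V T
open scoped Classical

namespace Ind

/-- the conclusion of the large sieve for one function -/
def LS {s : ℕ} (n : NS s) (F : n.G ℝ → ℂ) : Prop := ∀ η ρ : ℝ, 0 < η → 0 < ρ →
  ∃ (M : ℕ) (Ξ : Finset (ℕ × (n.I → ℤ))) (M1 K0 : ℝ), PN.Chs Ξ ∧
    ∀ (f : ℕ → ℂ) (y N : ℝ) (ι : Type) (A : Finset ι) (g : ι → n.Ph),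
    (∀ m, ‖f m‖ ≤ 1) → 0 ≤ y → K0 ≤ N →
    (∀ i ∈ A, η * N ≤ ‖∑ m ∈ Ioc ⌊y⌋₊ ⌊y + N⌋₊, f m * F (PN.ev m (g i))‖) → M < #A →
    (∃ i ∈ A, PN.Deg Ξ M1 N (g i)) ∨
      ∃ i ∈ A, ∃ j ∈ A, i ≠ j ∧ ∃ l ∈ n.Lam 1, PN.nm N y (g i * l * (g j)⁻¹) ≤ ρ

lemma ls_empty {s : ℕ} (n : NS s) (F : n.G ℝ → ℂ) (h : IsEmpty n.I) : LS n F := by
  intro η ρ _ hρ
  refine ⟨1, ∅, 0, 0, fun u hu => absurd hu (notMem_empty _), fun f y N ι A g _ _ _ _ hA => ?_⟩
  obtain ⟨i, hi, j, hj, hij⟩ := one_lt_card.1 hA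
  refine Or.inr ⟨i, hi, j, hj, hij, 1, one_mem _, ?_⟩
  simp only [PN.nm, PN.nm0, univ_eq_empty, sum_empty]
  exact hρ.le

lemma big {κ y η : ℝ} {a : ℕ → ℂ} (h0 : 0 < κ * y) (h : η ≤ ‖C.av κ y a‖) :
    η * (κ * y) ≤ ‖∑ m ∈ Ioc ⌊y⌋₊ ⌊y + κ * y⌋₊, a m‖ := by
  rw [C.av, norm_mul, norm_inv, Complex.norm_real, Real.norm_of_nonneg h0.le, inv_mul_eq_div,
    le_div_iff₀ h0, show y * (1 + κ) = y + κ * y by ring] at h
  exact h

lemma key (hF : FacSt) (hA : AuxSt) (hE : ExtSt) (hI : InstSt) (hG : GqSt) (hC : CoreSt)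
    (hCell : CellSt) (hR : V.RareSt) (hT : TameSt) {s : ℕ} (hs : 1 ≤ s) (n : NS s)
    (ih : ∀ n' : NS s, n'.tw < n.tw → n'.Rare) {F : n.G ℝ → ℂ} {L : ℝ} (hL : n.Test F L)
    (hS : LS n F) {q : ℕ} (hq : 1 ≤ q) (r : ℕ) : (n.cut F q r).Rare fun _ => True := by
  obtain ⟨n', j, j1, j2, j3, j4, j5⟩ := hE s n hs
  obtain ⟨F', hF', j6⟩ := j5 q hq F L r hL
  obtain ⟨c0, K, Qf, c00, hI⟩ := hI s n' (|L| + q) (hG s n')
  have ok := hI F' hF'
  obtain ⟨k', k1, hC⟩ := hC _ _ _ _ ok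
  have q0 : (q : ℝ) ≠ 0 := by positivity
  have j0 : j 1 0 = 1 := by
    have := j1 1 1 0 0
    rw [mul_one, add_zero] at this
    exact (mul_eq_left.1 this.symm)
  have ji : ∀ g α, (j g α)⁻¹ = j g⁻¹ (-α) := fun g α =>
    inv_eq_of_mul_eq_one_right (by rw [← j1, mul_inv_cancel, add_neg_cancel, j0])
  set D := n'.inst F' c0 K with hD
  set Ad : D.P → Prop := fun x => ∃ (g : n.Ph) (a : ℕ), x = j g (a / q) with hAd
  have clo : D.Clo Ad := by
    rintro p _ ⟨g, a, rfl⟩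
    exact ⟨PN.dil p g, p * a, (j2 p g _).trans (by rw [Nat.cast_mul, mul_div_assoc])⟩
  refine mono _ D _ Ad (hR D k' Qf Ad ok.e (hCell D k' Qf Ad k1 ok.ok ok.e clo hC (hT D Ad
    (red D Ad fun η ρ hη hρ => ?_)))) fun g _ => ⟨j g ((1 : ℕ) / q), ⟨g, 1, rfl⟩, fun m =>
      (inst_ev n' F' c0 K _ m).trans ((j6 g 1 m).trans (by rw [one_mul]; exact (cut_ev n F q r g m).symm))⟩
  obtain ⟨M, Ξ, M1, K0, hΞ, hS⟩ := hS η (ρ / c0) hη (by positivity)
  choose J fJ D' η' L0 h1 h2 h3 using fun u : Ξ => deg hF hA n ih hL hq (hΞ u.1 u.2) M1 hη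
  obtain ⟨Lw, l1, l2⟩ : ∃ Lw : ℕ, 1 ≤ Lw ∧ ∀ u, 2 * L0 u ≤ Lw := by
    refine ⟨⌈∑ u, 2 * |L0 u|⌉₊ + 1, by omega, fun u => ?_⟩
    have := single_le_sum (f := fun u => 2 * |L0 u|) (fun _ _ => by positivity) (mem_univ u)
    push_cast
    linarith [Nat.le_ceil (∑ u, 2 * |L0 u|), le_abs_self (L0 u)]
  obtain ⟨e, e0, e1⟩ : ∃ e : ℝ, 0 < e ∧ ∀ u, e ≤ η' u := by
    rcases isEmpty_or_nonempty Ξ with h | h
    · exact ⟨1, one_pos, fun u => h.elim u⟩
    · obtain ⟨u, hu⟩ := Finite.exists_min η'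
      exact ⟨η' u, h1 u, hu⟩
  refine ⟨q * M, Lw, (u : Ξ) × J u, inferInstance, fun x => D' x.1 x.2, fun _ _ => True, e,
    max K0 (2 * Lw), l1, e0, fun x => h2 x.1 x.2, fun κ κ' y f hf κ0 κ1 hκ hK ⟨A, hA', hM⟩ => ?_⟩
  have L1 : (1 : ℝ) ≤ Lw := by exact_mod_cast l1
  have N2 : 2 * Lw ≤ κ * y := (le_max_right _ _).trans hK
  have b1 : Lw * κ' ≤ κ := by linarith [one_add_mul_le_pow (show -2 ≤ κ' by linarith) Lw]
  have b2 : κ ≤ 2 * Lw * κ' := by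
    have := pw_le κ0.le Lw
    rw [hκ] at this
    nlinarith [mul_pos (zero_lt_one.trans_le L1) κ0]
  have κp : 0 < κ := by nlinarith
  have y0 : 0 < y := C.pos κp (by linarith)
  choose! g a hg using fun x (hx : x ∈ A) => (hA'.1 x hx).1
  obtain ⟨a0, -, ha⟩ := exists_lt_card_fiber_of_mul_lt_card_of_maps_to (s := A) (t := range q)
    (f := fun x => a x % q) (fun x _ => mem_range.2 (Nat.mod_lt _ hq)) (n := M)
    (by rw [card_range]; exact hM)
  have hav : ∀ x ∈ A, a x % q = a0 → η ≤ ‖C.av κ y fun m =>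
      (if (a0 * m) % q = r % q then f m else 0) * F (PN.ev m (g x))‖ := by
    intro x hx h0
    refine (hA'.1 x hx).2.trans_eq (congrArg _ (congrArg (C.av κ y) (funext fun m => ?_)))
    have e4 := (inst_ev n' F' c0 K x m).trans ((congrArg (fun t => F' (PN.ev m t)) (hg x hx)).trans
      (j6 _ _ _))
    refine (congrArg (f m * ·) e4).trans ?_
    rw [← h0, Nat.mod_mul_mod]
    split_ifs <;> simp
  rcases hS (fun m => if (a0 * m) % q = r % q then f m else 0) y (κ * y) _ {x ∈ A | a x % q = a0} g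
    (fun m => by split_ifs; exacts [hf m, by simp]) y0.le ((le_max_left _ _).trans hK)
    (fun x hx => big (by positivity) (hav x (mem_filter.1 hx).1 (mem_filter.1 hx).2)) ha with
    ⟨x, hx, u, hu, hN⟩ | ⟨x, hx, x', hx', hne, l, hl, hn⟩
  · obtain ⟨i, hi, hb⟩ := Gen.split (fun m => (if (a0 * m) % q = r % q then f m else 0) *
      F (PN.ev m (g x))) κ0 y0 l1 hκ
    have p1 : 1 ≤ (1 + κ') ^ i := one_le_pow₀ (by linarith)
    have p2 : (1 + κ') ^ (i + 1) ≤ 1 + κ := hκ ▸ pow_le_pow_right₀ (by linarith) hi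
    have p3 : (1 + κ') ^ i ≤ 2 := by
      rw [pow_succ] at p2
      nlinarith
    have p4 : 1 ≤ κ' * y := by nlinarith
    have p5 : L0 ⟨u, hu⟩ * (κ' * (y * (1 + κ') ^ i)) ≤ κ * y := by
      have t1 : κ' * (y * (1 + κ') ^ i) ≤ 2 * (κ' * y) := by nlinarith
      have t2 : 0 ≤ κ' * (y * (1 + κ') ^ i) := by positivity
      have t3 := mul_le_mul_of_nonneg_right (l2 ⟨u, hu⟩) t2
      have t4 := mul_le_mul_of_nonneg_left t1 (zero_le_one.trans L1)
      have t5 := mul_le_mul_of_nonneg_right b1 y0.le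
      nlinarith
    obtain ⟨z, g', -, hz⟩ := h3 ⟨u, hu⟩ κ' y (κ * y) (y * (1 + κ') ^ i) f
      (fun m => (a0 * m) % q = r % q) (g x) hf
      (fun m m' h h' => by rw [← h', Nat.mul_mod, ← h, ← Nat.mul_mod]) κ0 (by linarith)
      (le_mul_of_one_le_right y0.le p1)
      (by rw [mul_assoc, ← pow_succ]; nlinarith) (by nlinarith) p5 hN
      (((hav x (mem_filter.1 hx).1 (mem_filter.1 hx).2).trans hb).trans_eq (by congr!))
    exact ⟨⟨⟨u, hu⟩, z⟩, i, hi, g', trivial, (e1 _).trans hz⟩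
  · obtain ⟨x1, x2⟩ := mem_filter.1 hx
    obtain ⟨x3, x4⟩ := mem_filter.1 hx'
    obtain ⟨z, hz⟩ := (Nat.modEq_iff_dvd.1 (show a x ≡ a x' [MOD q] from x2.trans x4.symm))
    have hz' : (a x' : ℝ) - a x = q * z := by exact_mod_cast hz
    refine absurd ⟨j l z, j3 l hl z, ?_⟩ (hA'.2 x x1 x' x3 hne)
    have e3 : j (g x) (a x / q) * j l z * (j (g x') (a x' / q))⁻¹ = j (g x * l * (g x')⁻¹) 0 := by
      rw [ji, ← j1, ← j1]
      congr 1
      field_simp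
      linarith
    have e2 : x * D.dil 1 (j l z) * x'⁻¹ = j (g x * l * (g x')⁻¹) 0 := by
      refine Eq.trans ?_ e3
      exact congrArg₂ (· * ·) (congrArg₂ (· * ·) (hg x x1) (ok.ok.dil_one _))
        (congrArg (·⁻¹) (hg x' x3))
    refine (congrArg (D.ν κ y) e2).trans_le ?_
    show c0 * PN.ln (κ * y) y (j _ 0) ≤ ρ
    rw [← le_div_iff₀' c00]
    exact (hA.ln_le _ _ _ _ _).trans ((j4 _ _ _).trans_le hn)

end Ind

open Ind

theorem st_Rare (hS : SplitSt) (hQ : QuoSt) (hM : MorSt) (hF : FacSt) (hW : W2St) (hA : AuxSt)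
    (hE : ExtSt) (hI : InstSt) (hG : GqSt) (hC : CoreSt) (hCell : CellSt) (hR : V.RareSt)
    (hT : TameSt) : RareSt := by
  intro s n hs
  induction h : n.tw using Nat.strong_induction_on generalizing n with
  | _ w ih =>
  have ih' : ∀ n' : NS s, n'.tw < n.tw → n'.Rare := fun n' h' => ih _ (h ▸ h') n' rfl
  intro F L q r hL hq
  rcases isEmpty_or_nonempty n.I with h0 | h0
  · exact key hF hA hE hI hG hC hCell hR hT hs n ih' hL (ls_empty n F h0) hq r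
  refine union _ _ fun η hη => ?_
  obtain ⟨R, W, z, hW', hS⟩ := hS s n L (η / 4) h0 (by positivity)
  obtain ⟨c, Φ, h1, h2, h3⟩ := hS F hL
  refine ⟨Fin R, inferInstance, fun j => n.cut (Φ j) q r, fun _ _ => True,
    η / (2 * (R + 1) * (R + 1)), 1, by positivity, fun j => ?_, fun κ y f hf κ0 k1 ⟨g, _, hg⟩ => ?_⟩
  · obtain ⟨t1, ⟨v, hv, t2⟩ | ⟨t2, k, t3, t4⟩⟩ := h3 j
    · obtain ⟨n', π, C, u1, u2⟩ := hQ s n v (hW' v hv).1 (hW' v hv).2
      obtain ⟨F', u3, u4⟩ := u2 _ L t1 t2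
      exact mono _ _ _ _ (ih' n' u1 F' _ q r u3 hq) fun (g : n.Ph) _ =>
        ⟨π.ph g, trivial, fun m => (cut_ev n' F' q r _ m).trans
          (Eq.trans (by rw [hM.ev, u4]) (cut_ev n (Φ j) q r g m).symm)⟩
    · refine key hF hA hE hI hG hC hCell hR hT hs n ih' t1 (fun η ρ hη hρ => ?_) hq r
      obtain ⟨M, Ξ, M1, K0, u1, u2⟩ := hW s n z L η ρ t2 hη hρ
      exact ⟨M, Ξ, M1, K0, u1, u2 _ k t1 t3 t4⟩
  · have h5 : ∀ (g : n.Ph) (m : ℕ), ‖f m * (n.cut F q r).ev g m -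
        ∑ j ∈ range R, c j * (f m * (n.cut (Φ j) q r).ev g m)‖ ≤ η / 4 := by
      intro g m
      simp only [cut_ev]
      split_ifs
      · simp only [mul_left_comm (c _) (f m)]
        rw [← mul_sum, ← mul_sub, norm_mul]
        exact (mul_le_of_le_one_left (norm_nonneg _) (hf m)).trans (h2 _)
      · simp only [mul_zero, sum_const_zero, sub_zero, norm_zero]
        positivity
    obtain ⟨j, hj, h4⟩ := piece (range R) κ0 k1 (δ := η / 4) (by positivity)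
      (b := fun j m => f m * (n.cut (Φ j) q r).ev g m) (c := c) (R := R + 1)
      (fun j _ => (h1 j).trans (by linarith)) (by positivity) (fun m _ => h5 g m) (by linarith) hη hg
    rw [card_range] at h4
    exact ⟨⟨j, mem_range.1 hj⟩, g, trivial, h4⟩

theorem st_Main (hR : RareSt) (hI : InstSt) (hG : GqSt) (hC : CoreSt) (hCell : CellSt)
    (hT : TameSt) (hTop : TopSt) : MainSt := by
  intro s n hs F L η hL hη
  obtain ⟨c0, K, Qf, -, hI⟩ := hI s n L (hG s n)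
  have ok := hI F hL
  obtain ⟨k', k1, hC⟩ := hC _ _ _ _ ok
  have := hTop _ k' Qf ok.e (hCell _ k' Qf _ k1 ok.ok ok.e (fun _ _ _ => trivial) hC (hT _ _
    (red _ _ fun η ρ hη _ => ⟨0, 1, Unit, inferInstance, fun _ => n.cut F 1 0, fun _ _ => True, η, 0,
      le_rfl, hη, fun _ => hR s n hs F L 1 0 hL le_rfl, fun κ κ' y f _ _ _ h _ ⟨A, h1, h2⟩ => by
        obtain ⟨g, hg⟩ := card_pos.1 h2
        obtain rfl : κ' = κ := by simpa using h
        refine ⟨(), 0, one_pos, g, trivial, ?_⟩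
        rw [pow_zero, mul_one]
        refine (h1.1 g hg).2.trans_eq (congrArg _ (congrArg (C.av κ' y) (funext fun m => ?_)))
        refine congrArg (f m * ·) ((inst_ev n F c0 K g m).trans
          (Eq.trans ?_ (cut_ev n F 1 0 g m).symm))
        rw [Nat.mod_one, Nat.mod_one, if_pos rfl]⟩))) η hη
  have e : (fun (g : (n.inst F c0 K).P) m => lio m * (n.inst F c0 K).ev g m) =
      fun (g : n.Ph) (m : ℕ) => lio m * F (PN.ev m g) :=
    funext fun g => funext fun m => congrArg (lio m * ·) (inst_ev n F c0 K g m)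
  rw [e] at this
  exact this

end Pool.Agent.Lib.MP_028aa5_nt.N
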