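import Pool.Agent.Lib.MP_028aa5_nt.N.Defs
import Pool.Agent.Lib.MP_028aa5_nt.V.StB

/-! Interface between the nilpotent groups and the abstract argument. -/

namespace Pool.Agent.Lib.MP_028aa5_nt.N

open Finset Polynomial MeasureTheory
open scoped Classical

namespace NS

variable {s : ℕ} (n : NS s)

/-- the dilation system of a test function -/
noncomputable def inst (F : n.G ℝ → ℂ) (c0 : ℝ) (K : ℕ) : V.DX where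
  P := n.Ph
  dil := PN.dil
  Λ := n.Lam 1
  ν κ y g := c0 * PN.ln (κ * y) y g
  k := s
  Cv := K
  Dm := K
  Rat Q := if Q = 0 then ⊤ else n.LamQ 1 Q
  Fd := {g | ∃ w : n.G ℝ, (∀ a, w a ∈ Set.Ico (0 : ℝ) 1) ∧ g = PN.cst w}
  E t z γ m := F (PN.ev z t * PN.ev m γ)

/-- the rational centre is the line through `z` -/
structure Cen1 (z : n.I → ℤ) : Prop where
  ne : z ≠ 0
  cen : PN.Cen (n := n.toPN) (PN.zv z)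
  all : ∀ v : n.I → ℤ, PN.Cen (n := n.toPN) (PN.zv v) → ∃ r : ℚ, ∀ a, (v a : ℚ) = r * z a

/-- periodic nilsequences are orthogonal to eigenfunctions of the unit dilations -/
def Gq : Prop := ∀ L β : ℝ, 0 < β → ∃ Q1 : ℕ, 1 ≤ Q1 ∧ ∀ F, n.Test F L → ∀ (Q q : ℕ) (x : n.G ℝ)
  (γ : n.Ph), 1 ≤ Q → 1 ≤ q → γ ∈ n.LamQ 1 Q → Q1 ∣ q →
  (∀ m : ℕ, F (x * PN.ev ((m + q : ℕ) : ℝ) γ) = F (x * PN.ev m γ)) →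
  V.Orth q Q1 β fun m => F (x * PN.ev m γ)

/-- the atoms of a test function that is cut to a residue class -/
noncomputable def cut (F : n.G ℝ → ℂ) (q r : ℕ) : V.DX :=
  { n.inst F 1 0 with E := fun t z _ _ => if ⌊z⌋₊ % q = r % q then F (PN.ev z t) else 0 }

/-- few windows carry an atom -/
def Rare : Prop := ∀ (F : n.G ℝ → ℂ) (L : ℝ) (q r : ℕ), n.Test F L → 1 ≤ q →
  (n.cut F q r).Rare fun _ => True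

/-- local uniformity of the Liouville function -/
def Main : Prop := ∀ (F : n.G ℝ → ℂ) (L η : ℝ), n.Test F L → 0 < η → ∃ C X0 : ℝ, ∀ X ≥ X0,
  ∀ H : ℝ, Real.log X ^ C ≤ H → H ≤ X →
    ∫ x in X..2 * X, V.supU (fun (g : n.Ph) m => T.lio m * F (PN.ev m g)) H x ≤ η * (H * X)

end NS

/-- the instance satisfies all requirements -/
def InstSt : Prop := ∀ (s : ℕ) (n : NS s) (L : ℝ), n.Gq → ∃ (c0 : ℝ) (K : ℕ) (Qf : ℝ → ℕ), 0 < c0 ∧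
  ∀ F, n.Test F L → (n.inst F c0 K).OkX s K Qf

/-- decomposition along the centre -/
def SplitSt : Prop := ∀ (s : ℕ) (n : NS s) (L δ : ℝ), Nonempty n.I → 0 < δ →
  ∃ (R : ℕ) (V : Finset (n.I → ℤ)) (z : n.I → ℤ),
    (∀ v ∈ V, v ≠ 0 ∧ PN.Cen (n := n.toPN) (PN.zv v)) ∧ ∀ F, n.Test F L →
    ∃ (c : ℕ → ℂ) (Φ : ℕ → n.G ℝ → ℂ), (∀ j, ‖c j‖ ≤ R) ∧
      (∀ x, ‖F x - ∑ j ∈ range R, c j * Φ j x‖ ≤ δ) ∧ ∀ j, n.Test (Φ j) L ∧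
        ((∃ v ∈ V, PN.Eig (Φ j) (PN.zv v) 0) ∨
          (n.Cen1 z ∧ ∃ k : ℤ, k ≠ 0 ∧ PN.Eig (Φ j) (PN.zv z) k))

/-- quotient by a central vector -/
def QuoSt : Prop := ∀ (s : ℕ) (n : NS s) (v : n.I → ℤ), v ≠ 0 → PN.Cen (n := n.toPN) (PN.zv v) →
  ∃ (n' : NS s) (π : Mor n.toPN n'.toPN) (C : ℝ), n'.tw < n.tw ∧ ∀ F L, n.Test F L →
    PN.Eig F (PN.zv v) 0 → ∃ F', n'.Test F' (C * L) ∧ ∀ x, F x = F' (π.app ℝ x)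

/-- morphisms -/
structure MorSt : Prop where
  ev : ∀ (s : ℕ) (n' n : PN s) (φ : Mor n' n) t g, PN.ev t (φ.ph g) = φ.app ℝ (PN.ev t g)
  rat : ∀ (s : ℕ) (n' n : NS s) (φ : Mor n'.toPN n.toPN), ∃ d : ℕ, 1 ≤ d ∧ ∀ (Q : ℕ) g, 1 ≤ Q →
    g ∈ n'.LamQ 1 Q → φ.ph g ∈ n.LamQ 1 (Q * d)

/-- factorisation through the kernel of a character -/
def FacSt : Prop := ∀ (s : ℕ) (n : NS s) (i : ℕ) (ξ : n.I → ℤ), PN.IsCh i ξ →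
  ∃ (n' : NS s) (φ : Mor n'.toPN n.toPN) (c : ℕ) (σ : ℕ → n.G ℝ), 1 ≤ c ∧ n'.tw < n.tw ∧
    (∀ W : ℝ, ∃ C : ℝ, ∀ F L w j, n.Test F L → PN.nG w ≤ W →
      n'.Test (fun y => F (w * φ.app ℝ y * σ j)) (C * L)) ∧
    (∀ (g : n.Ph) (y N M : ℝ), 1 ≤ N → Nr (PN.sym ξ i g) (M / N ^ i) →
      ∃ (ε : n.Ph) (g' : n'.Ph) (τ : ℕ → ℕ), PN.nm N y ε ≤ (M + 1) * 2 ^ s ∧
        (∀ m, τ m < c ∧ τ m = τ (m % c)) ∧ ∀ m : ℕ, ∃ l ∈ n.Gam,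
          PN.ev m g = PN.ev m ε * φ.app ℝ (PN.ev m g') * σ (τ m) * l) ∧
    ∀ (Q : ℕ) (x : n.G ℝ) (γ : n.Ph), 1 ≤ Q → γ ∈ n.LamQ 1 Q → (∃ z : ℤ, PN.sym ξ i γ = z) →
      ∃ (w : n.G ℝ) (x' : n'.G ℝ) (γ' : n'.Ph) (Q' : ℕ) (τ : ℕ → ℕ), PN.nG w ≤ 1 ∧ 1 ≤ Q' ∧
        γ' ∈ n'.LamQ 1 Q' ∧ (∀ m, τ m < c ∧ τ m = τ (m % c)) ∧ ∀ m : ℕ, ∃ l ∈ n.Gam,
          x * PN.ev m γ = w * φ.app ℝ (x' * PN.ev m γ') * σ (τ m) * l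

/-- the large sieve for nilsequences -/
def W2St : Prop := ∀ (s : ℕ) (n : NS s) (z : n.I → ℤ) (L η ρ : ℝ), n.Cen1 z → 0 < η → 0 < ρ →
  ∃ (M : ℕ) (Ξ : Finset (ℕ × (n.I → ℤ))) (M1 K0 : ℝ), PN.Chs Ξ ∧ ∀ F (k : ℤ), n.Test F L → k ≠ 0 →
    PN.Eig F (PN.zv z) k → ∀ (f : ℕ → ℂ) (y N : ℝ) (ι : Type) (A : Finset ι) (g : ι → n.Ph),
    (∀ m, ‖f m‖ ≤ 1) → 0 ≤ y → K0 ≤ N →
    (∀ i ∈ A, η * N ≤ ‖∑ m ∈ Ioc ⌊y⌋₊ ⌊y + N⌋₊, f m * F (PN.ev m (g i))‖) → M < #A →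
    (∃ i ∈ A, PN.Deg Ξ M1 N (g i)) ∨
      ∃ i ∈ A, ∃ j ∈ A, i ≠ j ∧ ∃ l ∈ n.Lam 1, PN.nm N y (g i * l * (g j)⁻¹) ≤ ρ

/-- bounded sets have finite nets, small phases vary slowly, rational phases are periodic -/
structure AuxSt : Prop where
  net : ∀ (s : ℕ) (n : PN s) (W δ : ℝ), 0 < δ → ∃ A : Finset (n.G ℝ), (∀ w ∈ A, PN.nG w ≤ W) ∧
    ∀ w, PN.nG w ≤ W → ∃ w' ∈ A, PN.nG (w * w'⁻¹) ≤ δ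
  slow : ∀ (s : ℕ) (n : PN s) (W : ℝ), ∃ C : ℝ, 0 < C ∧ ∀ (ε : n.Ph) (y N t t' : ℝ), 0 < N →
    PN.nm N y ε ≤ W → |t - y| ≤ 2 * N → |t' - y| ≤ 2 * N →
    PN.nG (PN.ev t ε) ≤ C ∧ PN.nG (PN.ev t ε * (PN.ev t' ε)⁻¹) ≤ C * (|t - t'| / N)
  per : ∀ (s : ℕ) (n : NS s) (Q : ℕ) (γ : n.Ph) (m j : ℕ), 1 ≤ Q → γ ∈ n.LamQ 1 Q →
    ∃ l ∈ n.Gam, PN.ev ((m + Q ^ s * j : ℕ) : ℝ) γ = PN.ev m γ * l
  ln_le : ∀ (s : ℕ) (n : PN s) (N y : ℝ) (g : n.Ph), PN.ln N y g ≤ PN.nm N y g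
  sym_dil : ∀ (s : ℕ) (n : PN s) (ξ : n.I → ℤ) (i : ℕ) (a : ℝ) (g : n.Ph),
    PN.sym ξ i (PN.dil a g) = a ^ i * PN.sym ξ i g
  sym_mul : ∀ (s : ℕ) (n : PN s) (ξ : n.I → ℤ) (i : ℕ) (g h : n.Ph), PN.IsCh i ξ →
    PN.sym ξ i (g * h) = PN.sym ξ i g + PN.sym ξ i h
  sym_cst : ∀ (s : ℕ) (n : PN s) (ξ : n.I → ℤ) (i : ℕ) (x : n.G ℝ), PN.IsCh i ξ →
    PN.sym ξ i (PN.cst x) = 0
  sym_nm : ∀ (s : ℕ) (n : PN s) (ξ : n.I → ℤ) (i : ℕ) (N y : ℝ) (g : n.Ph), PN.IsCh i ξ → 0 < N →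
    |PN.sym ξ i g| * N ^ i ≤ (∑ a, |(ξ a : ℝ)|) * PN.nm N y g
  ev_dil : ∀ (s : ℕ) (n : PN s) (a t : ℝ) (g : n.Ph), PN.ev t (PN.dil a g) = PN.ev (a * t) g
  ev_cst : ∀ (s : ℕ) (n : PN s) (t : ℝ) (x : n.G ℝ), PN.ev t (PN.cst x) = x
  ev_lam : ∀ (s : ℕ) (n : NS s) (m : ℕ) (l : n.Ph), l ∈ n.Lam 1 → PN.ev m l ∈ n.Gam

/-- one more circle -/
def ExtSt : Prop := ∀ (s : ℕ) (n : NS s), 1 ≤ s → ∃ (n' : NS s) (j : n.Ph → ℝ → n'.Ph),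
  (∀ g h α β, j (g * h) (α + β) = j g α * j h β) ∧
  (∀ (a : ℝ) g α, PN.dil a (j g α) = j (PN.dil a g) (a * α)) ∧
  (∀ l ∈ n.Lam 1, ∀ z : ℤ, j l z ∈ n'.Lam 1) ∧
  (∀ N y g, PN.nm N y (j g 0) = PN.nm N y g) ∧
  ∀ q : ℕ, 1 ≤ q → ∀ F L (r : ℕ), n.Test F L → ∃ F', n'.Test F' (|L| + q) ∧ ∀ g (a m : ℕ),
    F' (PN.ev m (j g (a / q))) = if (a * m) % q = r % q then F (PN.ev m g) else 0

/-- the core of the argument -/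
def CoreSt : Prop := ∀ (D : V.DX) (k K : ℕ) (Qf : ℝ → ℕ), D.OkX k K Qf → ∃ k', 1 ≤ k' ∧ D.Core k'

def GqSt : Prop := ∀ (s : ℕ) (n : NS s), n.Gq

def RareSt : Prop := ∀ (s : ℕ) (n : NS s), 1 ≤ s → n.Rare

def MainSt : Prop := ∀ (s : ℕ) (n : NS s), 1 ≤ s → n.Main

end Pool.Agent.Lib.MP_028aa5_nt.N
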