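import Pool.Agent.Lib.MP_028aa5_nt.N.Gau
import Pool.Agent.Lib.MP_028aa5_nt.N.Rat
import Pool.Agent.Lib.MP_028aa5_nt.N.StI

/-! The dilation system of a nilmanifold has all required properties. -/

namespace Pool.Agent.Lib.MP_028aa5_nt.N

open Finset Polynomial
open scoped Classical

namespace NS

variable {s : ℕ} (n : NS s)

theorem i_mem_Gam {x : n.G ℝ} : x ∈ n.Gam ↔ ∀ a, ∃ z : ℤ, x a = z :=
  forall_congr' fun a => by
    change x a ∈ mulz (((1 : ℕ) : ℝ) ^ n.wt a)⁻¹ ↔ _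
    rw [Nat.cast_one, one_pow, inv_one, mulz, AddSubgroup.mem_zmultiples_iff]
    exact exists_congr fun z => by rw [zsmul_eq_mul, mul_one, eq_comm]

theorem i_cst {x : n.G ℝ} (h : x ∈ n.Gam) : PN.cst x ∈ n.Lam 1 := Seed.mem_Lam.2 fun a j => by
  obtain ⟨z, hz⟩ := n.i_mem_Gam.1 h a
  rw [PN.co_cst]
  split_ifs
  · exact ⟨z, by rw [hz, one_pow, one_mul]⟩
  · exact ⟨0, by simp⟩

theorem i_cube_ex (x : n.G ℝ) : ∃ l ∈ n.Gam, ∀ a, (x * l) a ∈ Set.Ico (0 : ℝ) 1 := by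
  have : ∀ w, ∃ l ∈ n.Gam, ∀ a, n.wt a < w → (x * l) a ∈ Set.Ico (0 : ℝ) 1 := by
    intro w
    induction w with
    | zero => exact ⟨1, one_mem _, fun a h => absurd h (Nat.not_lt_zero _)⟩
    | succ w ih =>
      obtain ⟨l, hl, h⟩ := ih
      let u : n.G ℝ := fun a => if n.wt a = w then -(⌊(x * l) a⌋ : ℝ) else 0
      have hu : n.Ag w u 0 := fun a ha => if_neg ha.ne
      refine ⟨l * u, mul_mem hl (n.i_mem_Gam.2 fun a => ?_), fun a ha => ?_⟩
      · by_cases e : n.wt a = w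
        · exact ⟨-⌊(x * l) a⌋, by simp [u, e]⟩
        · exact ⟨0, by simp [u, e]⟩
      · rw [← mul_assoc, PN.lead_right _ hu (Nat.lt_succ_iff.1 ha)]
        by_cases e : n.wt a = w
        · simp only [u, e, if_true]
          exact ⟨Int.fract_nonneg _, Int.fract_lt_one _⟩
        · simpa only [u, e, if_false, add_zero] using h a (by omega)
  obtain ⟨l, hl, h⟩ := this (s + 1)
  exact ⟨l, hl, fun a => h a (Nat.lt_succ_of_le (n.ws a))⟩

theorem i_cube_uniq {x l : n.G ℝ} (hx : ∀ a, x a ∈ Set.Ico (0 : ℝ) 1) (hl : l ∈ n.Gam)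
    (h : ∀ a, (x * l) a ∈ Set.Ico (0 : ℝ) 1) : l = 1 := by
  by_contra l1
  obtain ⟨a, a0, ha⟩ := PN.exists_lead l1
  obtain ⟨z, hz⟩ := n.i_mem_Gam.1 hl a
  have h1 := h a
  have h2 := hx a
  rw [PN.lead_right _ ha le_rfl, hz] at h1
  have : |(z : ℝ)| < 1 := abs_lt.2 ⟨by linarith [h1.1, h2.2], by linarith [h1.2, h2.1]⟩
  have : z = 0 := Int.abs_lt_one_iff.1 (by exact_mod_cast this)
  exact a0 (by rw [hz, this, Int.cast_zero])

theorem i_int (m m' : ℕ) (g : n.Ph) (h : Nat.Coprime m m') (h1 : PN.dil m g ∈ n.Lam 1)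
    (h2 : PN.dil m' g ∈ n.Lam 1) : g ∈ n.Lam 1 := Seed.mem_Lam.2 fun a j => by
  obtain ⟨z, hz⟩ := Seed.mem_Lam.1 h1 a j
  obtain ⟨z', hz'⟩ := Seed.mem_Lam.1 h2 a j
  rw [Seed.co_dil, one_pow, one_mul] at hz hz'
  have := int_gcd (u := m ^ j) (v := m' ^ j) (θ := PN.co g a j) ⟨z, by exact_mod_cast hz⟩
    ⟨z', by exact_mod_cast hz'⟩
  rw [(h.pow j j).gcd_eq_one] at this
  simpa using this

theorem i_bez (m m' : ℕ) (h : Nat.Coprime m m') : ∀ g ∈ n.Lam 1,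
    ∃ a ∈ n.Lam 1, ∃ b ∈ n.Lam 1, g = PN.dil m a * PN.dil m' b := by
  have hd : ∀ (k : ℕ) (g : n.Ph), g ∈ n.Lam 1 → PN.dil k g ∈ n.Lam 1 := fun k g hg =>
    rat_one (n := n) ▸ rat_dil 1 k g (rat_one (n := n) ▸ hg)
  have : ∀ i w, w + i = s + 1 → ∀ g ∈ n.Lam 1, n.Ag w g.1 0 →
      ∃ a ∈ n.Lam 1, ∃ b ∈ n.Lam 1, g = PN.dil m a * PN.dil m' b := by
    intro i
    induction i with
    | zero =>
      intro w hw g _ h0
      refine ⟨1, one_mem _, 1, one_mem _, ?_⟩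
      rw [map_one, map_one, mul_one]
      exact Subtype.ext (PN.Ag.eq (hw ▸ h0))
    | succ i ih =>
      intro w hw g hg h0
      have hb : ∀ j, ∃ A B : ℤ, (m : ℝ) ^ j * A + (m' : ℝ) ^ j * B = 1 := fun j => by
        obtain ⟨A, B, e⟩ := Nat.isCoprime_iff_coprime.2 (h.pow j j)
        exact ⟨A, B, by rw [mul_comm, mul_comm _ (B : ℝ)]; exact_mod_cast e⟩
      choose A B hAB using hb
      have mk : ∀ A : ℕ → ℤ, ∃ u ∈ n.Lam 1, ∀ a j, PN.co u a j = A j * PN.co g a j := fun A => by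
        have c : ∀ a j, (∑ i ∈ (g.1 a).support, monomial i (A i * (g.1 a).coeff i)).coeff j =
            A j * PN.co g a j := fun a j => by
          rw [finset_sum_coeff]
          simp only [coeff_monomial, sum_ite_eq', mem_support_iff, PN.co]
          split_ifs with h
          · rfl
          · rw [not_not.1 h, mul_zero]
        refine ⟨⟨fun a => ∑ i ∈ (g.1 a).support, monomial i (A i * (g.1 a).coeff i),
          n.mem_P.2 fun a => natDegree_le_iff_coeff_eq_zero.2 fun j hj => ?_⟩,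
          Seed.mem_Lam.2 fun a j => ?_, c⟩
        · rw [c, co_zero g hj, mul_zero]
        · obtain ⟨z, hz⟩ := Seed.mem_Lam.1 hg a j
          exact ⟨A j * z, (c a j).trans (by rw [hz]; push_cast; ring)⟩
      obtain ⟨u, hu, cu⟩ := mk A
      obtain ⟨v, hv, cv⟩ := mk B
      have z : ∀ (k : ℝ) (A : ℕ → ℤ) (u : n.Ph), (∀ a j, PN.co u a j = A j * PN.co g a j) →
          n.Ag w (PN.dil k u)⁻¹.1 0 := fun k A u cu a ha => Polynomial.ext fun j => by
        have := Seed.co_inv (PN.dil k u) a j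
        rw [Seed.co_dil, cu, PN.co.eq_1 g, h0 a ha] at this
        simpa [PN.co] using this
      obtain ⟨a, ha, b, hb, e⟩ := ih (w + 1) (by omega) ((PN.dil m u)⁻¹ * g * (PN.dil m' v)⁻¹)
        (mul_mem (mul_mem (inv_mem (hd m u hu)) hg) (inv_mem (hd m' v hv))) fun c hc => by
          have c1 := Nat.lt_succ_iff.1 hc
          rw [Subgroup.coe_mul, Subgroup.coe_mul, PN.lead_right _ (z _ B v cv) c1,
            PN.lead_left (z _ A u cu) _ c1]
          refine Polynomial.ext fun j => ?_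
          have e1 := Seed.co_inv (PN.dil m u) c j
          have e2 := Seed.co_inv (PN.dil m' v) c j
          rw [Seed.co_dil, cu] at e1
          rw [Seed.co_dil, cv] at e2
          simp only [PN.co] at e1 e2
          rw [coeff_add, coeff_add, e1, e2, PN.zero_apply, coeff_zero]
          linear_combination (-(g.1 c).coeff j) * hAB j
      refine ⟨u * a, mul_mem hu ha, b * v, mul_mem hb hv, ?_⟩
      rw [map_mul, map_mul, mul_assoc, ← mul_assoc (PN.dil _ a), ← e]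
      group
  exact fun g hg => this s 1 (add_comm _ _) g hg (PN.ag_one _ _)

variable (F : n.G ℝ → ℂ)

theorem i_okA (c0 : ℝ) {K : ℕ} (hK : s + 2 ≤ K) : (n.inst F c0 K).OkA where
  cv := rfl
  kK := hK
  lam := rat_one
  rat_dil := rat_dil
  rat_mono := rat_mono
  rat_gcd := rat_gcd
  rat_root := rat_root
  rat_cop := rat_cop
  rat_mod Q a b g h e := rat_mod Q a b K g (by omega) h e
  fd_ex g := by
    obtain ⟨l, hl, h⟩ := n.i_cube_ex (PN.ev 0 g)
    exact ⟨PN.cst l, n.i_cst hl, PN.aff_cst _ _ _, _, h,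
      by rw [map_mul, ← PN.aff_zero]; rfl⟩
  fd_uniq := by
    rintro _ ⟨w, hw, rfl⟩ (l : n.Ph) hl ⟨w', hw', (e : PN.cst w * l = PN.cst w')⟩
    change l = 1
    have e1 : l = PN.cst (w⁻¹ * w') := by rw [map_mul, map_inv, ← e, inv_mul_cancel_left]
    have e2 := ev_Lam 0 hl
    rw [e1, PN.ev_cst'] at e2
    rw [e1, n.i_cube_uniq hw e2 (by rwa [mul_inv_cancel_left]), map_one]

theorem i_ok : ∃ c0 : ℝ, 1 ≤ c0 ∧ ∃ K0 : ℕ, ∀ K, K0 ≤ K → ∀ F, (n.inst F c0 K).toDS.Ok := by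
  obtain ⟨ρ, ρ0, hρ⟩ := n.rig_ln
  obtain ⟨K0, h0⟩ := n.toPN.cov_ln
  have c1 : 1 ≤ 1 + 100 ^ (s + 1) / ρ := le_add_of_nonneg_right (by positivity)
  have c2 : 100 ^ (s + 1) ≤ (1 + 100 ^ (s + 1) / ρ) * ρ := by
    rw [add_mul, div_mul_cancel₀ _ ρ0.ne']
    linarith
  refine ⟨_, c1, K0 + 1, fun K hK F => ?_⟩
  generalize 1 + 100 ^ (s + 1) / ρ = c0 at *
  have c3 : 0 < c0 := by linarith
  exact
    { dil_one := Seed.dil_one
      dil_dil := fun a b g => (Seed.dil_dil a b g).trans (by rw [mul_comm]; rfl)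
      mem := fun k g hg => (rat_one (n := n)).le (rat_dil 1 k g ((rat_one (n := n)).ge hg))
      bez := n.i_bez
      int := n.i_int
      nonneg := fun κ y g => mul_nonneg c3.le (PN.ln_nonneg _ _ g)
      one := fun κ y => (congrArg (c0 * ·) (PN.ln_one _ _)).trans (mul_zero _)
      inv := fun κ y g => congrArg (c0 * ·) (PN.ln_inv _ _ g)
      mul := fun κ y g h => (mul_le_mul_of_nonneg_left (PN.ln_mul _ _ g h) c3.le).trans
        (mul_add _ _ _).le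
      ndil := fun κ y a g => congrArg (c0 * ·) (PN.ln_dil κ y a g)
      shift := fun κ y y' u g a1 a2 a3 a4 a5 a6 =>
        (mul_le_mul_of_nonneg_left (PN.ln_shift g a1 a2 a3 a4 a5 a6) c3.le).trans
          (mul_left_comm _ _ _).le
      rig := fun κ y c β w a1 a2 a3 a4 =>
        hρ _ y c β w a1 a2 a3 (le_of_mul_le_mul_left (le_trans a4 c2) c3)
      cv := Nat.one_le_cast.2 (show 1 ≤ K by omega)
      cov := fun ι κ y r δ L A v => h0 K (by omega) c0 c1 ι (κ * y) y r δ L A v }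

theorem i_okN {c0 : ℝ} (c1 : 1 ≤ c0) : ∃ K0 : ℕ, ∀ K, K0 ≤ K → ∀ F, (n.inst F c0 K).OkN := by
  obtain ⟨K1, h1⟩ := n.big_ln
  obtain ⟨D, hD⟩ := n.seed PN.nm0_mul
  obtain ⟨C, e, C1, -, hG⟩ := Cov.bil_gro n.toPN
  refine ⟨K1 + s + 1 + ⌈c0 * Fintype.card n.I⌉₊ + D + (e + 1) * D + ⌈c0 * (D * (2 * C)) ^ D⌉₊,
    fun K hK F => ?_⟩
  have c3 : 0 < c0 := by linarith
  have le : ∀ W y (g : n.Ph), PN.ln W y g ≤ c0 * PN.ln W y g := fun W y g =>
    le_mul_of_one_le_left (PN.ln_nonneg _ _ _) c1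
  refine ⟨fun κ y r Θ a1 a2 a3 => n.fine_ln c3 (mul_pos a1 a2).ne' y a3 Θ,
    fun κ y g a1 a2 a3 => ?_, ?_, fun κ y c T Q w a1 a2 a3 a4 a5 a6 a7 =>
      h1 K (by omega) (κ * y) y c T Q w a3 a4 ?_ ((le _ _ _).trans a6) a7,
    fun κ y r B b Wd A (g : n.Ph) a1 a2 a3 a4 a5 a6 a7 a8 a9 a10 _ => ?_⟩
  · change c0 * PN.ln (κ * y) y (PN.dil 0 g) ≤ (K * (1 + c0 * PN.ln (κ * y) y g) / κ) ^ K
    have t := mul_le_mul_of_nonneg_left (PN.ln_const g a1 a2 a3) c3.le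
    have v0 := mul_nonneg c3.le (PN.ln_nonneg (κ * y) y g)
    have k1 := (one_le_inv₀ a1).2 a2
    rw [mul_left_comm] at t
    generalize c0 * PN.ln (κ * y) y g = v at *
    have x1 : 1 ≤ (1 + v) * κ⁻¹ := one_le_mul_of_one_le_of_one_le (by linarith) k1
    rw [div_eq_mul_inv, mul_assoc]
    refine t.trans (le_trans ?_ (pw_le (C := 1) (e := s + 1) (by exact_mod_cast (by omega))
      (by omega) (by omega) x1))
    rw [one_mul, pow_succ]
    exact mul_le_mul (pow_le_pow_left₀ (by positivity) (le_mul_of_one_le_left (by positivity)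
      (by linarith)) _) (le_trans (by linarith) (le_mul_of_one_le_right (by linarith) k1)) v0
      (by positivity)
  · rintro κ y _ ⟨w, hw, rfl⟩
    refine le_trans (mul_le_mul_of_nonneg_left ((PN.ln_le_nm _ _ _).trans ?_) c3.le)
      (Nat.ceil_le.1 (show ⌈c0 * Fintype.card n.I⌉₊ ≤ K by omega))
    rw [PN.nm, PN.aff_cst, PN.nm0_cst, PN.nG]
    simpa using sum_le_card_nsmul univ (fun a => |w a|) 1 fun a _ =>
      abs_le.2 ⟨by linarith [(hw a).1], (hw a).2.le⟩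
  · exact (if_neg (by omega) : n.Rat Q = _).le a5
  · have r0 : 0 ≤ C * (1 + r) ^ e * r := by positivity
    obtain ⟨Q, γ, q1, q2, q3, q4⟩ := hD κ y _ B b Wd A g a1 a2 a3 r0 a5 a6 a7
      (le_trans (by omega) (show K ≤ #A from a8)) a9 fun a ha => by
        obtain ⟨b1, b2, l, hl, b3⟩ := a10 a ha
        refine ⟨b1, b2, l, hl, Cov.gro_le hG (by linarith) ((le _ _ _).trans ?_)⟩
        rw [← Seed.dil_one l]
        exact b3
    refine ⟨Q, γ, q1, q2.trans (Nat.pow_le_pow_right a5 (show D ≤ K by omega)),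
      lam_le_rat Q γ q3, ?_⟩
    change c0 * PN.ln (κ * y) y (g * γ⁻¹) ≤ (K * (1 + r) * Wd * B / κ) ^ K
    have w1 : (1 : ℝ) ≤ Wd := by exact_mod_cast a5
    have B1 : (1 : ℝ) ≤ B := le_trans (by exact_mod_cast a6) a7
    have x1 : 1 ≤ Wd * B / κ :=
      (one_le_div a1).2 (a2.trans (one_le_mul_of_one_le_of_one_le w1 B1))
    have e1 : ∀ u v : ℝ, u * v * Wd * B / κ = u * (v * (Wd * B / κ)) := fun u v => by ring
    rw [e1] at q4 ⊢
    generalize Wd * B / κ = x at *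
    have p1 : 1 ≤ (1 + r) ^ (e + 1) := one_le_pow₀ (by linarith)
    have p2 : 1 + C * (1 + r) ^ e * r ≤ 2 * C * (1 + r) ^ (e + 1) := by
      have : C * (1 + r) ^ e * r ≤ C * (1 + r) ^ e * (1 + r) := by gcongr; linarith
      rw [mul_assoc C _ (1 + r), ← pow_succ] at this
      nlinarith
    refine (mul_le_mul_of_nonneg_left ((PN.ln_le_nm _ _ _).trans q4) c3.le).trans (le_trans ?_
      (pw_le (C := c0 * (D * (2 * C)) ^ D) (e := (e + 1) * D) (Nat.ceil_le.1 (by omega))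
      (by omega) (by omega) (one_le_mul_of_one_le_of_one_le (by linarith) x1)))
    rw [mul_assoc c0, pow_mul, ← mul_pow, mul_pow (1 + r), mul_assoc (D : ℝ), ← mul_assoc (2 * C)]
    gcongr
    exact le_self_pow₀ x1 (by omega)

theorem i_okE (L : ℝ) (h : n.Gq) {c0 : ℝ} (c1 : 1 ≤ c0) : ∃ (Qf : ℝ → ℕ) (K0 : ℕ), ∀ K, K0 ≤ K →
    ∀ F, n.Test F L → (n.inst F c0 K).OkE Qf := by
  choose Q1 h1 h2 using h L
  obtain ⟨C, e, C1, -, hG⟩ := Cov.bil_gro n.toPN
  have cB := PN.one_le_cB (n := n.toPN)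
  refine ⟨fun β => if b : 0 < β then Q1 β b else 1, s + 1 + ⌈|L| * (2 ^ s * (C * 2 ^ e))⌉₊ +
    (e + 1) * (s + 1) + ⌈|L| * (n.cB * (3 * (2 ^ s * C)) ^ s * (s * 2 ^ s * C))⌉₊,
    fun K hK F hF => ?_⟩
  have c3 : 0 < c0 := by linarith
  have le : ∀ W y (g : n.Ph), PN.ln W y g ≤ c0 * PN.ln W y g := fun W y g =>
    le_mul_of_one_le_left (PN.ln_nonneg _ _ _) c1
  have lp : ∀ u x, ‖F (u * x) - F x‖ ≤ |L| * PN.nG u := fun u x =>
    (hF.lip u x).trans (mul_le_mul_of_nonneg_right (le_abs_self L) (PN.nG_nonneg u))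
  have ea : ∀ {W : ℝ} (y z : ℝ) (g : n.Ph), W ≠ 0 →
      PN.ev z g = PN.ev ((z - y) / W) (PN.aff W y g) := fun y z g hW => by
    rw [PN.ev_aff', mul_div_cancel₀ _ hW, sub_add_cancel]
  have ab : ∀ {W u : ℝ}, 0 < W → |u| ≤ 2 * W → |u / W| ≤ 2 := fun hW hu => by
    rwa [abs_div, abs_of_pos hW, div_le_iff₀ hW]
  refine ⟨fun t z γ m => hF.bd _, fun a t z γ m => ?_, fun a t z γ m => ?_, fun (t γ : n.Ph) m => ?_,
    fun (t : n.Ph) z (γ : n.Ph) m (l : n.Ph) hl => ?_,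
    fun κ y (ε t : n.Ph) z (γ : n.Ph) m a1 a2 a3 a4 => ?_,
    fun κ (t : n.Ph) z z' (γ : n.Ph) m a1 a2 a3 a4 => ?_,
    fun Q t z γ m hγ => test_per hF.inv Q K m γ (by omega) hγ _, fun β => ?_,
    fun β Q q t z γ a1 a2 a3 a4 a5 => ?_⟩
  · exact congrArg (fun u => F (u * PN.ev m γ)) (ev_dil a z t)
  · exact congrArg (fun u => F (PN.ev z t * u)) ((ev_dil a m γ).trans (by rw [Nat.cast_mul]))
  · change F (PN.ev (m : ℝ) (t * γ) * PN.ev ((0 : ℕ) : ℝ) 1) = F (PN.ev (m : ℝ) t * PN.ev (m : ℝ) γ)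
    rw [map_one, mul_one, map_mul]
  · change F (PN.ev z t * PN.ev (m : ℝ) (γ * l)) = F (PN.ev z t * PN.ev (m : ℝ) γ)
    rw [map_mul, ← mul_assoc]
    exact hF.inv _ _ (by simpa using ev_Lam (m : ℤ) hl)
  · change ‖F (PN.ev z (ε * t) * PN.ev (m : ℝ) γ) - F (PN.ev z t * PN.ev (m : ℝ) γ)‖ ≤
      K * (c0 * PN.ln (κ * y) y ε)
    change c0 * PN.ln (κ * y) y ε ≤ 1 at a4
    have v0 := mul_nonneg c3.le (PN.ln_nonneg (κ * y) y ε)
    have g := Cov.gro_le hG (by linarith) (le (κ * y) y ε)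
    rw [map_mul, mul_assoc]
    refine (lp _ _).trans ?_
    rw [ea y z ε (mul_pos a1 a2).ne']
    have b := PN.nG_ev' (ab (mul_pos a1 a2) (a3.trans_eq (mul_assoc _ _ _))) one_le_two
      (PN.aff (κ * y) y ε)
    generalize c0 * PN.ln (κ * y) y ε = v at *
    calc _ ≤ |L| * (2 ^ s * (C * (1 + v) ^ e * v)) := by gcongr; exact b.trans (by gcongr)
      _ ≤ |L| * (2 ^ s * (C * 2 ^ e * v)) := by gcongr; linarith
      _ = |L| * (2 ^ s * (C * 2 ^ e)) * v := by ring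
      _ ≤ K * v := mul_le_mul_of_nonneg_right (Nat.ceil_le.1 (by omega)) v0
  · change ‖F (PN.ev z t * PN.ev (m : ℝ) γ) - F (PN.ev z' t * PN.ev (m : ℝ) γ)‖ ≤
      (K * (1 + c0 * PN.ln (κ * 1) 1 t)) ^ K * (|z - z'| / κ)
    have v0 := mul_nonneg c3.le (PN.ln_nonneg (κ * 1) 1 t)
    have g := Cov.gro_le hG (by linarith) (le (κ * 1) 1 t)
    generalize c0 * PN.ln (κ * 1) 1 t = v at *
    rw [mul_one] at g
    rw [← inv_mul_cancel_right (PN.ev z t) (PN.ev z' t), mul_assoc]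
    refine (lp _ _).trans ?_
    rw [ea 1 z t a1.ne', ea 1 z' t a1.ne']
    have b := PN.nG_ev' (ab a1 a3) one_le_two (PN.aff κ 1 t)
    have b' := PN.nG_ev' (ab a1 a4) one_le_two (PN.aff κ 1 t)
    have d := PN.nG_ev_sub (ab a1 a3) (ab a1 a4) (PN.aff κ 1 t)
    rw [← sub_div, sub_sub_sub_cancel_right, abs_div, abs_of_pos a1] at d
    have g2 : PN.nm0 (PN.aff κ 1 t) ≤ C * (1 + v) ^ (e + 1) := by
      rw [pow_succ, ← mul_assoc]
      exact g.trans (by gcongr; linarith)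
    have p1 : 1 ≤ 2 ^ s * C * (1 + v) ^ (e + 1) := one_le_mul_of_one_le_of_one_le
      (one_le_mul_of_one_le_of_one_le (one_le_pow₀ one_le_two) C1) (one_le_pow₀ (by linarith))
    have p2 : 2 ^ s * PN.nm0 (PN.aff κ 1 t) ≤ 2 ^ s * C * (1 + v) ^ (e + 1) := by
      rw [mul_assoc]
      gcongr
    have n1 := PN.nG_nonneg (PN.ev ((z - 1) / κ) (PN.aff κ 1 t))
    have n2 := PN.nG_nonneg (PN.ev ((z' - 1) / κ) (PN.aff κ 1 t))
    calc _ ≤ |L| * (n.cB * (3 * (2 ^ s * C * (1 + v) ^ (e + 1))) ^ s *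
          (s * 2 ^ s * (|z - z'| / κ) * (C * (1 + v) ^ (e + 1)))) := by
          gcongr
          refine (PN.nG_mul_inv _ _).trans ?_
          gcongr
          · exact PN.nG_nonneg _
          · linarith
          · exact d.trans (by gcongr)
      _ = |L| * (n.cB * (3 * (2 ^ s * C)) ^ s * (s * 2 ^ s * C)) * (1 + v) ^ ((e + 1) * (s + 1)) *
          (|z - z'| / κ) := by
          rw [pow_mul]
          generalize (1 + v) ^ (e + 1) = x
          ring
      _ ≤ _ := mul_le_mul_of_nonneg_right (pw_le (Nat.ceil_le.1 (by omega)) (by omega) (by omega)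
          (by linarith)) (by positivity)
  · split_ifs with b
    · exact h1 β b
    · exact le_rfl
  · rw [dif_pos a1] at a5 ⊢
    obtain ⟨i, hi⟩ : Q ^ K ∣ q := a4
    have q0 : Q ≠ 0 := by
      rintro rfl
      rw [zero_pow (by omega), zero_mul] at hi
      omega
    refine h2 β a1 F hF Q q _ γ (by omega) a2 ((if_neg q0 : n.Rat Q = _).le a3) a5 fun m => ?_
    rw [hi]
    clear hi
    induction i with
    | zero => rfl
    | succ i ih => rw [Nat.mul_succ, ← add_assoc, test_per hF.inv Q K _ γ (by omega) a3, ih]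

end NS

theorem st_Inst : InstSt := by
  intro s n L h
  obtain ⟨c0, c1, K1, h1⟩ := n.i_ok
  obtain ⟨K2, h2⟩ := n.i_okN c1
  obtain ⟨Qf, K3, h3⟩ := n.i_okE L h c1
  exact ⟨c0, K1 + K2 + K3 + s + 2, Qf, by linarith, fun F hF => ⟨h1 _ (by omega) F, rfl, rfl,
    n.i_okA F c0 (by omega), h2 _ (by omega) F, h3 _ (by omega) F hF⟩⟩

end Pool.Agent.Lib.MP_028aa5_nt.N
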