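import Pool.Agent.Lib.MP_028aa5_nt.N.Split

/-! The quotient by a central vector. -/

namespace Pool.Agent.Lib.MP_028aa5_nt.N

open Finset
open scoped Classical

namespace Quo

variable {s : ℕ} {n : NS s} {v : n.I → ℤ} {o : n.I}

theorem sum_ne {M : Type} [AddCommMonoid M] (f : n.I → M) (h : f o = 0) :
    ∑ u : {u // u ≠ o}, f u = ∑ u, f u := by
  rw [Fintype.sum_eq_add_sum_subtype_ne f o, h, zero_add]

theorem cen_k (hv : PN.Cen (n := n.toPN) (PN.zv v)) (b c : n.I) : ∑ a, v a * n.k a b c = 0 := by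
  have := congrFun (hv (PN.zv (Pi.single b 1))) c
  simp only [PN.br, PN.zv, Pi.single_apply, Int.cast_ite, Int.cast_one, Int.cast_zero, mul_ite,
    mul_one, mul_zero, sum_ite_eq', mem_univ, if_true, PN.zero_apply] at this
  have e : ((∑ a, v a * n.k a b c : ℤ) : ℝ) = 0 := by
    push_cast
    rw [← this]
    exact sum_congr rfl fun a _ => mul_comm _ _
  exact_mod_cast e

variable (v o) in
/-- the new structure constants -/
def kq (a b c : n.I) : ℤ := v o * n.k a b c - v c * n.k a b o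

theorem kq_anti (a b c : n.I) : kq v o a b c = -kq v o b a c := by
  rw [kq, kq, n.anti a b c, n.anti a b o]; ring

theorem kq_cen (hv : PN.Cen (n := n.toPN) (PN.zv v)) (b c : n.I) :
    ∑ a, v a * kq v o a b c = 0 := by
  have : ∀ a, v a * kq v o a b c = v o * (v a * n.k a b c) - v c * (v a * n.k a b o) :=
    fun a => by rw [kq]; ring
  simp only [this, sum_sub_distrib, ← mul_sum, cen_k hv, mul_zero, sub_zero]

theorem kq_cen' (hv : PN.Cen (n := n.toPN) (PN.zv v)) (b c : n.I) :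
    ∑ a, v a * kq v o b a c = 0 := by
  simp only [kq_anti b, mul_neg, sum_neg_distrib, kq_cen hv, neg_zero]

theorem kq_kq (hv : PN.Cen (n := n.toPN) (PN.zv v)) (a b c d : n.I) :
    ∑ u, kq v o b c u * kq v o a u d =
      v o ^ 2 * ∑ u, n.k b c u * n.k a u d - v o * v d * ∑ u, n.k b c u * n.k a u o := by
  have : ∀ u, kq v o b c u * kq v o a u d = v o ^ 2 * (n.k b c u * n.k a u d) -
      v o * v d * (n.k b c u * n.k a u o) - n.k b c o * (v u * kq v o a u d) := fun u => by
    simp only [kq]; ring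
  simp only [this, sum_sub_distrib, ← mul_sum, kq_cen' hv, mul_zero, sub_zero]

/-- the quotient -/
noncomputable def quo (hv : PN.Cen (n := n.toPN) (PN.zv v))
    (hm : ∀ c, v c ≠ 0 → n.wt o ≤ n.wt c) : NS s where
  I := {u // u ≠ o}
  wt a := n.wt a.1
  k a b c := kq v o a.1 b.1 c.1
  w1 a := n.w1 a.1
  ws a := n.ws a.1
  anti a b c := kq_anti _ _ _
  jac a b c d := by
    have z : ∀ a b, kq v o a b o = 0 := fun a b => sub_self _
    rw [sum_ne (fun u => kq v o b c u * kq v o a u d + kq v o c a u * kq v o b u d +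
      kq v o a b u * kq v o c u d) (by simp [z])]
    have j1 := n.jac a b c d
    have j2 := n.jac a b c o
    simp only [sum_add_distrib, kq_kq hv] at j1 j2 ⊢
    linear_combination v o ^ 2 * j1 - v o * v d * j2
  fil a b c h := by
    by_cases k0 : n.k a b c = 0
    · rw [kq, k0, mul_zero, zero_sub, neg_ne_zero, mul_ne_zero_iff] at h
      exact (n.fil _ _ _ h.2).trans (hm _ h.1)
    · exact n.fil _ _ _ k0
  dv a b c := dvd_sub ((n.dv _ _ _).mul_left _) ((n.dv _ _ _).mul_left _)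

variable (v o) in
/-- the matrix of the projection -/
noncomputable def Aq (a c : n.I) : ℚ :=
  (if a = c then (v o : ℚ)⁻¹ else 0) - if a = o then (v c : ℚ) / (v o : ℚ) ^ 2 else 0

theorem Aq_o (h0 : v o ≠ 0) (a : n.I) : Aq v o a o = 0 := by
  have : (v o : ℚ) ≠ 0 := by exact_mod_cast h0
  unfold Aq
  split_ifs
  · field_simp; ring
  · simp

theorem Aq_sum (a : n.I) (f : n.I → ℤ) (h : ∑ c, v c * f c = 0) :
    ∑ c, Aq v o a c * f c = (v o : ℚ)⁻¹ * f a := by
  have e : (∑ c, (v c : ℚ) * f c) = 0 := by exact_mod_cast h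
  simp only [Aq, sub_mul, sum_sub_distrib, ite_mul, zero_mul, sum_ite_eq, mem_univ, if_true]
  split_ifs
  · simp only [div_mul_eq_mul_div, ← sum_div, e, zero_div, sub_zero]
  · simp

/-- the projection -/
noncomputable def pq (hv : PN.Cen (n := n.toPN) (PN.zv v))
    (hm : ∀ c, v c ≠ 0 → n.wt o ≤ n.wt c) (h0 : v o ≠ 0) : Mor n.toPN (quo hv hm).toPN where
  A a c := Aq v o a c.1
  hom a b u := by
    have : (v o : ℚ) ≠ 0 := by exact_mod_cast h0
    change ∑ c, (n.k a b c : ℚ) * Aq v o c u.1 = ∑ c : {u // u ≠ o}, ∑ d : {u // u ≠ o},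
      Aq v o a c.1 * Aq v o b d.1 * kq v o c.1 d.1 u.1
    have e : ∀ c, ∑ d : {u // u ≠ o}, Aq v o a c * Aq v o b d.1 * kq v o c d.1 u.1 =
        (v o : ℚ)⁻¹ * (Aq v o a c * kq v o c b u.1) := fun c => by
      rw [sum_ne (fun d => Aq v o a c * Aq v o b d * kq v o c d u.1) (by simp [Aq_o h0])]
      simp only [mul_assoc, ← mul_sum, Aq_sum b _ (kq_cen' hv c u.1)]
      ring
    simp only [e]
    rw [← mul_sum, sum_ne (fun c => Aq v o a c * kq v o c b u.1) (by simp [Aq_o h0]),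
      Aq_sum a _ (kq_cen hv b u.1)]
    simp only [Aq, mul_sub, sum_sub_distrib, mul_ite, mul_zero, sum_ite_eq', mem_univ, if_true, kq]
    push_cast
    field_simp
  fil a c h := by
    change n.wt a ≤ n.wt c.1
    unfold Aq at h
    by_cases e : a = c.1
    · rw [e]
    · rw [if_neg e, zero_sub, neg_ne_zero] at h
      split_ifs at h with e'
      · rw [e']
        exact hm _ fun z => h (by simp [z])
      · exact absurd rfl h

variable (hv : PN.Cen (n := n.toPN) (PN.zv v)) (hm : ∀ c, v c ≠ 0 → n.wt o ≤ n.wt c)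
  (h0 : v o ≠ 0)

theorem pq_app (x : n.G ℝ) (c : {u // u ≠ o}) :
    (pq hv hm h0).app ℝ x c = x c.1 / v o - v c.1 * x o / v o ^ 2 := by
  change ∑ a, Aq v o a c.1 • x a = _
  simp only [Aq, sub_smul, sum_sub_distrib, ite_smul, zero_smul, sum_ite_eq', mem_univ, if_true,
    Rat.smul_def]
  push_cast
  ring

/-- the section -/
noncomputable def sec (y : (quo hv hm).G ℝ) : n.G ℝ :=
  fun a => if h : a = o then 0 else v o * y ⟨a, h⟩

theorem pq_sec (y : (quo hv hm).G ℝ) : (pq hv hm h0).app ℝ (sec hv hm y) = y := by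
  have : (v o : ℝ) ≠ 0 := by exact_mod_cast h0
  funext c
  refine (pq_app hv hm h0 _ c).trans ?_
  simp only [sec, dif_neg c.2, dif_pos, mul_zero, zero_div, sub_zero]
  exact mul_div_cancel_left₀ _ this

theorem sec_pq (x : n.G ℝ) :
    x = (x o / v o) • PN.zv v * sec hv hm ((pq hv hm h0).app ℝ x) := by
  have : (v o : ℝ) ≠ 0 := by exact_mod_cast h0
  rw [Split.cen_mul (Split.cen_smul hv _)]
  funext a
  simp only [PN.add_apply, PN.smul_apply, PN.zv, sec, smul_eq_mul]
  split_ifs with h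
  · rw [h]; field_simp; simp
  · rw [pq_app]; field_simp; ring

theorem sec_nG (y : (quo hv hm).G ℝ) : PN.nG (sec hv hm y) = |(v o : ℝ)| * PN.nG y := by
  rw [PN.nG, ← sum_ne (o := o) _ (by simp [sec]), PN.nG, mul_sum]
  exact sum_congr rfl fun c _ => by simp only [sec, dif_neg c.2, abs_mul]

theorem sec_mem {y : (quo hv hm).G ℝ} (h : y ∈ (quo hv hm).Gam) : sec hv hm y ∈ n.Gam := by
  intro a
  unfold sec
  split_ifs with e
  · exact zero_mem _
  · rw [← zsmul_eq_mul]
    exact AddSubgroup.zsmul_mem _ (h ⟨a, e⟩) _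

end Quo

open Quo in
theorem st_Quo : QuoSt := by
  intro s n v v0 hv
  obtain ⟨o, ho, hm⟩ := exists_min_image {a | v a ≠ 0} n.wt (by
    obtain ⟨a, ha⟩ := Function.ne_iff.1 v0
    exact ⟨a, by simpa using ha⟩)
  replace hm : ∀ c, v c ≠ 0 → n.wt o ≤ n.wt c := fun c hc => hm c (by simpa using hc)
  have h0 : v o ≠ 0 := by simpa using ho
  refine ⟨quo hv hm, pq hv hm h0, |(v o : ℝ)|, ?_, fun F L hF hE => ?_⟩
  · have := n.w1 o
    change ∑ a : {u // u ≠ o}, n.wt a.1 < ∑ a, n.wt a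
    rw [Fintype.sum_eq_add_sum_subtype_ne n.wt o]
    omega
  have k : ∀ x, F x = F (sec hv hm ((pq hv hm h0).app ℝ x)) := fun x => by
    conv_lhs => rw [sec_pq hv hm h0 x, hE]
    simp
  have m : ∀ y y', F (sec hv hm (y * y')) = F (sec hv hm y * sec hv hm y') := fun y y' => by
    rw [k (sec hv hm y * _), map_mul, pq_sec, pq_sec]
  refine ⟨fun y => F (sec hv hm y), ⟨fun y => hF.bd _, fun y γ h => ?_, fun u y => ?_⟩, k⟩
  · rw [m, hF.inv _ _ (sec_mem hv hm h)]
  · rw [m]
    exact (hF.lip _ _).trans_eq (by rw [sec_nG]; ring)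

end Pool.Agent.Lib.MP_028aa5_nt.N
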