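import Pool.Agent.Lib.MP_028aa5_nt.N.Defs

/-! Adapted bases of filtered vector spaces. -/

namespace Pool.Agent.Lib.MP_028aa5_nt.N.Con

open Finset Module
open scoped Classical

variable {V : Type} [AddCommGroup V] [Module ℚ V]

theorem ex_proj (W : Submodule ℚ V) : ∃ p : V →ₗ[ℚ] V, (∀ x, p x ∈ W) ∧ ∀ x ∈ W, p x = x := by
  obtain ⟨p, hp⟩ := LinearMap.exists_extend (LinearMap.id : W →ₗ[ℚ] W)
  exact ⟨W.subtype ∘ₗ p, fun x => (p x).2, fun x hx =>
    congrArg Subtype.val (LinearMap.congr_fun hp ⟨x, hx⟩)⟩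

/-- commuting projections onto the members of a chain -/
theorem ex_chain (W : ℕ → Submodule ℚ V) (h : ∀ i, W (i + 1) ≤ W i) : ∃ P : ℕ → V →ₗ[ℚ] V,
    (∀ i x, P i x ∈ W i) ∧ (∀ i, ∀ x ∈ W i, P i x = x) ∧ ∀ i j x, i ≤ j → P j (P i x) = P j x := by
  choose p h1 h2 using fun i => ex_proj (W i)
  let P : ℕ → V →ₗ[ℚ] V := fun i => Nat.rec (p 0) (fun i q => p (i + 1) ∘ₗ q) i
  have a : ∀ i x, P i x ∈ W i := fun i x => by
    cases i
    · exact h1 _ _
    · exact h1 _ _
  have b : ∀ i, ∀ x ∈ W i, P i x = x := fun i => by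
    induction i with
    | zero => exact h2 0
    | succ i ih =>
      intro x hx
      show p (i + 1) (P i x) = x
      rw [ih x (h i hx), h2 _ x hx]
  refine ⟨P, a, b, fun i j x hij => ?_⟩
  induction j, hij using Nat.le_induction with
  | base => exact b _ _ (a _ _)
  | succ j _ ih =>
    show p (j + 1) (P j (P i x)) = p (j + 1) (P j x)
    rw [ih]

/-- an adapted basis modulo the last member, with its coordinates -/
theorem ex_basis (s : ℕ) (W : ℕ → Submodule ℚ V) (h : ∀ i, W (i + 1) ≤ W i)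
    [FiniteDimensional ℚ (W 0)] : ∃ (I : Type) (_ : Fintype I) (wt : I → ℕ) (v : I → V)
    (l : I → V →ₗ[ℚ] ℚ), (∀ a, wt a < s) ∧ (∀ a, v a ∈ W (wt a)) ∧
    (∀ a, ∀ x ∈ W (wt a + 1), l a x = 0) ∧ (∀ a b, l a (v b) = if a = b then 1 else 0) ∧
    (∀ x ∈ W 0, x - ∑ a, l a x • v a ∈ W s) ∧
    ∀ i < s, #{a | wt a = i} + finrank ℚ (W (i + 1)) = finrank ℚ (W i) := by
  obtain ⟨P, a1, a2, a3⟩ := ex_chain W h
  have an : Antitone W := antitone_nat_of_succ_le h
  have fd : ∀ i, FiniteDimensional ℚ (W i) := fun i =>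
    Submodule.finiteDimensional_of_le (an (Nat.zero_le i))
  let E : ℕ → V →ₗ[ℚ] V := fun i => P i - P (i + 1)
  have e1 : ∀ i x, E i x ∈ W i := fun i x => sub_mem (a1 _ _) (h i (a1 _ _))
  have e2 : ∀ i, ∀ x ∈ W (i + 1), E i x = 0 := fun i x hx => by
    show P i x - P (i + 1) x = 0
    rw [a2 i x (h i hx), a2 _ x hx, sub_self]
  have e3 : ∀ i j x, E i (E j x) = if i = j then E j x else 0 := fun i j x => by
    split_ifs with c
    · subst c
      show P i (E i x) - P (i + 1) (P i x - P (i + 1) x) = E i x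
      rw [a2 i _ (e1 i x), map_sub, a3 _ _ _ (Nat.le_succ i), a3 _ _ _ le_rfl, sub_self, sub_zero]
    · rcases Nat.lt_or_gt_of_ne c with c | c
      · exact e2 i _ (an c (e1 j x))
      · show P i (P j x - P (j + 1) x) - P (i + 1) (P j x - P (j + 1) x) = 0
        rw [map_sub, map_sub, a3 _ _ _ c.le, a3 _ _ _ c, a3 j _ _ (by omega),
          a3 (j + 1) _ _ (by omega)]
        simp
  have fe : ∀ i, FiniteDimensional ℚ (LinearMap.range (E i)) := fun i =>
    Submodule.finiteDimensional_of_le (S₂ := W i) fun _ ⟨x, hx⟩ => hx ▸ e1 i x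
  let b := fun i => finBasis ℚ (LinearMap.range (E i))
  refine ⟨(i : Fin s) × Fin (finrank ℚ (LinearMap.range (E i))), inferInstance, fun a => a.1,
    fun a => b a.1 a.2, fun a => (b a.1).coord a.2 ∘ₗ (E a.1).rangeRestrict, fun a => a.1.2,
    fun a => ?_, fun a x hx => ?_, fun a c => ?_, fun x hx => ?_, fun i hi => ?_⟩
  · obtain ⟨x, hx⟩ := (b a.1 a.2).2
    show (b a.1 a.2 : V) ∈ W a.1
    exact hx ▸ e1 _ x
  · rw [LinearMap.comp_apply, show (E a.1).rangeRestrict x = 0 from Subtype.ext (e2 _ x hx),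
      map_zero]
  · obtain ⟨i, a⟩ := a
    obtain ⟨j, c⟩ := c
    obtain ⟨x, hx⟩ := (b j c).2
    by_cases e : i = j
    · subst e
      have : (E i).rangeRestrict (b i c) = b i c := Subtype.ext (by
        show E i (b i c) = _
        rw [← hx, e3, if_pos rfl])
      simp only [LinearMap.comp_apply, this, Basis.coord_apply, Basis.repr_self,
        Finsupp.single_apply, Sigma.mk.injEq, heq_eq_eq, true_and, eq_comm]
    · have : (E i).rangeRestrict (b j c) = 0 := Subtype.ext (by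
        show E i (b j c) = _
        rw [← hx, e3, if_neg fun u => e (Fin.ext u)]
        rfl)
      rw [LinearMap.comp_apply, this, map_zero, if_neg fun u => e (congrArg Sigma.fst u)]
  · have : ∀ i : Fin s, ∑ a, ((b i).coord a ∘ₗ (E i).rangeRestrict) x • (b i a : V) = E i x :=
      fun i => by
        have := congrArg (Submodule.subtype _) ((b i).sum_repr ((E i).rangeRestrict x))
        rw [map_sum] at this
        exact this
    rw [Fintype.sum_sigma, sum_congr rfl fun i _ => this i, Fin.sum_univ_eq_sum_range (E · x) s]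
    have t : ∑ i ∈ range s, E i x = P 0 x - P s x := sum_range_sub' (P · x) s
    rw [t, a2 0 x hx, sub_sub_cancel]
    exact a1 s x
  · have c1 : #{a : (i : Fin s) × Fin (finrank ℚ (LinearMap.range (E i))) | (a.1 : ℕ) = i} =
        finrank ℚ (LinearMap.range (E i)) := by
      rw [card_filter, Fintype.sum_sigma, sum_eq_single ⟨i, hi⟩]
      · simp
      · intro j _ hj
        simp [show (j : ℕ) ≠ i from fun u => hj (Fin.ext u)]
      · simp
    have c2 := Submodule.finrank_sup_add_finrank_inf_eq (LinearMap.range (E i)) (W (i + 1))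
    have c3 : LinearMap.range (E i) ⊔ W (i + 1) = W i :=
      le_antisymm (sup_le (fun _ ⟨x, hx⟩ => hx ▸ e1 i x) (h i)) fun x hx =>
        Submodule.mem_sup.2 ⟨_, ⟨x, rfl⟩, _, a1 (i + 1) x, by
          show P i x - _ + _ = x
          rw [a2 i x hx, sub_add_cancel]⟩
    have c4 : LinearMap.range (E i) ⊓ W (i + 1) = ⊥ := by
      refine eq_bot_iff.2 ?_
      rintro _ ⟨⟨x, rfl⟩, hx⟩
      have := e3 i i x
      rwa [if_pos rfl, e2 i _ hx, eq_comm] at this
    rw [c3, c4, finrank_bot, add_zero] at c2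
    rw [c1, c2]

/-- a common denominator -/
theorem ex_den {J : Type} [Finite J] (q : J → ℚ) : ∃ N : ℕ, 1 ≤ N ∧ ∀ j, ∃ z : ℤ, N * q j = z := by
  have := Fintype.ofFinite J
  refine ⟨∏ j, (q j).den, prod_pos fun j _ => (q j).den_pos, fun j => ?_⟩
  obtain ⟨m, hm⟩ : (q j).den ∣ ∏ j, (q j).den := dvd_prod_of_mem _ (mem_univ j)
  refine ⟨m * (q j).num, ?_⟩
  rw [hm]
  push_cast
  rw [← Rat.mul_den_eq_num]
  ring

/-- the constructor: a filtered algebra modulo its last member -/
theorem con (s : ℕ) (B : V →ₗ[ℚ] V →ₗ[ℚ] V) (W : ℕ → Submodule ℚ V) [FiniteDimensional ℚ (W 1)]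
    (h : ∀ i, 1 ≤ i → i ≤ s → W (i + 1) ≤ W i)
    (an : ∀ x ∈ W 1, ∀ y ∈ W 1, B x y + B y x ∈ W (s + 1))
    (jc : ∀ x ∈ W 1, ∀ y ∈ W 1, ∀ z ∈ W 1, B x (B y z) + B y (B z x) + B z (B x y) ∈ W (s + 1))
    (hb : ∀ i j, 1 ≤ i → 1 ≤ j → i ≤ s → j ≤ s + 1 → ∀ x ∈ W i, ∀ y ∈ W j,
      B x y ∈ W (min (i + j) (s + 1)))
    {J : Type} [Finite J] (f : J → V →ₗ[ℚ] ℚ) {D : ℕ} (hD : 1 ≤ D) :
    ∃ (n : NS s) (v : n.I → V) (l : n.I → V →ₗ[ℚ] ℚ), (∀ a, v a ∈ W (n.wt a)) ∧
      (∀ a i, n.wt a < i → i ≤ s + 1 → ∀ x ∈ W i, l a x = 0) ∧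
      (∀ a b, l a (v b) = if a = b then 1 else 0) ∧
      (∀ x ∈ W 1, x - ∑ a, l a x • v a ∈ W (s + 1)) ∧
      (∀ a b c, (n.k a b c : ℚ) = l c (B (v a) (v b))) ∧ (∀ a j, ∃ z : ℤ, f j (v a) = D * z) ∧
      ∀ i, 1 ≤ i → i ≤ s → #{a | n.wt a = i} + finrank ℚ (W (i + 1)) = finrank ℚ (W i) := by
  let W' : ℕ → Submodule ℚ V := fun i => W (min i s + 1)
  have h' : ∀ i, W' (i + 1) ≤ W' i := fun i => by
    by_cases c : i < s
    · simp only [W', min_eq_left c.le, min_eq_left (Nat.succ_le_of_lt c)]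
      exact h _ (by omega) c
    · simp only [W', min_eq_right (not_lt.1 c), min_eq_right (show s ≤ i + 1 by omega), le_refl]
  have an' : Antitone W' := antitone_nat_of_succ_le h'
  have le : ∀ i j, 1 ≤ i → i ≤ j → j ≤ s + 1 → W j ≤ W i := fun i j a b c => by
    have := an' (show i - 1 ≤ j - 1 by omega)
    simp only [W'] at this
    rwa [show min (j - 1) s + 1 = j by omega, show min (i - 1) s + 1 = i by omega] at this
  have ew : ∀ i ≤ s, W' i = W (i + 1) := fun i hi => by simp only [W', min_eq_left hi]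
  have : FiniteDimensional ℚ (W' 0) := by
    rw [ew 0 (Nat.zero_le s)]
    infer_instance
  obtain ⟨I, fI, wt, v, l, a1, a2, a3, a4, a5, a6⟩ := ex_basis s W' h'
  have b2 : ∀ a, v a ∈ W (wt a + 1) := fun a => by simpa [W', (a1 a).le] using a2 a
  have b3 : ∀ a i, wt a + 1 < i → i ≤ s + 1 → ∀ x ∈ W i, l a x = 0 := fun a i c d x hx =>
    a3 a x (by
      simp only [W', min_eq_left (Nat.succ_le_of_lt (a1 a))]
      exact le _ _ (by omega) c d hx)
  have b4 : ∀ a, ∀ x ∈ W (s + 1), l a x = 0 := fun a => b3 a _ (by have := a1 a; omega) le_rfl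
  have b5 : ∀ x ∈ W 1, x - ∑ a, l a x • v a ∈ W (s + 1) := by simpa [W'] using a5
  have v1 : ∀ a, v a ∈ W 1 := fun a => le _ _ le_rfl (by omega) (by have := a1 a; omega) (b2 a)
  have b6 : ∀ a b, B (v a) (v b) ∈ W (min (wt a + 1 + (wt b + 1)) (s + 1)) := fun a b =>
    hb _ _ (by omega) (by omega) (a1 a) (by have := a1 b; omega) _ (b2 a) _ (b2 b)
  have b7 : ∀ a b c d, ∑ u, l u (B (v b) (v c)) * l d (B (v a) (v u)) =
      l d (B (v a) (B (v b) (v c))) := fun a b c d => by
    have t := hb _ _ (by omega) (by omega) (a1 a) le_rfl _ (b2 a) _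
      (b5 _ (le _ _ le_rfl (by omega) (by omega) (b6 b c)))
    rw [min_eq_right (by omega)] at t
    have := b4 d _ t
    rw [map_sub, map_sub, sub_eq_zero] at this
    simp [this]
  obtain ⟨N1, n1, hN1⟩ := ex_den fun x : I × I × I => l x.2.2 (B (v x.1) (v x.2.1))
  obtain ⟨N2, n2, hN2⟩ := ex_den fun x : I × J => f x.2 (v x.1)
  choose z hz using fun a b c => hN1 (a, b, c)
  let N : ℕ := Kd s * D * N2 * N1
  have n0 : (N : ℚ) ≠ 0 := by
    have := NS.Kd_pos s
    positivity
  let k : I → I → I → ℤ := fun a b c => Kd s * D * N2 * z a b c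
  have hk : ∀ a b c, (k a b c : ℚ) = N * l c (B (v a) (v b)) := fun a b c => by
    simp only [k, N]
    push_cast
    rw [← hz]
    ring
  let n : NS s :=
    { I := I
      wt := fun a => wt a + 1
      k := k
      w1 := fun a => by omega
      ws := a1
      anti := fun a b c => by
        have := b4 c _ (an _ (v1 a) _ (v1 b))
        rw [map_add] at this
        have e : (k a b c : ℚ) = -k b a c := by rw [hk, hk]; linear_combination N * this
        exact_mod_cast e
      jac := fun a b c d => by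
        have := b4 d _ (jc _ (v1 a) _ (v1 b) _ (v1 c))
        rw [map_add, map_add, ← b7, ← b7, ← b7, ← sum_add_distrib, ← sum_add_distrib] at this
        have e : ∑ u, (k b c u * k a u d + k c a u * k b u d + k a b u * k c u d : ℚ) = 0 := by
          rw [← mul_zero ((N : ℚ) ^ 2), ← this, mul_sum]
          exact sum_congr rfl fun u _ => by simp only [hk]; ring
        exact_mod_cast e
      fil := fun a b c h0 => by
        by_contra hc
        have := a1 c
        have e := hk a b c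
        rw [b3 c _ (by omega) (by omega) _ (b6 a b), mul_zero] at e
        exact h0 (by exact_mod_cast e)
      dv := fun a b c => ⟨D * N2 * z a b c, by simp only [k]; ring⟩ }
  refine ⟨n, fun a => (N : ℚ) • v a, fun a => (N : ℚ)⁻¹ • l a, fun a => (W _).smul_mem _ (b2 a),
    fun a i c d x hx => ?_, fun a b => ?_, fun x hx => ?_, fun a b c => ?_, fun a j => ?_,
    fun i c d => ?_⟩
  · simp [b3 a i c d x hx]
  · simp [a4, n0]
  · simpa [smul_smul, mul_right_comm, n0] using b5 x hx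
  · show (k a b c : ℚ) = _
    simp [hk, n0]
  · obtain ⟨y, hy⟩ := hN2 (a, j)
    refine ⟨Kd s * N1 * y, ?_⟩
    simp only [N, map_smul, smul_eq_mul]
    push_cast
    rw [← hy]
    ring
  · have := a6 (i - 1) (by omega)
    rw [ew _ (by omega), ew _ (by omega), show i - 1 + 1 = i by omega] at this
    rw [← this]
    congr 2
    exact filter_congr fun a _ => by
      show wt a + 1 = i ↔ wt a = i - 1
      omega

end Pool.Agent.Lib.MP_028aa5_nt.N.Con
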