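import Pool.Agent.Lib.MP_028aa5_nt.N.StI
import Pool.Agent.Lib.MP_028aa5_nt.N.Bil
import Pool.Agent.Lib.MP_028aa5_nt.N.ConA

/-! Fourier decomposition along the centre; morphisms. -/

namespace Pool.Agent.Lib.MP_028aa5_nt.N

open Finset Polynomial MeasureTheory
open scoped Classical ComplexConjugate

namespace Split

theorem cont_e : Continuous e := by unfold e; fun_prop

theorem int_e (k : ℤ) : ∫ t in (0 : ℝ)..1, e (-(k * t)) = if k = 0 then 1 else 0 := by
  split_ifs with h
  · simp [h]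
  · have c : (2 * Real.pi * Complex.I * (-k) : ℂ) ≠ 0 := by
      simp [Real.pi_ne_zero, h]
    have := integral_exp_mul_complex (a := 0) (b := 1) c
    have e1 := e_int (-k)
    unfold e at e1 ⊢
    push_cast at e1 this ⊢
    rw [mul_one, e1, mul_zero, Complex.exp_zero, sub_self, zero_div] at this
    rw [← this]
    congr 1
    ext t
    congr 1
    ring

/-- the kernel of Fejer -/
noncomputable def K (N : ℕ) (t : ℝ) : ℝ := ‖∑ j : Fin N, e (j * t)‖ ^ 2 / N

theorem K_eq (N : ℕ) (t : ℝ) : (K N t : ℂ) =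
    ∑ p : Fin N × Fin N, (N : ℂ)⁻¹ * e (-(((p.1 : ℤ) - p.2 : ℤ) * t)) := by
  rw [K, ← mul_sum, Fintype.sum_prod_type]
  push_cast
  rw [← Complex.conj_mul', map_sum, sum_mul_sum, div_eq_inv_mul]
  congr 1
  refine sum_congr rfl fun i _ => sum_congr rfl fun j _ => ?_
  rw [conj_e, ← e_add]
  congr 1
  ring

theorem K_cont (N : ℕ) : Continuous (K N) := by
  have := cont_e
  unfold K
  fun_prop

theorem K_int {N : ℕ} (h : 1 ≤ N) : ∫ t in (0 : ℝ)..1, K N t = 1 := by
  have := cont_e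
  apply Complex.ofReal_injective
  rw [← intervalIntegral.integral_ofReal]
  simp only [K_eq]
  rw [intervalIntegral.integral_finset_sum fun p _ => Continuous.intervalIntegrable (by fun_prop) _ _]
  simp only [intervalIntegral.integral_const_mul, int_e, sub_eq_zero, Nat.cast_inj, Fin.val_inj]
  have : (N : ℂ) ≠ 0 := by exact_mod_cast (by omega : N ≠ 0)
  simp [Fintype.sum_prod_type, this]

theorem K_le (N : ℕ) (t : ℝ) (m : ℤ) (h : |t - m| ≤ 1 / 2) : K N t * |t - m| ^ 2 ≤ 1 / (4 * N) := by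
  have a := le_norm_e_sub_one h
  rw [e_sub_int] at a
  have b : (∑ j : Fin N, e (j * t)) * (e t - 1) = e (N * t) - 1 := by
    rw [Fin.sum_univ_eq_sum_range (fun j => e (j * t)), sum_mul]
    have := sum_range_sub (fun j : ℕ => e (j * t)) N
    rw [Nat.cast_zero, zero_mul, e_zero] at this
    rw [← this]
    refine sum_congr rfl fun j _ => ?_
    rw [mul_sub, ← e_add, mul_one]
    push_cast
    ring_nf
  have c : ‖∑ j : Fin N, e (j * t)‖ * (4 * |t - m|) ≤ 2 := by
    refine (mul_le_mul_of_nonneg_left a (norm_nonneg _)).trans ?_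
    rw [← norm_mul, b]
    exact (norm_sub_le _ _).trans (by rw [norm_e, norm_one]; norm_num)
  have d := pow_le_pow_left₀ (by positivity) c 2
  rw [K, div_mul_eq_mul_div, ← div_div]
  exact div_le_div_of_nonneg_right (by nlinarith) (by positivity)

theorem lip_cont {φ : ℝ → ℂ} {W : ℝ} (h : ∀ t t', ‖φ t - φ t'‖ ≤ W * |t - t'|) : Continuous φ :=
  continuous_iff_continuousAt.2 fun t => tendsto_iff_norm_sub_tendsto_zero.2
    (squeeze_zero (fun _ => norm_nonneg _) (fun u => h u t) (by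
      have : Continuous fun u => W * |u - t| := by fun_prop
      simpa using this.tendsto t))

theorem fej (W δ : ℝ) (hδ : 0 < δ) : ∃ N : ℕ, 1 ≤ N ∧ ∀ φ : ℝ → ℂ, Function.Periodic φ 1 →
    (∀ t t', ‖φ t - φ t'‖ ≤ W * |t - t'|) → ‖φ 0 - ∑ p : Fin N × Fin N, (N : ℂ)⁻¹ *
      ∫ t in (0 : ℝ)..1, φ t * e (-(((p.1 : ℤ) - p.2 : ℤ) * t))‖ ≤ δ := by
  set η := δ / (2 * (|W| + 1)) with hη
  have η0 : 0 < η := by positivity
  obtain ⟨N, hN⟩ := exists_nat_ge (1 / η ^ 2 + 1)
  have p0 : 0 < 1 / η ^ 2 := by positivity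
  have N1 : (1 : ℝ) ≤ N := by linarith
  refine ⟨N, by exact_mod_cast N1, fun φ per lip => ?_⟩
  have c := lip_cont lip
  have ce := cont_e
  have cK := K_cont N
  have i1 := K_int (N := N) (by exact_mod_cast N1)
  have e1 : ∑ p : Fin N × Fin N, (N : ℂ)⁻¹ *
      ∫ t in (0 : ℝ)..1, φ t * e (-(((p.1 : ℤ) - p.2 : ℤ) * t)) = ∫ t in (0 : ℝ)..1, φ t * K N t := by
    simp only [K_eq, mul_sum]
    rw [intervalIntegral.integral_finset_sum fun p _ =>
      Continuous.intervalIntegrable (by fun_prop) _ _]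
    refine sum_congr rfl fun p _ => ?_
    rw [← intervalIntegral.integral_const_mul]
    simp only [mul_left_comm]
  have e2 : φ 0 = ∫ t in (0 : ℝ)..1, φ 0 * K N t := by
    rw [intervalIntegral.integral_const_mul, intervalIntegral.integral_ofReal, i1]
    simp
  rw [e1, e2, ← intervalIntegral.integral_sub (Continuous.intervalIntegrable (by fun_prop) _ _)
    (Continuous.intervalIntegrable (by fun_prop) _ _)]
  refine (intervalIntegral.norm_integral_le_of_norm_le zero_le_one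
    (g := fun t => |W| * η * K N t + |W| * η) (Filter.Eventually.of_forall fun t _ => ?_)
    (Continuous.intervalIntegrable (by fun_prop) _ _)).trans ?_
  · have K0 : 0 ≤ K N t := by unfold K; positivity
    have a := K_le N t _ (abs_sub_round t)
    have b : ‖φ 0 - φ t‖ ≤ |W| * |t - round t| := by
      have := lip 0 (t - round t * 1)
      rw [per.sub_int_mul_eq, mul_one, zero_sub, abs_neg] at this
      exact this.trans (mul_le_mul_of_nonneg_right (le_abs_self W) (abs_nonneg _))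
    have d : 1 / (4 * N : ℝ) ≤ η ^ 2 := by
      rw [div_le_iff₀ (by positivity)]
      have : 1 ≤ (N : ℝ) * η ^ 2 := by
        rw [← div_le_iff₀ (by positivity)]; linarith
      nlinarith
    have f : K N t * |t - round t| ≤ η * K N t + η := by
      refine le_of_mul_le_mul_left ?_ η0
      nlinarith [mul_nonneg K0 (sq_nonneg (|t - round t| - η)), mul_nonneg K0 (sq_nonneg η),
        mul_nonneg K0 (sq_nonneg (|t - round t|))]
    rw [← sub_mul, norm_mul, Complex.norm_real, Real.norm_of_nonneg K0]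
    calc _ ≤ |W| * |t - round t| * K N t := mul_le_mul_of_nonneg_right b K0
      _ = |W| * (K N t * |t - round t|) := by ring
      _ ≤ |W| * (η * K N t + η) := mul_le_mul_of_nonneg_left f (abs_nonneg W)
      _ = _ := by ring
  · rw [intervalIntegral.integral_add (Continuous.intervalIntegrable (by fun_prop) _ _)
      (Continuous.intervalIntegrable (by fun_prop) _ _), intervalIntegral.integral_const_mul, i1]
    have : δ = η * (2 * (|W| + 1)) := by rw [hη]; field_simp
    simp only [intervalIntegral.integral_const, sub_zero, smul_eq_mul]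
    nlinarith

variable {s : ℕ} {n : NS s} {F : n.G ℝ → ℂ} {L : ℝ} {z z' : n.G ℝ}

theorem cen_smul (hz : PN.Cen z) (t : ℝ) : PN.Cen (t • z) := fun y => by
  rw [PN.br_smul_left, hz, smul_zero]

theorem cen_mul (hz : PN.Cen z) (y : n.G ℝ) : z * y = z + y := n.mul_of_comm (hz y)

theorem cen_comm (hz : PN.Cen z) (y : n.G ℝ) : z * y = y * z := by
  rw [cen_mul hz, n.mul_of_comm (by rw [PN.br_anti, hz, neg_zero]), add_comm]

theorem cen_left (hz : PN.Cen z) (u x : n.G ℝ) : z * (u * x) = u * (z * x) := by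
  rw [← mul_assoc, cen_comm hz, mul_assoc]

theorem cen_add (hz : PN.Cen z) (t t' : ℝ) (x : n.G ℝ) :
    (t + t') • z * x = t • z * (t' • z * x) := by
  rw [← mul_assoc, cen_mul (cen_smul hz t), add_smul]

theorem nG_smul (t : ℝ) (z : n.G ℝ) : PN.nG (t • z) = |t| * PN.nG z := by
  simp [PN.nG, abs_mul, mul_sum]

theorem zv_mem (v : n.I → ℤ) : PN.zv v ∈ n.Gam := fun a =>
  AddSubgroup.mem_zmultiples_iff.2 ⟨v a, by simp [PN.zv]⟩

theorem line_lip (hF : n.Test F L) (hz : PN.Cen z) (x : n.G ℝ) (t t' : ℝ) :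
    ‖F (t • z * x) - F (t' • z * x)‖ ≤ L * PN.nG z * |t - t'| := by
  have := hF.lip ((t - t') • z) (t' • z * x)
  rw [← cen_add hz, sub_add_cancel, nG_smul] at this
  exact this.trans_eq (by ring)

theorem line_per (hF : n.Test F L) (hz : PN.Cen z) (hg : z ∈ n.Gam) (x : n.G ℝ) :
    Function.Periodic (fun t : ℝ => F (t • z * x)) 1 := fun t => by
  simp only
  rw [cen_add hz, one_smul, cen_comm hz, ← mul_assoc, hF.inv _ _ hg]

theorem cmp_int (hF : n.Test F L) (hz : PN.Cen z) (x : n.G ℝ) (j : ℤ) :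
    IntervalIntegrable (fun t : ℝ => F (t • z * x) * e (-(j * t))) volume 0 1 := by
  exact ((lip_cont (line_lip hF hz x)).mul (cont_e.comp (by fun_prop))).intervalIntegrable _ _

theorem cmp_test (hF : n.Test F L) (hz : PN.Cen z) (j : ℤ) : n.Test (PN.cmp F z j) L where
  bd x := by
    unfold PN.cmp
    simpa using intervalIntegral.norm_integral_le_of_norm_le_const (a := 0) (b := 1) (C := 1)
      (f := fun t : ℝ => F (t • z * x) * e (-(j * t))) fun t _ => by
        rw [norm_mul, norm_e, mul_one]; exact hF.bd _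
  inv x γ h := by
    unfold PN.cmp
    simp only [← mul_assoc, hF.inv _ _ h]
  lip u x := by
    unfold PN.cmp
    rw [← intervalIntegral.integral_sub (cmp_int hF hz _ j) (cmp_int hF hz _ j)]
    simpa using intervalIntegral.norm_integral_le_of_norm_le_const (a := 0) (b := 1)
      (C := L * PN.nG u) (f := fun t : ℝ => F (t • z * (u * x)) * e (-(j * t)) -
        F (t • z * x) * e (-(j * t))) fun t _ => by
        rw [← sub_mul, norm_mul, norm_e, mul_one, cen_left (cen_smul hz t)]; exact hF.lip _ _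

theorem cmp_eig (hF : n.Test F L) (hz : PN.Cen z) (hg : z ∈ n.Gam) (j : ℤ) :
    PN.Eig (PN.cmp F z j) z j := by
  intro r x
  have per : Function.Periodic (fun t : ℝ => F (t • z * x) * e (-(j * t))) 1 := fun t => by
    have a := line_per hF hz hg x t
    simp only at a ⊢
    rw [a, mul_add, mul_one, neg_add, ← sub_eq_add_neg, e_sub_int]
  have := per.intervalIntegral_add_eq r 0
  unfold PN.cmp
  rw [zero_add, add_comm] at this
  have sh := intervalIntegral.integral_comp_add_right (a := 0) (b := 1)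
    (fun t : ℝ => F (t • z * x) * e (-(j * t))) r
  rw [zero_add] at sh
  rw [← this, ← sh, ← intervalIntegral.integral_const_mul]
  congr 1
  ext t
  rw [← cen_add hz, mul_left_comm, ← e_add]
  congr 2
  ring

theorem cmp_keep (hz : PN.Cen z) {ξ : ℝ} (h : PN.Eig F z' ξ) (j : ℤ) :
    PN.Eig (PN.cmp F z j) z' ξ := by
  intro r x
  unfold PN.cmp
  rw [← intervalIntegral.integral_const_mul]
  congr 1
  ext t
  rw [cen_left (cen_smul hz t), h, mul_assoc]

theorem cmp_approx (L δ : ℝ) (hδ : 0 < δ) (hz : PN.Cen z) (hg : z ∈ n.Gam) : ∃ N : ℕ, 1 ≤ N ∧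
    ∀ F, n.Test F L → ∀ x, ‖F x - ∑ p : Fin N × Fin N, (N : ℂ)⁻¹ *
      PN.cmp F z ((p.1 : ℤ) - p.2) x‖ ≤ δ := by
  obtain ⟨N, N1, h⟩ := fej (L * PN.nG z) δ hδ
  refine ⟨N, N1, fun F hF x => ?_⟩
  have := h _ (line_per hF hz hg x) (line_lip hF hz x)
  rwa [zero_smul, ← n.one_def, one_mul] at this

theorem eig_comb {v w : n.I → ℤ} (hv : PN.Cen (n := n.toPN) (PN.zv v)) {k l : ℤ}
    (h1 : PN.Eig F (PN.zv v) k) (h2 : PN.Eig F (PN.zv w) l) :
    PN.Eig F (PN.zv (l • v - k • w)) 0 := by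
  intro t x
  have : t • (PN.zv (l • v - k • w) : n.G ℝ) = (t * l) • PN.zv v * (-(t * k)) • PN.zv w := by
    rw [cen_mul (cen_smul hv _)]
    funext a
    simp only [PN.zv, PN.smul_apply, PN.add_apply, Pi.sub_apply, Pi.smul_apply, smul_eq_mul]
    push_cast
    ring
  rw [this, mul_assoc, h1, h2, ← mul_assoc, ← e_add]
  congr 2
  ring

theorem cen_comb {v w : n.I → ℤ} (hv : PN.Cen (n := n.toPN) (PN.zv v))
    (hw : PN.Cen (n := n.toPN) (PN.zv w)) (k l : ℤ) :
    PN.Cen (n := n.toPN) (PN.zv (l • v - k • w)) := fun y => by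
  have : (PN.zv (l • v - k • w) : n.G ℝ) = (l : ℝ) • PN.zv v - (k : ℝ) • PN.zv w := by
    funext a
    simp [PN.zv]
  rw [this, PN.br_sub_left, cen_smul hv, cen_smul hw, sub_self]

theorem ex_cen (h : Nonempty n.I) : ∃ v : n.I → ℤ, v ≠ 0 ∧ PN.Cen (n := n.toPN) (PN.zv v) := by
  obtain ⟨a, -, ha⟩ := exists_max_image univ n.wt univ_nonempty
  refine ⟨Pi.single a 1, by simp, fun y => funext fun c => ?_⟩
  refine sum_eq_zero fun a' _ => sum_eq_zero fun b _ => ?_
  by_cases e : a' = a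
  · have : n.k a' b c = 0 := by
      by_contra k0
      have := n.fil a' b c k0
      have := ha c (mem_univ c)
      have := n.w1 b
      subst e
      omega
    simp [this]
  · simp [PN.zv, Pi.single_eq_of_ne e]

theorem ex_pair (h : Nonempty n.I) : ∃ v w : n.I → ℤ, v ≠ 0 ∧ PN.Cen (n := n.toPN) (PN.zv v) ∧
    PN.Cen (n := n.toPN) (PN.zv w) ∧ (n.Cen1 v ∨ ∀ k l : ℤ, k ≠ 0 → l • v - k • w ≠ 0) := by
  obtain ⟨v, v0, hv⟩ := ex_cen h
  by_cases c : n.Cen1 v
  · exact ⟨v, v, v0, hv, hv, .inl c⟩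
  have : ∃ w : n.I → ℤ, PN.Cen (n := n.toPN) (PN.zv w) ∧ ¬∃ r : ℚ, ∀ a, (w a : ℚ) = r * v a := by
    by_contra h
    push Not at h
    exact c ⟨v0, hv, h⟩
  obtain ⟨w, hw, h⟩ := this
  refine ⟨v, w, v0, hv, hw, .inr fun k l k0 e => h ⟨l / k, fun a => ?_⟩⟩
  have := congrArg (fun x : ℤ => (x : ℚ)) (congrFun e a)
  have k1 : (k : ℚ) ≠ 0 := by exact_mod_cast k0
  simp only [Pi.sub_apply, Pi.smul_apply, smul_eq_mul, Pi.zero_apply] at this
  push_cast at this
  field_simp
  linear_combination -this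

theorem ex_enum (ι : Type) [Fintype ι] [Nonempty ι] : ∃ i : ℕ → ι, ∀ f : ι → ℂ,
    ∑ j ∈ range (Fintype.card ι), f (i j) = ∑ x, f x := by
  refine ⟨fun j => if h : j < Fintype.card ι then (Fintype.equivFin ι).symm ⟨j, h⟩
    else Classical.arbitrary ι, fun f => ?_⟩
  rw [← Fin.sum_univ_eq_sum_range (fun j => f (if h : j < Fintype.card ι then
    (Fintype.equivFin ι).symm ⟨j, h⟩ else Classical.arbitrary ι)),
    ← (Fintype.equivFin ι).symm.sum_comp]
  exact sum_congr rfl fun j _ => by rw [dif_pos j.2]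

end Split

open Split in
theorem st_Split : SplitSt := by
  intro s n L δ hn hδ
  obtain ⟨v, w, v0, hv, hw, h⟩ := ex_pair hn
  obtain ⟨N, N1, hN⟩ := cmp_approx L (δ / 2) (by positivity) hv (zv_mem v)
  have N0 : (0 : ℝ) < N := by exact_mod_cast N1
  obtain ⟨M, M1, hM⟩ := cmp_approx L (δ / (2 * N)) (by positivity) hw (zv_mem w)
  have : Nonempty (Fin N) := ⟨⟨0, N1⟩⟩
  have : Nonempty (Fin M) := ⟨⟨0, M1⟩⟩
  obtain ⟨i, hi⟩ := ex_enum ((Fin N × Fin N) × (Fin M × Fin M))
  let k : (Fin N × Fin N) × (Fin M × Fin M) → ℤ := fun p => (p.1.1 : ℤ) - p.1.2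
  let l : (Fin N × Fin N) × (Fin M × Fin M) → ℤ := fun p => (p.2.1 : ℤ) - p.2.2
  refine ⟨Fintype.card ((Fin N × Fin N) × (Fin M × Fin M)),
    insert v ((univ.image fun p => l p • v - k p • w).filter (· ≠ 0)), v, fun u hu => ?_,
    fun F hF => ⟨fun _ => (N : ℂ)⁻¹ * (M : ℂ)⁻¹,
      fun j => PN.cmp (PN.cmp F (PN.zv v) (k (i j))) (PN.zv w) (l (i j)), fun _ => ?_, fun x => ?_,
      fun j => ⟨cmp_test (cmp_test hF hv _) hw _, ?_⟩⟩⟩
  · rcases mem_insert.1 hu with rfl | hu
    · exact ⟨v0, hv⟩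
    · obtain ⟨hu, u0⟩ := mem_filter.1 hu
      obtain ⟨p, -, rfl⟩ := mem_image.1 hu
      exact ⟨u0, cen_comb hv hw _ _⟩
  · rw [norm_mul, norm_inv, norm_inv, Complex.norm_natCast, Complex.norm_natCast]
    refine (mul_le_one₀ (inv_le_one_of_one_le₀ (by exact_mod_cast N1)) (by positivity)
      (inv_le_one_of_one_le₀ (by exact_mod_cast M1))).trans ?_
    exact_mod_cast Fintype.card_pos
  · rw [hi fun p => (N : ℂ)⁻¹ * (M : ℂ)⁻¹ * PN.cmp (PN.cmp F (PN.zv v) (k p)) (PN.zv w) (l p) x,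
      Fintype.sum_prod_type]
    refine (norm_sub_le_norm_sub_add_norm_sub _ _ _).trans
      ((add_le_add (hN F hF x) ?_).trans (add_halves δ).le)
    rw [← sum_sub_distrib]
    refine (norm_sum_le _ _).trans ((sum_le_card_nsmul _ _ ((N : ℝ)⁻¹ * (δ / (2 * N)))
      fun p _ => ?_).trans (le_of_eq ?_))
    · simp only [mul_assoc]
      rw [← mul_sum, ← mul_sub, norm_mul, norm_inv, Complex.norm_natCast]
      exact mul_le_mul_of_nonneg_left (hM _ (cmp_test hF hv _) x) (by positivity)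
    · simp only [card_univ, Fintype.card_prod, Fintype.card_fin, nsmul_eq_mul]
      push_cast
      field_simp
  · have e1 := cmp_keep hw (cmp_eig hF hv (zv_mem v) (k (i j))) (l (i j))
    by_cases k0 : k (i j) = 0
    · exact .inl ⟨v, mem_insert_self _ _, by simpa [k0] using e1⟩
    rcases h with h | h
    · exact .inr ⟨h, _, k0, e1⟩
    · exact .inl ⟨_, mem_insert_of_mem (mem_filter.2 ⟨mem_image_of_mem _ (mem_univ (i j)),
        h _ _ k0⟩), eig_comb hv e1 (cmp_eig (cmp_test hF hv _) hw (zv_mem w) _)⟩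

theorem st_Mor : MorSt where
  ev s n' n φ t g := by
    funext c
    change (∑ a, φ.A a c • g.1 a).eval t = ∑ a, φ.A a c • (g.1 a).eval t
    simp only [eval_finset_sum, eval_smul]
  rat s n' n φ := by
    obtain ⟨d, d1, hd⟩ := Con.ex_den fun p : n'.I × n.I => φ.A p.1 p.2
    refine ⟨d, d1, fun Q g Q1 hg c j => ?_⟩
    have : ∀ a, ∃ z : ℤ, (φ.A a c • g.1 a).coeff j = 1 ^ j * (((Q * d : ℕ) : ℝ) ^ n.wt c)⁻¹ * z := by
      intro a
      by_cases h0 : φ.A a c = 0
      · exact ⟨0, by simp [h0]⟩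
      obtain ⟨z, hz⟩ := hg a j
      obtain ⟨y, hy⟩ := hd (a, c)
      obtain ⟨u, hu⟩ := Nat.exists_eq_add_of_le (φ.fil a c h0)
      obtain ⟨w, hw⟩ := Nat.exists_eq_add_of_le (n.w1 c)
      refine ⟨y * z * Q ^ u * d ^ w, ?_⟩
      have q0 : (Q : ℝ) ≠ 0 := by positivity
      have d0 : (d : ℝ) ≠ 0 := by positivity
      have hy' : (d : ℝ) * φ.A a c = y := by exact_mod_cast hy
      change (g.1 a).coeff j = _ at hz
      rw [coeff_smul, Rat.smul_def, hz, Nat.cast_mul, mul_pow]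
      push_cast
      rw [← hy']
      nth_rewrite 1 [hu]
      rw [hw]
      field_simp
      ring
    choose z hz using this
    refine ⟨∑ a, z a, ?_⟩
    change (∑ a, φ.A a c • g.1 a).coeff j = _
    rw [finset_sum_coeff, Int.cast_sum, mul_sum]
    exact sum_congr rfl fun a _ => hz a

end Pool.Agent.Lib.MP_028aa5_nt.N
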