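import Pool.Agent.Lib.MP_028aa5_nt.N.UTb
import Pool.Agent.Lib.MP_028aa5_nt.N.StI
import Pool.Agent.Lib.MP_028aa5_nt.V.GenA

/-! The final statement for unipotent matrix groups. -/

namespace Pool.Agent.Lib.MP_028aa5_nt.N

open Finset Polynomial MeasureTheory
open scoped Classical

namespace UT

variable {d : ℕ}

theorem exp_eq {A : Mx d ℝ} (h : Up 1 A) : NormedSpace.exp A = ex d A := by
  rw [NormedSpace.exp_eq_tsum_rat]
  exact tsum_eq_sum fun i hi => by
    rw [(h.pow i).eq_zero (by have := mt mem_range.2 hi; omega), smul_zero]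

/-- uniformity passes to uniform limits -/
theorem transfer {ι κ : Type} [Nonempty κ] (u : ι → ℕ → ℂ) (w : κ → ℕ → ℂ) {c ε H X : ℝ}
    (c0 : 0 ≤ c) (e0 : 0 < ε) (hw : ∀ j m, ‖w j m‖ ≤ 1)
    (h : ∀ i, ∃ j, ∀ m, ‖u i m - c * w j m‖ ≤ ε) (H1 : 1 ≤ H) (X0 : 0 ≤ X) :
    IntervalIntegrable (V.Gen.supG u H) volume X (2 * X) ∧ ∫ x in X..2 * X, V.Gen.supG u H x ≤
      c * (∫ x in X..2 * X, V.Gen.supG w H x) + 2 * ε * (H * X) := by
  have H0 : 0 ≤ H := zero_le_one.trans H1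
  have XX : X ≤ 2 * X := by linarith
  have k : ∀ x, X ≤ x → V.Gen.supG u H x ≤ c * V.Gen.supG w H x + 2 * ε * H := fun x hx => by
    have n0 : 0 ≤ V.Gen.supG w H x := Real.iSup_nonneg fun _ => norm_nonneg _
    refine Real.iSup_le (fun i => ?_) (by positivity)
    obtain ⟨j, hj⟩ := h i
    have a : ‖∑ n ∈ Ioc ⌊x⌋₊ ⌊x + H⌋₊, T.lio n * w j n‖ ≤ V.Gen.supG w H x :=
      le_ciSup (f := fun j => ‖∑ n ∈ Ioc ⌊x⌋₊ ⌊x + H⌋₊, T.lio n * w j n‖) ⟨_, by
        rintro _ ⟨j, rfl⟩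
        exact T.A0a.sum_le (fun n => V.Gen.term_le (T.A0a.lio_le n) (hw j n)) (X0.trans hx)
          (le_add_of_nonneg_right H0)⟩ j
    have b := T.A0a.sum_le (a := fun n => T.lio n * ((u i n - c * w j n) / ε))
      (fun n => V.Gen.term_le (T.A0a.lio_le n) (by
        rw [norm_div, Complex.norm_real, Real.norm_of_nonneg e0.le, div_le_one e0]
        exact hj n)) (X0.trans hx) (le_add_of_nonneg_right H0)
    have e : ∑ n ∈ Ioc ⌊x⌋₊ ⌊x + H⌋₊, T.lio n * u i n =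
        c * ∑ n ∈ Ioc ⌊x⌋₊ ⌊x + H⌋₊, T.lio n * w j n +
          ε * ∑ n ∈ Ioc ⌊x⌋₊ ⌊x + H⌋₊, T.lio n * ((u i n - c * w j n) / ε) := by
      have : (ε : ℂ) ≠ 0 := Complex.ofReal_ne_zero.2 e0.ne'
      rw [mul_sum, mul_sum, ← sum_add_distrib]
      refine sum_congr rfl fun n _ => ?_
      field_simp
      ring
    rw [e]
    refine (norm_add_le _ _).trans ?_
    rw [norm_mul, norm_mul, Complex.norm_real, Complex.norm_real, Real.norm_of_nonneg c0,
      Real.norm_of_nonneg e0.le, mul_comm 2, mul_assoc]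
    exact add_le_add (mul_le_mul_of_nonneg_left a c0)
      (mul_le_mul_of_nonneg_left (by linarith) e0.le)
  have i1 := (V.Gen.integ hw H0 X0).const_mul c
  have i2 := i1.add (intervalIntegrable_const (c := 2 * ε * H))
  have i3 : IntervalIntegrable (V.Gen.supG u H) volume X (2 * X) :=
    i2.mono_fun' (V.Gen.meas u H).aestronglyMeasurable (by
      rw [Set.uIoc_of_le XX]
      filter_upwards [ae_restrict_mem measurableSet_Ioc] with x hx
      exact (Real.norm_of_nonneg (Real.iSup_nonneg fun _ => norm_nonneg _)).trans_le (k x hx.1.le))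
  refine ⟨i3, (intervalIntegral.integral_mono_on XX i3 i2 fun x hx => k x hx.1).trans ?_⟩
  rw [intervalIntegral.integral_add i1 intervalIntegrable_const, intervalIntegral.integral_const_mul,
    intervalIntegral.integral_const, smul_eq_mul]
  exact le_of_eq (by ring)

/-- the simply connected group of a rational Lie algebra of nilpotent matrices -/
def Gp (g : Submodule ℚ (Mx d ℚ)) : Set (Mx d ℝ) :=
  NormedSpace.exp '' Submodule.span ℝ ((fun X : Mx d ℚ => X.map fun q => (q : ℝ)) '' g)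

/-- the sequences in `G` whose entries are polynomials of degree at most `k` -/
def Sq (G : Set (Mx d ℝ)) (k : ℕ) : Set (ℕ → Mx d ℝ) :=
  {u | (∀ m, u m ∈ G) ∧ ∀ i j, ∃ P : ℝ[X], P.natDegree ≤ k ∧ ∀ m : ℕ, u m i j = P.eval (m : ℝ)}

theorem fin (h : MainSt) (k : ℕ) {D : ℕ} (hD : 1 ≤ D) (g : Submodule ℚ (Mx d ℚ))
    (hu : ∀ X ∈ g, ∀ i j, j ≤ i → X i j = 0) (hb : ∀ X ∈ g, ∀ Y ∈ g, X * Y - Y * X ∈ g)
    {F : Mx d ℝ → ℂ} (hF : ContinuousOn F (Gp g))
    (hi : ∀ x ∈ Gp g, ∀ y ∈ Gp g, (∀ i j, ∃ z : ℤ, (y - 1) i j = D * z) → F (x * y) = F x)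
    {η : ℝ} (hη : 0 < η) :
    ∃ C X0 : ℝ, ∀ X ≥ X0, ∀ H : ℝ, Real.log X ^ C ≤ H → H ≤ X →
      IntervalIntegrable (V.Gen.supG (fun (u : Sq (Gp g) k) m => F (u.1 m)) H) volume X (2 * X) ∧
        ∫ x in X..2 * X, V.Gen.supG (fun (u : Sq (Gp g) k) m => F (u.1 m)) H x ≤ η * (H * X) := by
  have hu' : ∀ X ∈ g, Up 1 X := fun X hX i j c => hu X hX i j (Nat.le_of_lt_succ c)
  have e : Gp g = grp g := Set.image_congr fun Y hY => exp_eq (up_alg hu' hY)
  rw [e] at hF hi ⊢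
  obtain ⟨s, n, F2, L, c, s1, c0, hT, hb⟩ := bridge k hD hu' hb hF hi
    (show 0 < η / 4 by positivity)
  obtain ⟨C, X0, hM⟩ := h s n s1 F2 L (η / 2 / c) hT (by positivity)
  refine ⟨max C 0, max X0 (Real.exp 1), fun X hX H h1 h2 => ?_⟩
  have X1 : Real.exp 1 ≤ X := (le_max_right _ _).trans hX
  have l1 : 1 ≤ Real.log X := (Real.le_log_iff_exp_le ((Real.exp_pos 1).trans_le X1)).2 X1
  obtain ⟨a, b⟩ := transfer (fun (u : Sq (grp g) k) m => F (u.1 m))
    (fun (p : n.Ph) m => F2 (PN.ev m p)) c0.le (show 0 < η / 4 by positivity) (fun _ _ => hT.bd _)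
    (fun u => by
      choose P h1 h2 using u.2.2
      have : ∀ m : ℕ, u.1 m = (Matrix.of P).map (eval (m : ℝ)) := fun m =>
        Matrix.ext fun i j => h2 i j m
      simp only [this]
      exact hb _ h1 fun m => this m ▸ u.2.1 m)
    ((Real.one_le_rpow l1 (le_max_right _ _)).trans h1) ((Real.exp_pos 1).le.trans X1)
  have := mul_le_mul_of_nonneg_left (hM X ((le_max_left _ _).trans hX) H
    ((Real.rpow_le_rpow_of_exponent_le l1 (le_max_left _ _)).trans h1) h2) c0.le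
  rw [← mul_assoc, mul_div_cancel₀ _ c0.ne'] at this
  exact ⟨a, b.trans ((add_le_add_left this _).trans_eq (by ring))⟩

end UT

end Pool.Agent.Lib.MP_028aa5_nt.N
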