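import Pool.Agent.Lib.MP_028aa5_nt.N.Au
import Pool.Agent.Lib.MP_028aa5_nt.N.Core
import Pool.Agent.Lib.MP_028aa5_nt.N.Ext
import Pool.Agent.Lib.MP_028aa5_nt.N.Gq
import Pool.Agent.Lib.MP_028aa5_nt.N.Ind
import Pool.Agent.Lib.MP_028aa5_nt.N.Inst
import Pool.Agent.Lib.MP_028aa5_nt.N.Quo
import Pool.Agent.Lib.MP_028aa5_nt.N.Split
import Pool.Agent.Lib.MP_028aa5_nt.N.UTc
import Pool.Agent.Lib.MP_028aa5_nt.V.AllB
import Pool.Agent.Lib.MP_028aa5_nt.V.AllL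
import Pool.Agent.Lib.MP_028aa5_nt.V.KAll

/-! Most parts together. -/

namespace Pool.Agent.Lib.MP_028aa5_nt.N

theorem all_Core : CoreSt :=
  st_Core T.st_Bas U.st_VA U.all_Ft U.st_Reg2 V.all_TowX V.all_Real V.all_CoreA V.all_CoreBK

theorem main_of (hF : FacSt) (hW : W2St) : MainSt :=
  have hG : GqSt := st_Gq st_Split st_Quo st_Mor hF hW st_Aux
  st_Main (st_Rare st_Split st_Quo st_Mor hF hW st_Aux st_Ext st_Inst hG all_Core V.all_Cell
    V.all_Rare V.st_Tame) st_Inst hG all_Core V.all_Cell V.st_Tame V.all_Top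

end Pool.Agent.Lib.MP_028aa5_nt.N
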