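import Pool.Agent.Lib.MP_028aa5_nt.Weyl

/-! Bracket linear phases that are often small. -/

namespace Pool.Agent.Lib.MP_028aa5_nt.N.EqB

open Finset
open scoped Classical ComplexConjugate

theorem vino2 {δ : ℝ} (hδ : 0 < δ) : ∃ W : ℕ, 1 ≤ W ∧ ∀ (N : ℕ) (S : Finset ℕ) (α β ε : ℝ), W ≤ N →
    S ⊆ Icc 1 N → δ * N ≤ #S → W * ε ≤ 1 → (∀ h ∈ S, Nr (β + h * α) ε) →
    ∃ q : ℕ, 1 ≤ q ∧ q ≤ W ∧ Nr (q * α) (W * ε / N) := by
  set R := 2 + 2 / δ with hR
  have h0 : 0 < 2 / δ := by positivity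
  have R2 : 2 ≤ R := by linarith
  have hRδ : 2 ≤ R * δ := by
    rw [hR, add_mul, div_mul_cancel₀ _ hδ.ne']
    linarith
  refine ⟨⌈96 * R ^ 2⌉₊, Nat.ceil_pos.2 (by positivity), fun N S α β ε hN hS hc hε h => ?_⟩
  have hW := Nat.le_ceil (96 * R ^ 2)
  have hN' : (⌈96 * R ^ 2⌉₊ : ℝ) ≤ N := by exact_mod_cast hN
  have hN3 : 3 * R < N := by nlinarith
  have hδN : 2 ≤ δ * N := by nlinarith
  have hne : S.Nonempty := card_pos.1 (by exact_mod_cast (show (0 : ℝ) < #S by linarith))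
  set h0 := S.min' hne with hh
  have hm : h0 ∈ S := S.min'_mem hne
  have ε0 : 0 ≤ ε := (h _ hm).nonneg
  obtain ⟨q, q1, q2, hq⟩ := vino (α := α) (ε := ε + ε) (S := (S.erase h0).image (· - h0)) R2 hN3
    (by
      intro r hr
      obtain ⟨u, hu, rfl⟩ := mem_image.1 hr
      have := S.min'_le u (mem_of_mem_erase hu)
      have := ne_of_mem_erase hu
      have := mem_Icc.1 (hS (mem_of_mem_erase hu))
      rw [mem_Icc]
      omega)
    (by
      rw [card_image_of_injOn, card_erase_of_mem hm, Nat.cast_sub (card_pos.2 hne), div_le_iff₀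
        (by linarith)]
      · push_cast
        nlinarith
      · intro u hu v hv e
        have := S.min'_le u (mem_of_mem_erase hu)
        have := S.min'_le v (mem_of_mem_erase hv)
        simp only at e
        omega)
    (by nlinarith)
    (by
      intro r hr
      obtain ⟨u, hu, rfl⟩ := mem_image.1 hr
      have := (h u (mem_of_mem_erase hu)).sub (h _ hm)
      rw [Nat.cast_sub (S.min'_le u (mem_of_mem_erase hu))]
      convert this using 1
      ring)
  refine ⟨q, q1, ?_, hq.mono ?_⟩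
  · exact_mod_cast (show (q : ℝ) ≤ ⌈96 * R ^ 2⌉₊ by nlinarith)
  · gcongr ?_ / _
    nlinarith

theorem diri {ι : Type} [Fintype ι] {T : ℕ} (hT : 1 ≤ T) (θ : ι → ℝ) :
    ∃ (q : ℕ) (p : ι → ℤ), 1 ≤ q ∧ q ≤ T ^ Fintype.card ι ∧ ∀ a, |q * θ a - p a| ≤ 1 / T := by
  have T0 : (0 : ℝ) < T := by exact_mod_cast hT
  have key : ∀ i j : ℕ, i < j → j ≤ T ^ Fintype.card ι →
      (fun a => ⌊T * Int.fract (i * θ a)⌋₊) = (fun a => ⌊T * Int.fract (j * θ a)⌋₊) →
      ∃ (q : ℕ) (p : ι → ℤ), 1 ≤ q ∧ q ≤ T ^ Fintype.card ι ∧ ∀ a, |q * θ a - p a| ≤ 1 / T := by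
    intro i j hij hj e
    refine ⟨j - i, fun a => ⌊j * θ a⌋ - ⌊i * θ a⌋, by omega, by omega, fun a => ?_⟩
    have e1 := congrFun e a
    have p1 : 0 ≤ T * Int.fract (i * θ a) := by have := Int.fract_nonneg (i * θ a); positivity
    have p2 : 0 ≤ T * Int.fract (j * θ a) := by have := Int.fract_nonneg (j * θ a); positivity
    have a1 := Nat.floor_le p1
    have a2 := Nat.floor_le p2
    have a3 := Nat.lt_floor_add_one (T * Int.fract (i * θ a))
    have a4 := Nat.lt_floor_add_one (T * Int.fract (j * θ a))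
    rw [e1] at a1 a3
    have e2 : ((j - i : ℕ) : ℝ) * θ a - (⌊j * θ a⌋ - ⌊i * θ a⌋ : ℤ) =
        Int.fract (j * θ a) - Int.fract (i * θ a) := by
      rw [Nat.cast_sub hij.le, Int.fract, Int.fract]
      push_cast
      ring
    rw [e2, le_div_iff₀ T0, ← abs_of_pos T0, ← abs_mul, abs_le]
    constructor <;> linarith
  obtain ⟨i, hi, j, hj, hne, e⟩ := exists_ne_map_eq_of_card_lt_of_maps_to
    (s := range (T ^ Fintype.card ι + 1)) (t := Fintype.piFinset fun _ : ι => range T)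
    (f := fun (j : ℕ) a => ⌊T * Int.fract (j * θ a)⌋₊) (by simp)
    (fun j _ => by
      simp only [Fintype.coe_piFinset, Set.mem_pi, Set.mem_univ, coe_range, Set.mem_Iio, true_imp_iff]
      intro a
      rw [Nat.floor_lt (by have := Int.fract_nonneg (j * θ a); positivity)]
      have := Int.fract_lt_one (j * θ a)
      nlinarith)
  rw [mem_range] at hi hj
  rcases lt_or_gt_of_ne hne with c | c
  · exact key i j c (by omega) e
  · exact key j i c (by omega) e.symm

variable {ι : Type} [Fintype ι]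

/-- the bilinear form of an integral matrix -/
def bf (B : ι → ι → ℤ) (x y : ι → ℝ) : ℝ := ∑ a, ∑ b, B a b * (x a * y b)

theorem bf_le {B : ι → ι → ℤ} {W0 : ℕ} (hB : ∑ a, ∑ b, |B a b| ≤ W0) {x y : ι → ℝ} {u v : ℝ}
    (hu : 0 ≤ u) (hv : 0 ≤ v) (hx : ∀ a, |x a| ≤ u) (hy : ∀ a, |y a| ≤ v) :
    |bf B x y| ≤ W0 * (u * v) := by
  have h : ∑ a, ∑ b, |(B a b : ℝ)| ≤ W0 := by exact_mod_cast hB
  calc _ ≤ ∑ a, ∑ b, |(B a b : ℝ)| * (u * v) := by
        refine (abs_sum_le_sum_abs _ _).trans (sum_le_sum fun a _ =>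
          (abs_sum_le_sum_abs _ _).trans (sum_le_sum fun b _ => ?_))
        rw [abs_mul, abs_mul]
        gcongr
        · exact hx a
        · exact hy b
    _ ≤ _ := by
        simp only [← sum_mul]
        gcongr

theorem bf_int (B : ι → ι → ℤ) (x y : ι → ℤ) :
    ∃ z : ℤ, bf B (fun a => x a) (fun a => y a) = z :=
  ⟨∑ a, ∑ b, B a b * (x a * y b), by simp [bf]⟩

theorem bf_anti {B : ι → ι → ℤ} (h : ∀ a b, B a b = -B b a) (x y : ι → ℝ) :
    bf B x y = -bf B y x := by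
  rw [bf, bf, sum_comm, ← sum_neg_distrib]
  refine sum_congr rfl fun a _ => ?_
  rw [← sum_neg_distrib]
  refine sum_congr rfl fun b _ => ?_
  rw [h b a]
  push_cast
  ring

theorem bf_lin (B : ι → ι → ℤ) (x x' y y' : ι → ℝ) (r r' u u' : ℝ) :
    bf B (fun a => r * x a - u * x' a) (fun a => r' * y a - u' * y' a) =
      r * r' * bf B x y - r * u' * bf B x y' - u * r' * bf B x' y + u * u' * bf B x' y' := by
  simp only [bf, mul_sum, ← sum_sub_distrib, ← sum_add_distrib]
  exact sum_congr rfl fun a _ => sum_congr rfl fun b _ => by ring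

theorem Nr.congr_int {x y ε : ℝ} (h : Nr x ε) (z : ℤ) (e : y = x + z) : Nr y ε := by
  obtain ⟨m, hm⟩ := h
  exact ⟨m + z, by rw [e]; push_cast; convert hm using 2; ring⟩

/-- the bracket term -/
theorem brk (ι : Type) [Fintype ι] (W0 : ℕ) {δ : ℝ} (hδ : 0 < δ) : ∃ W : ℕ, ∀ B : ι → ι → ℤ,
    (∀ a b, B a b = -B b a) → B ≠ 0 → ∑ a, ∑ b, |B a b| ≤ W0 →
    ∀ (γ : ι → ℝ) (α β : ℝ) (N : ℕ) (S : Finset ℕ), W ≤ N → S ⊆ Icc 1 N → δ * N ≤ #S →
    (∀ h ∈ S, Nr (β + h * α + bf B (fun a => (⌊h * γ a⌋ : ℤ)) γ) (W0 / N)) →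
    ∃ ξ : ι → ℤ, ξ ≠ 0 ∧ (∀ a, ξ a ≠ 0 → ∃ b, B a b ≠ 0) ∧ (∀ a, |ξ a| ≤ W) ∧
      Nr (∑ a, ξ a * γ a) (W / N) := by
  obtain ⟨V, V1, hV⟩ := vino2 (show 0 < δ / 3 by positivity)
  obtain ⟨T, hT⟩ : ∃ T : ℕ, T = 2 * V * W0 + 1 := ⟨_, rfl⟩
  obtain ⟨m, hm⟩ : ∃ m : ℕ, m = T ^ Fintype.card ι := ⟨_, rfl⟩
  obtain ⟨E, hE⟩ : ∃ E : ℕ, E = 8 * V * W0 * m + 1 := ⟨_, rfl⟩
  refine ⟨V * E + V * W0 * (m + 1) + 2 * E, fun B ha hB0 hB γ α β N S hN hS hc h => ?_⟩
  have T1 : 1 ≤ T := by omega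
  have E1 : 1 ≤ E := by omega
  set N' := N / E with hN'
  have hVN : V ≤ N' := (Nat.le_div_iff_mul_le E1).2 (by omega)
  have N1 : 1 ≤ N' := V1.trans hVN
  have h1 : N' * E ≤ N := Nat.div_mul_le_self N E
  have h2 : N ≤ 2 * E * N' := by
    have := Nat.lt_div_mul_add (a := N) E1
    nlinarith
  have V0 : (0 : ℝ) < V := by exact_mod_cast V1
  have T0 : (0 : ℝ) < T := by exact_mod_cast T1
  have E0 : (0 : ℝ) < E := by exact_mod_cast E1
  have N'0 : (0 : ℝ) < N' := by exact_mod_cast N1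
  have h1' : (N' : ℝ) * E ≤ N := by exact_mod_cast h1
  have h2' : (N : ℝ) ≤ 2 * E * N' := by exact_mod_cast h2
  have N0 : (0 : ℝ) < N := lt_of_lt_of_le (by positivity) h1'
  obtain ⟨u, hu⟩ : ∃ u, δ / 3 * N' < #{h ∈ S | (h - 1) / N' = u} := by
    by_contra hcon
    push Not at hcon
    have := card_le_fibers S (range (2 * E)) (fun h => (h - 1) / N') (fun h hh => by
      have := mem_Icc.1 (hS hh)
      rw [mem_range, Nat.div_lt_iff_lt_mul N1]
      omega) fun u _ => hcon u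
    rw [card_range] at this
    push_cast at this
    nlinarith [mul_pos hδ N0]
  set S0 := {h ∈ S | (h - 1) / N' = u} with hS0
  have hblk : ∀ h ∈ S0, u * N' < h ∧ h ≤ u * N' + N' := fun h hh => by
    obtain ⟨a1, a2⟩ := mem_filter.1 hh
    have := mem_Icc.1 (hS a1)
    have := Nat.div_mul_le_self (h - 1) N'
    have := Nat.lt_div_mul_add (a := h - 1) N1
    rw [a2] at *
    omega
  obtain ⟨h0, hh0⟩ : S0.Nonempty :=
    card_pos.1 (by exact_mod_cast (show (0 : ℝ) < #S0 from lt_trans (by positivity) hu))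
  have fin : ∀ ξ0 : ι → ℤ, ξ0 ≠ 0 → (∀ a, ξ0 a ≠ 0 → ∃ b, B a b ≠ 0) →
      (∀ a, |ξ0 a| ≤ W0 * (m + 1)) →
      (∀ h ∈ S0, Nr (((h : ℝ) - h0) * ∑ a, ξ0 a * γ a) (1 / V)) →
      ∃ ξ : ι → ℤ, ξ ≠ 0 ∧ (∀ a, ξ a ≠ 0 → ∃ b, B a b ≠ 0) ∧
        (∀ a, |ξ a| ≤ (V * E + V * W0 * (m + 1) + 2 * E : ℕ)) ∧
        Nr (∑ a, ξ a * γ a) ((V * E + V * W0 * (m + 1) + 2 * E : ℕ) / N) := by
    intro ξ0 n0 s0 b0 r0
    obtain ⟨q, q1, q2, hq⟩ := hV N' (S0.image (· - u * N')) (∑ a, ξ0 a * γ a)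
      ((u * N' - h0) * ∑ a, ξ0 a * γ a) (1 / V) hVN
      (fun r hr => by
        obtain ⟨h, hh, rfl⟩ := mem_image.1 hr
        have := hblk h hh
        rw [mem_Icc]
        omega)
      (by
        rw [card_image_of_injOn]
        · exact hu.le
        · intro x hx y hy e
          have := hblk x hx
          have := hblk y hy
          simp only at e
          omega)
      (by rw [mul_one_div_cancel V0.ne'])
      (fun r hr => by
        obtain ⟨h, hh, rfl⟩ := mem_image.1 hr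
        rw [Nat.cast_sub (hblk h hh).1.le]
        convert r0 h hh using 1
        push_cast
        ring)
    have q0 : (q : ℤ) ≠ 0 := by omega
    refine ⟨fun a => q * ξ0 a, fun e => n0 (funext fun a => ?_), fun a e => s0 a fun e' => e ?_,
      fun a => ?_, ?_⟩
    · exact (mul_eq_zero.1 (congrFun e a)).resolve_left q0
    · simp [e']
    · rw [abs_mul, Nat.abs_cast]
      have : (q : ℤ) * |ξ0 a| ≤ V * (W0 * (m + 1)) := by
        gcongr
        exact b0 a
      push_cast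
      nlinarith [show (0 : ℤ) ≤ V * E by positivity]
    · convert hq.mono ?_ using 1
      · simp only [mul_sum]
        exact sum_congr rfl fun a _ => by push_cast; ring
      · rw [mul_one_div_cancel V0.ne', div_le_div_iff₀ N'0 N0]
        push_cast
        nlinarith [show (0 : ℝ) ≤ (V * E + V * W0 * (m + 1)) * N' by positivity]
  let ν : ℕ → ι → ℤ := fun h a => ⌊h * γ a⌋ - ⌊h0 * γ a⌋
  let θ : ℕ → ι → ℝ := fun h a => ((h : ℝ) - h0) * γ a - 1 * ν h a
  have hθ : ∀ h a, |θ h a| ≤ 1 := fun h a => by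
    have e : θ h a = Int.fract (h * γ a) - Int.fract (h0 * γ a) := by
      simp only [θ, ν, Int.fract]
      push_cast
      ring
    have := Int.fract_nonneg (h * γ a)
    have := Int.fract_nonneg (h0 * γ a)
    have := Int.fract_lt_one (h * γ a)
    have := Int.fract_lt_one (h0 * γ a)
    rw [e, abs_le]
    constructor <;> linarith
  have hφ : ∀ h ∈ S0, Nr (((h : ℝ) - h0) * α + bf B (fun a => ν h a) γ) (W0 / N + W0 / N) := by
    intro x hx
    convert (h x (mem_filter.1 hx).1).sub (h h0 (mem_filter.1 hh0).1) using 1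
    have : bf B (fun a => ν x a) γ =
        bf B (fun a => (⌊x * γ a⌋ : ℤ)) γ - bf B (fun a => (⌊h0 * γ a⌋ : ℤ)) γ := by
      simp only [bf, ← sum_sub_distrib, ν]
      exact sum_congr rfl fun a _ => sum_congr rfl fun b _ => by push_cast; ring
    rw [this]
    ring
  have hγ : bf B γ γ = 0 := by linarith [bf_anti ha γ γ]
  have hθθ : ∀ h ∈ S0, ∀ h' ∈ S0, Nr (bf B (θ h) (θ h')) (4 * W0 / E) := by
    intro x hx y hy
    have b : ∀ x ∈ S0, |(((x : ℤ) - h0 : ℤ) : ℝ)| ≤ N' := fun x hx => by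
      have := hblk x hx
      have := hblk h0 hh0
      have : |(x : ℤ) - h0| ≤ N' := by
        rw [abs_le]
        constructor <;> omega
      exact_mod_cast this
    obtain ⟨z, hz⟩ := bf_int B (ν x) (ν y)
    refine Nr.congr_int ((((hφ y hy).int_mul (x - h0)).sub ((hφ x hx).int_mul (y - h0))).mono ?_)
      z ?_
    · calc _ ≤ N' * (W0 / N + W0 / N) + N' * (W0 / N + W0 / N : ℝ) := by
            gcongr
            · exact b x hx
            · exact b y hy
        _ = 4 * W0 * (N' / N) := by ring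
        _ ≤ 4 * W0 * (1 / E) := by
            gcongr 4 * W0 * ?_
            rw [div_le_div_iff₀ N0 E0]
            linarith
        _ = _ := by ring
    · rw [bf_lin, hγ, hz, bf_anti ha γ]
      push_cast
      ring
  choose q p q1 q2 hp using fun h => diri T1 (θ h)
  have hT' : (W0 : ℝ) * (1 * (1 / T)) ≤ 1 / (2 * V) := by
    rw [one_mul, mul_one_div, div_le_div_iff₀ T0 (by positivity), hT]
    push_cast
    linarith
  have row : ∀ a, ∑ b, |B a b| ≤ W0 := fun a =>
    (single_le_sum (f := fun a => ∑ b, |B a b|) (fun _ _ => sum_nonneg fun _ _ => abs_nonneg _)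
      (mem_univ a)).trans hB
  by_cases hcase : ∃ y ∈ S0, (fun a => ∑ b, B a b * p y b) ≠ 0
  · obtain ⟨y, hy, hne⟩ := hcase
    have qm : (q y : ℝ) ≤ m := by exact_mod_cast hm ▸ q2 y
    refine fin _ hne (fun a e => ?_) (fun a => ?_) fun x hx => ?_
    · by_contra hcon
      push Not at hcon
      simp [hcon] at e
    · have pb : ∀ b, |p y b| ≤ m + 1 := fun b => by
        have a1 := hp y b
        have a2 : |(q y : ℝ) * θ y b| ≤ m * 1 := by
          rw [abs_mul, Nat.abs_cast]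
          gcongr
          exact hθ y b
        have a3 : (1 : ℝ) / T ≤ 1 := by
          rw [div_le_one T0]
          exact_mod_cast T1
        have : |(p y b : ℝ)| ≤ m + 1 := by
          have := abs_sub_abs_le_abs_sub (p y b : ℝ) (q y * θ y b)
          rw [abs_sub_comm] at this
          linarith
        exact_mod_cast this
      calc _ ≤ ∑ b, |B a b| * (m + 1) := (abs_sum_le_sum_abs _ _).trans (sum_le_sum fun b _ => by
            rw [abs_mul]
            gcongr
            exact pb b)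
        _ ≤ _ := by
            rw [← sum_mul]
            gcongr
            exact row a
    · obtain ⟨z, hz⟩ := bf_int B (ν x) (p y)
      have a1 := Nr.of_abs (bf_le hB (x := θ x) (y := fun b => q y * θ y b - p y b) one_pos.le
        (by positivity) (hθ x) (hp y))
      refine Nr.congr_int ((((hθθ x hx y hy).nat_mul (q y)).sub a1).mono ?_) z ?_
      · have : (q y : ℝ) * (4 * W0 / E) ≤ 1 / (2 * V) := by
          rw [← mul_div_assoc, div_le_div_iff₀ E0 (by positivity), hE]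
          push_cast
          nlinarith [show (0 : ℝ) ≤ V * W0 by positivity]
        have e : (1 : ℝ) / V = 1 / (2 * V) + 1 / (2 * V) := by field_simp; ring
        linarith
      · rw [← hz]
        simp only [bf, mul_sum, ← sum_sub_distrib, ← sum_add_distrib, Int.cast_sum, sum_mul, θ]
        exact sum_congr rfl fun a _ => sum_congr rfl fun b _ => by push_cast; ring
  · push Not at hcase
    obtain ⟨a0, ha0⟩ := Function.ne_iff.1 hB0
    refine fin (B a0) ha0 (fun a e => ⟨a0, by rw [ha a a0]; simpa using e⟩) (fun a => ?_)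
      fun x hx => ?_
    · calc |B a0 a| ≤ W0 := (single_le_sum (f := fun b => |B a0 b|) (fun _ _ => abs_nonneg _)
            (mem_univ a)).trans (row a0)
        _ ≤ _ := le_mul_of_one_le_right (by positivity) (by omega)
    · have a0' : ∑ b, (B a0 b : ℝ) * p x b = 0 := by exact_mod_cast congrFun (hcase x hx) a0
      have a1 : |∑ b, (B a0 b : ℝ) * (q x * θ x b - p x b)| ≤ W0 * (1 * (1 / T)) := by
        have r' : ∑ b, |(B a0 b : ℝ)| ≤ W0 := by exact_mod_cast row a0
        calc _ ≤ ∑ b, |(B a0 b : ℝ)| * (1 * (1 / T)) :=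
              (abs_sum_le_sum_abs _ _).trans (sum_le_sum fun b _ => by
                rw [abs_mul, one_mul]
                gcongr
                exact hp x b)
          _ ≤ _ := by
              rw [← sum_mul]
              gcongr
      have a2 : ∑ b, (B a0 b : ℝ) * (q x * θ x b - p x b) = q x * ∑ b, B a0 b * θ x b := by
        simp only [mul_sub, sum_sub_distrib, a0', sub_zero, mul_sum]
        exact sum_congr rfl fun b _ => by ring
      have a3 : (1 : ℝ) ≤ q x := by exact_mod_cast q1 x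
      rw [a2, abs_mul, Nat.abs_cast] at a1
      have a4 : |∑ b, (B a0 b : ℝ) * θ x b| ≤ 1 / V := by
        have : (1 : ℝ) / (2 * V) ≤ 1 / V := by gcongr; linarith
        nlinarith [abs_nonneg (∑ b, (B a0 b : ℝ) * θ x b)]
      refine Nr.congr_int (Nr.of_abs a4) (∑ b, B a0 b * ν x b) ?_
      simp only [mul_sum, Int.cast_sum, ← sum_add_distrib, θ]
      exact sum_congr rfl fun b _ => by push_cast; ring

/-- the inequality of van der Corput -/
theorem vdc (u : ℕ → ℂ) (hu : ∀ n, ‖u n‖ ≤ 1) {a b N : ℕ} (hb : b ≤ a + N) :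
    ‖∑ n ∈ Ioc a b, u n‖ ^ 2 ≤
      N + 2 * ∑ h ∈ Icc 1 N, ‖∑ n ∈ Ioc a (b - h), u (n + h) * conj (u n)‖ := by
  set T : ℂ := ∑ h ∈ Icc 1 N, ∑ n ∈ Ioc a (b - h), u (n + h) * conj (u n) with hT
  have h1 : ∑ x ∈ (Ioc a b ×ˢ Ioc a b).filter (fun x => x.2 < x.1), u x.1 * conj (u x.2) = T := by
    rw [hT, sum_sigma']
    refine sum_bij' (fun x _ => ⟨x.1 - x.2, x.2⟩) (fun y _ => (y.2 + y.1, y.2)) ?_ ?_ ?_ ?_ ?_
    · intro x hx
      simp only [mem_filter, mem_product, mem_Ioc, mem_sigma, mem_Icc] at hx ⊢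
      omega
    · intro y hy
      simp only [mem_filter, mem_product, mem_Ioc, mem_sigma, mem_Icc] at hy ⊢
      omega
    · intro x hx
      simp only [mem_filter] at hx
      ext <;> simp only
      omega
    · intro y hy
      simp
    · intro x hx
      simp only [mem_filter] at hx
      rw [Nat.add_sub_cancel' hx.2.le]
  have h2 : ∑ x ∈ (Ioc a b ×ˢ Ioc a b).filter (fun x => x.1 < x.2), u x.1 * conj (u x.2) =
      conj T := by
    rw [← h1, map_sum]
    refine sum_bij' (fun x _ => x.swap) (fun x _ => x.swap) ?_ ?_ ?_ ?_ ?_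
    · intro x hx
      simp only [mem_filter, mem_product, Prod.fst_swap, Prod.snd_swap] at hx ⊢
      tauto
    · intro x hx
      simp only [mem_filter, mem_product, Prod.fst_swap, Prod.snd_swap] at hx ⊢
      tauto
    · intro x _; simp
    · intro x _; simp
    · intro x _
      simp [mul_comm]
  set D : ℂ := ∑ x ∈ (Ioc a b ×ˢ Ioc a b).filter (fun x => x.1 = x.2), u x.1 * conj (u x.2)
    with hD
  have h3 : ‖D‖ ≤ N := by
    refine (norm_sum_le _ _).trans ((sum_le_card_nsmul _ _ 1 fun x _ => ?_).trans ?_)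
    · rw [norm_mul, Complex.norm_conj]
      exact mul_le_one₀ (hu _) (norm_nonneg _) (hu _)
    · rw [← diag_eq_filter, diag_card, Nat.card_Ioc, nsmul_eq_mul, mul_one]
      exact_mod_cast (by omega : b - a ≤ N)
  have h4 : ((‖∑ n ∈ Ioc a b, u n‖ ^ 2 : ℝ) : ℂ) = D + T + conj T := by
    push_cast
    rw [← Complex.mul_conj', map_sum, sum_mul_sum, ← sum_product', hD, ← h2]
    nth_rewrite 1 [← h1]
    simp only [sum_filter, ← sum_add_distrib]
    refine sum_congr rfl fun x _ => ?_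
    rcases lt_trichotomy x.1 x.2 with h | h | h
    · simp [h, h.ne, h.not_gt]
    · simp [h]
    · simp [h, h.ne', h.not_gt]
  have h5 : ‖T‖ ≤ ∑ h ∈ Icc 1 N, ‖∑ n ∈ Ioc a (b - h), u (n + h) * conj (u n)‖ := norm_sum_le _ _
  have h6 := congrArg norm h4
  rw [Complex.norm_real, Real.norm_eq_abs, abs_of_nonneg (sq_nonneg _)] at h6
  have h7 := norm_add₃_le (a := D) (b := T) (c := conj T)
  rw [Complex.norm_conj] at h7
  linarith

/-- many shifts correlate -/
theorem many (u : ℕ → ℂ) (hu : ∀ n, ‖u n‖ ≤ 1) {a b N : ℕ} (hb : b ≤ a + N) {δ : ℝ} (hδ : 0 < δ)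
    (hN : 2 ≤ δ ^ 2 * N) (h : δ * N ≤ ‖∑ n ∈ Ioc a b, u n‖) :
    δ ^ 2 / 8 * N ≤ #{h ∈ Icc 1 N |
      δ ^ 2 / 8 * N ≤ ‖∑ n ∈ Ioc a (b - h), u (n + h) * conj (u n)‖} := by
  have N0 : (0 : ℝ) < N := by
    by_contra hc
    nlinarith [sq_nonneg δ]
  have h1 := vdc u hu hb
  have h2 : (δ * N) ^ 2 ≤ ‖∑ n ∈ Ioc a b, u n‖ ^ 2 := by gcongr
  set A := fun h => ‖∑ n ∈ Ioc a (b - h), u (n + h) * conj (u n)‖ with hA
  have h3 : ∑ h ∈ Icc 1 N, A h ≤
      ∑ h ∈ Icc 1 N, ((if δ ^ 2 / 8 * N ≤ A h then (N : ℝ) else 0) + δ ^ 2 / 8 * N) := by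
    refine sum_le_sum fun h _ => ?_
    split_ifs with c
    · have : A h ≤ N := by
        refine (norm_sum_le _ _).trans ((sum_le_card_nsmul _ _ 1 fun x _ => ?_).trans ?_)
        · rw [norm_mul, Complex.norm_conj]
          exact mul_le_one₀ (hu _) (norm_nonneg _) (hu _)
        · rw [Nat.card_Ioc, nsmul_eq_mul, mul_one]
          exact_mod_cast (by omega : b - h - a ≤ N)
      have : 0 ≤ δ ^ 2 / 8 * N := by positivity
      linarith
    · linarith
  rw [sum_add_distrib, ← sum_filter, sum_const, sum_const, Nat.card_Icc, Nat.add_sub_cancel,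
    nsmul_eq_mul, nsmul_eq_mul] at h3
  refine le_of_mul_le_mul_right ?_ N0
  nlinarith

end Pool.Agent.Lib.MP_028aa5_nt.N.EqB
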