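import Pool.Agent.Lib.MP_028aa5_nt.N.EqA
import Pool.Agent.Lib.MP_028aa5_nt.N.EqB
import Pool.Agent.Lib.MP_028aa5_nt.N.Inst

/-! The algebra of the differencing step. -/

namespace Pool.Agent.Lib.MP_028aa5_nt.N.Box

open Finset Polynomial PN
open scoped Classical ComplexConjugate

variable {s : ℕ}

section Low

variable {n : PN s}

/-- the form `ξ [a, b]` -/
def fm (ξ : n.I → ℤ) (a b : n.I) : ℤ := ∑ c, ξ c * n.k a b c

theorem fm_anti (ξ : n.I → ℤ) (a b : n.I) : fm ξ a b = -fm ξ b a := by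
  rw [fm, fm, ← sum_neg_distrib]
  exact sum_congr rfl fun c _ => by rw [n.anti a b c, mul_neg]

theorem fm_wt {ξ : n.I → ℤ} {i : ℕ} (h : ∀ a, ξ a ≠ 0 → n.wt a = i) {a b : n.I}
    (h0 : fm ξ a b ≠ 0) : n.wt a + n.wt b ≤ i := by
  obtain ⟨c, -, hc⟩ := exists_ne_zero_of_sum_ne_zero h0
  exact h c (left_ne_zero_of_mul hc) ▸ n.fil a b c (right_ne_zero_of_mul hc)

/-- degree below the weight -/
def Lo (v : n.G ℝ[X]) : Prop := ∀ a j, n.wt a ≤ j → (v a).coeff j = 0

theorem coeff_lo {p q : ℝ[X]} {α β j : ℕ} (hp : p.natDegree ≤ α) (hq : ∀ j, β ≤ j → q.coeff j = 0)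
    (h : α + β ≤ j) : (p * q).coeff j = 0 := by
  rw [coeff_mul]
  refine sum_eq_zero fun x hx => ?_
  have := mem_antidiagonal.1 hx
  by_cases c : β ≤ x.2
  · rw [hq _ c, mul_zero]
  · rw [coeff_eq_zero_of_natDegree_lt (by omega), zero_mul]

theorem coeff_br (x y : n.G ℝ[X]) (c : n.I) (j : ℕ) :
    (n.br x y c).coeff j = ∑ a, ∑ b, n.k a b c * (x a * y b).coeff j := by
  simp only [PN.br, finsetSum_coeff, coeff_intCast_mul]

theorem Lo.br {x v : n.G ℝ[X]} (hx : x ∈ n.P) (hv : Lo v) : Lo (n.br x v) := fun c j hj => by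
  rw [coeff_br]
  refine sum_eq_zero fun a _ => sum_eq_zero fun b _ => ?_
  by_cases k0 : n.k a b c = 0
  · simp [k0]
  · rw [coeff_lo (n.mem_P.1 hx a) (hv b) ((n.fil a b c k0).trans hj), mul_zero]

theorem lo_cst (x : n.G ℝ) : Lo (cst x).1 := fun a j hj => by
  have := n.w1 a
  exact (co_cst x a j).trans (if_neg (by omega))

theorem Lo.neg {v : n.G ℝ[X]} (hv : Lo v) : Lo (-v) := fun a j hj => by simp [hv a j hj]

/-- the subspace of the vectors of low degree -/
def JL (n : PN s) : Submodule ℚ (n.G ℝ[X]) where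
  carrier := {v | Lo v}
  zero_mem' _ _ _ := rfl
  add_mem' hv hw a j hj := by simp [hv a j hj, hw a j hj]
  smul_mem' t v hv a j hj := by simp [hv a j hj]

theorem co_mul {x y : n.Ph} (h : Lo (n.br x.1 y.1)) (a : n.I) (j : ℕ) (hj : n.wt a ≤ j) :
    co (x * y) a j = co x a j + co y a j := by
  have := n.mul_sub_mem (JL n) h (fun u hu => Lo.br x.2 hu) (fun u hu => Lo.br y.2 hu) a j hj
  rw [PN.sub_apply, PN.add_apply, coeff_sub, coeff_add, sub_eq_zero] at this
  exact this

theorem lo_left (c : n.G ℝ) (y : n.Ph) : Lo (n.br (cst c).1 y.1) := by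
  rw [br_anti]
  exact (Lo.br y.2 (lo_cst c)).neg

/-- the functional behind the symbol -/
noncomputable def lam (ξ : n.I → ℤ) (i : ℕ) : n.G ℝ[X] →+ ℝ where
  toFun v := ∑ a, ξ a * (v a).coeff i
  map_zero' := by simp
  map_add' x y := by simp [mul_add, sum_add_distrib]

theorem lam_br (ξ : n.I → ℤ) (i : ℕ) (x y : n.G ℝ[X]) :
    lam ξ i (n.br x y) = ∑ a, ∑ b, fm ξ a b * (x a * y b).coeff i := by
  change ∑ c, ξ c * (n.br x y c).coeff i = _
  simp only [coeff_br, mul_sum, fm, Int.cast_sum, Int.cast_mul, sum_mul, mul_assoc]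
  rw [sum_comm]
  exact sum_congr rfl fun a _ => sum_comm

variable {ξ : n.I → ℤ} {i : ℕ} (h1 : ∀ a, ξ a ≠ 0 → n.wt a = i + 1)
  (h2 : ∀ a b, n.wt a + n.wt b = i + 1 → 2 ≤ n.wt b → fm ξ a b = 0)
include h1 h2

theorem lam_lo {x v : n.G ℝ[X]} (hx : x ∈ n.P) (hv : Lo v) (hv' : n.Ag 2 v 0) :
    lam ξ i (n.br x v) = 0 := by
  rw [lam_br]
  refine sum_eq_zero fun a _ => sum_eq_zero fun b _ => ?_
  by_cases k0 : fm ξ a b = 0
  · simp [k0]
  rcases (fm_wt h1 k0).eq_or_lt with e | e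
  · by_cases c : 2 ≤ n.wt b
    · exact absurd (h2 a b e c) k0
    · rw [hv' b (by omega)]
      simp
  · rw [coeff_lo (n.mem_P.1 hx a) (hv b) (by omega), mul_zero]

theorem sym_mul' {x y : n.Ph} (h : Lo (n.br x.1 y.1)) :
    sym ξ i (x * y) = sym ξ i x + sym ξ i y + 1 / 2 * lam ξ i (n.br x.1 y.1) := by
  have a : ∀ w, Lo (adw n.br x.1 y.1 w) := by
    intro w
    induction w with
    | nil => exact h
    | cons b w ih => cases b; exacts [Lo.br y.2 ih, Lo.br x.2 ih]
  change lam ξ i (x.1 * y.1) = lam ξ i x.1 + lam ξ i y.1 + _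
  rw [mul_def, map_add, map_add, Finsupp.sum, map_sum, sum_eq_single []]
  · rw [map_rat_smul, cb_nil, Rat.smul_def]
    push_cast
    rfl
  · rintro (_ | ⟨b, w⟩) - hw
    · exact absurd rfl hw
    · rw [map_rat_smul, adw, lam_lo h1 h2 (by cases b; exacts [y.2, x.2]) (a w)
        ((ag_adw (ag_one _ 0) (ag_one _ 0) w).mono (by omega)), smul_zero]
  · intro h
    rw [Finsupp.notMem_support_iff.1 h, zero_smul, map_zero]

theorem lam_cst (hi : 1 ≤ i) (c : n.G ℝ) (y : n.Ph) {c' γ : n.I → ℝ}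
    (hc : ∀ a, n.wt a = 1 → c a = c' a) (hy : ∀ a, n.wt a = 1 → co y a 1 = γ a) :
    lam ξ i (n.br (cst c).1 y.1) = if i = 1 then EqB.bf (fm ξ) c' γ else 0 := by
  rw [lam_br]
  split_ifs with e
  · refine sum_congr rfl fun a _ => sum_congr rfl fun b _ => ?_
    by_cases k0 : fm ξ a b = 0
    · simp [k0]
    have := fm_wt h1 k0
    have := n.w1 a
    have := n.w1 b
    rw [← hc a (by omega), ← hy b (by omega), e]
    exact congrArg _ (coeff_C_mul _)
  · refine sum_eq_zero fun a _ => sum_eq_zero fun b _ => ?_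
    by_cases k0 : fm ξ a b = 0
    · simp [k0]
    have := fm_wt h1 k0
    have := n.w1 a
    by_cases l : n.wt b < i
    · have : (y.1 b).coeff i = 0 := coeff_eq_zero_of_natDegree_lt ((n.mem_P.1 y.2 b).trans_lt l)
      rw [show (cst c).1 a = C (c a) from rfl, coeff_C_mul, this]
      simp
    · exact absurd (h2 a b (by omega) (by omega)) k0

omit h1 h2

theorem co_gt (g : n.Ph) {a : n.I} {j : ℕ} (h : n.wt a < j) : co g a j = 0 :=
  coeff_eq_zero_of_natDegree_lt ((n.mem_P.1 g.2 a).trans_lt h)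

theorem co_shift (g : n.Ph) (h : ℝ) {a : n.I} {i : ℕ} (ha : n.wt a ≤ i + 1) :
    co (aff 1 h g) a i = co g a i + (i + 1) * h * co g a (i + 1) := by
  have e : (aff 1 h g).1 a = taylor h (g.1 a) := by rw [Seed.aff_val, C_1, one_mul, taylor_apply]
  have d : (hasseDeriv i (g.1 a)).natDegree < 2 := by
    have := natDegree_hasseDeriv_le (g.1 a) i
    have := n.mem_P.1 g.2 a
    omega
  rw [co, e, taylor_coeff, eval_eq_sum_range' d, sum_range_succ, sum_range_one, hasseDeriv_coeff,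
    hasseDeriv_coeff, zero_add, add_comm 1 i, Nat.choose_self, Nat.choose_succ_self_right]
  simp only [co]
  push_cast
  ring

theorem co_top (g : n.Ph) (h : ℝ) (c l : n.G ℝ) {a : n.I} {j : ℕ} (ha : n.wt a ≤ j) :
    co (cst c * aff 1 h g * cst l) a j = co g a j := by
  have := n.w1 a
  rw [co_mul (Lo.br (cst c * aff 1 h g).2 (lo_cst l)) a j ha, co_mul (lo_left _ _) a j ha, co_cst,
    co_cst, if_neg (by omega), if_neg (by omega), co_shift g h (by omega),
    co_gt g (j := j + 1) (by omega)]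
  ring

theorem ev_one (g : n.Ph) (t : ℝ) {a : n.I} (ha : n.wt a = 1) :
    ev t g a = co g a 0 + co g a 1 * t := by
  have d : (g.1 a).natDegree < 2 := by
    have := n.mem_P.1 g.2 a
    omega
  change (g.1 a).eval t = _
  rw [eval_eq_sum_range' d, sum_range_succ, sum_range_one]
  simp [co]

theorem ev_zero (g : n.Ph) (a : n.I) : ev 0 g a = co g a 0 := (coeff_zero_eq_eval_zero _).symm

include h1 h2

/-- the coefficient below the top of a shifted phase -/
theorem low (hi : 1 ≤ i) (g : n.Ph) (h : ℝ) (l : n.G ℝ) (u : n.I → ℝ) (g0 : ev 0 g = 1)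
    (hu : ∀ a, n.wt a = 1 → l a = -u a) :
    sym ξ i (cst (ev h g * l)⁻¹ * aff 1 h g * cst l) = sym ξ i g + (i + 1) * h * sym ξ (i + 1) g +
      if i = 1 then EqB.bf (fm ξ) u (fun a => co g a 1) else 0 := by
  have c0 : ∀ x : n.G ℝ, sym ξ i (cst x) = 0 := fun x =>
    sum_eq_zero fun a _ => by rw [co_cst, if_neg (by omega), mul_zero]
  have sh : sym ξ i (aff 1 h g) = sym ξ i g + (i + 1) * h * sym ξ (i + 1) g := by
    rw [sym, sym, sym, mul_sum, ← sum_add_distrib]
    refine sum_congr rfl fun a _ => ?_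
    by_cases k0 : ξ a = 0
    · simp [k0]
    · rw [co_shift g h (h1 a k0).le]
      ring
  have t1 := lam_cst h1 h2 hi (ev h g * l)⁻¹ (aff 1 h g)
    (c' := fun a => 1 * u a - h * co g a 1) (γ := fun a => co g a 1) (fun a ha => by
      rw [inv_def, PN.neg_apply, lead_left (ag_one _ 0) l ha.le, ev_one g h ha, ← ev_zero, g0, hu a ha,
        one_def, PN.zero_apply]
      ring) fun a ha => by
      rw [co_shift g h (by omega), co_gt g (j := 1 + 1) (by omega)]
      ring
  have t2 := lam_cst h1 h2 hi l (cst (ev h g * l)⁻¹ * aff 1 h g)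
    (c' := fun a => 0 * u a - 1 * u a) (γ := fun a => co g a 1) (fun a ha => by
      rw [hu a ha]
      ring) fun a ha => by
      have := co_top g h (ev h g * l)⁻¹ 1 (j := 1) ha.le
      rwa [map_one, mul_one] at this
  rw [sym_mul' h1 h2 (Lo.br (cst _ * aff 1 h g).2 (lo_cst l)), sym_mul' h1 h2 (lo_left _ _), c0, c0,
    sh, t1, br_anti, map_neg, t2]
  split_ifs
  · have z := EqB.bf_anti (fm_anti ξ) (fun a => co g a 1) fun a => co g a 1
    have e1 := EqB.bf_lin (fm ξ) u (fun a => co g a 1) (fun a => co g a 1) (fun a => co g a 1) 1 1 h 0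
    have e2 := EqB.bf_lin (fm ξ) u u (fun a => co g a 1) (fun a => co g a 1) 0 1 1 0
    simp only [one_mul, zero_mul, sub_zero, mul_zero, mul_one, add_zero] at e1 e2 ⊢
    rw [e1, e2, show EqB.bf (fm ξ) (fun a => co g a 1) (fun a => co g a 1) = 0 by linarith]
    ring
  · ring

end Low

variable {n : NS s} {R : Type} [CommRing R]

/-- the two components of a point of the box -/
def lo (x : n.box.G R) : n.G R := fun a => x (.inl a)

def hi (x : n.box.G R) : n.G R := fun a => if h : 2 ≤ n.wt a then x (.inr ⟨a, h⟩) else 0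

theorem ext {x y : n.box.G R} (h : lo x = lo y) (h' : hi x = hi y) : x = y := funext fun a => by
  rcases a with a | a
  · exact congrFun h a
  · simpa [hi, a.2] using congrFun h' a.1

theorem sum_hi {M : Type} [AddCommMonoid M] (x : n.box.G R) (f : n.I → R → M) (f0 : ∀ a, f a 0 = 0) :
    ∑ a : {a // 2 ≤ n.wt a}, f a.1 (x (.inr a)) = ∑ a, f a (hi x a) := by
  rw [← sum_filter_of_ne (p := fun a => 2 ≤ n.wt a) fun a _ h => by
    by_contra c
    exact h (by rw [hi, dif_neg c, f0]), sum_subtype (p := fun a => 2 ≤ n.wt a) _ (by simp)]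
  exact sum_congr rfl fun a _ => by rw [hi, dif_pos a.2]

theorem lo_br (x y : n.box.G R) : lo (n.box.br x y) = n.br (lo x) (lo y) := by
  funext c
  change ∑ a : n.I ⊕ _, ∑ b : n.I ⊕ _, ((NS.kB n a b (.inl c) : ℤ) : R) * (x a * y b) = _
  simp [Fintype.sum_sum_type, NS.kB, PN.br, lo]

theorem hi_br (x y : n.box.G R) :
    hi (n.box.br x y) = n.br (lo x) (hi y) + n.br (hi x) (lo y) + n.br (hi x) (hi y) := by
  funext c
  by_cases h : 2 ≤ n.wt c
  · rw [hi, dif_pos h]
    change ∑ a : n.I ⊕ _, ∑ b : n.I ⊕ _, ((NS.kB n a b (.inr ⟨c, h⟩) : ℤ) : R) * (x a * y b) = _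
    simp only [Fintype.sum_sum_type, NS.kB, Int.cast_zero, zero_mul, sum_const_zero, zero_add,
      sum_add_distrib, PN.add_apply, PN.br]
    rw [add_comm, add_assoc, add_comm (∑ _a : {a // 2 ≤ n.wt a}, _), add_assoc]
    congr 1
    · exact sum_congr rfl fun a _ => sum_hi y (fun b v => (n.k a b c : R) * (lo x a * v)) (by simp)
    congr 1
    · exact sum_hi x (fun a v => ∑ b, (n.k a b c : R) * (v * lo y b)) (by simp)
    · rw [← sum_hi x (fun a v => ∑ b, (n.k a b c : R) * (v * hi y b)) (by simp)]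
      exact sum_congr rfl fun a _ => sum_hi y (fun b v => (n.k a b c : R) * (x (.inr a) * v)) (by simp)
  · have z : ∀ u v : n.G R, n.br u v c = 0 := fun u v =>
      sum_eq_zero fun a _ => sum_eq_zero fun b _ => by
        have : n.k a b c = 0 := by
          by_contra k0
          have := n.fil a b c k0
          have := n.w1 a
          have := n.w1 b
          omega
        simp [this]
    simp [hi, h, z]

theorem hi_zero : hi (0 : n.box.G R) = 0 := funext fun a => by
  unfold hi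
  split_ifs <;> rfl

theorem hi_add (x y : n.box.G R) : hi (x + y) = hi x + hi y := funext fun a => by
  simp only [hi, PN.add_apply]
  split_ifs <;> simp

theorem lo_mul (x y : n.box.G ℝ) : lo (x * y) = lo x * lo y :=
  map_mul_of (n := n.box.toPN) (n' := n.toPN) (AddMonoidHom.mk' lo fun _ _ => rfl) x y lo_br

theorem up_mul (x y : n.box.G ℝ) : lo (x * y) + hi (x * y) = (lo x + hi x) * (lo y + hi y) :=
  map_mul_of (n := n.box.toPN) (n' := n.toPN) (AddMonoidHom.mk' (fun x => lo x + hi x) fun x y => by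
    rw [hi_add, show lo (x + y) = lo x + lo y from rfl]
    abel) x y fun u v => by
    simp only [AddMonoidHom.mk'_apply, lo_br, hi_br, br_add_left, br_add_right]
    abel

theorem nG_box (x : n.box.G ℝ) : nG x = nG (lo x) + nG (hi x) := by
  change ∑ a : n.I ⊕ _, |x a| = _
  rw [Fintype.sum_sum_type, sum_hi x (fun _ v => |v|) (by simp)]
  rfl

/-- the two parts of a covector of the box -/
def z1 (ζ : n.box.I → ℤ) : n.I → ℤ := lo (R := ℤ) ζ

def z2 (ζ : n.box.I → ℤ) : n.I → ℤ := hi (R := ℤ) ζ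

variable {ζ : n.box.I → ℤ} {i : ℕ}

theorem wt2 (h : IsCh i ζ) (a : n.I) (ha : z2 ζ a ≠ 0) : n.wt a = i + 1 := by
  by_cases c : 2 ≤ n.wt a
  · rw [z2, hi, dif_pos c] at ha
    have : n.wt a - 1 = i := h.wt _ ha
    omega
  · exact absurd (dif_neg c) ha

theorem br2 (h : IsCh i ζ) (a b : n.I) (e : n.wt a + n.wt b = i + 1) (hb : 2 ≤ n.wt b) :
    fm (z2 ζ) a b = 0 := by
  have := h.br (.inl a) (.inr ⟨b, hb⟩) (show n.wt a + (n.wt b - 1) = i by omega)
  change ∑ c : n.I ⊕ _, ζ c * NS.kB n (.inl a) (.inr ⟨b, hb⟩) c = 0 at this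
  simp only [Fintype.sum_sum_type, NS.kB, mul_zero, sum_const_zero, zero_add] at this
  exact (sum_hi (R := ℤ) ζ (fun c v => v * n.k a b c) (by simp)).symm.trans this

theorem ch1 (h : IsCh i ζ) (h0 : z2 ζ = 0) : IsCh i (z1 ζ) where
  ne e := h.ne (ext (R := ℤ) (y := 0) e (h0.trans hi_zero.symm))
  wt a ha := h.wt (.inl a) ha
  br a b e := by
    have := h.br (.inl a) (.inl b) e
    change ∑ c : n.I ⊕ _, ζ c * NS.kB n (.inl a) (.inl b) c = 0 at this
    simpa [Fintype.sum_sum_type, NS.kB, z1, lo] using this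

theorem ch2 (h : IsCh i ζ) (h0 : z2 ζ ≠ 0) (hi : 2 ≤ i ∨ fm (z2 ζ) = 0) : IsCh (i + 1) (z2 ζ) where
  ne := h0
  wt := wt2 h
  br a b e := by
    rcases hi with hi | hi
    · by_cases c : 2 ≤ n.wt b
      · exact br2 h a b e c
      · exact (fm_anti _ a b).trans (by rw [br2 h b a (by omega) (by omega), neg_zero])
    · exact congrFun (congrFun hi a) b

theorem ch_pos {n : PN s} {ξ : n.I → ℤ} (h : IsCh i ξ) : 1 ≤ i := by
  obtain ⟨a, ha⟩ := Function.ne_iff.1 h.ne
  exact h.wt a ha ▸ n.w1 a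

theorem cen_top {n : PN s} {d : ℕ} (hw : ∀ a, n.wt a ≤ d) {v : n.G ℝ}
    (hv : ∀ a, n.wt a ≠ d → v a = 0) : Cen v := fun y => funext fun c =>
  ag_br (i := d) (fun a ha => hv a ha.ne) (ag_one y 0) c (Nat.lt_succ_of_le (hw c))

theorem mul_add_cen {n : PN s} {v : n.G ℝ} (hv : Cen v) (c p : n.G ℝ) : c * (p + v) = c * p + v := by
  have e : ∀ p, p + v = p * v := fun p =>
    (n.mul_of_comm (by rw [br_anti, hv, neg_zero])).symm
  rw [e, e, mul_assoc]

/-- the function on the box that appears after differencing -/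
theorem dif (n : NS s) {d : ℕ} (hw : ∀ a, n.wt a ≤ d + 1) : ∃ C : ℝ, 0 ≤ C ∧
    ∀ (a0 : n.I) (ha : 2 ≤ n.wt a0), n.wt a0 = d + 1 →
    Cen (zv (Pi.single (.inr ⟨a0, ha⟩) 1 : n.box.I → ℤ) : n.box.G ℝ) ∧
    ∀ F L j (g : n.Ph) (h : ℝ), 0 ≤ L → n.Test F L → n.Top (d + 1) j F → j a0 ≠ 0 → ev 0 g = 1 →
    ∃ (F2 : n.box.G ℝ → ℂ) (w : n.box.Ph), n.box.Test F2 (C * L) ∧
      n.box.Frq (Pi.single (.inr ⟨a0, ha⟩) 1) F2 ∧
      (∀ x y, (∀ a, n.box.wt a ≤ d → x a = y a) → F2 x = F2 y) ∧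
      (∀ t, F2 (ev t w) = F (ev (t + h) g) * conj (F (ev t g))) ∧
      ∀ i ζ, IsCh i ζ → sym ζ i w = sym (z1 ζ) i g + (i + 1) * h * sym (z2 ζ) (i + 1) g +
        if i = 1 then EqB.bf (fm (z2 ζ)) (fun a => (⌊h * co g a 1⌋ : ℤ)) (fun a => co g a 1)
        else 0 := by
  have cB := n.toPN.one_le_cB
  refine ⟨n.cB * (1 + Fintype.card n.I) ^ s + 1, by positivity, fun a0 ha e0 => ?_⟩
  set z : n.box.G ℝ := zv (Pi.single (.inr ⟨a0, ha⟩) 1 : n.box.I → ℤ) with hz
  have zl : ∀ t : ℝ, lo (t • z) = 0 := fun t => funext fun a => by simp [lo, hz, zv]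
  have zh : ∀ (t : ℝ) a, hi (t • z) a = if a = a0 then t else 0 := fun t a => by
    by_cases c : a = a0
    · subst c
      simp [hi, ha, hz, zv]
    · rw [if_neg c]
      unfold hi
      split_ifs with h2
      · have : (Pi.single (.inr ⟨a0, ha⟩) 1 : n.box.I → ℤ) (.inr ⟨a, h2⟩) = 0 :=
          Pi.single_eq_of_ne (ι := n.box.I) (fun e => c (congrArg Subtype.val (Sum.inr.inj e))) _
        rw [PN.smul_apply, hz, zv, this]
        simp
      · rfl
  have zt : ∀ (t : ℝ) a, n.wt a ≠ d + 1 → hi (t • z) a = 0 := fun t a h => by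
    rw [zh, if_neg]
    rintro rfl
    exact h e0
  refine ⟨fun y => ext ?_ ?_, fun F L j g h L0 hF hT j0 g0 => ?_⟩
  · rw [lo_br, ← one_smul ℝ z, zl, br_zero_left]
    rfl
  · rw [hi_br, ← one_smul ℝ z, zl, br_zero_left, cen_top hw (zt 1), cen_top hw (zt 1), hi_zero]
    simp
  obtain ⟨l, hl, hc⟩ := n.i_cube_ex (ev h g)
  set c := ev h g * l with ec
  have nc : nG c ≤ Fintype.card n.I := by
    rw [nG, Fintype.card, card_eq_sum_ones, Nat.cast_sum]
    exact sum_le_sum fun a _ => by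
      rw [abs_of_nonneg (hc a).1, Nat.cast_one]
      exact (hc a).2.le
  set g' := cst c⁻¹ * aff 1 h g * cst l with eg
  have ev' : ∀ t, ev t g' = c⁻¹ * ev (t + h) g * l := fun t => by
    rw [eg, map_mul, map_mul, ev_cst', ev_cst', ev_aff', one_mul]
  have a1 : ∀ a, ¬2 ≤ n.wt a → g'.1 a = g.1 a := fun a h2 => Polynomial.ext fun k => by
    rcases k with _ | k
    · change co g' a 0 = co g a 0
      rw [← ev_zero, ← ev_zero, ev', zero_add, mul_assoc, inv_mul_cancel, g0]
    · exact co_top g h _ _ (by omega)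
  let w : n.box.Ph := ⟨Sum.elim g.1 fun a => g'.1 a.1 - g.1 a.1, n.box.mem_P.2 fun a => by
    rcases a with a | a
    · exact n.mem_P.1 g.2 a
    · refine natDegree_le_iff_coeff_eq_zero.2 fun k hk => ?_
      change n.wt a.1 - 1 < k at hk
      exact (coeff_sub _ _ _).trans (sub_eq_zero.2 (co_top g h _ _ (by omega)))⟩
  have tp : ∀ (v : n.G ℝ), (∀ a, n.wt a ≠ d + 1 → v a = 0) → ∀ p,
      F (c * (p + v)) = e (∑ a, j a * v a) * F (c * p) := fun v hv p => by
    rw [mul_add_cen (cen_top hw hv), hT v _ hv]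
  refine ⟨fun x => F (c * (lo x + hi x)) * conj (F (lo x)), w, ⟨fun x => ?_, fun x γ hγ => ?_,
    fun u x => ?_⟩, ⟨j a0, by exact_mod_cast j0, fun t x => ?_⟩, fun x y hxy => ?_, fun t => ?_,
    fun i ζ hζ => ?_⟩
  · rw [norm_mul, Complex.norm_conj]
    exact mul_le_one₀ (hF.bd _) (norm_nonneg _) (hF.bd _)
  · rw [NS.i_mem_Gam] at hγ
    have m1 : lo γ ∈ n.Gam := n.i_mem_Gam.2 fun a => hγ (.inl a)
    have m2 : hi γ ∈ n.Gam := n.i_mem_Gam.2 fun a => by
      unfold hi
      split_ifs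
      exacts [hγ _, ⟨0, by simp⟩]
    have m3 : lo γ + hi γ ∈ n.Gam := n.i_mem_Gam.2 fun a => by
      obtain ⟨p, hp⟩ := n.i_mem_Gam.1 m1 a
      obtain ⟨q, hq⟩ := n.i_mem_Gam.1 m2 a
      exact ⟨p + q, by rw [PN.add_apply, hp, hq, Int.cast_add]⟩
    rw [up_mul, lo_mul, ← mul_assoc, hF.inv _ _ m1, hF.inv _ _ m3]
  · have p1 := hF.lip (c * (lo u + hi u) * c⁻¹) (c * (lo x + hi x))
    have p2 := hF.lip (lo u) (lo x)
    have p3 := nG_conj c (lo u + hi u)
    have p4 := nG_add (lo u) (hi u)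
    have p5 := nG_box u
    have p6 := nG_nonneg (hi u)
    have p7 := nG_nonneg c
    have p8 := nG_nonneg (lo u + hi u)
    rw [mul_assoc, inv_mul_cancel_left, mul_assoc] at p1
    rw [up_mul, lo_mul]
    set A := F (c * ((lo u + hi u) * (lo x + hi x)))
    set A' := F (c * (lo x + hi x))
    have e1 : A * conj (F (lo u * lo x)) - A' * conj (F (lo x)) =
        (A - A') * conj (F (lo u * lo x)) + A' * conj (F (lo u * lo x) - F (lo x)) := by
      rw [map_sub]
      ring
    have p9 : nG (c * (lo u + hi u) * c⁻¹) ≤ n.cB * (1 + Fintype.card n.I) ^ s * nG u :=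
      p3.trans (by gcongr; linarith)
    rw [e1]
    refine (norm_add_le _ _).trans ?_
    rw [norm_mul, norm_mul, Complex.norm_conj, Complex.norm_conj]
    calc _ ≤ L * (n.cB * (1 + Fintype.card n.I) ^ s * nG u) * 1 + 1 * (L * nG u) := by
          gcongr
          · exact mul_nonneg L0 ((nG_nonneg _).trans p9)
          · exact p1.trans (by gcongr)
          · exact hF.bd _
          · exact hF.bd _
          · exact p2.trans (by gcongr; linarith)
      _ = _ := by ring
  · beta_reduce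
    rw [← hz, up_mul, lo_mul, zl, zero_add, ← one_def, one_mul,
      n.mul_of_comm (cen_top hw (zt t) _), add_comm (hi _), tp _ (zt t), mul_assoc]
    simp [zh]
  · have e1 : hi x = hi y := funext fun a => by
      unfold hi
      split_ifs with h2
      exacts [hxy _ (show n.wt a - 1 ≤ d by have := hw a; omega), rfl]
    have e2 : ∀ a, n.wt a ≠ d + 1 → (lo x - lo y) a = 0 := fun a h2 =>
      sub_eq_zero.2 (hxy (.inl a) (show n.wt a ≤ d by have := hw a; omega))
    have e3 := tp _ e2 (lo y + hi y)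
    have e4 := hT _ (lo y) e2
    rw [add_sub_cancel] at e4
    rw [add_right_comm, add_sub_cancel] at e3
    beta_reduce
    rw [e1, e3, e4, map_mul, mul_mul_mul_comm, e_mul_conj, sub_self, e_zero, one_mul]
  · have e1 : lo (ev t w) = ev t g := rfl
    have e2 : lo (ev t w) + hi (ev t w) = ev t g' := funext fun a => by
      change (g.1 a).eval t + hi _ a = (g'.1 a).eval t
      unfold hi
      split_ifs with h2
      · change _ + (g'.1 a - g.1 a).eval t = _
        rw [eval_sub, add_sub_cancel]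
      · rw [a1 a h2, add_zero]
    beta_reduce
    rw [e2, e1, ev', ← mul_assoc, mul_inv_cancel_left, hF.inv _ _ hl]
  · have e1 : sym ζ i w = sym (z1 ζ) i g + (sym (z2 ζ) i g' - sym (z2 ζ) i g) := by
      change ∑ a : n.I ⊕ _, ζ a * co w a i = _
      rw [Fintype.sum_sum_type, sym, sym, sym, ← sum_sub_distrib]
      congr 1
      refine Eq.trans (sum_congr rfl fun a _ => ?_) ((sum_hi (R := ℤ) ζ
        (fun a v => (v : ℝ) * (co g' a i - co g a i)) (by simp)).trans
        (sum_congr rfl fun a _ => mul_sub _ _ _))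
      exact congrArg _ (coeff_sub _ _ _)
    rw [e1, eg, ec, low (wt2 hζ) (br2 hζ) (ch_pos hζ) g h l (fun a => (⌊h * co g a 1⌋ : ℤ)) g0]
    · ring
    · intro a h1
      obtain ⟨p, hp⟩ := n.i_mem_Gam.1 hl a
      have := hc a
      rw [ec, lead_left (ag_one _ 0) l h1.le, ev_one g h h1, ← ev_zero, g0, hp, one_def,
        PN.zero_apply] at this
      rw [hp, (Int.floor_eq_iff (z := -p)).2 ⟨by push_cast; linarith [this.1],
        by push_cast; linarith [this.2]⟩]
      simp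

end Pool.Agent.Lib.MP_028aa5_nt.N.Box
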