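import Pool.Agent.Lib.MP_028aa5_nt.N.Cov
import Pool.Agent.Lib.MP_028aa5_nt.N.Bil

/-! Covering numbers and fine lattices without hypotheses. -/

namespace Pool.Agent.Lib.MP_028aa5_nt.N

open Finset

namespace Cov

variable {s : ℕ}

/-- one constant for both bounds -/
theorem bil_gro (n : PN s) : ∃ (C : ℝ) (e : ℕ), 1 ≤ C ∧ Bil n C ∧ Gro n C e := by
  obtain ⟨C, D, C0, h⟩ := n.nm0_le_ln0
  have c1 := n.one_le_cB
  refine ⟨n.cB + C, D + 1, by linarith, fun g g' => (PN.nm0_mul_inv g g').trans ?_,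
    fun g => (h g).trans ?_⟩
  · have := nm0_nonneg g
    have := nm0_nonneg g'
    exact mul_le_mul_of_nonneg_right (mul_le_mul_of_nonneg_right (by linarith) (by positivity))
      (dc_nonneg g g')
  · have l0 := ln0_nonneg g
    generalize PN.ln0 g = l at *
    have a : 1 ≤ (1 + l) ^ (D + 1) := one_le_pow₀ (by linarith)
    have b : l * (1 + l) ^ D ≤ (1 + l) ^ (D + 1) := by
      rw [pow_succ']
      gcongr
      linarith
    have c : 1 + C * (l * (1 + l) ^ D) ≤ (n.cB + C) * (1 + l) ^ (D + 1) := by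
      have := mul_le_mul_of_nonneg_left b C0
      nlinarith
    calc _ = (1 + C * (l * (1 + l) ^ D)) * l := by ring
      _ ≤ _ := by gcongr

end Cov

variable {s : ℕ}

/-- covering numbers of the gauge `S * ln w y` -/
theorem PN.cov_ln (n : PN s) :
    ∃ K0 : ℕ, ∀ K : ℕ, K0 ≤ K → ∀ S : ℝ, 1 ≤ S → ∀ (ι : Type) (w y r δ L : ℝ) (A : Finset ι)
      (v : ι → n.Ph), 0 ≤ r → 0 < δ → (∀ x ∈ A, S * PN.ln w y (v x) ≤ r) →
      (∀ B ⊆ A, (∀ x ∈ B, ∀ x' ∈ B, S * PN.ln w y (v x * (v x')⁻¹) ≤ δ) → (#B : ℝ) ≤ L) →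
      (#A : ℝ) ≤ (K * (r / δ + 1) * (1 + r)) ^ K * L := by
  obtain ⟨C, e, C1, hB, hG⟩ := Cov.bil_gro n
  exact Cov.cov C1 hB hG

/-- finer lattices for the gauge `S * ln w y` -/
theorem NS.fine_ln (n : NS s) {S w : ℝ} (hS : 0 < S) (hw : w ≠ 0) (y : ℝ) {r : ℝ} (hr : 0 < r)
    (Θ : Finset n.Ph) :
    ∃ L : Subgroup n.Ph, n.Lam 1 ≤ L ∧ (∀ R : ℝ, {d | d ∈ L ∧ S * PN.ln w y d ≤ R}.Finite) ∧
      ∀ g ∈ Θ, ∃ d ∈ L, S * PN.ln w y (d * g⁻¹) ≤ r := by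
  obtain ⟨C, e, C1, hB, hG⟩ := Cov.bil_gro n.toPN
  exact n.fine (by linarith) hB hG hS hw y hr Θ

end Pool.Agent.Lib.MP_028aa5_nt.N
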