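import Pool.Agent.Lib.MP_028aa5_nt.N.Grp

/-! Polynomial sequences, lattices, norms, characters, morphisms. -/

namespace Pool.Agent.Lib.MP_028aa5_nt.N

open Finset Polynomial
open scoped Classical

namespace PN

variable {s : ℕ} (n : PN s)

/-- total weight -/
def tw : ℕ := ∑ a, n.wt a

/-- the points whose coordinates of weight below `i` vanish -/
noncomputable def Fil (R : Type) [CommRing R] [Algebra ℚ R] (i : ℕ) : Subgroup (n.G R) :=
  n.famQ (fun a => if n.wt a < i then ⊥ else ⊤) fun a b c h u hu v _ => by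
    have := n.fil a b c h
    split_ifs with h1
    · rw [if_pos (by omega), Submodule.mem_bot] at hu
      simp [hu]
    · trivial

theorem mem_Fil {R : Type} [CommRing R] [Algebra ℚ R] {i : ℕ} {x : n.G R} :
    x ∈ n.Fil R i ↔ ∀ a, n.wt a < i → x a = 0 :=
  forall_congr' fun a => by by_cases h : n.wt a < i <;> simp [h]

/-- polynomial sequences: the coordinate `a` has degree at most `wt a` -/
noncomputable def P : Subgroup (n.G ℝ[X]) :=
  n.famQ (fun a => (degreeLE ℝ (n.wt a : ℕ)).restrictScalars ℚ) fun a b c h u hu v hv => by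
    rw [Submodule.restrictScalars_mem, mem_degreeLE] at hu hv ⊢
    refine (degree_mul_le_of_le hu hv).trans ?_
    exact_mod_cast n.fil a b c h

theorem mem_P {x : n.G ℝ[X]} : x ∈ n.P ↔ ∀ a, (x a).natDegree ≤ n.wt a :=
  forall_congr' fun a => by
    rw [Submodule.restrictScalars_mem, mem_degreeLE, natDegree_le_iff_degree_le]

/-- the group of phases -/
abbrev Ph := ↥n.P

variable {n}

/-- coefficient of `t ^ j` in the coordinate `a` -/
noncomputable def co (g : n.Ph) (a : n.I) (j : ℕ) : ℝ := (g.1 a).coeff j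

/-- value at `t` -/
noncomputable def ev (t : ℝ) : n.Ph →* n.G ℝ := (n.map (evalRingHom t)).comp n.P.subtype

/-- the phase `t ↦ g (α t + β)` -/
noncomputable def aff (α β : ℝ) : n.Ph →* n.Ph :=
  ((n.map (compRingHom (C α * X + C β))).comp n.P.subtype).codRestrict n.P fun g =>
    n.mem_P.2 fun a => by
      refine natDegree_comp_le.trans ?_
      calc _ ≤ n.wt a * 1 := Nat.mul_le_mul (n.mem_P.1 g.2 a) natDegree_linear_le
        _ = _ := mul_one _

/-- the phase `t ↦ g (a t)` -/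
noncomputable def dil (a : ℝ) : n.Ph →* n.Ph := aff a 0

/-- constant phases -/
noncomputable def cst : n.G ℝ →* n.Ph :=
  (n.map (C : ℝ →+* ℝ[X])).codRestrict n.P fun _ => n.mem_P.2 fun _ => by simp

/-- size of a point -/
noncomputable def nG (x : n.G ℝ) : ℝ := ∑ a, |x a|

/-- sum of the absolute values of the coefficients -/
noncomputable def nm0 (g : n.Ph) : ℝ := ∑ a, ∑ j ∈ range (s + 1), |co g a j|

/-- size on the window `(y, y + K]` -/
noncomputable def nm (K y : ℝ) (g : n.Ph) : ℝ := nm0 (aff K y g)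

/-- word length -/
noncomputable def ln0 (g : n.Ph) : ℝ := sInf {r | ∃ l : List n.Ph, l.prod = g ∧ (l.map nm0).sum = r}

/-- word length on the window `(y, y + K]` -/
noncomputable def ln (K y : ℝ) (g : n.Ph) : ℝ := ln0 (aff K y g)

/-- central vector -/
def Cen (z : n.G ℝ) : Prop := ∀ y, n.br z y = 0

/-- `F` is an eigenfunction of the translations along `z` with frequency `ξ` -/
def Eig (F : n.G ℝ → ℂ) (z : n.G ℝ) (ξ : ℝ) : Prop := ∀ (t : ℝ) x, F (t • z * x) = e (ξ * t) * F x

/-- Fourier component along `z` -/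
noncomputable def cmp (F : n.G ℝ → ℂ) (z : n.G ℝ) (j : ℤ) (x : n.G ℝ) : ℂ :=
  ∫ t in (0 : ℝ)..1, F (t • z * x) * e (-(j * t))

/-- a nonzero integral covector on the coordinates of weight `i` that kills the brackets -/
structure IsCh (i : ℕ) (ξ : n.I → ℤ) : Prop where
  ne : ξ ≠ 0
  wt : ∀ a, ξ a ≠ 0 → n.wt a = i
  br : ∀ a b, n.wt a + n.wt b = i → ∑ c, ξ c * n.k a b c = 0

/-- the symbol of a phase -/
noncomputable def sym (ξ : n.I → ℤ) (i : ℕ) (g : n.Ph) : ℝ := ∑ a, ξ a * co g a i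

/-- a finite list of characters -/
def Chs (Ξ : Finset (ℕ × (n.I → ℤ))) : Prop := ∀ u ∈ Ξ, IsCh u.1 u.2

/-- the phase is degenerate at scale `K` -/
def Deg (Ξ : Finset (ℕ × (n.I → ℤ))) (M K : ℝ) (g : n.Ph) : Prop :=
  ∃ u ∈ Ξ, Nr (sym u.2 u.1 g) (M / K ^ u.1)

/-- integral vectors as points -/
def zv (z : n.I → ℤ) : n.G ℝ := fun a => z a

end PN

/-- a filtered homomorphism of Lie algebras with rational matrix -/
structure Mor {s : ℕ} (n' n : PN s) where
  A : n'.I → n.I → ℚ
  hom : ∀ a b u, ∑ c, n'.k a b c * A c u = ∑ c, ∑ d, A a c * A b d * n.k c d u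
  fil : ∀ a c, A a c ≠ 0 → n'.wt a ≤ n.wt c

namespace Mor

variable {s : ℕ} {n' n : PN s} (φ : Mor n' n)

/-- the linear map of a matrix -/
noncomputable def lin (A : n'.I → n.I → ℚ) (R : Type) [CommRing R] [Algebra ℚ R] :
    n'.G R →+ n.G R where
  toFun x := fun c => ∑ a, A a c • x a
  map_zero' := funext fun c => by simp
  map_add' x y := funext fun c => by simp [sum_add_distrib]

theorem lin_br {R : Type} [CommRing R] [Algebra ℚ R] (x y : n'.G R) :
    lin φ.A R (n'.br x y) = n.br (lin φ.A R x) (lin φ.A R y) := by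
  funext u
  have h : ∀ a b, (∑ c, φ.A c u • ((n'.k a b c : R) * (x a * y b))) =
      ∑ c, ∑ d, (n.k c d u : R) * (φ.A a c • x a * φ.A b d • y b) := by
    intro a b
    have := congrArg (fun r : ℚ => r • (x a * y b)) (φ.hom a b u)
    simp only [sum_smul] at this
    refine Eq.trans (sum_congr rfl fun c _ => ?_) (this.trans
      (sum_congr rfl fun c _ => sum_congr rfl fun d _ => ?_))
    · simp only [Algebra.smul_def, map_mul, map_intCast]
      ring
    · simp only [Algebra.smul_def, map_mul, map_intCast]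
      ring
  calc _ = ∑ c, ∑ a, ∑ b, φ.A c u • ((n'.k a b c : R) * (x a * y b)) := by
        simp only [lin, AddMonoidHom.coe_mk, ZeroHom.coe_mk, PN.br, smul_sum]
    _ = ∑ a, ∑ b, ∑ c, φ.A c u • ((n'.k a b c : R) * (x a * y b)) := by
        rw [sum_comm]
        exact sum_congr rfl fun a _ => sum_comm
    _ = ∑ a, ∑ b, ∑ c, ∑ d, (n.k c d u : R) * (φ.A a c • x a * φ.A b d • y b) := by simp only [h]
    _ = ∑ c, ∑ d, ∑ a, ∑ b, (n.k c d u : R) * (φ.A a c • x a * φ.A b d • y b) := by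
        simp only [← Fintype.sum_prod_type']
        exact Fintype.sum_equiv (Equiv.prodComm _ _ |>.trans (Equiv.refl _) |>.symm.symm |>.trans
          (Equiv.prodComm _ _) |>.trans ((Equiv.prodAssoc _ _ _).symm.trans
            ((Equiv.prodComm _ _).trans (Equiv.prodAssoc _ _ _)))) _ _ fun _ => rfl
    _ = _ := by
        simp only [lin, AddMonoidHom.coe_mk, ZeroHom.coe_mk, PN.br]
        refine sum_congr rfl fun c _ => sum_congr rfl fun d _ => ?_
        rw [sum_mul_sum, mul_sum]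
        exact sum_congr rfl fun a _ => (mul_sum _ _ _).symm

/-- the homomorphism of groups -/
noncomputable def app (R : Type) [CommRing R] [Algebra ℚ R] : n'.G R →* n.G R where
  toFun := lin φ.A R
  map_one' := map_zero (lin φ.A R)
  map_mul' x y := PN.map_mul_of _ x y φ.lin_br

theorem app_apply {R : Type} [CommRing R] [Algebra ℚ R] (x : n'.G R) (c : n.I) :
    φ.app R x c = ∑ a, φ.A a c • x a := rfl

/-- the homomorphism of phases -/
noncomputable def ph : n'.Ph →* n.Ph :=
  ((φ.app ℝ[X]).comp n'.P.subtype).codRestrict n.P fun g => n.mem_P.2 fun c => by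
    refine natDegree_sum_le_of_forall_le _ _ fun a _ => ?_
    by_cases h : φ.A a c = 0
    · simp [h]
    · exact (natDegree_smul_le _ _).trans ((n'.mem_P.1 g.2 a).trans (φ.fil a c h))

/-- all entries are integral multiples of `D` -/
def Dv (D : ℕ) : Prop := ∀ a c, ∃ z : ℤ, φ.A a c = D * z

end Mor

/-- the multiples of `r` -/
def mulz (r : ℝ) : AddSubgroup ℝ := AddSubgroup.zmultiples r

/-- polynomials whose coefficient of degree `j` is a multiple of `c ^ j * r` -/
def polz (c r : ℝ) : AddSubgroup ℝ[X] where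
  carrier := {p | ∀ j, ∃ z : ℤ, p.coeff j = c ^ j * r * z}
  zero_mem' _ := ⟨0, by simp⟩
  add_mem' {p q} hp hq j := by
    obtain ⟨z, hz⟩ := hp j
    obtain ⟨z', hz'⟩ := hq j
    exact ⟨z + z', by rw [coeff_add, hz, hz']; push_cast; ring⟩
  neg_mem' {p} hp j := by
    obtain ⟨z, hz⟩ := hp j
    exact ⟨-z, by rw [coeff_neg, hz]; push_cast; ring⟩

theorem polz_mul {c r r' r'' : ℝ} (m : ℤ) (h : r * r' = r'' * m) {u v : ℝ[X]} (hu : u ∈ polz c r)
    (hv : v ∈ polz c r') : u * v ∈ polz c r'' := by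
  intro j
  choose z hz using hu
  choose z' hz' using hv
  refine ⟨m * ∑ x ∈ antidiagonal j, z x.1 * z' x.2, ?_⟩
  rw [coeff_mul]
  push_cast
  rw [mul_sum, mul_sum]
  refine sum_congr rfl fun x hx => ?_
  rw [hz, hz', ← mem_antidiagonal.1 hx, pow_add]
  linear_combination c ^ x.1 * c ^ x.2 * z x.1 * z' x.2 * h

theorem inv_pow_mul {q : ℕ} {a b c : ℕ} (h : a + b ≤ c) (ha : 1 ≤ a) :
    ((q : ℝ) ^ a)⁻¹ * ((q : ℝ) ^ b)⁻¹ = ((q : ℝ) ^ c)⁻¹ * ((q ^ (c - (a + b)) : ℕ) : ℤ) := by
  rcases Nat.eq_zero_or_pos q with rfl | hq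
  · simp [show a ≠ 0 by omega, show c ≠ 0 by omega]
  · obtain ⟨d, rfl⟩ := Nat.exists_eq_add_of_le h
    have : (q : ℝ) ≠ 0 := by positivity
    rw [Nat.add_sub_cancel_left]
    push_cast
    field_simp
    ring

namespace NS

variable {s : ℕ} (n : NS s)

/-- rational points of height `q` -/
noncomputable def GamQ (q : ℕ) : Subgroup (n.G ℝ) :=
  n.fam (fun a => mulz ((q : ℝ) ^ n.wt a)⁻¹) fun a b c h u hu v hv => by
    obtain ⟨z, rfl⟩ := AddSubgroup.mem_zmultiples_iff.1 hu
    obtain ⟨z', rfl⟩ := AddSubgroup.mem_zmultiples_iff.1 hv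
    refine AddSubgroup.mem_zmultiples_iff.2 ⟨z * z' * (q ^ (n.wt c - (n.wt a + n.wt b)) : ℕ), ?_⟩
    have := inv_pow_mul (q := q) (n.fil a b c h) (n.w1 a)
    simp only [zsmul_eq_mul, Int.cast_mul]
    linear_combination -(z * z' : ℝ) * this

/-- the lattice -/
noncomputable def Gam : Subgroup (n.G ℝ) := n.GamQ 1

/-- rational phases of height `q` and level `c` -/
noncomputable def LamQ (c : ℝ) (q : ℕ) : Subgroup n.Ph :=
  (n.fam (fun a => polz c ((q : ℝ) ^ n.wt a)⁻¹) fun a b c h _ hu _ hv =>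
    polz_mul _ (inv_pow_mul (n.fil a b c h) (n.w1 a)) hu hv).comap n.P.subtype

/-- integral phases of level `c` -/
noncomputable def Lam (c : ℝ) : Subgroup n.Ph := n.LamQ c 1

/-- bounded Lipschitz functions on the nilmanifold -/
structure Test (F : n.G ℝ → ℂ) (L : ℝ) : Prop where
  bd : ∀ x, ‖F x‖ ≤ 1
  inv : ∀ x, ∀ γ ∈ n.Gam, F (x * γ) = F x
  lip : ∀ u x, ‖F (u * x) - F x‖ ≤ L * PN.nG u

end NS

end Pool.Agent.Lib.MP_028aa5_nt.N
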