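import Pool.Agent.Lib.MP_028aa5_nt.N.Split
import Pool.Agent.Lib.MP_028aa5_nt.N.Mov

/-! Statements for the equidistribution theorem. -/

namespace Pool.Agent.Lib.MP_028aa5_nt.N

open Finset
open scoped Classical

/-- degenerate, with one constant -/
def PN.DegW {s : ℕ} {n : PN s} (W N : ℕ) (g : n.Ph) : Prop :=
  ∃ (i : ℕ) (ξ : n.I → ℤ), PN.IsCh i ξ ∧ (∀ a, |ξ a| ≤ W) ∧ Nr (PN.sym ξ i g) (W / (N : ℝ) ^ i)

/-- test functions with the property `Q` have small sums along phases that are not degenerate -/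
def NS.EqP {s : ℕ} (n : NS s) (L δ : ℝ) (Q : (n.G ℝ → ℂ) → Prop) : Prop :=
  ∃ W : ℕ, ∀ F, n.Test F L → Q F → ∀ (g : n.Ph) (a b N : ℕ), b ≤ a + N → W ≤ N →
    δ * N ≤ ‖∑ m ∈ Ioc a b, F (PN.ev m g)‖ → PN.DegW W N g

/-- a nonzero frequency along `z` -/
def NS.Frq {s : ℕ} (n : NS s) (z : n.I → ℤ) (F : n.G ℝ → ℂ) : Prop :=
  ∃ k : ℝ, k ≠ 0 ∧ PN.Eig F (PN.zv z) k

/-- the equidistribution theorem up to degree `d` -/
def EqD (s d : ℕ) : Prop := ∀ (n : NS s) (z : n.I → ℤ) (L δ : ℝ), (∀ a, n.wt a ≤ d) →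
  PN.Cen (n := n.toPN) (PN.zv z) → 0 ≤ L → 0 < δ → n.EqP L δ (n.Frq z)

/-- functions that do not depend on the coordinates of weight above `d` -/
def DwnSt : Prop := ∀ (s d : ℕ), EqD s d → ∀ (n : NS s) (z : n.I → ℤ) (L δ : ℝ),
  PN.Cen (n := n.toPN) (PN.zv z) → 0 ≤ L → 0 < δ →
  n.EqP L δ fun F => n.Frq z F ∧ ∀ x y, (∀ a, n.wt a ≤ d → x a = y a) → F x = F y

/-- frequencies along all coordinates of weight `d` -/
def NS.Top {s : ℕ} (n : NS s) (d : ℕ) (j : n.I → ℤ) (F : n.G ℝ → ℂ) : Prop :=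
  ∀ v x : n.G ℝ, (∀ a, n.wt a ≠ d → v a = 0) → F (x + v) = e (∑ a, j a * v a) * F x

/-- reduction to eigenfunctions of the last group -/
def VertSt : Prop := ∀ (s d : ℕ) (n : NS s) (z : n.I → ℤ) (L : ℝ), (∀ a, n.wt a ≤ d) →
  (∀ (δ : ℝ) (j : n.I → ℤ), 0 < δ → (∀ a, n.wt a ≠ d → j a = 0) →
    n.EqP L δ fun F => n.Frq z F ∧ n.Top d j F) → ∀ δ, 0 < δ → n.EqP L δ (n.Frq z)

/-- the abelian case -/
def AbelSt : Prop := ∀ (s : ℕ) (n : NS s) (L δ : ℝ) (j : n.I → ℤ), (∀ a, n.wt a ≤ 1) → 0 < δ →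
  j ≠ 0 → n.EqP L δ (n.Top 1 j)

/-- the step of van der Corput -/
def CorSt : Prop := ∀ (s d : ℕ), 1 ≤ d → EqD s d → ∀ (n : NS s) (L δ : ℝ) (j : n.I → ℤ),
  (∀ a, n.wt a ≤ d + 1) → 0 ≤ L → 0 < δ → (∀ a, n.wt a ≠ d + 1 → j a = 0) → j ≠ 0 →
  n.EqP L δ (n.Top (d + 1) j)

end Pool.Agent.Lib.MP_028aa5_nt.N
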