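import Pool.Agent.Lib.MP_028aa5_nt.N.EqA

/-! Reduction to eigenfunctions of the last group. -/

namespace Pool.Agent.Lib.MP_028aa5_nt.N

open Finset Split
open scoped Classical

namespace EqV

variable {s : ℕ} {n : NS s} {L δ : ℝ} {d : ℕ}

theorem degW_mono {W W' N : ℕ} {g : n.Ph} (h : W ≤ W') (hg : PN.DegW W N g) :
    PN.DegW W' N g := by
  obtain ⟨i, ξ, h1, h2, h3⟩ := hg
  exact ⟨i, ξ, h1, fun a => (h2 a).trans (by exact_mod_cast h),
    h3.mono (div_le_div_of_nonneg_right (by exact_mod_cast h) (by positivity))⟩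

theorem mono {Q Q' : (n.G ℝ → ℂ) → Prop} (h : n.EqP L δ Q) (hQ : ∀ F, n.Test F L → Q' F → Q F) :
    n.EqP L δ Q' :=
  h.imp fun _ hW F hF q => hW F hF (hQ F hF q)

theorem fin {ι : Type} (T : Finset ι) (Q : ι → (n.G ℝ → ℂ) → Prop)
    (h : ∀ i ∈ T, n.EqP L δ (Q i)) : n.EqP L δ fun F => ∃ i ∈ T, Q i F := by
  choose! W hW using h
  exact ⟨T.sup W, fun F hF ⟨i, hi, q⟩ g a b N h1 h2 h3 => degW_mono (le_sup hi)
    (hW i hi F hF q g a b N h1 ((le_sup hi).trans h2) h3)⟩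

theorem cen_top (hd : ∀ a, n.wt a ≤ d) {v : n.G ℝ} (hv : ∀ a, n.wt a ≠ d → v a = 0) :
    PN.Cen v := fun y => funext fun c => sum_eq_zero fun a _ => sum_eq_zero fun b _ => by
  by_cases e : n.wt a = d
  · have : n.k a b c = 0 := by
      by_contra k0
      have := n.fil a b c k0
      have := hd c
      have := n.w1 b
      omega
    simp [this]
  · simp [hv a e]

theorem cen_one (hd : ∀ a, n.wt a ≤ d) {c : n.I} (hc : n.wt c = d) :
    PN.Cen (n := n.toPN) (PN.zv (Pi.single c 1)) :=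
  cen_top hd fun a ha => by
    simp [PN.zv, Pi.single_eq_of_ne (show a ≠ c from fun e => ha (e ▸ hc))]

theorem top (hd : ∀ a, n.wt a ≤ d) {F : n.G ℝ → ℂ} {j : n.I → ℤ}
    (h : ∀ c, n.wt c = d → PN.Eig F (PN.zv (Pi.single c 1)) (j c)) : n.Top d j F := by
  intro v x hv
  have k : ∀ S : Finset n.I, F (x + ∑ a ∈ S, v a • (PN.zv (Pi.single a 1) : n.G ℝ)) =
      e (∑ a ∈ S, j a * v a) * F x := fun S => by
    induction S using Finset.induction_on with
    | empty => simp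
    | insert c S hc ih =>
      rw [sum_insert hc, sum_insert hc, e_add, mul_assoc, ← ih]
      by_cases q : n.wt c = d
      · rw [← h c q, cen_mul (cen_smul (cen_one hd q) _), add_left_comm]
      · simp [hv c q]
  rw [← k]
  congr 2
  funext a
  rw [PN.sum_apply, sum_eq_single a (fun b _ u => by simp [PN.zv, Pi.single_eq_of_ne u.symm])
    (by simp)]
  simp [PN.zv]

theorem step {w : n.G ℝ} (hw : PN.Cen w) (hg : w ∈ n.Gam) {Q : (n.G ℝ → ℂ) → Prop}
    (hQ : ∀ F j, Q F → Q (PN.cmp F w j))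
    (h : ∀ δ, 0 < δ → ∀ R : ℕ, n.EqP L δ fun F => Q F ∧ ∃ j : ℤ, |j| ≤ R ∧ PN.Eig F w j)
    (hδ : 0 < δ) : n.EqP L δ Q := by
  obtain ⟨M, M1, hM⟩ := cmp_approx L (δ / 2) (by positivity) hw hg
  have M0 : (0 : ℝ) < M := by exact_mod_cast M1
  obtain ⟨W, hW⟩ := h (δ / (2 * M)) (by positivity) M
  refine ⟨W, fun F hF q g a b N h1 h2 h3 => ?_⟩
  have : Nonempty (Fin M) := ⟨⟨0, M1⟩⟩
  obtain ⟨p, -, hp⟩ := exists_max_image (univ : Finset (Fin M × Fin M))
    (fun p => ‖∑ m ∈ Ioc a b, PN.cmp F w ((p.1 : ℤ) - p.2) (PN.ev m g)‖) univ_nonempty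
  refine hW _ (cmp_test hF hw _) ⟨hQ F _ q, (p.1 : ℤ) - p.2, abs_le.2 ⟨by omega, by omega⟩,
    cmp_eig hF hw hg _⟩ g a b N h1 h2 ?_
  have e1 := norm_sum_le_of_le (Ioc a b) fun m _ => hM F hF (PN.ev m g)
  rw [sum_sub_distrib, sum_comm, sum_const, Nat.card_Ioc, nsmul_eq_mul] at e1
  have e2 := (norm_sum_le univ fun p : Fin M × Fin M => ∑ m ∈ Ioc a b, (M : ℂ)⁻¹ *
    PN.cmp F w ((p.1 : ℤ) - p.2) (PN.ev m g)).trans (sum_le_card_nsmul _ _ _ fun r _ => by
      rw [← mul_sum, norm_mul, norm_inv, Complex.norm_natCast]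
      exact mul_le_mul_of_nonneg_left (hp r (mem_univ _)) (by positivity))
  have e3 : ((b - a : ℕ) : ℝ) ≤ N := by exact_mod_cast (by omega : b - a ≤ N)
  simp only [card_univ, Fintype.card_prod, Fintype.card_fin, nsmul_eq_mul, Nat.cast_mul] at e2
  rw [mul_assoc, mul_inv_cancel_left₀ M0.ne'] at e2
  have e4 := (norm_sub_norm_le _ _).trans e1
  rw [div_mul_eq_mul_div, div_le_iff₀ (by positivity)]
  nlinarith

end EqV

open EqV in
theorem st_Vert : VertSt := by
  intro s d n z L hd h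
  have k : ∀ S : Finset n.I, ∀ δ, 0 < δ → ∀ R : ℕ, n.EqP L δ fun F => n.Frq z F ∧
      ∀ c, n.wt c = d → c ∉ S → ∃ j : ℤ, |j| ≤ R ∧ PN.Eig F (PN.zv (Pi.single c 1)) j := by
    intro S
    induction S using Finset.induction_on with
    | empty =>
      intro δ hδ R
      refine mono (fin ((Fintype.piFinset fun _ => Icc (-R : ℤ) R).filter
        fun j => ∀ a, n.wt a ≠ d → j a = 0) _ fun j hj => h δ j hδ (mem_filter.1 hj).2)
        fun F _ q => ?_
      choose j hj using fun c (hc : n.wt c = d) => q.2 c hc (notMem_empty c)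
      refine ⟨fun c => if hc : n.wt c = d then j c hc else 0, mem_filter.2
        ⟨Fintype.mem_piFinset.2 fun c => ?_, fun c hc => dif_neg hc⟩, q.1, top hd fun c hc => ?_⟩
      · split_ifs with hc
        · exact mem_Icc.2 (abs_le.1 (hj c hc).1)
        · simp
      · rw [dif_pos hc]
        exact (hj c hc).2
    | insert c S _ ih =>
      intro δ hδ R
      by_cases q : n.wt c = d
      · refine step (cen_one hd q) (zv_mem _) (fun F j r => ⟨r.1.imp fun _ u =>
          ⟨u.1, cmp_keep (cen_one hd q) u.2 j⟩, fun c' u v => (r.2 c' u v).imp fun _ u =>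
            ⟨u.1, cmp_keep (cen_one hd q) u.2 j⟩⟩) (fun δ' h' R' => mono (ih δ' h' (R + R'))
              fun F _ r => ⟨r.1.1, fun c' u v => ?_⟩) hδ
        by_cases e : c' = c
        · exact e ▸ r.2.imp fun _ u => ⟨by omega, u.2⟩
        · exact (r.1.2 c' u (by simp [e, v])).imp fun _ u => ⟨by omega, u.2⟩
      · exact mono (ih δ hδ R) fun F _ r => ⟨r.1, fun c' u v => r.2 c' u (by
          rw [mem_insert, not_or]
          exact ⟨fun e => q (e ▸ u), v⟩)⟩
  exact fun δ hδ => mono (k univ δ hδ 0) fun F _ r => ⟨r, fun c _ v => (v (mem_univ c)).elim⟩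

end Pool.Agent.Lib.MP_028aa5_nt.N
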