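import Pool.Agent.Lib.MP_028aa5_nt.N.Seed
import Pool.Agent.Lib.MP_028aa5_nt.N.Cov2

/-! The word length gauge on phases. -/

namespace Pool.Agent.Lib.MP_028aa5_nt.N

open Finset Polynomial
open scoped Classical

section Gauge

variable {Γ Γ' : Type} [Group Γ] [Group Γ']

/-- the least total cost of a factorisation -/
noncomputable def ga (f : Γ → ℝ) (g : Γ) : ℝ :=
  sInf {r | ∃ l : List Γ, l.prod = g ∧ (l.map f).sum = r}

variable {f : Γ → ℝ} {f' : Γ' → ℝ}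

theorem lsum_nonneg (h : ∀ g, 0 ≤ f g) (l : List Γ) : 0 ≤ (l.map f).sum :=
  List.sum_nonneg fun _ hx => by
    obtain ⟨a, -, rfl⟩ := List.mem_map.1 hx
    exact h a

theorem ga_le_list (h : ∀ g, 0 ≤ f g) (l : List Γ) : ga f l.prod ≤ (l.map f).sum :=
  csInf_le ⟨0, by rintro _ ⟨l, -, rfl⟩; exact lsum_nonneg h l⟩ ⟨l, rfl, rfl⟩

theorem le_ga {g : Γ} {r : ℝ} (h : ∀ l : List Γ, l.prod = g → r ≤ (l.map f).sum) : r ≤ ga f g :=
  le_csInf ⟨_, [g], by simp, rfl⟩ (by rintro _ ⟨l, a, rfl⟩; exact h l a)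

theorem ga_nonneg (h : ∀ g, 0 ≤ f g) (g : Γ) : 0 ≤ ga f g := le_ga fun l _ => lsum_nonneg h l

theorem ga_le (h : ∀ g, 0 ≤ f g) (g : Γ) : ga f g ≤ f g := by simpa using ga_le_list h [g]

theorem ga_one (h : ∀ g, 0 ≤ f g) : ga f 1 = 0 :=
  le_antisymm (by simpa using ga_le_list h []) (ga_nonneg h 1)

theorem ga_mul (h : ∀ g, 0 ≤ f g) (a b : Γ) : ga f (a * b) ≤ ga f a + ga f b := by
  rw [← sub_le_iff_le_add]
  refine le_ga fun l hl => ?_
  rw [sub_le_comm]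
  refine le_ga fun l' hl' => ?_
  have := ga_le_list h (l ++ l')
  rw [List.prod_append, hl, hl', List.map_append, List.sum_append] at this
  linarith

/-- a homomorphism that multiplies costs by at most `A` -/
theorem ga_map (h' : ∀ g, 0 ≤ f' g) (S : Γ →* Γ') {A : ℝ} (hA : 0 < A)
    (hS : ∀ g, f' (S g) ≤ A * f g) (g : Γ) : ga f' (S g) ≤ A * ga f g := by
  rw [← inv_mul_le_iff₀ hA]
  refine le_ga fun l hl => ?_
  rw [inv_mul_le_iff₀ hA, ← hl, map_list_prod, ← List.sum_map_mul_left]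
  refine (ga_le_list h' _).trans ?_
  rw [List.map_map]
  exact List.sum_le_sum fun g _ => hS g

theorem ga_inv (h : ∀ g, 0 ≤ f g) (hi : ∀ g, f g⁻¹ = f g) (g : Γ) : ga f g⁻¹ = ga f g := by
  have : ∀ g, ga f g⁻¹ ≤ ga f g := fun g => le_ga fun l hl => by
    have := ga_le_list h (l.map fun x => x⁻¹).reverse
    rwa [← List.prod_inv_reverse, hl, List.map_reverse, List.sum_reverse, List.map_map,
      show (f ∘ fun x => x⁻¹) = f from funext hi] at this
  exact le_antisymm (this g) (by simpa using this g⁻¹)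

end Gauge

theorem pw_le {C x : ℝ} {K e : ℕ} (hC : C ≤ K) (he : e ≤ K) (h1 : 1 ≤ K) (hx : 1 ≤ x) :
    C * x ^ e ≤ (K * x) ^ K := by
  have k1 : (1 : ℝ) ≤ K := by exact_mod_cast h1
  rw [mul_pow]
  exact mul_le_mul (hC.trans (le_self_pow₀ k1 (by omega))) (pow_le_pow_right₀ hx he)
    (by positivity) (by positivity)

namespace PN

variable {s : ℕ} {n : PN s}

theorem ln0_one : ln0 (1 : n.Ph) = 0 := ga_one nm0_nonneg
theorem ln0_inv (g : n.Ph) : ln0 g⁻¹ = ln0 g := ga_inv nm0_nonneg nm0_inv g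
theorem ln0_mul (g h : n.Ph) : ln0 (g * h) ≤ ln0 g + ln0 h := ga_mul nm0_nonneg g h

theorem ln0_aff {α β U : ℝ} (h : |α| + |β| ≤ U) (h1 : 1 ≤ U) (g : n.Ph) :
    ln0 (aff α β g) ≤ U ^ s * ln0 g :=
  ga_map nm0_nonneg (aff α β) (by positivity) (Seed.nm0_aff h h1) g

theorem ln_nonneg (K y : ℝ) (g : n.Ph) : 0 ≤ ln K y g := ln0_nonneg _
theorem ln_one (K y : ℝ) : ln K y (1 : n.Ph) = 0 := by rw [ln, map_one, ln0_one]
theorem ln_inv (K y : ℝ) (g : n.Ph) : ln K y g⁻¹ = ln K y g := by rw [ln, map_inv, ln0_inv, ln]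

theorem ln_mul (K y : ℝ) (g h : n.Ph) : ln K y (g * h) ≤ ln K y g + ln K y h := by
  rw [ln, map_mul]
  exact ln0_mul _ _

theorem ln_le_nm (K y : ℝ) (g : n.Ph) : ln K y g ≤ nm K y g := ln0_le_nm0 _

theorem ln_dil (κ y a : ℝ) (g : n.Ph) : ln (κ * y) y (dil a g) = ln (κ * (a * y)) (a * y) g := by
  rw [ln, ln, dil, Seed.aff_aff, add_zero, mul_left_comm]

theorem ln_shift {κ y y' u : ℝ} (g : n.Ph) (k0 : 0 < κ) (k1 : κ ≤ 1) (hy : 0 < y) (hy' : 0 < y')
    (h : |Real.log y' - Real.log y| ≤ u) (hu : u ≤ 1) :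
    ln (κ * y') y' g ≤ (1 + 4 * u / κ) ^ s * ln (κ * y) y g := by
  have u0 := (abs_nonneg _).trans h
  have a := Real.abs_exp_sub_one_le (h.trans hu)
  rw [Real.exp_sub, Real.exp_log hy', Real.exp_log hy] at a
  have e : aff (κ * y') y' g = aff (y' / y) ((y' / y - 1) / κ) (aff (κ * y) y g) := by
    rw [Seed.aff_aff]
    congr 2 <;> field_simp
    ring
  rw [ln, e]
  refine ln0_aff ?_ (le_add_of_nonneg_right (by positivity)) _
  have b : u ≤ u / κ := by rw [le_div_iff₀ k0]; nlinarith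
  have c : |y' / y - 1| / κ ≤ 2 * u / κ := div_le_div_of_nonneg_right (by linarith) k0.le
  rw [abs_div _ κ, abs_of_pos k0, abs_of_pos (div_pos hy' hy)]
  rw [mul_div_assoc] at c ⊢
  linarith [le_abs_self (y' / y - 1)]

theorem ln_const {κ y : ℝ} (g : n.Ph) (k0 : 0 < κ) (k1 : κ ≤ 1) (hy : 0 < y) :
    ln (κ * y) y (dil 0 g) ≤ κ⁻¹ ^ s * ln (κ * y) y g := by
  have e : aff (κ * y) y (dil 0 g) = aff 0 (-κ⁻¹) (aff (κ * y) y g) := by
    rw [dil, Seed.aff_aff, Seed.aff_aff]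
    congr 2 <;> field_simp <;> ring
  rw [ln, e]
  exact ln0_aff (by rw [abs_zero, zero_add, abs_neg, abs_of_pos (inv_pos.2 k0)])
    ((one_le_inv₀ k0).2 k1) _

theorem aff_cst (α β : ℝ) (x : n.G ℝ) : aff α β (cst x) = cst x :=
  Subtype.ext (funext fun _ => C_comp)

theorem aff_zero (β : ℝ) (g : n.Ph) : aff 0 β g = cst (ev β g) :=
  Subtype.ext (funext fun a => by
    rw [Seed.aff_val, C_0, zero_mul, zero_add, comp_C]
    rfl)

theorem ev_aff' (α β t : ℝ) (g : n.Ph) : ev t (aff α β g) = ev (α * t + β) g :=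
  funext fun a => by
    change ((g.1 a).comp (C α * X + C β)).eval t = (g.1 a).eval (α * t + β)
    simp [eval_comp]

theorem ev_cst' (t : ℝ) (x : n.G ℝ) : ev t (cst x) = x := funext fun _ => eval_C

theorem co_cst (x : n.G ℝ) (a : n.I) (j : ℕ) : co (cst x) a j = if j = 0 then x a else 0 := coeff_C

theorem nm0_cst (x : n.G ℝ) : nm0 (cst x) = nG x :=
  sum_congr rfl fun a _ => by
    rw [sum_eq_single_of_mem 0 (mem_range.2 s.succ_pos) fun j _ h => by simp [co_cst, h], co_cst,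
      if_pos rfl]

theorem nG_ev' {t U : ℝ} (h : |t| ≤ U) (h1 : 1 ≤ U) (g : n.Ph) : nG (ev t g) ≤ U ^ s * nm0 g := by
  rw [← nm0_cst, ← aff_zero]
  exact Seed.nm0_aff (by rwa [abs_zero, zero_add]) h1 g

theorem nG_ev_sub {t t' : ℝ} (h : |t| ≤ 2) (h' : |t'| ≤ 2) (g : n.Ph) :
    nG (ev t g - ev t' g) ≤ s * 2 ^ s * |t - t'| * nm0 g := by
  rw [nG, nm0, mul_sum]
  refine sum_le_sum fun a _ => ?_
  have d := Nat.lt_succ_of_le (Cov.deg_le g a)
  change |(g.1 a).eval t - (g.1 a).eval t'| ≤ _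
  rw [eval_eq_sum_range' d, eval_eq_sum_range' d, ← sum_sub_distrib, mul_sum]
  refine (abs_sum_le_sum_abs _ _).trans (sum_le_sum fun j hj => ?_)
  rw [← mul_sub, abs_mul, mul_comm]
  refine mul_le_mul_of_nonneg_right ((abs_pow_sub_pow_le ..).trans ?_) (abs_nonneg _)
  have j1 := Nat.lt_succ_iff.1 (mem_range.1 hj)
  have : max |t| |t'| ^ (j - 1) ≤ 2 ^ s :=
    (pow_le_pow_left₀ (by positivity) (max_le h h') _).trans
      (pow_le_pow_right₀ one_le_two (by omega))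
  calc _ ≤ |t - t'| * s * 2 ^ s := by gcongr
    _ = _ := by ring

/-- the top coefficient is seen on every window -/
theorem top_le {K : ℝ} (hK : 0 < K) (y : ℝ) (g : n.Ph) (a : n.I) :
    K ^ (g.1 a).natDegree * |co g a (g.1 a).natDegree| ≤ nm K y g := by
  have d : (C K * X + C y).natDegree = 1 := natDegree_linear hK.ne'
  have := coeff_comp_degree_mul_degree (p := g.1 a) (q := C K * X + C y) (by omega)
  rw [d, mul_one, leadingCoeff_linear hK.ne'] at this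
  refine le_trans (le_of_eq ?_) (Seed.co_le (aff K y g) a (Cov.deg_le g a))
  rw [co, co, Seed.aff_val, this, abs_mul, abs_of_pos (pow_pos hK _), mul_comm]
  rfl

end PN

namespace NS

variable {s : ℕ} (n : NS s)

theorem low_le {c : ℝ} {Q : ℕ} (hc : 0 < c) (hQ : 1 ≤ Q) {w : n.Ph} (h : PN.dil c w ∈ n.LamQ 1 Q)
    {a : n.I} {j : ℕ} (h0 : PN.co w a j ≠ 0) : 1 ≤ (Q : ℝ) ^ s * (c ^ j * |PN.co w a j|) := by
  obtain ⟨z, hz⟩ := n.mem_LamQ.1 h a j
  have q1 : (1 : ℝ) ≤ Q := by exact_mod_cast hQ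
  rw [Seed.co_dil, one_pow, one_mul, eq_inv_mul_iff_mul_eq₀ (by positivity)] at hz
  have z0 : z ≠ 0 := by
    rintro rfl
    exact mul_ne_zero (by positivity) (mul_ne_zero (by positivity) h0) (hz.trans Int.cast_zero)
  have z1 : (1 : ℝ) ≤ |(z : ℝ)| := by exact_mod_cast Int.one_le_abs z0
  rw [← hz, abs_mul, abs_mul, abs_of_pos (pow_pos hc _), abs_of_nonneg (by positivity)] at z1
  exact z1.trans (mul_le_mul_of_nonneg_right (pow_le_pow_right₀ q1 (n.ws a)) (by positivity))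

/-- rigidity -/
theorem rig_ln : ∃ ρ : ℝ, 0 < ρ ∧ ∀ (K y c : ℝ) (β w : n.Ph), 0 < c → c ≤ K →
    PN.dil c w ∈ n.Lam 1 → PN.ln K y (β * w * β⁻¹) ≤ ρ → w = 1 := by
  obtain ⟨C, e, C1, -, hG⟩ := Cov.bil_gro n.toPN
  have p : (1 : ℝ) ≤ C * 2 ^ e := one_le_mul_of_one_le_of_one_le C1 (one_le_pow₀ one_le_two)
  refine ⟨(2 * (C * 2 ^ e))⁻¹, by positivity, fun K y c β w c0 cK hw h => ?_⟩
  by_contra w1
  obtain ⟨a, a0, ha⟩ := PN.exists_lead (x := w.1) fun e => w1 (Subtype.ext e)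
  have e1 : (β * w * β⁻¹).1 a = w.1 a := PN.conj_lead ha β.1 le_rfl
  have t := PN.top_le (c0.trans_le cK) y (β * w * β⁻¹) a
  have l := n.low_le c0 le_rfl hw (a := a) (j := (w.1 a).natDegree) (leadingCoeff_ne_zero.2 a0)
  rw [PN.co, e1] at t
  rw [Nat.cast_one, one_pow, one_mul, PN.co] at l
  have g := Cov.gro_le hG (by linarith) h
  have r1 : (2 * (C * 2 ^ e))⁻¹ ≤ 1 := inv_le_one_of_one_le₀ (by linarith)
  have g2 : C * (1 + (2 * (C * 2 ^ e))⁻¹) ^ e * (2 * (C * 2 ^ e))⁻¹ ≤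
      C * 2 ^ e * (2 * (C * 2 ^ e))⁻¹ := by gcongr; linarith
  have g3 : C * 2 ^ e * (2 * (C * 2 ^ e))⁻¹ = 1 / 2 := by field_simp
  have g4 := mul_le_mul_of_nonneg_right (pow_le_pow_left₀ c0.le cK (w.1 a).natDegree)
    (abs_nonneg ((w.1 a).coeff (w.1 a).natDegree))
  have : PN.nm K y (β * w * β⁻¹) ≤ _ := g
  linarith

/-- small rational phases are constant -/
theorem big_ln : ∃ K0 : ℕ, ∀ K : ℕ, K0 ≤ K → ∀ (W y c T : ℝ) (Q : ℕ) (w : n.Ph), 0 < c → 1 ≤ Q →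
    PN.dil c w ∈ n.LamQ 1 Q → PN.ln W y w ≤ T → (K * (1 + T) * Q) ^ K * c < W →
    PN.dil 0 w = w := by
  obtain ⟨C, e, C1, -, hG⟩ := Cov.bil_gro n.toPN
  refine ⟨⌈C⌉₊ + e + s + 1, fun K hK W y c T Q w c0 hQ hw h hW => ?_⟩
  refine Subtype.ext (funext fun a => ?_)
  by_cases d : (w.1 a).natDegree = 0
  · rw [PN.dil, Seed.aff_val, eq_C_of_natDegree_eq_zero d, C_comp]
  exfalso
  have T0 := (PN.ln_nonneg _ _ _).trans h
  have q1 : (1 : ℝ) ≤ Q := by exact_mod_cast hQ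
  have k1 : (1 : ℝ) ≤ K := by exact_mod_cast (show 1 ≤ K by omega)
  have a0 : w.1 a ≠ 0 := fun e => d (by rw [e, natDegree_zero])
  have l := n.low_le c0 hQ hw (a := a) (j := (w.1 a).natDegree) (leadingCoeff_ne_zero.2 a0)
  have b : C * (1 + T) ^ (e + 1) * (Q : ℝ) ^ s ≤ (K * (1 + T) * Q) ^ K := by
    rw [mul_pow]
    exact mul_le_mul (pw_le (Nat.ceil_le.1 (by omega)) (by omega) (by omega) (by linarith))
      (pow_le_pow_right₀ q1 (by omega)) (by positivity) (by positivity)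
  have z1 : 1 ≤ (K * (1 + T) * Q : ℝ) ^ K := one_le_pow₀ (one_le_mul_of_one_le_of_one_le
    (one_le_mul_of_one_le_of_one_le k1 (by linarith)) q1)
  generalize (K * (1 + T) * Q : ℝ) ^ K = Z at *
  have t := PN.top_le ((by positivity : 0 < Z * c).trans hW) y w a
  have g : PN.nm W y w ≤ _ := Cov.gro_le hG (by linarith) h
  have p := pow_le_pow_left₀ (by positivity) hW.le (w.1 a).natDegree
  have p2 := le_self_pow₀ z1 d
  rw [mul_pow] at p
  have θ0 := abs_nonneg (PN.co w a (w.1 a).natDegree)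
  generalize |PN.co w a (w.1 a).natDegree| = θ at *
  have g2 : C * (1 + T) ^ e * T < C * (1 + T) ^ (e + 1) := by
    rw [pow_succ, ← mul_assoc]
    exact mul_lt_mul_of_pos_left (by linarith) (by positivity)
  have : Z < Z :=
    calc Z ≤ Z ^ (w.1 a).natDegree * (Q ^ s * (c ^ (w.1 a).natDegree * θ)) :=
          p2.trans (le_mul_of_one_le_right (by positivity) l)
      _ = Z ^ (w.1 a).natDegree * c ^ (w.1 a).natDegree * θ * Q ^ s := by ring
      _ ≤ W ^ (w.1 a).natDegree * θ * Q ^ s := by gcongr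
      _ < C * (1 + T) ^ (e + 1) * Q ^ s :=
          mul_lt_mul_of_pos_right ((t.trans g).trans_lt g2) (by positivity)
      _ ≤ Z := b
  exact this.false

end NS

end Pool.Agent.Lib.MP_028aa5_nt.N
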