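import Pool.Agent.Lib.MP_028aa5_nt.Basic

/-! Nilpotent groups in exponential coordinates. -/

namespace Pool.Agent.Lib.MP_028aa5_nt.N

open Finset
open scoped Classical

/-- iterated bracket applied to the bracket of `x` and `y`; `true` is `x`, `false` is `y` -/
def adw {L : Type} (br : L → L → L) (x y : L) : List Bool → L
  | [] => br x y
  | b :: w => br (if b then x else y) (adw br x y w)

/-- the bracket polynomial with coefficients `c` -/
noncomputable def bp {L : Type} [AddCommGroup L] [Module ℚ L] (br : L → L → L)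
    (c : List Bool →₀ ℚ) (x y : L) : L := x + y + c.sum fun w q => q • adw br x y w

/-- truncated exponential -/
noncomputable def ex {A : Type} [Ring A] [Algebra ℚ A] (s : ℕ) (x : A) : A :=
  ∑ i ∈ range (s + 1), ((i.factorial : ℚ)⁻¹) • x ^ i

/-- commutator -/
def cm {A : Type} [Ring A] (x y : A) : A := x * y - y * x

/-- structure constants of a filtered nilpotent Lie algebra in an adapted basis -/
structure PN (s : ℕ) where
  I : Type
  [fI : Fintype I]
  wt : I → ℕ
  k : I → I → I → ℤ
  w1 : ∀ a, 1 ≤ wt a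
  ws : ∀ a, wt a ≤ s
  anti : ∀ a b c, k a b c = -k b a c
  jac : ∀ a b c d, ∑ u, (k b c u * k a u d + k c a u * k b u d + k a b u * k c u d) = 0
  fil : ∀ a b c, k a b c ≠ 0 → wt a + wt b ≤ wt c

attribute [instance] PN.fI

/-- points with coordinates in `R` -/
def PN.G {s : ℕ} (n : PN s) (R : Type) : Type := n.I → R

namespace PN

variable {s : ℕ} (n : PN s) {R : Type} [CommRing R]

instance : AddCommGroup (n.G R) := inferInstanceAs (AddCommGroup (n.I → R))
instance {S : Type} [Semiring S] [Module S R] : Module S (n.G R) :=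
  inferInstanceAs (Module S (n.I → R))

/-- the bracket -/
def br (x y : n.G R) : n.G R := fun c => ∑ a, ∑ b, (n.k a b c : R) * (x a * y b)

omit [CommRing R] in
@[ext] theorem ext {x y : n.G R} (h : ∀ a, x a = y a) : x = y := funext h

@[simp] theorem add_apply (x y : n.G R) (a : n.I) : (x + y) a = x a + y a := rfl
@[simp] theorem sub_apply (x y : n.G R) (a : n.I) : (x - y) a = x a - y a := rfl
@[simp] theorem neg_apply (x : n.G R) (a : n.I) : (-x) a = -x a := rfl
@[simp] theorem zero_apply (a : n.I) : (0 : n.G R) a = 0 := rfl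
@[simp] theorem smul_apply {S : Type} [Semiring S] [Module S R] (t : S) (x : n.G R) (a : n.I) :
    (t • x) a = t • x a := rfl
theorem sum_apply {ι : Type} (T : Finset ι) (x : ι → n.G R) (a : n.I) :
    (∑ i ∈ T, x i) a = ∑ i ∈ T, x i a := Finset.sum_apply a T x

@[simp] theorem br_zero_left (y : n.G R) : n.br 0 y = 0 := by ext c; simp [br]
@[simp] theorem br_zero_right (x : n.G R) : n.br x 0 = 0 := by ext c; simp [br]

theorem br_anti (x y : n.G R) : n.br x y = -n.br y x := by
  ext c
  simp only [br, neg_apply]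
  rw [sum_comm, ← sum_neg_distrib]
  refine sum_congr rfl fun a _ => ?_
  rw [← sum_neg_distrib]
  refine sum_congr rfl fun b _ => ?_
  rw [n.anti b a c]
  push_cast
  ring

theorem br_neg_right (x y : n.G R) : n.br x (-y) = -n.br x y := by
  ext c; simp [br]

theorem br_neg_left (x y : n.G R) : n.br (-x) y = -n.br x y := by
  ext c; simp [br]

theorem br_self [Algebra ℚ R] (x : n.G R) : n.br x x = 0 := by
  have h : (2 : ℚ) • n.br x x = 0 := by
    rw [two_smul]
    nth_rewrite 1 [n.br_anti x x]
    exact neg_add_cancel _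
  have := congrArg (fun v => (2⁻¹ : ℚ) • v) h
  simpa [smul_smul] using this

theorem adw_eq_zero {x y : n.G R} (h : n.br x y = 0) (w : List Bool) : adw n.br x y w = 0 := by
  induction w with
  | nil => exact h
  | cons b w ih => rw [adw, ih, br_zero_right]

theorem bp_of_comm [Algebra ℚ R] (c : List Bool →₀ ℚ) {x y : n.G R} (h : n.br x y = 0) :
    bp n.br c x y = x + y := by
  simp [bp, n.adw_eq_zero h]

end PN

/-- the bracket polynomial is associative on all filtered algebras -/
def Asc (s : ℕ) (c : List Bool →₀ ℚ) : Prop := ∀ (n : PN s) (R : Type) [CommRing R] [Algebra ℚ R]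
  (x y z : n.G R), bp n.br c (bp n.br c x y) z = bp n.br c x (bp n.br c y z)

/-- the formula of Baker, Campbell and Hausdorff up to order `s` -/
def Good (s : ℕ) (c : List Bool →₀ ℚ) : Prop := c [] = 1 / 2 ∧
  (∀ (A : Type) [Ring A] [Algebra ℚ A] (x y : A),
    (∀ l : List A, (∀ u ∈ l, u = x ∨ u = y) → l.length = s + 1 → l.prod = 0) →
    ex s (bp cm c x y) = ex s x * ex s y) ∧ Asc s c

/-- the coefficients of the group law -/
noncomputable def cb (s : ℕ) : List Bool →₀ ℚ := if h : ∃ c, Good s c then h.choose else 0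

theorem asc_cb (s : ℕ) : Asc s (cb s) := by
  unfold cb
  split_ifs with h
  · exact h.choose_spec.2.2
  · intro n R _ _ x y z
    simp [bp, add_assoc]

/-- a common denominator of the coefficients -/
noncomputable def Kd (s : ℕ) : ℕ := ∏ w ∈ (cb s).support, (cb s w).den

namespace PN

variable {s : ℕ} (n : PN s) {R : Type} [CommRing R] [Algebra ℚ R]

noncomputable instance : Group (n.G R) where
  mul x y := bp n.br (cb s) x y
  one := 0
  inv x := -x
  mul_assoc := asc_cb s n R
  one_mul x := (n.bp_of_comm _ (n.br_zero_left x)).trans (zero_add x)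
  mul_one x := (n.bp_of_comm _ (n.br_zero_right x)).trans (add_zero x)
  inv_mul_cancel x := (n.bp_of_comm _ (by rw [br_neg_left, br_self, neg_zero])).trans
    (neg_add_cancel x)

theorem mul_def (x y : n.G R) : x * y = x + y + (cb s).sum fun w q => q • adw n.br x y w := rfl
theorem one_def : (1 : n.G R) = 0 := rfl
theorem inv_def (x : n.G R) : x⁻¹ = -x := rfl

theorem mul_of_comm {x y : n.G R} (h : n.br x y = 0) : x * y = x + y := n.bp_of_comm _ h

/-- a map that respects sums and brackets respects products -/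
theorem map_mul_of {s : ℕ} {n n' : PN s} {R R' : Type} [CommRing R] [Algebra ℚ R] [CommRing R']
    [Algebra ℚ R'] (f : n.G R →+ n'.G R') (x y : n.G R)
    (h : ∀ u v, f (n.br u v) = n'.br (f u) (f v)) : f (x * y) = f x * f y := by
  have a : ∀ w, f (adw n.br x y w) = adw n'.br (f x) (f y) w := by
    intro w
    induction w with
    | nil => exact h x y
    | cons b w ih =>
      rw [adw, adw, h, ih]
      cases b <;> rfl
  rw [mul_def, mul_def, map_add, map_add, Finsupp.sum, Finsupp.sum, map_sum]
  simp only [map_rat_smul, a]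

/-- change of rings -/
noncomputable def map {R' : Type} [CommRing R'] [Algebra ℚ R'] (φ : R →+* R') :
    n.G R →* n.G R' where
  toFun x := fun a => φ (x a)
  map_one' := funext fun _ => map_zero φ
  map_mul' x y := map_mul_of (n := n) (n' := n)
    { toFun := fun x a => φ (x a)
      map_zero' := funext fun _ => map_zero φ
      map_add' := fun x y => funext fun a => map_add φ (x a) (y a) } x y fun u v => by
      funext c
      simp [br, map_sum]

@[simp] theorem map_apply {R' : Type} [CommRing R'] [Algebra ℚ R'] (φ : R →+* R') (x : n.G R)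
    (a : n.I) : n.map φ x a = φ (x a) := rfl

/-- an additive subgroup that absorbs the brackets contains the correction term -/
theorem mul_sub_mem (J : Submodule ℚ (n.G R)) {x y : n.G R} (h : n.br x y ∈ J)
    (hx : ∀ u ∈ J, n.br x u ∈ J) (hy : ∀ u ∈ J, n.br y u ∈ J) : x * y - (x + y) ∈ J := by
  have a : ∀ w, adw n.br x y w ∈ J := by
    intro w
    induction w with
    | nil => exact h
    | cons b w ih =>
      rw [adw]
      cases b
      · exact hy _ ih
      · exact hx _ ih
  rw [mul_def, add_sub_cancel_left]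
  exact J.sum_mem fun w _ => J.smul_mem _ (a w)

/-- a family of rational subspaces that is closed under the bracket gives a subgroup -/
def famQ (S : n.I → Submodule ℚ R)
    (h : ∀ a b c, n.k a b c ≠ 0 → ∀ u ∈ S a, ∀ v ∈ S b, u * v ∈ S c) : Subgroup (n.G R) where
  carrier := {x | ∀ a, x a ∈ S a}
  one_mem' a := (S a).zero_mem
  inv_mem' hx a := (S a).neg_mem (hx a)
  mul_mem' {x y} hx hy := by
    have hb : ∀ u v : n.G R, (∀ a, u a ∈ S a) → (∀ a, v a ∈ S a) → ∀ a, n.br u v a ∈ S a := by
      intro u v hu hv c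
      refine (S c).sum_mem fun a _ => (S c).sum_mem fun b _ => ?_
      by_cases k0 : n.k a b c = 0
      · simp [k0]
      · rw [← zsmul_eq_mul]
        exact (S c).toAddSubgroup.zsmul_mem (h a b c k0 _ (hu a) _ (hv b)) _
    have := n.mul_sub_mem (Submodule.pi Set.univ S) (x := x) (y := y)
      (fun a _ => hb x y hx hy a) (fun u hu a _ => hb x u hx (fun a => hu a trivial) a)
      (fun u hu a _ => hb y u hy (fun a => hu a trivial) a)
    intro a
    have e : (x * y) a = (x * y - (x + y)) a + (x a + y a) := by simp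
    rw [e]
    exact (S a).add_mem (this a trivial) ((S a).add_mem (hx a) (hy a))

end PN

/-- structure constants that are divisible by the denominators of the group law -/
structure NS (s : ℕ) extends PN s where
  dv : ∀ a b c, (Kd s : ℤ) ∣ k a b c

namespace NS

variable {s : ℕ} (n : NS s) {R : Type} [CommRing R] [Algebra ℚ R]

theorem Kd_pos (s : ℕ) : 0 < Kd s := prod_pos fun w _ => (cb s w).den_pos

theorem cb_int (s : ℕ) (w : List Bool) : ∃ z : ℤ, (Kd s : ℚ) * cb s w = z := by
  by_cases h : w ∈ (cb s).support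
  · obtain ⟨m, hm⟩ : (cb s w).den ∣ Kd s := dvd_prod_of_mem _ h
    refine ⟨m * (cb s w).num, ?_⟩
    rw [hm]
    push_cast
    rw [← Rat.mul_den_eq_num]
    ring
  · exact ⟨0, by simp [Finsupp.notMem_support_iff.1 h]⟩

/-- the bracket of two points of a family is `Kd` times a point of the family -/
theorem br_fam (S S' S'' : n.I → AddSubgroup R)
    (h : ∀ a b c, n.k a b c ≠ 0 → ∀ u ∈ S a, ∀ v ∈ S' b, u * v ∈ S'' c) {x y : n.G R}
    (hx : ∀ a, x a ∈ S a) (hy : ∀ a, y a ∈ S' a) :
    ∃ u : n.G R, (∀ a, u a ∈ S'' a) ∧ n.br x y = (Kd s : ℚ) • u := by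
  choose k' hk using n.dv
  refine ⟨fun c => ∑ a, ∑ b, (k' a b c : R) * (x a * y b), fun c => ?_, ?_⟩
  · refine (S'' c).sum_mem fun a _ => (S'' c).sum_mem fun b _ => ?_
    by_cases k0 : n.k a b c = 0
    · have : k' a b c = 0 := by
        have e := hk a b c
        rw [k0] at e
        exact (mul_eq_zero.1 e.symm).resolve_left (by exact_mod_cast (Kd_pos s).ne')
      simp [this]
    · rw [← zsmul_eq_mul]
      exact (S'' c).zsmul_mem (h a b c k0 _ (hx a) _ (hy b)) _
  · funext c
    simp only [PN.br, PN.smul_apply, smul_sum, hk, Nat.cast_smul_eq_nsmul, nsmul_eq_mul]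
    refine sum_congr rfl fun a _ => sum_congr rfl fun b _ => ?_
    push_cast
    ring

/-- the correction term lies in every family that absorbs the brackets -/
theorem mul_sub_fam (S S' : n.I → AddSubgroup R)
    (h : ∀ a b c, n.k a b c ≠ 0 → ∀ u ∈ S a, ∀ v ∈ S' b, u * v ∈ S' c) {x y : n.G R}
    (hx : ∀ a, x a ∈ S a) (hy : ∀ a, y a ∈ S a)
    (h0 : ∃ u : n.G R, (∀ a, u a ∈ S' a) ∧ n.br x y = (Kd s : ℚ) • u) (a : n.I) :
    (x * y) a - (x a + y a) ∈ S' a := by
  have hw : ∀ w, ∃ u : n.G R, (∀ a, u a ∈ S' a) ∧ adw n.br x y w = (Kd s : ℚ) • u := by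
    intro w
    induction w with
    | nil => exact h0
    | cons b w ih =>
      obtain ⟨u, hu, e⟩ := ih
      refine n.br_fam S S' S' h (by cases b <;> assumption) fun a => ?_
      rw [e, PN.smul_apply, Nat.cast_smul_eq_nsmul]
      exact (S' a).nsmul_mem (hu a) _
  rw [PN.mul_def, PN.add_apply, PN.add_apply, add_sub_cancel_left, Finsupp.sum, PN.sum_apply]
  refine (S' a).sum_mem fun w _ => ?_
  obtain ⟨u, hu, e⟩ := hw w
  obtain ⟨z, hz⟩ := cb_int s w
  rw [e, smul_smul, mul_comm, hz, PN.smul_apply, Int.cast_smul_eq_zsmul]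
  exact (S' a).zsmul_mem (hu a) _

/-- a family of additive subgroups that is closed under the bracket gives a subgroup -/
def fam (S : n.I → AddSubgroup R)
    (h : ∀ a b c, n.k a b c ≠ 0 → ∀ u ∈ S a, ∀ v ∈ S b, u * v ∈ S c) : Subgroup (n.G R) where
  carrier := {x | ∀ a, x a ∈ S a}
  one_mem' a := (S a).zero_mem
  inv_mem' hx a := (S a).neg_mem (hx a)
  mul_mem' {x y} hx hy a := by
    have := n.mul_sub_fam S S h hx hy (n.br_fam S S S h hx hy) a
    rw [← sub_add_cancel ((x * y) a) (x a + y a)]
    exact (S a).add_mem this ((S a).add_mem (hx a) (hy a))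

end NS

end Pool.Agent.Lib.MP_028aa5_nt.N
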