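import Pool.Agent.Lib.MP_028aa5_nt.N.StI
import Pool.Agent.Lib.MP_028aa5_nt.V.GenB
import Pool.Agent.Lib.MP_028aa5_nt.T.C

/-! Tools for the induction on the total weight. -/

namespace Pool.Agent.Lib.MP_028aa5_nt.N.Ind

open Finset V T MeasureTheory
open scoped Classical

lemma fw_bd (S : Finset ℕ) (B n : ℕ) : ‖fw S B n‖ ≤ 1 := by
  unfold fw
  rw [norm_div, norm_mul, Complex.norm_natCast, Complex.norm_natCast]
  have h1 : ‖lio n‖ ≤ 1 := by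
    unfold lio
    rw [Complex.norm_intCast]
    rcases Nat.eq_zero_or_pos n with rfl | h
    · simp
    · rw [ArithmeticFunction.liouville_apply h.ne']
      simp
  refine div_le_one_of_le₀ ?_ (Nat.cast_nonneg _)
  calc _ ≤ 1 * (B : ℝ) := mul_le_mul h1 (by exact_mod_cast min_le_right _ _) (Nat.cast_nonneg _)
        zero_le_one
    _ = _ := one_mul _

/-- a finite union of rare classes is rare -/
lemma union (D : DX) (Ad : D.P → Prop) (h : ∀ η : ℝ, 0 < η → ∃ (J : Type) (_ : Fintype J)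
    (D' : J → DX) (Ad' : ∀ j, (D' j).P → Prop) (η' K0 : ℝ), 0 < η' ∧ (∀ j, (D' j).Rare (Ad' j)) ∧
    ∀ (κ y : ℝ) (f : ℕ → ℂ), (∀ n, ‖f n‖ ≤ 1) → 0 < κ → K0 ≤ κ * y → D.At Ad κ f η y →
      ∃ j, (D' j).At (Ad' j) κ f η' y) : D.Rare Ad := by
  intro a η β θ ha hη hβ hθ
  obtain ⟨J, _, D', Ad', η', K0, h0, hR, h⟩ := h η hη
  have hb : 0 < β / (Fintype.card J + 1) := by positivity
  choose C X0 hC using fun j => hR j a η' _ θ ha h0 hb hθ
  refine ⟨1 + ∑ j, |C j|, max (Real.exp (max K0 1)) (∑ j, |X0 j|),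
    fun X hX i0 i1 B κ Y hP hG => ?_⟩
  simp only [ge_iff_le, max_le_iff] at hX
  have X1 : 0 < X := (Real.exp_pos _).trans_le hX.1
  have l0 : max K0 1 ≤ Real.log X := (Real.le_log_iff_exp_le X1).2 hX.1
  have l1 : 1 ≤ Real.log X := (le_max_right _ _).trans l0
  have s0 : 0 ≤ ∑ j, |C j| := sum_nonneg fun _ _ => abs_nonneg _
  have Y0 : 0 < Y := (Real.rpow_pos_of_pos X1 _).trans_le hG.lo
  have k1 : Real.log X ≤ κ * Y :=
    (Real.self_le_rpow_of_one_le l1 (by linarith)).trans hG.len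
  have κ0 : 0 < κ := (mul_pos_iff_of_pos_right Y0).1 (by linarith)
  refine (Gen.vol_union (univ : Finset J) (fun j => {v ∈ Set.Icc (Real.log Y) (Real.log Y + 3) |
    (D' j).At (Ad' j) κ (fw (SS i0 i1) B) η' (Real.exp v)}) (fun _ => 0) (fun v hv => ?_)
    fun j _ => hC j X ?_ i0 i1 B κ Y hP ⟨hG.lo, hG.hi, le_trans ?_ hG.len, hG.κ⟩).trans ?_
  · have e1 : Y ≤ Real.exp v := (Real.log_le_iff_le_exp Y0).1 hv.1.1
    obtain ⟨j, hj⟩ := h κ _ _ (fw_bd _ _) κ0 ((le_max_left _ _).trans (l0.trans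
      (k1.trans (mul_le_mul_of_nonneg_left e1 κ0.le)))) hv.2
    exact ⟨j, mem_univ _, by rw [add_zero]; exact ⟨hv.1, hj⟩⟩
  · exact (le_abs_self _).trans ((single_le_sum (f := fun j => |X0 j|) (fun _ _ => abs_nonneg _)
      (mem_univ j)).trans hX.2)
  · refine Real.rpow_le_rpow_of_exponent_le l1 ?_
    have := single_le_sum (f := fun j => |C j|) (fun _ _ => abs_nonneg _) (mem_univ j)
    linarith [le_abs_self (C j)]
  · refine ENNReal.ofReal_le_ofReal ?_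
    rw [card_univ, ← mul_div_assoc, div_le_iff₀ (by positivity)]
    nlinarith

lemma mono (D D' : DX) (Ad : D.P → Prop) (Ad' : D'.P → Prop) (hR : D'.Rare Ad')
    (h : ∀ g, Ad g → ∃ g', Ad' g' ∧ ∀ m, D'.ev g' m = D.ev g m) : D.Rare Ad :=
  union D Ad fun η hη => ⟨Unit, inferInstance, fun _ => D', fun _ => Ad', η, 0, hη, fun _ => hR,
    fun κ y f _ _ _ ⟨g, hg, h1⟩ => by
      obtain ⟨g', h2, h3⟩ := h g hg
      exact ⟨(), g', h2, by simpa only [DX.cc, h3] using h1⟩⟩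

/-- the reduction with an arbitrary finite index set -/
lemma red (D : DX) (Ad : D.P → Prop) (h : ∀ η ρ : ℝ, 0 < η → 0 < ρ → ∃ (M L : ℕ) (J : Type)
    (_ : Fintype J) (D' : J → DX) (Ad' : ∀ j, (D' j).P → Prop) (η' K0 : ℝ), 1 ≤ L ∧ 0 < η' ∧
    (∀ j, (D' j).Rare (Ad' j)) ∧ ∀ (κ κ' y : ℝ) (f : ℕ → ℂ), (∀ n, ‖f n‖ ≤ 1) → 0 < κ' → κ ≤ 1 →
    (1 + κ') ^ L = 1 + κ → K0 ≤ κ * y → D.Bad Ad κ f η ρ M y →
    ∃ j, ∃ i < L, (D' j).At (Ad' j) κ' f η' (y * (1 + κ') ^ i)) : D.Red Ad := by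
  intro η ρ hη hρ
  obtain ⟨M, L, J, _, D', Ad', η', K0, h1, h2, h3, h4⟩ := h η ρ hη hρ
  refine ⟨M, L, Fintype.card J, fun j => D' ((Fintype.equivFin J).symm j),
    fun j => Ad' _, η', K0, h1, h2, fun j => h3 _, fun κ κ' y f a1 a2 a3 a4 a5 a6 => ?_⟩
  obtain ⟨j, hj⟩ := h4 κ κ' y f a1 a2 a3 a4 a5 a6
  obtain ⟨j, rfl⟩ := (Fintype.equivFin J).symm.surjective j
  exact ⟨j, hj⟩

lemma pw_le {x : ℝ} (hx : 0 ≤ x) (n : ℕ) : (1 + x) ^ n ≤ 1 + n * x * (1 + x) ^ n := by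
  induction n with
  | zero => simp
  | succ n ih =>
    have h1 : (1 : ℝ) ≤ (1 + x) ^ n := one_le_pow₀ (by linarith)
    have h2 : (0 : ℝ) ≤ n := Nat.cast_nonneg _
    rw [pow_succ]
    push_cast
    nlinarith [mul_nonneg hx (zero_le_one.trans h1), mul_nonneg (mul_nonneg h2 hx)
      (mul_nonneg hx (zero_le_one.trans h1)), mul_nonneg hx (mul_nonneg hx (zero_le_one.trans h1))]

/-- one of finitely many pieces is large -/
lemma piece {J : Type} (I : Finset J) {κ y η δ R : ℝ} (hκ : 0 < κ) (h1 : 1 ≤ κ * y) (hδ : 0 ≤ δ)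
    {a : ℕ → ℂ} {b : J → ℕ → ℂ} {c : J → ℂ} (hc : ∀ j ∈ I, ‖c j‖ ≤ R) (hR : 0 < R)
    (h : ∀ m ∈ Ioc ⌊y⌋₊ ⌊y * (1 + κ)⌋₊, ‖a m - ∑ j ∈ I, c j * b j m‖ ≤ δ) (h4 : 4 * δ ≤ η)
    (hη : 0 < η) (ha : η ≤ ‖C.av κ y a‖) :
    ∃ j ∈ I, η / (2 * R * (#I + 1)) ≤ ‖C.av κ y (b j)‖ := by
  by_contra hn
  push Not at hn
  have e : C.av κ y a = C.av κ y (fun m => a m - ∑ j ∈ I, c j * b j m) +
      ∑ j ∈ I, c j * C.av κ y (b j) := by
    simp only [C.av, sum_sub_distrib, mul_sub, mul_sum]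
    rw [sum_comm (s := I)]
    simp only [mul_left_comm (c _)]
    ring
  have h2 := C.av_le2 hκ h1 hδ h
  have h3 : ‖∑ j ∈ I, c j * C.av κ y (b j)‖ ≤ #I * (R * (η / (2 * R * (#I + 1)))) := by
    refine (norm_sum_le _ _).trans ?_
    rw [← nsmul_eq_mul]
    refine sum_le_card_nsmul _ _ _ fun j hj => ?_
    rw [norm_mul]
    exact mul_le_mul (hc j hj) (hn j hj).le (norm_nonneg _) hR.le
  have h5 : (#I : ℝ) * (R * (η / (2 * R * (#I + 1)))) < η / 2 := by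
    have : (#I : ℝ) * (R * (η / (2 * R * (#I + 1)))) = η / 2 * (#I / (#I + 1)) := by
      field_simp
    rw [this]
    exact mul_lt_of_lt_one_right (by positivity) ((div_lt_one (by positivity)).2 (by linarith))
  rw [e] at ha
  linarith [norm_add_le (C.av κ y fun m => a m - ∑ j ∈ I, c j * b j m)
    (∑ j ∈ I, c j * C.av κ y (b j))]

lemma cut_ev {s : ℕ} (n : NS s) (F : n.G ℝ → ℂ) (q r : ℕ) (g : n.Ph) (m : ℕ) :
    (n.cut F q r).ev g m = if m % q = r % q then F (PN.ev m g) else 0 := by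
  simp only [DX.ev, NS.cut, Nat.floor_natCast]

lemma inst_ev {s : ℕ} (n : NS s) (F : n.G ℝ → ℂ) (c0 : ℝ) (K : ℕ) (g : n.Ph) (m : ℕ) :
    (n.inst F c0 K).ev g m = F (PN.ev m g) := by
  show F (PN.ev m g * PN.ev _ 1) = _
  rw [map_one, mul_one]

end Pool.Agent.Lib.MP_028aa5_nt.N.Ind
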