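import Pool.Agent.Lib.MP_028aa5_nt.N.IndA

/-! Degenerate atoms come from atoms of smaller weight on shorter windows. -/

namespace Pool.Agent.Lib.MP_028aa5_nt.N.Ind

open Finset V T
open scoped Classical

lemma nG_nonneg {s : ℕ} {n : PN s} (x : n.G ℝ) : 0 ≤ PN.nG x := sum_nonneg fun _ _ => abs_nonneg _

lemma lip {s : ℕ} {n : NS s} {F : n.G ℝ → ℂ} {L d : ℝ} (hF : n.Test F L) (u v x : n.G ℝ)
    (h : PN.nG (u * v⁻¹) ≤ d) : ‖F (u * x) - F (v * x)‖ ≤ |L| * d := by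
  have := hF.lip (u * v⁻¹) (v * x)
  rw [show u * v⁻¹ * (v * x) = u * x by group] at this
  exact this.trans (mul_le_mul (le_abs_self _) h (nG_nonneg _) (abs_nonneg _))

lemma deg (hF : FacSt) (hA : AuxSt) {s : ℕ} (n : NS s) (ih : ∀ n' : NS s, n'.tw < n.tw → n'.Rare)
    {F : n.G ℝ → ℂ} {L : ℝ} (hT : n.Test F L) {q : ℕ} (hq : 1 ≤ q) {i : ℕ} {ξ : n.I → ℤ}
    (hξ : PN.IsCh i ξ) (M1 : ℝ) {η : ℝ} (hη : 0 < η) : ∃ (J : Type) (_ : Fintype J) (D' : J → DX)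
    (η' L0 : ℝ), 0 < η' ∧ (∀ j, (D' j).Rare fun _ => True) ∧ ∀ (κ' y N y1 : ℝ) (f : ℕ → ℂ)
    (p : ℕ → Prop) (g : n.Ph), (∀ m, ‖f m‖ ≤ 1) → (∀ m m', m % q = m' % q → p m → p m') → 0 < κ' →
    1 ≤ N → y ≤ y1 → y1 * (1 + κ') ≤ y + N → 1 ≤ κ' * y1 → L0 * (κ' * y1) ≤ N →
    Nr (PN.sym ξ i g) (M1 / N ^ i) →
    η ≤ ‖C.av κ' y1 fun m => (if p m then f m else 0) * F (PN.ev m g)‖ →
    ∃ j, (D' j).At (fun _ => True) κ' f η' y1 := by
  obtain ⟨n', φ, c, σ, c1, htw, hP, hfac, -⟩ := hF s n i ξ hξ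
  obtain ⟨C0, C00, hsl⟩ := hA.slow s n.toPN ((M1 + 1) * 2 ^ s)
  obtain ⟨δ, δ0, hδ⟩ : ∃ δ : ℝ, 0 < δ ∧ 8 * (|L| * δ) ≤ η := by
    refine ⟨η / (8 * (|L| + 1)), by positivity, ?_⟩
    rw [← mul_assoc, ← mul_div_assoc, div_le_iff₀ (by positivity)]
    nlinarith [abs_nonneg L]
  obtain ⟨W, hW, hnet⟩ := hA.net s n.toPN C0 δ δ0
  obtain ⟨C1, hP⟩ := hP C0
  have qc : 1 ≤ q * c := Nat.mul_pos hq c1
  refine ⟨W × Fin c × Fin (q * c), inferInstance, fun j => n'.cut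
    (fun x => F (j.1.1 * φ.app ℝ x * σ j.2.1)) (q * c) j.2.2, η / (2 * 1 * ((q * c : ℕ) + 1)),
    C0 / δ, by positivity, fun j => ih n' htw _ _ _ _ (hP F L _ _ hT (hW _ j.1.2)) qc,
    fun κ' y N y1 f p g hf hp κ0 N1 a1 a2 a3 a4 hN hb => ?_⟩
  obtain ⟨ε, g', τ, e1, e2, e3⟩ := hfac g y N M1 N1 hN
  have N0 : 0 < N := by linarith
  have y0 : 0 < y1 := C.pos κ0 a3
  have b0 : |y1 - y| ≤ 2 * N := by
    rw [abs_le]
    constructor <;> nlinarith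
  obtain ⟨w, hw, hw1⟩ := hnet _ (hsl ε y N y1 y1 N0 e1 b0 b0).1
  have key := piece (range (q * c)) κ0 a3 (δ := 2 * (|L| * δ)) (by positivity)
    (b := fun ρ m => f m * if m % (q * c) = ρ % (q * c) then
      F (w * φ.app ℝ (PN.ev m g') * σ (τ ρ)) else 0)
    (c := fun ρ => if p ρ then 1 else 0) (R := 1) (fun ρ _ => by split_ifs <;> simp) one_pos
    (fun m hm => ?_) (by linarith) hη hb
  · obtain ⟨ρ, hρ, h1⟩ := key
    rw [card_range] at h1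
    refine ⟨(⟨w, hw⟩, ⟨τ ρ, (e2 ρ).1⟩, ⟨ρ, mem_range.1 hρ⟩), g', trivial, ?_⟩
    simpa only [DX.cc, cut_ev, C.av] using h1
  · have m0 : m % (q * c) < q * c := Nat.mod_lt _ qc
    rw [sum_eq_single_of_mem (m % (q * c)) (mem_range.2 m0) fun ρ hρ hne => by
      rw [if_neg (c := m % (q * c) = _), mul_zero, mul_zero]
      rw [Nat.mod_eq_of_lt (mem_range.1 hρ)]
      exact hne.symm]
    have t1 : τ (m % (q * c)) = τ m := by
      rw [(e2 _).2, (e2 m).2, Nat.mod_mul_left_mod]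
    have t2 : p (m % (q * c)) ↔ p m :=
      ⟨hp _ _ (Nat.mod_mul_right_mod _ _ _), hp _ _ (Nat.mod_mul_right_mod _ _ _).symm⟩
    rw [Nat.mod_mod, if_pos rfl, t1]
    simp only [t2]
    split_ifs
    · rw [one_mul, ← mul_sub, norm_mul]
      obtain ⟨l, hl, e⟩ := e3 m
      rw [e, hT.inv _ l hl, mul_assoc, mul_assoc w]
      obtain ⟨w1, w2⟩ := C.win κ0 y0 hm
      rw [sub_nonneg, le_div_iff₀ y0] at w1
      rw [sub_le_iff_le_add, div_le_iff₀ y0] at w2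
      have b1 : |(m : ℝ) - y| ≤ 2 * N := by
        rw [abs_le]
        constructor <;> nlinarith
      have b2 : C0 * (|(m : ℝ) - y1| / N) ≤ δ := by
        rw [abs_of_nonneg (by linarith), ← mul_div_assoc, div_le_iff₀ N0]
        rw [div_mul_eq_mul_div, div_le_iff₀ δ0] at a4
        nlinarith
      have u1 := lip hT _ _ (φ.app ℝ (PN.ev m g') * σ (τ m))
        ((hsl ε y N m y1 N0 e1 b1 b0).2.trans b2)
      have u2 := lip hT _ _ (φ.app ℝ (PN.ev m g') * σ (τ m)) hw1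
      refine (mul_le_of_le_one_left (norm_nonneg _) (hf m)).trans ?_
      linarith [norm_sub_le_norm_sub_add_norm_sub (F (PN.ev m ε * (φ.app ℝ (PN.ev m g') * σ (τ m))))
        (F (PN.ev y1 ε * (φ.app ℝ (PN.ev m g') * σ (τ m))))
        (F (w * (φ.app ℝ (PN.ev m g') * σ (τ m))))]
    · simp only [zero_mul, sub_zero, norm_zero]
      positivity

end Pool.Agent.Lib.MP_028aa5_nt.N.Ind
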