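import Pool.Agent.Lib.MP_028aa5_nt.N.UTb

/-! Subgroups of rational points that contain a lattice. -/

namespace Pool.Agent.Lib.MP_028aa5_nt.N

open Finset
open scoped Classical

namespace PN

variable {s : ℕ} {n : PN s}

/-- basis vectors -/
noncomputable def bas (a : n.I) : n.G ℚ := Pi.single a 1

theorem nsmul_apply (t : ℕ) (x : n.G ℚ) (a : n.I) : (t • x) a = t * x a := nsmul_eq_mul t (x a)

theorem zpow_eq (x : n.G ℚ) (t : ℕ) : x ^ t = t • x := by
  induction t with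
  | zero => rw [pow_zero, zero_smul, one_def]
  | succ t ih =>
    rw [pow_succ, ih, n.mul_of_comm, succ_nsmul]
    have := n.br_self x
    ext c
    have := congrArg (fun u : ℚ => t * u) (congrFun this c)
    simp only [br, zero_apply, mul_zero, mul_sum] at this
    rw [zero_apply, ← this]
    exact sum_congr rfl fun a _ => sum_congr rfl fun b _ => by
      rw [nsmul_apply]; ring

/-- leading terms of weight `w` -/
def lead (Δ : Subgroup (n.G ℚ)) (w : ℕ) : AddSubgroup (n.G ℚ) where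
  carrier := {x | n.Ag w x 0 ∧ ∃ γ ∈ Δ, n.Ag (w + 1) γ x}
  zero_mem' := ⟨Ag.refl _ _, 1, one_mem _, Ag.refl _ _⟩
  add_mem' := by
    rintro x y ⟨a, γ, hγ, b⟩ ⟨a', δ, hδ, b'⟩
    refine ⟨fun c hc => by rw [add_apply, a c hc, a' c hc, zero_apply, add_zero],
      γ * δ, mul_mem hγ hδ, fun c hc => ?_⟩
    rw [lead_left ((b.mono (Nat.le_succ w)).trans a) δ (Nat.le_of_lt_succ hc), b c hc, b' c hc,
      add_apply]
  neg_mem' := by
    rintro x ⟨a, γ, hγ, b⟩
    exact ⟨fun c hc => by rw [neg_apply, a c hc, zero_apply, neg_zero], γ⁻¹, inv_mem hγ, b.inv⟩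

variable {Δ : Subgroup (n.G ℚ)}

theorem lead_of_ag {w : ℕ} {x : n.G ℚ} (h : n.Ag (w + 1) x 0) : x ∈ lead Δ w :=
  ⟨h.mono (Nat.le_succ w), 1, one_mem _, h.symm⟩

theorem lead_mono {i j : ℕ} (h : i ≤ j) {x : n.G ℚ} (hx : x ∈ lead Δ j) : x ∈ lead Δ i := by
  rcases h.eq_or_lt with rfl | h
  exacts [hx, lead_of_ag (hx.1.mono h)]

theorem pol_lead {i j : ℕ} {x y : n.G ℚ} (hx : n.Ag i x 0) (hy : n.Ag j y 0) {c : n.I}
    (hc : n.wt c < i + j + 1) : n.pol x y c = 1 / 2 * n.br x y c := by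
  rw [pol, Finsupp.sum, sum_apply, sum_eq_single [] (fun l _ hl => ?_) fun h => ?_, smul_apply,
    cb_nil, adw, smul_eq_mul]
  · have := List.length_pos_iff.2 hl
    rw [smul_apply, ag_adw hx hy l c (by omega), zero_apply, smul_zero]
  · rw [Finsupp.notMem_support_iff.1 h, zero_smul, zero_apply]

theorem lead_br {i j : ℕ} {x y : n.G ℚ} (hx : x ∈ lead Δ i) (hy : y ∈ lead Δ j) :
    n.br x y ∈ lead Δ (i + j) := by
  obtain ⟨a, γ, hγ, b⟩ := hx
  obtain ⟨a', δ, hδ, b'⟩ := hy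
  have g := (b.mono (Nat.le_succ i)).trans a
  have g' := (b'.mono (Nat.le_succ j)).trans a'
  refine ⟨ag_br a a', γ * δ * (δ * γ)⁻¹, mul_mem (mul_mem hγ hδ) (inv_mem (mul_mem hδ hγ)),
    fun c hc => ?_⟩
  have e := congrFun (br_sub_br γ δ x y) c
  rw [sub_apply, add_apply,
    ag_br (i := i + 1) (x := γ - x) (fun u hu => sub_eq_zero.2 (b u hu)) g' c (by omega),
    ag_br (j := j + 1) (y := δ - y) a (fun u hu => sub_eq_zero.2 (b' u hu)) c (by omega)] at e
  rw [(ag_comm g g').mul_inv (Nat.le_of_lt_succ hc), mul_apply, mul_apply, pol_lead g g' hc,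
    pol_lead g' g (by omega), n.br_anti δ γ, neg_apply]
  simp only [zero_apply] at e
  linarith

/-- rational multiples of leading terms -/
def sat (Δ : Subgroup (n.G ℚ)) (w : ℕ) : Submodule ℚ (n.G ℚ) where
  carrier := {x | ∃ M : ℕ, 1 ≤ M ∧ M • x ∈ lead Δ w}
  zero_mem' := ⟨1, le_rfl, by rw [smul_zero]; exact zero_mem _⟩
  add_mem' := by
    rintro x y ⟨M, a, b⟩ ⟨M', a', b'⟩
    refine ⟨M * M', Nat.mul_pos a a', ?_⟩
    rw [smul_add, mul_smul M M' y, mul_comm, mul_smul]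
    exact add_mem (nsmul_mem b _) (nsmul_mem b' _)
  smul_mem' := by
    rintro q x ⟨M, a, b⟩
    refine ⟨M * q.den, Nat.mul_pos a q.den_pos, ?_⟩
    rw [mul_smul, ← Nat.cast_smul_eq_nsmul ℚ q.den, smul_smul _ q, Rat.den_mul_eq_num,
      Int.cast_smul_eq_zsmul, smul_comm]
    exact zsmul_mem b _

end PN

namespace NS

variable {s : ℕ} (n : NS s)

/-- points whose coordinates are integral multiples of `N` -/
noncomputable def lat (N : ℕ) : Subgroup (n.G ℚ) :=
  n.fam (fun _ => AddSubgroup.zmultiples (N : ℚ)) fun _ _ _ _ u hu v hv => by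
    obtain ⟨z, rfl⟩ := AddSubgroup.mem_zmultiples_iff.1 hu
    obtain ⟨z', rfl⟩ := AddSubgroup.mem_zmultiples_iff.1 hv
    exact AddSubgroup.mem_zmultiples_iff.2 ⟨z * z' * N, by simp only [zsmul_eq_mul]; push_cast; ring⟩

theorem mem_lat {N : ℕ} {x : n.G ℚ} : x ∈ n.lat N ↔ ∀ a, ∃ z : ℤ, x a = z * N :=
  forall_congr' fun a => AddSubgroup.mem_zmultiples_iff.trans (by simp [eq_comm])

/-- a subgroup with all leading terms contains a lattice -/
theorem ex_lat (Δ : Subgroup (n.G ℚ)) (h : ∀ a, PN.bas a ∈ PN.sat Δ (n.wt a)) :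
    ∃ N : ℕ, 1 ≤ N ∧ n.lat N ≤ Δ := by
  have k : ∀ w ≤ s + 1, ∃ N : ℕ, 1 ≤ N ∧ ∀ x ∈ n.lat N, n.Ag w x 0 → x ∈ Δ := by
    intro w hw
    induction hw using Nat.decreasingInduction with
    | self => exact ⟨1, le_rfl, fun x _ e => e.eq ▸ Δ.one_mem⟩
    | of_succ w _ ih =>
      obtain ⟨N, N1, ih⟩ := ih
      choose M M1 h0 γ hγ e using h
      obtain ⟨T, T1, hT⟩ := Con.ex_den fun u : n.I × n.I => γ u.1 u.2
      have p : ∀ a, (N * T * M a) • PN.bas a ∈ PN.lead (Δ ⊓ n.lat N) (n.wt a) :=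
        fun a => ⟨fun c hc => by rw [mul_smul, PN.nsmul_apply, h0 a c hc, PN.zero_apply, mul_zero],
          γ a ^ (N * T), ⟨pow_mem (hγ a) _, n.mem_lat.2 fun c => by
            obtain ⟨z, hz⟩ := hT (a, c)
            exact ⟨z, by rw [PN.zpow_eq, PN.nsmul_apply, ← hz]; push_cast; ring⟩⟩,
          fun c hc => by
            rw [PN.zpow_eq, mul_smul _ (M a), PN.nsmul_apply, e a c hc, ← PN.nsmul_apply]⟩
      refine ⟨N * T * ∏ a, M a, Nat.mul_pos (Nat.mul_pos N1 T1) (prod_pos fun a _ => M1 a),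
        fun x hx x0 => ?_⟩
      choose z hz using n.mem_lat.1 hx
      have : x ∈ PN.lead (Δ ⊓ n.lat N) w := by
        rw [show x = ∑ a, x a • PN.bas a from pi_eq_sum_univ' x]
        refine sum_mem fun a _ => ?_
        by_cases c : n.wt a < w
        · rw [x0 a c, PN.zero_apply, zero_smul]
          exact zero_mem _
        · obtain ⟨u, hu⟩ := dvd_prod_of_mem M (mem_univ a)
          rw [hz, hu, ← mul_assoc, mul_comm _ u, mul_smul, Int.cast_smul_eq_zsmul,
            Nat.cast_smul_eq_nsmul, mul_smul]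
          exact zsmul_mem (nsmul_mem (PN.lead_mono (not_lt.1 c) (p a)) _) _
      obtain ⟨-, δ, hδ, e⟩ := this
      rw [← mul_inv_cancel_left δ x]
      refine mul_mem hδ.1 (ih _ (mul_mem (inv_mem hδ.2) (n.mem_lat.2 fun a => ?_)) (PN.ag_iff'.1 e))
      exact ⟨z a * T * ∏ a, M a, by rw [hz]; push_cast; ring⟩
  obtain ⟨N, N1, h⟩ := k 1 (by omega)
  exact ⟨N, N1, fun x hx => h x hx (PN.ag_one _ _)⟩

/-- scaling of the basis -/
def scale (N : ℕ) : NS s where
  I := n.I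
  wt := n.wt
  k a b c := N * n.k a b c
  w1 := n.w1
  ws := n.ws
  anti a b c := by rw [n.anti a b c, mul_neg]
  jac a b c d := by
    have := congrArg (fun u : ℤ => N * N * u) (n.jac a b c d)
    simp only [mul_sum, mul_zero] at this
    rw [← this]
    exact sum_congr rfl fun u _ => by ring
  fil a b c h := n.fil a b c (right_ne_zero_of_mul h)
  dv a b c := (n.dv a b c).mul_left _

end NS

end Pool.Agent.Lib.MP_028aa5_nt.N
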