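import Pool.Agent.Lib.MP_028aa5_nt.N.UTb

/-! Iterated brackets, and the logarithms of a cocompact set span the algebra. -/

namespace Pool.Agent.Lib.MP_028aa5_nt.N

open Finset
open scoped Classical

theorem bp_sub_mem {L : Type} [AddCommGroup L] [Module ℚ L] {br : L → L → L}
    (c : List Bool →₀ ℚ) (J : Submodule ℚ L) {x y : L} (h : br x y ∈ J)
    (hx : ∀ u ∈ J, br x u ∈ J) (hy : ∀ u ∈ J, br y u ∈ J) : bp br c x y - (x + y) ∈ J := by
  have a : ∀ w, adw br x y w ∈ J := by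
    intro w
    induction w with
    | nil => exact h
    | cons b w ih =>
      cases b
      · exact hy _ ih
      · exact hx _ ih
  rw [bp, add_sub_cancel_left]
  exact J.sum_mem fun w _ => J.smul_mem _ (a w)

namespace UT

variable {d : ℕ}

theorem ex_bp {s : ℕ} (hs : d ≤ s) {x y : Mx d ℝ} (hx : Up 1 x) (hy : Up 1 y) :
    ex s (bp cm (cb s) x y) = ex s x * ex s y :=
  (good_cb s).2.1 _ x y fun l hl hn => (up_prod l fun u hu => by
    rcases hl u hu with rfl | rfl <;> assumption).eq_zero (by omega)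

theorem Up.cm' {i j : ℕ} {x y : Mx d ℝ} (hx : Up i x) (hy : Up j y) : Up (i + j) (N.cm x y) :=
  (hx.mul hy).sub (add_comm i j ▸ hy.mul hx)

/-- iterated brackets -/
noncomputable def wd {ι : Type} (X : ι → Mx d ℝ) : List ι → ι → Mx d ℝ
  | [], a => X a
  | b :: w, a => cm (X b) (wd X w a)

/-- the rational span of the brackets of length at least `j` -/
noncomputable def Wd {ι : Type} (X : ι → Mx d ℝ) (j : ℕ) : Submodule ℚ (Mx d ℝ) :=
  Submodule.span ℚ {Y | ∃ w a, j ≤ w.length + 1 ∧ Y = wd X w a}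

variable {ι : Type} {X : ι → Mx d ℝ}

theorem Wd_mono {i j : ℕ} (h : i ≤ j) : Wd X j ≤ Wd X i :=
  Submodule.span_mono fun _ ⟨w, a, c, e⟩ => ⟨w, a, h.trans c, e⟩

theorem wd_mem (w : List ι) (a : ι) : wd X w a ∈ Wd X (w.length + 1) :=
  Submodule.subset_span ⟨w, a, le_rfl, rfl⟩

theorem cm_add_right (x y z : Mx d ℝ) : cm x (y + z) = cm x y + cm x z := by
  simp only [cm]; noncomm_ring

theorem cm_add_left (x y z : Mx d ℝ) : cm (x + y) z = cm x z + cm y z := by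
  simp only [cm]; noncomm_ring

theorem cm_smul_right (t : ℚ) (x y : Mx d ℝ) : cm x (t • y) = t • cm x y := by
  simp only [cm, mul_smul_comm, smul_mul_assoc, smul_sub]

theorem cm_smul_left (t : ℚ) (x y : Mx d ℝ) : cm (t • x) y = t • cm x y := by
  simp only [cm, mul_smul_comm, smul_mul_assoc, smul_sub]

theorem Wd_ad (b : ι) {j : ℕ} {y : Mx d ℝ} (h : y ∈ Wd X j) : cm (X b) y ∈ Wd X (j + 1) := by
  induction h using Submodule.span_induction with
  | mem _ h =>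
    obtain ⟨w, a, c, rfl⟩ := h
    exact Submodule.subset_span ⟨b :: w, a, by simpa using c, rfl⟩
  | zero => simp [cm]
  | add _ _ _ _ p q => rw [cm_add_right]; exact add_mem p q
  | smul t _ _ p => rw [cm_smul_right]; exact Submodule.smul_mem _ t p

theorem Wd_wd (w : List ι) (a : ι) : ∀ {j : ℕ} {y : Mx d ℝ}, y ∈ Wd X j →
    cm (wd X w a) y ∈ Wd X (w.length + 1 + j) := by
  induction w with
  | nil => exact fun h => Wd_mono (by simp [add_comm]) (Wd_ad a h)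
  | cons b w ih =>
    intro j y h
    have e : cm (wd X (b :: w) a) y =
        cm (X b) (cm (wd X w a) y) - cm (wd X w a) (cm (X b) y) := by
      simp only [wd, cm]; noncomm_ring
    rw [e]
    exact sub_mem (Wd_mono (by simp only [List.length_cons]; omega) (Wd_ad b (ih h)))
      (Wd_mono (by simp only [List.length_cons]; omega) (ih (Wd_ad b h)))

theorem Wd_br {i j : ℕ} {x y : Mx d ℝ} (hx : x ∈ Wd X i) (hy : y ∈ Wd X j) :
    cm x y ∈ Wd X (i + j) := by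
  induction hx using Submodule.span_induction with
  | mem _ h =>
    obtain ⟨w, a, c, rfl⟩ := h
    exact Wd_mono (by omega) (Wd_wd w a hy)
  | zero => simp [cm]
  | add _ _ _ _ p q => rw [cm_add_left]; exact add_mem p q
  | smul t _ _ p => rw [cm_smul_left]; exact Submodule.smul_mem _ t p

theorem wd_up (hX : ∀ a, Up 1 (X a)) (w : List ι) (a : ι) : Up (w.length + 1) (wd X w a) := by
  induction w with
  | nil => exact hX a
  | cons b w ih => exact ((hX b).cm' ih).mono (by simp only [List.length_cons]; omega)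

theorem Wd_up (hX : ∀ a, Up 1 (X a)) {j : ℕ} {x : Mx d ℝ} (h : x ∈ Wd X j) : Up j x := by
  induction h using Submodule.span_induction with
  | mem _ h =>
    obtain ⟨w, a, c, rfl⟩ := h
    exact (wd_up hX w a).mono c
  | zero => exact up_zero j
  | add _ _ _ _ p q => exact p.add q
  | smul t _ _ p => exact p.smul t

theorem Wd_fin [Finite ι] (hX : ∀ a, Up 1 (X a)) : FiniteDimensional ℚ (Wd X 1) := by
  refine FiniteDimensional.span_of_finite ℚ (Set.Finite.subset (Set.Finite.insert 0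
    (((List.finite_length_le ι d).prod Set.finite_univ).image fun u : List ι × ι => wd X u.1 u.2)) ?_)
  rintro _ ⟨w, a, -, rfl⟩
  by_cases c : w.length ≤ d
  · exact Or.inr ⟨(w, a), ⟨c, trivial⟩, rfl⟩
  · exact Or.inl ((wd_up hX w a).eq_zero (by omega))

theorem Wd_le {g : Submodule ℝ (Mx d ℝ)} (hb : ∀ x ∈ g, ∀ y ∈ g, x * y - y * x ∈ g)
    (hX : ∀ a, X a ∈ g) {j : ℕ} {x : Mx d ℝ} (h : x ∈ Wd X j) : x ∈ g := by
  refine (Submodule.span_le (p := g.restrictScalars ℚ)).2 ?_ h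
  rintro _ ⟨w, a, -, rfl⟩
  induction w with
  | nil => exact hX a
  | cons b w ih => exact hb _ (hX b) _ ih

/-- logarithms of bounded unipotent matrices are bounded -/
theorem log_bd (d : ℕ) (C : ℝ) : ∃ B : ℝ, ∀ Y : Mx d ℝ, Up 1 Y → (∀ i j, |ex d Y i j| ≤ C) →
    ∀ i j, |Y i j| ≤ B := by
  let T := {Y : Mx d ℝ // Up 1 Y ∧ ∀ i j, |ex d Y i j| ≤ C}
  let S : Submodule ℚ (T → ℝ) :=
    { carrier := {u | ∃ B, ∀ t, |u t| ≤ B}
      add_mem' := fun ⟨B, h⟩ ⟨B', h'⟩ =>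
        ⟨B + B', fun t => (abs_add_le _ _).trans (add_le_add (h t) (h' t))⟩
      zero_mem' := ⟨0, fun t => by simp⟩
      smul_mem' := fun q _ ⟨B, h⟩ => ⟨|(q : ℝ)| * B, fun t => by
        rw [Pi.smul_apply, Rat.smul_def, abs_mul]
        exact mul_le_mul_of_nonneg_left (h t) (abs_nonneg _)⟩ }
  obtain ⟨A, a1, a2, a3⟩ := ex_fam (d := d) le_rfl (fun _ _ => S)
    (fun _ _ _ _ _ u ⟨B, h⟩ v ⟨B', h'⟩ => ⟨B * B', fun t => by
      rw [Pi.mul_apply, abs_mul]
      exact mul_le_mul (h t) (h' t) (abs_nonneg _) ((abs_nonneg _).trans (h t))⟩)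
    (A := Matrix.of fun i j t => ex d t.1 i j) (fun i j c => funext fun t => by
      have := up_ex le_rfl t.2.1 i j c
      simpa [Matrix.one_apply, apply_ite (fun u : T → ℝ => u t)] using this)
    fun i j _ => ⟨C, fun t => t.2.2 i j⟩
  choose B hB using a2
  refine ⟨∑ i, ∑ j, |B i j|, fun Y h1 h2 i j => ?_⟩
  have e : A.map (Pi.evalRingHom (fun _ => ℝ) (⟨Y, h1, h2⟩ : T)) = Y :=
    ex_inj le_rfl (fun i j c => by rw [Matrix.map_apply, a1 i j c, map_zero]) h1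
      (by rw [ex_map, a3]; rfl)
  rw [← e]
  exact ((hB i j _).trans (le_abs_self _)).trans (le_nM (Matrix.of B) i j)

/-- the logarithms of a cocompact set span the algebra -/
theorem span_all (g : Submodule ℝ (Mx d ℝ)) (hu : ∀ x ∈ g, Up 1 x)
    (hb : ∀ x ∈ g, ∀ y ∈ g, x * y - y * x ∈ g) (Gam : Set (Mx d ℝ)) (hs : Gam ⊆ ex d '' g)
    (cc : ∃ C : ℝ, ∀ x ∈ ex d '' g, ∃ y ∈ Gam, ∀ i j, |(x * y) i j| ≤ C) :
    g ≤ Submodule.span ℝ {Y | Y ∈ g ∧ ex d Y ∈ Gam} := by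
  obtain ⟨C, cc⟩ := cc
  obtain ⟨B, hB⟩ := log_bd d C
  set h := Submodule.span ℝ {Y | Y ∈ g ∧ ex d Y ∈ Gam}
  have k : ∀ m, (∀ x ∈ g, Up (m + 1) x → x ∈ h) → ∀ x ∈ g, Up m x → x ∈ h := by
    intro m ih x hx ux
    by_contra hn
    obtain ⟨f, f1, f0⟩ := Submodule.exists_dual_map_eq_bot_of_notMem hn inferInstance
    have z : ∀ u ∈ h, f u = 0 := fun u hu => by
      have := Submodule.mem_map_of_mem (f := f) hu
      rwa [f0, Submodule.mem_bot] at this
    let J : Submodule ℚ (Mx d ℝ) :=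
      { carrier := {u | u ∈ g ∧ Up (m + 1) u}
        add_mem' := fun a b => ⟨g.add_mem a.1 b.1, a.2.add b.2⟩
        zero_mem' := ⟨g.zero_mem, up_zero _⟩
        smul_mem' := fun t _ a => ⟨(g.restrictScalars ℚ).smul_mem t a.1, a.2.smul t⟩ }
    have ad : ∀ y ∈ g, ∀ u ∈ J, cm y u ∈ J := fun y hy u hu' =>
      ⟨hb _ hy _ hu'.1, ((hu y hy).cm' hu'.2).mono (by omega)⟩
    set t := (∑ i, ∑ j, B * |f (Matrix.single i j 1)| + 1) / f x with ht
    have tx := g.smul_mem t hx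
    obtain ⟨y, hy, hc⟩ := cc _ ⟨_, tx, rfl⟩
    obtain ⟨Y, hY, rfl⟩ := hs hy
    have j := bp_sub_mem (br := cm) (cb d) J ⟨hb _ tx _ hY, (ux.smul t).cm' (hu Y hY)⟩
      (ad _ tx) (ad _ hY)
    rw [← ex_bp le_rfl (hu _ tx) (hu _ hY)] at hc
    set Z := bp cm (cb d) (t • x) Y
    have uZ : Up 1 Z := by
      rw [← sub_add_cancel Z (t • x + Y)]
      exact (hu _ j.1).add ((hu _ tx).add (hu _ hY))
    have e1 := z _ (ih _ j.1 j.2)
    rw [map_sub, map_add, z Y (Submodule.subset_span ⟨hY, hy⟩), map_smul, smul_eq_mul, ht,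
      div_mul_cancel₀ _ f1, add_zero, sub_eq_zero] at e1
    have e2 : f Z ≤ ∑ i, ∑ j, B * |f (Matrix.single i j 1)| := by
      conv_lhs => rw [Matrix.matrix_eq_sum_single Z]
      simp only [map_sum]
      refine sum_le_sum fun i _ => sum_le_sum fun j _ => (le_abs_self _).trans ?_
      rw [← mul_one (Z i j), ← smul_eq_mul, ← Matrix.smul_single, map_smul, smul_eq_mul, abs_mul]
      exact mul_le_mul_of_nonneg_right (hB Z uZ hc i j) (abs_nonneg _)
    linarith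
  have k2 : ∀ r, ∀ x ∈ g, Up (d - r) x → x ∈ h := by
    intro r
    induction r with
    | zero => exact fun x _ ux => ux.eq_zero (by omega) ▸ h.zero_mem
    | succ r ih => exact k _ fun x hx ux => ih x hx (ux.mono (by omega))
  exact fun x hx => k2 d x hx ((hu x hx).mono (by omega))

theorem span_log' (g : Submodule ℝ (Mx d ℝ)) (hu : ∀ x ∈ g, Up 1 x)
    (hb : ∀ x ∈ g, ∀ y ∈ g, x * y - y * x ∈ g) (Gam : Set (Mx d ℝ)) (hs : Gam ⊆ ex d '' g)
    (cc : ∃ C : ℝ, ∀ x ∈ ex d '' g, ∃ y ∈ Gam, ∀ i j, |(x * y) i j| ≤ C) :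
    ∃ (r : ℕ) (X : Fin r → Mx d ℝ), (∀ a, X a ∈ g ∧ ex d (X a) ∈ Gam) ∧
      Submodule.span ℝ (Set.range X) = g := by
  obtain ⟨T, h1, h2⟩ := (Submodule.fg_span_iff_fg_span_finset_subset (R := ℝ)
    {Y | Y ∈ g ∧ ex d Y ∈ Gam}).1 (IsNoetherian.noetherian _)
  refine ⟨#T, fun a => (T.equivFin.symm a).1, fun a => h1 (T.equivFin.symm a).2, ?_⟩
  have e : Set.range (fun a => (T.equivFin.symm a).1) = T := by
    ext y
    exact ⟨fun ⟨a, e⟩ => e ▸ (T.equivFin.symm a).2,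
      fun hy => ⟨T.equivFin ⟨y, hy⟩, by simp⟩⟩
  rw [e, ← h2]
  exact le_antisymm (Submodule.span_le.2 fun _ h => h.1) (span_all g hu hb Gam hs cc)

theorem span_log (g : Submodule ℝ (Mx d ℝ)) (hu : ∀ x ∈ g, Up 1 x)
    (hb : ∀ x ∈ g, ∀ y ∈ g, x * y - y * x ∈ g) (Gam : Set (Mx d ℝ)) (hs : Gam ⊆ ex d '' g)
    (cc : ∃ C : ℝ, ∀ x ∈ ex d '' g, ∃ y ∈ Gam, ∀ i j, |(x * y) i j| ≤ C) :
    ∃ (r : ℕ) (X : Fin r → Mx d ℝ), (∀ a, X a ∈ g ∧ ex d (X a) ∈ Gam) ∧
      Submodule.span ℝ (Wd X 1 : Set (Mx d ℝ)) = g := by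
  obtain ⟨r, X, h1, h2⟩ := span_log' g hu hb Gam hs cc
  refine ⟨r, X, h1, le_antisymm (Submodule.span_le.2 fun _ h => Wd_le hb (fun a => (h1 a).1) h) ?_⟩
  rw [← h2]
  exact Submodule.span_mono (by rintro _ ⟨a, rfl⟩; exact wd_mem [] a)

end UT

end Pool.Agent.Lib.MP_028aa5_nt.N
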