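import Pool.Agent.Lib.MP_028aa5_nt.N.MalR
import Pool.Agent.Lib.MP_028aa5_nt.N.MalW
import Pool.Agent.Lib.MP_028aa5_nt.N.UTc

/-! The theorem of Malcev and the final statement for real Lie algebras. -/

namespace Pool.Agent.Lib.MP_028aa5_nt.N

open Finset Polynomial MeasureTheory
open scoped Classical

namespace UT

variable {d : ℕ}

/-- the model of the rational algebra generated by finitely many matrices -/
theorem modelR {ι : Type} [Finite ι] (X : ι → Mx d ℝ) (hX : ∀ a, Up 1 (X a)) {K : ℕ} (hK : 0 < K)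
    (F : Mx d ℝ → ℂ) (hi : ∀ Y ∈ Submodule.span ℝ (Wd X 1 : Set (Mx d ℝ)), ∀ a,
      F (ex d Y * ex d (X a)) = F (ex d Y)) :
    ∃ (s : ℕ) (n : NS s) (v : n.I → Mx d ℝ), 1 ≤ s ∧ RepR n.toPN v ∧ (∀ a, K ≤ n.wt a) ∧
      Submodule.span ℝ (Set.range v) = Submodule.span ℝ (Wd X 1 : Set (Mx d ℝ)) ∧
      ∀ x, ∀ γ ∈ n.Gam, F (ExR v x * ExR v γ) = F (ExR v x) := by
  set s := K * (d + 1) with hs
  have Ks : K ≤ s := Nat.le_mul_of_pos_right K (Nat.succ_pos d)
  have ds : d ≤ s := (Nat.le_succ d).trans (Nat.le_mul_of_pos_left _ hK)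
  have up : ∀ i : ℕ, i ≤ K * (i ⌈/⌉ K) := fun i => (ceilDiv_le_iff_le_mul hK).1 le_rfl
  have lo : ∀ {i j : ℕ}, i ≤ K * j → Wd X j ≤ Wd X (i ⌈/⌉ K) := fun h =>
    Wd_mono ((ceilDiv_le_iff_le_mul hK).2 h)
  have hi1 : ∀ {i : ℕ}, 1 ≤ i → Wd X (i ⌈/⌉ K) ≤ Wd X 1 := fun {i} h =>
    Wd_mono (Nat.pos_of_ne_zero fun e => by have := up i; rw [e] at this; omega)
  have w0 : ∀ Y ∈ Wd X ((s + 1) ⌈/⌉ K), Y = 0 := fun Y hY => (Wd_up hX hY).eq_zero
    ((Nat.le_succ d).trans (Nat.lt_of_mul_lt_mul_left (a := K) (up (s + 1))).le)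
  have := Wd_fin hX
  have : FiniteDimensional ℚ (Wd X (1 ⌈/⌉ K)) := Submodule.finiteDimensional_of_le (hi1 le_rfl)
  obtain ⟨n, v, l, c1, c2, c3, c4, c5, -, -⟩ := Con.con s
    (LinearMap.mul ℚ (Mx d ℝ) - (LinearMap.mul ℚ (Mx d ℝ)).flip) (fun i => Wd X (i ⌈/⌉ K))
    (fun i _ _ => lo ((Nat.le_succ i).trans (up _)))
    (fun x _ y _ => by
      convert (Wd X _).zero_mem using 1
      simp only [LinearMap.sub_apply, LinearMap.flip_apply, LinearMap.mul_apply']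
      noncomm_ring)
    (fun x _ y _ z _ => by
      convert (Wd X _).zero_mem using 1
      simp only [LinearMap.sub_apply, LinearMap.flip_apply, LinearMap.mul_apply']
      noncomm_ring)
    (fun i j _ _ _ _ x hx y hy => lo ((min_le_left _ _).trans
      ((add_le_add (up i) (up j)).trans_eq (mul_add _ _ _).symm)) (Wd_br hx hy))
    (J := Empty) Empty.elim (D := 1) le_rfl
  have vg : ∀ a, v a ∈ Wd X 1 := fun a => hi1 (n.w1 a) (c1 a)
  have sp : ∀ Y ∈ Wd X 1, Y = ∑ a, l a Y • v a := fun Y hY =>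
    sub_eq_zero.1 (w0 _ (c4 Y (lo (by omega) hY)))
  have hR : RepR n.toPN v := ⟨ds, fun a => Wd_up hX (vg a), fun a b => by
    refine (sp _ (Wd_mono (Nat.le_add_right 1 1) (Wd_br (vg a) (vg b)))).trans (sum_congr rfl fun c _ => ?_)
    rw [← Rat.cast_intCast (α := ℝ), c5, Rat.cast_smul_eq_qsmul, LinearMap.sub_apply,
      LinearMap.sub_apply, LinearMap.flip_apply, LinearMap.mul_apply', LinearMap.mul_apply', cm]⟩
  let co : Mx d ℝ →ₗ[ℚ] n.G ℚ := LinearMap.pi l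
  let Δ : Subgroup (n.G ℚ) :=
    { carrier := {y | ∀ x, F (ExR v (x * n.map (algebraMap ℚ ℝ) y)) = F (ExR v x)}
      one_mem' := fun x => by rw [map_one, mul_one]
      mul_mem' := fun a b x => by rw [map_mul, ← mul_assoc, b, a]
      inv_mem' := fun a x => by rw [← a, map_inv, inv_mul_cancel_right] }
  have mg : ∀ x : n.G ℝ, lmR v x ∈ Submodule.span ℝ (Wd X 1 : Set (Mx d ℝ)) := fun x =>
    sum_mem fun a _ => Submodule.smul_mem _ _ (Submodule.subset_span (vg a))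
  have wm : ∀ w a, wd X w a ∈ Wd X (w.length + 1) := fun w a =>
    Submodule.subset_span ⟨w, a, le_rfl, rfl⟩
  have xm : ∀ a, X a ∈ Wd X 1 := wm []
  have ld : ∀ w a, co (wd X w a) ∈ PN.lead Δ (K * (w.length + 1)) := by
    have b : ∀ a, co (X a) ∈ PN.lead Δ K := fun a =>
      ⟨fun c hc => c2 c K hc (by omega) _ (lo (by omega) (xm a)), _, fun x => by
        have e : lmR v (n.map (algebraMap ℚ ℝ) (co (X a))) = X a :=
          (sum_congr rfl fun c _ => algebraMap_smul ℝ _ _).trans (sp _ (xm a)).symm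
        rw [hR.Ex_mul, ExR, ExR, e, ex_stab ds (hX a), ex_stab ds (hR.up_lm x)]
        exact hi _ (mg x) a, PN.Ag.refl _ _⟩
    intro w a
    induction w with
    | nil => simpa [wd] using b a
    | cons u w ih =>
      have e : co (wd X (u :: w) a) = n.br (co (X u)) (co (wd X w a)) := funext fun c => by
        change l c ((LinearMap.mul ℚ (Mx d ℝ) - (LinearMap.mul ℚ (Mx d ℝ)).flip) (X u) (wd X w a)) =
          ∑ a', ∑ b, (n.k a' b c : ℚ) * (l a' (X u) * l b (wd X w a))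
        conv_lhs => rw [sp _ (Wd_mono (by omega) (wm w a)), map_sum, map_sum]
        conv_lhs => enter [2, b]; rw [map_smul, sp _ (xm u)]
        simp only [c5, map_sum, map_smul, LinearMap.sum_apply, LinearMap.smul_apply, smul_eq_mul,
          mul_sum]
        rw [sum_comm]
        exact sum_congr rfl fun _ _ => sum_congr rfl fun _ _ => by ring
      rw [e, List.length_cons, mul_add K (w.length + 1), mul_one, add_comm]
      exact PN.lead_br (b u) ih
  obtain ⟨N, N1, hN⟩ := n.ex_lat Δ fun a => by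
    have e : PN.bas a = co (v a) := funext fun c => (Pi.single_apply _ _ _).trans (c3 c a).symm
    rw [e]
    refine (Submodule.span_le (p := (PN.sat Δ (n.wt a)).comap co)).2 ?_ (c1 a)
    rintro _ ⟨w, u, h, rfl⟩
    exact ⟨1, le_rfl, nsmul_mem (PN.lead_mono ((ceilDiv_le_iff_le_mul hK).1 h) (ld w u)) 1⟩
  have N0 : (N : ℝ) ≠ 0 := by positivity
  have sc : ∀ x : (n.scale N).G ℝ, ExR (n := (n.scale N).toPN) (fun a => (N : ℝ) • v a) x =
      ExR (n := n.toPN) v fun a => x a * N := fun x =>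
    congrArg (ex s) (sum_congr rfl fun a _ => smul_smul _ _ _)
  refine ⟨s, n.scale N, fun a => (N : ℝ) • v a, by omega, ⟨ds, fun a => (hR.up a).smul _,
    fun a b => ?_⟩, fun a => not_lt.1 fun h => ?_, le_antisymm (Submodule.span_le.2 ?_)
      (Submodule.span_le.2 fun Y hY => ?_), fun x γ hγ => ?_⟩
  · rw [cm, smul_mul_smul_comm, smul_mul_smul_comm, ← smul_sub, ← cm, hR.br a b, smul_sum]
    refine sum_congr rfl fun c _ => ?_
    rw [smul_smul, smul_smul]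
    congr 1
    simp only [NS.scale]
    push_cast
    ring
  · have := c2 a K h (by omega) _ (lo (by omega) (vg a))
    exact one_ne_zero ((if_pos rfl).symm.trans ((c3 a a).symm.trans this))
  · rintro _ ⟨a, rfl⟩
    exact Submodule.smul_mem _ _ (Submodule.subset_span (vg a))
  · rw [sp Y hY]
    refine sum_mem fun a _ => ?_
    rw [← Rat.cast_smul_eq_qsmul ℝ, ← inv_smul_smul₀ N0 (v a)]
    exact Submodule.smul_mem _ _ (Submodule.smul_mem _ _ (Submodule.subset_span ⟨a, rfl⟩))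
  · choose z hz using (n.scale N).mem_Gam.1 hγ
    have := hN (n.mem_lat.2 fun a => ⟨z a, rfl⟩ : (fun a => (z a : ℚ) * N) ∈ n.lat N)
      fun a => x a * N
    rw [sc, sc]
    refine Eq.trans (congrArg F ((hR.Ex_mul _ _).symm.trans ?_)) this
    congr 2
    funext a
    change _ = algebraMap ℚ ℝ (z a * N)
    simp [hz a]

/-- the bridge for real Lie algebras -/
theorem bridgeR (k : ℕ) (g : Submodule ℝ (Mx d ℝ)) (hu : ∀ X ∈ g, Up 1 X)
    (hb : ∀ X ∈ g, ∀ Y ∈ g, X * Y - Y * X ∈ g) {Γ : Set (Mx d ℝ)} (hΓ : Γ ⊆ ex d '' g)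
    (cc : ∃ C, ∀ x ∈ ex d '' g, ∃ y ∈ Γ, ∀ i j, |(x * y) i j| ≤ C) {F : Mx d ℝ → ℂ}
    (hF : ContinuousOn F (ex d '' g)) (hi : ∀ x ∈ ex d '' g, ∀ y ∈ Γ, F (x * y) = F x)
    {ε : ℝ} (hε : 0 < ε) :
    ∃ (s : ℕ) (n : NS s) (F2 : n.G ℝ → ℂ) (L c : ℝ), 1 ≤ s ∧ 0 < c ∧ n.Test F2 L ∧
      ∀ u ∈ Sq (ex d '' g) k, ∃ p : n.Ph, ∀ m : ℕ, ‖F (u m) - c * F2 (PN.ev m p)‖ ≤ ε := by
  obtain ⟨r, X, hX, e⟩ := span_log g hu hb Γ hΓ cc
  obtain ⟨s, n, v, s1, hR, hw, sp, inv⟩ := modelR X (fun a => hu _ (hX a).1)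
    (Nat.succ_pos ((k + 1) * d)) F fun Y hY a => hi _ ⟨Y, e ▸ hY, rfl⟩ _ (hX a).2
  rw [e] at sp
  have hm : ∀ x : n.G ℝ, ExR v x ∈ ex d '' g := fun x =>
    ⟨lmR v x, sp ▸ sum_mem fun a _ => Submodule.smul_mem _ _ (Submodule.subset_span ⟨a, rfl⟩),
      (ex_stab hR.le (hR.up_lm x)).symm⟩
  obtain ⟨F2, L, c, c0, hT, hc⟩ := hR.approx hm hF inv hε
  obtain ⟨σ, hσ⟩ : ∃ σ : Mx d ℝ →ₗ[ℝ] n.I → ℝ, ∀ Y ∈ g, ∑ a, σ Y a • v a = Y := by
    obtain ⟨τ, hτ⟩ := (Fintype.linearCombination ℝ v).rangeRestrict.exists_rightInverse_of_surjective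
      (LinearMap.range_rangeRestrict _)
    obtain ⟨σ, hσ⟩ := τ.exists_extend
    refine ⟨σ, fun Y hY => ?_⟩
    rw [← sp, ← Fintype.range_linearCombination] at hY
    rw [← Fintype.linearCombination_apply, show σ Y = τ ⟨Y, hY⟩ from LinearMap.congr_fun hσ ⟨Y, hY⟩]
    exact congrArg Subtype.val (LinearMap.congr_fun hτ ⟨Y, hY⟩)
  refine ⟨s, n, F2, L, c, s1, c0, hT, fun u hG => ?_⟩
  choose Y hY eY using hG.1
  choose U hU eU using hG.2
  obtain ⟨A, a1, a2, a3⟩ := ex_fam le_rfl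
    (fun i j : Fin d => (degreeLE ℝ ((k + 1) * (j - i) : ℕ)).restrictScalars ℚ)
    (fun i l j h1 h2 p hp q hq => by
      rw [Submodule.restrictScalars_mem, mem_degreeLE] at hp hq ⊢
      refine (degree_mul_le_of_le hp hq).trans (le_of_eq ?_)
      have h1 : (i : ℕ) < l := h1
      have h2 : (l : ℕ) < j := h2
      rw [← Nat.cast_add, ← mul_add, show (l : ℕ) - i + (j - l) = j - i by omega])
    (A := Matrix.of U) (fun i j c => poly_ext fun m => by
      have := up_ex le_rfl (hu _ (hY m)) i j c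
      rw [eY, Matrix.sub_apply, eU] at this
      simpa [Matrix.one_apply, apply_ite (eval (m : ℝ))] using this)
    fun i j h => by
      rw [Submodule.restrictScalars_mem, mem_degreeLE, ← natDegree_le_iff_degree_le]
      have : (i : ℕ) < j := h
      exact (hU i j).trans ((Nat.le_succ k).trans (Nat.le_mul_of_pos_right _ (by omega)))
  have e : ∀ m : ℕ, A.map (evalRingHom (m : ℝ)) = Y m := fun m =>
    ex_inj le_rfl (fun i j c => by rw [Matrix.map_apply, a1 i j c, map_zero]) (hu _ (hY m))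
      (by rw [ex_map, a3, eY]; exact Matrix.ext fun i j => (eU i j m).symm)
  refine ⟨⟨fun a => ∑ i, ∑ j, σ (Matrix.single i j 1) a • A i j, n.mem_P.2 fun a =>
    natDegree_sum_le_of_forall_le _ _ fun i _ => natDegree_sum_le_of_forall_le _ _ fun j _ =>
      (natDegree_smul_le _ _).trans ((natDegree_le_iff_degree_le.2 (mem_degreeLE.1 (a2 i j))).trans
        ((Nat.mul_le_mul_left _ (by omega)).trans ((Nat.le_succ _).trans (hw a))))⟩, fun m => ?_⟩
  refine Eq.trans_le (congrArg (fun y => ‖F y - _‖) ?_) (hc _)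
  rw [← eY, ← ex_stab hR.le (hu _ (hY m)), ← hσ _ (hY m), ExR, lmR_apply]
  congr 1
  refine sum_congr rfl fun a _ => congrArg (· • v a) ?_
  change _ = eval (m : ℝ) (∑ i, ∑ j, σ (Matrix.single i j 1) a • A i j)
  rw [Matrix.matrix_eq_sum_single (Y m), ← e]
  simp only [map_sum, Finset.sum_apply, eval_finsetSum, eval_smul, Matrix.map_apply,
    coe_evalRingHom]
  refine sum_congr rfl fun i _ => sum_congr rfl fun j _ => ?_
  rw [smul_eq_mul, mul_comm, ← smul_eq_mul, ← Pi.smul_apply, ← map_smul, Matrix.smul_single,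
    smul_eq_mul, mul_one]

theorem finR (h : MainSt) (k : ℕ) (g : Submodule ℝ (Mx d ℝ))
    (hu : ∀ X ∈ g, ∀ i j, j ≤ i → X i j = 0) (hb : ∀ X ∈ g, ∀ Y ∈ g, X * Y - Y * X ∈ g)
    {Γ : Set (Mx d ℝ)} (hΓ : Γ ⊆ NormedSpace.exp '' g)
    (cc : ∃ C, ∀ x ∈ NormedSpace.exp '' g, ∃ y ∈ Γ, ∀ i j, |(x * y : Mx d ℝ) i j| ≤ C)
    {F : Mx d ℝ → ℂ} (hF : ContinuousOn F (NormedSpace.exp '' g))
    (hi : ∀ x ∈ NormedSpace.exp '' g, ∀ y ∈ Γ, F (x * y) = F x) {ι : Type} (u : ι → ℕ → Mx d ℝ)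
    (hq : ∀ i, u i ∈ Sq (NormedSpace.exp '' g) k) {η : ℝ} (hη : 0 < η) :
    ∃ C X0 : ℝ, ∀ X ≥ X0, ∀ H : ℝ, Real.log X ^ C ≤ H → H ≤ X →
      IntervalIntegrable (V.Gen.supG (fun i m => F (u i m)) H) volume X (2 * X) ∧
        ∫ x in X..2 * X, V.Gen.supG (fun i m => F (u i m)) H x ≤ η * (H * X) := by
  have hu' : ∀ X ∈ g, Up 1 X := fun X hX i j c => hu X hX i j (Nat.le_of_lt_succ c)
  have e : NormedSpace.exp '' (g : Set (Mx d ℝ)) = ex d '' g :=
    Set.image_congr fun Y hY => exp_eq (hu' Y hY)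
  rw [e] at hF hi hΓ cc hq
  obtain ⟨s, n, F2, L, c, s1, c0, hT, hb⟩ := bridgeR k g hu' hb hΓ cc hF hi
    (show 0 < η / 4 by positivity)
  obtain ⟨C, X0, hM⟩ := h s n s1 F2 L (η / 2 / c) hT (by positivity)
  refine ⟨max C 0, max X0 (Real.exp 1), fun X hX H h1 h2 => ?_⟩
  have X1 : Real.exp 1 ≤ X := (le_max_right _ _).trans hX
  have l1 : 1 ≤ Real.log X := (Real.le_log_iff_exp_le ((Real.exp_pos 1).trans_le X1)).2 X1
  obtain ⟨a, b⟩ := transfer (fun i m => F (u i m))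
    (fun (p : n.Ph) m => F2 (PN.ev m p)) c0.le (show 0 < η / 4 by positivity) (fun _ _ => hT.bd _)
    (fun i => hb _ (hq i)) ((Real.one_le_rpow l1 (le_max_right _ _)).trans h1)
    ((Real.exp_pos 1).le.trans X1)
  have := mul_le_mul_of_nonneg_left (hM X ((le_max_left _ _).trans hX) H
    ((Real.rpow_le_rpow_of_exponent_le l1 (le_max_left _ _)).trans h1) h2) c0.le
  rw [← mul_assoc, mul_div_cancel₀ _ c0.ne'] at this
  exact ⟨a, b.trans ((add_le_add_left this _).trans_eq (by ring))⟩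

end UT

end Pool.Agent.Lib.MP_028aa5_nt.N
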