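import Pool.Agent.Lib.MP_028aa5_nt.N.UTb

/-! Sequences with a trivial iterated derivative have polynomial entries; bounded sets that cover a
compact quotient. -/

namespace Pool.Agent.Lib.MP_028aa5_nt.N

open Finset Polynomial
open scoped Classical

namespace UT

/-- sums of powers -/
theorem sum_pow (p : ℕ) : ∃ P : ℝ[X], P.natDegree ≤ p + 1 ∧
    ∀ m : ℕ, ∑ t ∈ range m, (t : ℝ) ^ p = P.eval (m : ℝ) := by
  refine ⟨C ((p + 1 : ℝ)⁻¹) * ((Polynomial.bernoulli (p + 1)).map (algebraMap ℚ ℝ) -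
    C (algebraMap ℚ ℝ (_root_.bernoulli (p + 1)))), ?_, fun m => ?_⟩
  · refine (natDegree_C_mul_le _ _).trans ((natDegree_sub_C).le.trans (natDegree_map_le.trans ?_))
    refine natDegree_le_iff_coeff_eq_zero.2 fun j hj => ?_
    rw [coeff_bernoulli, if_neg (by omega)]
  · have := congrArg (algebraMap ℚ ℝ) (sum_range_pow_eq_bernoulli_sub m p)
    simp only [map_mul, map_add, map_sum, map_pow, map_natCast, map_one, map_sub] at this
    rw [eval_mul, eval_C, eval_sub, eval_C, eq_inv_mul_iff_mul_eq₀ (by positivity), this,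
      ← map_natCast (algebraMap ℚ ℝ) m, eval_map, eval₂_at_apply]

/-- summation of a polynomial -/
theorem sum_poly {q : ℝ[X]} {k : ℕ} (h : q.natDegree ≤ k) : ∃ P : ℝ[X], P.natDegree ≤ k + 1 ∧
    ∀ m : ℕ, ∑ t ∈ range m, q.eval (t : ℝ) = P.eval (m : ℝ) := by
  choose P h1 h2 using sum_pow
  refine ⟨∑ p ∈ range (k + 1), C (q.coeff p) * P p, natDegree_sum_le_of_forall_le _ _ fun p hp =>
    (natDegree_C_mul_le _ _).trans ((h1 p).trans (mem_range.1 hp)), fun m => ?_⟩
  simp only [eval_eq_sum_range' (Nat.lt_succ_of_le h), eval_finsetSum, eval_mul, eval_C, ← h2,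
    mul_sum]
  exact sum_comm

variable {d : ℕ}

/-- the entries are polynomials of degree at most `k` -/
def Pe (k : ℕ) (u : ℕ → Mx d ℝ) : Prop :=
  ∀ i j, ∃ P : ℝ[X], P.natDegree ≤ k ∧ ∀ m : ℕ, u m i j = P.eval (m : ℝ)

theorem pe_step {k : ℕ} {u v : ℕ → Mx d ℝ} (hv : Pe k v) (h1 : ∀ m, Up 1 (v m - 1))
    (h : ∀ m, u (m + 1) = v m * u m) : Pe (d * (k + 1)) u := by
  choose Q q1 q2 using hv
  have a : ∀ r, ∀ i j : Fin d, d ≤ i + r → ∃ P : ℝ[X], P.natDegree ≤ r * (k + 1) ∧
      ∀ m : ℕ, u m i j = P.eval (m : ℝ) := by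
    intro r
    induction r with
    | zero => exact fun i _ c => absurd i.2 (by omega)
    | succ r ih =>
      intro i j c
      choose! P p1 p2 using fun l => ih l j
      obtain ⟨S, s1, s2⟩ := sum_poly (q := ∑ l with i < l, Q i l * P l) (k := r * (k + 1) + k)
        (natDegree_sum_le_of_forall_le _ _ fun l hl => natDegree_mul_le.trans (by
          have : (i : ℕ) < l := (mem_filter.1 hl).2
          have := q1 i l
          have := p1 l (by omega)
          omega))
      refine ⟨S + C (u 0 i j), (natDegree_add_C).le.trans (s1.trans (le_of_eq (by ring))),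
        fun m => ?_⟩
      rw [eval_add, eval_C, ← s2, ← sub_eq_iff_eq_add, ← sum_range_sub fun t => u t i j]
      refine sum_congr rfl fun t _ => ?_
      rw [h, ← Matrix.sub_apply, ← sub_one_mul, Matrix.mul_apply, eval_finsetSum, sum_filter]
      refine sum_congr rfl fun l _ => ?_
      split_ifs with o
      · have : (i : ℕ) < l := o
        rw [eval_mul, ← q2, ← p2 l (by omega), Matrix.sub_apply, Matrix.one_apply_ne o.ne, sub_zero]
      · rw [h1 t i l (by have : ¬(i : ℕ) < l := o; omega), zero_mul]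
  exact fun i j => a d i j (by omega)

/-- multiplicative derivative -/
def der {G : Type} [Group G] (h : ℤ) (u : ℤ → G) (n : ℤ) : G := u (n + h) * (u n)⁻¹

theorem pe_der {G : Type} [Group G] (ρ : G →* Mx d ℝ) (hρ : ∀ x, Up 1 (ρ x - 1)) (s : ℕ) :
    ∃ k, ∀ u : ℤ → G, (∀ n, (List.replicate s 1).foldl (fun v h => der h v) u n = 1) →
      Pe k fun m => ρ (u m) := by
  induction s with
  | zero =>
    refine ⟨0, fun u h i j => ⟨C ((1 : Mx d ℝ) i j), (natDegree_C _).le, fun m => ?_⟩⟩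
    have : u m = 1 := h m
    simp only [this, map_one, eval_C]
  | succ s ih =>
    obtain ⟨k, ih⟩ := ih
    refine ⟨_, fun u h => pe_step (ih (der 1 u) h) (fun m => hρ _) fun m => ?_⟩
    rw [← map_mul, der, inv_mul_cancel_right, Nat.cast_succ]

/-- a bounded set that covers a compact quotient -/
theorem cocompact {G : Type} [Group G] [TopologicalSpace G] [IsTopologicalGroup G]
    (ρ : G → Mx d ℝ) (hρ : Continuous ρ) (Γ : Subgroup G) [CompactSpace (G ⧸ Γ)] :
    ∃ C : ℝ, ∀ x, ∃ y ∈ Γ, ∀ i j, |ρ (x * y) i j| ≤ C := by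
  have c : Continuous fun x => nM (ρ x) := continuous_finsetSum _ fun i _ =>
    continuous_finsetSum _ fun j _ => (hρ.matrix_elem i j).abs
  obtain ⟨T, hT⟩ := isCompact_univ.elim_finite_subcover
    (fun r : ℕ => ((↑) : G → G ⧸ Γ) '' {x | nM (ρ x) < r})
    (fun r => QuotientGroup.isOpenMap_coe _ (isOpen_lt c continuous_const))
    fun q _ => by
      obtain ⟨x, rfl⟩ := QuotientGroup.mk_surjective q
      obtain ⟨r, hr⟩ := exists_nat_gt (nM (ρ x))
      exact Set.mem_iUnion.2 ⟨r, x, hr, rfl⟩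
  refine ⟨(T.sup id : ℕ), fun x => ?_⟩
  obtain ⟨r, hr, y, hy, e⟩ := Set.mem_iUnion₂.1 (hT (Set.mem_univ (x : G ⧸ Γ)))
  refine ⟨x⁻¹ * y, QuotientGroup.eq.1 e.symm, fun i j => ?_⟩
  rw [mul_inv_cancel_left]
  exact (le_nM _ i j).trans (hy.le.trans (Nat.cast_le.2 (le_sup (f := id) hr)))

end UT

end Pool.Agent.Lib.MP_028aa5_nt.N
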