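import Pool.Agent.Lib.MP_028aa5_nt.N.MalB
import Pool.Agent.Lib.MP_028aa5_nt.N.MalP

/-! The final statement for compact quotients and sequences adapted to a filtration. -/

namespace Pool.Agent.Lib.MP_028aa5_nt.N

open Finset Polynomial MeasureTheory
open scoped Classical

namespace UT

theorem finG (h : MainSt) {G : Type} [Group G] [TopologicalSpace G] [IsTopologicalGroup G] {d : ℕ}
    (g : Submodule ℝ (Mx d ℝ)) (hu : ∀ X ∈ g, ∀ i j, j ≤ i → X i j = 0)
    (hb : ∀ X ∈ g, ∀ Y ∈ g, X * Y - Y * X ∈ g) (ρ : G →* Mx d ℝ) (hρ : Topology.IsEmbedding ρ)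
    (hr : Set.range ρ = NormedSpace.exp '' g) (Γ : Subgroup G) [CompactSpace (G ⧸ Γ)]
    {F : G ⧸ Γ → ℂ} (hF : Continuous F) (s : ℕ) {ι : Type} (u : ι → ℤ → G)
    (hq : ∀ i n, (List.replicate s 1).foldl (fun v h => der h v) (u i) n = 1) {η : ℝ}
    (hη : 0 < η) :
    ∃ C X0 : ℝ, ∀ X ≥ X0, ∀ H : ℝ, Real.log X ^ C ≤ H → H ≤ X →
      IntervalIntegrable (V.Gen.supG (fun i m => F (u i m : G)) H) volume X (2 * X) ∧
        ∫ x in X..2 * X, V.Gen.supG (fun i m => F (u i m : G)) H x ≤ η * (H * X) := by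
  have hu' : ∀ X ∈ g, Up 1 X := fun X hX i j c => hu X hX i j (Nat.le_of_lt_succ c)
  have li : ∀ x, Function.invFun ρ (ρ x) = x := Function.leftInverse_invFun hρ.injective
  obtain ⟨k, hk⟩ := pe_der ρ (fun x => by
    obtain ⟨Y, hY, e⟩ := hr ▸ Set.mem_range_self (f := ρ) x
    rw [← e, exp_eq (hu' Y hY)]
    exact up_ex le_rfl (hu' Y hY)) s
  obtain ⟨C, cc⟩ := cocompact ρ hρ.continuous Γ
  have := finR h k g hu hb (Γ := ρ '' Γ) (hr ▸ Set.image_subset_range _ _)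
    ⟨C, hr ▸ by
      rintro _ ⟨x, rfl⟩
      obtain ⟨y, hy, c⟩ := cc x
      exact ⟨_, ⟨y, hy, rfl⟩, by rwa [← map_mul]⟩⟩
    (F := fun A => F (Function.invFun ρ A : G))
    (hr ▸ by
      rw [continuousOn_iff_continuous_domRestrict, ← hρ.toHomeomorph.comp_continuous_iff']
      convert hF.comp QuotientGroup.continuous_mk using 1
      exact funext fun x => congrArg (fun y : G => F y) (li x))
    (hr ▸ by
      rintro _ ⟨x, rfl⟩ _ ⟨y, hy, rfl⟩
      rw [← map_mul, li, li, QuotientGroup.mk_mul_of_mem x hy])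
    (fun i m => ρ (u i m)) (fun i => ⟨fun m => hr ▸ Set.mem_range_self _, hk _ (hq i)⟩) hη
  simpa only [li] using this

end UT

end Pool.Agent.Lib.MP_028aa5_nt.N
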