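import Pool.Agent.Lib.MP_028aa5_nt.N.MalA

/-! Representations by real matrices. -/

namespace Pool.Agent.Lib.MP_028aa5_nt.N

open Finset
open scoped Classical

namespace UT

variable {d s : ℕ}

/-- a representation of the algebra by strictly upper triangular real matrices -/
structure RepR (n : PN s) (v : n.I → Mx d ℝ) : Prop where
  le : d ≤ s
  up : ∀ a, Up 1 (v a)
  br : ∀ a b, cm (v a) (v b) = ∑ c, (n.k a b c : ℝ) • v c

section

variable {n : PN s}

/-- the matrix of a point of the algebra -/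
noncomputable def lmR (v : n.I → Mx d ℝ) : n.G ℝ →+ Mx d ℝ where
  toFun x := ∑ a, x a • v a
  map_zero' := by simp
  map_add' x y := by simp [add_smul, sum_add_distrib]

/-- the exponential map -/
noncomputable def ExR (v : n.I → Mx d ℝ) (x : n.G ℝ) : Mx d ℝ := ex s (lmR v x)

variable {v : n.I → Mx d ℝ}

theorem lmR_apply (x : n.G ℝ) : lmR v x = ∑ a, x a • v a := rfl

theorem RepR.up_lm (h : RepR n v) (x : n.G ℝ) : Up 1 (lmR v x) :=
  Up.sum fun a _ => (h.up a).smul _

theorem cm_sum {ι : Type} [Fintype ι] (v : ι → Mx d ℝ) (x y : ι → ℝ) :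
    cm (∑ a, x a • v a) (∑ a, y a • v a) = ∑ a, ∑ b, (x a * y b) • cm (v a) (v b) := by
  rw [cm, sum_mul_sum, sum_mul_sum, sum_comm (s := univ) (t := univ)
    (f := fun b a => y b • v b * x a • v a), ← sum_sub_distrib]
  refine sum_congr rfl fun a _ => ?_
  rw [← sum_sub_distrib]
  refine sum_congr rfl fun b _ => ?_
  rw [smul_mul_smul_comm, smul_mul_smul_comm, cm, smul_sub, mul_comm (y b)]

theorem RepR.lm_br (h : RepR n v) (x y : n.G ℝ) : lmR v (n.br x y) = cm (lmR v x) (lmR v y) := by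
  refine Eq.trans ?_ (cm_sum v x y).symm
  rw [lmR_apply]
  simp only [h.br, PN.br, sum_smul, smul_sum, smul_smul]
  rw [sum_comm]
  refine sum_congr rfl fun a _ => ?_
  rw [sum_comm]
  exact sum_congr rfl fun b _ => sum_congr rfl fun c _ => by rw [mul_comm]

theorem RepR.Ex_mul (h : RepR n v) (x y : n.G ℝ) : ExR v (x * y) = ExR v x * ExR v y := by
  rw [ExR, ExR, ExR, ← (good_cb s).2.1 _ (lmR v x) (lmR v y) fun l hl hn => ?_]
  · exact congrArg _ (map_bp (lmR v) h.lm_br _ x y)
  · refine (up_prod l fun u hu => ?_).eq_zero (by have := h.le; omega)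
    rcases hl u hu with rfl | rfl <;> exact h.up_lm _

theorem RepR.Ex_one (h : RepR n v) : ExR v (1 : n.G ℝ) = 1 := by
  rw [ExR, PN.one_def, map_zero, ex_zero h.le]

end

variable {n : NS s} {v : n.I → Mx d ℝ}

theorem cont_ExR (v : n.I → Mx d ℝ) : Continuous fun x : n.I → ℝ => ExR (n := n.toPN) v x := by
  have : Continuous fun x : n.I → ℝ => lmR (n := n.toPN) v x :=
    continuous_finsetSum _ fun a _ => (continuous_apply a).smul continuous_const
  simp only [ExR, ex, ← Rat.cast_smul_eq_qsmul ℝ]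
  exact continuous_finsetSum _ fun i _ =>
    ((this.pow i).const_smul (((i.factorial : ℚ)⁻¹ : ℚ) : ℝ)).congr fun _ => rfl

/-- a continuous function on the matrix group is nearly a multiple of a test function -/
theorem RepR.approx (h : RepR n.toPN v) {G : Set (Mx d ℝ)}
    (hm : ∀ x : n.G ℝ, ExR v x ∈ G) {F : Mx d ℝ → ℂ} (hF : ContinuousOn F G)
    (hi : ∀ x : n.G ℝ, ∀ γ ∈ n.Gam, F (ExR v x * ExR v γ) = F (ExR v x)) {ε : ℝ} (hε : 0 < ε) :
    ∃ (F2 : n.G ℝ → ℂ) (L c : ℝ), 0 < c ∧ n.Test F2 L ∧ ∀ x, ‖F (ExR v x) - c * F2 x‖ ≤ ε := by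
  obtain ⟨C, fd⟩ := n.fd
  have inv : ∀ x : n.G ℝ, ∀ γ ∈ n.Gam, F (ExR v (x * γ)) = F (ExR v x) := fun x γ hγ => by
    rw [h.Ex_mul, hi x γ hγ]
  let K : Set (n.I → ℝ) := Metric.closedBall 0 |C|
  have hK : IsCompact K := isCompact_closedBall _ _
  have mK : ∀ x : n.G ℝ, PN.nG x ≤ C → x ∈ K := fun x hx =>
    mem_closedBall_zero_iff.2 ((pi_norm_le_iff_of_nonneg (abs_nonneg C)).2 fun a =>
      (single_le_sum (f := fun a => |x a|) (fun _ _ => abs_nonneg _) (mem_univ a)).trans
        (hx.trans (le_abs_self C)))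
  let G' : Set (Fin d → Fin d → ℝ) := G
  let e : (n.I → ℝ) → G' := fun x => ⟨ExR (n := n.toPN) v x, hm x⟩
  have ce : Continuous e := (cont_ExR v).subtype_mk _
  have cF : Continuous fun y : G' => F y.1 := hF.domRestrict
  obtain ⟨B, hB⟩ := hK.exists_bound_of_continuousOn (cF.comp ce).continuousOn
  obtain ⟨B', hB'⟩ := hK.exists_bound_of_continuousOn (f := fun x => nM (ExR (n := n.toPN) v x))
    (continuous_finsetSum _ fun i _ => continuous_finsetSum _ fun j _ =>
      ((cont_ExR v).matrix_elem i j).abs).continuousOn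
  obtain ⟨δ, d0, hδ⟩ := Metric.mem_uniformity_dist.1
    ((hK.image ce).uniformContinuousAt_of_continuousAt (fun y : G' => F y.1)
      (fun _ _ => cF.continuousAt) (Metric.dist_mem_uniformity (half_pos hε)))
  have p0 : ∀ u : n.G ℝ, 0 < 1 + nM (ExR v u - 1) := fun u => by
    have := nM_nonneg (ExR v u - 1)
    linarith
  have b0 : 0 < |B'| + 1 := by positivity
  obtain ⟨F2, L, c, c0, hT, hc⟩ := test_approx n (fun x => F (ExR v x))
    (fun u => Real.log (1 + nM (ExR v u - 1))) (C := ∑ a, nM (v a)) (B := B) (ε := ε / 2)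
    (δ := Real.log (1 + δ / (|B'| + 1)))
    (fun u => Real.log_nonneg (by linarith [nM_nonneg (ExR v u - 1)]))
    (by rw [h.Ex_one, sub_self, nM_zero, add_zero, Real.log_one])
    (fun u w => by
      rw [← Real.log_mul (p0 u).ne' (p0 w).ne', h.Ex_mul]
      exact Real.log_le_log (h.Ex_mul u w ▸ p0 (u * w)) (nM_mul_sub _ _))
    (fun u => by
      refine ((Real.log_le_iff_le_exp (p0 u)).2 (nM_ex s _)).trans ((nM_sum _ _).trans ?_)
      rw [sum_mul]
      refine sum_le_sum fun a _ => ?_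
      rw [nM_smul, mul_comm]
      exact mul_le_mul_of_nonneg_left (single_le_sum (f := fun a => |u a|)
        (fun _ _ => abs_nonneg _) (mem_univ a)) (nM_nonneg _))
    (fun x => by
      obtain ⟨γ, hγ, hx⟩ := fd x
      rw [← inv x γ hγ]
      exact hB _ (mK _ hx))
    inv (half_pos hε).le (Real.log_pos (by have := div_pos d0 b0; linarith))
    (fun u x hu => by
      obtain ⟨γ, hγ, hx⟩ := fd x
      rw [← inv x γ hγ, ← inv (u * x) γ hγ, mul_assoc, ← dist_eq_norm, dist_comm]
      refine (hδ (a := e (x * γ)) (b := e (u * (x * γ))) ?_ ⟨_, mK _ hx, rfl⟩).le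
      have a1 : nM (ExR v u - 1) < δ / (|B'| + 1) := by
        have := (Real.log_lt_log_iff (p0 u) (by have := div_pos d0 b0; linarith)).1 hu
        linarith
      have a2 : nM (ExR v (x * γ)) ≤ |B'| + 1 := by
        have := (le_abs_self _).trans ((hB' _ (mK _ hx)).trans (le_abs_self B'))
        linarith
      have a3 : nM (ExR v (u * (x * γ)) - ExR v (x * γ)) < δ := by
        rw [h.Ex_mul u, ← sub_one_mul]
        refine (nM_mul _ _).trans_lt ((mul_le_mul_of_nonneg_left a2 (nM_nonneg _)).trans_lt ?_)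
        exact (lt_div_iff₀ b0).1 a1
      rw [Subtype.dist_eq, dist_comm]
      exact (dist_pi_lt_iff d0).2 fun i => (dist_pi_lt_iff d0).2 fun j =>
        (le_nM (ExR v (u * (x * γ)) - ExR v (x * γ)) i j).trans_lt a3)
  exact ⟨F2, L, c, c0, hT, fun x => (hc x).trans (by linarith)⟩

end UT

end Pool.Agent.Lib.MP_028aa5_nt.N
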