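import Pool.Agent.Lib.MP_028aa5_nt.N.ConA
import Pool.Agent.Lib.MP_028aa5_nt.N.Bil

/-! Filtered subalgebras and quotients; pullback of test functions. -/

namespace Pool.Agent.Lib.MP_028aa5_nt.N.Fc

open Finset Module Polynomial
open scoped Classical

variable {s : ℕ}

instance (n : PN s) : FiniteDimensional ℚ (n.G ℚ) := inferInstanceAs (FiniteDimensional ℚ (n.I → ℚ))

/-- the bracket as a bilinear map -/
noncomputable def brL (n : PN s) : n.G ℚ →ₗ[ℚ] n.G ℚ →ₗ[ℚ] n.G ℚ :=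
  LinearMap.mk₂ ℚ n.br n.br_add_left n.br_smul_left n.br_add_right n.br_smul_right

/-- a coordinate -/
def cd (n : PN s) (a : n.I) : n.G ℚ →ₗ[ℚ] ℚ := LinearMap.proj (R := ℚ) (φ := fun _ => ℚ) a

/-- a basis vector -/
noncomputable def bv (n : PN s) (c : n.I) : n.G ℚ := fun j => if c = j then 1 else 0

/-- the filtration -/
def FilQ (n : PN s) (j : ℕ) : Submodule ℚ (n.G ℚ) where
  carrier := {x | n.Ag j x 0}
  zero_mem' := PN.Ag.refl _ _
  add_mem' {x y} hx hy a ha := by simp [hx a ha, hy a ha]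
  smul_mem' t x hx a ha := by simp [hx a ha]

theorem mem_FilQ {n : PN s} {j : ℕ} {x : n.G ℚ} : x ∈ FilQ n j ↔ n.Ag j x 0 := Iff.rfl

theorem bv_mem (n : PN s) (c : n.I) : bv n c ∈ FilQ n (n.wt c) := fun a ha =>
  if_neg fun h => by rw [h] at ha; exact lt_irrefl _ ha

theorem FilQ_top (n : PN s) {x : n.G ℚ} (h : x ∈ FilQ n (s + 1)) : x = 0 := PN.Ag.eq h

theorem rank_FilQ (n : PN s) (j : ℕ) : finrank ℚ (FilQ n j) = #{a | j ≤ n.wt a} := by
  let f := LinearMap.funLeft ℚ ℚ (Subtype.val : {a // n.wt a < j} → n.I)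
  have h1 := LinearMap.finrank_range_add_finrank_ker f
  rw [LinearMap.range_eq_top.2 (LinearMap.funLeft_surjective_of_injective _ _ _
    Subtype.val_injective), finrank_top, finrank_fintype_fun_eq_card,
    finrank_fintype_fun_eq_card, Fintype.card_subtype] at h1
  have h2 : finrank ℚ (LinearMap.ker f) = finrank ℚ (FilQ n j) := by
    have : LinearMap.ker f = FilQ n j := Submodule.ext fun x =>
      ⟨fun h a ha => congrFun h ⟨a, ha⟩, fun h => funext fun a => h a.1 a.2⟩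
    rw [this]
    rfl
  have h3 := card_filter_add_card_filter_not (s := (univ : Finset n.I)) fun a => n.wt a < j
  simp only [not_lt, card_univ] at h3
  omega

theorem tw_eq (n : PN s) : n.tw = ∑ j ∈ Icc 1 s, #{a | j ≤ n.wt a} := by
  simp only [card_filter]
  rw [sum_comm]
  refine sum_congr rfl fun a _ => ?_
  rw [← card_filter]
  have := n.ws a
  have e : ({j ∈ Icc 1 s | j ≤ n.wt a} : Finset ℕ) = Icc 1 (n.wt a) := by
    ext j
    simp only [mem_filter, mem_Icc]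
    omega
  simp [e]

theorem tw_lt {n n' : PN s} (h : ∀ j, 1 ≤ j → j ≤ s → #{a | j ≤ n'.wt a} ≤ #{a | j ≤ n.wt a})
    {i : ℕ} (h1 : 1 ≤ i) (h2 : i ≤ s) (h3 : #{a | i ≤ n'.wt a} < #{a | i ≤ n.wt a}) :
    n'.tw < n.tw := by
  rw [tw_eq, tw_eq]
  exact sum_lt_sum (fun j hj => h j (mem_Icc.1 hj).1 (mem_Icc.1 hj).2) ⟨i, mem_Icc.2 ⟨h1, h2⟩, h3⟩

theorem cnt (n : PN s) (d : ℕ → ℕ) (h : ∀ i, 1 ≤ i → i ≤ s → #{a | n.wt a = i} + d (i + 1) = d i)
    (j : ℕ) (h1 : 1 ≤ j) (h2 : j ≤ s + 1) : #{a | j ≤ n.wt a} + d (s + 1) = d j := by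
  induction h2 using Nat.decreasingInduction with
  | self =>
    rw [filter_false_of_mem fun a _ => by have := n.ws a; omega]
    simp
  | of_succ j hj ih =>
    have e : (univ.filter fun a => j ≤ n.wt a) =
        (univ.filter fun a => n.wt a = j) ∪ univ.filter fun a => j + 1 ≤ n.wt a := by
      ext a
      simp only [mem_filter, mem_union, mem_univ, true_and]
      omega
    rw [e, card_union_of_disjoint (disjoint_filter.2 fun a _ => by omega), add_assoc,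
      ih (by omega), h j h1 (by omega)]

section

variable {n n' : PN s}

theorem lin_apply (A : n'.I → n.I → ℚ) {R : Type} [CommRing R] [Algebra ℚ R] (x : n'.G R)
    (c : n.I) : Mor.lin A R x c = ∑ a, A a c • x a := rfl

theorem lin_Q (A : n'.I → n.G ℚ) (x : n'.G ℚ) : Mor.lin (n := n) A ℚ x = ∑ a, x a • A a := by
  ext c
  rw [PN.sum_apply]
  exact sum_congr rfl fun a _ => mul_comm _ _

theorem lin_bv (A : n'.I → n.G ℚ) (a : n'.I) : Mor.lin (n := n) A ℚ (bv n' a) = A a := by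
  simp [lin_Q, bv]

/-- rational functionals commute with rational matrices -/
theorem lin_mu (A : n'.I → n.I → ℚ) {R R' : Type} [CommRing R] [Algebra ℚ R] [CommRing R']
    [Algebra ℚ R'] (μ : R →ₗ[ℚ] R') (x : n'.G R) (c : n.I) :
    μ (Mor.lin A R x c) = Mor.lin A R' (fun a => μ (x a)) c := by
  rw [lin_apply, map_sum]
  exact sum_congr rfl fun a _ => map_smul _ _ _

theorem eq_of_mu {R : Type} [CommRing R] [Algebra ℚ R] {u v : R}
    (h : ∀ μ : R →ₗ[ℚ] ℚ, μ u = μ v) : u = v :=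
  sub_eq_zero.1 ((Module.forall_dual_apply_eq_zero_iff ℚ _).1 fun μ => by
    rw [map_sub, sub_eq_zero]; exact h μ)

theorem nG_lin (A : n'.I → n.I → ℚ) (x : n'.G ℝ) :
    PN.nG (Mor.lin A ℝ x) ≤ (∑ c, ∑ a, |(A a c : ℝ)|) * PN.nG x := by
  rw [PN.nG, sum_mul]
  refine sum_le_sum fun c _ => (abs_sum_le_sum_abs _ _).trans ?_
  rw [sum_mul]
  refine sum_le_sum fun a _ => ?_
  rw [Rat.smul_def, abs_mul]
  exact mul_le_mul_of_nonneg_left (PN.le_l1 sn_abs x a) (abs_nonneg _)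

end

/-- the constructor inside a given algebra -/
theorem con2 (n : PN s) (W : ℕ → Submodule ℚ (n.G ℚ)) (hm : ∀ i, 1 ≤ i → i ≤ s → W (i + 1) ≤ W i)
    (hb : ∀ i j, 1 ≤ i → 1 ≤ j → i ≤ s → j ≤ s + 1 → ∀ x ∈ W i, ∀ y ∈ W j,
      n.br x y ∈ W (min (i + j) (s + 1))) {D : ℕ} (hD : 1 ≤ D) :
    ∃ (n' : NS s) (A : n'.I → n.G ℚ) (B : n.I → n'.G ℚ), (∀ a, A a ∈ W (n'.wt a)) ∧
      (∀ a i, n'.wt a < i → i ≤ s + 1 → ∀ x ∈ W i, Mor.lin (n := n'.toPN) B ℚ x a = 0) ∧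
      (∀ a, Mor.lin (n := n'.toPN) B ℚ (A a) = bv _ a) ∧
      (∀ x ∈ W 1, x - Mor.lin (n := n) A ℚ (Mor.lin (n := n'.toPN) B ℚ x) ∈ W (s + 1)) ∧
      (∀ a b c, (n'.k a b c : ℚ) = Mor.lin (n := n'.toPN) B ℚ (n.br (A a) (A b)) c) ∧
      (∀ a c, ∃ z : ℤ, A a c = D * z) ∧
      ∀ j, 1 ≤ j → j ≤ s + 1 → #{a | j ≤ n'.wt a} + finrank ℚ (W (s + 1)) = finrank ℚ (W j) := by
  obtain ⟨n', v, l, h1, h2, h3, h4, h5, h6, h7⟩ := Con.con s (brL n) W hm
    (fun x _ y _ => by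
      show n.br x y + n.br y x ∈ _
      rw [n.br_anti x y, neg_add_cancel]
      exact zero_mem _)
    (fun x _ y _ z _ => by
      show n.br x (n.br y z) + n.br y (n.br z x) + n.br z (n.br x y) ∈ _
      rw [n.br_jac]
      exact zero_mem _) hb (cd n) hD
  have e : ∀ x a, Mor.lin (n := n'.toPN) (fun c a => l a (bv n c)) ℚ x a = l a x := fun x a => by
    refine Eq.trans ?_ (LinearMap.pi_apply_eq_sum_univ (l a) x).symm
    exact sum_congr rfl fun c _ => mul_comm _ _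
  refine ⟨n', v, fun c a => l a (bv n c), h1, fun a i a1 a2 x hx => ?_, fun a => ?_,
    fun x hx => ?_, fun a b c => ?_, h6, cnt n'.toPN (fun i => finrank ℚ (W i)) h7⟩
  · rw [e, h2 a i a1 a2 x hx]
  · ext b
    rw [e, h3, bv]
    simp only [eq_comm]
  · have := lin_Q v (Mor.lin (n := n'.toPN) (fun c a => l a (bv n c)) ℚ x)
    simp only [e] at this
    exact this ▸ h4 x hx
  · rw [e, h5]
    rfl

theorem lin_lin {n n' : PN s} {A : n'.I → n.G ℚ} {B : n.I → n'.G ℚ}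
    (h : ∀ a, Mor.lin (n := n') B ℚ (A a) = bv _ a) (R : Type) [CommRing R] [Algebra ℚ R]
    (y : n'.G R) : Mor.lin (n := n') B R (Mor.lin (n := n) A R y) = y := by
  ext a
  refine eq_of_mu fun μ => ?_
  have : ((fun c => μ (Mor.lin (n := n) A R y c)) : n.G ℚ) = ∑ a, μ (y a) • A a :=
    (funext fun c => lin_mu _ μ y c).trans (lin_Q A fun a => μ (y a))
  refine (lin_mu B μ _ a).trans ((congrArg (fun x => Mor.lin (n := n') B ℚ x a) this).trans ?_)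
  show Mor.lin (n := n') B ℚ _ a = _
  rw [map_sum, PN.sum_apply]
  simp [map_rat_smul, h, bv]

/-- the subalgebra with a given filtration -/
theorem sub (n : PN s) (W : ℕ → Submodule ℚ (n.G ℚ)) (hm : ∀ i, 1 ≤ i → i ≤ s → W (i + 1) ≤ W i)
    (hf : ∀ i, 1 ≤ i → i ≤ s + 1 → W i ≤ FilQ n i)
    (hb : ∀ i j, 1 ≤ i → 1 ≤ j → i + j ≤ s → ∀ x ∈ W i, ∀ y ∈ W j, n.br x y ∈ W (i + j))
    {D : ℕ} (hD : 1 ≤ D) :
    ∃ (n' : NS s) (φ : Mor n'.toPN n) (B : n.I → n'.G ℚ), φ.Dv D ∧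
      (∀ a, φ.app ℚ (bv _ a) ∈ W (n'.wt a)) ∧
      (∀ (R : Type) [CommRing R] [Algebra ℚ R] (y : n'.G R),
        Mor.lin (n := n'.toPN) B R (φ.app R y) = y) ∧
      (∀ (R : Type) [CommRing R] [Algebra ℚ R] (x : n.G R),
        (∀ μ : R →ₗ[ℚ] ℚ, (fun c => μ (x c) : n.G ℚ) ∈ W 1) →
          φ.app R (Mor.lin (n := n'.toPN) B R x) = x) ∧
      (∀ g : n.Ph, (∀ (μ : ℝ →ₗ[ℚ] ℚ) j, j ≤ s → (fun c => μ (PN.co g c j) : n.G ℚ) ∈ W (max j 1)) →
        ∃ g' : n'.Ph, φ.ph g' = g ∧ ∀ a j, PN.co g' a j = ∑ c, B c a • PN.co g c j) ∧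
      ∀ j, 1 ≤ j → j ≤ s + 1 → #{a | j ≤ n'.wt a} = finrank ℚ (W j) := by
  have top : ∀ x ∈ W (s + 1), x = 0 := fun x hx => FilQ_top n (hf _ (by omega) le_rfl hx)
  have le1 : ∀ i, 1 ≤ i → i ≤ s + 1 → W i ≤ W 1 := fun i a b => by
    induction i, a using Nat.le_induction with
    | base => exact le_rfl
    | succ i a ih => exact (hm i a (by omega)).trans (ih (by omega))
  obtain ⟨n', A, B, h1, h2, h3, h4, h5, h6, h7⟩ := con2 n W hm (fun i j a b c d x hx y hy => by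
    by_cases e : i + j ≤ s
    · rw [min_eq_left (by omega)]
      exact hb i j a b e x hx y hy
    · rw [((PN.ag_br (hf i a (by omega) hx) (hf j b d hy)).mono (by omega)).eq]
      exact zero_mem _) hD
  have h8 : ∀ x ∈ W 1, Mor.lin (n := n) A ℚ (Mor.lin (n := n'.toPN) B ℚ x) = x := fun x hx =>
    (sub_eq_zero.1 (top _ (h4 x hx))).symm
  have hA : ∀ a, n.Ag (n'.wt a) (A a) 0 := fun a =>
    hf _ (n'.w1 a) (by have := n'.ws a; omega) (h1 a)
  let φ : Mor n'.toPN n :=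
    { A := A
      fil := fun a c h => not_lt.1 fun u => h (hA a c u)
      hom := fun a b u => by
        have m : n.br (A a) (A b) ∈ W 1 := by
          by_cases e : n'.wt a + n'.wt b ≤ s
          · exact le1 _ (by have := n'.w1 a; omega) (by omega)
              (hb _ _ (n'.w1 a) (n'.w1 b) e _ (h1 a) _ (h1 b))
          · rw [((PN.ag_br (hA a) (hA b)).mono (by omega)).eq]
            exact zero_mem _
        have := congrFun (h8 _ m) u
        simp only [h5]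
        exact (sum_congr rfl fun c _ => mul_comm _ _).trans (this.trans
          (sum_congr rfl fun c _ => sum_congr rfl fun d _ => mul_comm _ _)) }
  have h9 : ∀ (R : Type) [CommRing R] [Algebra ℚ R] (x : n.G R),
      (∀ μ : R →ₗ[ℚ] ℚ, (fun c => μ (x c) : n.G ℚ) ∈ W 1) →
        φ.app R (Mor.lin (n := n'.toPN) B R x) = x := fun R _ _ x hx => by
    ext c
    refine eq_of_mu fun μ => ?_
    have : (fun a => μ (Mor.lin (n := n'.toPN) B R x a)) =
        Mor.lin (n := n'.toPN) B ℚ fun c => μ (x c) := funext fun a => lin_mu _ μ x a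
    refine (lin_mu A μ _ c).trans ?_
    rw [this]
    exact congrFun (h8 _ (hx μ)) c
  refine ⟨n', φ, B, h6, fun a => ?_, lin_lin h3, h9, fun g hg => ?_, fun j a b => ?_⟩
  · exact (lin_bv A a).symm ▸ h1 a
  · have z : ∀ c j, s < j → PN.co g c j = 0 := fun c j h =>
      coeff_eq_zero_of_natDegree_lt (((n.mem_P.1 g.2 c).trans (n.ws c)).trans_lt h)
    have e : ∀ a j, (Mor.lin (n := n'.toPN) B ℝ[X] g.1 a).coeff j =
        Mor.lin (n := n'.toPN) B ℝ (fun c => PN.co g c j) a := fun a j =>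
      lin_mu B ((lcoeff ℝ j).restrictScalars ℚ) g.1 a
    refine ⟨⟨Mor.lin (n := n'.toPN) B ℝ[X] g.1, n'.mem_P.2 fun a => ?_⟩,
      Subtype.ext (funext fun c => Polynomial.ext fun j => ?_), e⟩
    · refine natDegree_le_iff_coeff_eq_zero.2 fun j hj => (e a j).trans ?_
      by_cases c : s < j
      · exact sum_eq_zero fun u _ => by simp only [z _ _ c, smul_zero]
      · refine eq_of_mu fun μ => (lin_mu B μ _ a).trans ?_
        rw [map_zero]
        exact h2 a _ (by omega) (by omega) _ (hg μ j (by omega))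
    · refine (lin_mu A ((lcoeff ℝ j).restrictScalars ℚ) _ c).trans ?_
      refine Eq.trans ?_ (congrFun (h9 ℝ (fun c => PN.co g c j) fun μ => ?_) c)
      · exact congrArg (fun y => Mor.lin (n := n) A ℝ y c) (funext fun a => e a j)
      · by_cases c : s < j
        · simp only [z _ _ c, map_zero]
          exact zero_mem _
        · exact le1 _ (by omega) (by omega) (hg μ j (by omega))
  · rw [← h7 j a b, show W (s + 1) = ⊥ from eq_bot_iff.2 top, finrank_bot, add_zero]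

theorem mem_GamQ {n : NS s} {q : ℕ} {x : n.G ℝ} :
    x ∈ n.GamQ q ↔ ∀ a, x a ∈ mulz ((q : ℝ) ^ n.wt a)⁻¹ := Iff.rfl

theorem mem_mulz {r x : ℝ} : x ∈ mulz r ↔ ∃ z : ℤ, x = z * r :=
  AddSubgroup.mem_zmultiples_iff.trans (by simp [eq_comm])

theorem mem_Gam {n : NS s} {x : n.G ℝ} : x ∈ n.Gam ↔ ∀ a, ∃ z : ℤ, x a = z :=
  forall_congr' fun a => mem_mulz.trans (by simp)

/-- conjugation preserves a family that absorbs the brackets -/
theorem conj_fam (n : NS s) {R : Type} [CommRing R] [Algebra ℚ R] (S S' : n.I → AddSubgroup R)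
    (hl : ∀ a, S' a ≤ S a) (hS : ∀ a b c, n.k a b c ≠ 0 → ∀ u ∈ S a, ∀ v ∈ S b, u * v ∈ S c)
    (h : ∀ a b c, n.k a b c ≠ 0 → ∀ u ∈ S a, ∀ v ∈ S' b, u * v ∈ S' c) {σ x : n.G R}
    (hσ : ∀ a, σ a ∈ S a) (hx : ∀ a, x a ∈ S' a) (a : n.I) : (σ⁻¹ * (x * σ)) a ∈ S' a := by
  have hx' : ∀ a, x a ∈ S a := fun a => hl a (hx a)
  have h1 : ∀ a, (x * σ - σ) a ∈ S' a := fun a => by
    obtain ⟨u, hu, e⟩ := n.br_fam S S' S' h hσ hx
    have := (S' a).add_mem (n.mul_sub_fam S S' h hx' hσ ⟨-u, fun a => (S' a).neg_mem (hu a), by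
      rw [n.br_anti, e, smul_neg]⟩ a) (hx a)
    convert this using 1
    rw [PN.sub_apply]
    ring
  have hi : ∀ a, σ⁻¹ a ∈ S a := fun a => (S a).neg_mem (hσ a)
  have h2 := n.br_fam S S' S' h hi h1
  rw [n.br_sub_right, show n.br σ⁻¹ σ = 0 by rw [PN.inv_def, n.br_neg_left, n.br_self, neg_zero],
    sub_zero] at h2
  have := (S' a).add_mem (n.mul_sub_fam S S' h hi ((n.fam S hS).mul_mem hx' hσ) h2 a) (h1 a)
  convert this using 1
  rw [PN.sub_apply, PN.inv_def, PN.neg_apply]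
  ring

theorem conj_GamQ (n : NS s) {q : ℕ} (hq : 1 ≤ q) {σ x : n.G ℝ} (hσ : σ ∈ n.GamQ q)
    (hx : ∀ a, ∃ z : ℤ, x a = (q ^ s : ℕ) * z) : σ⁻¹ * (x * σ) ∈ n.Gam := by
  have q0 : (q : ℝ) ≠ 0 := by positivity
  have p : ∀ a b c, n.k a b c ≠ 0 → ∀ r : ℝ, ∀ u ∈ mulz ((q : ℝ) ^ n.wt a)⁻¹,
      ∀ v ∈ mulz (r * ((q : ℝ) ^ n.wt b)⁻¹), u * v ∈ mulz (r * ((q : ℝ) ^ n.wt c)⁻¹) := by
    intro a b c k r u hu v hv
    obtain ⟨z, rfl⟩ := mem_mulz.1 hu
    obtain ⟨z', rfl⟩ := mem_mulz.1 hv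
    refine mem_mulz.2 ⟨z * z' * (q ^ (n.wt c - (n.wt a + n.wt b)) : ℕ), ?_⟩
    have := inv_pow_mul (q := q) (n.fil a b c k) (n.w1 a)
    simp only [Int.cast_mul]
    linear_combination (z * z' * r : ℝ) * this
  have h1 : ∀ a, mulz (q ^ s * ((q : ℝ) ^ n.wt a)⁻¹) ≤ mulz ((q : ℝ) ^ n.wt a)⁻¹ := fun a u hu => by
    obtain ⟨z, rfl⟩ := mem_mulz.1 hu
    exact mem_mulz.2 ⟨z * q ^ s, by push_cast; ring⟩
  have h2 : ∀ a, x a ∈ mulz (q ^ s * ((q : ℝ) ^ n.wt a)⁻¹) := fun a => by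
    obtain ⟨z, hz⟩ := hx a
    refine mem_mulz.2 ⟨z * q ^ n.wt a, ?_⟩
    rw [hz]
    push_cast
    field_simp
  refine mem_Gam.2 fun a => ?_
  obtain ⟨z, hz⟩ := mem_mulz.1 (conj_fam n (fun a => mulz ((q : ℝ) ^ n.wt a)⁻¹)
    (fun a => mulz (q ^ s * ((q : ℝ) ^ n.wt a)⁻¹)) h1
    (fun a b c k u hu v hv => by simpa using p a b c k 1 u hu v (by simpa using hv))
    (fun a b c k => p a b c k _) hσ h2 a)
  obtain ⟨d, hd⟩ := Nat.exists_eq_add_of_le (n.ws a)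
  refine ⟨z * q ^ d, hz.trans ?_⟩
  rw [congrArg (fun e => (q : ℝ) ^ e) hd]
  push_cast
  field_simp
  ring

theorem lin_dv {n n' : NS s} {A : n'.I → n.I → ℚ} {D : ℕ} (h : ∀ a c, ∃ z : ℤ, A a c = D * z)
    {y : n'.G ℝ} (hy : y ∈ n'.Gam) (c : n.I) :
    ∃ z : ℤ, Mor.lin (n' := n'.toPN) (n := n.toPN) A ℝ y c = D * z := by
  choose z hz using h
  choose u hu using mem_Gam.1 hy
  refine ⟨∑ a, z a c * u a, ?_⟩
  rw [lin_apply]
  push_cast
  rw [mul_sum]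
  refine sum_congr rfl fun a _ => ?_
  rw [hz, hu, Rat.smul_def]
  push_cast
  ring

theorem test_nonneg {n : NS s} {F : n.G ℝ → ℂ} {L : ℝ} (h : n.Test F L) (a : n.I) : 0 ≤ L := by
  have h1 := (norm_nonneg _).trans (h.lip (fun _ => 1) 1)
  have h2 : (0 : ℝ) < PN.nG (n := n.toPN) fun _ => 1 :=
    sum_pos (fun _ _ => by simp) ⟨a, mem_univ a⟩
  exact nonneg_of_mul_nonneg_left h1 h2

/-- pullback of a test function -/
theorem test_pull {n n' : NS s} (φ : Mor n'.toPN n.toPN) {q : ℕ} (hq : 1 ≤ q) (h : φ.Dv (q ^ s))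
    (W : ℝ) : ∃ C : ℝ, 0 ≤ C ∧ ∀ F L w σ, 0 ≤ L → n.Test F L → PN.nG w ≤ W → σ ∈ n.GamQ q →
      n'.Test (fun y => F (w * φ.app ℝ y * σ)) (C * L) := by
  have c1 := PN.one_le_cB (n := n.toPN)
  refine ⟨n.cB * (1 + |W|) ^ s * ∑ c, ∑ a, |(φ.A a c : ℝ)|, by positivity,
    fun F L w σ L0 hF hw hσ => ⟨fun y => hF.bd _, fun y γ hγ => ?_, fun u y => ?_⟩⟩
  · rw [← hF.inv (w * φ.app ℝ y * σ) _ (conj_GamQ n hq hσ (lin_dv h hγ)), map_mul]
    congr 1
    show _ = w * φ.app ℝ y * σ * (σ⁻¹ * (φ.app ℝ γ * σ))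
    group
  · have e : w * φ.app ℝ (u * y) * σ = w * φ.app ℝ u * w⁻¹ * (w * φ.app ℝ y * σ) := by
      rw [map_mul]
      group
    rw [e]
    refine (hF.lip _ _).trans ?_
    rw [mul_right_comm, mul_comm]
    refine mul_le_mul_of_nonneg_right ((PN.nG_conj _ _).trans ?_) L0
    have := PN.nG_nonneg w
    have := PN.nG_nonneg (φ.app ℝ u)
    rw [mul_assoc _ _ (PN.nG u)]
    refine mul_le_mul ?_ (nG_lin φ.A u) this (by positivity)
    gcongr
    exact hw.trans (le_abs_self W)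

end Pool.Agent.Lib.MP_028aa5_nt.N.Fc
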