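import Pool.Agent.Lib.MP_028aa5_nt.N.StW
import Pool.Agent.Lib.MP_028aa5_nt.N.Split
import Pool.Agent.Lib.MP_028aa5_nt.N.Rat
import Pool.Agent.Lib.MP_028aa5_nt.N.Cov
import Pool.Agent.Lib.MP_028aa5_nt.N.Mov

/-! Morphisms and similar phases. -/

namespace Pool.Agent.Lib.MP_028aa5_nt.N.W2

open Finset Polynomial
open scoped Classical

variable {s : ℕ}

section
variable {n'' n' n : PN s}

/-- a morphism from a matrix that respects the bracket of rational points -/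
noncomputable def ofBr (A : n'.I → n.I → ℚ)
    (h : ∀ x y : n'.G ℚ, Mor.lin A ℚ (n'.br x y) = n.br (Mor.lin A ℚ x) (Mor.lin A ℚ y))
    (hf : ∀ a c, A a c ≠ 0 → n'.wt a ≤ n.wt c) : Mor n' n where
  A := A
  fil := hf
  hom a b u := by
    have := congrFun (h (Pi.single a 1 : n'.I → ℚ) (Pi.single b 1 : n'.I → ℚ)) u
    simp only [Mor.lin, AddMonoidHom.coe_mk, ZeroHom.coe_mk, PN.br, Pi.single_apply, smul_eq_mul,
      mul_ite, ite_mul, mul_one, mul_zero, zero_mul, sum_ite_eq', mem_univ, if_true,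
      sum_ite_irrel, sum_const_zero, Int.cast_id] at this
    simp only [mul_comm (n'.k _ _ _ : ℚ), this]
    exact sum_congr rfl fun c _ => sum_congr rfl fun d _ => mul_comm _ _

theorem lin_lin (A : n''.I → n'.I → ℚ) (B : n'.I → n.I → ℚ) {R : Type} [CommRing R] [Algebra ℚ R]
    (x : n''.G R) : Mor.lin (fun a c => ∑ b, A a b * B b c) R x = Mor.lin B R (Mor.lin A R x) := by
  funext c
  simp only [Mor.lin, AddMonoidHom.coe_mk, ZeroHom.coe_mk, sum_smul, smul_sum, smul_smul]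
  rw [sum_comm]
  simp only [mul_comm]

/-- composition -/
noncomputable def comp (φ : Mor n'' n') (ψ : Mor n' n) : Mor n'' n :=
  ofBr (fun a c => ∑ b, φ.A a b * ψ.A b c)
    (fun x y => by simp only [lin_lin, Mor.lin_br]) fun a c h => by
      obtain ⟨b, -, hb⟩ := exists_ne_zero_of_sum_ne_zero h
      exact (φ.fil a b (left_ne_zero_of_mul hb)).trans (ψ.fil b c (right_ne_zero_of_mul hb))

theorem app_comp (φ : Mor n'' n') (ψ : Mor n' n) (R : Type) [CommRing R] [Algebra ℚ R]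
    (x : n''.G R) : (comp φ ψ).app R x = ψ.app R (φ.app R x) := lin_lin φ.A ψ.A x

theorem ph_comp (φ : Mor n'' n') (ψ : Mor n' n) (g : n''.Ph) :
    (comp φ ψ).ph g = ψ.ph (φ.ph g) := Subtype.ext (app_comp φ ψ ℝ[X] g.1)

theorem app_smul (φ : Mor n' n) (t : ℝ) (x : n'.G ℝ) : φ.app ℝ (t • x) = t • φ.app ℝ x := by
  funext c
  simp only [Mor.app_apply, PN.smul_apply, smul_sum, smul_comm t]

theorem ph_aff (φ : Mor n' n) (α β : ℝ) (g : n'.Ph) :
    φ.ph (PN.aff α β g) = PN.aff α β (φ.ph g) := Subtype.ext (funext fun c => by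
  change ∑ a, φ.A a c • (g.1 a).comp _ = (∑ a, φ.A a c • g.1 a).comp _
  simp only [Polynomial.sum_comp, smul_comp])

theorem nm_ph (φ : Mor n' n) : ∃ C : ℝ, 0 ≤ C ∧ ∀ N y g, PN.nm N y (φ.ph g) ≤ C * PN.nm N y g := by
  refine ⟨∑ c, ∑ a, |(φ.A a c : ℝ)| * (s + 1 : ℕ), by positivity, fun N y g => ?_⟩
  rw [PN.nm, ← ph_aff, PN.nm, PN.nm0, sum_mul]
  refine sum_le_sum fun c _ => ?_
  generalize PN.aff N y g = u
  calc _ ≤ ∑ _j ∈ range (s + 1), ∑ a, |(φ.A a c : ℝ)| * PN.nm0 u := sum_le_sum fun j hj => by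
        change |(∑ a, φ.A a c • u.1 a).coeff j| ≤ _
        rw [finset_sum_coeff]
        refine (abs_sum_le_sum_abs _ _).trans (sum_le_sum fun a _ => ?_)
        rw [coeff_smul, Rat.smul_def, abs_mul]
        exact mul_le_mul_of_nonneg_left (Cov.co_le u a hj) (abs_nonneg _)
    _ = _ := by
        rw [sum_const, card_range, nsmul_eq_mul, sum_mul, mul_sum]
        exact sum_congr rfl fun a _ => by ring

theorem sym_aff {i : ℕ} {ξ : n.I → ℤ} (h : PN.IsCh i ξ) {α : ℝ} (hα : α ≠ 0) (β : ℝ) (g : n.Ph) :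
    PN.sym ξ i (PN.aff α β g) = α ^ i * PN.sym ξ i g := by
  rw [PN.sym, PN.sym, mul_sum]
  refine sum_congr rfl fun a _ => ?_
  by_cases h0 : ξ a = 0
  · simp [h0]
  have d : (C α * X + C β).natDegree = 1 := natDegree_linear hα
  have e : PN.co (PN.aff α β g) a i = α ^ i * PN.co g a i := by
    rcases ((n.mem_P.1 g.2 a).trans_eq (h.wt a h0)).eq_or_lt with e | e
    · have := coeff_comp_degree_mul_degree (p := g.1 a) (q := C α * X + C β) (by omega)
      rw [d, mul_one, leadingCoeff_linear hα, leadingCoeff, e] at this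
      rw [PN.co, Seed.aff_val, this, mul_comm, PN.co]
    · rw [PN.co, PN.co, Seed.aff_val, coeff_eq_zero_of_natDegree_lt e, mul_zero]
      exact coeff_eq_zero_of_natDegree_lt (natDegree_comp_le.trans_lt (by rwa [d, mul_one]))
  rw [e]
  ring

theorem ch_smul {i : ℕ} {ξ : n.I → ℤ} (h : PN.IsCh i ξ) {m : ℤ} (hm : m ≠ 0) :
    PN.IsCh i (m • ξ) where
  ne := smul_ne_zero hm h.ne
  wt a ha := h.wt a (right_ne_zero_of_mul (a := m) ha)
  br a b e := by
    simp only [Pi.smul_apply, smul_eq_mul, mul_assoc, ← mul_sum, h.br a b e, mul_zero]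

theorem sym_smul (i : ℕ) (ξ : n.I → ℤ) (m : ℤ) (g : n.Ph) :
    PN.sym (m • ξ) i g = m * PN.sym ξ i g := by
  simp only [PN.sym, Pi.smul_apply, smul_eq_mul, Int.cast_mul, mul_sum, mul_assoc]

end

section
variable {n' n : NS s}

theorem lin_ite {n' n : PN s} (f : n.I → n'.I) (R : Type) [CommRing R] [Algebra ℚ R] (x : n'.G R)
    (c : n.I) : Mor.lin (fun a c => if a = f c then 1 else 0) R x c = x (f c) := by
  change ∑ a, (if a = f c then (1 : ℚ) else 0) • x a = _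
  simp

/-- first projection -/
noncomputable def p1 (n n' : NS s) : Mor (n.prod n').toPN n.toPN :=
  ofBr (fun a c => if a = .inl c then 1 else 0) (fun x y => by
    funext c
    simp only [PN.br, lin_ite (n' := (n.prod n').toPN) (n := n.toPN) Sum.inl]
    change ∑ a : n.I ⊕ n'.I, ∑ b : n.I ⊕ n'.I, (NS.kP n n' a b (.inl c) : ℚ) * (x a * y b) = _
    simp [NS.kP, Fintype.sum_sum_type]) fun a c h => by
      have : a = .inl c := by
        by_contra e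
        exact h (if_neg e)
      exact this ▸ le_rfl

/-- second projection -/
noncomputable def p2 (n n' : NS s) : Mor (n.prod n').toPN n'.toPN :=
  ofBr (fun a c => if a = .inr c then 1 else 0) (fun x y => by
    funext c
    simp only [PN.br, lin_ite (n' := (n.prod n').toPN) (n := n'.toPN) Sum.inr]
    change ∑ a : n.I ⊕ n'.I, ∑ b : n.I ⊕ n'.I, (NS.kP n n' a b (.inr c) : ℚ) * (x a * y b) = _
    simp [NS.kP, Fintype.sum_sum_type]) fun a c h => by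
      have : a = .inr c := by
        by_contra e
        exact h (if_neg e)
      exact this ▸ le_rfl

theorem p1_app (R : Type) [CommRing R] [Algebra ℚ R] (x : (n.prod n').G R) (c : n.I) :
    (p1 n n').app R x c = x (.inl c) := lin_ite (n' := (n.prod n').toPN) Sum.inl R x c

theorem p2_app (R : Type) [CommRing R] [Algebra ℚ R] (x : (n.prod n').G R) (c : n'.I) :
    (p2 n n').app R x c = x (.inr c) := lin_ite (n' := (n.prod n').toPN) Sum.inr R x c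

theorem aff_int {Q : ℕ} (u v : ℤ) {g : n.Ph} (h : g ∈ n.LamQ 1 Q) :
    PN.aff u v g ∈ n.LamQ 1 Q := fun a => by
  change (g.1 a).comp _ ∈ polz 1 _
  rw [comp_eq_sum_left]
  refine AddSubgroup.sum_mem _ fun j hj =>
    polz_mul (r := ((Q : ℝ) ^ n.wt a)⁻¹) (r' := 1) 1 (by simp) (fun l => ?_) ?_
  · obtain ⟨z, hz⟩ := h a j
    rw [coeff_C]
    split_ifs
    · exact ⟨z, by rw [one_pow] at hz ⊢; exact hz⟩
    · exact ⟨0, by simp⟩
  · clear hj
    induction j with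
    | zero => exact fun l => ⟨if l = 0 then 1 else 0, by simp [coeff_one]⟩
    | succ j ih =>
      rw [pow_succ]
      refine polz_mul (r := 1) (r' := 1) 1 (by simp) ih fun l => ?_
      exact ⟨(if l = 1 then u else 0) + if l = 0 then v else 0, by
        rw [coeff_add, coeff_C_mul, coeff_X, coeff_C]
        simp [eq_comm]⟩

theorem rat_eq {Q : ℕ} (h : 1 ≤ Q) : n.Rat Q = n.LamQ 1 Q := if_neg (by omega)

theorem lam_mono {Q Q' : ℕ} (h : Q ∣ Q') (h1 : 1 ≤ Q') {g : n.Ph} (hg : g ∈ n.LamQ 1 Q) :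
    g ∈ n.LamQ 1 Q' := by
  rw [← rat_eq h1]
  exact NS.rat_mono Q Q' h (by rwa [rat_eq (Nat.pos_of_dvd_of_pos h h1)])

variable {W W' N y : ℝ} {Q Q' : ℕ} {g h k : n.Ph}

theorem sim_mono (H : n.Sim W Q N y g h) (hW : W ≤ W') (hQ : Q ∣ Q') (h1 : 1 ≤ Q') :
    n.Sim W' Q' N y g h := by
  obtain ⟨ε, γ, a, b, c⟩ := H
  exact ⟨ε, γ, a.trans hW, lam_mono hQ h1 b, c⟩

theorem sim_symm (H : n.Sim W Q N y g h) : n.Sim W Q N y h g := by
  obtain ⟨ε, γ, a, b, c⟩ := H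
  refine ⟨ε⁻¹, γ⁻¹, by rwa [PN.nm, map_inv, Seed.nm0_inv], inv_mem b, ?_⟩
  rw [c]
  group

theorem sim_trans (H : n.Sim W Q N y g h) (H' : n.Sim W Q N y h k) :
    n.Sim (n.cB * (1 + W + W) ^ s) Q N y g k := by
  obtain ⟨ε, γ, a, b, c⟩ := H
  obtain ⟨ε', γ', a', b', c'⟩ := H'
  refine ⟨ε * ε', γ' * γ, ?_, mul_mem b' b, by rw [c, c']; group⟩
  rw [PN.nm, map_mul]
  refine (PN.nm0_mul _ _).trans ?_
  have := PN.one_le_cB (n := n.toPN)
  have := PN.nm0_nonneg (PN.aff N y ε)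
  have := PN.nm0_nonneg (PN.aff N y ε')
  gcongr
  exacts [a, a']

theorem sim_mor (φ : Mor n'.toPN n.toPN) : ∃ (C : ℝ) (d : ℕ), 0 ≤ C ∧ 1 ≤ d ∧ ∀ (W : ℝ) (Q : ℕ) N y g h,
    1 ≤ Q → n'.Sim W Q N y g h → n.Sim (C * W) (Q * d) N y (φ.ph g) (φ.ph h) := by
  obtain ⟨C, C0, hC⟩ := nm_ph φ
  obtain ⟨d, d1, hd⟩ := st_Mor.rat s n' n φ
  refine ⟨C, d, C0, d1, ?_⟩
  rintro W Q N y g h Q1 ⟨ε, γ, a, b, c⟩
  exact ⟨φ.ph ε, φ.ph γ, (hC _ _ _).trans (mul_le_mul_of_nonneg_left a C0), hd Q γ Q1 b,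
    by rw [c, map_mul, map_mul]⟩

theorem sim_aff {q T : ℕ} {r : ℤ} {N' y' : ℝ} (Q1 : 1 ≤ Q) (q1 : 1 ≤ q) (T1 : 1 ≤ T) (N0 : 0 < N)
    (hN : N ≤ q * T * N') (hy : |q * y' + r - y| ≤ 2 * N)
    (H : n.Sim W Q N' y' (PN.aff q r g) (PN.aff q r h)) :
    n.Sim ((3 * T) ^ s * W) (Q * q) N y g h := by
  obtain ⟨ε, γ, a, b, c⟩ := H
  have q0 : (0 : ℝ) < q := by exact_mod_cast q1
  have t1 : (1 : ℝ) ≤ T := by exact_mod_cast T1
  have n0 : 0 < N' := (mul_pos_iff_of_pos_left (by positivity)).1 (N0.trans_le hN)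
  refine ⟨PN.aff (q : ℝ)⁻¹ (-r / q) ε, PN.aff (q : ℝ)⁻¹ (-r / q) γ, ?_, ?_, ?_⟩
  · have e : PN.aff N y (PN.aff (q : ℝ)⁻¹ (-r / q) ε) =
        PN.aff (N / (q * N')) (-(q * y' + r - y) / (q * N')) (PN.aff N' y' ε) := by
      rw [Seed.aff_aff, Seed.aff_aff]
      congr 2 <;> field_simp
      ring
    rw [PN.nm, e]
    refine (Seed.nm0_aff ?_ (by linarith) _).trans (mul_le_mul_of_nonneg_left a (by positivity))
    rw [abs_div, abs_div, abs_neg, abs_of_pos N0, abs_of_pos (mul_pos q0 n0), ← add_div,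
      div_le_iff₀ (mul_pos q0 n0)]
    linarith
  · have e : PN.aff (q : ℝ)⁻¹ (-r / q) γ = PN.aff (1 : ℤ) (-r : ℤ) (PN.dil (q : ℝ)⁻¹ γ) := by
      rw [PN.dil, Seed.aff_aff]
      congr 2 <;> push_cast <;> ring
    rw [e]
    refine aff_int _ _ ?_
    rw [← rat_eq (Nat.mul_pos Q1 q1)]
    refine NS.rat_root Q q _ ?_
    rwa [Seed.dil_dil, inv_mul_cancel₀ q0.ne', Seed.dil_one, rat_eq Q1]
  · have := congrArg (PN.aff (q : ℝ)⁻¹ (-r / q)) c
    rwa [map_mul, map_mul, Cov.aff_inv q0.ne', Cov.aff_inv q0.ne'] at this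

theorem nr_step (hA : AuxSt) {i : ℕ} {ξ : n.I → ℤ} (hξ : PN.IsCh i ξ) {q T : ℕ} {r N' B : ℝ}
    (Q1 : 1 ≤ Q) (q1 : 1 ≤ q) (N0 : 0 < N) (n0 : 0 < N') (hN : N ≤ q * T * N')
    (H : n.Sim W Q N y g h) (hB : Nr (PN.sym ξ i (PN.aff q r h)) (B / N' ^ i)) :
    Nr (PN.sym (((Q * q : ℕ) : ℤ) ^ i • ξ) i g)
      (((Q * q : ℕ) ^ i * ((∑ a, |(ξ a : ℝ)|) * W) + (Q ^ i : ℕ) * (B * (q * T) ^ i)) / N ^ i) := by
  obtain ⟨ε, γ, a, b, c⟩ := H
  have q0 : (0 : ℝ) < q := by exact_mod_cast q1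
  have B0 : 0 ≤ B := by
    have := hB.nonneg
    rwa [le_div_iff₀ (by positivity), zero_mul] at this
  rw [sym_aff hξ q0.ne'] at hB
  have h1 : Nr (((Q * q : ℕ) : ℝ) ^ i * PN.sym ξ i ε)
      ((Q * q : ℕ) ^ i * ((∑ a, |(ξ a : ℝ)|) * W) / N ^ i) := by
    refine Nr.of_abs ?_
    rw [abs_mul, abs_of_nonneg (by positivity), mul_div_assoc]
    refine mul_le_mul_of_nonneg_left ?_ (by positivity)
    rw [le_div_iff₀ (by positivity)]
    exact (hA.sym_nm s _ ξ i N y ε hξ N0).trans (mul_le_mul_of_nonneg_left a (by positivity))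
  have h2 := (hB.nat_mul (Q ^ i)).mono (η' := (Q ^ i : ℕ) * (B * (q * T) ^ i) / N ^ i) (by
    rw [mul_div_assoc]
    refine mul_le_mul_of_nonneg_left ?_ (by positivity)
    rw [div_le_div_iff₀ (by positivity) (by positivity), mul_assoc, ← mul_pow]
    gcongr)
  have h3 : ∃ z : ℤ, (Q : ℝ) ^ i * PN.sym ξ i γ = z := by
    rw [← rat_eq Q1] at b
    choose z hz using NS.mem_Rat.1 b
    refine ⟨∑ a, ξ a * z a i, ?_⟩
    rw [PN.sym, mul_sum, Int.cast_sum]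
    refine sum_congr rfl fun a _ => ?_
    by_cases h0 : ξ a = 0
    · simp [h0]
    · rw [Int.cast_mul, ← hz, hξ.wt a h0]
      ring
  obtain ⟨z, hz⟩ := h3
  obtain ⟨m, hm⟩ := h1.add h2
  refine ⟨m + q ^ i * z, ?_⟩
  rw [sym_smul, c, hA.sym_mul s _ _ _ _ _ hξ, hA.sym_mul s _ _ _ _ _ hξ, add_div]
  refine le_trans (le_of_eq (congrArg _ ?_)) hm
  push_cast
  rw [← hz]
  ring

end

end Pool.Agent.Lib.MP_028aa5_nt.N.W2
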