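import Pool.Agent.Lib.MP_028aa5_nt.N.TrA

/-! The descent through the rational subgroups of a product. -/

namespace Pool.Agent.Lib.MP_028aa5_nt.N.W2

open Finset Filter
open scoped Classical ComplexConjugate

/-- a numbering -/
noncomputable def enc {α : Type} [Countable α] : α → ℕ := (exists_injective_nat α).choose

theorem fin_enc (α : Type) [Countable α] (B : ℕ) : {u : α | enc u ≤ B}.Finite :=
  (Set.finite_Iic B).preimage (exists_injective_nat α).choose_spec.injOn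

theorem all_enc {α : Type} [Countable α] {P : α → ℕ → Prop} (h : ∀ u, ∀ᶠ B' in atTop, P u B')
    (B : ℕ) : ∀ᶠ B' in atTop, ∀ u, enc u ≤ B → P u B' :=
  (eventually_all_finite (fin_enc α B)).2 fun u _ => h u

theorem ev_le (x : ℝ) : ∀ᶠ B : ℕ in atTop, x ≤ B := tendsto_natCast_atTop_atTop.eventually_ge_atTop x

variable {s : ℕ}

instance (n' n : PN s) : Countable (Mor n' n) :=
  Function.Injective.countable (f := Mor.A) (by rintro ⟨⟩ ⟨⟩ ⟨⟩; rfl)

variable (n : NS s)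

/-- degenerate -/
def Dg (B : ℕ) (N : ℝ) (g : n.Ph) : Prop := ∃ u : ℕ × (n.I → ℤ), PN.IsCh u.1 u.2 ∧ enc u ≤ B ∧
  Nr (PN.sym u.2 u.1 g) (B / N ^ u.1)

/-- degenerate or related -/
def Out (B : ℕ) (N y : ℝ) (g h : n.Ph) : Prop := Dg n B N g ∨ Dg n B N h ∨
  ∃ σ : Mor n.toPN n.toPN, enc σ ≤ B ∧ n.Sim B B.factorial N y g (σ.ph h)

variable {n}

theorem dg_of {i : ℕ} {ξ : n.I → ℤ} (hξ : PN.IsCh i ξ) (M : ℝ) : ∀ᶠ B : ℕ in atTop, ∀ (N : ℝ) g,
    0 < N → Nr (PN.sym ξ i g) (M / N ^ i) → Dg n B N g := by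
  filter_upwards [ev_le M, eventually_ge_atTop (enc (i, ξ))] with B h1 h2 N g N0 h
  exact ⟨(i, ξ), hξ, h2, h.mono (by gcongr)⟩

theorem sim_of (W : ℝ) {Q : ℕ} (Q1 : 1 ≤ Q) : ∀ᶠ B : ℕ in atTop, ∀ (N y : ℝ) g h,
    n.Sim W Q N y g h → n.Sim B B.factorial N y g h := by
  filter_upwards [ev_le W, eventually_ge_atTop Q] with B h1 h2 N y g h H
  exact sim_mono H h1 (Nat.dvd_factorial Q1 h2) B.factorial_pos

theorem dg_step (hA : AuxSt) (B : ℕ) (W : ℝ) {Q q : ℕ} (T : ℕ) (Q1 : 1 ≤ Q) (q1 : 1 ≤ q) :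
    ∀ᶠ B' : ℕ in atTop, ∀ (N y N' r : ℝ) g h, 0 < N → 0 < N' → N ≤ q * T * N' →
      n.Sim W Q N y g h → Dg n B N' (PN.aff q r h) → Dg n B' N g := by
  have := all_enc (α := ℕ × (n.I → ℤ)) (P := fun u B' => PN.IsCh u.1 u.2 → ∀ (N y N' r : ℝ) g h,
      0 < N → 0 < N' → N ≤ q * T * N' → n.Sim W Q N y g h →
      Nr (PN.sym u.2 u.1 (PN.aff q r h)) (B / N' ^ u.1) → Dg n B' N g) (fun u => ?_) B
  · filter_upwards [this] with B' H N y N' r g h a b c d ⟨u, e1, e2, e3⟩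
    exact H u e2 e1 N y N' r g h a b c d e3
  by_cases hu : PN.IsCh u.1 u.2
  · filter_upwards [dg_of (ch_smul hu (m := ((Q * q : ℕ) : ℤ) ^ u.1) (by positivity)) _]
      with B' H _ N y N' r g h a b c d e
    exact H N g a (nr_step hA hu Q1 q1 a b c d e)
  · exact Eventually.of_forall fun _ h => absurd h hu

theorem out_step (hA : AuxSt) (B : ℕ) (W : ℝ) {Q q T : ℕ} (Q1 : 1 ≤ Q) (q1 : 1 ≤ q) (T1 : 1 ≤ T) :
    ∀ᶠ B' : ℕ in atTop, ∀ (N y N' y' : ℝ) (r : ℤ) g g' h h', 0 < N → N ≤ q * T * N' →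
      |q * y' + r - y| ≤ 2 * N → n.Sim W Q N y g g' → n.Sim W Q N y h h' →
      Out n B N' y' (PN.aff q r g') (PN.aff q r h') → Out n B' N y g h := by
  have := all_enc (α := Mor n.toPN n.toPN) (P := fun σ B' => ∀ (N y N' y' : ℝ) (r : ℤ) g g' h h',
      0 < N → N ≤ q * T * N' → |q * y' + r - y| ≤ 2 * N → n.Sim W Q N y g g' → n.Sim W Q N y h h' →
      n.Sim B B.factorial N' y' (PN.aff q r g') (σ.ph (PN.aff q r h')) →
      n.Sim B' B'.factorial N y g (σ.ph h)) (fun σ => ?_) B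
  · filter_upwards [this, dg_step hA B W T Q1 q1, eventually_ge_atTop B]
      with B' H H' hB N y N' y' r g g' h h' a b c d e f
    have n0 : 0 < N' := (mul_pos_iff_of_pos_left (by positivity)).1 (a.trans_le b)
    rcases f with f | f | ⟨σ, f, f'⟩
    · exact .inl (H' N y N' r g g' a n0 b d f)
    · exact .inr (.inl (H' N y N' r h h' a n0 b e f))
    · exact .inr (.inr ⟨σ, f.trans hB, H σ f N y N' y' r g g' h h' a b c d e f'⟩)
  obtain ⟨C, d, C0, d1, hσ⟩ := sim_mor σ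
  obtain ⟨B1, h1, h2, h3⟩ := ((sim_of (n := n) W Q1).and ((sim_of (n := n) (C * W)
    (Nat.mul_pos Q1 d1)).and (sim_of (n := n) ((3 * T) ^ s * B)
      (Nat.mul_pos B.factorial_pos q1)))).exists
  obtain ⟨B2, h4, h5⟩ := ((sim_of (n := n) B1 B1.factorial_pos).and
    (sim_of (n := n) (n.cB * (1 + B1 + B1) ^ s) B1.factorial_pos)).exists
  filter_upwards [sim_of (n := n) (n.cB * (1 + B2 + B2) ^ s) B2.factorial_pos]
    with B' H N y N' y' r g g' h h' a b c e e' f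
  rw [ph_aff] at f
  exact H _ _ _ _ (sim_trans (h5 _ _ _ _ (sim_trans (h1 _ _ _ _ e)
    (h3 _ _ _ _ (sim_aff B.factorial_pos q1 T1 a b c f))))
    (h4 _ _ _ _ (h2 _ _ _ _ (sim_symm (hσ _ _ _ _ _ _ Q1 e')))))

theorem tree (hE : EqSt) (hF : Fac0St) (hG : GourSt) (hP : PieceSt) (hA : AuxSt) {z : n.I → ℤ}
    (hz : n.Cen1 z) (d : ℕ) : ∀ (H : NS s) (φ ψ : Mor H.toPN n.toPN), H.tw = d →
    (∀ v : H.G ℚ, φ.app ℚ v = 1 → ψ.app ℚ v = 1 → v = 1) → ∀ L δ : ℝ, 0 < δ →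
    ∀ᶠ B : ℕ in atTop, ∀ F (k : ℝ), H.Test F L → k ≠ 0 →
      (∀ v (r : ℝ), φ.app ℝ v = r • PN.zv z → ψ.app ℝ v = 1 → ∀ x y,
        F (x * v * y) = e (k * r) * F (x * y)) →
      ∀ (h : H.Ph) (a b N : ℕ), b ≤ a + N → B ≤ N → δ * N ≤ ‖∑ m ∈ Ioc a b, F (PN.ev m h)‖ →
      Out n B N a (φ.ph h) (ψ.ph h) := by
  induction d using Nat.strong_induction_on with
  | _ d ih =>
  intro H φ ψ hd hi L δ δ0
  rcases hG s H n z φ ψ hz hi with ⟨v, r, r0, vc, v1, v2⟩ | ⟨i, ξ, hξ, h0⟩ | ⟨σ, hσ⟩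
  · obtain ⟨Ξ, M, K0, hΞ, hq⟩ := hE s H v L δ vc δ0
    have key : ∀ u ∈ Ξ, ∀ᶠ B : ℕ in atTop, ∀ F (k : ℝ), H.Test F L → k ≠ 0 →
        (∀ v (r : ℝ), φ.app ℝ v = r • PN.zv z → ψ.app ℝ v = 1 → ∀ x y,
          F (x * v * y) = e (k * r) * F (x * y)) →
        ∀ (h : H.Ph) (a b N : ℕ), b ≤ a + N → B ≤ N → δ * N ≤ ‖∑ m ∈ Ioc a b, F (PN.ev m h)‖ →
        Nr (PN.sym u.2 u.1 h) (M / N ^ u.1) → Out n B N a (φ.ph h) (ψ.ph h) := by
      intro u hu
      obtain ⟨H', χ, c, c1, lt, inj, hT, hf⟩ := hF s H u.1 u.2 (hΞ u hu)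
      obtain ⟨q, T, C, q1, T1, hp⟩ := hP s H c L ((M + 1) * 2 ^ s) δ c1 δ0
      obtain ⟨C', -, hT⟩ := hT C
      obtain ⟨B0, h0⟩ := (ih _ (hd ▸ lt) H' (comp χ φ) (comp χ ψ) rfl (fun v a b => inj (by
        rw [map_one]
        exact hi _ (app_comp χ φ ℚ v ▸ a) (app_comp χ ψ ℚ v ▸ b))) (C' * L) (δ / 4)
        (by positivity)).exists
      obtain ⟨C1, d1, -, d11, s1⟩ := sim_mor φ
      obtain ⟨C2, d2, -, d21, s2⟩ := sim_mor ψ
      obtain ⟨B1, t1, t2⟩ := ((sim_of (n := n) (C1 * ((M + 1) * 2 ^ s)) (Nat.mul_pos c1 d11)).and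
        (sim_of (n := n) (C2 * ((M + 1) * 2 ^ s)) (Nat.mul_pos c1 d21))).exists
      filter_upwards [out_step (n := n) hA B0 B1 B1.factorial_pos q1 T1, ev_le C,
        eventually_ge_atTop 1, eventually_ge_atTop (q * T * B0)]
        with B o1 o2 o3 o4 F k tF k0 eF h a b N ab BN big nr
      have N1 : (1 : ℝ) ≤ N := by exact_mod_cast o3.trans BN
      obtain ⟨ε, g', γ, e1, e2, e3⟩ := hf h a N M N1 nr
      obtain ⟨w, σ, r', a', b', N', w1, w2, w3, w4, w5, w6⟩ := hp F tF ε (χ.ph g') γ a b N ab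
        (o2.trans (by exact_mod_cast BN)) e1 e2 (e3 ▸ big)
      have o := h0 _ k (hT F L w σ tF w1 w2) k0 (fun v r a b x y => by
        have := eF _ r (app_comp χ φ ℝ v ▸ a) (app_comp χ ψ ℝ v ▸ b) (w * χ.app ℝ x)
          (χ.app ℝ y * σ)
        simpa only [map_mul, mul_assoc] using this) (PN.aff q r' g') a' b' N' w3
        (Nat.le_of_mul_le_mul_left ((o4.trans BN).trans w4) (Nat.mul_pos q1 T1))
        (by simpa only [← st_Mor.ev, ph_aff] using w6)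
      simp only [ph_comp, ph_aff] at o
      have sm : H.Sim ((M + 1) * 2 ^ s) c N a h (χ.ph g') := ⟨ε, γ, e1, e2, e3⟩
      exact o1 N a N' a' r' _ _ _ _ (by linarith) (by exact_mod_cast w4) w5
        (t1 _ _ _ _ (s1 _ _ _ _ _ _ c1 sm)) (t2 _ _ _ _ (s2 _ _ _ _ _ _ c1 sm)) o
    filter_upwards [(eventually_all_finset Ξ).2 key, ev_le K0]
      with B o1 o2 F k tF k0 eF h a b N ab BN big
    obtain ⟨u, hu, nr⟩ := hq F (k * r) tF (mul_ne_zero k0 r0) (fun t x => by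
      have := eF (t • PN.zv v) (t * r) (by rw [app_smul, v1, smul_smul])
        (by rw [app_smul, v2, PN.one_def, smul_zero]) 1 x
      rwa [one_mul, one_mul, mul_comm t, ← mul_assoc] at this) h a b N ab
      (o2.trans (by exact_mod_cast BN)) big
    exact o1 u hu F k tF k0 eF h a b N ab BN big nr
  · filter_upwards [dg_of hξ 0, eventually_ge_atTop 1] with B o1 o2 F k _ _ _ h a b N _ BN _
    have N0 : (0 : ℝ) < N := by exact_mod_cast o2.trans BN
    rcases h0 with h0 | h0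
    · exact .inl (o1 N _ N0 (Nr.of_abs (by simp [h0])))
    · exact .inr (.inl (o1 N _ N0 (Nr.of_abs (by simp [h0]))))
  · filter_upwards [eventually_ge_atTop (enc σ)] with B o F k _ _ _ h a b N _ _ _
    refine .inr (.inr ⟨σ, o, 1, 1, ?_, one_mem _, by rw [hσ, one_mul, mul_one]⟩)
    rw [PN.nm, map_one, PN.nm0_one]
    positivity

end Pool.Agent.Lib.MP_028aa5_nt.N.W2

namespace Pool.Agent.Lib.MP_028aa5_nt.N

open Finset Filter W2
open scoped Classical ComplexConjugate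

theorem st_Pair (hE : EqSt) (hF : Fac0St) (hG : GourSt) (hP : PieceSt) (hA : AuxSt) : PairSt := by
  intro s n z L δ hz δ0
  obtain ⟨B, hB⟩ := (tree hE hF hG hP hA hz _ (n.prod n) (p1 n n) (p2 n n) rfl (fun v a b => by
    funext c
    rcases c with c | c
    · exact (p1_app ℚ v c).symm.trans (congrFun a c)
    · exact (p2_app ℚ v c).symm.trans (congrFun b c)) L δ δ0).exists
  refine ⟨(fin_enc _ B).toFinset.filter fun u => PN.IsCh u.1 u.2, (fin_enc _ B).toFinset, B,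
    B.factorial, fun u hu => (mem_filter.1 hu).2, B.factorial_pos,
    fun F k tF k0 eF g h a b N ab BN big => ?_⟩
  let x : (n.prod n).Ph := ⟨NS.pr g.1 h.1, (n.prod n).mem_P.2 fun c => by
    rcases c with c | c
    exacts [n.mem_P.1 g.2 c, n.mem_P.1 h.2 c]⟩
  have x1 : (p1 n n).ph x = g := Subtype.ext (funext fun c => p1_app _ x.1 c)
  have x2 : (p2 n n).ph x = h := Subtype.ext (funext fun c => p2_app _ x.1 c)
  have dg : ∀ g, Dg n B N g →
      PN.Deg ((fin_enc _ B).toFinset.filter fun u => PN.IsCh u.1 u.2) B N g :=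
    fun g ⟨u, a, b, c⟩ => ⟨u, mem_filter.2 ⟨(Set.Finite.mem_toFinset _).2 b, a⟩, c⟩
  have o := hB (fun x => F ((p1 n n).app ℝ x) * conj (F ((p2 n n).app ℝ x))) k ⟨fun x => ?_,
    fun x γ hγ => ?_, fun u x => ?_⟩ (by exact_mod_cast k0) (fun v r a b x y => ?_) x a b N ab
    (by exact_mod_cast BN) (by simpa only [← st_Mor.ev, x1, x2] using big)
  · rw [x1, x2] at o
    exact o.imp (dg _) (Or.imp (dg _) fun ⟨σ, a, b⟩ => ⟨σ, (Set.Finite.mem_toFinset _).2 a, b⟩)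
  · rw [norm_mul, RCLike.norm_conj]
    exact mul_le_one₀ (tF.bd _) (norm_nonneg _) (tF.bd _)
  · rw [map_mul, map_mul, tF.inv _ _ fun c => ?_, tF.inv _ _ fun c => ?_]
    · rw [p2_app]
      exact hγ (.inr c)
    · rw [p1_app]
      exact hγ (.inl c)
  · have e : PN.nG u = PN.nG ((p1 n n).app ℝ u) + PN.nG ((p2 n n).app ℝ u) := by
      simp only [PN.nG, p1_app, p2_app]
      exact Fintype.sum_sum_type _
    rw [map_mul, map_mul, e, mul_add]
    generalize (p1 n n).app ℝ u = u1, (p2 n n).app ℝ u = u2, (p1 n n).app ℝ x = y1,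
      (p2 n n).app ℝ x = y2
    rw [show F (u1 * y1) * conj (F (u2 * y2)) - F y1 * conj (F y2) =
      (F (u1 * y1) - F y1) * conj (F (u2 * y2)) + F y1 * conj (F (u2 * y2) - F y2) by
        rw [map_sub]; ring]
    refine (norm_add_le _ _).trans (add_le_add ?_ ?_)
    · rw [norm_mul, RCLike.norm_conj]
      exact (mul_le_of_le_one_right (norm_nonneg _) (tF.bd _)).trans (tF.lip _ _)
    · rw [norm_mul, RCLike.norm_conj]
      exact (mul_le_of_le_one_left (norm_nonneg _) (tF.bd _)).trans (tF.lip _ _)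
  · simp only [map_mul, a, b, mul_one]
    rw [← Split.cen_comm (Split.cen_smul hz.cen r), mul_assoc, eF, mul_assoc]

end Pool.Agent.Lib.MP_028aa5_nt.N
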