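import Pool.Agent.Lib.MP_028aa5_nt.N.Defs

/-! The group law is triangular; polynomial bounds for it. -/

namespace Pool.Agent.Lib.MP_028aa5_nt.N

open Finset
open scoped Classical

/-- a submultiplicative seminorm -/
structure Sn {R : Type} [CommRing R] [Algebra ℚ R] (N : R → ℝ) : Prop where
  nonneg : ∀ x, 0 ≤ N x
  add : ∀ x y, N (x + y) ≤ N x + N y
  mul : ∀ x y, N (x * y) ≤ N x * N y
  smul : ∀ (q : ℚ) x, N (q • x) ≤ |(q : ℝ)| * N x

namespace Sn

variable {R : Type} [CommRing R] [Algebra ℚ R] {N : R → ℝ} (h : Sn N)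
include h

theorem zero : N 0 = 0 := le_antisymm (by simpa using h.smul 0 0) (h.nonneg 0)

theorem neg (x : R) : N (-x) = N x := by
  have a : ∀ x, N (-x) ≤ N x := fun x => by simpa using h.smul (-1) x
  exact le_antisymm (a x) (by simpa using a (-x))

theorem sub (x y : R) : N (x - y) ≤ N x + N y := by
  rw [sub_eq_add_neg, ← h.neg y]; exact h.add _ _

theorem sum {ι : Type} (T : Finset ι) (f : ι → R) : N (∑ i ∈ T, f i) ≤ ∑ i ∈ T, N (f i) :=
  le_sum_of_subadditive N h.zero.le h.add T f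

theorem int (k : ℤ) (x : R) : N (k * x) ≤ |(k : ℝ)| * N x := by
  have := h.smul k x
  rwa [Int.cast_smul_eq_zsmul, zsmul_eq_mul, Rat.cast_intCast] at this

end Sn

namespace PN

variable {s : ℕ} (n : PN s) {R : Type} [CommRing R]

/-- the coordinates of weight less than `w` agree -/
def Ag (w : ℕ) (x y : n.G R) : Prop := ∀ a, n.wt a < w → x a = y a

/-- truncation to the weights less than `w` -/
noncomputable def trc (w : ℕ) (x : n.G R) : n.G R := fun a => if n.wt a < w then x a else 0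

variable {n}

omit [CommRing R] in
theorem Ag.refl (w : ℕ) (x : n.G R) : n.Ag w x x := fun _ _ => rfl
omit [CommRing R] in
theorem Ag.symm {w : ℕ} {x y : n.G R} (h : n.Ag w x y) : n.Ag w y x := fun a ha => (h a ha).symm
omit [CommRing R] in
theorem Ag.trans {w : ℕ} {x y z : n.G R} (h : n.Ag w x y) (h' : n.Ag w y z) : n.Ag w x z :=
  fun a ha => (h a ha).trans (h' a ha)
omit [CommRing R] in
theorem Ag.mono {w w' : ℕ} {x y : n.G R} (h : n.Ag w x y) (hw : w' ≤ w) : n.Ag w' x y :=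
  fun a ha => h a (ha.trans_le hw)
omit [CommRing R] in
theorem Ag.eq {x y : n.G R} (h : n.Ag (s + 1) x y) : x = y :=
  funext fun a => h a (Nat.lt_succ_of_le (n.ws a))
omit [CommRing R] in
theorem ag_one (x y : n.G R) : n.Ag 1 x y := fun a ha => absurd (n.w1 a) (by omega)

theorem ag_trc (w : ℕ) (x : n.G R) : n.Ag w x (n.trc w x) := fun a ha => by simp [trc, ha]

theorem Ag.br {w : ℕ} {x x' y y' : n.G R} (hx : n.Ag w x x') (hy : n.Ag w y y') :
    n.Ag (w + 1) (n.br x y) (n.br x' y') := by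
  intro c hc
  refine sum_congr rfl fun a _ => sum_congr rfl fun b _ => ?_
  by_cases k0 : n.k a b c = 0
  · simp [k0]
  · have := n.fil a b c k0
    have := n.w1 a
    have := n.w1 b
    rw [hx a (by omega), hy b (by omega)]

theorem Ag.adw {w : ℕ} {x x' y y' : n.G R} (hx : n.Ag w x x') (hy : n.Ag w y y') (l : List Bool) :
    n.Ag (w + 1) (adw n.br x y l) (adw n.br x' y' l) := by
  induction l with
  | nil => exact hx.br hy
  | cons b l ih =>
    refine Ag.br ?_ (ih.mono (Nat.le_succ w))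
    cases b
    · exact hy
    · exact hx

/-- the bracket adds the levels -/
theorem ag_br {i j : ℕ} {x y : n.G R} (hx : n.Ag i x 0) (hy : n.Ag j y 0) :
    n.Ag (i + j) (n.br x y) 0 := by
  intro c hc
  refine sum_eq_zero fun a _ => sum_eq_zero fun b _ => ?_
  by_cases k0 : n.k a b c = 0
  · simp [k0]
  · have := n.fil a b c k0
    by_cases ha : n.wt a < i
    · simp [hx a ha]
    · simp [hy b (by omega)]

theorem ag_adw {i j : ℕ} {x y : n.G R} (hx : n.Ag i x 0) (hy : n.Ag j y 0) (l : List Bool) :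
    n.Ag (i + j + l.length) (adw n.br x y l) 0 := by
  induction l with
  | nil => exact ag_br (i := i) (j := j) hx hy
  | cons b l ih => exact (ag_br (ag_one _ _) ih).mono (by simp; omega)

theorem adw_long (x y : n.G R) {l : List Bool} (h : s ≤ l.length + 1) : adw n.br x y l = 0 :=
  ((ag_adw (ag_one x 0) (ag_one y 0) l).mono (by omega)).eq

theorem br_sub_br (x y x' y' : n.G R) :
    n.br x y - n.br x' y' = n.br (x - x') y + n.br x' (y - y') := by
  ext c
  simp only [PN.br, sub_apply, add_apply, ← sum_sub_distrib, ← sum_add_distrib]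
  exact sum_congr rfl fun a _ => sum_congr rfl fun b _ => by ring

variable [Algebra ℚ R]

variable (n) in
/-- the correction term of the group law -/
noncomputable def pol (x y : n.G R) : n.G R := (cb s).sum fun w q => q • adw n.br x y w

theorem mul_pol (x y : n.G R) : x * y = x + y + n.pol x y := rfl

theorem mul_apply (x y : n.G R) (c : n.I) : (x * y) c = x c + y c + n.pol x y c := rfl

theorem Ag.pol {w : ℕ} {x x' y y' : n.G R} (hx : n.Ag w x x') (hy : n.Ag w y y') :
    n.Ag (w + 1) (n.pol x y) (n.pol x' y') := by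
  intro c hc
  simp only [PN.pol, Finsupp.sum, sum_apply, smul_apply]
  exact sum_congr rfl fun l _ => by rw [hx.adw hy l c hc]

theorem ag_pol {i j : ℕ} {x y : n.G R} (hx : n.Ag i x 0) (hy : n.Ag j y 0) :
    n.Ag (i + j) (n.pol x y) 0 := by
  intro c hc
  simp only [PN.pol, Finsupp.sum, sum_apply, smul_apply]
  exact sum_eq_zero fun l _ => by rw [ag_adw hx hy l c (by omega)]; simp

/-- the group law is triangular -/
theorem tri {w : ℕ} {x x' y y' : n.G R} (hx : n.Ag w x x') (hy : n.Ag w y y') {c : n.I}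
    (hc : n.wt c ≤ w) : (x * y) c - x c - y c = (x' * y') c - x' c - y' c := by
  rw [mul_apply, mul_apply, hx.pol hy c (by omega)]
  ring

theorem Ag.mul {w : ℕ} {x x' y y' : n.G R} (hx : n.Ag w x x') (hy : n.Ag w y y') :
    n.Ag w (x * y) (x' * y') := fun c hc => by
  rw [mul_apply, mul_apply, hx.pol hy c (by omega), hx c hc, hy c hc]

theorem Ag.inv {w : ℕ} {x x' : n.G R} (hx : n.Ag w x x') : n.Ag w x⁻¹ x'⁻¹ := fun c hc => by
  rw [inv_def, inv_def, neg_apply, neg_apply, hx c hc]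

theorem lead_left {w : ℕ} {x : n.G R} (hx : n.Ag w x 0) (y : n.G R) {c : n.I} (hc : n.wt c ≤ w) :
    (x * y) c = x c + y c := by
  rw [mul_apply, ag_pol hx (ag_one y 0) c (by omega), zero_apply, add_zero]

theorem lead_right {w : ℕ} (x : n.G R) {y : n.G R} (hy : n.Ag w y 0) {c : n.I} (hc : n.wt c ≤ w) :
    (x * y) c = x c + y c := by
  rw [mul_apply, ag_pol (ag_one x 0) hy c (by omega), zero_apply, add_zero]

theorem Ag.mul_inv {w : ℕ} {x y : n.G R} (h : n.Ag w x y) {c : n.I} (hc : n.wt c ≤ w) :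
    (x * y⁻¹) c = x c - y c := by
  have := tri h (Ag.refl w y⁻¹) hc
  rw [mul_inv_cancel, one_def, inv_def, zero_apply, neg_apply] at this
  rw [inv_def]
  linear_combination this

theorem Ag.inv_mul {w : ℕ} {x y : n.G R} (h : n.Ag w x y) {c : n.I} (hc : n.wt c ≤ w) :
    (x⁻¹ * y) c = y c - x c := by
  have := tri (Ag.refl w x⁻¹) h.symm hc
  rw [inv_mul_cancel, one_def, inv_def, zero_apply, neg_apply] at this
  rw [inv_def]
  linear_combination this

theorem ag_iff {w : ℕ} {x y : n.G R} : n.Ag w x y ↔ n.Ag w (x * y⁻¹) 0 := by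
  refine ⟨fun h c hc => by rw [h.mul_inv hc.le, h c hc, sub_self, zero_apply], fun h => ?_⟩
  simpa using (show n.Ag w (x * y⁻¹) 1 from h).mul (Ag.refl w y)

theorem ag_iff' {w : ℕ} {x y : n.G R} : n.Ag w x y ↔ n.Ag w (x⁻¹ * y) 0 := by
  refine ⟨fun h c hc => by rw [h.inv_mul hc.le, h c hc, sub_self, zero_apply], fun h => ?_⟩
  simpa using ((Ag.refl w x).mul (show n.Ag w (x⁻¹ * y) 1 from h)).symm

/-- conjugation keeps the leading coordinates -/
theorem conj_lead {w : ℕ} {x : n.G R} (hx : n.Ag w x 0) (b : n.G R) {c : n.I} (hc : n.wt c ≤ w) :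
    (b * x * b⁻¹) c = x c := by
  have h : n.Ag w (b * x) b := by simpa using (Ag.refl w b).mul (show n.Ag w x 1 from hx)
  rw [h.mul_inv hc, lead_right b hx hc, add_sub_cancel_left]

theorem ag_comm {i j : ℕ} {x y : n.G R} (hx : n.Ag i x 0) (hy : n.Ag j y 0) :
    n.Ag (i + j) (x * y) (y * x) := fun c hc => by
  rw [mul_apply, mul_apply, ag_pol hx hy c hc, ag_pol hy hx c (by omega), add_comm (x c)]

theorem mem_Fil_ag {w : ℕ} {x : n.G R} : x ∈ n.Fil R w ↔ n.Ag w x 0 := n.mem_Fil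

instance Fil_normal (w : ℕ) : (n.Fil R w).Normal :=
  ⟨fun x hx b => mem_Fil_ag.2 fun c hc => by
    rw [conj_lead (mem_Fil_ag.1 hx) b hc.le]; exact mem_Fil_ag.1 hx c hc⟩

theorem comm_mem_Fil {i j : ℕ} {x y : n.G R} (hx : x ∈ n.Fil R i) (hy : y ∈ n.Fil R j) :
    x * y * x⁻¹ * y⁻¹ ∈ n.Fil R (i + j) := by
  have := ag_iff.1 (ag_comm (mem_Fil_ag.1 hx) (mem_Fil_ag.1 hy))
  rw [mul_inv_rev, ← mul_assoc] at this
  exact mem_Fil_ag.2 this

/-- a nontrivial point has a least weight -/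
theorem exists_lead {x : n.G R} (hx : x ≠ 1) : ∃ a, x a ≠ 0 ∧ n.Ag (n.wt a) x 0 := by
  have : ∃ a, x a ≠ 0 := by
    by_contra h
    push Not at h
    exact hx (funext h)
  obtain ⟨a, ha, hm⟩ := exists_min_image {a | x a ≠ 0} n.wt (by
    obtain ⟨a, ha⟩ := this
    exact ⟨a, by simpa using ha⟩)
  refine ⟨a, by simpa using ha, fun b hb => ?_⟩
  by_contra h
  exact absurd (hm b (by simpa using h)) (by omega)

variable (n) in
/-- the sum of the sizes of the coordinates -/
noncomputable def l1 (N : R → ℝ) (x : n.G R) : ℝ := ∑ a, N (x a)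

variable (n) in
/-- the same for the weights less than `w` -/
noncomputable def lw (N : R → ℝ) (w : ℕ) (x : n.G R) : ℝ := ∑ a with n.wt a < w, N (x a)

variable (n) in
/-- size of the structure constants -/
noncomputable def kk : ℝ := 1 + ∑ c, ∑ a, ∑ b, |(n.k a b c : ℝ)|

variable (n) in
/-- the constant in the bounds for the group law -/
noncomputable def cM : ℝ := 1 + (∑ l ∈ (cb s).support, |(cb s l : ℝ)|) * (s * n.kk ^ s)

theorem one_le_kk : 1 ≤ n.kk := le_add_of_nonneg_right (by positivity)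

theorem one_le_cM : 1 ≤ n.cM := by
  have := n.one_le_kk
  exact le_add_of_nonneg_right (by positivity)

variable {N : R → ℝ} (h : Sn N)
include h

theorem l1_nonneg (x : n.G R) : 0 ≤ n.l1 N x := sum_nonneg fun _ _ => h.nonneg _

theorem lw_nonneg (w : ℕ) (x : n.G R) : 0 ≤ n.lw N w x := sum_nonneg fun _ _ => h.nonneg _

theorem le_l1 (x : n.G R) (a : n.I) : N (x a) ≤ n.l1 N x :=
  single_le_sum (f := fun a => N (x a)) (fun _ _ => h.nonneg _) (mem_univ a)

theorem lw_le (w : ℕ) (x : n.G R) : n.lw N w x ≤ n.l1 N x :=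
  sum_le_sum_of_subset_of_nonneg (subset_univ _) fun _ _ _ => h.nonneg _

theorem l1_trc (w : ℕ) (x : n.G R) : n.l1 N (n.trc w x) = n.lw N w x := by
  rw [l1, lw, sum_filter]
  exact sum_congr rfl fun a _ => by unfold trc; split_ifs <;> simp [h.zero]

omit h [CommRing R] [Algebra ℚ R] in
theorem lw_top (x : n.G R) : n.lw N (s + 1) x = n.l1 N x := by
  rw [lw, filter_true_of_mem fun a _ => Nat.lt_succ_of_le (n.ws a), l1]

omit h [CommRing R] [Algebra ℚ R] in
theorem Ag.lw {w : ℕ} {x y : n.G R} (e : n.Ag w x y) : n.lw N w x = n.lw N w y :=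
  sum_congr rfl fun a ha => by rw [e a (mem_filter.1 ha).2]

theorem l1_zero : n.l1 N 0 = 0 := by simp [l1, h.zero]

theorem l1_neg (x : n.G R) : n.l1 N (-x) = n.l1 N x := by simp [l1, h.neg]

theorem l1_inv (x : n.G R) : n.l1 N x⁻¹ = n.l1 N x := l1_neg h x

theorem l1_add (x y : n.G R) : n.l1 N (x + y) ≤ n.l1 N x + n.l1 N y := by
  rw [l1, l1, l1, ← sum_add_distrib]
  exact sum_le_sum fun a _ => h.add _ _

theorem lw_add (w : ℕ) (x y : n.G R) : n.lw N w (x + y) ≤ n.lw N w x + n.lw N w y := by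
  rw [lw, lw, lw, ← sum_add_distrib]
  exact sum_le_sum fun a _ => h.add _ _

theorem l1_sub (x y : n.G R) : n.l1 N (x - y) ≤ n.l1 N x + n.l1 N y := by
  rw [sub_eq_add_neg, ← l1_neg h y]; exact l1_add h _ _

theorem l1_sub_comm (x y : n.G R) : n.l1 N (x - y) = n.l1 N (y - x) := by
  rw [← l1_neg h, neg_sub]

theorem l1_smul (q : ℚ) (x : n.G R) : n.l1 N (q • x) ≤ |(q : ℝ)| * n.l1 N x := by
  rw [l1, l1, mul_sum]
  exact sum_le_sum fun a _ => h.smul _ _

theorem l1_sum {ι : Type} (T : Finset ι) (f : ι → n.G R) :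
    n.l1 N (∑ i ∈ T, f i) ≤ ∑ i ∈ T, n.l1 N (f i) :=
  le_sum_of_subadditive _ (l1_zero h).le (l1_add h) T f

theorem l1_br (x y : n.G R) : n.l1 N (n.br x y) ≤ n.kk * (n.l1 N x * n.l1 N y) := by
  have p := mul_nonneg (l1_nonneg h x) (l1_nonneg h y)
  have : n.l1 N (n.br x y) ≤ (∑ c, ∑ a, ∑ b, |(n.k a b c : ℝ)|) * (n.l1 N x * n.l1 N y) := by
    rw [l1, sum_mul]
    refine sum_le_sum fun c _ => (h.sum _ _).trans ?_
    rw [sum_mul]
    refine sum_le_sum fun a _ => (h.sum _ _).trans ?_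
    rw [sum_mul]
    refine sum_le_sum fun b _ => (h.int _ _).trans ?_
    exact mul_le_mul_of_nonneg_left ((h.mul _ _).trans (mul_le_mul (le_l1 h x a) (le_l1 h y b)
      (h.nonneg _) (l1_nonneg h x))) (abs_nonneg _)
  unfold kk
  linarith

theorem l1_adw {x y : n.G R} {B : ℝ} (hx : n.l1 N x ≤ B) (hy : n.l1 N y ≤ B) (l : List Bool) :
    n.l1 N (adw n.br x y l) ≤ (n.kk * B) ^ l.length * (n.kk * (n.l1 N x * n.l1 N y)) := by
  have k1 := n.one_le_kk
  induction l with
  | nil => simpa [adw] using l1_br h x y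
  | cons b l ih =>
    refine (l1_br h _ _).trans ?_
    have : n.l1 N (if b then x else y) ≤ B := by cases b <;> assumption
    calc _ ≤ n.kk * (B * ((n.kk * B) ^ l.length * (n.kk * (n.l1 N x * n.l1 N y)))) :=
          mul_le_mul_of_nonneg_left (mul_le_mul this ih (l1_nonneg h _)
            ((l1_nonneg h x).trans hx)) (by linarith)
      _ = _ := by rw [List.length_cons]; ring

theorem l1_adw_sub {x y x' y' : n.G R} {B : ℝ} (hx : n.l1 N x ≤ B) (hy : n.l1 N y ≤ B)
    (hx' : n.l1 N x' ≤ B) (l : List Bool) (hy' : n.l1 N y' ≤ B) :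
    n.l1 N (adw n.br x y l - adw n.br x' y' l) ≤
      (l.length + 2) * (n.kk * B) ^ (l.length + 1) * (n.l1 N (x - x') + n.l1 N (y - y')) := by
  have k1 := n.one_le_kk
  have B0 : 0 ≤ B := (l1_nonneg h x).trans hx
  have d1 := l1_nonneg h (x - x')
  have d2 := l1_nonneg h (y - y')
  have key : ∀ u v u' v' : n.G R, ∀ a b c d : ℝ, n.l1 N (u - u') ≤ a → n.l1 N v ≤ b →
      n.l1 N u' ≤ c → n.l1 N (v - v') ≤ d → n.l1 N (n.br u v - n.br u' v') ≤
        n.kk * (a * b) + n.kk * (c * d) := by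
    intro u v u' v' a b c d ha hb hc hd
    rw [br_sub_br]
    refine (l1_add h _ _).trans (add_le_add ((l1_br h _ _).trans ?_) ((l1_br h _ _).trans ?_))
    · exact mul_le_mul_of_nonneg_left (mul_le_mul ha hb (l1_nonneg h _)
        ((l1_nonneg h _).trans ha)) (by linarith)
    · exact mul_le_mul_of_nonneg_left (mul_le_mul hc hd (l1_nonneg h _)
        ((l1_nonneg h _).trans hc)) (by linarith)
  induction l with
  | nil =>
    refine (key x y x' y' _ _ _ _ le_rfl hy hx' le_rfl).trans ?_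
    have : 0 ≤ n.kk * B * (n.l1 N (x - x') + n.l1 N (y - y')) := by positivity
    simp only [List.length_nil, Nat.cast_zero, zero_add, pow_one]
    nlinarith
  | cons b l ih =>
    have e : n.l1 N (adw n.br x y l) ≤ (n.kk * B) ^ l.length * (n.kk * (B * B)) :=
      (l1_adw h hx hy l).trans (mul_le_mul_of_nonneg_left (mul_le_mul_of_nonneg_left
        (mul_le_mul hx hy (l1_nonneg h _) B0) (by linarith)) (by positivity))
    refine (key (if b then x else y) _ (if b then x' else y') _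
      (n.l1 N (x - x') + n.l1 N (y - y')) _ B _ (by cases b <;> simp [d1, d2]) e
      (by cases b <;> assumption) ih).trans (le_of_eq ?_)
    rw [List.length_cons]
    push_cast
    ring

theorem l1_cb (f : List Bool → n.G R) {T : ℝ} (T0 : 0 ≤ T)
    (hf : ∀ l, n.l1 N (f l) ≤ s * n.kk ^ s * T) :
    n.l1 N (∑ l ∈ (cb s).support, cb s l • f l) ≤ n.cM * T := by
  refine (l1_sum h _ _).trans ?_
  have : ∑ l ∈ (cb s).support, n.l1 N (cb s l • f l) ≤
      (∑ l ∈ (cb s).support, |(cb s l : ℝ)|) * (s * n.kk ^ s * T) := by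
    rw [sum_mul]
    exact sum_le_sum fun l _ => (l1_smul h _ _).trans
      (mul_le_mul_of_nonneg_left (hf l) (abs_nonneg _))
  unfold cM
  linarith

/-- the correction term is bilinear to first order -/
theorem l1_pol {x y : n.G R} {B : ℝ} (B1 : 1 ≤ B) (hx : n.l1 N x ≤ B) (hy : n.l1 N y ≤ B) :
    n.l1 N (n.pol x y) ≤ n.cM * (B ^ s * (n.l1 N x * n.l1 N y)) := by
  have k1 := n.one_le_kk
  have p := mul_nonneg (l1_nonneg h x) (l1_nonneg h y)
  refine l1_cb h _ (by positivity) fun l => ?_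
  by_cases hl : s ≤ l.length + 1
  · rw [adw_long x y hl, l1_zero h]
    positivity
  · refine (l1_adw h hx hy l).trans ?_
    have a : n.kk ^ (l.length + 1) ≤ n.kk ^ s := pow_le_pow_right₀ k1 (by omega)
    have b : B ^ l.length ≤ B ^ s := pow_le_pow_right₀ B1 (by omega)
    have c : (1 : ℝ) ≤ s := by exact_mod_cast (by omega : 1 ≤ s)
    calc _ = 1 * n.kk ^ (l.length + 1) * (B ^ l.length * (n.l1 N x * n.l1 N y)) := by ring
      _ ≤ _ := by gcongr

/-- the correction term is Lipschitz on bounded sets -/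
theorem l1_pol_sub {x y x' y' : n.G R} {B : ℝ} (B1 : 1 ≤ B) (hx : n.l1 N x ≤ B)
    (hy : n.l1 N y ≤ B) (hx' : n.l1 N x' ≤ B) (hy' : n.l1 N y' ≤ B) :
    n.l1 N (n.pol x y - n.pol x' y') ≤ n.cM * (B ^ s * (n.l1 N (x - x') + n.l1 N (y - y'))) := by
  have k1 := n.one_le_kk
  have d1 := l1_nonneg h (x - x')
  have d2 := l1_nonneg h (y - y')
  have e : n.pol x y - n.pol x' y' =
      ∑ l ∈ (cb s).support, cb s l • (adw n.br x y l - adw n.br x' y' l) := by
    simp only [PN.pol, Finsupp.sum, smul_sub, sum_sub_distrib]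
  rw [e]
  refine l1_cb h _ (by positivity) fun l => ?_
  by_cases hl : s ≤ l.length + 1
  · rw [adw_long x y hl, adw_long x' y' hl, sub_self, l1_zero h]
    positivity
  · refine (l1_adw_sub h hx hy hx' l hy').trans ?_
    have a : n.kk ^ (l.length + 1) ≤ n.kk ^ s := pow_le_pow_right₀ k1 (by omega)
    have b : B ^ (l.length + 1) ≤ B ^ s := pow_le_pow_right₀ B1 (by omega)
    have c : (l.length + 2 : ℝ) ≤ s := by exact_mod_cast (by omega : l.length + 2 ≤ s)
    calc _ = (l.length + 2) * n.kk ^ (l.length + 1) *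
          (B ^ (l.length + 1) * (n.l1 N (x - x') + n.l1 N (y - y'))) := by ring
      _ ≤ _ := by gcongr

/-- the product is Lipschitz on bounded sets -/
theorem l1_mul_sub {x y x' y' : n.G R} {B : ℝ} (B1 : 1 ≤ B) (hx : n.l1 N x ≤ B)
    (hy : n.l1 N y ≤ B) (hx' : n.l1 N x' ≤ B) (hy' : n.l1 N y' ≤ B) :
    n.l1 N (x * y - x' * y') ≤ 2 * n.cM * B ^ s * (n.l1 N (x - x') + n.l1 N (y - y')) := by
  have e : x * y - x' * y' = x - x' + (y - y') + (n.pol x y - n.pol x' y') := by
    rw [mul_pol, mul_pol]; abel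
  have a := l1_pol_sub h B1 hx hy hx' hy'
  have b := l1_add h (x - x') (y - y')
  have c := l1_add h (x - x' + (y - y')) (n.pol x y - n.pol x' y')
  have d : 1 * 1 * (n.l1 N (x - x') + n.l1 N (y - y')) ≤
      n.cM * B ^ s * (n.l1 N (x - x') + n.l1 N (y - y')) := by
    have := l1_nonneg h (x - x')
    have := l1_nonneg h (y - y')
    have := n.one_le_cM
    gcongr
    exact one_le_pow₀ B1
  rw [e]
  linarith

/-- close points have a small quotient -/
theorem l1_mul_inv {x y : n.G R} {B : ℝ} (B1 : 1 ≤ B) (hx : n.l1 N x ≤ B) (hy : n.l1 N y ≤ B) :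
    n.l1 N (x * y⁻¹) ≤ 2 * n.cM * B ^ s * n.l1 N (x - y) := by
  have := l1_mul_sub h B1 hx ((l1_inv h y).trans_le hy) hy ((l1_inv h y).trans_le hy)
  rwa [mul_inv_cancel, one_def, sub_zero, sub_self, l1_zero h, add_zero] at this

theorem l1_inv_mul {x y : n.G R} {B : ℝ} (B1 : 1 ≤ B) (hx : n.l1 N x ≤ B) (hy : n.l1 N y ≤ B) :
    n.l1 N (x⁻¹ * y) ≤ 2 * n.cM * B ^ s * n.l1 N (x - y) := by
  have := l1_mul_sub h B1 ((l1_inv h x).trans_le hx) hy ((l1_inv h x).trans_le hx) hx
  rwa [inv_mul_cancel, one_def, sub_zero, sub_self, l1_zero h, zero_add, l1_sub_comm h y] at this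

theorem l1_mul_sub_left {e x : n.G R} {B : ℝ} (B1 : 1 ≤ B) (he : n.l1 N e ≤ B)
    (hx : n.l1 N x ≤ B) : n.l1 N (x * e - x) ≤ 2 * n.cM * B ^ s * n.l1 N e := by
  have := l1_mul_sub h B1 hx he (y' := 1) hx ((l1_zero h).trans_le (by linarith))
  rwa [mul_one, sub_self, l1_zero h, zero_add, one_def, sub_zero] at this

/-- a small factor moves a point little -/
theorem l1_mul_sub_right {e x : n.G R} {B : ℝ} (B1 : 1 ≤ B) (he : n.l1 N e ≤ B)
    (hx : n.l1 N x ≤ B) : n.l1 N (e * x - x) ≤ 2 * n.cM * B ^ s * n.l1 N e := by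
  have := l1_mul_sub h B1 he hx (x' := 1) ((l1_zero h).trans_le (by linarith)) hx
  rwa [one_mul, sub_self, l1_zero h, add_zero, one_def, sub_zero] at this

theorem l1_mul {x y : n.G R} {B : ℝ} (B1 : 1 ≤ B) (hx : n.l1 N x ≤ B) (hy : n.l1 N y ≤ B) :
    n.l1 N (x * y) ≤ n.l1 N x + n.l1 N y + n.cM * (B ^ s * (n.l1 N x * n.l1 N y)) :=
  (l1_add h _ _).trans (add_le_add (l1_add h _ _) (l1_pol h B1 hx hy))

/-- the truncated form: the correction only sees the lower weights -/
theorem lw_mul (w : ℕ) {x y : n.G R} {B : ℝ} (B1 : 1 ≤ B) (hx : n.lw N w x ≤ B)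
    (hy : n.lw N w y ≤ B) : n.lw N (w + 1) (x * y) ≤ n.lw N (w + 1) x + n.lw N (w + 1) y +
      n.cM * (B ^ s * (n.lw N w x * n.lw N w y)) := by
  rw [mul_pol]
  refine (lw_add h _ _ _).trans (add_le_add (lw_add h _ _ _) ?_)
  rw [((ag_trc w x).pol (ag_trc w y)).lw, ← l1_trc h w x, ← l1_trc h w y]
  exact (lw_le h _ _).trans (l1_pol h B1 ((l1_trc h w x).trans_le hx) ((l1_trc h w y).trans_le hy))

omit h in
theorem lw_prod (w : ℕ) : ∃ (C : ℝ) (D : ℕ), 0 ≤ C ∧ ∀ (R : Type) [CommRing R] [Algebra ℚ R]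
    (N : R → ℝ), Sn N → ∀ (L : List (n.G R)) (S : ℝ), (L.map (n.l1 N)).sum ≤ S →
    n.lw N w L.prod ≤ S + C * S ^ 2 * (1 + S) ^ D := by
  have nn : ∀ (R : Type) [CommRing R] [Algebra ℚ R] (N : R → ℝ), Sn N → ∀ L : List (n.G R),
      0 ≤ (L.map (n.l1 N)).sum := fun R _ _ N h L =>
    List.sum_nonneg fun x hx => by
      obtain ⟨y, -, rfl⟩ := List.mem_map.1 hx
      exact l1_nonneg h y
  induction w with
  | zero =>
    refine ⟨0, 0, le_rfl, fun R _ _ N h L S hS => ?_⟩
    simpa [lw] using (nn R N h L).trans hS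
  | succ w ih =>
    obtain ⟨C, D, C0, ih⟩ := ih
    have m1 := n.one_le_cM
    refine ⟨n.cM * (1 + C) ^ (s + 1), (D + 2) * s + (D + 1), by positivity,
      fun R _ _ N h L S hS => ?_⟩
    have S0 : 0 ≤ S := (nn R N h L).trans hS
    have u1 : 1 ≤ 1 + S := by linarith
    have A1 : S + C * S ^ 2 * (1 + S) ^ D ≤ S * ((1 + C) * (1 + S) ^ (D + 1)) := by
      have a : 1 ≤ (1 + S) ^ (D + 1) := one_le_pow₀ u1
      have b : C * S ^ 2 * (1 + S) ^ D ≤ S * (C * (1 + S) ^ (D + 1)) := by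
        calc _ = S * (C * (S * (1 + S) ^ D)) := by ring
          _ ≤ S * (C * ((1 + S) * (1 + S) ^ D)) := by gcongr; linarith
          _ = _ := by ring
      nlinarith
    set A := S * ((1 + C) * (1 + S) ^ (D + 1)) with hA
    set B := (1 + C) * (1 + S) ^ (D + 2) with hB
    have A0 : 0 ≤ A := by positivity
    have AB : A ≤ B := by
      calc A = (1 + C) * ((1 + S) ^ (D + 1) * S) := by rw [hA]; ring
        _ ≤ (1 + C) * ((1 + S) ^ (D + 1) * (1 + S)) := by gcongr; linarith
        _ = B := by rw [hB]; ring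
    have SB : 1 + S ≤ B := by
      calc 1 + S = 1 * (1 + S) ^ 1 := by ring
        _ ≤ B := by
          rw [hB]
          gcongr
          · linarith
          · omega
    have key : ∀ L : List (n.G R), (L.map (n.l1 N)).sum ≤ S →
        n.lw N (w + 1) L.prod ≤ (L.map (n.l1 N)).sum * (1 + n.cM * (B ^ s * A)) := by
      intro L
      induction L with
      | nil => intro _; simp [lw, one_def, h.zero]
      | cons e L ihL =>
        intro hS
        rw [List.map_cons, List.sum_cons] at hS ⊢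
        have e0 := l1_nonneg h e
        have L0 := nn R N h L
        have p := (ih R N h L S (by linarith)).trans A1
        have q := lw_le h w e
        have := lw_mul h w (x := e) (y := L.prod) (B := B) (by linarith) (by linarith) (p.trans AB)
        have r : n.cM * (B ^ s * (n.lw N w e * n.lw N w L.prod)) ≤
            n.cM * (B ^ s * (n.l1 N e * A)) := by
          have := lw_nonneg h w L.prod
          have : 0 ≤ B := by linarith
          gcongr
        have t := ihL (by linarith)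
        have u := lw_le h (w + 1) e
        rw [List.prod_cons]
        nlinarith
    refine (key L hS).trans ?_
    have : 0 ≤ B := by linarith
    calc _ ≤ S * (1 + n.cM * (B ^ s * A)) := by gcongr
      _ = _ := by rw [hA, hB, mul_pow, ← pow_mul]; ring

omit h in
/-- growth of words -/
theorem l1_prod : ∃ (C : ℝ) (D : ℕ), 0 ≤ C ∧ ∀ (R : Type) [CommRing R] [Algebra ℚ R]
    (N : R → ℝ), Sn N → ∀ (L : List (n.G R)) (S : ℝ), (L.map (n.l1 N)).sum ≤ S →
    n.l1 N L.prod ≤ S + C * S ^ 2 * (1 + S) ^ D := by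
  obtain ⟨C, D, C0, h⟩ := n.lw_prod (s + 1)
  exact ⟨C, D, C0, fun R _ _ N hN L S hS => by rw [← lw_top]; exact h R N hN L S hS⟩

end PN

end Pool.Agent.Lib.MP_028aa5_nt.N
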