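import Pool.Agent.Lib.MP_028aa5_nt.N.Grp

/-! Unipotent upper triangular matrices in exponential coordinates. -/

namespace Pool.Agent.Lib.MP_028aa5_nt.N

open Finset
open scoped Classical

/-- an additive map that respects the brackets respects the bracket polynomial -/
theorem map_bp {L L' : Type} [AddCommGroup L] [Module ℚ L] [AddCommGroup L'] [Module ℚ L']
    {br : L → L → L} {br' : L' → L' → L'} (f : L →+ L') (h : ∀ u v, f (br u v) = br' (f u) (f v))
    (c : List Bool →₀ ℚ) (x y : L) : f (bp br c x y) = bp br' c (f x) (f y) := by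
  have a : ∀ w, f (adw br x y w) = adw br' (f x) (f y) w := by
    intro w
    induction w with
    | nil => exact h x y
    | cons b w ih =>
      rw [adw, adw, h, ih]
      cases b <;> rfl
  rw [bp, bp, map_add, map_add, Finsupp.sum, Finsupp.sum, map_sum]
  simp only [map_rat_smul, a]

namespace UT

variable {d : ℕ} {R : Type} [CommRing R]

/-- square matrices -/
abbrev Mx (d : ℕ) (R : Type) : Type := Matrix (Fin d) (Fin d) R

/-- the entries vanish below the `m`-th diagonal -/
def Up (m : ℕ) (A : Mx d R) : Prop := ∀ i j : Fin d, (j : ℕ) < i + m → A i j = 0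

theorem Up.mul {m m' : ℕ} {A B : Mx d R} (hA : Up m A) (hB : Up m' B) : Up (m + m') (A * B) :=
  fun i j h => by
    rw [Matrix.mul_apply]
    refine sum_eq_zero fun l _ => ?_
    by_cases c : (l : ℕ) < i + m
    · rw [hA i l c, zero_mul]
    · rw [hB l j (by omega), mul_zero]

theorem Up.mono {m m' : ℕ} {A : Mx d R} (hA : Up m A) (h : m' ≤ m) : Up m' A :=
  fun i j c => hA i j (by omega)

theorem Up.add {m : ℕ} {A B : Mx d R} (hA : Up m A) (hB : Up m B) : Up m (A + B) :=
  fun i j c => by rw [Matrix.add_apply, hA i j c, hB i j c, add_zero]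

theorem Up.sub {m : ℕ} {A B : Mx d R} (hA : Up m A) (hB : Up m B) : Up m (A - B) :=
  fun i j c => by rw [Matrix.sub_apply, hA i j c, hB i j c, sub_zero]

theorem Up.smul {S : Type} [SMulZeroClass S R] {m : ℕ} {A : Mx d R} (hA : Up m A) (t : S) :
    Up m (t • A) := fun i j c => by rw [Matrix.smul_apply, hA i j c, smul_zero]

theorem Up.sum {ι : Type} {m : ℕ} {T : Finset ι} {A : ι → Mx d R} (h : ∀ u ∈ T, Up m (A u)) :
    Up m (∑ u ∈ T, A u) := fun i j c => by
  rw [Matrix.sum_apply]
  exact sum_eq_zero fun u hu => h u hu i j c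

theorem up_zero (m : ℕ) : Up m (0 : Mx d R) := fun _ _ _ => rfl

theorem up_one : Up 0 (1 : Mx d R) := fun i j c =>
  Matrix.one_apply_ne fun e => by rw [e] at c; omega

theorem Up.eq_zero {m : ℕ} {A : Mx d R} (hA : Up m A) (h : d ≤ m) : A = 0 :=
  Matrix.ext fun i j => hA i j (by have := j.2; omega)

theorem Up.pow {A : Mx d R} (hA : Up 1 A) (i : ℕ) : Up i (A ^ i) := by
  induction i with
  | zero => simpa using up_one
  | succ i ih => simpa [pow_succ] using ih.mul hA

theorem up_prod (l : List (Mx d R)) (h : ∀ u ∈ l, Up 1 u) : Up l.length l.prod := by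
  induction l with
  | nil => simpa using up_one
  | cons u l ih =>
    rw [List.prod_cons, List.length_cons, add_comm]
    exact (h u (by simp)).mul (ih fun v hv => h v (by simp [hv]))

theorem Up.cm {A B : Mx d R} (hA : Up 1 A) (hB : Up 1 B) : Up 1 (cm A B) :=
  ((hA.mul hB).sub (hB.mul hA)).mono one_le_two

variable [Algebra ℚ R]

theorem ex_eq {s : ℕ} (hs : d ≤ s) {A : Mx d R} (hA : Up 1 A) :
    ex s A = 1 + A + ∑ i ∈ range s, (((i + 2).factorial : ℚ)⁻¹) • A ^ (i + 2) := by
  have z : A ^ (s + 1) = 0 := (hA.pow _).eq_zero (by omega)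
  have e : ex s A = ∑ i ∈ range (s + 2), ((i.factorial : ℚ)⁻¹) • A ^ i := by
    rw [sum_range_succ, z, smul_zero, add_zero, ex]
  rw [e, sum_range_succ', sum_range_succ']
  simp only [zero_add, Nat.factorial_one, Nat.factorial_zero, Nat.cast_one, inv_one, one_smul,
    pow_one, pow_zero]
  abel

theorem up_ex {s : ℕ} (hs : d ≤ s) {A : Mx d R} (hA : Up 1 A) : Up 1 (ex s A - 1) := by
  rw [ex_eq hs hA, add_assoc, add_sub_cancel_left]
  exact hA.add (Up.sum fun i _ => ((hA.pow _).mono (by omega)).smul _)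

omit [Algebra ℚ R] in
theorem pow_sub {m : ℕ} {A B : Mx d R} (hA : Up 1 A) (hB : Up 1 B) (h : Up m (A - B)) (i : ℕ) :
    Up (m + i) (A ^ (i + 1) - B ^ (i + 1)) := by
  induction i with
  | zero => simpa using h
  | succ i ih =>
    have e : A ^ (i + 1 + 1) - B ^ (i + 1 + 1) =
        (A ^ (i + 1) - B ^ (i + 1)) * A + B ^ (i + 1) * (A - B) := by
      rw [pow_succ A (i + 1), pow_succ B (i + 1)]
      noncomm_ring
    rw [e]
    exact (ih.mul hA).add (((hB.pow _).mul h).mono (by omega))

theorem ex_sub {s m : ℕ} (hs : d ≤ s) {A B : Mx d R} (hA : Up 1 A) (hB : Up 1 B)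
    (h : Up m (A - B)) : Up (m + 1) (ex s A - ex s B - (A - B)) := by
  have e : ex s A - ex s B - (A - B) =
      ∑ i ∈ range s, (((i + 2).factorial : ℚ)⁻¹) • (A ^ (i + 2) - B ^ (i + 2)) := by
    rw [ex_eq hs hA, ex_eq hs hB]
    simp only [smul_sub, sum_sub_distrib]
    abel
  rw [e]
  exact Up.sum fun i _ => ((pow_sub hA hB h (i + 1)).mono (by omega)).smul _

theorem ex_inj {s : ℕ} (hs : d ≤ s) {A B : Mx d R} (hA : Up 1 A) (hB : Up 1 B)
    (h : ex s A = ex s B) : A = B := by
  have k : ∀ m, Up (m + 1) (A - B) := by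
    intro m
    induction m with
    | zero => exact hA.sub hB
    | succ m ih =>
      have := (up_zero _).sub (ex_sub hs hA hB ih)
      rwa [h, sub_self, zero_sub, zero_sub, neg_neg] at this
  exact sub_eq_zero.1 ((k d).eq_zero (by omega))

/-- the exponential is onto inside every space of nilpotent matrices that is closed under
products -/
theorem ex_surj {s : ℕ} (hs : d ≤ s) (J : Submodule ℚ (Mx d R)) (h1 : ∀ A ∈ J, Up 1 A)
    (hm : ∀ A ∈ J, ∀ B ∈ J, A * B ∈ J) {N : Mx d R} (hN : N ∈ J) : ∃ A ∈ J, ex s A = 1 + N := by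
  have p : ∀ A ∈ J, ∀ i, A ^ (i + 1) ∈ J := fun A hA i => by
    induction i with
    | zero => simpa using hA
    | succ i ih => rw [pow_succ]; exact hm _ ih _ hA
  have q : ∀ A ∈ J, 1 + N - ex s A ∈ J := fun A hA => by
    rw [ex_eq hs (h1 A hA), add_assoc, add_sub_add_left_eq_sub]
    exact J.sub_mem hN (J.add_mem hA (J.sum_mem fun i _ => J.smul_mem _ (p A hA (i + 1))))
  have k : ∀ m, ∃ A ∈ J, Up (m + 1) (1 + N - ex s A) := by
    intro m
    induction m with
    | zero => exact ⟨0, J.zero_mem, h1 _ (q 0 J.zero_mem)⟩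
    | succ m ih =>
      obtain ⟨A, hA, h⟩ := ih
      have hA' := J.add_mem hA (q A hA)
      refine ⟨_, hA', ?_⟩
      have := (up_zero _).sub (ex_sub hs (h1 _ hA') (h1 A hA) (by rwa [add_sub_cancel_left]))
      convert this using 1
      abel
  obtain ⟨A, hA, h⟩ := k d
  exact ⟨A, hA, (sub_eq_zero.1 (h.eq_zero (by omega))).symm⟩

theorem ex_zero {s : ℕ} (hs : d ≤ s) : ex s (0 : Mx d R) = 1 := by
  rw [ex_eq hs (up_zero 1)]
  simp

theorem ex_stab {s : ℕ} (hs : d ≤ s) {A : Mx d R} (hA : Up 1 A) : ex s A = ex d A := by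
  induction hs with
  | refl => rfl
  | step h ih =>
    rw [← ih, ex, sum_range_succ, (hA.pow _).eq_zero (Nat.le_succ_of_le h), smul_zero, add_zero, ex]

theorem ex_map {R' : Type} [CommRing R'] [Algebra ℚ R'] (φ : R →+* R') (s : ℕ) (A : Mx d R) :
    ex s (A.map φ) = (ex s A).map φ := by
  rw [← RingHom.mapMatrix_apply, ← RingHom.mapMatrix_apply, ex, ex, map_sum]
  exact sum_congr rfl fun i _ => by rw [map_rat_smul φ.mapMatrix, map_pow]

/-- logarithms of unipotent matrices with entries in a family that is closed under products -/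
theorem ex_fam {s : ℕ} (hs : d ≤ s) (S : Fin d → Fin d → Submodule ℚ R)
    (hS : ∀ i l j : Fin d, i < l → l < j → ∀ u ∈ S i l, ∀ v ∈ S l j, u * v ∈ S i j) {A : Mx d R}
    (hA : Up 1 (A - 1)) (h : ∀ i j, i < j → A i j ∈ S i j) :
    ∃ B, Up 1 B ∧ (∀ i j, B i j ∈ S i j) ∧ ex s B = A := by
  let J : Submodule ℚ (Mx d R) :=
    { carrier := {B | Up 1 B ∧ ∀ i j, B i j ∈ S i j}
      add_mem' := fun a b => ⟨a.1.add b.1, fun i j => (S i j).add_mem (a.2 i j) (b.2 i j)⟩
      zero_mem' := ⟨up_zero 1, fun i j => (S i j).zero_mem⟩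
      smul_mem' := fun t _ a => ⟨a.1.smul t, fun i j => (S i j).smul_mem t (a.2 i j)⟩ }
  obtain ⟨B, hB, e⟩ := ex_surj hs J (fun _ a => a.1)
    (fun B a C b => ⟨(a.1.mul b.1).mono one_le_two, fun i j => by
      rw [Matrix.mul_apply]
      refine (S i j).sum_mem fun l _ => ?_
      by_cases c1 : i < l
      · by_cases c2 : l < j
        · exact hS i l j c1 c2 _ (a.2 i l) _ (b.2 l j)
        · rw [b.1 l j (by have : ¬(l : ℕ) < j := c2; omega), mul_zero]
          exact (S i j).zero_mem
      · rw [a.1 i l (by have : ¬(i : ℕ) < l := c1; omega), zero_mul]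
        exact (S i j).zero_mem⟩) (N := A - 1) ⟨hA, fun i j => by
      by_cases c : i < j
      · rw [Matrix.sub_apply, Matrix.one_apply_ne c.ne, sub_zero]
        exact h i j c
      · rw [hA i j (by have : ¬(i : ℕ) < j := c; omega)]
        exact (S i j).zero_mem⟩
  exact ⟨B, hB.1, hB.2, by rw [e, add_sub_cancel]⟩

/-- exponentials of highly divisible matrices are congruent to the identity -/
theorem ex_int {s : ℕ} (hs : d ≤ s) (S : Subring R) (D : ℕ) {B : Mx d R} (hB : Up 1 B)
    (h : ∀ i j, B i j ∈ S) :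
    ∃ C : Mx d R, (∀ i j, C i j ∈ S) ∧ ex s ((D * (s + 1).factorial) • B) - 1 = D • C := by
  have hp : ∀ m i j, (B ^ (m + 1)) i j ∈ S := fun m => by
    induction m with
    | zero => simpa using h
    | succ m ih =>
      intro i j
      rw [pow_succ, Matrix.mul_apply]
      exact S.sum_mem fun l _ => S.mul_mem (ih i l) (h l j)
  have k : ∀ i ∈ range s, ∃ t : ℕ, (D * (s + 1).factorial) ^ (i + 2) = (i + 2).factorial * (D * t) :=
    fun i hi => by
      obtain ⟨u, hu⟩ := Nat.factorial_dvd_factorial (show i + 2 ≤ s + 1 by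
        have := mem_range.1 hi; omega)
      exact ⟨u * (D * (s + 1).factorial) ^ (i + 1), by rw [pow_succ' _ (i + 1), hu]; ring⟩
  choose! t ht using k
  refine ⟨(s + 1).factorial • B + ∑ i ∈ range s, t i • B ^ (i + 2), fun i j => ?_, ?_⟩
  · rw [Matrix.add_apply, Matrix.sum_apply]
    exact S.add_mem (nsmul_mem (h i j) _) (S.sum_mem fun m _ => nsmul_mem (hp (m + 1) i j) _)
  · rw [ex_eq hs (hB.smul _), add_assoc, add_sub_cancel_left, smul_add, mul_smul, smul_sum]
    refine congrArg _ (sum_congr rfl fun i hi => ?_)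
    rw [← mul_smul, smul_pow, ht i hi, mul_smul, ← Nat.cast_smul_eq_nsmul ℚ (i + 2).factorial,
      smul_smul, inv_mul_cancel₀ (by exact_mod_cast (i + 2).factorial_ne_zero), one_smul, mul_smul]

/-! ### representations -/

variable {s : ℕ} {n : PN s}

/-- rational matrices read in `R` -/
noncomputable def cs (R : Type) [CommRing R] [Algebra ℚ R] (A : Mx d ℚ) : Mx d R :=
  A.map (algebraMap ℚ R)

theorem Up.cs {m : ℕ} {A : Mx d ℚ} (h : Up m A) : Up m (cs R A) := fun i j c => by
  rw [UT.cs, Matrix.map_apply, h i j c, map_zero]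

/-- a representation of the algebra by strictly upper triangular matrices -/
structure Rep (n : PN s) (v : n.I → Mx d ℚ) : Prop where
  le : d ≤ s
  up : ∀ a, Up 1 (v a)
  br : ∀ a b, cm (v a) (v b) = ∑ c, (n.k a b c : ℚ) • v c

/-- the matrix of a point of the algebra -/
noncomputable def lm (v : n.I → Mx d ℚ) : n.G R →+ Mx d R where
  toFun x := ∑ a, x a • cs R (v a)
  map_zero' := by simp
  map_add' x y := by simp [add_smul, sum_add_distrib]

/-- the exponential map -/
noncomputable def Ex (v : n.I → Mx d ℚ) (x : n.G R) : Mx d R := ex s (lm v x)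

variable {v : n.I → Mx d ℚ}

theorem lm_apply (x : n.G R) : lm v x = ∑ a, x a • cs R (v a) := rfl

theorem Rep.up_lm (h : Rep n v) (x : n.G R) : Up 1 (lm v x) :=
  Up.sum fun a _ => (h.up a).cs.smul _

theorem Rep.lm_br (h : Rep n v) (x y : n.G R) : lm v (n.br x y) = cm (lm v x) (lm v y) := by
  have e : ∀ a b, cm (cs R (v a)) (cs R (v b)) = ∑ c, (n.k a b c : R) • cs R (v c) := fun a b => by
    have := congrArg (algebraMap ℚ R).mapMatrix (h.br a b)
    rw [cm, map_sub, map_mul, map_mul, map_sum] at this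
    refine this.trans (sum_congr rfl fun c _ => ?_)
    rw [Int.cast_smul_eq_zsmul, Int.cast_smul_eq_zsmul, map_zsmul]
    rfl
  have e2 : cm (lm v x) (lm v y) = ∑ a, ∑ b, (x a * y b) • cm (cs R (v a)) (cs R (v b)) := by
    rw [cm, lm_apply, lm_apply, sum_mul_sum, sum_mul_sum, sum_comm (s := univ) (t := univ)
      (f := fun b a => y b • cs R (v b) * x a • cs R (v a)), ← sum_sub_distrib]
    refine sum_congr rfl fun a _ => ?_
    rw [← sum_sub_distrib]
    refine sum_congr rfl fun b _ => ?_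
    rw [smul_mul_smul_comm, smul_mul_smul_comm, cm, smul_sub, mul_comm (y b)]
  rw [e2, lm_apply]
  simp only [e, PN.br, sum_smul, smul_sum, smul_smul]
  rw [sum_comm]
  refine sum_congr rfl fun a _ => ?_
  rw [sum_comm]
  exact sum_congr rfl fun b _ => sum_congr rfl fun c _ => by rw [mul_comm]

theorem Rep.Ex_mul (h : Rep n v) (hG : Good s (cb s)) (x y : n.G R) :
    Ex v (x * y) = Ex v x * Ex v y := by
  rw [Ex, Ex, Ex, ← hG.2.1 _ (lm v x) (lm v y) fun l hl hn => ?_]
  · exact congrArg _ (map_bp (lm v) h.lm_br _ x y)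
  · refine (up_prod l fun u hu => ?_).eq_zero (by have := h.le; omega)
    rcases hl u hu with rfl | rfl <;> exact h.up_lm _

theorem Rep.Ex_one (h : Rep n v) : Ex v (1 : n.G R) = 1 := by
  rw [Ex, PN.one_def, map_zero, ex_zero h.le]

theorem lm_map {R' : Type} [CommRing R'] [Algebra ℚ R'] (φ : R →+* R') (x : n.G R) :
    lm v (n.map φ x) = (lm v x).map φ := by
  ext i j
  simp only [lm_apply, Matrix.map_apply, Matrix.sum_apply, Matrix.smul_apply, smul_eq_mul, map_sum,
    map_mul, cs, PN.map_apply, RingHom.map_rat_algebraMap]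

end UT

end Pool.Agent.Lib.MP_028aa5_nt.N
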