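import Pool.Agent.Lib.MP_028aa5_nt.N.UT
import Pool.Agent.Lib.MP_028aa5_nt.N.Defs

/-! Lipschitz approximation of continuous functions on a nilmanifold. -/

namespace Pool.Agent.Lib.MP_028aa5_nt.N

open Finset
open scoped Classical

namespace UT

section Inf

variable {G : Type} [Group G] {μ φ : G → ℝ} {B L : ℝ}

/-- infimal convolution along left translations -/
noncomputable def icv (μ φ : G → ℝ) (L : ℝ) (x : G) : ℝ := ⨅ u, (φ (u * x) + L * μ u)

theorem icv_le (h0 : ∀ u, 0 ≤ μ u) (hB : ∀ x, |φ x| ≤ B) (hL : 0 ≤ L) (x u : G) :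
    icv μ φ L x ≤ φ (u * x) + L * μ u :=
  ciInf_le ⟨-B, by
    rintro _ ⟨u, rfl⟩
    have := (abs_le.1 (hB (u * x))).1
    have := mul_nonneg hL (h0 u)
    simp only
    linarith⟩ u

theorem icv_lip (h0 : ∀ u, 0 ≤ μ u) (hs : ∀ u v, μ (u * v) ≤ μ u + μ v) (hB : ∀ x, |φ x| ≤ B)
    (hL : 0 ≤ L) (w x : G) : icv μ φ L (w * x) ≤ icv μ φ L x + L * μ w⁻¹ := by
  rw [← sub_le_iff_le_add]
  refine le_ciInf fun u => ?_
  have := icv_le h0 hB hL (w * x) (u * w⁻¹)
  rw [mul_assoc, inv_mul_cancel_left] at this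
  have := mul_le_mul_of_nonneg_left (hs u w⁻¹) hL
  linarith

theorem icv_near (h0 : ∀ u, 0 ≤ μ u) (h1 : μ 1 = 0) (hB : ∀ x, |φ x| ≤ B) {ε δ : ℝ} (hε : 0 ≤ ε)
    (hL : 0 ≤ L) (hδ : 2 * B ≤ L * δ) (hu : ∀ u x, μ u < δ → |φ (u * x) - φ x| ≤ ε) (x : G) :
    |φ x - icv μ φ L x| ≤ ε := by
  have a := icv_le h0 hB hL x 1
  rw [one_mul, h1, mul_zero, add_zero] at a
  have b : φ x - ε ≤ icv μ φ L x := le_ciInf fun u => by
    by_cases c : μ u < δ
    · have := (abs_le.1 (hu u x c)).1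
      have := mul_nonneg hL (h0 u)
      linarith
    · have := (abs_le.1 (hB (u * x))).1
      have := (abs_le.1 (hB x)).2
      have := mul_le_mul_of_nonneg_left (not_lt.1 c) hL
      linarith
  exact abs_le.2 ⟨by linarith, by linarith⟩

theorem icv_bd (h0 : ∀ u, 0 ≤ μ u) (h1 : μ 1 = 0) (hB : ∀ x, |φ x| ≤ B) (hL : 0 ≤ L) (x : G) :
    |icv μ φ L x| ≤ B := by
  have a := icv_le h0 hB hL x 1
  rw [one_mul, h1, mul_zero, add_zero] at a
  refine abs_le.2 ⟨le_ciInf fun u => ?_, a.trans (abs_le.1 (hB x)).2⟩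
  have := (abs_le.1 (hB (u * x))).1
  have := mul_nonneg hL (h0 u)
  linarith

end Inf

theorem nG_inv {s : ℕ} {n : PN s} (x : n.G ℝ) : PN.nG x⁻¹ = PN.nG x := by
  simp [PN.nG, PN.inv_def]

/-- approximation by a test function -/
theorem test_approx {s : ℕ} (n : NS s) (f : n.G ℝ → ℂ) (μ : n.G ℝ → ℝ) {C B ε δ : ℝ}
    (h0 : ∀ u, 0 ≤ μ u) (h1 : μ 1 = 0) (hs : ∀ u v, μ (u * v) ≤ μ u + μ v)
    (hC : ∀ u, μ u ≤ C * PN.nG u) (hB : ∀ x, ‖f x‖ ≤ B) (hi : ∀ x, ∀ γ ∈ n.Gam, f (x * γ) = f x)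
    (hε : 0 ≤ ε) (hδ : 0 < δ) (hu : ∀ u x, μ u < δ → ‖f (u * x) - f x‖ ≤ ε) :
    ∃ (F : n.G ℝ → ℂ) (L c : ℝ), 0 < c ∧ n.Test F L ∧ ∀ x, ‖f x - c * F x‖ ≤ 2 * ε := by
  have B0 : 0 ≤ B := (norm_nonneg _).trans (hB 1)
  set L := 2 * B / δ
  have hL : 0 ≤ L := by positivity
  have hd : 2 * B ≤ L * δ := (div_mul_cancel₀ _ hδ.ne').ge
  have b1 : ∀ x, |(f x).re| ≤ B := fun x => (Complex.abs_re_le_norm _).trans (hB x)
  have b2 : ∀ x, |(f x).im| ≤ B := fun x => (Complex.abs_im_le_norm _).trans (hB x)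
  let p := icv μ (fun x => (f x).re) L
  let q := icv μ (fun x => (f x).im) L
  have c0 : 0 < 2 * B + 1 := by positivity
  have lip : ∀ φ : n.G ℝ → ℝ, (∀ x, |φ x| ≤ B) → ∀ u x,
      |icv μ φ L (u * x) - icv μ φ L x| ≤ L * C * PN.nG u := fun φ hφ u x => by
    have a := icv_lip h0 hs hφ hL u x
    have b := icv_lip h0 hs hφ hL u⁻¹ (u * x)
    rw [inv_mul_cancel_left, inv_inv] at b
    have c := mul_le_mul_of_nonneg_left (hC u) hL
    have c' := mul_le_mul_of_nonneg_left (hC u⁻¹) hL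
    rw [nG_inv] at c'
    exact abs_le.2 ⟨by linarith, by linarith⟩
  have nr : ∀ z : ℂ, ‖z / (2 * B + 1 : ℝ)‖ ≤ (|z.re| + |z.im|) / (2 * B + 1) := fun z => by
    rw [norm_div, Complex.norm_real, Real.norm_of_nonneg c0.le]
    exact div_le_div_of_nonneg_right (Complex.norm_le_abs_re_add_abs_im z) c0.le
  refine ⟨fun x => (⟨p x, q x⟩ : ℂ) / (2 * B + 1 : ℝ), 2 * (L * C) / (2 * B + 1), _, c0,
    ⟨fun x => (nr _).trans ?_, fun x γ hγ => ?_, fun u x => ?_⟩, fun x => ?_⟩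
  · rw [div_le_one c0]
    have := icv_bd h0 h1 b1 hL x
    have := icv_bd h0 h1 b2 hL x
    simp only [p, q]
    linarith
  · simp only [p, q, icv, ← mul_assoc, hi _ γ hγ]
  · rw [← sub_div]
    refine (nr _).trans ?_
    rw [div_mul_eq_mul_div]
    refine div_le_div_of_nonneg_right ?_ c0.le
    have := lip _ b1 u x
    have := lip _ b2 u x
    simp only [Complex.sub_re, Complex.sub_im, p, q]
    linarith
  · rw [mul_div_cancel₀ _ (Complex.ofReal_ne_zero.2 c0.ne')]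
    refine (Complex.norm_le_abs_re_add_abs_im _).trans ?_
    have := icv_near h0 h1 b1 hε hL hd (fun u x c =>
      (Complex.abs_re_le_norm (f (u * x) - f x)).trans (hu u x c)) x
    have := icv_near h0 h1 b2 hε hL hd (fun u x c =>
      (Complex.abs_im_le_norm (f (u * x) - f x)).trans (hu u x c)) x
    simp only [Complex.sub_re, Complex.sub_im, p, q]
    linarith

variable {d : ℕ}

/-- sum of the absolute values of the entries -/
noncomputable def nM (A : Mx d ℝ) : ℝ := ∑ i, ∑ j, |A i j|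

theorem nM_nonneg (A : Mx d ℝ) : 0 ≤ nM A := sum_nonneg fun _ _ => sum_nonneg fun _ _ => abs_nonneg _

theorem le_nM (A : Mx d ℝ) (i j : Fin d) : |A i j| ≤ nM A :=
  (single_le_sum (f := fun j => |A i j|) (fun _ _ => abs_nonneg _) (mem_univ j)).trans
    (single_le_sum (f := fun i => ∑ j, |A i j|)
      (fun _ _ => sum_nonneg fun _ _ => abs_nonneg _) (mem_univ i))

theorem nM_zero : nM (0 : Mx d ℝ) = 0 := by simp [nM]

theorem nM_add (A B : Mx d ℝ) : nM (A + B) ≤ nM A + nM B := by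
  simp only [nM, ← sum_add_distrib]
  exact sum_le_sum fun i _ => sum_le_sum fun j _ => abs_add_le _ _

theorem nM_smul (t : ℝ) (A : Mx d ℝ) : nM (t • A) = |t| * nM A := by
  simp [nM, mul_sum, abs_mul]

theorem nM_sum {ι : Type} (T : Finset ι) (A : ι → Mx d ℝ) :
    nM (∑ u ∈ T, A u) ≤ ∑ u ∈ T, nM (A u) :=
  Finset.le_sum_of_subadditive nM nM_zero.le nM_add T A

theorem nM_mul (A B : Mx d ℝ) : nM (A * B) ≤ nM A * nM B := by
  rw [nM, nM, sum_mul]
  refine sum_le_sum fun i _ => ?_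
  calc _ ≤ ∑ j, ∑ l, |A i l| * |B l j| := sum_le_sum fun j _ => by
        rw [Matrix.mul_apply]
        exact (abs_sum_le_sum_abs _ _).trans (sum_le_sum fun l _ => (abs_mul _ _).le)
    _ = ∑ l, |A i l| * ∑ j, |B l j| := by rw [sum_comm]; simp only [mul_sum]
    _ ≤ _ := by
        rw [sum_mul]
        exact sum_le_sum fun l _ => mul_le_mul_of_nonneg_left
          (single_le_sum (f := fun i => ∑ j, |B i j|)
            (fun _ _ => sum_nonneg fun _ _ => abs_nonneg _) (mem_univ l)) (abs_nonneg _)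

theorem nM_pow (A : Mx d ℝ) (i : ℕ) : nM (A ^ (i + 1)) ≤ nM A ^ (i + 1) := by
  induction i with
  | zero => simp
  | succ i ih =>
    rw [pow_succ, pow_succ (nM A)]
    exact (nM_mul _ _).trans (mul_le_mul_of_nonneg_right ih (nM_nonneg A))

theorem nM_ex (s : ℕ) (A : Mx d ℝ) : 1 + nM (ex s A - 1) ≤ Real.exp (nM A) := by
  refine le_trans ?_ (Real.sum_le_exp_of_nonneg (nM_nonneg A) (s + 1))
  rw [ex, sum_range_succ', sum_range_succ']
  simp only [Nat.factorial_zero, Nat.cast_one, inv_one, one_smul, pow_zero, add_sub_cancel_right,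
    div_one]
  rw [add_comm]
  refine add_le_add_left ((nM_sum _ _).trans (sum_le_sum fun i _ => ?_)) _
  rw [← Rat.cast_smul_eq_qsmul ℝ, nM_smul, div_eq_inv_mul]
  push_cast
  rw [abs_of_nonneg (by positivity)]
  exact mul_le_mul_of_nonneg_left (nM_pow A i) (by positivity)

theorem nM_mul_sub (A B : Mx d ℝ) : 1 + nM (A * B - 1) ≤ (1 + nM (A - 1)) * (1 + nM (B - 1)) := by
  have e : A * B - 1 = (A - 1) * (B - 1) + ((A - 1) + (B - 1)) := by noncomm_ring
  have := nM_add ((A - 1) * (B - 1)) ((A - 1) + (B - 1))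
  have := nM_add (A - 1) (B - 1)
  have := nM_mul (A - 1) (B - 1)
  rw [e]
  linarith

variable {s : ℕ} {n : NS s} {v : n.I → Mx d ℚ}

theorem cont_Ex (v : n.I → Mx d ℚ) : Continuous fun x : n.I → ℝ => Ex (n := n.toPN) v x := by
  have : Continuous fun x : n.I → ℝ => lm (n := n.toPN) v x :=
    continuous_finsetSum _ fun a _ => (continuous_apply a).smul continuous_const
  simp only [Ex, ex, ← Rat.cast_smul_eq_qsmul ℝ]
  exact continuous_finsetSum _ fun i _ =>
    ((this.pow i).const_smul (((i.factorial : ℚ)⁻¹ : ℚ) : ℝ)).congr fun _ => rfl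

/-- a continuous function on the matrix group is nearly a multiple of a test function -/
theorem Rep.approx (h : Rep n.toPN v) (hG : Good s (cb s))
    (fd : ∃ C, ∀ x : n.G ℝ, ∃ γ ∈ n.Gam, PN.nG (x * γ) ≤ C) {G : Set (Mx d ℝ)}
    (hm : ∀ x : n.G ℝ, Ex v x ∈ G) {F : Mx d ℝ → ℂ} (hF : ContinuousOn F G)
    (hi : ∀ x : n.G ℝ, ∀ γ ∈ n.Gam, F (Ex v x * Ex v γ) = F (Ex v x)) {ε : ℝ} (hε : 0 < ε) :
    ∃ (F2 : n.G ℝ → ℂ) (L c : ℝ), 0 < c ∧ n.Test F2 L ∧ ∀ x, ‖F (Ex v x) - c * F2 x‖ ≤ ε := by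
  obtain ⟨C, fd⟩ := fd
  have inv : ∀ x : n.G ℝ, ∀ γ ∈ n.Gam, F (Ex v (x * γ)) = F (Ex v x) := fun x γ hγ => by
    rw [h.Ex_mul hG, hi x γ hγ]
  let K : Set (n.I → ℝ) := Metric.closedBall 0 |C|
  have hK : IsCompact K := isCompact_closedBall _ _
  have mK : ∀ x : n.G ℝ, PN.nG x ≤ C → x ∈ K := fun x hx =>
    mem_closedBall_zero_iff.2 ((pi_norm_le_iff_of_nonneg (abs_nonneg C)).2 fun a =>
      (single_le_sum (f := fun a => |x a|) (fun _ _ => abs_nonneg _) (mem_univ a)).trans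
        (hx.trans (le_abs_self C)))
  let G' : Set (Fin d → Fin d → ℝ) := G
  let e : (n.I → ℝ) → G' := fun x => ⟨Ex (n := n.toPN) v x, hm x⟩
  have ce : Continuous e := (cont_Ex v).subtype_mk _
  have cF : Continuous fun y : G' => F y.1 := hF.domRestrict
  obtain ⟨B, hB⟩ := hK.exists_bound_of_continuousOn (cF.comp ce).continuousOn
  obtain ⟨B', hB'⟩ := hK.exists_bound_of_continuousOn (f := fun x => nM (Ex (n := n.toPN) v x))
    (continuous_finsetSum _ fun i _ => continuous_finsetSum _ fun j _ =>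
      ((cont_Ex v).matrix_elem i j).abs).continuousOn
  obtain ⟨δ, d0, hδ⟩ := Metric.mem_uniformity_dist.1
    ((hK.image ce).uniformContinuousAt_of_continuousAt (fun y : G' => F y.1)
      (fun _ _ => cF.continuousAt) (Metric.dist_mem_uniformity (half_pos hε)))
  have p0 : ∀ u : n.G ℝ, 0 < 1 + nM (Ex v u - 1) := fun u => by
    have := nM_nonneg (Ex v u - 1)
    linarith
  have b0 : 0 < |B'| + 1 := by positivity
  obtain ⟨F2, L, c, c0, hT, hc⟩ := test_approx n (fun x => F (Ex v x))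
    (fun u => Real.log (1 + nM (Ex v u - 1))) (C := ∑ a, nM (cs ℝ (v a))) (B := B) (ε := ε / 2)
    (δ := Real.log (1 + δ / (|B'| + 1)))
    (fun u => Real.log_nonneg (by linarith [nM_nonneg (Ex v u - 1)]))
    (by rw [h.Ex_one, sub_self, nM_zero, add_zero, Real.log_one])
    (fun u w => by
      rw [← Real.log_mul (p0 u).ne' (p0 w).ne', h.Ex_mul hG]
      exact Real.log_le_log (h.Ex_mul hG u w ▸ p0 (u * w)) (nM_mul_sub _ _))
    (fun u => by
      refine ((Real.log_le_iff_le_exp (p0 u)).2 (nM_ex s _)).trans ((nM_sum _ _).trans ?_)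
      rw [sum_mul]
      refine sum_le_sum fun a _ => ?_
      rw [nM_smul, mul_comm]
      exact mul_le_mul_of_nonneg_left (single_le_sum (f := fun a => |u a|)
        (fun _ _ => abs_nonneg _) (mem_univ a)) (nM_nonneg _))
    (fun x => by
      obtain ⟨γ, hγ, hx⟩ := fd x
      rw [← inv x γ hγ]
      exact hB _ (mK _ hx))
    inv (half_pos hε).le (Real.log_pos (by have := div_pos d0 b0; linarith))
    (fun u x hu => by
      obtain ⟨γ, hγ, hx⟩ := fd x
      rw [← inv x γ hγ, ← inv (u * x) γ hγ, mul_assoc, ← dist_eq_norm, dist_comm]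
      refine (hδ (a := e (x * γ)) (b := e (u * (x * γ))) ?_ ⟨_, mK _ hx, rfl⟩).le
      have a1 : nM (Ex v u - 1) < δ / (|B'| + 1) := by
        have := (Real.log_lt_log_iff (p0 u) (by have := div_pos d0 b0; linarith)).1 hu
        linarith
      have a2 : nM (Ex v (x * γ)) ≤ |B'| + 1 := by
        have := (le_abs_self _).trans ((hB' _ (mK _ hx)).trans (le_abs_self B'))
        linarith
      have a3 : nM (Ex v (u * (x * γ)) - Ex v (x * γ)) < δ := by
        rw [h.Ex_mul hG u, ← sub_one_mul]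
        refine (nM_mul _ _).trans_lt ((mul_le_mul_of_nonneg_left a2 (nM_nonneg _)).trans_lt ?_)
        exact (lt_div_iff₀ b0).1 a1
      rw [Subtype.dist_eq, dist_comm]
      exact (dist_pi_lt_iff d0).2 fun i => (dist_pi_lt_iff d0).2 fun j =>
        (le_nM (Ex v (u * (x * γ)) - Ex v (x * γ)) i j).trans_lt a3)
  exact ⟨F2, L, c, c0, hT, fun x => (hc x).trans (by linarith)⟩

end UT

end Pool.Agent.Lib.MP_028aa5_nt.N
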