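import Pool.Agent.Lib.MP_028aa5_nt.N.UTa
import Pool.Agent.Lib.MP_028aa5_nt.N.ConA
import Pool.Agent.Lib.MP_028aa5_nt.N.Bch
import Pool.Agent.Lib.MP_028aa5_nt.N.Tri

/-! From unipotent matrix groups to the model. -/

namespace Pool.Agent.Lib.MP_028aa5_nt.N

open Finset Polynomial
open scoped Classical

theorem NS.mem_Gam {s : ℕ} (n : NS s) {γ : n.G ℝ} : γ ∈ n.Gam ↔ ∀ a, ∃ z : ℤ, γ a = z :=
  forall_congr' fun a => AddSubgroup.mem_zmultiples_iff.trans (by simp [eq_comm])

/-- a bounded fundamental domain -/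
theorem NS.fd {s : ℕ} (n : NS s) : ∃ C, ∀ x : n.G ℝ, ∃ γ ∈ n.Gam, PN.nG (x * γ) ≤ C := by
  refine ⟨∑ _a : n.I, 1, fun x => ?_⟩
  have k : ∀ w, ∃ γ ∈ n.Gam, ∀ a, n.wt a < w → |(x * γ) a| ≤ 1 := by
    intro w
    induction w with
    | zero => exact ⟨1, one_mem _, fun a h => absurd h (Nat.not_lt_zero _)⟩
    | succ w ih =>
      obtain ⟨γ, hγ, h⟩ := ih
      let δ : n.G ℝ := fun a => if n.wt a < w then 0 else ((-⌊(x * γ) a⌋ : ℤ) : ℝ)
      refine ⟨γ * δ, mul_mem hγ (n.mem_Gam.2 fun a => ?_), fun a ha => ?_⟩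
      · simp only [δ]
        split_ifs
        exacts [⟨0, Int.cast_zero.symm⟩, ⟨_, rfl⟩]
      · rw [← mul_assoc, PN.lead_right (w := w) (y := δ) _ (fun a ha => if_pos ha)
          (Nat.le_of_lt_succ ha)]
        simp only [δ]
        split_ifs with c
        · rw [add_zero]
          exact h a c
        · rw [Int.cast_neg, ← sub_eq_add_neg, Int.self_sub_floor, Int.abs_fract]
          exact (Int.fract_lt_one _).le
  obtain ⟨γ, hγ, h⟩ := k (s + 1)
  exact ⟨γ, hγ, sum_le_sum fun a _ => h a (Nat.lt_succ_of_le (n.ws a))⟩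

namespace UT

variable {d : ℕ}

section Lr

variable {R : Type} [CommRing R] [Algebra ℚ R] (f : Mx d ℚ →ₗ[ℚ] ℚ)

/-- a rational functional on matrices over `R` -/
noncomputable def lr (Y : Mx d R) : R := ∑ i, ∑ j, f (Matrix.single i j 1) • Y i j

theorem lr_map {R' : Type} [CommRing R'] [Algebra ℚ R'] (φ : R →+* R') (Y : Mx d R) :
    φ (lr f Y) = lr f (Y.map φ) := by
  simp only [lr, map_sum, map_rat_smul, Matrix.map_apply]

theorem lr_cs (X : Mx d ℚ) : lr f (cs R X) = algebraMap ℚ R (f X) := by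
  conv_rhs => rw [Matrix.matrix_eq_sum_single X]
  simp only [lr, map_sum, cs, Matrix.map_apply]
  refine sum_congr rfl fun i _ => sum_congr rfl fun j _ => ?_
  rw [Algebra.smul_def, ← map_mul, mul_comm, ← smul_eq_mul, ← map_smul, Matrix.smul_single,
    smul_eq_mul, mul_one]

theorem lr_add (Y Z : Mx d R) : lr f (Y + Z) = lr f Y + lr f Z := by
  simp only [lr, Matrix.add_apply, smul_add, sum_add_distrib]

theorem lr_smul (r : R) (Y : Mx d R) : lr f (r • Y) = r * lr f Y := by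
  simp only [lr, Matrix.smul_apply, smul_eq_mul, mul_sum, mul_smul_comm]

end Lr

/-- the real Lie algebra spanned by a rational one -/
noncomputable def alg (g : Submodule ℚ (Mx d ℚ)) : Submodule ℝ (Mx d ℝ) :=
  Submodule.span ℝ (cs ℝ '' g)

/-- the group of exponentials -/
def grp (g : Submodule ℚ (Mx d ℚ)) : Set (Mx d ℝ) := ex d '' alg g

/-- the filtration by diagonals -/
def fil (g : Submodule ℚ (Mx d ℚ)) (K i : ℕ) : Submodule ℚ (Mx d ℚ) where
  carrier := {X | X ∈ g ∧ ∀ a b : Fin d, K * b < K * a + i → X a b = 0}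
  add_mem' x y := ⟨g.add_mem x.1 y.1, fun a b c => by
    rw [Matrix.add_apply, x.2 a b c, y.2 a b c, add_zero]⟩
  zero_mem' := ⟨g.zero_mem, fun _ _ _ => rfl⟩
  smul_mem' t _ x := ⟨g.smul_mem t x.1, fun a b c => by
    rw [Matrix.smul_apply, x.2 a b c, smul_zero]⟩

theorem poly_ext {p q : ℝ[X]} (h : ∀ m : ℕ, p.eval (m : ℝ) = q.eval (m : ℝ)) : p = q :=
  eq_of_infinite_eval_eq p q ((Set.infinite_range_of_injective Nat.cast_injective).mono
    (by rintro _ ⟨m, rfl⟩; exact h m))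

variable {g : Submodule ℚ (Mx d ℚ)}

theorem fil_mono {K i j : ℕ} (h : i ≤ j) : fil g K j ≤ fil g K i :=
  fun _ x => ⟨x.1, fun a b c => x.2 a b (by omega)⟩

theorem fil_mul {K i j : ℕ} {X Y : Mx d ℚ} (x : X ∈ fil g K i) (y : Y ∈ fil g K j) (a b : Fin d)
    (c : K * b < K * a + (i + j)) : (X * Y) a b = 0 := by
  rw [Matrix.mul_apply]
  refine sum_eq_zero fun l _ => ?_
  by_cases e : K * l < K * a + i
  · rw [x.2 a l e, zero_mul]
  · rw [y.2 l b (by omega), mul_zero]

theorem up_alg (hu : ∀ X ∈ g, Up 1 X) {Y : Mx d ℝ} (h : Y ∈ alg g) : Up 1 Y := by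
  induction h using Submodule.span_induction with
  | mem _ h => obtain ⟨X, hX, rfl⟩ := h; exact (hu X hX).cs
  | zero => exact up_zero 1
  | add _ _ _ _ a b => exact a.add b
  | smul t _ _ a => exact a.smul t

/-- the model of a rational algebra of matrices -/
theorem model (k : ℕ) {D : ℕ} (hD : 1 ≤ D) (hu : ∀ X ∈ g, Up 1 X)
    (hb : ∀ X ∈ g, ∀ Y ∈ g, X * Y - Y * X ∈ g) :
    ∃ (s : ℕ) (n : NS s) (v : n.I → Mx d ℚ), 1 ≤ s ∧ Rep n.toPN v ∧ (∀ a, v a ∈ g) ∧
      (∀ γ ∈ n.Gam, ∀ i j, ∃ z : ℤ, (Ex v γ - 1 : Mx d ℝ) i j = D * z) ∧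
      ∀ A : Mx d ℝ[X], (∀ i j : Fin d, (A i j).degree ≤ ((k + 1) * (j - i) : ℕ)) → Up 1 A →
        (∀ m : ℕ, A.map (evalRingHom (m : ℝ)) ∈ alg g) → ∃ p : n.Ph, lm v p.1 = A := by
  set K := k + 1
  set s := K * d + 1 with hs
  have ds : d ≤ s := (Nat.le_mul_of_pos_left d (Nat.succ_pos k)).trans (Nat.le_succ _)
  have w1 : ∀ X ∈ g, X ∈ fil g K 1 := fun X hX => ⟨hX, fun a b c => hu X hX a b (by
    have : K * b ≤ K * a := by omega
    have := Nat.le_of_mul_le_mul_left this (Nat.succ_pos k)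
    omega)⟩
  have w0 : ∀ X ∈ fil g K (s + 1), X = 0 := fun X hX => Matrix.ext fun a b => hX.2 a b (by
    have := Nat.mul_le_mul_left K b.2.le
    omega)
  obtain ⟨n, v, l, c1, c2, c3, c4, c5, c6, -⟩ := Con.con s
    (LinearMap.mul ℚ (Mx d ℚ) - (LinearMap.mul ℚ (Mx d ℚ)).flip) (fil g K)
    (fun i _ _ => fil_mono (Nat.le_succ i))
    (fun x _ y _ => by
      convert (fil g K (s + 1)).zero_mem using 1
      simp only [LinearMap.sub_apply, LinearMap.flip_apply, LinearMap.mul_apply']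
      noncomm_ring)
    (fun x _ y _ z _ => by
      convert (fil g K (s + 1)).zero_mem using 1
      simp only [LinearMap.sub_apply, LinearMap.flip_apply, LinearMap.mul_apply']
      noncomm_ring)
    (fun i j _ _ _ _ x hx y hy => fil_mono (min_le_left _ _) ⟨hb x hx.1 y hy.1, fun a b c => by
      simp only [LinearMap.sub_apply, LinearMap.flip_apply, LinearMap.mul_apply']
      rw [Matrix.sub_apply, fil_mul hx hy a b c, fil_mul hy hx a b (by omega), sub_zero]⟩)
    (fun ij : Fin d × Fin d => Matrix.entryLinearMap ℚ ℚ ij.1 ij.2)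
    (D := D * (s + 1).factorial) (Nat.mul_pos hD (Nat.factorial_pos _))
  have vg : ∀ a, v a ∈ g := fun a => (c1 a).1
  have sp : ∀ X ∈ g, X = ∑ a, l a X • v a := fun X hX => sub_eq_zero.1 (w0 _ (c4 X (w1 X hX)))
  have hR : Rep n.toPN v := ⟨ds, fun a => hu _ (vg a), fun a b => by
    simp only [c5]
    exact sp _ (hb _ (vg a) _ (vg b))⟩
  have spR : ∀ Y ∈ alg g, ∑ a, lr (l a) Y • cs ℝ (v a) = Y := fun Y h => by
    induction h using Submodule.span_induction with
    | mem _ h =>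
      obtain ⟨X, hX, rfl⟩ := h
      ext i j
      have := congrArg (algebraMap ℚ ℝ) (congrFun (congrFun (sp X hX) i) j)
      simp only [lr_cs]
      simpa only [cs, Matrix.sum_apply, Matrix.smul_apply, Matrix.map_apply, smul_eq_mul, map_sum,
        map_mul] using this.symm
    | zero => simp [lr]
    | add _ _ _ _ a b => simp only [lr_add, add_smul, sum_add_distrib, a, b]
    | smul t _ _ a => simp only [lr_smul, mul_smul, ← smul_sum, a]
  refine ⟨s, n, v, by omega, hR, vg, fun γ hγ i j => ?_, fun A hA hU hm => ?_⟩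
  · choose z hz using n.mem_Gam.1 hγ
    choose t ht using c6
    have N0 : ((D * (s + 1).factorial : ℕ) : ℝ) ≠ 0 := by positivity
    obtain ⟨C, hC, e⟩ := ex_int ds (Int.castRingHom ℝ).range D
      ((hR.up_lm γ).smul ((D * (s + 1).factorial : ℕ) : ℝ)⁻¹) fun i j =>
        ⟨∑ a, z a * t a (i, j), by
          have : ∀ a, v a i j = _ := fun a => ht a (i, j)
          rw [Matrix.smul_apply, smul_eq_mul, eq_inv_mul_iff_mul_eq₀ N0]
          simp only [lm_apply, Matrix.sum_apply, Matrix.smul_apply, cs, Matrix.map_apply, this, hz,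
            smul_eq_mul, eq_intCast, map_mul, map_natCast, map_intCast, Int.cast_sum, Int.cast_mul,
            mul_sum]
          exact sum_congr rfl fun a _ => by ring⟩
    rw [← Nat.cast_smul_eq_nsmul ℝ, smul_inv_smul₀ N0] at e
    obtain ⟨u, hu⟩ := hC i j
    exact ⟨u, by rw [Ex, e, Matrix.smul_apply, ← hu, nsmul_eq_mul, eq_intCast]⟩
  · have e : ∑ a, lr (l a) A • cs ℝ[X] (v a) = A := Matrix.ext fun i j => poly_ext fun m => by
      have : ∑ a, evalRingHom (m : ℝ) (lr (l a) A) • cs ℝ (v a) = _ :=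
        lm_map (n := n.toPN) (v := v) (evalRingHom (m : ℝ)) fun a => lr (l a) A
      simp only [lr_map, spR _ (hm m)] at this
      exact (congrFun (congrFun this i) j).symm
    refine ⟨⟨fun a => lr (l a) A, n.mem_P.2 fun b => natDegree_le_iff_coeff_eq_zero.2 fun j hj =>
      (Module.forall_dual_apply_eq_zero_iff ℚ _).1 fun θ => ?_⟩, e⟩
    have := c2 b (min j (s + 1)) (lt_min hj (Nat.lt_succ_of_le (n.ws b))) (min_le_right _ _)
      (∑ a, θ ((lr (l a) A).coeff j) • v a) (fil_mono (min_le_left _ _)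
        ⟨g.sum_mem fun a _ => g.smul_mem _ (vg a), fun i i' c => by
          have z : (A i i').coeff j = 0 := by
            by_cases o : (i : ℕ) < i'
            · refine coeff_eq_zero_of_degree_lt ((hA i i').trans_lt ?_)
              have : K * (i' - i) < j := by rw [Nat.mul_sub]; have := Nat.mul_le_mul_left K o.le; omega
              exact_mod_cast this
            · rw [hU i i' (by omega), coeff_zero]
          have := congrArg θ z
          rw [← e] at this
          simpa only [Matrix.sum_apply, Matrix.smul_apply, cs, Matrix.map_apply,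
            smul_eq_mul, ← Algebra.commutes, ← Algebra.smul_def, finsetSum_coeff, coeff_smul,
            map_sum, map_smul, map_zero, mul_comm (θ _)] using this⟩)
    simpa [c3] using this

/-- the bridge -/
theorem bridge (k : ℕ) {D : ℕ} (hD : 1 ≤ D) (hu : ∀ X ∈ g, Up 1 X)
    (hb : ∀ X ∈ g, ∀ Y ∈ g, X * Y - Y * X ∈ g) {F : Mx d ℝ → ℂ} (hF : ContinuousOn F (grp g))
    (hi : ∀ x ∈ grp g, ∀ y ∈ grp g, (∀ i j, ∃ z : ℤ, (y - 1) i j = D * z) → F (x * y) = F x)
    {ε : ℝ} (hε : 0 < ε) :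
    ∃ (s : ℕ) (n : NS s) (F2 : n.G ℝ → ℂ) (L c : ℝ), 1 ≤ s ∧ 0 < c ∧ n.Test F2 L ∧
      ∀ U : Mx d ℝ[X], (∀ i j, (U i j).natDegree ≤ k) →
        (∀ m : ℕ, U.map (eval (m : ℝ)) ∈ grp g) →
        ∃ p : n.Ph, ∀ m : ℕ, ‖F (U.map (eval (m : ℝ))) - c * F2 (PN.ev m p)‖ ≤ ε := by
  obtain ⟨s, n, v, s1, hR, vg, hΓ, hP⟩ := model k hD hu hb
  have hm : ∀ x : n.G ℝ, Ex v x ∈ grp g := fun x =>
    ⟨lm v x, (alg g).sum_mem fun a _ => (alg g).smul_mem _ (Submodule.subset_span ⟨_, vg a, rfl⟩),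
      (ex_stab hR.le (hR.up_lm x)).symm⟩
  obtain ⟨F2, L, c, c0, hT, hc⟩ := hR.approx (good_cb s) n.fd hm hF
    (fun x γ hγ => hi _ (hm x) _ (hm γ) (hΓ γ hγ)) hε
  refine ⟨s, n, F2, L, c, s1, c0, hT, fun U hU hG => ?_⟩
  choose Y hY eY using hG
  obtain ⟨A, a1, a2, a3⟩ := ex_fam le_rfl
    (fun i j : Fin d => (degreeLE ℝ ((k + 1) * (j - i) : ℕ)).restrictScalars ℚ)
    (fun i l j h1 h2 p hp q hq => by
      rw [Submodule.restrictScalars_mem, mem_degreeLE] at hp hq ⊢
      refine (degree_mul_le_of_le hp hq).trans (le_of_eq ?_)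
      have h1 : (i : ℕ) < l := h1
      have h2 : (l : ℕ) < j := h2
      rw [← Nat.cast_add, ← mul_add, show (l : ℕ) - i + (j - l) = j - i by omega])
    (A := U) (fun i j c => poly_ext fun m => by
      have := up_ex le_rfl (up_alg hu (hY m)) i j c
      rw [eY] at this
      simpa [Matrix.one_apply, apply_ite (eval (m : ℝ))] using this)
    fun i j h => by
      rw [Submodule.restrictScalars_mem, mem_degreeLE, ← natDegree_le_iff_degree_le]
      have : (i : ℕ) < j := h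
      exact (hU i j).trans ((Nat.le_succ k).trans (Nat.le_mul_of_pos_right _ (by omega)))
  have e : ∀ m : ℕ, A.map (evalRingHom (m : ℝ)) = Y m := fun m =>
    ex_inj le_rfl (fun i j c => by rw [Matrix.map_apply, a1 i j c, map_zero]) (up_alg hu (hY m))
      (by rw [ex_map, a3, eY]; rfl)
  obtain ⟨p, hp⟩ := hP A (fun i j => mem_degreeLE.1 (a2 i j)) a1 fun m => e m ▸ hY m
  refine ⟨p, fun m => ?_⟩
  have := hc (PN.ev m p)
  rwa [Ex, show lm v (PN.ev m p) = Y m from (lm_map _ _).trans (hp ▸ e m),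
    ex_stab hR.le (up_alg hu (hY m)), eY] at this

end UT

end Pool.Agent.Lib.MP_028aa5_nt.N
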